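import Mathlib

/-!
Statements for the theorem on popular ratios in finitely generated groups (independent of each other;
`S_unit` may use `S_lin` as a hypothesis).

Main theorem in preparation (problem MP_cc0731_co): for every field `F`, every finitely generated
subgroup `Γ` of `F*` of rank `ρ`, all `K ≥ 1` and `ε > 0` there is `C` such that every finite subset
`A`, `|A| ≥ C`, of an `F`-vector space with more than `(C log|A|) ^ ρ` ratios `r ∈ Γ` with
`|A ∩ rA| ≥ |A| / K` satisfies `|A + B| ≥ (|A| |B|) ^ (1 - ε)` for all finite `B`.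
-/

set_option autoImplicit false

namespace Pool.Agent.H85.AK.Stmt2

open Finset

/-- **S_valex.** An element of a field which is not integral over `ℤ` is not in some valuation ring.

Proof. `iInf_valuationSubring_superset` (Mathlib/RingTheory/Valuation/LocalSubring.lean) with `s = ∅`
(or `s = {0}`): the intersection of all valuation subrings is the integral closure of the prime
subring `Subring.closure s`. An element integral over this subring is integral over `ℤ` (the elements
of `Subring.closure ∅` are images of integers; `IsIntegral.tower_top`/`isIntegral_trans`, or show that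
`integralClosure ℤ F` is integrally closed). Take `Γ₀ = V.ValueGroup`, `v = V.valuation`
(`ValuationSubring.valuation_le_one_iff`). -/
def S_valex : Prop := ∀ (F : Type) [Field F] (r : F), ¬ IsIntegral ℤ r →
  ∃ (Γ₀ : Type) (_ : LinearOrderedCommGroupWithZero Γ₀) (v : Valuation F Γ₀), 1 < v r

/-- **S_charp.** Integral elements in positive characteristic are roots of unity.

Proof. `r` is integral over `ℤ`, hence algebraic over `ZMod p`; `(ZMod p)(r)` is a finite field and
`r ≠ 0` has finite order (`isOfFinOrder_of_finite`, `orderOf`). -/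
def S_charp : Prop := ∀ (F : Type) [Field F] (p : ℕ) [Fact p.Prime] [CharP F p] (r : F), r ≠ 0 →
  IsIntegral ℤ r → ∃ n : ℕ, 0 < n ∧ r ^ n = 1

/-- **S_rank.** A saturated proper submodule has a smaller rank.

Proof. `M ⧸ N` is torsion-free (saturation), finitely generated and non-trivial, so its `finrank` is
positive (`Module.finrank_pos`), and `finrank (M ⧸ N) + finrank N = finrank M`
(`Submodule.finrank_quotient_add_finrank`). -/
def S_rank : Prop := ∀ (M : Type) [AddCommGroup M] [Module.Free ℤ M] [Module.Finite ℤ M]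
  (N : Submodule ℤ M), (∀ (n : ℤ) (m : M), n ≠ 0 → n • m ∈ N → m ∈ N) → N ≠ ⊤ →
  Module.finrank ℤ N < Module.finrank ℤ M

/-- **S_lin.** Choosing `rank M` linear forms.

Proof. Let `b` be a basis of `M` (`Module.finBasis ℤ M` or `Module.Free.chooseBasis`), `ρ` the rank and
`a_i ∈ ℝ ^ ρ` the vector `(Λ_i(b_1), …, Λ_i(b_ρ))`. (1) If `x ∈ ℝ ^ ρ` satisfies `a_i · x = 0` for all
`i` then `x = 0`: otherwise the elements `m_t = Σ_j ⌊t x_j⌋ b_j`, `t ∈ ℕ`, satisfy
`|Λ_i(m_t)| = |a_i · (⌊t x⌋ - t x)| ≤ Σ_j |a_i j|` for all `t`, so they lie in a finite set, but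
they are infinitely many because some coordinate `⌊t x_j⌋` is unbounded. (2) So the vectors `a_i` span
`ℝ ^ ρ`; choose `e : Fin ρ → ι` such that the `a_{e j}` form a basis (e.g.
`Submodule.exists_fun_fin_finrank_span_eq`, `exists_linearIndependent`). (3) The linear
map `x ↦ (a_{e j} · x)_j` of `ℝ ^ ρ` is injective, so there is `c` with
`‖x‖ ≤ c max_j |a_{e j} · x|` (`LinearMap.injective_iff_antilipschitz` or the continuity of the inverse
`LinearEquiv`), and the integral points of a bounded set are finitely many. -/
def S_lin : Prop := ∀ (M : Type) [AddCommGroup M] [Module.Free ℤ M] [Module.Finite ℤ M]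
  (ι : Type) [Finite ι] (Λ : ι → (M →+ ℝ)),
  (∀ T : ℝ, {m : M | ∀ i, |Λ i m| ≤ T}.Finite) →
  ∃ e : Fin (Module.finrank ℤ M) → ι, ∀ T : ℝ, {m : M | ∀ j, |Λ (e j) m| ≤ T}.Finite

/-- **S_unit.** Archimedean places for a group of units (prove it from `S_lin`).

Proof. `k = IntermediateField.adjoin ℚ (Set.range g)` is generated by the finitely many algebraic
elements `g (b_j)`, `b` a basis of `M` (`g (-m) = (g m)⁻¹`), so it is a number field; `x m` is `g m` as
an element of `k`. Let `ι = (k →+* ℂ)` (finite) and `Λ_σ(m) = log ‖σ (x m)‖`, an additive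
homomorphism. For every `T` the set `{m | ∀ σ, |Λ_σ m| ≤ T}` is finite because `x` is injective and
`{y ∈ k | IsIntegral ℤ y ∧ ∀ σ, ‖σ y‖ ≤ exp T}` is finite (`NumberField.Embeddings.finite_of_norm_le`).
Apply `S_lin` and `T = log 3`. -/
def S_unit : Prop := ∀ (F : Type) [Field F] [CharZero F] (M : Type) [AddCommGroup M]
  [Module.Free ℤ M] [Module.Finite ℤ M] (g : M → F), g 0 = 1 → (∀ m n, g (m + n) = g m * g n) →
  Function.Injective g → (∀ m, IsIntegral ℤ (g m)) →
  ∃ (k : Type) (_ : Field k) (_ : Algebra k F) (x : M → k)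
    (σ : Fin (Module.finrank ℤ M) → (k →+* ℂ)), (∀ m, algebraMap k F (x m) = g m) ∧
    {m : M | ∀ j, 1 / 3 < ‖σ j (x m)‖ ∧ ‖σ j (x m)‖ < 3}.Finite

/-- **S_split.** A finitely generated abelian group is a free group times a finite one.

Proof. Structure theorem (`CommGroup.equiv_free_prod_prod_multiplicative_zmod` or
`AddCommGroup.equiv_free_prod_directSum_zmod`, or `Module.equiv_free_prod_directSum`), or: the
quotient by the torsion subgroup is free, so it splits. The rank of the free part is the `finrank` of
the group (`Module.finrank_prod`-type computations: a torsion module has `finrank` zero, or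
`finrank` of the quotient by the torsion submodule). -/
def S_split : Prop := ∀ (G : Type) [CommGroup G] [Group.FG G],
  ∃ (M : Type) (_ : AddCommGroup M) (_ : Module.Free ℤ M) (_ : Module.Finite ℤ M) (g : M → G)
    (T : Finset G), Module.finrank ℤ M = Module.finrank ℤ (Additive G) ∧ g 0 = 1 ∧
    (∀ m n, g (m + n) = g m * g n) ∧ Function.Injective g ∧ ∀ x : G, ∃ t ∈ T, ∃ m, x = t * g m

/-- **S_int.** All elements of the group generated are integral (an auxiliary fact on sums over a
finite linearly ordered set of levels).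

Let `S` be a finite set with a function `w` to a linear order. For every finite set `Φ` of levels,
`Σ_{γ ∈ Φ} (log(1 + #{w ≤ γ}) - log(1 + #{w < γ})) ≤ log(1 + |S|)`, with equality if `w(S) ⊆ Φ`.

Proof. `Finset.induction_on_max` on `Φ`, for all `S` at the same time: let `γ` be the largest element,
`Φ' = Φ \ {γ}`; the terms of `Φ'` do not change if `S` is replaced by `S' = {w < γ}`, so by induction
their sum is `≤ log(1 + |S'|)` (with equality if `w(S) ⊆ Φ`, because then `w(S') ⊆ Φ'`), and the last
term is `log(1 + #{w ≤ γ}) - log(1 + |S'|)`, where `#{w ≤ γ} ≤ |S|` (equality if `w(S) ⊆ Φ`). -/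
def S_levels : Prop := ∀ (α β : Type) [LinearOrder β] (S : Finset α) (w : α → β) (Φ : Finset β),
  (∑ γ ∈ Φ, (Real.log (1 + ((S.filter fun a => w a ≤ γ).card : ℝ)) -
    Real.log (1 + ((S.filter fun a => w a < γ).card : ℝ))) ≤ Real.log (1 + (S.card : ℝ))) ∧
  ((∀ a ∈ S, w a ∈ Φ) →
    ∑ γ ∈ Φ, (Real.log (1 + ((S.filter fun a => w a ≤ γ).card : ℝ)) -
    Real.log (1 + ((S.filter fun a => w a < γ).card : ℝ))) = Real.log (1 + (S.card : ℝ)))

end Pool.Agent.H85.AK.Stmt2
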