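import Pool.Agent.H85.AK.Mul9

/-!
Archimedean places: the local inequality with neighbours in a fibre.
-/

set_option autoImplicit false

namespace Pool.Agent.H85.AK

open Finset
open scoped Classical

variable {α β γ ζ κ μ ν : Type*}

/-- the number of neighbours in the fibre -/
noncomputable def nr (Ω : Finset α) (U : α → β) (V : α → γ) (Z : α → ζ) (a : α) : ℝ :=
  ((Ω.filter fun b => Z b = Z a ∧ (U b = U a ∨ V b = V a)).card : ℝ)

/-- the loss, with neighbours -/
noncomputable def nloss (Ω : Finset α) (U : α → β) (V : α → γ) (Z : α → ζ) : ℝ :=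
  ∑ a ∈ Ω, (Real.log (ct Ω Z a) - Real.log (nr Ω U V Z a))

theorem nr_pos {Ω : Finset α} (U : α → β) (V : α → γ) (Z : α → ζ) {a : α} (ha : a ∈ Ω) :
    0 < nr Ω U V Z a := by
  unfold nr
  have h : 0 < (Ω.filter fun b => Z b = Z a ∧ (U b = U a ∨ V b = V a)).card :=
    card_pos.2 ⟨a, mem_filter.2 ⟨ha, rfl, Or.inl rfl⟩⟩
  exact_mod_cast h

theorem nr_le {Ω : Finset α} (U : α → β) (V : α → γ) (Z : α → ζ) (a : α) :
    nr Ω U V Z a ≤ ct Ω Z a := by
  unfold nr ct cv
  apply Nat.cast_le.2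
  apply card_le_card
  intro b hb
  obtain ⟨h1, h2, _⟩ := mem_filter.1 hb
  exact mem_filter.2 ⟨h1, h2⟩

theorem le_nr {Ω Ω' : Finset α} {U : α → β} {V : α → γ} {Z : α → ζ} {f : α → κ} {a : α}
    (h : ∀ b ∈ Ω', f b = f a → b ∈ Ω ∧ Z b = Z a ∧ (U b = U a ∨ V b = V a)) :
    ct Ω' f a ≤ nr Ω U V Z a := by
  unfold nr ct cv
  apply Nat.cast_le.2
  apply card_le_card
  intro b hb
  obtain ⟨h1, h2⟩ := mem_filter.1 hb
  obtain ⟨h3, h4⟩ := h b h1 h2
  exact mem_filter.2 ⟨h3, h4⟩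

theorem nloss_le_left (Ω : Finset α) (U : α → β) (V : α → γ) (Z : α → ζ) :
    nloss Ω U V Z ≤ hh Ω U := by
  have h := subadd Ω Z U
  rw [← sub_nonneg, ← sum_sub_distrib] at h
  unfold nloss hh
  rw [← sub_nonneg, ← sum_sub_distrib]
  refine h.trans (sum_le_sum fun a ha => ?_)
  have h1 : Real.log (ct Ω (fun a => (Z a, U a)) a) ≤ Real.log (nr Ω U V Z a) := by
    apply Real.log_le_log (ct_pos _ ha)
    apply le_nr
    intro b hb h
    simp only [Prod.mk.injEq] at h
    exact ⟨hb, h.1, Or.inl h.2⟩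
  linarith

theorem nloss_le_right (Ω : Finset α) (U : α → β) (V : α → γ) (Z : α → ζ) :
    nloss Ω U V Z ≤ hh Ω V := by
  have h := subadd Ω Z V
  rw [← sub_nonneg, ← sum_sub_distrib] at h
  unfold nloss hh
  rw [← sub_nonneg, ← sum_sub_distrib]
  refine h.trans (sum_le_sum fun a ha => ?_)
  have h1 : Real.log (ct Ω (fun a => (Z a, V a)) a) ≤ Real.log (nr Ω U V Z a) := by
    apply Real.log_le_log (ct_pos _ ha)
    apply le_nr
    intro b hb h
    simp only [Prod.mk.injEq] at h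
    exact ⟨hb, h.1, Or.inr h.2⟩
  linarith

theorem sum_cv_le (Ω : Finset α) (f : α → β) (s : Finset β) : ∑ c ∈ s, cv Ω f c ≤ Ω.card := by
  rw [← sum_cv Ω f]
  calc ∑ c ∈ s, cv Ω f c ≤ ∑ c ∈ s ∪ Ω.image f, cv Ω f c :=
        sum_le_sum_of_subset_of_nonneg subset_union_left fun _ _ _ => cv_nonneg _ _ _
    _ = ∑ c ∈ Ω.image f, cv Ω f c := by
        symm
        apply sum_subset subset_union_right
        intro c _ hc
        unfold cv
        rw [Nat.cast_eq_zero, card_eq_zero, filter_eq_empty_iff]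
        intro b hb hbc
        exact hc (mem_image.2 ⟨b, hb, hbc⟩)

/-- the part of the loss from a set whose points are neighbours of each other -/
theorem near_part {Ω S S' : Finset α} {U : α → β} {V : α → γ} {Z : α → ζ} (hS : S ⊆ Ω)
    (hnear : ∀ a ∈ S, ∀ b ∈ S, U a = U b ∨ V a = V b)
    (hfar : ∀ a ∈ S, ∀ b ∈ Ω, Z b = Z a → ¬ (U b = U a ∨ V b = V a) → b ∈ S') :
    ∑ a ∈ S, (Real.log (ct Ω Z a) - Real.log (nr Ω U V Z a)) ≤ S'.card := by
  have h1 : ∀ a ∈ S, Real.log (ct Ω Z a) - Real.log (nr Ω U V Z a) ≤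
      cv S' Z (Z a) / ct S Z a := by
    intro a ha
    have hp := nr_pos U V Z (hS ha)
    have hc := ct_pos Z (hS ha)
    have h2 := Real.log_le_sub_one_of_pos (show 0 < ct Ω Z a / nr Ω U V Z a by positivity)
    rw [Real.log_div hc.ne' hp.ne'] at h2
    have h3 : ct Ω Z a ≤ nr Ω U V Z a + cv S' Z (Z a) := by
      unfold ct nr
      have h4 : (Ω.filter fun b => Z b = Z a) ⊆
          (Ω.filter fun b => Z b = Z a ∧ (U b = U a ∨ V b = V a)) ∪
          (S'.filter fun b => Z b = Z a) := by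
        intro b hb
        obtain ⟨h5, h6⟩ := mem_filter.1 hb
        rw [mem_union, mem_filter, mem_filter]
        by_cases h7 : U b = U a ∨ V b = V a
        · exact Or.inl ⟨h5, h6, h7⟩
        · exact Or.inr ⟨hfar a ha b h5 h6 h7, h6⟩
      have h8 := (card_le_card h4).trans (card_union_le _ _)
      unfold cv
      exact_mod_cast h8
    have h4 : ct S Z a ≤ nr Ω U V Z a := le_nr fun b hb h => ⟨hS hb, h, by
      rcases hnear b hb a ha with h' | h'
      · exact Or.inl h'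
      · exact Or.inr h'⟩
    have h5 : ct Ω Z a / nr Ω U V Z a - 1 ≤ cv S' Z (Z a) / nr Ω U V Z a := by
      rw [div_sub_one hp.ne']
      exact div_le_div_of_nonneg_right (by linarith) hp.le
    have h6 : cv S' Z (Z a) / nr Ω U V Z a ≤ cv S' Z (Z a) / ct S Z a :=
      div_le_div_of_nonneg_left (cv_nonneg _ _ _) (ct_pos Z ha) h4
    linarith
  refine (sum_le_sum h1).trans ?_
  rw [sum_div_ct S Z (fun c => cv S' Z c)]
  exact sum_cv_le _ _ _

/-- the logarithmic sum inequality -/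
theorem log_sum {Ω S : Finset α} (hS : S ⊆ Ω) (hne : S.Nonempty) (Z : α → ζ) :
    ∑ a ∈ S, (Real.log (ct Ω Z a) - Real.log (ct S Z a)) ≤
      S.card * (Real.log (Ω.card : ℝ) - Real.log (S.card : ℝ)) := by
  have hSc : (0 : ℝ) < S.card := by exact_mod_cast card_pos.2 hne
  have hΩc : (0 : ℝ) < Ω.card := by exact_mod_cast card_pos.2 (hne.mono hS)
  have h1 : ∀ a ∈ S, Real.log (ct Ω Z a) - Real.log (ct S Z a) -
      (Real.log (Ω.card : ℝ) - Real.log (S.card : ℝ)) ≤
      (S.card / Ω.card : ℝ) * cv Ω Z (Z a) / ct S Z a - 1 := by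
    intro a ha
    have hc := ct_pos Z (hS ha)
    have hs := ct_pos Z ha
    have h2 := Real.log_le_sub_one_of_pos
      (show 0 < (S.card / Ω.card : ℝ) * ct Ω Z a / ct S Z a by positivity)
    rw [Real.log_div (by positivity) hs.ne', Real.log_mul (by positivity) hc.ne',
      Real.log_div hSc.ne' hΩc.ne'] at h2
    have h3 : ct Ω Z a = cv Ω Z (Z a) := rfl
    rw [← h3]
    linarith
  have h2 := sum_le_sum h1
  have hL : ∑ a ∈ S, (Real.log (ct Ω Z a) - Real.log (ct S Z a) -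
      (Real.log (Ω.card : ℝ) - Real.log (S.card : ℝ))) =
      ∑ a ∈ S, (Real.log (ct Ω Z a) - Real.log (ct S Z a)) -
      S.card * (Real.log (Ω.card : ℝ) - Real.log (S.card : ℝ)) := by
    rw [sum_sub_distrib, sum_const, nsmul_eq_mul]
  have hR : ∑ a ∈ S, ((S.card / Ω.card : ℝ) * cv Ω Z (Z a) / ct S Z a - 1) =
      (S.card / Ω.card : ℝ) * ∑ c ∈ S.image Z, cv Ω Z c - S.card := by
    rw [sum_sub_distrib, sum_const, nsmul_eq_mul, mul_one,
      sum_div_ct S Z (fun c => (S.card / Ω.card : ℝ) * cv Ω Z c), ← mul_sum]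
  rw [hL, hR] at h2
  have h3 : (S.card / Ω.card : ℝ) * ∑ c ∈ S.image Z, cv Ω Z c ≤ S.card := by
    have h4 := mul_le_mul_of_nonneg_left (sum_cv_le Ω Z (S.image Z))
      (show 0 ≤ (S.card / Ω.card : ℝ) by positivity)
    have h5 : (S.card / Ω.card : ℝ) * Ω.card = S.card := by field_simp
    linarith
  linarith

/-- entropy of a part which is a union of classes -/
theorem hh_part {X : Finset α} (P : α → β) (u : β) :
    hh (X.filter fun a => P a ≠ u) P ≤ hh X P := by
  set X1 := X.filter fun a => P a ≠ u with hX1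
  have h1 : hh X1 P ≤ ∑ a ∈ X1, (Real.log (X.card : ℝ) - Real.log (ct X P a)) := by
    unfold hh
    apply sum_le_sum
    intro a ha
    obtain ⟨h2, h3⟩ := mem_filter.1 ha
    have e : ct X1 P a = ct X P a := by
      unfold ct cv
      congr 2
      ext b
      simp only [hX1, mem_filter]
      constructor
      · rintro ⟨⟨h4, _⟩, h5⟩
        exact ⟨h4, h5⟩
      · rintro ⟨h4, h5⟩
        exact ⟨⟨h4, by rw [h5]; exact h3⟩, h5⟩
    rw [e]
    have h4 : Real.log (X1.card : ℝ) ≤ Real.log (X.card : ℝ) := by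
      apply Real.log_le_log
      · exact_mod_cast card_pos.2 ⟨a, ha⟩
      · exact_mod_cast card_filter_le _ _
    linarith
  refine h1.trans ?_
  apply sum_le_sum_of_subset_of_nonneg (filter_subset _ _)
  intro a ha _
  exact sub_nonneg.2 (log_ct_le P ha)

/-- **the local inequality with neighbours**, popular digits -/
theorem arc_small {δ : ℝ} (hδ : 0 < δ) (hδ1 : δ ≤ 1) {X : Finset α} {Y : Finset β}
    (hX : X.Nonempty) (hY : Y.Nonempty) {P : α → γ} {Q : β → κ} {Z : α × β → ζ} {u0 : γ} {v0 : κ}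
    (hu0 : 0 < ((X.filter fun a => P a ≠ u0).card : ℝ))
    (hv0 : 0 < ((Y.filter fun a => Q a ≠ v0).card : ℝ))
    (hu : ((X.filter fun a => P a ≠ u0).card : ℝ) = ep X P * X.card)
    (hv : ((Y.filter fun a => Q a ≠ v0).card : ℝ) = ep Y Q * Y.card)
    (c1 : ep X P ≤ Real.exp (-(1 / δ))) (c2 : ep Y Q ≤ Real.exp (-(1 / δ))) :
    nloss (X ×ˢ Y) (fun s => P s.1) (fun s => Q s.2) Z ≤
      δ * (Y.card * hh X P + X.card * hh Y Q) +
      2 * (ep Y Q * Y.card * hh X P + ep X P * X.card * hh Y Q) := by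
  have hXc : (0 : ℝ) < X.card := by exact_mod_cast card_pos.2 hX
  have hYc : (0 : ℝ) < Y.card := by exact_mod_cast card_pos.2 hY
  obtain ⟨lU, sU⟩ := small_mass hδ hX hu0 hu c1
  obtain ⟨lV, sV⟩ := small_mass hδ hY hv0 hv c2
  have hbU := hh_bound_mode X P u0
  have hbV := hh_bound_mode Y Q v0
  set X1 := X.filter fun a => P a ≠ u0 with hX1
  set Y1 := Y.filter fun a => Q a ≠ v0 with hY1
  set X0 := X.filter fun a => P a = u0 with hX0
  set Y0 := Y.filter fun a => Q a = v0 with hY0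
  set Ω := X ×ˢ Y with hΩ
  set U : α × β → γ := fun s => P s.1 with hU
  set V : α × β → κ := fun s => Q s.2 with hV
  -- the three parts
  have hdec : nloss Ω U V Z = ∑ a ∈ X ×ˢ Y0, (Real.log (ct Ω Z a) - Real.log (nr Ω U V Z a)) +
      (∑ a ∈ X0 ×ˢ Y1, (Real.log (ct Ω Z a) - Real.log (nr Ω U V Z a)) +
      ∑ a ∈ X1 ×ˢ Y1, (Real.log (ct Ω Z a) - Real.log (nr Ω U V Z a))) := by
    unfold nloss
    rw [← sum_filter_add_sum_filter_not Ω (fun a => V a = v0)]
    congr 1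
    · apply sum_congr _ fun _ _ => rfl
      ext a
      simp only [hΩ, hY0, hV, mem_filter, mem_product]
      tauto
    · rw [← sum_filter_add_sum_filter_not (Ω.filter fun a => ¬ V a = v0) (fun a => U a = u0)]
      congr 1
      · apply sum_congr _ fun _ _ => rfl
        ext a
        simp only [hΩ, hX0, hY1, hU, hV, mem_filter, mem_product]
        tauto
      · apply sum_congr _ fun _ _ => rfl
        ext a
        simp only [hΩ, hX1, hY1, hU, hV, mem_filter, mem_product]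
        tauto
  have p1 : ∑ a ∈ X ×ˢ Y0, (Real.log (ct Ω Z a) - Real.log (nr Ω U V Z a)) ≤ X.card * Y1.card := by
    have h := near_part (Ω := Ω) (S := X ×ˢ Y0) (S' := X ×ˢ Y1) (U := U) (V := V) (Z := Z)
      (product_subset_product le_rfl (filter_subset _ _))
      (by
        intro a ha b hb
        right
        have h1 := (mem_filter.1 (mem_product.1 ha).2).2
        have h2 := (mem_filter.1 (mem_product.1 hb).2).2
        exact h1.trans h2.symm)
      (by
        intro a ha b hb _ h3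
        have h1 := (mem_filter.1 (mem_product.1 ha).2).2
        obtain ⟨h4, h5⟩ := mem_product.1 hb
        refine mem_product.2 ⟨h4, mem_filter.2 ⟨h5, fun h6 => h3 (Or.inr ?_)⟩⟩
        exact h6.trans h1.symm)
    rw [card_product] at h
    push_cast at h
    exact h
  have p2 : ∑ a ∈ X0 ×ˢ Y1, (Real.log (ct Ω Z a) - Real.log (nr Ω U V Z a)) ≤
      X1.card * Y.card := by
    have h := near_part (Ω := Ω) (S := X0 ×ˢ Y1) (S' := X1 ×ˢ Y) (U := U) (V := V) (Z := Z)
      (product_subset_product (filter_subset _ _) (filter_subset _ _))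
      (by
        intro a ha b hb
        left
        have h1 := (mem_filter.1 (mem_product.1 ha).1).2
        have h2 := (mem_filter.1 (mem_product.1 hb).1).2
        exact h1.trans h2.symm)
      (by
        intro a ha b hb _ h3
        have h1 := (mem_filter.1 (mem_product.1 ha).1).2
        obtain ⟨h4, h5⟩ := mem_product.1 hb
        refine mem_product.2 ⟨mem_filter.2 ⟨h4, fun h6 => h3 (Or.inl ?_)⟩, h5⟩
        exact h6.trans h1.symm)
    rw [card_product] at h
    push_cast at h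
    exact h
  -- the third part
  have hX1ne : X1.Nonempty := card_pos.1 (by exact_mod_cast hu0)
  have hY1ne : Y1.Nonempty := card_pos.1 (by exact_mod_cast hv0)
  have hsub : X1 ×ˢ Y1 ⊆ Ω := product_subset_product (filter_subset _ _) (filter_subset _ _)
  have p3 : ∑ a ∈ X1 ×ˢ Y1, (Real.log (ct Ω Z a) - Real.log (nr Ω U V Z a)) ≤
      (X1.card * Y1.card) * ((Real.log (X.card : ℝ) + Real.log (Y.card : ℝ)) -
        (Real.log (X1.card : ℝ) + Real.log (Y1.card : ℝ))) + Y1.card * hh X P := by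
    have h1 := log_sum hsub (hX1ne.product hY1ne) Z
    have h2 := nloss_le_left (X1 ×ˢ Y1) U V Z
    have h3 : hh (X1 ×ˢ Y1) U = Y1.card * hh X1 P := hh_fst hX1ne hY1ne P
    have h4 : (Y1.card : ℝ) * hh X1 P ≤ Y1.card * hh X P :=
      mul_le_mul_of_nonneg_left (hh_part P u0) (Nat.cast_nonneg _)
    have h5 : ∑ a ∈ X1 ×ˢ Y1, (Real.log (ct Ω Z a) - Real.log (nr Ω U V Z a)) ≤
        ∑ a ∈ X1 ×ˢ Y1, (Real.log (ct Ω Z a) - Real.log (ct (X1 ×ˢ Y1) Z a)) +
        nloss (X1 ×ˢ Y1) U V Z := by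
      unfold nloss
      rw [← sum_add_distrib]
      apply sum_le_sum
      intro a ha
      have h6 : Real.log (nr (X1 ×ˢ Y1) U V Z a) ≤ Real.log (nr Ω U V Z a) := by
        apply Real.log_le_log (nr_pos _ _ _ ha)
        unfold nr
        apply Nat.cast_le.2
        apply card_le_card
        exact filter_subset_filter _ hsub
      linarith
    rw [card_product, card_product] at h1
    push_cast at h1
    rw [Real.log_mul hXc.ne' hYc.ne', Real.log_mul hu0.ne' hv0.ne'] at h1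
    linarith
  rw [hdec]
  have q1 : (X.card : ℝ) * Y1.card ≤ δ * (X.card * hh Y Q) := by
    have := mul_le_mul_of_nonneg_left sV hXc.le
    linarith
  have q2 : (X1.card : ℝ) * Y.card ≤ δ * (Y.card * hh X P) := by
    have := mul_le_mul_of_nonneg_right sU hYc.le
    linarith
  have q3 : ((X1.card : ℝ) * Y1.card) * ((Real.log (X.card : ℝ) + Real.log (Y.card : ℝ)) -
        (Real.log (X1.card : ℝ) + Real.log (Y1.card : ℝ))) ≤
      Y1.card * hh X P + X1.card * hh Y Q := by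
    have h1 := mul_le_mul_of_nonneg_left hbU hv0.le
    have h2 := mul_le_mul_of_nonneg_left hbV hu0.le
    linarith
  have e1 : (Y1.card : ℝ) * hh X P = ep Y Q * Y.card * hh X P := by rw [hv]
  have e2 : (X1.card : ℝ) * hh Y Q = ep X P * X.card * hh Y Q := by rw [hu]
  have n2 : 0 ≤ (X1.card : ℝ) * hh Y Q := mul_nonneg hu0.le (hh_nonneg _ _)
  rw [← e1, ← e2]
  linarith

/-- **the local inequality with neighbours** -/
theorem arc_local {δ : ℝ} (hδ : 0 < δ) (hδ1 : δ ≤ 1) {X : Finset α} {Y : Finset β}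
    (hX : X.Nonempty) (hY : Y.Nonempty) (P : α → γ) (Q : β → κ) (Z : α × β → ζ) :
    nloss (X ×ˢ Y) (fun s => P s.1) (fun s => Q s.2) Z ≤
      δ * (Y.card * hh X P + X.card * hh Y Q) +
      (2 + Real.exp (1 / δ)) * (ep Y Q * Y.card * hh X P + ep X P * X.card * hh Y Q) := by
  have hXc : (0 : ℝ) < X.card := by exact_mod_cast card_pos.2 hX
  have hYc : (0 : ℝ) < Y.card := by exact_mod_cast card_pos.2 hY
  have hhU := hh_nonneg X P
  have hhV := hh_nonneg Y Q
  have hep1 := ep_nonneg hX P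
  have hep2 := ep_nonneg hY Q
  have hexp := Real.exp_pos (1 / δ)
  have hl1 := nloss_le_left (X ×ˢ Y) (fun s => P s.1) (fun s => Q s.2) Z
  have hl2 := nloss_le_right (X ×ˢ Y) (fun s => P s.1) (fun s => Q s.2) Z
  rw [hh_fst hX hY] at hl1
  rw [hh_snd hX hY] at hl2
  have n1 : 0 ≤ δ * (Y.card * hh X P + X.card * hh Y Q) := by positivity
  have n3 : 0 ≤ ep Y Q * Y.card * hh X P := by positivity
  have n4 : 0 ≤ ep X P * X.card * hh Y Q := by positivity
  have hone : Real.exp (1 / δ) * Real.exp (-(1 / δ)) = 1 := by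
    rw [← Real.exp_add]
    simp
  have hexpand : (2 + Real.exp (1 / δ)) * (ep Y Q * Y.card * hh X P + ep X P * X.card * hh Y Q) =
      2 * (ep Y Q * Y.card * hh X P + ep X P * X.card * hh Y Q) +
        Real.exp (1 / δ) * (ep Y Q * Y.card * hh X P) +
        Real.exp (1 / δ) * (ep X P * X.card * hh Y Q) := by ring
  have n5 : 0 ≤ Real.exp (1 / δ) * (ep Y Q * Y.card * hh X P) := by positivity
  have n6 : 0 ≤ Real.exp (1 / δ) * (ep X P * X.card * hh Y Q) := by positivity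
  by_cases c1 : Real.exp (-(1 / δ)) < ep X P
  · have h1 : 1 ≤ Real.exp (1 / δ) * ep X P :=
      hone.symm.le.trans (mul_le_mul_of_nonneg_left c1.le hexp.le)
    have h2 : X.card * hh Y Q ≤ Real.exp (1 / δ) * ep X P * (X.card * hh Y Q) :=
      le_mul_of_one_le_left (by positivity) h1
    rw [hexpand]
    linarith
  by_cases c2 : Real.exp (-(1 / δ)) < ep Y Q
  · have h1 : 1 ≤ Real.exp (1 / δ) * ep Y Q :=
      hone.symm.le.trans (mul_le_mul_of_nonneg_left c2.le hexp.le)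
    have h2 : Y.card * hh X P ≤ Real.exp (1 / δ) * ep Y Q * (Y.card * hh X P) :=
      le_mul_of_one_le_left (by positivity) h1
    rw [hexpand]
    linarith
  push Not at c1 c2
  obtain ⟨x0, hx0, hx0'⟩ := exists_mx hX P
  obtain ⟨y0, hy0, hy0'⟩ := exists_mx hY Q
  have hepU := ep_eq hX hx0'
  have hepV := ep_eq hY hy0'
  rcases (Nat.cast_nonneg (X.filter fun a => P a ≠ P x0).card :
    (0 : ℝ) ≤ ((X.filter fun a => P a ≠ P x0).card : ℝ)).eq_or_lt with hz | heUp
  · have h1 := hh_zero hz.symm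
    rw [h1, mul_zero] at hl1
    rw [hexpand]
    linarith
  rcases (Nat.cast_nonneg (Y.filter fun a => Q a ≠ Q y0).card :
    (0 : ℝ) ≤ ((Y.filter fun a => Q a ≠ Q y0).card : ℝ)).eq_or_lt with hz | heVp
  · have h1 := hh_zero hz.symm
    rw [h1, mul_zero] at hl2
    rw [hexpand]
    linarith
  have h := arc_small hδ hδ1 hX hY (Z := Z) heUp heVp hepU hepV c1 c2
  rw [hexpand]
  linarith

/-- **the inequality of one node with neighbours** -/
theorem arc_node {δ : ℝ} (hδ : 0 < δ) (hδ1 : δ ≤ 1) (X : Finset α) (Y : Finset β)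
    {P P' : α → γ} {Q Q' : β → κ} (Z : α × β → ν) (hP : Ref X P' P) (hQ : Ref Y Q' Q) :
    ∑ a ∈ X ×ˢ Y, (Real.log (ct (X ×ˢ Y) (fun b => (Z b, (P b.1, Q b.2))) a) -
      Real.log (((X ×ˢ Y).filter fun b => Z b = Z a ∧ P b.1 = P a.1 ∧ Q b.2 = Q a.2 ∧
        (P' b.1 = P' a.1 ∨ Q' b.2 = Q' a.2)).card : ℝ)) ≤
      δ * (Y.card * hs X P P' + X.card * hs Y Q Q') +
      (2 + Real.exp (1 / δ)) * (ws Y Q Q' * hs X P P' + ws X P P' * hs Y Q Q') := by
  have ne : ∀ a ∈ X ×ˢ Y, (cl X P a.1).Nonempty ∧ (cl Y Q a.2).Nonempty := by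
    intro a ha
    obtain ⟨h1, h2⟩ := mem_product.1 ha
    exact ⟨cl_nonempty P h1, cl_nonempty Q h2⟩
  set L := lab (fun s : α × β => P s.1) (fun s : α × β => Q s.2) with hL
  have e0 : ∑ a ∈ X ×ˢ Y, (Real.log (ct (X ×ˢ Y) (fun b => (Z b, (P b.1, Q b.2))) a) -
      Real.log (((X ×ˢ Y).filter fun b => Z b = Z a ∧ P b.1 = P a.1 ∧ Q b.2 = Q a.2 ∧
        (P' b.1 = P' a.1 ∨ Q' b.2 = Q' a.2)).card : ℝ)) =
      S (X ×ˢ Y) L (fun Ω => nloss Ω (fun s => P' s.1) (fun s => Q' s.2) Z) := by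
    symm
    apply S_eq
    intro a _
    unfold nloss
    apply sum_congr rfl
    intro b hb
    rw [ct_cl hb]
    congr 2
    unfold nr
    congr 2
    ext c
    have h1 := (mem_cl.1 hb).2
    simp only [hL, lab, Prod.mk.injEq] at h1
    simp only [mem_filter, mem_cl, hL, lab, Prod.mk.injEq, h1.1, h1.2]
    tauto
  have e1 : S (X ×ˢ Y) L (fun Ω => hh Ω (fun s : α × β => P' s.1)) = Y.card * hs X P P' := by
    rw [hL, S_prod (Φ1 := fun Ω => hh Ω P') (Φ2 := fun Ω => (Ω.card : ℝ)), S_hs hP, S_card,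
      mul_comm]
    intro a ha
    rw [hh_fst (ne a ha).1 (ne a ha).2, mul_comm]
  have e2 : S (X ×ˢ Y) L (fun Ω => hh Ω (fun s : α × β => Q' s.2)) = X.card * hs Y Q Q' := by
    rw [hL, S_prod (Φ1 := fun Ω => (Ω.card : ℝ)) (Φ2 := fun Ω => hh Ω Q'), S_hs hQ, S_card]
    intro a ha
    rw [hh_snd (ne a ha).1 (ne a ha).2]
  have e3 : S (X ×ˢ Y) L (fun Ω => ep Ω (fun s : α × β => Q' s.2) *
      hh Ω (fun s : α × β => P' s.1)) = ws Y Q Q' * hs X P P' := by
    rw [hL, S_prod (Φ1 := fun Ω => hh Ω P') (Φ2 := fun Ω => (Ω.card : ℝ) * ep Ω Q'), S_hs hP,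
      S_card_ep, mul_comm]
    intro a ha
    rw [hh_fst (ne a ha).1 (ne a ha).2, ep_snd (ne a ha).1 (ne a ha).2]
    ring
  have e4 : S (X ×ˢ Y) L (fun Ω => ep Ω (fun s : α × β => P' s.1) *
      hh Ω (fun s : α × β => Q' s.2)) = ws X P P' * hs Y Q Q' := by
    rw [hL, S_prod (Φ1 := fun Ω => (Ω.card : ℝ) * ep Ω P') (Φ2 := fun Ω => hh Ω Q'), S_hs hQ,
      S_card_ep]
    intro a ha
    rw [hh_snd (ne a ha).1 (ne a ha).2, ep_fst (ne a ha).1 (ne a ha).2]
    ring
  rw [e0, ← e1, ← e2, ← e3, ← e4, ← S_add, ← S_add, ← S_smul, ← S_smul, ← S_add]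
  apply S_mono
  intro a ha
  have h := arc_local hδ hδ1 (ne a ha).1 (ne a ha).2 P' Q' Z
  rw [hL, cl_prod]
  show nloss (cl X P a.1 ×ˢ cl Y Q a.2) (fun s => P' s.1) (fun s => Q' s.2) Z ≤
    δ * (hh (cl X P a.1 ×ˢ cl Y Q a.2) (fun s : α × β => P' s.1) +
      hh (cl X P a.1 ×ˢ cl Y Q a.2) (fun s : α × β => Q' s.2)) +
    (2 + Real.exp (1 / δ)) * (ep (cl X P a.1 ×ˢ cl Y Q a.2) (fun s : α × β => Q' s.2) *
      hh (cl X P a.1 ×ˢ cl Y Q a.2) (fun s : α × β => P' s.1) +
      ep (cl X P a.1 ×ˢ cl Y Q a.2) (fun s : α × β => P' s.1) *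
      hh (cl X P a.1 ×ˢ cl Y Q a.2) (fun s : α × β => Q' s.2))
  rw [hh_fst (ne a ha).1 (ne a ha).2, hh_snd (ne a ha).1 (ne a ha).2,
    ep_fst (ne a ha).1 (ne a ha).2, ep_snd (ne a ha).1 (ne a ha).2]
  refine h.trans (le_of_eq ?_)
  ring

end Pool.Agent.H85.AK
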