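import Pool.Agent.H85.AK.Arc1

/-!
Triadic grids in the plane.
-/

set_option autoImplicit false

namespace Pool.Agent.H85.AK

open Finset
open scoped Classical

/-- the offset of a grid -/
noncomputable def hf (b : Bool) : ℝ := if b then 1 / 2 else 0

/-- the intervals of a triadic grid -/
noncomputable def fl (b : Bool) (t : ℤ) (x : ℝ) : ℤ := ⌊x / 3 ^ t - hf b⌋

theorem fl_nest_le {b : Bool} {t : ℤ} {x y : ℝ} (h : fl b t x = fl b t y) :
    fl b (t + 1) x ≤ fl b (t + 1) y := by
  obtain ⟨c, hc⟩ : ∃ c : ℤ, (c : ℝ) = 2 * hf b := by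
    cases b
    · exact ⟨0, by simp [hf]⟩
    · exact ⟨1, by simp [hf]⟩
  have h3 : (3 : ℝ) ^ t ≠ 0 := (zpow_pos (by norm_num) t).ne'
  have e : ∀ z : ℝ, z / 3 ^ t - hf b = 3 * (z / 3 ^ (t + 1) - hf b) + c := by
    intro z
    rw [hc, zpow_add₀ (by norm_num), zpow_one]
    field_simp
    ring
  unfold fl at h ⊢
  rw [Int.le_floor]
  set n : ℤ := ⌊x / 3 ^ (t + 1) - hf b⌋ with hn
  have h1 : (n : ℝ) ≤ x / 3 ^ (t + 1) - hf b := Int.floor_le _
  have h2 : 3 * n + c ≤ ⌊x / 3 ^ t - hf b⌋ := by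
    rw [Int.le_floor, e x]
    push_cast
    linarith
  rw [h, Int.le_floor, e y] at h2
  push_cast at h2
  linarith

theorem fl_nest {b : Bool} {t : ℤ} {x y : ℝ} (h : fl b t x = fl b t y) :
    fl b (t + 1) x = fl b (t + 1) y := le_antisymm (fl_nest_le h) (fl_nest_le h.symm)

theorem fl_diam {b : Bool} {t : ℤ} {x y : ℝ} (h : fl b t x = fl b t y) : |x - y| < 3 ^ t := by
  have h3 : (0 : ℝ) < 3 ^ t := zpow_pos (by norm_num) t
  have h1 := Int.abs_sub_lt_one_of_floor_eq_floor h
  have e : x / 3 ^ t - hf b - (y / 3 ^ t - hf b) = (x - y) / 3 ^ t := by ring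
  rw [e, abs_div, abs_of_pos h3, div_lt_one h3] at h1
  exact h1

theorem fl_cover (t : ℤ) (x : ℝ) : ∃ b : Bool, ∀ y : ℝ, 4 * |x - y| < 3 ^ t → fl b t y = fl b t x := by
  have h3 : (0 : ℝ) < 3 ^ t := zpow_pos (by norm_num) t
  have hq : ∀ y : ℝ, 4 * |x - y| < 3 ^ t → |x / 3 ^ t - y / 3 ^ t| < 1 / 4 := by
    intro y hy
    rw [← sub_div, abs_div, abs_of_pos h3, div_lt_iff₀ h3]
    linarith
  set u : ℝ := x / 3 ^ t with hu
  have h1 := Int.floor_le u
  have h2 := Int.lt_floor_add_one u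
  set n : ℤ := ⌊u⌋ with hn
  by_cases c : (n : ℝ) + 1 / 4 ≤ u ∧ u < n + 3 / 4
  · refine ⟨false, fun y hy => ?_⟩
    obtain ⟨h4, h5⟩ := abs_lt.1 (hq y hy)
    have e1 : fl false t x = n := by
      unfold fl
      rw [← hu, hf]
      simp [hn]
    have e2 : fl false t y = n := by
      unfold fl
      rw [Int.floor_eq_iff, hf]
      simp only [Bool.false_eq_true, if_false, sub_zero]
      constructor <;> linarith [c.1, c.2]
    rw [e1, e2]
  · refine ⟨true, fun y hy => ?_⟩
    obtain ⟨h4, h5⟩ := abs_lt.1 (hq y hy)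
    by_cases c1 : u < n + 1 / 4
    · have e1 : fl true t x = n - 1 := by
        unfold fl
        rw [Int.floor_eq_iff, hf, ← hu]
        simp only [if_true]
        push_cast
        constructor <;> linarith
      have e2 : fl true t y = n - 1 := by
        unfold fl
        rw [Int.floor_eq_iff, hf]
        simp only [if_true]
        push_cast
        constructor <;> linarith
      rw [e1, e2]
    · have c2 : n + 3 / 4 ≤ u := by
        by_contra h
        exact c ⟨not_lt.1 c1, not_le.1 h⟩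
      have e1 : fl true t x = n := by
        unfold fl
        rw [Int.floor_eq_iff, hf, ← hu]
        simp only [if_true]
        constructor <;> linarith
      have e2 : fl true t y = n := by
        unfold fl
        rw [Int.floor_eq_iff, hf]
        simp only [if_true]
        constructor <;> linarith
      rw [e1, e2]

/-- the squares of a triadic grid -/
noncomputable def cell (g : Bool × Bool) (t : ℤ) (z : ℂ) : ℤ × ℤ := (fl g.1 t z.re, fl g.2 t z.im)

theorem cell_nest {g : Bool × Bool} {t : ℤ} {z w : ℂ} (h : cell g t z = cell g t w) :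
    cell g (t + 1) z = cell g (t + 1) w := by
  unfold cell at h ⊢
  rw [Prod.mk.injEq] at h ⊢
  exact ⟨fl_nest h.1, fl_nest h.2⟩

theorem cell_nest_add {g : Bool × Bool} {t : ℤ} {z w : ℂ} (h : cell g t z = cell g t w) (n : ℕ) :
    cell g (t + n) z = cell g (t + n) w := by
  induction n with
  | zero => simpa using h
  | succ n ih =>
    have e : t + ((n + 1 : ℕ) : ℤ) = t + n + 1 := by
      push_cast
      ring
    rw [e]
    exact cell_nest ih

theorem cell_diam {g : Bool × Bool} {t : ℤ} {z w : ℂ} (h : cell g t z = cell g t w) :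
    ‖z - w‖ < 2 * 3 ^ t := by
  unfold cell at h
  rw [Prod.mk.injEq] at h
  have h1 := fl_diam h.1
  have h2 := fl_diam h.2
  have h3 := Complex.norm_le_abs_re_add_abs_im (z - w)
  rw [Complex.sub_re, Complex.sub_im] at h3
  linarith

theorem cell_cover (t : ℤ) (z : ℂ) :
    ∃ g : Bool × Bool, ∀ w : ℂ, 4 * ‖z - w‖ < 3 ^ t → cell g t w = cell g t z := by
  obtain ⟨b1, h1⟩ := fl_cover t z.re
  obtain ⟨b2, h2⟩ := fl_cover t z.im
  refine ⟨(b1, b2), fun w hw => ?_⟩
  unfold cell
  rw [Prod.mk.injEq]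
  constructor
  · apply h1
    have h3 := Complex.abs_re_le_norm (z - w)
    rw [Complex.sub_re] at h3
    linarith
  · apply h2
    have h3 := Complex.abs_im_le_norm (z - w)
    rw [Complex.sub_im] at h3
    linarith

/-- sums over the levels -/
theorem levels5 {L : ℤ → ℝ} {M : ℝ} (hL : Monotone L) (h0 : ∀ s, 0 ≤ L s) (h1 : ∀ s, L s ≤ M)
    (S : Finset ℤ) : ∑ s ∈ S, (L (s + 5) - L s) ≤ 5 * M := by
  -- an interval
  obtain ⟨a, T, hS⟩ : ∃ (a : ℤ) (T : ℕ), S ⊆ (range T).image fun n : ℕ => a + n := by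
    refine ⟨-(∑ s ∈ S, |s|), (2 * ∑ s ∈ S, |s|).toNat + 1, fun s hs => ?_⟩
    have h2 : |s| ≤ ∑ s ∈ S, |s| := single_le_sum (f := fun s : ℤ => |s|) (fun _ _ => abs_nonneg _) hs
    obtain ⟨h3, h4⟩ := abs_le.1 h2
    refine mem_image.2 ⟨(s + ∑ s ∈ S, |s|).toNat, mem_range.2 ?_, ?_⟩
    · omega
    · have := Int.toNat_of_nonneg (show 0 ≤ s + ∑ s ∈ S, |s| by linarith)
      rw [this]
      ring
  have tel : ∀ T : ℕ, ∑ n ∈ range T, (L (a + n + 5) - L (a + n)) =
      (L (a + T) + L (a + T + 1) + L (a + T + 2) + L (a + T + 3) + L (a + T + 4)) -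
      (L a + L (a + 1) + L (a + 2) + L (a + 3) + L (a + 4)) := by
    intro T
    induction T with
    | zero => simp
    | succ T ih =>
      rw [sum_range_succ, ih]
      have e0 : a + ((T + 1 : ℕ) : ℤ) = a + T + 1 := by push_cast; ring
      have e1 : a + ((T + 1 : ℕ) : ℤ) + 1 = a + T + 2 := by push_cast; ring
      have e2 : a + ((T + 1 : ℕ) : ℤ) + 2 = a + T + 3 := by push_cast; ring
      have e3 : a + ((T + 1 : ℕ) : ℤ) + 3 = a + T + 4 := by push_cast; ring
      have e4 : a + ((T + 1 : ℕ) : ℤ) + 4 = a + T + 5 := by push_cast; ring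
      rw [e1, e2, e3, e4, e0]
      ring
  calc ∑ s ∈ S, (L (s + 5) - L s) ≤ ∑ s ∈ (range T).image (fun n : ℕ => a + (n : ℤ)),
        (L (s + 5) - L s) := by
        apply sum_le_sum_of_subset_of_nonneg hS
        intro s _ _
        exact sub_nonneg.2 (hL (by omega))
    _ = ∑ n ∈ range T, (L (a + n + 5) - L (a + n)) := by
        rw [sum_image]
        intro x _ y _ h
        simpa using h
    _ ≤ 5 * M := by
        rw [tel]
        have := h0 a
        have := h0 (a + 1)
        have := h0 (a + 2)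
        have := h0 (a + 3)
        have := h0 (a + 4)
        have := h1 (a + T)
        have := h1 (a + T + 1)
        have := h1 (a + T + 2)
        have := h1 (a + T + 3)
        have := h1 (a + T + 4)
        linarith

/-- a range of scales for finitely many positive numbers -/
theorem scales (D : Finset ℝ) (hD : ∀ d ∈ D, 0 < d) :
    ∃ T : ℕ, ∀ d ∈ D, (3 : ℝ) ^ (-(T : ℤ)) ≤ d ∧ d < 3 ^ (T : ℤ) := by
  have h1 : ∀ d : ℝ, ∃ n : ℕ, 0 < d → 1 / (3 : ℝ) ^ n ≤ d ∧ d < 3 ^ n := by
    intro d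
    by_cases hd : 0 < d
    · obtain ⟨n, hn⟩ := pow_unbounded_of_one_lt (max d (1 / d)) (show (1 : ℝ) < 3 by norm_num)
      refine ⟨n, fun _ => ⟨?_, (le_max_left _ _).trans_lt hn⟩⟩
      rw [div_le_iff₀ (by positivity)]
      have h2 := (le_max_right d (1 / d)).trans_lt hn
      rw [div_lt_iff₀ hd] at h2
      linarith
    · exact ⟨0, fun h => absurd h hd⟩
  choose n hn using h1
  refine ⟨D.sup n, fun d hd => ?_⟩
  obtain ⟨h2, h3⟩ := hn d (hD d hd)
  have h4 : n d ≤ D.sup n := le_sup hd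
  have h5 : (3 : ℝ) ^ (n d) ≤ 3 ^ (D.sup n) := pow_le_pow_right₀ (by norm_num) h4
  rw [zpow_neg, zpow_natCast]
  refine ⟨?_, h3.trans_le h5⟩
  refine le_trans ?_ h2
  rw [← one_div]
  exact one_div_le_one_div_of_le (by positivity) h5

end Pool.Agent.H85.AK
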