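import Pool.Agent.H85.AK.Arc2

/-!
Fibres and grids.
-/

set_option autoImplicit false

namespace Pool.Agent.H85.AK

open Finset
open scoped Classical

theorem card_le_ct {α β : Type*} {Ω : Finset α} {p : α → Prop} [DecidablePred p] {f : α → β}
    {a : α} (h : ∀ b ∈ Ω, p b → f b = f a) : ((Ω.filter p).card : ℝ) ≤ ct Ω f a := by
  unfold ct cv
  apply Nat.cast_le.2
  apply card_le_card
  intro b hb
  obtain ⟨h1, h2⟩ := mem_filter.1 hb
  exact mem_filter.2 ⟨h1, h b h1 h2⟩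

section

variable {F : Type*} [Field F]

/-- the number of points of a fibre at a bounded distance -/
noncomputable def fb (σ : F →+* ℂ) (Ω : Finset (F × F)) (r : F) (t : ℤ) (a : F × F) : ℝ :=
  ((Ω.filter fun b => r * b.1 + b.2 = r * a.1 + a.2 ∧ ‖σ (b.2 - a.2)‖ < 3 ^ t).card : ℝ)

theorem fb_pos (σ : F →+* ℂ) {Ω : Finset (F × F)} (r : F) (t : ℤ) {a : F × F} (ha : a ∈ Ω) :
    0 < fb σ Ω r t a := by
  have h : 0 < (Ω.filter fun b => r * b.1 + b.2 = r * a.1 + a.2 ∧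
      ‖σ (b.2 - a.2)‖ < 3 ^ t).card := by
    refine card_pos.2 ⟨a, mem_filter.2 ⟨ha, rfl, ?_⟩⟩
    rw [sub_self, map_zero, norm_zero]
    exact zpow_pos (by norm_num) t
  unfold fb
  exact_mod_cast h

/-- the two differences on a fibre -/
theorem fibre_norm (σ : F →+* ℂ) {r : F} {a b : F × F} (h : r * b.1 + b.2 = r * a.1 + a.2) :
    ‖σ (b.2 - a.2)‖ = ‖σ r‖ * ‖σ (b.1 - a.1)‖ := by
  have e : b.2 - a.2 = -(r * (b.1 - a.1)) := by linear_combination h
  rw [e, map_neg, norm_neg, map_mul, norm_mul]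

/-- the neighbours in a pair of cells -/
noncomputable def nb (σ : F →+* ℂ) (Ω : Finset (F × F)) (r : F) (i s : ℤ)
    (g : (Bool × Bool) × (Bool × Bool)) (a : F × F) : ℝ :=
  ((Ω.filter fun b => r * b.1 + b.2 = r * a.1 + a.2 ∧
    cell g.1 (s - i + 5) (σ b.1) = cell g.1 (s - i + 5) (σ a.1) ∧
    cell g.2 (s + 5) (σ b.2) = cell g.2 (s + 5) (σ a.2) ∧
    (cell g.1 (s - i) (σ b.1) = cell g.1 (s - i) (σ a.1) ∨
      cell g.2 s (σ b.2) = cell g.2 s (σ a.2))).card : ℝ)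

/-- the points in a pair of cells -/
noncomputable def cb (σ : F →+* ℂ) (Ω : Finset (F × F)) (r : F) (i s : ℤ)
    (g : (Bool × Bool) × (Bool × Bool)) (a : F × F) : ℝ :=
  ct Ω (fun b => (r * b.1 + b.2, (cell g.1 (s - i + 5) (σ b.1), cell g.2 (s + 5) (σ b.2)))) a

/-- **one level** -/
theorem arc_step (σ : F →+* ℂ) (Ω : Finset (F × F)) {r : F} {i : ℤ} (h1 : (3 : ℝ) ^ i ≤ ‖σ r‖)
    (h2 : ‖σ r‖ < 3 ^ (i + 1)) (s : ℤ) {a : F × F} (ha : a ∈ Ω) :
    Real.log (fb σ Ω r (s + 3) a) - Real.log (fb σ Ω r (s + 2) a) ≤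
      ∑ g : (Bool × Bool) × (Bool × Bool),
        (Real.log (cb σ Ω r i s g a) - Real.log (nb σ Ω r i s g a)) := by
  have h3 : ∀ t : ℤ, (0 : ℝ) < 3 ^ t := fun t => zpow_pos (by norm_num) t
  have nbpos : ∀ g, 0 < nb σ Ω r i s g a := by
    intro g
    have h : 0 < (Ω.filter fun b => r * b.1 + b.2 = r * a.1 + a.2 ∧
        cell g.1 (s - i + 5) (σ b.1) = cell g.1 (s - i + 5) (σ a.1) ∧
        cell g.2 (s + 5) (σ b.2) = cell g.2 (s + 5) (σ a.2) ∧
        (cell g.1 (s - i) (σ b.1) = cell g.1 (s - i) (σ a.1) ∨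
          cell g.2 s (σ b.2) = cell g.2 s (σ a.2))).card :=
      card_pos.2 ⟨a, mem_filter.2 ⟨ha, rfl, rfl, rfl, Or.inl rfl⟩⟩
    unfold nb
    exact_mod_cast h
  have hnonneg : ∀ g ∈ (univ : Finset ((Bool × Bool) × (Bool × Bool))),
      0 ≤ Real.log (cb σ Ω r i s g a) - Real.log (nb σ Ω r i s g a) := by
    intro g _
    rw [sub_nonneg]
    apply Real.log_le_log (nbpos g)
    unfold nb cb
    apply card_le_ct
    rintro b _ ⟨h5, h6, h7, _⟩
    show (r * b.1 + b.2, _, _) = (r * a.1 + a.2, _, _)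
    rw [h5, h6, h7]
  obtain ⟨g1, hg1⟩ := cell_cover (s - i + 5) (σ a.1)
  obtain ⟨g2, hg2⟩ := cell_cover (s + 5) (σ a.2)
  refine le_trans ?_ (single_le_sum hnonneg (mem_univ (g1, g2)))
  have e1 : (3 : ℝ) ^ (s + 5) = 9 * 3 ^ (s + 3) := by
    have : s + 5 = 2 + (s + 3) := by ring
    rw [this, zpow_add₀ (by norm_num)]
    norm_num
  have e2 : (3 : ℝ) ^ (s + 3) = 3 ^ i * 3 ^ (s - i + 3) := by
    rw [← zpow_add₀ (by norm_num)]
    congr 1
    ring
  have e3 : (3 : ℝ) ^ (s - i + 5) = 9 * 3 ^ (s - i + 3) := by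
    have : s - i + 5 = 2 + (s - i + 3) := by ring
    rw [this, zpow_add₀ (by norm_num)]
    norm_num
  have e4 : (3 : ℝ) ^ (s + 2) = 9 * 3 ^ s := by
    rw [add_comm, zpow_add₀ (by norm_num)]
    norm_num
  have e5 : (3 : ℝ) ^ (i + 1) * 3 ^ (s - i) = 3 * 3 ^ s := by
    rw [← zpow_add₀ (by norm_num)]
    have : i + 1 + (s - i) = 1 + s := by ring
    rw [this, zpow_add₀ (by norm_num)]
    norm_num
  have up : fb σ Ω r (s + 3) a ≤ cb σ Ω r i s (g1, g2) a := by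
    unfold fb cb
    apply card_le_ct
    rintro b h4 ⟨h5, h6⟩
    have h7 := fibre_norm σ h5
    have h8 : ‖σ (b.1 - a.1)‖ < 3 ^ (s - i + 3) := by
      have h9 : (3 : ℝ) ^ i * ‖σ (b.1 - a.1)‖ < 3 ^ i * 3 ^ (s - i + 3) := by
        rw [← e2]
        refine lt_of_le_of_lt ?_ h6
        rw [h7]
        exact mul_le_mul_of_nonneg_right h1 (norm_nonneg _)
      exact lt_of_mul_lt_mul_left h9 (h3 i).le
    have h9 : cell g1 (s - i + 5) (σ b.1) = cell g1 (s - i + 5) (σ a.1) := by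
      apply hg1
      rw [← map_sub, ← norm_neg, ← map_neg, neg_sub, e3]
      have := h3 (s - i + 3)
      linarith
    have h10 : cell g2 (s + 5) (σ b.2) = cell g2 (s + 5) (σ a.2) := by
      apply hg2
      rw [← map_sub, ← norm_neg, ← map_neg, neg_sub, e1]
      have := h3 (s + 3)
      linarith
    show (r * b.1 + b.2, cell g1 (s - i + 5) (σ b.1), cell g2 (s + 5) (σ b.2)) =
      (r * a.1 + a.2, cell g1 (s - i + 5) (σ a.1), cell g2 (s + 5) (σ a.2))
    rw [h5, h9, h10]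
  have lo : nb σ Ω r i s (g1, g2) a ≤ fb σ Ω r (s + 2) a := by
    unfold fb nb
    apply Nat.cast_le.2
    apply card_le_card
    intro b hb
    obtain ⟨h4, h5, _, _, h6⟩ := mem_filter.1 hb
    refine mem_filter.2 ⟨h4, h5, ?_⟩
    have h0 := h3 s
    rcases h6 with h6 | h6
    · have h7 := cell_diam h6
      rw [← map_sub] at h7
      rw [fibre_norm σ h5, e4]
      calc ‖σ r‖ * ‖σ (b.1 - a.1)‖ ≤ 3 ^ (i + 1) * (2 * 3 ^ (s - i)) :=
            mul_le_mul h2.le h7.le (norm_nonneg _) (h3 _).le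
        _ = 2 * (3 ^ (i + 1) * 3 ^ (s - i)) := by ring
        _ < 9 * 3 ^ s := by
            rw [e5]
            linarith
    · have h7 := cell_diam h6
      rw [← map_sub] at h7
      rw [e4]
      linarith
  have l1 := Real.log_le_log (fb_pos σ r (s + 3) ha) up
  have l2 := Real.log_le_log (nbpos (g1, g2)) lo
  linarith

/-- the logarithm of a fibre as a sum over the levels -/
theorem arc_fibre (σ : F →+* ℂ) {Ω : Finset (F × F)} {r : F} (hr : r ≠ 0) {i : ℤ}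
    (h1 : (3 : ℝ) ^ i ≤ ‖σ r‖) (h2 : ‖σ r‖ < 3 ^ (i + 1)) {T : ℕ}
    (hT : ∀ a ∈ Ω, ∀ b ∈ Ω, a.2 ≠ b.2 → (3 : ℝ) ^ (-(T : ℤ)) ≤ ‖σ (b.2 - a.2)‖ ∧
      ‖σ (b.2 - a.2)‖ < 3 ^ (T : ℤ)) {a : F × F} (ha : a ∈ Ω) :
    Real.log (ct Ω (fun b => r * b.1 + b.2) a) ≤
      ∑ n ∈ range (2 * T), ∑ g : (Bool × Bool) × (Bool × Bool),
        (Real.log (cb σ Ω r i (-(T : ℤ) - 2 + n) g a) -
          Real.log (nb σ Ω r i (-(T : ℤ) - 2 + n) g a)) := by
  have htel : ∀ n : ℕ, Real.log (fb σ Ω r (-(T : ℤ) + n) a) - Real.log (fb σ Ω r (-(T : ℤ)) a) ≤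
      ∑ n ∈ range n, ∑ g : (Bool × Bool) × (Bool × Bool),
        (Real.log (cb σ Ω r i (-(T : ℤ) - 2 + n) g a) -
          Real.log (nb σ Ω r i (-(T : ℤ) - 2 + n) g a)) := by
    intro n
    induction n with
    | zero => simp
    | succ n ih =>
      rw [sum_range_succ]
      have h3 := arc_step σ Ω h1 h2 (-(T : ℤ) - 2 + n) ha
      have e1 : -(T : ℤ) - 2 + n + 3 = -(T : ℤ) + ((n + 1 : ℕ) : ℤ) := by push_cast; ring
      have e2 : -(T : ℤ) - 2 + n + 2 = -(T : ℤ) + n := by ring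
      rw [e1, e2] at h3
      linarith
  have h3 := htel (2 * T)
  have h4 : fb σ Ω r (-(T : ℤ)) a = 1 := by
    unfold fb
    have : (Ω.filter fun b => r * b.1 + b.2 = r * a.1 + a.2 ∧
        ‖σ (b.2 - a.2)‖ < 3 ^ (-(T : ℤ))) = {a} := by
      ext b
      rw [mem_filter, mem_singleton]
      constructor
      · rintro ⟨h5, h6, h7⟩
        have h8 : b.2 = a.2 := by
          by_contra h
          exact absurd (hT a ha b h5 fun h' => h h'.symm).1 (not_le.2 h7)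
        rw [h8] at h6
        exact Prod.ext (mul_left_cancel₀ hr (add_right_cancel h6)) h8
      · rintro rfl
        refine ⟨ha, rfl, ?_⟩
        rw [sub_self, map_zero, norm_zero]
        exact zpow_pos (by norm_num) _
    rw [this, card_singleton, Nat.cast_one]
  have h5 : fb σ Ω r (-(T : ℤ) + ((2 * T : ℕ) : ℤ)) a = ct Ω (fun b => r * b.1 + b.2) a := by
    have e : -(T : ℤ) + ((2 * T : ℕ) : ℤ) = T := by push_cast; ring
    rw [e]
    unfold fb ct cv
    congr 2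
    ext b
    rw [mem_filter, mem_filter]
    constructor
    · rintro ⟨h6, h7, _⟩
      exact ⟨h6, h7⟩
    · rintro ⟨h6, h7⟩
      refine ⟨h6, h7, ?_⟩
      by_cases h : a.2 = b.2
      · rw [h, sub_self, map_zero, norm_zero]
        exact zpow_pos (by norm_num) _
      · exact (hT a ha b h6 h).2
  rw [h4, h5, Real.log_one, sub_zero] at h3
  exact h3

end

end Pool.Agent.H85.AK
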