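import Pool.Agent.H85.AK.Arc3

/-!
The sum over the scales, archimedean places.
-/

set_option autoImplicit false

namespace Pool.Agent.H85.AK

open Finset
open scoped Classical

theorem card_filter_any {α : Type*} {Ω : Finset α} {p : α → Prop} (i1 i2 : DecidablePred p) :
    ((@Finset.filter α p i1 Ω).card : ℝ) = ((@Finset.filter α p i2 Ω).card : ℝ) := by
  have h : i1 = i2 := Subsingleton.elim _ _
  rw [h]

theorem ct_le_of_sub {α β : Type*} {G Ω : Finset α} (h : G ⊆ Ω) (f : α → β) (a : α) :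
    ct G f a ≤ ct Ω f a := by
  unfold ct cv
  exact Nat.cast_le.2 (card_le_card (filter_subset_filter _ h))

section

variable {F : Type*} [Field F]

/-- the entropy of five levels -/
noncomputable def hc (σ : F →+* ℂ) (X : Finset F) (g : Bool × Bool) (u : ℤ) : ℝ :=
  hs X (fun x => cell g (u + 5) (σ x)) (fun x => cell g u (σ x))

/-- the mass of five levels -/
noncomputable def wc (σ : F →+* ℂ) (X : Finset F) (g : Bool × Bool) (u : ℤ) : ℝ :=
  ws X (fun x => cell g (u + 5) (σ x)) (fun x => cell g u (σ x))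

theorem ref_cell (σ : F →+* ℂ) (X : Finset F) (g : Bool × Bool) (u : ℤ) :
    Ref X (fun x => cell g u (σ x)) (fun x => cell g (u + 5) (σ x)) := by
  intro x _ y _ h
  exact cell_nest_add h 5

theorem hc_nonneg (σ : F →+* ℂ) (X : Finset F) (g : Bool × Bool) (u : ℤ) : 0 ≤ hc σ X g u :=
  hs_nonneg (ref_cell σ X g u)

theorem wc_nonneg (σ : F →+* ℂ) (X : Finset F) (g : Bool × Bool) (u : ℤ) : 0 ≤ wc σ X g u :=
  ws_nonneg _ _ _

theorem wc_le (σ : F →+* ℂ) (X : Finset F) (g : Bool × Bool) (u : ℤ) : wc σ X g u ≤ hc σ X g u :=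
  ws_le_hs (ref_cell σ X g u)

theorem hc_sum (σ : F →+* ℂ) (X : Finset F) (g : Bool × Bool) {ι : Type*} (I : Finset ι)
    (e : ι → ℤ) (he : Set.InjOn e (I : Set ι)) :
    ∑ j ∈ I, hc σ X g (e j) ≤ 5 * (X.card * Real.log (X.card : ℝ)) := by
  rw [← sum_image (s := I) (g := e) (f := hc σ X g) he]
  set L : ℤ → ℝ := fun u => ∑ x ∈ X, Real.log (ct X (fun x => cell g u (σ x)) x) with hL
  have e1 : ∀ u, hc σ X g u = L (u + 5) - L u := by
    intro u
    unfold hc hs
    rw [sum_sub_distrib]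
  rw [sum_congr rfl fun u _ => e1 u]
  apply levels5
  · intro u u' huu
    apply sum_le_sum
    intro x hx
    apply Real.log_le_log (ct_pos _ hx)
    apply ct_mono
    intro y _ h
    have h1 := cell_nest_add h (u' - u).toNat
    have h2 : u + ((u' - u).toNat : ℤ) = u' := by
      have := Int.toNat_of_nonneg (sub_nonneg.2 huu)
      omega
    rw [h2] at h1
    exact h1
  · intro u
    exact sum_nonneg fun x hx => log_ct_nonneg _ hx
  · intro u
    show ∑ x ∈ X, _ ≤ _
    rw [← nsmul_eq_mul, ← sum_const]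
    exact sum_le_sum fun x hx => log_ct_le _ hx

theorem wc_sum (σ : F →+* ℂ) (X : Finset F) (g : Bool × Bool) {ι : Type*} (I : Finset ι)
    (e : ι → ℤ) (he : Set.InjOn e (I : Set ι)) :
    ∑ j ∈ I, wc σ X g (e j) ≤ 5 * (X.card * Real.log (X.card : ℝ)) :=
  (sum_le_sum fun j _ => wc_le σ X g (e j)).trans (hc_sum σ X g I e he)

/-- one node -/
theorem arc_cell {δ : ℝ} (hδ : 0 < δ) (hδ1 : δ ≤ 1) (σ : F →+* ℂ) (X Y : Finset F) (r : F)
    (i s : ℤ) (g : (Bool × Bool) × (Bool × Bool)) :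
    ∑ a ∈ X ×ˢ Y, (Real.log (cb σ (X ×ˢ Y) r i s g a) - Real.log (nb σ (X ×ˢ Y) r i s g a)) ≤
      δ * (Y.card * hc σ X g.1 (s - i) + X.card * hc σ Y g.2 s) +
      (2 + Real.exp (1 / δ)) * (wc σ Y g.2 s * hc σ X g.1 (s - i) +
        wc σ X g.1 (s - i) * hc σ Y g.2 s) := by
  have h := arc_node hδ hδ1 X Y (P := fun x => cell g.1 (s - i + 5) (σ x))
    (P' := fun x => cell g.1 (s - i) (σ x)) (Q := fun y => cell g.2 (s + 5) (σ y))
    (Q' := fun y => cell g.2 s (σ y)) (fun b : F × F => r * b.1 + b.2)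
    (ref_cell σ X g.1 (s - i)) (ref_cell σ Y g.2 s)
  refine le_trans (le_of_eq ?_) h
  apply sum_congr rfl
  intro a _
  unfold cb nb
  rw [sub_right_inj]
  exact congrArg Real.log (card_filter_any _ _)

/-- **the sum over the scales** -/
theorem arc_sum {δ : ℝ} (hδ : 0 < δ) (hδ1 : δ ≤ 1) (σ : F →+* ℂ) (X Y : Finset F)
    (J : Finset ℤ) (r : ℤ → F) (hr : ∀ i ∈ J, (3 : ℝ) ^ i ≤ ‖σ (r i)‖ ∧ ‖σ (r i)‖ < 3 ^ (i + 1)) :
    ∑ i ∈ J, ∑ a ∈ X ×ˢ Y, Real.log (ct (X ×ˢ Y) (fun b => r i * b.1 + b.2) a) ≤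
      16 * (J.card * (δ * (Y.card * (5 * (X.card * Real.log (X.card : ℝ))) +
        X.card * (5 * (Y.card * Real.log (Y.card : ℝ))))) +
      (2 + Real.exp (1 / δ)) * (5 * (Y.card * Real.log (Y.card : ℝ)) *
        (5 * (X.card * Real.log (X.card : ℝ))) + 5 * (X.card * Real.log (X.card : ℝ)) *
        (5 * (Y.card * Real.log (Y.card : ℝ))))) := by
  set MX : ℝ := 5 * (X.card * Real.log (X.card : ℝ)) with hMX
  set MY : ℝ := 5 * (Y.card * Real.log (Y.card : ℝ)) with hMY
  have hMX0 : 0 ≤ MX := by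
    have := Real.log_natCast_nonneg X.card
    positivity
  have hMY0 : 0 ≤ MY := by
    have := Real.log_natCast_nonneg Y.card
    positivity
  set C : ℝ := 2 + Real.exp (1 / δ) with hC
  have hC0 : 0 ≤ C := by positivity
  -- the range of the scales
  obtain ⟨T, hT⟩ := scales (((Y ×ˢ Y).filter fun c => c.1 ≠ c.2).image fun c => ‖σ (c.2 - c.1)‖) (by
    intro d hd
    obtain ⟨c, hc, rfl⟩ := mem_image.1 hd
    have h1 := (mem_filter.1 hc).2
    rw [norm_pos_iff]
    intro h2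
    exact h1 (sub_eq_zero.1 (σ.injective (by rw [h2, map_zero]))).symm)
  have hT' : ∀ a ∈ X ×ˢ Y, ∀ b ∈ X ×ˢ Y, a.2 ≠ b.2 → (3 : ℝ) ^ (-(T : ℤ)) ≤ ‖σ (b.2 - a.2)‖ ∧
      ‖σ (b.2 - a.2)‖ < 3 ^ (T : ℤ) := by
    intro a ha b hb hab
    exact hT _ (mem_image.2 ⟨(a.2, b.2), mem_filter.2 ⟨mem_product.2 ⟨(mem_product.1 ha).2,
      (mem_product.1 hb).2⟩, hab⟩, rfl⟩)
  set sn : ℕ → ℤ := fun n => -(T : ℤ) - 2 + n with hsn
  have hsn_inj : Function.Injective sn := by
    intro x y h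
    simp only [hsn] at h
    omega
  set NN : (Bool × Bool) × (Bool × Bool) → ℤ → ℕ → ℝ := fun g i n =>
    δ * (Y.card * hc σ X g.1 (sn n - i) + X.card * hc σ Y g.2 (sn n)) +
      C * (wc σ Y g.2 (sn n) * hc σ X g.1 (sn n - i) +
        wc σ X g.1 (sn n - i) * hc σ Y g.2 (sn n)) with hNN
  -- one scale
  have one : ∀ i ∈ J, ∑ a ∈ X ×ˢ Y, Real.log (ct (X ×ˢ Y) (fun b => r i * b.1 + b.2) a) ≤
      ∑ g : (Bool × Bool) × (Bool × Bool), ∑ n ∈ range (2 * T), NN g i n := by
    intro i hi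
    obtain ⟨h1, h2⟩ := hr i hi
    have hr0 : r i ≠ 0 := by
      intro h0
      rw [h0, map_zero, norm_zero] at h1
      exact absurd h1 (not_le.2 (zpow_pos (by norm_num) i))
    have h3 := sum_le_sum fun a (ha : a ∈ X ×ˢ Y) => arc_fibre σ hr0 h1 h2 hT' ha
    refine h3.trans ?_
    rw [sum_comm]
    have h4 : ∀ n ∈ range (2 * T), ∑ a ∈ X ×ˢ Y, ∑ g : (Bool × Bool) × (Bool × Bool),
        (Real.log (cb σ (X ×ˢ Y) (r i) i (-(T : ℤ) - 2 + n) g a) -
          Real.log (nb σ (X ×ˢ Y) (r i) i (-(T : ℤ) - 2 + n) g a)) ≤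
        ∑ g : (Bool × Bool) × (Bool × Bool), NN g i n := by
      intro n _
      rw [sum_comm]
      exact sum_le_sum fun g _ => arc_cell hδ hδ1 σ X Y (r i) i (sn n) g
    refine (sum_le_sum h4).trans ?_
    rw [sum_comm]
  refine (sum_le_sum one).trans ?_
  rw [sum_comm]
  have key : ∀ g ∈ (univ : Finset ((Bool × Bool) × (Bool × Bool))),
      ∑ i ∈ J, ∑ n ∈ range (2 * T), NN g i n ≤
      J.card * (δ * (Y.card * MX + X.card * MY)) + C * (MY * MX + MX * MY) := by
    intro g _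
    have t1 : ∑ i ∈ J, ∑ n ∈ range (2 * T), (Y.card * hc σ X g.1 (sn n - i) +
        X.card * hc σ Y g.2 (sn n)) ≤ J.card * (Y.card * MX + X.card * MY) := by
      rw [← nsmul_eq_mul, ← sum_const]
      apply sum_le_sum
      intro i _
      rw [sum_add_distrib, ← mul_sum, ← mul_sum]
      apply add_le_add
      · apply mul_le_mul_of_nonneg_left _ (Nat.cast_nonneg _)
        apply hc_sum σ X g.1 (range (2 * T)) (fun n => sn n - i)
        intro x _ y _ h
        exact hsn_inj (by simpa using h)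
      · apply mul_le_mul_of_nonneg_left _ (Nat.cast_nonneg _)
        exact hc_sum σ Y g.2 (range (2 * T)) sn hsn_inj.injOn
    have t2 : ∑ i ∈ J, ∑ n ∈ range (2 * T), wc σ Y g.2 (sn n) * hc σ X g.1 (sn n - i) ≤
        MY * MX := by
      rw [sum_comm]
      calc ∑ n ∈ range (2 * T), ∑ i ∈ J, wc σ Y g.2 (sn n) * hc σ X g.1 (sn n - i)
          ≤ ∑ n ∈ range (2 * T), wc σ Y g.2 (sn n) * MX := by
            apply sum_le_sum
            intro n _
            rw [← mul_sum]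
            apply mul_le_mul_of_nonneg_left _ (wc_nonneg _ _ _ _)
            apply hc_sum σ X g.1 J (fun i => sn n - i)
            intro x _ y _ h
            simp only at h
            omega
        _ ≤ MY * MX := by
            rw [← sum_mul]
            apply mul_le_mul_of_nonneg_right _ hMX0
            exact wc_sum σ Y g.2 (range (2 * T)) sn hsn_inj.injOn
    have t3 : ∑ i ∈ J, ∑ n ∈ range (2 * T), wc σ X g.1 (sn n - i) * hc σ Y g.2 (sn n) ≤
        MX * MY := by
      rw [sum_comm]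
      calc ∑ n ∈ range (2 * T), ∑ i ∈ J, wc σ X g.1 (sn n - i) * hc σ Y g.2 (sn n)
          ≤ ∑ n ∈ range (2 * T), MX * hc σ Y g.2 (sn n) := by
            apply sum_le_sum
            intro n _
            rw [← sum_mul]
            apply mul_le_mul_of_nonneg_right _ (hc_nonneg _ _ _ _)
            apply wc_sum σ X g.1 J (fun i => sn n - i)
            intro x _ y _ h
            simp only at h
            omega
        _ ≤ MX * MY := by
            rw [← mul_sum]
            apply mul_le_mul_of_nonneg_left _ hMX0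
            exact hc_sum σ Y g.2 (range (2 * T)) sn hsn_inj.injOn
    have e : ∑ i ∈ J, ∑ n ∈ range (2 * T), NN g i n =
        δ * ∑ i ∈ J, ∑ n ∈ range (2 * T), (Y.card * hc σ X g.1 (sn n - i) +
          X.card * hc σ Y g.2 (sn n)) +
        C * (∑ i ∈ J, ∑ n ∈ range (2 * T), wc σ Y g.2 (sn n) * hc σ X g.1 (sn n - i) +
          ∑ i ∈ J, ∑ n ∈ range (2 * T), wc σ X g.1 (sn n - i) * hc σ Y g.2 (sn n)) := by
      simp only [hNN, sum_add_distrib, mul_sum, mul_add]
    rw [e]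
    have h1 := mul_le_mul_of_nonneg_left t1 hδ.le
    have h2 := mul_le_mul_of_nonneg_left (add_le_add t2 t3) hC0
    refine (add_le_add h1 h2).trans (le_of_eq ?_)
    ring
  refine (sum_le_sum key).trans (le_of_eq ?_)
  rw [sum_const, nsmul_eq_mul]
  congr 1

end

end Pool.Agent.H85.AK
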