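import Pool.Agent.H85.AK.Arc4

/-!
Sums along dense sets of pairs, archimedean places.
-/

set_option autoImplicit false

namespace Pool.Agent.H85.AK

open Finset
open scoped Pointwise

theorem exp_bound3 {x : ℝ} (hx : 1 ≤ x) :
    3200 * x * (2 + Real.exp (320 * x)) ≤ Real.exp (330 * x) := by
  have y1 : (2.7 : ℝ) ≤ Real.exp x := by
    have h1 := Real.exp_one_gt_d9
    have h2 := Real.exp_le_exp.2 hx
    linarith
  have x1 : 2.7 * x ≤ Real.exp x := by
    have h1 := Real.exp_one_gt_d9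
    have h2 := Real.add_one_le_exp (x - 1)
    have h3 : Real.exp x = Real.exp 1 * Real.exp (x - 1) := by
      rw [← Real.exp_add]
      congr 1
      ring
    rw [h3]
    have h4 : x ≤ Real.exp (x - 1) := by linarith
    calc 2.7 * x ≤ Real.exp 1 * x := mul_le_mul_of_nonneg_right (by linarith) (by linarith)
      _ ≤ Real.exp 1 * Real.exp (x - 1) := mul_le_mul_of_nonneg_left h4 (Real.exp_pos _).le
  have w2 : 2 ≤ Real.exp (320 * x) := by
    have := Real.add_one_le_exp (320 * x)
    linarith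
  have h10 : 6400 * x ≤ Real.exp (10 * x) := by
    have e : Real.exp (10 * x) = Real.exp x * Real.exp x ^ 9 := by
      rw [← Real.exp_nat_mul, ← Real.exp_add]
      congr 1
      push_cast
      ring
    rw [e]
    have h1 : (2.7 : ℝ) ^ 9 ≤ Real.exp x ^ 9 := pow_le_pow_left₀ (by norm_num) y1 9
    have h2 : 2.7 * x * (2.7 : ℝ) ^ 9 ≤ Real.exp x * Real.exp x ^ 9 :=
      mul_le_mul x1 h1 (by positivity) (Real.exp_pos _).le
    norm_num at h2
    linarith
  have e : Real.exp (330 * x) = Real.exp (10 * x) * Real.exp (320 * x) := by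
    rw [← Real.exp_add]
    congr 1
    ring
  rw [e]
  have h1 : 3200 * x * (2 + Real.exp (320 * x)) ≤ 3200 * x * (2 * Real.exp (320 * x)) :=
    mul_le_mul_of_nonneg_left (by linarith) (by linarith)
  have h2 : 6400 * x * Real.exp (320 * x) ≤ Real.exp (10 * x) * Real.exp (320 * x) :=
    mul_le_mul_of_nonneg_right h10 (Real.exp_pos _).le
  linarith

/-- a dense subset with few sums, in a product -/
theorem many_log {α ζ : Type*} [DecidableEq ζ] {Ω G : Finset α} (hsub : G ⊆ Ω) {z : α → ζ} {N D : ℝ}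
    (hN : 0 < N) {K : ℝ} (hK : 1 ≤ K) (hG : N ≤ K * G.card) (hD : ((G.image z).card : ℝ) ≤ D)
    (hlog : 0 ≤ Real.log N - Real.log K - Real.log D) :
    N / K * (Real.log N - Real.log K - Real.log D) ≤ ∑ a ∈ Ω, Real.log (ct Ω z a) := by
  classical
  have hK0 : 0 < K := by linarith
  have hG0 : (0 : ℝ) < G.card := by
    by_contra h
    have h0 : (G.card : ℝ) = 0 := le_antisymm (not_lt.1 h) (Nat.cast_nonneg _)
    rw [h0, mul_zero] at hG
    linarith
  have hGne : G.Nonempty := card_pos.1 (by exact_mod_cast hG0)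
  have hDpos : 0 < (G.image z).card := card_pos.2 (hGne.image z)
  have h1 : hh G z ≤ G.card * Real.log ((G.image z).card : ℕ) := by
    apply hh_le_card hDpos
    refine le_of_eq ?_
    congr 1
    ext w
    simp only [mem_image]
  have h2 : hh G z = G.card * Real.log (G.card : ℝ) - ∑ a ∈ G, Real.log (ct G z a) := by
    unfold hh
    rw [sum_sub_distrib, sum_const, nsmul_eq_mul]
  have h3 : ∑ a ∈ G, Real.log (ct G z a) ≤ ∑ a ∈ Ω, Real.log (ct Ω z a) := by
    calc ∑ a ∈ G, Real.log (ct G z a) ≤ ∑ a ∈ G, Real.log (ct Ω z a) := by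
          apply sum_le_sum
          intro a ha
          exact Real.log_le_log (ct_pos _ ha) (ct_le_of_sub hsub z a)
      _ ≤ ∑ a ∈ Ω, Real.log (ct Ω z a) := by
          apply sum_le_sum_of_subset_of_nonneg hsub
          intro a ha _
          exact log_ct_nonneg _ ha
  have h4 : Real.log ((G.image z).card : ℝ) ≤ Real.log D :=
    Real.log_le_log (by exact_mod_cast hDpos) hD
  have h5 : Real.log N - Real.log K ≤ Real.log (G.card : ℝ) := by
    have h6 := Real.log_le_log hN hG
    rw [Real.log_mul hK0.ne' hG0.ne'] at h6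
    linarith
  have h6 : N / K ≤ G.card := by
    rw [div_le_iff₀ hK0]
    linarith
  have h7 : N / K * (Real.log N - Real.log K - Real.log D) ≤
      G.card * (Real.log N - Real.log K - Real.log D) := mul_le_mul_of_nonneg_right h6 hlog
  have h8 : (G.card : ℝ) * (Real.log N - Real.log K - Real.log D) ≤
      G.card * (Real.log (G.card : ℝ) - Real.log ((G.image z).card : ℝ)) :=
    mul_le_mul_of_nonneg_left (by linarith) hG0.le
  have h9 : (G.card : ℝ) * (Real.log (G.card : ℝ) - Real.log ((G.image z).card : ℝ)) ≤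
      ∑ a ∈ G, Real.log (ct G z a) := by
    rw [mul_sub]
    linarith
  linarith

/-- the deduction from the sum over the scales -/
theorem coreG {ε : ℝ} (hε : 0 < ε) (hε1 : ε ≤ 1) {F : Type*} [Field F] [DecidableEq F]
    (C B : Finset F) (G : Finset (F × F)) (K : ℝ) (hK : 1 ≤ K)
    (hKC : K ≤ (C.card : ℝ) ^ (ε / 2)) (hC : 2 ≤ C.card) (hB : B.Nonempty) {ι : Type*}
    (J : Finset ι) (r : ι → F)
    (hsum : ∀ δ : ℝ, 0 < δ → δ ≤ 1 →
      ∑ i ∈ J, ∑ a ∈ C ×ˢ B, Real.log (ct (C ×ˢ B) (fun b => r i * b.1 + b.2) a) ≤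
      16 * (J.card * (δ * (B.card * (5 * (C.card * Real.log (C.card : ℝ))) +
        C.card * (5 * (B.card * Real.log (B.card : ℝ))))) +
      (2 + Real.exp (1 / δ)) * (5 * (B.card * Real.log (B.card : ℝ)) *
        (5 * (C.card * Real.log (C.card : ℝ))) + 5 * (C.card * Real.log (C.card : ℝ)) *
        (5 * (B.card * Real.log (B.card : ℝ))))))
    (hR : ∀ i ∈ J, (C.card : ℝ) * B.card ≤
      K * (((C ×ˢ B).filter fun s => (r i * s.1, s.2) ∈ G).card : ℝ))
    (hJ : Real.exp (330 * (K / ε)) * Real.log (C.card : ℝ) < (J.card : ℝ)) :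
    ((C.card : ℝ) * B.card) ^ (1 - ε) < ((G.image fun s => s.1 + s.2).card : ℝ) := by
  classical
  by_contra hcon
  push Not at hcon
  have hC2 : (2 : ℝ) ≤ C.card := by exact_mod_cast hC
  have hC0 : (0 : ℝ) < C.card := by linarith
  have hB1 : (1 : ℝ) ≤ B.card := by exact_mod_cast card_pos.2 hB
  have hK0 : 0 < K := by linarith
  set lc : ℝ := Real.log (C.card : ℝ) with hlc
  set lb : ℝ := Real.log (B.card : ℝ) with hlb
  have lc0 : 0 < lc := Real.log_pos (by linarith)
  have lb0 : 0 ≤ lb := Real.log_nonneg hB1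
  set N : ℝ := (C.card : ℝ) * B.card with hN
  have hN0 : 0 < N := by positivity
  have hlN : Real.log N = lc + lb := Real.log_mul hC0.ne' (by linarith)
  have hlK : Real.log K ≤ ε / 2 * lc := by
    rw [hlc, ← Real.log_rpow hC0]
    exact Real.log_le_log hK0 hKC
  -- the lower bound for one scale
  have low : ∀ i ∈ J, N / K * (ε / 2 * (lc + lb)) ≤
      ∑ a ∈ C ×ˢ B, Real.log (ct (C ×ˢ B) (fun b => r i * b.1 + b.2) a) := by
    intro i hi
    have h1 := many_log (Ω := C ×ˢ B) (G := (C ×ˢ B).filter fun s => (r i * s.1, s.2) ∈ G)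
      (filter_subset _ _) (z := fun b : F × F => r i * b.1 + b.2) hN0 hK (hR i hi)
      (D := N ^ (1 - ε)) (by
        refine le_trans (Nat.cast_le.2 (card_le_card ?_)) hcon
        intro w hw
        obtain ⟨s, hs, rfl⟩ := mem_image.1 hw
        exact mem_image.2 ⟨(r i * s.1, s.2), (mem_filter.1 hs).2, rfl⟩) (by
        rw [Real.log_rpow hN0, hlN]
        have h2 : 0 ≤ ε / 2 * lb := by positivity
        have h3 : 0 ≤ ε / 2 * lc := by positivity
        nlinarith)
    refine le_trans ?_ h1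
    apply mul_le_mul_of_nonneg_left _ (by positivity)
    rw [Real.log_rpow hN0, hlN]
    have h2 : 0 ≤ ε / 2 * lb := by positivity
    nlinarith
  have h1 := sum_le_sum low
  rw [sum_const, nsmul_eq_mul] at h1
  set x : ℝ := K / ε with hx
  have hx1 : 1 ≤ x := by
    rw [hx, le_div_iff₀ hε]
    linarith
  have hx0 : 0 < x := by linarith
  have hδ : 1 / (1 / (320 * x)) = 320 * x := by
    field_simp
  have h2 := hsum (1 / (320 * x)) (by positivity) (by
    rw [div_le_one (by positivity)]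
    linarith)
  rw [hδ] at h2
  have h3 := h1.trans h2
  set E : ℝ := 2 + Real.exp (320 * x) with hE
  have hE0 : 0 < E := by positivity
  -- simplification
  have e1 : 16 * ((J.card : ℝ) * (1 / (320 * x) * (B.card * (5 * (C.card * Real.log (C.card : ℝ))) +
      C.card * (5 * (B.card * Real.log (B.card : ℝ))))) + E *
      (5 * (B.card * Real.log (B.card : ℝ)) * (5 * (C.card * Real.log (C.card : ℝ))) +
      5 * (C.card * Real.log (C.card : ℝ)) * (5 * (B.card * Real.log (B.card : ℝ))))) =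
      N * ((J.card : ℝ) * (1 / (4 * x)) * (lc + lb) + 800 * E * (lc * lb)) := by
    rw [← hlc, ← hlb, hN]
    field_simp
    ring
  rw [e1] at h3
  have e2 : (J.card : ℝ) * (N / K * (ε / 2 * (lc + lb))) =
      N * ((J.card : ℝ) * (1 / (2 * x)) * (lc + lb)) := by
    rw [hx]
    field_simp
  rw [e2] at h3
  have h4 := le_of_mul_le_mul_left h3 hN0
  have h5 : (J.card : ℝ) * (1 / (4 * x)) * (lc + lb) ≤ 800 * E * (lc * lb) := by
    have e3 : (J.card : ℝ) * (1 / (2 * x)) * (lc + lb) =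
        (J.card : ℝ) * (1 / (4 * x)) * (lc + lb) + (J.card : ℝ) * (1 / (4 * x)) * (lc + lb) := by
      field_simp
      ring
    linarith
  have h6 : 800 * E * (lc * lb) ≤ 800 * E * (lc * (lc + lb)) := by
    apply mul_le_mul_of_nonneg_left _ (by positivity)
    apply mul_le_mul_of_nonneg_left _ lc0.le
    linarith
  have h7 : ((J.card : ℝ) * (1 / (4 * x))) * (lc + lb) ≤ (800 * E * lc) * (lc + lb) := by
    refine (h5.trans h6).trans (le_of_eq ?_)
    ring
  have h8 := le_of_mul_le_mul_right h7 (by linarith)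
  have h9 : (J.card : ℝ) ≤ 3200 * x * E * lc := by
    have e3 : (J.card : ℝ) = 4 * x * ((J.card : ℝ) * (1 / (4 * x))) := by
      field_simp
    rw [e3]
    refine (mul_le_mul_of_nonneg_left h8 (by positivity)).trans (le_of_eq ?_)
    ring
  have h10 : 3200 * x * E * lc ≤ Real.exp (330 * x) * lc :=
    mul_le_mul_of_nonneg_right (exp_bound3 hx1) lc0.le
  linarith

/-- **sums along a set of pairs**, an archimedean place of a field -/
theorem arcG0 {ε : ℝ} (hε : 0 < ε) (hε1 : ε ≤ 1) {F : Type*} [Field F] [DecidableEq F]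
    (σ : F →+* ℂ) (C B : Finset F) (G : Finset (F × F)) (K : ℝ) (hK : 1 ≤ K)
    (hKC : K ≤ (C.card : ℝ) ^ (ε / 2)) (hC : 2 ≤ C.card) (hB : B.Nonempty) (J : Finset ℤ)
    (r : ℤ → F) (hr : ∀ i ∈ J, (3 : ℝ) ^ i ≤ ‖σ (r i)‖ ∧ ‖σ (r i)‖ < 3 ^ (i + 1))
    (hR : ∀ i ∈ J, (C.card : ℝ) * B.card ≤
      K * (((C ×ˢ B).filter fun s => (r i * s.1, s.2) ∈ G).card : ℝ))
    (hJ : Real.exp (330 * (K / ε)) * Real.log (C.card : ℝ) < (J.card : ℝ)) :
    ((C.card : ℝ) * B.card) ^ (1 - ε) < ((G.image fun s => s.1 + s.2).card : ℝ) :=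
  coreG hε hε1 C B G K hK hKC hC hB J r (fun _ h1 h2 => arc_sum h1 h2 σ C B J r hr) hR hJ

/-- **sums along a set of pairs**, an archimedean place, in vector spaces -/
theorem arcG {ε : ℝ} (hε : 0 < ε) (hε1 : ε ≤ 1) {F V : Type*} [Field F] [AddCommGroup V]
    [Module F V] [DecidableEq V]
    (σ : F →+* ℂ) (C B : Finset V) (G : Finset (V × V)) (K : ℝ) (hK : 1 ≤ K)
    (hKC : K ≤ (C.card : ℝ) ^ (ε / 2)) (hC : 2 ≤ C.card) (hB : B.Nonempty) (J : Finset ℤ)
    (r : ℤ → F) (hr : ∀ i ∈ J, (3 : ℝ) ^ i ≤ ‖σ (r i)‖ ∧ ‖σ (r i)‖ < 3 ^ (i + 1))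
    (hR : ∀ i ∈ J, (C.card : ℝ) * B.card ≤
      K * (((C ×ˢ B).filter fun s => (r i • s.1, s.2) ∈ G).card : ℝ))
    (hJ : Real.exp (330 * (K / ε)) * Real.log (C.card : ℝ) < (J.card : ℝ)) :
    ((C.card : ℝ) * B.card) ^ (1 - ε) < ((G.image fun s => s.1 + s.2).card : ℝ) := by
  classical
  have hchar : CharZero F := RingHom.charZero σ
  have hinf : Infinite F := Infinite.of_injective (fun n : ℕ => (n : F)) Nat.cast_injective
  obtain ⟨f, hfC, hfB⟩ := exists_dual_inj (F := F) C B
  have hCc : (C.image f).card = C.card := card_image_of_injOn hfC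
  have hBc : (B.image f).card = B.card := card_image_of_injOn hfB
  have key := arcG0 hε hε1 σ (C.image f) (B.image f) (G.image fun s => (f s.1, f s.2)) K hK
    (by rw [hCc]; exact hKC) (by rw [hCc]; exact hC) (hB.image f) J r hr (by
      intro i hi
      rw [hCc, hBc]
      refine (hR i hi).trans (mul_le_mul_of_nonneg_left (Nat.cast_le.2 ?_) (by linarith))
      apply card_le_card_of_injOn (fun s => (f s.1, f s.2))
      · intro s hs
        obtain ⟨h1, h2⟩ := mem_filter.1 hs
        obtain ⟨h3, h4⟩ := mem_product.1 h1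
        refine mem_filter.2 ⟨mem_product.2 ⟨mem_image_of_mem _ h3, mem_image_of_mem _ h4⟩, ?_⟩
        refine mem_image.2 ⟨_, h2, ?_⟩
        show (f (r i • s.1), f s.2) = (r i * f s.1, f s.2)
        rw [map_smul]
        rfl
      · intro s hs s' hs' h
        obtain ⟨h1, _⟩ := mem_filter.1 hs
        obtain ⟨h3, h4⟩ := mem_product.1 h1
        obtain ⟨h1', _⟩ := mem_filter.1 hs'
        obtain ⟨h3', h4'⟩ := mem_product.1 h1'
        obtain ⟨h5, h6⟩ := Prod.ext_iff.1 h
        exact Prod.ext (hfC h3 h3' h5) (hfB h4 h4' h6))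
    (by rw [hCc]; exact hJ)
  rw [hCc, hBc] at key
  refine lt_of_lt_of_le key (Nat.cast_le.2 ?_)
  have h1 : ((G.image fun s => (f s.1, f s.2)).image fun s => s.1 + s.2) ⊆
      (G.image fun s => s.1 + s.2).image f := by
    intro w hw
    obtain ⟨s, hs, rfl⟩ := mem_image.1 hw
    obtain ⟨s', hs', rfl⟩ := mem_image.1 hs
    exact mem_image.2 ⟨s'.1 + s'.2, mem_image_of_mem _ hs', map_add _ _ _⟩
  exact (card_le_card h1).trans card_image_le

end Pool.Agent.H85.AK
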