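import Mathlib

/-!
Counting entropies of functions on finite sets.
-/

set_option autoImplicit false

namespace Pool.Agent.H85.AK

open Finset
open scoped Classical

variable {α β γ ζ : Type*}

/-- the number of points with a given value -/
noncomputable def cv (Ω : Finset α) (f : α → β) (c : β) : ℝ := ((Ω.filter fun b => f b = c).card : ℝ)

/-- the number of points with the same value -/
noncomputable def ct (Ω : Finset α) (f : α → β) (a : α) : ℝ := cv Ω f (f a)

theorem cv_nonneg (Ω : Finset α) (f : α → β) (c : β) : 0 ≤ cv Ω f c := Nat.cast_nonneg _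

theorem cv_le (Ω : Finset α) (f : α → β) (c : β) : cv Ω f c ≤ Ω.card := by
  unfold cv
  exact_mod_cast card_filter_le _ _

theorem ct_one {Ω : Finset α} (f : α → β) {a : α} (ha : a ∈ Ω) : 1 ≤ ct Ω f a := by
  unfold ct cv
  have : 0 < (Ω.filter fun b => f b = f a).card := card_pos.2 ⟨a, mem_filter.2 ⟨ha, rfl⟩⟩
  exact_mod_cast this

theorem ct_pos {Ω : Finset α} (f : α → β) {a : α} (ha : a ∈ Ω) : 0 < ct Ω f a :=
  lt_of_lt_of_le one_pos (ct_one f ha)

theorem ct_le (Ω : Finset α) (f : α → β) (a : α) : ct Ω f a ≤ Ω.card := cv_le _ _ _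

theorem ct_mono {Ω : Finset α} {f : α → β} {g : α → γ} {a : α}
    (h : ∀ b ∈ Ω, f b = f a → g b = g a) : ct Ω f a ≤ ct Ω g a := by
  unfold ct cv
  apply Nat.cast_le.2
  apply card_le_card
  intro b hb
  obtain ⟨h1, h2⟩ := mem_filter.1 hb
  exact mem_filter.2 ⟨h1, h b h1 h2⟩

theorem ct_congr {Ω : Finset α} {f : α → β} {g : α → γ} {a : α}
    (h : ∀ b ∈ Ω, f b = f a ↔ g b = g a) : ct Ω f a = ct Ω g a :=
  le_antisymm (ct_mono fun b hb h' => (h b hb).1 h') (ct_mono fun b hb h' => (h b hb).2 h')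

theorem cv_eq [DecidableEq β] (Ω : Finset α) (f : α → β) (c : β) :
    cv Ω f c = ((Ω.filter fun b => f b = c).card : ℝ) := by
  unfold cv
  rw [Finset.filter_congr_decidable]

theorem sum_div_ct [DecidableEq β] (Ω : Finset α) (f : α → β) (g : β → ℝ) :
    ∑ a ∈ Ω, g (f a) / ct Ω f a = ∑ c ∈ Ω.image f, g c := by
  rw [← Finset.sum_fiberwise_of_maps_to (s := Ω) (t := Ω.image f) (g := f)
    fun a ha => mem_image_of_mem f ha]
  apply sum_congr rfl
  intro c hc
  have h1 : ∀ a ∈ Ω.filter (fun a => f a = c), g (f a) / ct Ω f a = g c / cv Ω f c := by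
    intro a ha
    unfold ct
    rw [(mem_filter.1 ha).2]
  rw [sum_congr rfl h1, sum_const, nsmul_eq_mul]
  obtain ⟨a, ha, rfl⟩ := mem_image.1 hc
  have h2 : cv Ω f (f a) ≠ 0 := (ct_pos f ha).ne'
  rw [← cv_eq Ω f (f a)]
  field_simp

theorem sum_cv (Ω : Finset α) (f : α → β) : ∑ c ∈ Ω.image f, cv Ω f c = Ω.card := by
  have h1 := sum_div_ct Ω f (cv Ω f)
  rw [← h1]
  have h2 : ∀ a ∈ Ω, cv Ω f (f a) / ct Ω f a = 1 := fun a ha =>
    div_self (ct_pos f ha).ne'
  rw [sum_congr rfl h2, sum_const, nsmul_eq_mul, mul_one]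

/-- marginals -/
theorem sum_cv_pair (Ω : Finset α) (f : α → β) (h : α → ζ) (w : ζ) :
    ∑ u ∈ Ω.image f, cv Ω (fun a => (f a, h a)) (u, w) = cv Ω h w := by
  have h1 := sum_cv (Ω.filter fun b => h b = w) f
  have h2 : (Ω.filter fun b => h b = w).image f ⊆ Ω.image f := image_subset_image (filter_subset _ _)
  have h3 : ∀ u, cv Ω (fun a => (f a, h a)) (u, w) = cv (Ω.filter fun b => h b = w) f u := by
    intro u
    unfold cv
    rw [filter_filter]
    congr 2
    ext b
    simp only [Prod.mk.injEq, mem_filter]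
    tauto
  have h4 : ∑ u ∈ Ω.image f, cv (Ω.filter fun b => h b = w) f u =
      ∑ u ∈ (Ω.filter fun b => h b = w).image f, cv (Ω.filter fun b => h b = w) f u := by
    symm
    apply sum_subset h2
    intro u _ hu
    unfold cv
    rw [Nat.cast_eq_zero, card_eq_zero, filter_eq_empty_iff]
    intro b hb hbu
    exact hu (mem_image.2 ⟨b, hb, hbu⟩)
  rw [sum_congr rfl fun u _ => h3 u, h4, h1]
  rfl

/-- **submodularity** -/
theorem submod (Ω : Finset α) (f : α → β) (g : α → γ) (h : α → ζ) :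
    ∑ a ∈ Ω, (Real.log (ct Ω (fun a => (f a, h a)) a) + Real.log (ct Ω (fun a => (g a, h a)) a)) ≤
      ∑ a ∈ Ω, (Real.log (ct Ω (fun a => (f a, g a, h a)) a) + Real.log (ct Ω h a)) := by
  set F : α → β × γ × ζ := fun a => (f a, g a, h a) with hF
  set G : β × γ × ζ → ℝ := fun t => cv Ω (fun a => (f a, h a)) (t.1, t.2.2) *
    cv Ω (fun a => (g a, h a)) (t.2.1, t.2.2) / cv Ω h t.2.2 with hG
  have hG0 : ∀ t, 0 ≤ G t := fun t => div_nonneg (mul_nonneg (cv_nonneg _ _ _) (cv_nonneg _ _ _))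
    (cv_nonneg _ _ _)
  have key : ∑ a ∈ Ω, G (F a) / ct Ω F a ≤ Ω.card := by
    rw [sum_div_ct]
    have hsub : Ω.image F ⊆ (Ω.image f) ×ˢ ((Ω.image g) ×ˢ (Ω.image h)) := by
      intro t ht
      obtain ⟨a, ha, rfl⟩ := mem_image.1 ht
      exact mem_product.2 ⟨mem_image_of_mem _ ha, mem_product.2 ⟨mem_image_of_mem _ ha,
        mem_image_of_mem _ ha⟩⟩
    refine (sum_le_sum_of_subset_of_nonneg hsub fun t _ _ => hG0 t).trans (le_of_eq ?_)
    rw [sum_product]
    simp only [sum_product]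
    have h1 : ∀ u ∈ Ω.image f, ∑ v ∈ Ω.image g, ∑ w ∈ Ω.image h, G (u, v, w) =
        ∑ w ∈ Ω.image h, cv Ω (fun a => (f a, h a)) (u, w) := by
      intro u _
      rw [sum_comm]
      apply sum_congr rfl
      intro w hw
      simp only [hG]
      rw [← sum_div, ← mul_sum, sum_cv_pair Ω g h w]
      obtain ⟨a, ha, rfl⟩ := mem_image.1 hw
      have h5 : cv Ω h (h a) ≠ 0 := (ct_pos h ha).ne'
      rw [mul_div_assoc, div_self h5, mul_one]
    rw [sum_congr rfl h1, sum_comm]
    rw [sum_congr rfl fun w _ => sum_cv_pair Ω f h w, sum_cv]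
  have hterm : ∀ a ∈ Ω, (Real.log (ct Ω (fun a => (f a, h a)) a) +
      Real.log (ct Ω (fun a => (g a, h a)) a)) - (Real.log (ct Ω F a) + Real.log (ct Ω h a)) ≤
      G (F a) / ct Ω F a - 1 := by
    intro a ha
    have p1 := ct_pos (fun a => (f a, h a)) ha
    have p2 := ct_pos (fun a => (g a, h a)) ha
    have p3 := ct_pos F ha
    have p4 := ct_pos h ha
    have e1 : G (F a) / ct Ω F a = ct Ω (fun a => (f a, h a)) a * ct Ω (fun a => (g a, h a)) a /
        (ct Ω F a * ct Ω h a) := by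
      have : G (F a) = ct Ω (fun a => (f a, h a)) a * ct Ω (fun a => (g a, h a)) a / ct Ω h a := rfl
      rw [this]
      field_simp
    rw [e1, ← Real.log_mul p1.ne' p2.ne', ← Real.log_mul p3.ne' p4.ne',
      ← Real.log_div (by positivity) (by positivity)]
    have := Real.log_le_sub_one_of_pos (show 0 < ct Ω (fun a => (f a, h a)) a *
      ct Ω (fun a => (g a, h a)) a / (ct Ω F a * ct Ω h a) by positivity)
    linarith
  have h1 := sum_le_sum hterm
  rw [sum_sub_distrib, sum_sub_distrib, sum_const, nsmul_eq_mul, mul_one] at h1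
  linarith

/-- subadditivity -/
theorem subadd (Ω : Finset α) (f : α → β) (g : α → γ) :
    ∑ a ∈ Ω, (Real.log (ct Ω f a) + Real.log (ct Ω g a)) ≤
      ∑ a ∈ Ω, (Real.log (ct Ω (fun a => (f a, g a)) a) + Real.log (Ω.card : ℝ)) := by
  have h1 := submod Ω f g (fun _ => ())
  have e1 : ∀ a, ct Ω (fun a => (f a, ())) a = ct Ω f a := fun a => ct_congr fun b _ => by simp
  have e2 : ∀ a, ct Ω (fun a => (g a, ())) a = ct Ω g a := fun a => ct_congr fun b _ => by simp
  have e3 : ∀ a, ct Ω (fun a => (f a, g a, ())) a = ct Ω (fun a => (f a, g a)) a := fun a =>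
    ct_congr fun b _ => by simp
  have e4 : ∀ a, ct Ω (fun _ : α => ()) a = Ω.card := fun a => by
    unfold ct cv
    simp
  simp only [e1, e2, e3, e4] at h1
  exact h1

/-- the unnormalised entropy -/
noncomputable def hh (Ω : Finset α) (f : α → β) : ℝ :=
  ∑ a ∈ Ω, (Real.log (Ω.card : ℝ) - Real.log (ct Ω f a))

theorem log_ct_le {Ω : Finset α} (f : α → β) {a : α} (ha : a ∈ Ω) :
    Real.log (ct Ω f a) ≤ Real.log (Ω.card : ℝ) :=
  Real.log_le_log (ct_pos f ha) (ct_le Ω f a)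

theorem log_ct_nonneg {Ω : Finset α} (f : α → β) {a : α} (ha : a ∈ Ω) :
    0 ≤ Real.log (ct Ω f a) := Real.log_nonneg (ct_one f ha)

theorem hh_nonneg (Ω : Finset α) (f : α → β) : 0 ≤ hh Ω f :=
  sum_nonneg fun a ha => sub_nonneg.2 (log_ct_le f ha)

end Pool.Agent.H85.AK
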