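import Pool.Agent.H85.AK.Sums

/-!
Many slopes: the abstract form.
-/

set_option autoImplicit false

namespace Pool.Agent.H85.AK

open Finset
open scoped Classical

variable {α β γ ζ κ : Type*}

/-- distinct shifts use distinct nodes -/
theorem sum_paths (f : ℕ → ℕ → ℝ) (hf : ∀ s t, 0 ≤ f s t) (J : Finset ℤ) (T : ℕ) :
    ∃ R : ℕ, ∑ i ∈ J, ∑ t ∈ range T, f (i.toNat + t) ((-i).toNat + t) ≤
      ∑ s ∈ range R, ∑ t ∈ range R, f s t := by
  refine ⟨T + ∑ i ∈ J, i.natAbs, ?_⟩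
  set R := T + ∑ i ∈ J, i.natAbs with hR
  rw [← sum_product', ← sum_product']
  set g : ℤ × ℕ → ℕ × ℕ := fun c => (c.1.toNat + c.2, (-c.1).toNat + c.2) with hg
  have hinj : Set.InjOn g (J ×ˢ range T : Finset (ℤ × ℕ)) := by
    rintro ⟨i, t⟩ _ ⟨j, u⟩ _ h
    simp only [hg, Prod.mk.injEq] at h
    obtain ⟨h1, h2⟩ := h
    have h3 : i = j := by omega
    subst h3
    have h4 : t = u := by omega
    rw [h4]
  have e1 : ∑ c ∈ J ×ˢ range T, f (c.1.toNat + c.2) ((-c.1).toNat + c.2) =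
      ∑ c ∈ (J ×ˢ range T).image g, f c.1 c.2 :=
    (sum_image (f := fun c : ℕ × ℕ => f c.1 c.2) hinj).symm
  rw [e1]
  apply sum_le_sum_of_subset_of_nonneg
  · intro c hc
    obtain ⟨⟨i, t⟩, hit, rfl⟩ := mem_image.1 hc
    obtain ⟨hi, ht⟩ := mem_product.1 hit
    have h1 : i.natAbs ≤ ∑ i ∈ J, i.natAbs := single_le_sum (f := fun i : ℤ => i.natAbs)
      (fun _ _ => Nat.zero_le _) hi
    have h2 := mem_range.1 ht
    simp only [hg] at h2 ⊢
    refine mem_product.2 ⟨mem_range.2 ?_, mem_range.2 ?_⟩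
    · show i.toNat + t < R
      have : i.toNat ≤ i.natAbs := by omega
      omega
    · show (-i).toNat + t < R
      have : (-i).toNat ≤ i.natAbs := by omega
      omega
  · intro c _ _
    exact hf _ _

/-- **the abstract form** -/
theorem core {δ : ℝ} (hδ : 0 < δ) (hδ1 : δ ≤ 1) {A : Finset α} {P : ℕ → α → β} {Q : ℕ → α → γ}
    (hP : ∀ s, Ref A (P (s + 1)) (P s)) (hQ : ∀ t, Ref A (Q (t + 1)) (Q t))
    (J : Finset ℤ) (T : ℕ) (z : ℤ → α → ζ) (Z : ℤ → ℕ → α → κ)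
    (hZ : ∀ i ∈ J, ∀ t, ∀ a ∈ A, ∀ b ∈ A, P (i.toNat + t) a = P (i.toNat + t) b →
      Q ((-i).toNat + t) a = Q ((-i).toNat + t) b → Z i t a = Z i t b)
    (hU : ∀ i ∈ J, ∀ t, ∀ a ∈ A, ∀ b ∈ A, Z i t a = Z i t b →
      Q ((-i).toNat + t) a = Q ((-i).toNat + t) b → P (i.toNat + t) a = P (i.toNat + t) b)
    (hV : ∀ i ∈ J, ∀ t, ∀ a ∈ A, ∀ b ∈ A, Z i t a = Z i t b →
      P (i.toNat + t) a = P (i.toNat + t) b → Q ((-i).toNat + t) a = Q ((-i).toNat + t) b)
    (hZZ : ∀ i ∈ J, ∀ t, ∀ a ∈ A, ∀ b ∈ A, Z i (t + 1) a = Z i (t + 1) b → Z i t a = Z i t b)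
    (h0 : ∀ i ∈ J, ∀ a ∈ A, ∀ b ∈ A, P i.toNat a = P i.toNat b ∧
      Q (-i).toNat a = Q (-i).toNat b)
    (hT : ∀ i ∈ J, ∀ a ∈ A, ∀ b ∈ A, P (i.toNat + T) a = P (i.toNat + T) b →
      Q ((-i).toNat + T) a = Q ((-i).toNat + T) b → a = b)
    (hz : ∀ i ∈ J, ∀ a ∈ A, ∀ b ∈ A, z i a = z i b → Z i T a = Z i T b) :
    ∑ i ∈ J, ∑ a ∈ A, Real.log (ct A (z i) a) ≤
      δ * (J.card * (A.card * Real.log (A.card : ℝ))) +
      A.card * Real.log (A.card : ℝ) * (δ + 1 + 2 * Real.log (A.card : ℝ) +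
        2 * (40 + Real.exp (1 / δ)) * Real.log (A.card : ℝ)) := by
  set Sn : ℝ := Real.log (A.card : ℝ) with hSn
  have hSn0 : 0 ≤ Sn := Real.log_natCast_nonneg _
  set n : ℝ := (A.card : ℝ) with hn
  have hn0 : 0 ≤ n := Nat.cast_nonneg _
  set I : ℕ → ℕ → ℝ := fun s t => E A P Q (s + 1) (t + 1) + E A P Q s t -
      E A P Q (s + 1) t - E A P Q s (t + 1) with hI
  set X : ℕ → ℕ → ℝ := fun s t =>
    S A (lab (P s) (Q t)) (fun Ω => ep Ω (P (s + 1)) * hh Ω (Q (t + 1))) with hX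
  set Y : ℕ → ℕ → ℝ := fun s t =>
    S A (lab (P s) (Q t)) (fun Ω => ep Ω (Q (t + 1)) * hh Ω (P (s + 1))) with hY
  have eI : ∀ s t, S A (lab (P s) (Q t)) (fun Ω => mi Ω (P (s + 1)) (Q (t + 1))) = I s t := by
    intro s t
    rw [S_mi (hP s) (hQ t)]
    simp only [hI, E, sum_sub_distrib, sum_add_distrib]
  have I0 : ∀ s t, 0 ≤ I s t := by
    intro s t
    rw [← eI]
    exact S_nonneg fun a _ => mi_nonneg _ _ _
  have X0 : ∀ s t, 0 ≤ X s t := fun s t => S_nonneg fun a ha =>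
    mul_nonneg (ep_nonneg (cl_nonempty _ ha) _) (hh_nonneg _ _)
  have Y0 : ∀ s t, 0 ≤ Y s t := fun s t => S_nonneg fun a ha =>
    mul_nonneg (ep_nonneg (cl_nonempty _ ha) _) (hh_nonneg _ _)
  set C : ℝ := 40 + Real.exp (1 / δ) with hC
  have hC0 : 0 ≤ C := by positivity
  have key : ∀ s t, δ * (S A (lab (P s) (Q t)) (fun Ω => hh Ω (P (s + 1))) +
        S A (lab (P s) (Q t)) (fun Ω => hh Ω (Q (t + 1)))) + C * (Y s t + X s t) +
        (1 + 2 * Sn) * S A (lab (P s) (Q t)) (fun Ω => mi Ω (P (s + 1)) (Q (t + 1))) =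
      δ * (E A P Q s t - E A P Q (s + 1) (t + 1)) +
      ((δ + 1 + 2 * Sn) * I s t + C * (Y s t + X s t)) := by
    intro s t
    have e1 : S A (lab (P s) (Q t)) (fun Ω => hh Ω (P (s + 1))) =
        E A P Q s t - E A P Q (s + 1) t := by
      rw [S_hh_left (hP s), sum_sub_distrib]
      rfl
    have e2 : S A (lab (P s) (Q t)) (fun Ω => hh Ω (Q (t + 1))) =
        E A P Q s t - E A P Q s (t + 1) := by
      rw [S_hh_right (hQ t), sum_sub_distrib]
      rfl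
    rw [eI, e1, e2]
    simp only [hI]
    ring
  -- one node
  have node : ∀ i ∈ J, ∀ t, ∑ a ∈ A, (Real.log (ct A (fun b => (Z i (t + 1) b,
      lab (P (i.toNat + t)) (Q ((-i).toNat + t)) b)) a) -
      Real.log (ct A (lab (P (i.toNat + (t + 1))) (Q ((-i).toNat + (t + 1)))) a)) ≤
      δ * (E A P Q (i.toNat + t) ((-i).toNat + t) -
        E A P Q (i.toNat + (t + 1)) ((-i).toNat + (t + 1))) +
      ((δ + 1 + 2 * Sn) * I (i.toNat + t) ((-i).toNat + t) +
        C * (Y (i.toNat + t) ((-i).toNat + t) + X (i.toNat + t) ((-i).toNat + t))) := by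
    intro i hi t
    have h1 := node_ineq hδ hδ1 (hP (i.toNat + t)) (hQ ((-i).toNat + t)) (Z := Z i (t + 1))
      (hZ i hi (t + 1)) (hU i hi (t + 1)) (hV i hi (t + 1))
    exact (show _ ≤ _ from h1).trans (le_of_eq (key (i.toNat + t) ((-i).toNat + t)))
  -- one slope
  have slope : ∀ i ∈ J, ∑ a ∈ A, Real.log (ct A (z i) a) ≤ δ * (n * Sn) +
      ∑ t ∈ range T, ((δ + 1 + 2 * Sn) * I (i.toNat + t) ((-i).toNat + t) +
        C * (Y (i.toNat + t) ((-i).toNat + t) + X (i.toNat + t) ((-i).toNat + t))) := by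
    intro i hi
    have h1 := chain A T (fun t => lab (P (i.toNat + t)) (Q ((-i).toNat + t))) (Z i) (z i)
      (fun t a ha b hb h => by
        simp only [lab, Prod.mk.injEq] at h
        exact hZ i hi t a ha b hb h.1 h.2)
      (hZZ i hi)
      (fun a ha b hb => by
        have := h0 i hi a ha b hb
        simp only [lab, Prod.mk.injEq, add_zero]
        exact this)
      (fun a ha b hb h => by
        simp only [lab, Prod.mk.injEq] at h
        exact hT i hi a ha b hb h.1 h.2)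
      (hz i hi)
    refine h1.trans ?_
    refine (sum_le_sum fun t _ => node i hi t).trans ?_
    rw [sum_add_distrib, ← mul_sum, sum_range_sub' (fun t => E A P Q (i.toNat + t)
      ((-i).toNat + t))]
    have h2 := E_le (A := A) (P := P) (Q := Q) (i.toNat + 0) ((-i).toNat + 0)
    have h3 := E_nonneg (A := A) (P := P) (Q := Q) (i.toNat + T) ((-i).toNat + T)
    have h4 : δ * (E A P Q (i.toNat + 0) ((-i).toNat + 0) -
        E A P Q (i.toNat + T) ((-i).toNat + T)) ≤ δ * (n * Sn) :=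
      mul_le_mul_of_nonneg_left (by linarith) hδ.le
    linarith
  -- all slopes
  refine (sum_le_sum slope).trans ?_
  rw [sum_add_distrib, sum_const, nsmul_eq_mul]
  obtain ⟨R, hR⟩ := sum_paths (fun s t => (δ + 1 + 2 * Sn) * I s t + C * (Y s t + X s t))
    (fun s t => by
      have := I0 s t
      have := X0 s t
      have := Y0 s t
      positivity) J T
  have h1 : ∑ s ∈ range R, ∑ t ∈ range R, ((δ + 1 + 2 * Sn) * I s t + C * (Y s t + X s t)) =
      (δ + 1 + 2 * Sn) * ∑ s ∈ range R, ∑ t ∈ range R, I s t +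
      C * (∑ s ∈ range R, ∑ t ∈ range R, Y s t + ∑ s ∈ range R, ∑ t ∈ range R, X s t) := by
    simp only [sum_add_distrib, mul_sum, mul_add]
  have h2 := sum_I (P := P) hQ R
  have h3 := sum_X hP hQ R
  have h4 := sum_Y hP hQ R
  rw [h1] at hR
  have h5 : (δ + 1 + 2 * Sn) * ∑ s ∈ range R, ∑ t ∈ range R, I s t ≤
      (δ + 1 + 2 * Sn) * (n * Sn) := mul_le_mul_of_nonneg_left h2 (by positivity)
  have h6 : C * (∑ s ∈ range R, ∑ t ∈ range R, Y s t + ∑ s ∈ range R, ∑ t ∈ range R, X s t) ≤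
      C * (n * Sn * Sn + n * Sn * Sn) := mul_le_mul_of_nonneg_left (add_le_add h4 h3) hC0
  have h7 : (J.card : ℝ) * (δ * (n * Sn)) = δ * (J.card * (n * Sn)) := by ring
  have h8 : n * Sn * (δ + 1 + 2 * Sn + 2 * C * Sn) =
    (δ + 1 + 2 * Sn) * (n * Sn) + C * (n * Sn * Sn + n * Sn * Sn) := by ring
  rw [h7, h8]
  linarith

end Pool.Agent.H85.AK
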