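import Pool.Agent.H85.AK.Core

/-!
Groups with a filtration, and fields with a discrete valuation.
-/

set_option autoImplicit false

namespace Pool.Agent.H85.AK

open Finset
open scoped Classical

/-- a coset -/
def cos {K : Type*} [AddCommGroup K] (H : AddSubgroup K) (x : K) : Set K := {u | u - x ∈ H}

theorem cos_eq {K : Type*} [AddCommGroup K] {H : AddSubgroup K} {x y : K} :
    cos H x = cos H y ↔ x - y ∈ H := by
  constructor
  · intro h
    have h1 : x ∈ cos H x := by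
      show x - x ∈ H
      rw [sub_self]
      exact H.zero_mem
    rw [h] at h1
    exact h1
  · intro h
    ext u
    show u - x ∈ H ↔ u - y ∈ H
    constructor
    · intro h1
      have : u - y = (u - x) + (x - y) := by abel
      rw [this]
      exact H.add_mem h1 h
    · intro h1
      have : u - x = (u - y) - (x - y) := by abel
      rw [this]
      exact H.sub_mem h1 h

/-- finitely many elements lie in one subgroup of the filtration -/
theorem filt_low {K : Type*} [AddCommGroup K] {L : ℤ → AddSubgroup K} (hL : Antitone L)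
    (htop : ∀ x, ∃ l, x ∈ L l) (X : Finset K) : ∃ l, ∀ x ∈ X, x ∈ L l := by
  choose f hf using htop
  obtain ⟨m, hm⟩ := (X.image f).bddBelow
  refine ⟨m, fun x hx => ?_⟩
  exact hL (hm (mem_coe.2 (mem_image_of_mem f hx))) (hf x)

theorem filt_high {K : Type*} [AddCommGroup K] {L : ℤ → AddSubgroup K} (hL : Antitone L)
    (hbot : ∀ x, x ≠ 0 → ∃ l, x ∉ L l) (X : Finset K) : ∃ l, ∀ x ∈ X, x ∈ L l → x = 0 := by
  have h : ∀ x, ∃ l, x ∈ L l → x = 0 := by
    intro x
    by_cases hx : x = 0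
    · exact ⟨0, fun _ => hx⟩
    · obtain ⟨l, hl⟩ := hbot x hx
      exact ⟨l, fun h => absurd h hl⟩
  choose f hf using h
  obtain ⟨m, hm⟩ := (X.image f).bddAbove
  refine ⟨m, fun x hx h => ?_⟩
  exact hf x (hL (hm (mem_coe.2 (mem_image_of_mem f hx))) h)

/-- **the form for groups with a filtration** -/
theorem filt {δ : ℝ} (hδ : 0 < δ) (hδ1 : δ ≤ 1) {K : Type*} [AddCommGroup K]
    {L : ℤ → AddSubgroup K} (hL : Antitone L) (htop : ∀ x, ∃ l, x ∈ L l)
    (hbot : ∀ x, x ≠ 0 → ∃ l, x ∉ L l) (A : Finset (K × K)) (J : Finset ℤ) (ρ : ℤ → K →+ K)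
    (hρ : ∀ i ∈ J, ∀ y l, ρ i y ∈ L (l + i) ↔ y ∈ L l) :
    ∑ i ∈ J, ∑ a ∈ A, Real.log (ct A (fun a : K × K => a.1 + ρ i a.2) a) ≤
      δ * (J.card * (A.card * Real.log (A.card : ℝ))) +
      A.card * Real.log (A.card : ℝ) * (δ + 1 + 2 * Real.log (A.card : ℝ) +
        2 * (40 + Real.exp (1 / δ)) * Real.log (A.card : ℝ)) := by
  -- differences
  set X : Finset K := (A ×ˢ A).image (fun c => c.1.1 - c.2.1) ∪
    (A ×ˢ A).image (fun c => c.1.2 - c.2.2) with hX
  have hX1 : ∀ a ∈ A, ∀ b ∈ A, a.1 - b.1 ∈ X := fun a ha b hb =>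
    mem_union_left _ (mem_image.2 ⟨(a, b), mem_product.2 ⟨ha, hb⟩, rfl⟩)
  have hX2 : ∀ a ∈ A, ∀ b ∈ A, a.2 - b.2 ∈ X := fun a ha b hb =>
    mem_union_right _ (mem_image.2 ⟨(a, b), mem_product.2 ⟨ha, hb⟩, rfl⟩)
  obtain ⟨l0, hl0⟩ := filt_low hL htop X
  obtain ⟨l1, hl1⟩ := filt_high hL hbot X
  set B : ℤ := ∑ i ∈ J, |i| with hB
  have hBi : ∀ i ∈ J, |i| ≤ B := fun i hi =>
    single_le_sum (f := fun i : ℤ => |i|) (fun _ _ => abs_nonneg _) hi
  set c : ℤ := l0 - B with hc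
  set T : ℕ := (l1 - c).toNat with hT
  have hTc : l1 ≤ c + T := by
    have := Int.self_le_toNat (l1 - c)
    omega
  set P : ℕ → K × K → Set K := fun s a => cos (L (c + s)) a.1 with hP
  set Q : ℕ → K × K → Set K := fun s a => cos (L (c + s)) a.2 with hQ
  set Z : ℤ → ℕ → K × K → Set K := fun i t a =>
    cos (L (c + (i.toNat + t : ℕ))) (a.1 + ρ i a.2) with hZ
  have hPQ : ∀ s : ℕ, L (c + (s + 1 : ℕ)) ≤ L (c + s) := fun s => hL (by push_cast; omega)
  -- the multiplication shifts the filtration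
  have hρ' : ∀ i ∈ J, ∀ t : ℕ, ∀ y, ρ i y ∈ L (c + (i.toNat + t : ℕ)) ↔
      y ∈ L (c + ((-i).toNat + t : ℕ)) := by
    intro i hi t y
    have h := hρ i hi y (c + ((-i).toNat + t : ℕ))
    have e : c + (((-i).toNat + t : ℕ) : ℤ) + i = c + (i.toNat + t : ℕ) := by
      push_cast
      omega
    rwa [e] at h
  have hz : ∀ i (a b : K × K), (a.1 + ρ i a.2) - (b.1 + ρ i b.2) =
      (a.1 - b.1) + ρ i (a.2 - b.2) := by
    intro i a b
    rw [map_sub]
    abel
  apply core hδ hδ1 (P := P) (Q := Q) (Z := Z) (T := T)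
  · intro s a _ b _ h
    exact cos_eq.2 (hPQ s (cos_eq.1 h))
  · intro s a _ b _ h
    exact cos_eq.2 (hPQ s (cos_eq.1 h))
  · intro i hi t a _ b _ h1 h2
    apply cos_eq.2
    rw [hz]
    exact AddSubgroup.add_mem _ (cos_eq.1 h1) ((hρ' i hi t _).2 (cos_eq.1 h2))
  · intro i hi t a _ b _ h1 h2
    apply cos_eq.2
    have h3 := cos_eq.1 h1
    rw [hz] at h3
    have h4 := (hρ' i hi t _).2 (cos_eq.1 h2)
    have e : a.1 - b.1 = ((a.1 - b.1) + ρ i (a.2 - b.2)) - ρ i (a.2 - b.2) := by abel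
    rw [e]
    exact AddSubgroup.sub_mem _ h3 h4
  · intro i hi t a _ b _ h1 h2
    apply cos_eq.2
    have h3 := cos_eq.1 h1
    rw [hz] at h3
    apply (hρ' i hi t _).1
    have e : ρ i (a.2 - b.2) = ((a.1 - b.1) + ρ i (a.2 - b.2)) - (a.1 - b.1) := by abel
    rw [e]
    exact AddSubgroup.sub_mem _ h3 (cos_eq.1 h2)
  · intro i hi t a _ b _ h
    exact cos_eq.2 (hPQ _ (cos_eq.1 h))
  · intro i hi a ha b hb
    have h1 := hBi i hi
    have h2 : c + (i.toNat : ℤ) ≤ l0 := by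
      have := le_abs_self i
      have := abs_nonneg i
      omega
    have h3 : c + ((-i).toNat : ℤ) ≤ l0 := by
      have := neg_le_abs i
      have := abs_nonneg i
      omega
    exact ⟨cos_eq.2 (hL h2 (hl0 _ (hX1 a ha b hb))), cos_eq.2 (hL h3 (hl0 _ (hX2 a ha b hb)))⟩
  · intro i hi a ha b hb h1 h2
    have h3 : l1 ≤ c + ((i.toNat + T : ℕ) : ℤ) := by
      push_cast
      omega
    have h4 : l1 ≤ c + (((-i).toNat + T : ℕ) : ℤ) := by
      push_cast
      omega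
    have h5 := hl1 _ (hX1 a ha b hb) (hL h3 (cos_eq.1 h1))
    have h6 := hl1 _ (hX2 a ha b hb) (hL h4 (cos_eq.1 h2))
    exact Prod.ext (sub_eq_zero.1 h5) (sub_eq_zero.1 h6)
  · intro i hi a _ b _ h
    have h' : a.1 + ρ i a.2 = b.1 + ρ i b.2 := h
    show cos _ (a.1 + ρ i a.2) = cos _ (b.1 + ρ i b.2)
    rw [h']

end Pool.Agent.H85.AK
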