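import Pool.Agent.H85.AK.Low

/-!
The lower bound for the number of exceptional slopes.
-/

set_option autoImplicit false

namespace Pool.Agent.H85.AK

open Finset
open scoped Pointwise

theorem exp_growth {t : ℝ} (ht : 1000 ≤ t) :
    Real.exp (t / 200) * (t / 64) + 1 ≤ Real.exp (t / 64) / 4 := by
  have e1 : Real.exp (t / 64) = Real.exp (t / 200) * Real.exp (17 / 1600 * t) := by
    rw [← Real.exp_add]
    congr 1
    ring
  have h1 := Real.quadratic_le_exp_of_nonneg (show 0 ≤ 17 / 1600 * t by linarith)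
  have h2 : t / 16 + 4 ≤ Real.exp (17 / 1600 * t) := by nlinarith
  have h3 : 1 ≤ Real.exp (t / 200) := Real.one_le_exp (by linarith)
  rw [e1]
  nlinarith

theorem low {ε : ℝ} (hε : 0 < ε) (hε1 : ε ≤ 1 / 1000) {p : ℕ} (hp : 2 ≤ p) (N : ℕ) :
    ∃ A : Finset (ℤ × ℤ), N ≤ A.card ∧ 2 ≤ A.card ∧ ∀ i : ℕ,
      (i : ℝ) ≤ Real.exp (1 / (200 * ε)) * Real.log (A.card : ℝ) →
      ((A.image fun a => a.1 + (p : ℤ) ^ i * a.2).card : ℝ) ≤ (A.card : ℝ) ^ (1 - ε) := by
  set t : ℝ := 1 / ε with ht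
  have ht1 : 1000 ≤ t := by
    rw [ht, le_div_iff₀ hε]
    linarith
  have hεt : ε * t = 1 := by
    rw [ht]
    field_simp
  have hg := exp_growth ht1
  have hE1 : 1 ≤ Real.exp (t / 200) := Real.one_le_exp (by linarith)
  set h : ℕ := ⌊Real.exp (t / 64) / 4⌋₊ with hh
  have hh1 : Real.exp (t / 64) / 4 < h + 1 := Nat.lt_floor_add_one _
  have hh2 : (h : ℝ) ≤ Real.exp (t / 64) / 4 := Nat.floor_le (by positivity)
  have hhbig : Real.exp (t / 200) * (t / 64) ≤ h := by linarith
  have hh3 : (1 : ℝ) ≤ h := by nlinarith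
  have hpos : 0 < h := by
    by_contra hc
    have : h = 0 := by omega
    rw [this] at hh3
    norm_num at hh3
  have hlog4h : Real.log (4 * h) ≤ t / 64 := by
    have h1 : (4 : ℝ) * h ≤ Real.exp (t / 64) := by linarith
    have h2 := Real.log_le_log (by positivity) h1
    rwa [Real.log_exp] at h2
  have hlog0 : 0 ≤ Real.log (4 * h) := Real.log_nonneg (by linarith)
  set M : ℕ := N + 1 with hM
  have hM0 : (0 : ℝ) < M := by
    rw [hM]
    push_cast
    positivity
  set g := GG p h (2 * M) 0 with hgd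
  have hcard : (g ×ˢ g).card = (4 * h) ^ (4 * M) := by
    rw [card_product, hgd, card_GG hp, ← pow_add]
    congr 1
    ring
  have hcardR : ((g ×ˢ g).card : ℝ) = (4 * (h : ℝ)) ^ (4 * M) := by
    rw [hcard]
    push_cast
    rfl
  have hlogA : Real.log ((g ×ˢ g).card : ℝ) = 4 * M * Real.log (4 * h) := by
    rw [hcardR, Real.log_pow]
    push_cast
    ring
  have hbigA : 2 ^ (4 * M) ≤ (g ×ˢ g).card := by
    rw [hcard]
    exact Nat.pow_le_pow_left (by omega) _
  have hM2 : 4 * M < 2 ^ (4 * M) := Nat.lt_two_pow_self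
  refine ⟨g ×ˢ g, by omega, by omega, ?_⟩
  intro i hi
  rw [hlogA] at hi
  -- the range of shifts
  have hi2 : i ≤ 4 * h * M := by
    have h1 : (i : ℝ) ≤ 4 * h * M := by
      have e1 : (1 : ℝ) / (200 * ε) = t / 200 := by
        rw [ht]
        field_simp
      rw [e1] at hi
      have h2 : Real.exp (t / 200) * (4 * M * Real.log (4 * h)) ≤
          Real.exp (t / 200) * (4 * M * (t / 64)) := by gcongr
      have h3 : Real.exp (t / 200) * (4 * M * (t / 64)) =
          (Real.exp (t / 200) * (t / 64)) * (4 * M) := by ring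
      have h4 : (Real.exp (t / 200) * (t / 64)) * (4 * M) ≤ h * (4 * M) := by gcongr
      linarith
    exact_mod_cast h1
  obtain ⟨j, hj, hjc⟩ := card_GG_add p h M i hpos hi2
  have hsub : (g ×ˢ g).image (fun a => a.1 + (p : ℤ) ^ i * a.2) ⊆
      GG p h (2 * M) 0 + GG p h (2 * M) i := by
    intro z hz
    obtain ⟨a, ha, rfl⟩ := mem_image.1 hz
    obtain ⟨h1, h2⟩ := mem_product.1 ha
    exact add_mem_add h1 (mul_GG p h (2 * M) i _ h2)
  have hle := (card_le_card hsub).trans hjc
  have hleR : (((g ×ˢ g).image fun a => a.1 + (p : ℤ) ^ i * a.2).card : ℝ) ≤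
      (4 * (h : ℝ)) ^ j * (15 * (h : ℝ) ^ 2) ^ (2 * M - j) * (4 * (h : ℝ)) ^ j := by
    exact_mod_cast hle
  refine hleR.trans ?_
  have hApos : (0 : ℝ) < (g ×ˢ g).card := by
    rw [hcardR]
    positivity
  rw [← Real.log_le_log_iff (by positivity) (by positivity), Real.log_rpow hApos, hlogA,
    Real.log_mul (by positivity) (by positivity), Real.log_mul (by positivity) (by positivity),
    Real.log_pow, Real.log_pow]
  have e2 : Real.log (15 * (h : ℝ) ^ 2) = 2 * Real.log (4 * h) - Real.log (16 / 15) := by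
    have : (15 * (h : ℝ) ^ 2) = (4 * h) ^ 2 / (16 / 15) := by ring
    rw [this, Real.log_div (by positivity) (by norm_num), Real.log_pow]
    push_cast
    ring
  have e3 : (1 / 16 : ℝ) ≤ Real.log (16 / 15) := by
    have h1 := Real.one_sub_inv_le_log_of_pos (show (0 : ℝ) < 16 / 15 by norm_num)
    norm_num at h1 ⊢
    linarith
  rw [e2, Nat.cast_sub (by omega)]
  push_cast
  have hjR : (j : ℝ) ≤ M := by exact_mod_cast hj
  have h5 : (M : ℝ) * (1 / 16) ≤ (2 * M - j) * Real.log (16 / 15) := by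
    have h6 : (M : ℝ) * (1 / 16) ≤ M * Real.log (16 / 15) := by gcongr
    have h7 : (M : ℝ) * Real.log (16 / 15) ≤ (2 * M - j) * Real.log (16 / 15) := by
      apply mul_le_mul_of_nonneg_right _ (by linarith)
      linarith
    linarith
  have h8 : ε * (4 * M * Real.log (4 * h)) ≤ M * (1 / 16) := by
    have h9 : ε * (4 * M * Real.log (4 * h)) ≤ ε * (4 * M * (t / 64)) := by gcongr
    have h10 : ε * (4 * M * (t / 64)) = (ε * t) * (M * (1 / 16)) := by ring
    rw [h10, hεt, one_mul] at h9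
    exact h9
  nlinarith

end Pool.Agent.H85.AK
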