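import Pool.Agent.H85.AK.Val
import Pool.Agent.H85.AK.Low2

/-!
Rational slopes and sets of pairs of integers.
-/

set_option autoImplicit false

namespace Pool.Agent.H85.AK

open Finset

/-- casting the pairs -/
def castP (A : Finset (ℤ × ℤ)) : Finset (ℚ × ℚ) := A.image fun a => ((a.1 : ℚ), (a.2 : ℚ))

theorem card_castP (A : Finset (ℤ × ℤ)) : (castP A).card = A.card := by
  unfold castP
  apply card_image_of_injective
  rintro ⟨a, b⟩ ⟨c, d⟩ h
  simpa using h

theorem image_castP (A : Finset (ℤ × ℤ)) (r : ℚ) :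
    (castP A).image (fun a => a.1 + r * a.2) = A.image fun a => (a.1 : ℚ) + r * a.2 := by
  unfold castP
  rw [image_image]
  rfl

theorem val_count_rat {ε : ℝ} (hε : 0 < ε) (hε1 : ε ≤ 1) (p : ℕ) [Fact p.Prime]
    (A : Finset (ℤ × ℤ)) (hA : 2 ≤ A.card) (R : Finset ℚ) (hR0 : ∀ r ∈ R, r ≠ 0)
    (h : ∀ r ∈ R, ((A.image fun a => (a.1 : ℚ) + r * a.2).card : ℝ) ≤ (A.card : ℝ) ^ (1 - ε)) :
    ((R.image (padicValRat p)).card : ℝ) ≤ Real.exp (6 / ε) * Real.log (A.card : ℝ) := by
  have key := val_count hε hε1 (Rat.padicValuation p) (castP A) (by rw [card_castP]; exact hA) R hR0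
    (by
      intro r hr
      rw [image_castP, card_castP]
      exact h r hr)
  rw [card_castP] at key
  refine le_trans (Nat.cast_le.2 ?_) key
  classical
  have h1 : R.image (padicValRat p) ⊆
      (R.image (Rat.padicValuation p)).image fun w => -WithZero.log w := by
    intro w hw
    obtain ⟨r, hr, rfl⟩ := mem_image.1 hw
    refine mem_image.2 ⟨_, mem_image_of_mem _ hr, ?_⟩
    have : Rat.padicValuation p r = WithZero.exp (-padicValRat p r) := by
      simp [Rat.padicValuation, hR0 r hr]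
    rw [this, WithZero.log_exp, neg_neg]
  refine (card_le_card h1).trans (card_image_le.trans (le_of_eq ?_))
  congr 1

/-- **one good slope among few powers of a prime** -/
theorem good_power {ε : ℝ} (hε : 0 < ε) (hε1 : ε ≤ 1) (p : ℕ) [hp : Fact p.Prime]
    (A : Finset (ℤ × ℤ)) (hA : 2 ≤ A.card) :
    ∃ i : ℕ, 1 ≤ i ∧ (i : ℝ) ≤ Real.exp (13 / ε) * Real.log (A.card : ℝ) ∧
      (A.card : ℝ) ≤ ((A.image fun a => (a.1 : ℚ) + (p : ℚ) ^ i * a.2).card : ℝ) ^ (1 + ε) := by
  by_contra hcon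
  push Not at hcon
  have hn : (2 : ℝ) ≤ A.card := by exact_mod_cast hA
  set s : ℝ := Real.log (A.card : ℝ) with hs
  have hs2 : Real.log 2 ≤ s := Real.log_le_log (by norm_num) hn
  have hl := Real.log_two_gt_d9
  set k : ℕ := ⌊Real.exp (13 / ε) * s⌋₊ with hk
  have hk1 : Real.exp (13 / ε) * s < k + 1 := Nat.lt_floor_add_one _
  have hk2 : (k : ℝ) ≤ Real.exp (13 / ε) * s := Nat.floor_le (by positivity)
  set ε' : ℝ := ε / (1 + ε) with hε'
  have hε'0 : 0 < ε' := by positivity
  have hε'1 : ε' ≤ 1 := by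
    rw [hε', div_le_one (by positivity)]
    linarith
  have hp1 : (1 : ℚ) < p := by exact_mod_cast hp.out.one_lt
  set R : Finset ℚ := (Icc 1 k).image fun i => (p : ℚ) ^ i with hR
  have hR0 : ∀ r ∈ R, r ≠ 0 := by
    intro r hr
    obtain ⟨i, _, rfl⟩ := mem_image.1 hr
    positivity
  have key := val_count_rat hε'0 hε'1 p A hA R hR0 (by
    intro r hr
    obtain ⟨i, hi, rfl⟩ := mem_image.1 hr
    obtain ⟨hi1, hi2⟩ := mem_Icc.1 hi
    have h1 := hcon i hi1 ((show (i : ℝ) ≤ k by exact_mod_cast hi2).trans hk2)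
    set m : ℝ := ((A.image fun a => (a.1 : ℚ) + (p : ℚ) ^ i * a.2).card : ℝ) with hm
    have hm0 : 0 ≤ m := Nat.cast_nonneg _
    have h2 : m = (m ^ (1 + ε)) ^ (1 - ε') := by
      rw [← Real.rpow_mul hm0]
      have : (1 + ε) * (1 - ε') = 1 := by
        rw [hε']
        field_simp
        ring
      rw [this, Real.rpow_one]
    rw [h2]
    exact Real.rpow_le_rpow (Real.rpow_nonneg hm0 _) h1.le (by linarith))
  have hc : (R.image (padicValRat p)).card = k := by
    rw [hR, image_image, card_image_of_injOn, Nat.card_Icc]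
    · omega
    · intro i _ j _ hij
      have hij' : padicValRat p ((p : ℚ) ^ i) = padicValRat p ((p : ℚ) ^ j) := hij
      rw [padicValRat.pow, padicValRat.pow, padicValRat.self hp.out.one_lt] at hij'
      have h1 : (i : ℤ) = (j : ℤ) := by linarith
      exact_mod_cast h1
  rw [hc] at key
  -- numerical contradiction
  set t : ℝ := 1 / ε with ht
  have ht1 : 1 ≤ t := by
    rw [ht, le_div_iff₀ hε]
    linarith
  have e1 : 13 / ε = 13 * t := by
    rw [ht]
    ring
  have e2 : 6 / ε' = 6 + 6 * t := by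
    rw [hε', ht]
    field_simp
    ring
  rw [e1] at hk1
  rw [e2, ← hs] at key
  have h3 : Real.exp (6 + 6 * t) * Real.exp 1 ≤ Real.exp (13 * t) := by
    rw [← Real.exp_add]
    apply Real.exp_le_exp.2
    linarith
  have h4 := Real.exp_one_gt_d9
  have h5 : 1 + (6 + 6 * t) ≤ Real.exp (6 + 6 * t) := by
    have := Real.add_one_le_exp (6 + 6 * t)
    linarith
  have h6 : Real.exp (6 + 6 * t) * Real.exp 1 * s ≤ Real.exp (13 * t) * s :=
    mul_le_mul_of_nonneg_right h3 (by linarith)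
  have h7 : 13 * (1 / 2) ≤ Real.exp (6 + 6 * t) * s := by
    apply mul_le_mul <;> linarith
  nlinarith

/-- a rational number all of whose valuations vanish -/
theorem rat_unit {q : ℚ} (hq : q ≠ 0) (h : ∀ p : ℕ, p.Prime → padicValRat p q = 0) :
    q = 1 ∨ q = -1 := by
  have hnum : q.num ≠ 0 := Rat.num_ne_zero.2 hq
  have hcop := q.reduced
  have key : ∀ p : ℕ, p.Prime → ¬ p ∣ q.num.natAbs ∧ ¬ p ∣ q.den := by
    intro p hp
    have : Fact p.Prime := ⟨hp⟩
    have h1 := h p hp
    rw [padicValRat] at h1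
    have h2 : (padicValInt p q.num : ℤ) = padicValNat p q.den := by linarith
    by_cases hd : p ∣ q.den
    · have hn : ¬ p ∣ q.num.natAbs := by
        intro hn
        have := Nat.dvd_gcd hn hd
        rw [hcop] at this
        exact hp.one_lt.ne' (Nat.dvd_one.1 this)
      have h3 : padicValInt p q.num = 0 := by
        unfold padicValInt
        exact padicValNat.eq_zero_of_not_dvd hn
      have h4 : 1 ≤ padicValNat p q.den := one_le_padicValNat_of_dvd q.den_ne_zero hd
      rw [h3] at h2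
      omega
    · refine ⟨?_, hd⟩
      intro hn
      have h3 : padicValNat p q.den = 0 := padicValNat.eq_zero_of_not_dvd hd
      have h4 : 1 ≤ padicValNat p q.num.natAbs :=
        one_le_padicValNat_of_dvd (Int.natAbs_ne_zero.2 hnum) hn
      unfold padicValInt at h2
      rw [h3] at h2
      omega
  have hd1 : q.den = 1 := by
    by_contra hne
    obtain ⟨p, hp, hpd⟩ := Nat.exists_prime_and_dvd hne
    exact (key p hp).2 hpd
  have hn1 : q.num.natAbs = 1 := by
    by_contra hne
    obtain ⟨p, hp, hpd⟩ := Nat.exists_prime_and_dvd hne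
    exact (key p hp).1 hpd
  rcases Int.natAbs_eq_iff.1 hn1 with h1 | h1
  · left
    rw [← Rat.num_div_den q, h1, hd1]
    norm_num
  · right
    rw [← Rat.num_div_den q, h1, hd1]
    norm_num

/-- **exceptional slopes with prescribed prime divisors** -/
theorem sunit_count {ε : ℝ} (hε : 0 < ε) (hε1 : ε ≤ 1) (T : Finset ℕ) (hT : ∀ p ∈ T, p.Prime)
    (A : Finset (ℤ × ℤ)) (hA : 2 ≤ A.card) (R : Finset ℚ) (hR0 : ∀ r ∈ R, r ≠ 0)
    (hRT : ∀ r ∈ R, ∀ p : ℕ, p.Prime → p ∉ T → padicValRat p r = 0)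
    (h : ∀ r ∈ R, ((A.image fun a => (a.1 : ℚ) + r * a.2).card : ℝ) ≤ (A.card : ℝ) ^ (1 - ε)) :
    (R.card : ℝ) ≤ 2 * (Real.exp (6 / ε) * Real.log (A.card : ℝ)) ^ T.card := by
  classical
  set Φ : ℚ → Bool × ((p : ℕ) → p ∈ T → ℤ) := fun r => (decide (0 < r), fun p _ => padicValRat p r)
    with hΦ
  have hinj : Set.InjOn Φ (R : Set ℚ) := by
    intro r hr r' hr' heq
    have hr0 := hR0 r hr
    have hr0' := hR0 r' hr'
    simp only [hΦ, Prod.mk.injEq, decide_eq_decide] at heq
    obtain ⟨h1, h2⟩ := heq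
    have h3 : r / r' = 1 ∨ r / r' = -1 := by
      apply rat_unit (div_ne_zero hr0 hr0')
      intro p hp
      have : Fact p.Prime := ⟨hp⟩
      rw [padicValRat.div hr0 hr0']
      by_cases hpT : p ∈ T
      · have := congrFun (congrFun h2 p) hpT
        rw [this, sub_self]
      · rw [hRT r hr p hp hpT, hRT r' hr' p hp hpT, sub_self]
    rcases h3 with h3 | h3
    · exact (div_eq_one_iff_eq hr0').1 h3
    · exfalso
      have h4 : r = -r' := by
        field_simp at h3
        exact h3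
      rcases lt_or_gt_of_ne hr0' with h5 | h5
      · have h6 : 0 < r := by linarith
        exact absurd (h1.1 h6) (not_lt.2 h5.le)
      · have h6 : 0 < r := h1.2 h5
        linarith
  have hmaps : R.image Φ ⊆ (univ : Finset Bool) ×ˢ T.pi fun p => R.image (padicValRat p) := by
    intro w hw
    obtain ⟨r, hr, rfl⟩ := mem_image.1 hw
    refine mem_product.2 ⟨mem_univ _, mem_pi.2 fun p hp => mem_image_of_mem _ hr⟩
  have h1 : R.card ≤ 2 * ∏ p ∈ T, (R.image (padicValRat p)).card := by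
    have h2 := card_le_card hmaps
    rw [card_image_of_injOn hinj, card_product, card_pi] at h2
    simpa using h2
  have h2 : (R.card : ℝ) ≤ 2 * ∏ p ∈ T, ((R.image (padicValRat p)).card : ℝ) := by
    exact_mod_cast h1
  refine h2.trans ?_
  rw [← prod_const]
  have h3 : ∏ p ∈ T, ((R.image (padicValRat p)).card : ℝ) ≤
      ∏ _p ∈ T, Real.exp (6 / ε) * Real.log (A.card : ℝ) := by
    apply prod_le_prod
    · intro p _
      positivity
    · intro p hp
      have : Fact p.Prime := ⟨hT p hp⟩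
      exact val_count_rat hε hε1 p A hA R hR0 h
  linarith

/-- sets with many exceptional slopes, rational form -/
theorem low_rat {ε : ℝ} (hε : 0 < ε) (hε1 : ε ≤ 1 / 1000) {p : ℕ} (hp : 2 ≤ p) (N : ℕ) :
    ∃ A : Finset (ℤ × ℤ), N ≤ A.card ∧ 2 ≤ A.card ∧ ∀ i : ℕ,
      (i : ℝ) ≤ Real.exp (1 / (200 * ε)) * Real.log (A.card : ℝ) →
      ((A.image fun a => (a.1 : ℚ) + (p : ℚ) ^ i * a.2).card : ℝ) ≤ (A.card : ℝ) ^ (1 - ε) := by
  obtain ⟨A, h1, h2, h3⟩ := low hε hε1 hp N
  refine ⟨A, h1, h2, fun i hi => ?_⟩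
  have h4 : A.image (fun a => (a.1 : ℚ) + (p : ℚ) ^ i * a.2) =
      (A.image fun a => a.1 + (p : ℤ) ^ i * a.2).image fun z : ℤ => (z : ℚ) := by
    rw [image_image]
    apply image_congr
    intro a _
    simp
  rw [h4]
  exact (Nat.cast_le.2 card_image_le).trans (h3 i hi)

end Pool.Agent.H85.AK
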