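import Pool.Agent.H85.AK.Grp
import Pool.Agent.H30.AKSplit

/-!
Finitely generated groups: the final form, and one almost symmetry of infinite order.
-/

set_option autoImplicit false

namespace Pool.Agent.H85.AK

open Finset
open scoped Pointwise

/-- **popular elements of a finitely generated group** -/
theorem subgroup_pop (F : Type) [Field F] (Γ : Subgroup Fˣ) (hΓ : Γ.FG) (ε : ℝ) (hε : 0 < ε)
    (hε1 : ε ≤ 1) : ∃ C0 : ℝ, 0 < C0 ∧ ∀ (V : Type) [AddCommGroup V] [Module F V] [DecidableEq V]
    (A C B : Finset V) (K : ℝ) (R : Finset Fˣ), (∀ r ∈ R, r ∈ Γ) → 1 ≤ K →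
    K ≤ (C.card : ℝ) ^ (ε / 2) → 2 ≤ C.card → B.Nonempty →
    (∀ r ∈ R, (C.card : ℝ) ≤ K * ((C.filter fun c => (r : F) • c ∈ A).card : ℝ)) →
    C0 * (K * Real.log (C.card : ℝ)) ^ (Module.finrank ℤ (Additive Γ)) < (R.card : ℝ) →
    ((C.card : ℝ) * B.card) ^ (1 - ε) < ((A + B).card : ℝ) := by
  classical
  haveI : Group.FG Γ := (Group.fg_iff_subgroup_fg Γ).2 hΓ
  obtain ⟨M, i1, i2, i3, g, T, hrk, h0, hm, hinj, hT⟩ := Pool.Agent.H30.AKSplit.s_split Γ
  set ρ : ℕ := Module.finrank ℤ (Additive Γ) with hρ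
  set g' : M → F := fun m => (((g m : Γ) : Fˣ) : F) with hg'
  have h0' : g' 0 = 1 := by
    show (((g 0 : Γ) : Fˣ) : F) = 1
    rw [h0]
    rfl
  have hm' : ∀ m n, g' (m + n) = g' m * g' n := by
    intro m n
    show (((g (m + n) : Γ) : Fˣ) : F) = _
    rw [hm]
    rfl
  have hinj' : Function.Injective g' := by
    intro m n h
    apply hinj
    apply Subtype.ext
    exact Units.ext h
  obtain ⟨C1, hC1, hP⟩ := group_pop F ρ M hrk g' h0' hm' hinj' ε hε hε1
  have hTne : T.Nonempty := by
    obtain ⟨t, ht, _⟩ := hT 1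
    exact ⟨t, ht⟩
  have hT0 : (0 : ℝ) < T.card := by exact_mod_cast card_pos.2 hTne
  refine ⟨T.card * C1 ^ ρ, by positivity, ?_⟩
  intro V _ _ _ A C B K R hRΓ hK hKC hC2 hB hR hcard
  -- the decomposition of the elements
  have hdec : ∀ r : Fˣ, ∃ (t : Γ) (m : M), r ∈ R → t ∈ T ∧ r = (t : Fˣ) * (g m : Γ) := by
    intro r
    by_cases hr : r ∈ R
    · obtain ⟨t, ht, m, h⟩ := hT ⟨r, hRΓ r hr⟩
      refine ⟨t, m, fun _ => ⟨ht, ?_⟩⟩
      have h1 := congrArg (fun u : Γ => (u : Fˣ)) h
      exact h1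
    · exact ⟨1, 0, fun h => absurd h hr⟩
  choose t m htm using hdec
  obtain ⟨t0, ht0, hlarge⟩ : ∃ t0 ∈ T, (C1 * K * Real.log (C.card : ℝ)) ^ ρ <
      ((R.filter fun r => t r = t0).card : ℝ) := by
    by_contra hcon
    push Not at hcon
    have h1 : R.card = ∑ t0 ∈ T, (R.filter fun r => t r = t0).card :=
      card_eq_sum_card_fiberwise fun r hr => (htm r hr).1
    have h2 : (R.card : ℝ) ≤ T.card * (C1 * K * Real.log (C.card : ℝ)) ^ ρ := by
      rw [h1]
      push_cast
      rw [← nsmul_eq_mul, ← sum_const]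
      exact sum_le_sum hcon
    have h3 : (T.card : ℝ) * (C1 * K * Real.log (C.card : ℝ)) ^ ρ =
        T.card * C1 ^ ρ * (K * Real.log (C.card : ℝ)) ^ ρ := by
      rw [mul_assoc C1, mul_pow]
      ring
    rw [h3] at h2
    exact absurd h2 (not_le.2 hcard)
  set Rt : Finset Fˣ := R.filter fun r => t r = t0 with hRt
  have hrt : ∀ r ∈ Rt, (r : F) = g' (m r) * ((t0 : Fˣ) : F) := by
    intro r hr
    obtain ⟨h1, h2⟩ := mem_filter.1 hr
    have h3 := (htm r h1).2
    rw [h2] at h3
    have h4 := congrArg (fun u : Fˣ => (u : F)) h3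
    simp only [Units.val_mul] at h4
    rw [h4, mul_comm]
  have hminj : Set.InjOn m (Rt : Set Fˣ) := by
    intro a ha b hb h
    apply Units.ext
    rw [hrt a ha, hrt b hb, h]
  have ht0ne : ((t0 : Fˣ) : F) ≠ 0 := Units.ne_zero _
  have hsm : Function.Injective fun c : V => ((t0 : Fˣ) : F) • c := MulAction.injective₀ ht0ne
  have hCc : (C.image fun c => ((t0 : Fˣ) : F) • c).card = C.card := card_image_of_injective _ hsm
  have key := hP V A (C.image fun c => ((t0 : Fˣ) : F) • c) B K (Rt.image m) hK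
    (by rw [hCc]; exact hKC) (by rw [hCc]; exact hC2) hB (by
      intro u hu
      obtain ⟨r, hr, rfl⟩ := mem_image.1 hu
      rw [hCc]
      refine (hR r (mem_filter.1 hr).1).trans (mul_le_mul_of_nonneg_left (Nat.cast_le.2 ?_)
        (by linarith))
      apply card_le_card_of_injOn (fun s => ((t0 : Fˣ) : F) • s)
      · intro s hs
        obtain ⟨h1, h2⟩ := mem_filter.1 hs
        refine mem_filter.2 ⟨mem_image_of_mem _ h1, ?_⟩
        rw [smul_smul, ← hrt r hr]
        exact h2
      · intro s _ s' _ h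
        exact hsm h) (by
      rw [hCc, card_image_of_injOn hminj]
      exact hlarge)
  rw [hCc] at key
  exact key

/-- an invariant set of an element of infinite order -/
theorem no_invariant {F V : Type*} [Field F] [AddCommGroup V] [Module F V] [DecidableEq V] {r : F}
    (hr0 : r ≠ 0) (hr : ∀ n : ℕ, 0 < n → r ^ n ≠ 1) {A : Finset V} (hA : 2 ≤ A.card) :
    1 ≤ (A.filter fun a => r • a ∉ A).card := by
  by_contra hcon
  have h0 : (A.filter fun a => r • a ∉ A) = ∅ := by
    apply card_eq_zero.1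
    omega
  have hin : ∀ a ∈ A, r • a ∈ A := by
    intro a ha
    by_contra h
    have h1 : a ∈ (A.filter fun a => r • a ∉ A) := mem_filter.2 ⟨ha, h⟩
    rw [h0] at h1
    exact absurd h1 (notMem_empty a)
  have hpow : ∀ n : ℕ, ∀ a ∈ A, r ^ n • a ∈ A := by
    intro n
    induction n with
    | zero => intro a ha; rw [pow_zero, one_smul]; exact ha
    | succ n ih => intro a ha; rw [pow_succ, mul_smul]; exact ih _ (hin a ha)
  obtain ⟨a, ha, hane⟩ : ∃ a ∈ A, a ≠ 0 := by
    by_contra h
    push Not at h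
    have : A.card ≤ 1 := card_le_one.2 fun x hx y hy => (h x hx).trans (h y hy).symm
    omega
  have hninj : ¬ Function.Injective fun n : ℕ => r ^ n • a := by
    intro hinj
    have h1 : Set.Finite (Set.range fun n : ℕ => r ^ n • a) :=
      (A.finite_toSet).subset (by
        rintro _ ⟨n, rfl⟩
        exact hpow n a ha)
    exact (Set.infinite_range_of_injective hinj) h1
  rw [Function.not_injective_iff] at hninj
  obtain ⟨i, j, hij, hne⟩ := hninj
  have key : ∀ i j : ℕ, i < j → r ^ i • a = r ^ j • a → False := by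
    intro i j hlt h
    have h1 : r ^ i = r ^ j := by
      by_contra hne'
      have h2 : (r ^ i - r ^ j) • a = 0 := by
        rw [sub_smul, h, sub_self]
      rcases smul_eq_zero.1 h2 with h3 | h3
      · exact hne' (sub_eq_zero.1 h3)
      · exact hane h3
    have h2 : r ^ i * 1 = r ^ i * r ^ (j - i) := by
      rw [mul_one, ← pow_add, Nat.add_sub_cancel' hlt.le]
      exact h1
    exact hr (j - i) (by omega) (mul_left_cancel₀ (pow_ne_zero i hr0) h2).symm
  rcases lt_or_gt_of_ne hne with h | h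
  · exact key i j h hij
  · exact key j i h hij.symm

/-- **one almost symmetry of infinite order** -/
theorem one_infinite (F : Type) [Field F] (r : F) (hr0 : r ≠ 0)
    (hr : ∀ n : ℕ, 0 < n → r ^ n ≠ 1) (ε : ℝ) (hε : 0 < ε) (hε1 : ε ≤ 1) :
    ∃ c : ℝ, 0 < c ∧ ∀ (V : Type) [AddCommGroup V] [Module F V] [DecidableEq V] (A B : Finset V),
    2 ≤ A.card → ((A ∪ A.image fun a => r • a).card : ℝ) ≤
      (1 + c / Real.log (A.card : ℝ)) * A.card → B.Nonempty →
    ((A.card : ℝ) * B.card) ^ (1 - ε) < ((A + B).card : ℝ) := by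
  classical
  set g : ℤ → F := fun n => r ^ n with hg
  have h0 : g 0 = 1 := zpow_zero r
  have hm : ∀ m n, g (m + n) = g m * g n := fun m n => zpow_add₀ hr0 m n
  have hinj : Function.Injective g := by
    have key : ∀ m n : ℤ, m < n → r ^ m = r ^ n → False := by
      intro m n hlt h
      have h1 : r ^ (n - m) = 1 := by
        rw [zpow_sub₀ hr0, h]
        exact div_self (zpow_ne_zero n hr0)
      apply hr (n - m).toNat (by omega)
      rw [← zpow_natCast, Int.toNat_of_nonneg (by omega)]
      exact h1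
    intro m n h
    by_contra hne
    rcases lt_or_gt_of_ne hne with h' | h'
    · exact key m n h' h
    · exact key n m h' h.symm
  obtain ⟨C1, hC1, hP⟩ := group_pop F 1 ℤ (Module.finrank_self ℤ) g h0 hm hinj ε hε hε1
  set A0 : ℝ := 2 ^ (2 / ε) with hA0
  have hA0pos : 0 < A0 := by positivity
  have hl2 := Real.log_two_gt_d9
  set c : ℝ := min (1 / (2 * (2 * C1 + 3))) (1 / (4 * A0)) with hc
  have hc0 : 0 < c := by
    rw [hc]
    apply lt_min
    · positivity
    · positivity
  refine ⟨c, hc0, ?_⟩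
  intro V _ _ _ A B hA2 hunion hB
  have hA2' : (2 : ℝ) ≤ A.card := by exact_mod_cast hA2
  have hlog : Real.log 2 ≤ Real.log (A.card : ℝ) := Real.log_le_log (by norm_num) hA2'
  have hlogpos : 0 < Real.log (A.card : ℝ) := by linarith
  set d : ℝ := ((A.filter fun a => r • a ∉ A).card : ℝ) with hd
  have hd1 : 1 ≤ d := by
    have := no_invariant hr0 hr hA2
    rw [hd]
    exact_mod_cast this
  have hd2 : d ≤ c / Real.log (A.card : ℝ) * A.card := by
    rw [card_leave A hr0] at hunion
    push_cast at hunion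
    linarith
  have hbig : A0 ≤ A.card := by
    by_contra hsmall
    push Not at hsmall
    have h1 : c / Real.log (A.card : ℝ) * A.card < 1 := by
      rw [div_mul_eq_mul_div, div_lt_one hlogpos]
      calc c * A.card ≤ 1 / (4 * A0) * A.card :=
            mul_le_mul_of_nonneg_right (min_le_right _ _) (Nat.cast_nonneg _)
        _ ≤ 1 / (4 * A0) * A0 := mul_le_mul_of_nonneg_left hsmall.le (by positivity)
        _ = 1 / 4 := by field_simp
        _ < Real.log (A.card : ℝ) := by linarith
    linarith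
  -- the popular powers
  set J : ℕ := ⌊Real.log (A.card : ℝ) / (2 * c)⌋₊ with hJ
  have hJle : (J : ℝ) ≤ Real.log (A.card : ℝ) / (2 * c) := Nat.floor_le (by positivity)
  have hJlt : Real.log (A.card : ℝ) / (2 * c) < J + 1 := Nat.lt_floor_add_one _
  have hpop : ∀ j : ℕ, j ≤ J → (A.card : ℝ) ≤ 2 * ((A.filter fun a => r ^ j • a ∈ A).card : ℝ) := by
    intro j hj
    have h1 := card_leave_pow A hr0 j
    have h2 := card_filter_add_card_filter_not (s := A) (fun a => r ^ j • a ∈ A)
    have h3 : ((A.filter fun a => r ^ j • a ∉ A).card : ℝ) ≤ j * d := by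
      rw [hd]
      exact_mod_cast h1
    have h4 : ((A.filter fun a => r ^ j • a ∈ A).card : ℝ) +
        ((A.filter fun a => ¬ r ^ j • a ∈ A).card : ℝ) = A.card := by exact_mod_cast h2
    have h5 : (j : ℝ) * d ≤ A.card / 2 := by
      have hjJ : (j : ℝ) ≤ J := by exact_mod_cast hj
      calc (j : ℝ) * d ≤ Real.log (A.card : ℝ) / (2 * c) * (c / Real.log (A.card : ℝ) * A.card) :=
            mul_le_mul (hjJ.trans hJle) hd2 (by linarith) (by positivity)
        _ = A.card / 2 := by field_simp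
    have h6 : ((A.filter fun a => ¬ r ^ j • a ∈ A).card : ℝ) =
        ((A.filter fun a => r ^ j • a ∉ A).card : ℝ) := rfl
    linarith
  refine hP V A A B 2 ((range (J + 1)).image fun j : ℕ => (j : ℤ)) (by norm_num) ?_ hA2 hB ?_ ?_
  · have h1 : A0 ^ (ε / 2) ≤ (A.card : ℝ) ^ (ε / 2) :=
      Real.rpow_le_rpow hA0pos.le hbig (by positivity)
    rw [hA0, ← Real.rpow_mul (by norm_num)] at h1
    have e : 2 / ε * (ε / 2) = 1 := by
      field_simp
    rw [e, Real.rpow_one] at h1
    exact h1
  · intro m hm'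
    obtain ⟨j, hj, rfl⟩ := mem_image.1 hm'
    have h1 := hpop j (by have := mem_range.1 hj; omega)
    have e : g (j : ℤ) = r ^ j := zpow_natCast r j
    rw [e]
    exact h1
  · rw [card_image_of_injective _ (fun a b h => by exact_mod_cast h), card_range, pow_one]
    push_cast
    refine lt_of_le_of_lt ?_ hJlt
    rw [le_div_iff₀ (by positivity)]
    have h1 : c ≤ 1 / (2 * (2 * C1 + 3)) := min_le_left _ _
    have h2 : 2 * c * (C1 * 2) ≤ 1 := by
      calc 2 * c * (C1 * 2) ≤ 2 * (1 / (2 * (2 * C1 + 3))) * (C1 * 2) := by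
            apply mul_le_mul_of_nonneg_right _ (by linarith)
            linarith
        _ = (2 * C1) / (2 * C1 + 3) := by field_simp
        _ ≤ 1 := by
            rw [div_le_one (by linarith)]
            linarith
    calc C1 * 2 * Real.log (A.card : ℝ) * (2 * c) = (2 * c * (C1 * 2)) * Real.log (A.card : ℝ) := by
          ring
      _ ≤ 1 * Real.log (A.card : ℝ) := mul_le_mul_of_nonneg_right h2 hlogpos.le
      _ = Real.log (A.card : ℝ) := one_mul _

end Pool.Agent.H85.AK
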