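import Pool.Agent.H85.AK.Grp2

/-!
Popular elements of finitely generated groups, linear dependence on the popularity.
-/

set_option autoImplicit false

namespace Pool.Agent.H85.AK

open Finset
open scoped Pointwise

/-- a power against a logarithm -/
theorem power_log {θ E : ℝ} (hθ : 0 < θ) (hE : 1 ≤ E) (n : ℕ) :
    ∃ X : ℝ, 1 ≤ X ∧ ∀ x : ℝ, 1 ≤ x → x ^ θ ≤ E * Real.log x ^ n → x ≤ X := by
  set s : ℝ := θ / (2 * (n + 1)) with hs
  have hs0 : 0 < s := by positivity
  set Y : ℝ := E / s ^ n with hY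
  have hY0 : 0 < Y := by positivity
  refine ⟨max 1 (Y ^ (2 / θ)), le_max_left _ _, ?_⟩
  intro x hx h
  apply le_max_of_le_right
  have hx0 : 0 < x := by linarith
  have h1 : Real.log x ≤ x ^ s / s := Real.log_le_rpow_div hx0.le hs0
  have h2 : Real.log x ^ n ≤ (x ^ s / s) ^ n := pow_le_pow_left₀ (Real.log_nonneg hx) h1 n
  have h3 : (x ^ s / s) ^ n ≤ x ^ (θ / 2) / s ^ n := by
    rw [div_pow]
    apply div_le_div_of_nonneg_right _ (by positivity)
    rw [← Real.rpow_natCast, ← Real.rpow_mul hx0.le]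
    apply Real.rpow_le_rpow_of_exponent_le hx
    rw [hs]
    rw [div_mul_eq_mul_div, div_le_iff₀ (by positivity)]
    nlinarith
  have h4 : x ^ θ ≤ Y * x ^ (θ / 2) := by
    calc x ^ θ ≤ E * Real.log x ^ n := h
      _ ≤ E * (x ^ (θ / 2) / s ^ n) := mul_le_mul_of_nonneg_left (h2.trans h3) (by linarith)
      _ = Y * x ^ (θ / 2) := by
          rw [hY]
          ring
  have h5 : x ^ θ = x ^ (θ / 2) * x ^ (θ / 2) := by
    rw [← Real.rpow_add hx0]
    congr 1
    ring
  rw [h5] at h4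
  have h6 : x ^ (θ / 2) ≤ Y := le_of_mul_le_mul_right h4 (Real.rpow_pos_of_pos hx0 _)
  have h7 : (x ^ (θ / 2)) ^ (2 / θ) ≤ Y ^ (2 / θ) :=
    Real.rpow_le_rpow (Real.rpow_nonneg hx0.le _) h6 (by positivity)
  rw [← Real.rpow_mul hx0.le] at h7
  have e : θ / 2 * (2 / θ) = 1 := by field_simp
  rw [e, Real.rpow_one] at h7
  exact h7

/-- the trivial bound for the number of popular scalars -/
theorem trivial_R {F V : Type*} [Field F] [AddCommGroup V] [Module F V] [DecidableEq V]
    {A C : Finset V} {R : Finset Fˣ} (h : ∀ r ∈ R, 2 ≤ (C.filter fun c => (r : F) • c ∈ A).card) :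
    R.card ≤ C.card * A.card := by
  classical
  rw [← card_product]
  have hex : ∀ r : Fˣ, ∃ c : V, r ∈ R → c ∈ C ∧ (r : F) • c ∈ A ∧ c ≠ 0 := by
    intro r
    by_cases hr : r ∈ R
    · have h1 := h r hr
      obtain ⟨c, hc, hne⟩ : ∃ c ∈ (C.filter fun c => (r : F) • c ∈ A), c ≠ 0 := by
        by_contra hcon
        push Not at hcon
        have : (C.filter fun c => (r : F) • c ∈ A).card ≤ 1 :=
          card_le_one.2 fun a ha b hb => (hcon a ha).trans (hcon b hb).symm
        omega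
      exact ⟨c, fun _ => ⟨(mem_filter.1 hc).1, (mem_filter.1 hc).2, hne⟩⟩
    · exact ⟨0, fun h' => absurd h' hr⟩
  choose f hf using hex
  apply card_le_card_of_injOn (fun r => (f r, (r : F) • f r))
  · intro r hr
    obtain ⟨h1, h2, _⟩ := hf r hr
    exact mem_product.2 ⟨h1, h2⟩
  · intro r hr r' hr' heq
    obtain ⟨h1, h2⟩ := Prod.ext_iff.1 heq
    simp only at h1 h2
    rw [h1] at h2
    have h3 : ((r : F) - r') • f r' = 0 := by rw [sub_smul, h2, sub_self]
    rcases smul_eq_zero.1 h3 with h4 | h4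
    · exact Units.ext (sub_eq_zero.1 h4)
    · exact absurd h4 (hf r' hr').2.2

/-- **popular elements of a finitely generated group** -/
theorem subgroup_lin (F : Type) [Field F] (Γ : Subgroup Fˣ) (hΓ : Γ.FG) (ε : ℝ) (hε : 0 < ε)
    (hε1 : ε ≤ 1) : ∃ C0 : ℝ, 1 < C0 ∧ ∀ (V : Type) [AddCommGroup V] [Module F V] [DecidableEq V]
    (A C B : Finset V) (K : ℝ) (R : Finset Fˣ), (∀ r ∈ R, r ∈ Γ) → 1 ≤ K →
    K ≤ (C.card : ℝ) ^ (1 / C0) → 2 ≤ C.card → B.Nonempty →
    (∀ r ∈ R, (C.card : ℝ) ≤ K * ((C.filter fun c => (r : F) • c ∈ A).card : ℝ)) →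
    C0 * K * Real.log (C.card : ℝ) ^ (Module.finrank ℤ (Additive Γ)) < (R.card : ℝ) →
    ((C.card : ℝ) * B.card) ^ (1 - ε) < ((A + B).card : ℝ) := by
  classical
  haveI : Group.FG Γ := (Group.fg_iff_subgroup_fg Γ).2 hΓ
  obtain ⟨M, i1, i2, i3, g, T, hrk, h0, hm, hinj, hT⟩ := Pool.Agent.H30.AKSplit.s_split Γ
  set ρ : ℕ := Module.finrank ℤ (Additive Γ) with hρ
  set g' : M → F := fun m => (((g m : Γ) : Fˣ) : F) with hg'
  have h0' : g' 0 = 1 := by
    show (((g 0 : Γ) : Fˣ) : F) = 1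
    rw [h0]
    rfl
  have hm' : ∀ m n, g' (m + n) = g' m * g' n := by
    intro m n
    show (((g (m + n) : Γ) : Fˣ) : F) = _
    rw [hm]
    rfl
  have hinj' : Function.Injective g' := by
    intro m n h
    apply hinj
    apply Subtype.ext
    exact Units.ext h
  obtain ⟨θ, E, hθ, hθ1, hE, hP⟩ := group_popW F ρ M hrk g' h0' hm' hinj' ε hε hε1
  have hTne : T.Nonempty := by
    obtain ⟨t, ht, _⟩ := hT 1
    exact ⟨t, ht⟩
  have hT1 : (1 : ℝ) ≤ T.card := by exact_mod_cast card_pos.2 hTne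
  obtain ⟨X, hX1, hX⟩ := power_log (θ := θ / 2) (E := 2 * E) (by positivity) (by linarith) ρ
  set P1 : ℝ := 2 ^ ρ * X ^ (2 + 1 / ε) with hP1
  have hP10 : 0 < P1 := by positivity
  set C0 : ℝ := 2 + 2 / θ + T.card * E + P1 with hC0
  have hθinv : 0 < 2 / θ := by positivity
  have hTE : 0 < T.card * E := by positivity
  refine ⟨C0, by linarith, ?_⟩
  intro V _ _ _ A C B K R hRΓ hK hKC hC hB hR hcard
  by_contra hcon
  push Not at hcon
  have hC2 : (2 : ℝ) ≤ C.card := by exact_mod_cast hC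
  have hCpos : (0 : ℝ) < C.card := by linarith
  have hK0 : 0 < K := by linarith
  have hB1 : (1 : ℝ) ≤ B.card := by exact_mod_cast card_pos.2 hB
  have hlog := half_le_log hC
  have hl1 : (1 : ℝ) ≤ 2 ^ ρ * Real.log (C.card : ℝ) ^ ρ := by
    have := pow_log_le hlog (Nat.zero_le ρ)
    rw [pow_zero] at this
    exact this
  set Lg : ℝ := Real.log (C.card : ℝ) ^ ρ with hLg
  have hLg0 : 0 < Lg := by positivity
  -- `K` is a small power
  have hKθ : K ≤ (C.card : ℝ) ^ (θ / 2) := by
    refine hKC.trans (Real.rpow_le_rpow_of_exponent_le (by linarith) ?_)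
    rw [div_le_iff₀ (by linarith)]
    have h1 : θ / 2 * (2 / θ) = 1 := by field_simp
    have h2 : θ / 2 * (2 / θ) ≤ θ / 2 * C0 := by
      apply mul_le_mul_of_nonneg_left _ (by positivity)
      linarith
    linarith
  have hKlt : K < C.card := by
    refine lt_of_le_of_lt hKθ ?_
    have h1 : (C.card : ℝ) ^ (θ / 2) < (C.card : ℝ) ^ (1 : ℝ) :=
      Real.rpow_lt_rpow_of_exponent_lt (by linarith) (by linarith)
    rwa [Real.rpow_one] at h1
  -- the trivial bound
  have hRtriv : (R.card : ℝ) ≤ (C.card : ℝ) ^ (2 + 1 / ε) := by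
    rcases R.eq_empty_or_nonempty with hR0 | hRne
    · rw [hR0, card_empty, Nat.cast_zero]
      positivity
    have h1 : R.card ≤ C.card * A.card := by
      apply trivial_R
      intro r hr
      have h2 := hR r hr
      by_contra h3
      have h4 : (C.filter fun c => (r : F) • c ∈ A).card ≤ 1 := by omega
      have h5 : ((C.filter fun c => (r : F) • c ∈ A).card : ℝ) ≤ 1 := by exact_mod_cast h4
      have h6 := mul_le_mul_of_nonneg_left h5 hK0.le
      linarith
    have hAne : A.Nonempty := by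
      obtain ⟨r, hr⟩ := hRne
      by_contra h2
      rw [not_nonempty_iff_eq_empty] at h2
      have h3 := hR r hr
      rw [h2] at h3
      simp only [notMem_empty, filter_false, card_empty, Nat.cast_zero, mul_zero] at h3
      linarith
    have hA1 : (1 : ℝ) ≤ A.card := by exact_mod_cast card_pos.2 hAne
    have a1 : (A.card : ℝ) ≤ ((C.card : ℝ) * B.card) ^ (1 - ε) :=
      le_trans (by exact_mod_cast card_le_card_add_right hB) hcon
    have a2 : (B.card : ℝ) ≤ ((C.card : ℝ) * B.card) ^ (1 - ε) :=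
      le_trans (by exact_mod_cast card_le_card_add_left hAne) hcon
    have l1 := Real.log_le_log (by linarith) a1
    have l2 := Real.log_le_log (by linarith) a2
    rw [Real.log_rpow (by positivity), Real.log_mul (by linarith) (by linarith)] at l1 l2
    set lc : ℝ := Real.log (C.card : ℝ)
    set lb : ℝ := Real.log (B.card : ℝ)
    set la : ℝ := Real.log (A.card : ℝ)
    have lb0 : 0 ≤ lb := Real.log_nonneg hB1
    have l3 : lb ≤ lc / ε := by
      rw [le_div_iff₀ hε]
      nlinarith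
    have l4 : la ≤ lc + lc / ε := by nlinarith
    have h2 : (R.card : ℝ) ≤ C.card * A.card := by exact_mod_cast h1
    have hR1 : (0 : ℝ) < R.card := by exact_mod_cast card_pos.2 hRne
    rw [← Real.log_le_log_iff hR1 (by positivity), Real.log_rpow hCpos]
    refine (Real.log_le_log hR1 h2).trans ?_
    rw [Real.log_mul (by linarith) (by linarith)]
    show lc + la ≤ (2 + 1 / ε) * lc
    have e : (2 + 1 / ε) * lc = lc + (lc + lc / ε) := by ring
    rw [e]
    linarith
  -- the decomposition of the elements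
  have hdec : ∀ r : Fˣ, ∃ (t : Γ) (m : M), r ∈ R → t ∈ T ∧ r = (t : Fˣ) * (g m : Γ) := by
    intro r
    by_cases hr : r ∈ R
    · obtain ⟨t, ht, m, h⟩ := hT ⟨r, hRΓ r hr⟩
      refine ⟨t, m, fun _ => ⟨ht, ?_⟩⟩
      have h1 := congrArg (fun u : Γ => (u : Fˣ)) h
      exact h1
    · exact ⟨1, 0, fun h => absurd h hr⟩
  choose t m htm using hdec
  obtain ⟨t0, ht0, hlarge⟩ : ∃ t0 ∈ T, E * K * Lg <
      ((R.filter fun r => t r = t0).card : ℝ) := by
    by_contra hcon2
    push Not at hcon2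
    have h1 : R.card = ∑ t0 ∈ T, (R.filter fun r => t r = t0).card :=
      card_eq_sum_card_fiberwise fun r hr => (htm r hr).1
    have h2 : (R.card : ℝ) ≤ T.card * (E * K * Lg) := by
      rw [h1]
      push_cast
      rw [← nsmul_eq_mul, ← sum_const]
      exact sum_le_sum hcon2
    have h3 : T.card * (E * K * Lg) ≤ C0 * K * Lg := by
      have h4 : T.card * (E * K * Lg) = (T.card * E) * (K * Lg) := by ring
      have h5 : C0 * K * Lg = C0 * (K * Lg) := by ring
      rw [h4, h5]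
      apply mul_le_mul_of_nonneg_right _ (by positivity)
      linarith
    linarith
  set Rt : Finset Fˣ := R.filter fun r => t r = t0 with hRt
  have hrt : ∀ r ∈ Rt, (r : F) = g' (m r) * ((t0 : Fˣ) : F) := by
    intro r hr
    obtain ⟨h1, h2⟩ := mem_filter.1 hr
    have h3 := (htm r h1).2
    rw [h2] at h3
    have h4 := congrArg (fun u : Fˣ => (u : F)) h3
    simp only [Units.val_mul] at h4
    rw [h4, mul_comm]
  have hminj : Set.InjOn m (Rt : Set Fˣ) := by
    intro a ha b hb h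
    apply Units.ext
    rw [hrt a ha, hrt b hb, h]
  have ht0ne : ((t0 : Fˣ) : F) ≠ 0 := Units.ne_zero _
  have hsm : Function.Injective fun c : V => ((t0 : Fˣ) : F) • c := MulAction.injective₀ ht0ne
  have hCc : (C.image fun c => ((t0 : Fˣ) : F) • c).card = C.card := card_image_of_injective _ hsm
  -- the weak type inequality for a subset
  have hsubset : ∀ S : Finset Fˣ, S ⊆ Rt → (S.card : ℝ) ≤ (C.card : ℝ) ^ θ →
      (S.card : ℝ) ≤ E * K * Lg := by
    intro S hS hSc
    have key := hP V A (C.image fun c => ((t0 : Fˣ) : F) • c) B (S.image m)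
      (by rw [hCc]; exact hC) hB (by
        rw [hCc]
        refine le_trans ?_ hSc
        exact_mod_cast card_image_le) (by rw [hCc]; exact hcon)
    rw [hCc, sum_image (fun a ha b hb h => hminj (hS ha) (hS hb) h)] at key
    have h1 : (S.card : ℝ) * (C.card / K) ≤ ((∑ r ∈ S, ((C.image fun c => ((t0 : Fˣ) : F) • c).filter
        fun c => g' (m r) • c ∈ A).card : ℕ) : ℝ) := by
      push_cast
      rw [← nsmul_eq_mul, ← sum_const]
      apply sum_le_sum
      intro r hr
      rw [div_le_iff₀ hK0]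
      refine (hR r (mem_filter.1 (hS hr)).1).trans ?_
      rw [mul_comm]
      apply mul_le_mul_of_nonneg_right _ hK0.le
      apply Nat.cast_le.2
      apply card_le_card_of_injOn (fun s => ((t0 : Fˣ) : F) • s)
      · intro s hs
        obtain ⟨h1, h2⟩ := mem_filter.1 hs
        refine mem_filter.2 ⟨mem_image_of_mem _ h1, ?_⟩
        rw [smul_smul, ← hrt r (hS hr)]
        exact h2
      · intro s _ s' _ h
        exact hsm h
    have h2 : (S.card : ℝ) * (C.card / K) ≤ E * Lg * C.card := h1.trans key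
    have h3 : (S.card : ℝ) * (C.card / K) = (S.card / K) * C.card := by ring
    rw [h3] at h2
    have h4 := le_of_mul_le_mul_right h2 hCpos
    rw [div_le_iff₀ hK0] at h4
    calc (S.card : ℝ) ≤ E * Lg * K := h4
      _ = E * K * Lg := by ring
  by_cases hcase : (Rt.card : ℝ) ≤ (C.card : ℝ) ^ θ
  · exact absurd (hsubset Rt le_rfl hcase) (not_le.2 hlarge)
  push Not at hcase
  have hy1 : (1 : ℝ) ≤ (C.card : ℝ) ^ θ := Real.one_le_rpow (by linarith) hθ.le
  obtain ⟨S, hS, hSc⟩ := exists_subset_card_eq (s := Rt) (n := ⌊(C.card : ℝ) ^ θ⌋₊) (by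
    have h1 : ((⌊(C.card : ℝ) ^ θ⌋₊ : ℕ) : ℝ) ≤ (C.card : ℝ) ^ θ := Nat.floor_le (by positivity)
    have h2 : ((⌊(C.card : ℝ) ^ θ⌋₊ : ℕ) : ℝ) ≤ Rt.card := by linarith
    exact_mod_cast h2)
  have h1 := hsubset S hS (by rw [hSc]; exact Nat.floor_le (by positivity))
  have h2 : (C.card : ℝ) ^ θ / 2 ≤ S.card := by
    rw [hSc]
    have h3 := Nat.lt_floor_add_one ((C.card : ℝ) ^ θ)
    have h4 : (1 : ℝ) ≤ (⌊(C.card : ℝ) ^ θ⌋₊ : ℕ) := by
      exact_mod_cast (Nat.one_le_floor_iff _).2 hy1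
    linarith
  have h3 : (C.card : ℝ) ^ θ ≤ 2 * E * K * Lg := by linarith
  have h4 : (C.card : ℝ) ^ (θ / 2) ≤ 2 * E * Lg := by
    have h5 : (C.card : ℝ) ^ θ = (C.card : ℝ) ^ (θ / 2) * (C.card : ℝ) ^ (θ / 2) := by
      rw [← Real.rpow_add hCpos]
      congr 1
      ring
    have h6 : 2 * E * K * Lg ≤ (2 * E * Lg) * (C.card : ℝ) ^ (θ / 2) := by
      have h7 : 2 * E * K * Lg = (2 * E * Lg) * K := by ring
      rw [h7]
      exact mul_le_mul_of_nonneg_left hKθ (by positivity)
    rw [h5] at h3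
    exact le_of_mul_le_mul_right (h3.trans h6) (by positivity)
  have h5 : (C.card : ℝ) ≤ X := hX _ (by linarith) h4
  -- `C` is bounded
  have h6 : (R.card : ℝ) ≤ X ^ (2 + 1 / ε) :=
    hRtriv.trans (Real.rpow_le_rpow hCpos.le h5 (by positivity))
  have h7 : X ^ (2 + 1 / ε) ≤ C0 * K * Lg := by
    have h8 : X ^ (2 + 1 / ε) ≤ P1 * Lg := by
      calc X ^ (2 + 1 / ε) = X ^ (2 + 1 / ε) * 1 := (mul_one _).symm
        _ ≤ X ^ (2 + 1 / ε) * (2 ^ ρ * Lg) := mul_le_mul_of_nonneg_left hl1 (by positivity)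
        _ = P1 * Lg := by
            rw [hP1]
            ring
    refine h8.trans (mul_le_mul_of_nonneg_right ?_ hLg0.le)
    calc P1 ≤ C0 := by linarith
      _ = C0 * 1 := (mul_one _).symm
      _ ≤ C0 * K := mul_le_mul_of_nonneg_left hK (by linarith)
  linarith

end Pool.Agent.H85.AK
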