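import Pool.Agent.H85.AK.Slp4

/-!
The local inequality with neighbours, for arbitrary sets of pairs.
-/

set_option autoImplicit false

namespace Pool.Agent.H85.AK

open Finset
open scoped Classical

variable {α β γ ζ κ : Type*}

/-- **the local inequality with neighbours**, popular digits -/
theorem nloc_small {δ : ℝ} (hδ : 0 < δ) (hδ1 : δ ≤ 1) {Ω : Finset α} (hΩ : Ω.Nonempty)
    {U : α → β} {V : α → γ} {Z : α → ζ} {u0 : β} {v0 : γ}
    (heU0 : 0 < ((Ω.filter fun a => U a ≠ u0).card : ℝ))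
    (heV0 : 0 < ((Ω.filter fun a => V a ≠ v0).card : ℝ))
    (heU : ((Ω.filter fun a => U a ≠ u0).card : ℝ) = ep Ω U * Ω.card)
    (heV : ((Ω.filter fun a => V a ≠ v0).card : ℝ) = ep Ω V * Ω.card)
    (c1 : ep Ω U ≤ Real.exp (-(1 / δ))) (c2 : ep Ω V ≤ Real.exp (-(1 / δ))) :
    nloss Ω U V Z ≤ δ * (hh Ω U + hh Ω V) +
      (40 + Real.exp (1 / δ)) * (ep Ω V * hh Ω U + ep Ω U * hh Ω V) +
      (1 + 2 * Real.log (Ω.card : ℝ)) * mi Ω U V := by
  have hN : (0 : ℝ) < Ω.card := by exact_mod_cast card_pos.2 hΩ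
  obtain ⟨lU, sU⟩ := small_mass hδ hΩ heU0 heU c1
  obtain ⟨lV, sV⟩ := small_mass hδ hΩ heV0 heV c2
  have hbU := hh_bound_mode Ω U u0
  have hbV := hh_bound_mode Ω V v0
  -- the partition
  obtain ⟨bad, hbad⟩ : ∃ bad : β → Prop, ∀ u, bad u ↔ (u ≠ u0 ∧
      8 * ((Ω.filter fun a => V a ≠ v0).card : ℝ) * cv Ω U u <
        ((Ω.filter fun a => V a ≠ v0 ∧ U a = u).card : ℝ) * Ω.card) := ⟨_, fun _ => Iff.rfl⟩
  set S1 := Ω.filter fun a => V a = v0 with hS1
  set S2 := Ω.filter fun a => V a ≠ v0 ∧ U a = u0 with hS2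
  set Ω1 := Ω.filter fun a => V a ≠ v0 ∧ U a ≠ u0 ∧ bad (U a) with hΩ1
  set Ω2 := Ω.filter fun a => V a ≠ v0 ∧ U a ≠ u0 ∧ ¬ bad (U a) with hΩ2
  have hdec : nloss Ω U V Z = ∑ a ∈ S1, (Real.log (ct Ω Z a) - Real.log (nr Ω U V Z a)) +
      (∑ a ∈ S2, (Real.log (ct Ω Z a) - Real.log (nr Ω U V Z a)) +
      (∑ a ∈ Ω1, (Real.log (ct Ω Z a) - Real.log (nr Ω U V Z a)) +
      ∑ a ∈ Ω2, (Real.log (ct Ω Z a) - Real.log (nr Ω U V Z a)))) := by
    unfold nloss
    rw [← sum_filter_add_sum_filter_not Ω (fun a => V a = v0)]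
    congr 1
    rw [← sum_filter_add_sum_filter_not (Ω.filter fun a => ¬ V a = v0) (fun a => U a = u0)]
    congr 1
    · apply sum_congr _ fun _ _ => rfl
      rw [filter_filter]
    rw [← sum_filter_add_sum_filter_not ((Ω.filter fun a => ¬ V a = v0).filter
      fun a => ¬ U a = u0) (fun a => bad (U a))]
    congr 1
    · apply sum_congr _ fun _ _ => rfl
      ext a
      simp only [hΩ1, mem_filter]
      tauto
    · apply sum_congr _ fun _ _ => rfl
      ext a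
      simp only [hΩ2, mem_filter]
      tauto
  -- the parts with a popular digit
  have p1 : ∑ a ∈ S1, (Real.log (ct Ω Z a) - Real.log (nr Ω U V Z a)) ≤
      ((Ω.filter fun a => V a ≠ v0).card : ℝ) := by
    refine near_part (filter_subset _ _) ?_ ?_
    · intro a ha b hb
      right
      exact (mem_filter.1 ha).2.trans (mem_filter.1 hb).2.symm
    · intro a ha b hb _ h3
      refine mem_filter.2 ⟨hb, fun h6 => h3 (Or.inr ?_)⟩
      exact h6.trans (mem_filter.1 ha).2.symm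
  have p2 : ∑ a ∈ S2, (Real.log (ct Ω Z a) - Real.log (nr Ω U V Z a)) ≤
      ((Ω.filter fun a => U a ≠ u0).card : ℝ) := by
    refine near_part (filter_subset _ _) ?_ ?_
    · intro a ha b hb
      left
      exact (mem_filter.1 ha).2.2.trans (mem_filter.1 hb).2.2.symm
    · intro a ha b hb _ h3
      refine mem_filter.2 ⟨hb, fun h6 => h3 (Or.inl ?_)⟩
      exact h6.trans (mem_filter.1 ha).2.2.symm
  -- the correlated part
  have p3 : ∑ a ∈ Ω1, (Real.log (ct Ω Z a) - Real.log (nr Ω U V Z a)) ≤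
      (Ω1.card : ℝ) * Real.log (Ω.card : ℝ) := by
    rw [← nsmul_eq_mul, ← sum_const]
    apply sum_le_sum
    intro a ha
    have hsub : a ∈ Ω := (mem_filter.1 ha).1
    have h1 := log_ct_le Z hsub
    have h2 : 0 ≤ Real.log (nr Ω U V Z a) := by
      have h3 := nr_pos U V Z hsub
      unfold nr at h3 ⊢
      exact Real.log_natCast_nonneg _
    linarith
  -- the good part
  have sub2 : Ω2 ⊆ Ω := filter_subset _ _
  have hE2 : Ω2 ⊆ Ω.filter fun a => U a ≠ u0 := fun a ha =>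
    mem_filter.2 ⟨(mem_filter.1 ha).1, (mem_filter.1 ha).2.2.1⟩
  have hct2 := part2_ct (Ω := Ω) (Ω2 := Ω2) (U := U) (V := V) sub2 hΩ heV (by
    intro a ha
    obtain ⟨_, h2, h1, h3⟩ := mem_filter.1 ha
    refine ⟨h2, ?_⟩
    by_contra hc
    exact h3 ((hbad _).2 ⟨h1, not_le.1 hc⟩))
  have hepV := ep_nonneg hΩ V
  have hepU := ep_nonneg hΩ U
  have hq0 : 0 ≤ 8 * ep Ω V := by positivity
  have hN2c := good_card hE2 hq0 hct2
  have hgood := good_hh hE2 hq0 hct2
  have p4 : ∑ a ∈ Ω2, (Real.log (ct Ω Z a) - Real.log (nr Ω U V Z a)) ≤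
      (Ω2.card : ℝ) * (Real.log (Ω.card : ℝ) - Real.log (Ω2.card : ℝ)) + hh Ω2 U := by
    rcases Ω2.eq_empty_or_nonempty with h0 | h0
    · rw [h0, sum_empty, card_empty, Nat.cast_zero, zero_mul, zero_add]
      exact hh_nonneg _ _
    have h1 := log_sum sub2 h0 Z
    have h2 := nloss_le_left Ω2 U V Z
    have h5 : ∑ a ∈ Ω2, (Real.log (ct Ω Z a) - Real.log (nr Ω U V Z a)) ≤
        ∑ a ∈ Ω2, (Real.log (ct Ω Z a) - Real.log (ct Ω2 Z a)) + nloss Ω2 U V Z := by
      unfold nloss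
      rw [← sum_add_distrib]
      apply sum_le_sum
      intro a ha
      have h6 : Real.log (nr Ω2 U V Z a) ≤ Real.log (nr Ω U V Z a) := by
        apply Real.log_le_log (nr_pos _ _ _ ha)
        unfold nr
        apply Nat.cast_le.2
        apply card_le_card
        exact filter_subset_filter _ sub2
      linarith
    linarith
  have hN1mi : (Ω1.card : ℝ) ≤ mi Ω U V := by
    have h1 := bad_mass hΩ U V v0 bad (fun u hu => ((hbad u).1 hu).2.le)
    refine le_trans ?_ h1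
    apply Nat.cast_le.2
    apply card_le_card
    intro a ha
    obtain ⟨h2, h3, _, h4⟩ := mem_filter.1 ha
    exact mem_filter.2 ⟨h2, h3, h4⟩
  have hlogn : 0 ≤ Real.log (Ω.card : ℝ) := Real.log_natCast_nonneg _
  have hpV : 0 < ep Ω V := by
    by_contra hc
    have h1 : ep Ω V = 0 := le_antisymm (not_lt.1 hc) hepV
    rw [h1, zero_mul] at heV
    linarith
  have q2 := part2_ent hN (Nat.cast_nonneg Ω2.card) heU0 heV0 heU heV
    hepU hpV hN2c hbU hbV lU lV
  have hhU := hh_nonneg Ω U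
  have n1 : (0 : ℝ) ≤ Ω1.card := Nat.cast_nonneg _
  have n2 : (0 : ℝ) ≤ Ω2.card := Nat.cast_nonneg _
  have n3 : 0 ≤ (Ω1.card : ℝ) * Real.log (Ω.card : ℝ) := mul_nonneg n1 hlogn
  rw [hdec]
  exact final_arith hepV hlogn hN2c sU sV hepU (sU.trans (mul_le_of_le_one_left hhU hδ1))
    (hh_nonneg Ω V) hhU (Real.exp_pos _).le hN1mi (by linarith)

/-- **the local inequality with neighbours** -/
theorem nloc {δ : ℝ} (hδ : 0 < δ) (hδ1 : δ ≤ 1) {Ω : Finset α} (hΩ : Ω.Nonempty)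
    (U : α → β) (V : α → γ) (Z : α → ζ) :
    nloss Ω U V Z ≤ δ * (hh Ω U + hh Ω V) +
      (40 + Real.exp (1 / δ)) * (ep Ω V * hh Ω U + ep Ω U * hh Ω V) +
      (1 + 2 * Real.log (Ω.card : ℝ)) * mi Ω U V := by
  have hlogN : 0 ≤ Real.log (Ω.card : ℝ) := Real.log_natCast_nonneg _
  have hhU := hh_nonneg Ω U
  have hhV := hh_nonneg Ω V
  have hep1 := ep_nonneg hΩ U
  have hep2 := ep_nonneg hΩ V
  have hmi := mi_nonneg Ω U V
  have hexp := Real.exp_pos (1 / δ)
  have hl1 := nloss_le_left Ω U V Z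
  have hl2 := nloss_le_right Ω U V Z
  have n1 : 0 ≤ δ * (hh Ω U + hh Ω V) := by positivity
  have n2 : 0 ≤ (1 + 2 * Real.log (Ω.card : ℝ)) * mi Ω U V := by positivity
  have n3 : 0 ≤ ep Ω V * hh Ω U := by positivity
  have n4 : 0 ≤ ep Ω U * hh Ω V := by positivity
  have hone : Real.exp (1 / δ) * Real.exp (-(1 / δ)) = 1 := by
    rw [← Real.exp_add]
    simp
  have hexpand : (40 + Real.exp (1 / δ)) * (ep Ω V * hh Ω U + ep Ω U * hh Ω V) =
      40 * (ep Ω V * hh Ω U) + 40 * (ep Ω U * hh Ω V) + Real.exp (1 / δ) * (ep Ω V * hh Ω U) +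
        Real.exp (1 / δ) * (ep Ω U * hh Ω V) := by ring
  have n5 : 0 ≤ Real.exp (1 / δ) * (ep Ω V * hh Ω U) := by positivity
  have n6 : 0 ≤ Real.exp (1 / δ) * (ep Ω U * hh Ω V) := by positivity
  by_cases c1 : Real.exp (-(1 / δ)) < ep Ω U
  · have h1 : 1 ≤ Real.exp (1 / δ) * ep Ω U :=
      hone.symm.le.trans (mul_le_mul_of_nonneg_left c1.le hexp.le)
    have h2 : hh Ω V ≤ Real.exp (1 / δ) * ep Ω U * hh Ω V :=
      le_mul_of_one_le_left hhV h1
    rw [hexpand]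
    linarith
  by_cases c2 : Real.exp (-(1 / δ)) < ep Ω V
  · have h1 : 1 ≤ Real.exp (1 / δ) * ep Ω V :=
      hone.symm.le.trans (mul_le_mul_of_nonneg_left c2.le hexp.le)
    have h2 : hh Ω U ≤ Real.exp (1 / δ) * ep Ω V * hh Ω U :=
      le_mul_of_one_le_left hhU h1
    rw [hexpand]
    linarith
  push Not at c1 c2
  obtain ⟨x0, hx0, hx0'⟩ := exists_mx hΩ U
  obtain ⟨y0, hy0, hy0'⟩ := exists_mx hΩ V
  have hepU := ep_eq hΩ hx0'
  have hepV := ep_eq hΩ hy0'
  rcases (Nat.cast_nonneg (Ω.filter fun a => U a ≠ U x0).card :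
    (0 : ℝ) ≤ ((Ω.filter fun a => U a ≠ U x0).card : ℝ)).eq_or_lt with hz | heUp
  · have h1 := hh_zero hz.symm
    rw [hexpand]
    linarith
  rcases (Nat.cast_nonneg (Ω.filter fun a => V a ≠ V y0).card :
    (0 : ℝ) ≤ ((Ω.filter fun a => V a ≠ V y0).card : ℝ)).eq_or_lt with hz | heVp
  · have h1 := hh_zero hz.symm
    rw [hexpand]
    linarith
  exact nloc_small hδ hδ1 hΩ heUp heVp hepU hepV c1 c2

/-- the number of neighbours in the fibre and in the node -/
noncomputable def ng (A : Finset α) (P P' : α → β) (Q Q' : α → γ) (Z : α → ζ) (a : α) : ℝ :=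
  ((A.filter fun b => Z b = Z a ∧ P b = P a ∧ Q b = Q a ∧ (P' b = P' a ∨ Q' b = Q' a)).card : ℝ)

theorem ng_pos {A : Finset α} (P P' : α → β) (Q Q' : α → γ) (Z : α → ζ) {a : α} (ha : a ∈ A) :
    0 < ng A P P' Q Q' Z a := by
  unfold ng
  have h : 0 < (A.filter fun b => Z b = Z a ∧ P b = P a ∧ Q b = Q a ∧
      (P' b = P' a ∨ Q' b = Q' a)).card :=
    card_pos.2 ⟨a, mem_filter.2 ⟨ha, rfl, rfl, rfl, Or.inl rfl⟩⟩
  exact_mod_cast h

/-- **the inequality of one node with neighbours**, arbitrary sets -/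
theorem node_gen {δ : ℝ} (hδ : 0 < δ) (hδ1 : δ ≤ 1) (A : Finset α)
    (P P' : α → β) (Q Q' : α → γ) (Z : α → ζ) :
    ∑ a ∈ A, (Real.log (ct A (fun b => (Z b, lab P Q b)) a) - Real.log (ng A P P' Q Q' Z a)) ≤
      δ * (S A (lab P Q) (fun Ω => hh Ω P') + S A (lab P Q) (fun Ω => hh Ω Q')) +
      (40 + Real.exp (1 / δ)) * (S A (lab P Q) (fun Ω => ep Ω Q' * hh Ω P') +
        S A (lab P Q) (fun Ω => ep Ω P' * hh Ω Q')) +
      (1 + 2 * Real.log (A.card : ℝ)) * S A (lab P Q) (fun Ω => mi Ω P' Q') := by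
  have e0 : ∑ a ∈ A, (Real.log (ct A (fun b => (Z b, lab P Q b)) a) -
      Real.log (ng A P P' Q Q' Z a)) = S A (lab P Q) (fun Ω => nloss Ω P' Q' Z) := by
    symm
    apply S_eq
    intro a _
    unfold nloss
    apply sum_congr rfl
    intro b hb
    rw [ct_cl hb]
    congr 2
    unfold nr ng
    congr 2
    ext c
    have h1 := (mem_cl.1 hb).2
    simp only [lab, Prod.mk.injEq] at h1
    simp only [mem_filter, mem_cl, lab, Prod.mk.injEq, h1.1, h1.2]
    tauto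
  rw [e0, ← S_add, ← S_add, ← S_smul, ← S_smul, ← S_smul, ← S_add, ← S_add]
  apply S_mono
  intro a ha
  have hsub : cl A (lab P Q) a ⊆ A := cl_sub _ _ _
  have hne := cl_nonempty (lab P Q) ha
  have h := nloc hδ hδ1 hne P' Q' Z
  refine h.trans ?_
  apply add_le_add le_rfl
  apply mul_le_mul_of_nonneg_right _ (mi_nonneg _ _ _)
  have h1 : Real.log ((cl A (lab P Q) a).card : ℝ) ≤ Real.log (A.card : ℝ) := by
    apply Real.log_le_log
    · exact_mod_cast card_pos.2 hne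
    · exact_mod_cast card_le_card hsub
  linarith

end Pool.Agent.H85.AK
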