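import Pool.Agent.H85.AK.Gen1

/-!
Chains of partitions and the sum over all pairs of levels, for arbitrary sets.
-/

set_option autoImplicit false

namespace Pool.Agent.H85.AK

open Finset
open scoped Classical

variable {α β γ ζ κ : Type*}

/-- a chain of pairs of partitions (coarse, fine) with bounded overlap `c` -/
structure Tel (A : Finset α) {ι : Type*} (I : Finset ι) (Pc Pf : ι → α → β) (c : ℝ) : Prop where
  ref : ∀ l ∈ I, Ref A (Pf l) (Pc l)
  tel : ∀ (Φ : (α → β) → ℝ) (M : ℝ), 0 ≤ M → (∀ P P' : α → β, Ref A P' P → Φ P' ≤ Φ P) →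
    (∀ P, 0 ≤ Φ P) → (∀ P, Φ P ≤ M) → ∑ l ∈ I, (Φ (Pc l) - Φ (Pf l)) ≤ c * M

/-- the potential of a partition -/
noncomputable def pot (A : Finset α) (P : α → β) : ℝ := ∑ a ∈ A, Real.log (ct A P a)

theorem pot_nonneg (A : Finset α) (P : α → β) : 0 ≤ pot A P :=
  sum_nonneg fun _ ha => log_ct_nonneg _ ha

theorem pot_le (A : Finset α) (P : α → β) : pot A P ≤ A.card * Real.log (A.card : ℝ) := by
  unfold pot
  rw [← nsmul_eq_mul, ← sum_const]
  exact sum_le_sum fun _ ha => log_ct_le _ ha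

theorem pot_mono {A : Finset α} {P : α → β} {P' : α → γ} (h : Ref A P' P) : pot A P' ≤ pot A P :=
  sum_le_sum fun a ha => Real.log_le_log (ct_pos _ ha) (ct_mono fun b hb h' => h b hb a ha h')

/-- conditioning -/
theorem cond_le {A : Finset α} {P P' : α → β} (hP : Ref A P' P) (Q : α → γ) :
    ∑ a ∈ A, (Real.log (nn A Q P a) - Real.log (nn A Q P' a)) ≤ pot A P - pot A P' := by
  have h := submod A Q P' P
  rw [sum_add_distrib, sum_add_distrib] at h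
  have e1 : ∀ a ∈ A, Real.log (ct A (fun a => (P' a, P a)) a) = Real.log (ct A P' a) := by
    intro a ha
    congr 1
    apply ct_congr
    intro b hb
    simp only [Prod.mk.injEq]
    exact ⟨fun h => h.1, fun h => ⟨h, hP b hb a ha h⟩⟩
  have e2 : ∀ a ∈ A, Real.log (ct A (fun a => (Q a, P' a, P a)) a) = Real.log (nn A Q P' a) := by
    intro a ha
    congr 1
    apply ct_congr
    intro b hb
    simp only [Prod.mk.injEq, lab]
    exact ⟨fun h => ⟨h.1, h.2.1⟩, fun h => ⟨h.1, h.2, hP b hb a ha h.2⟩⟩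
  rw [sum_congr rfl e1, sum_congr rfl e2] at h
  rw [sum_sub_distrib]
  unfold pot
  have e3 : ∑ a ∈ A, Real.log (nn A Q P a) = ∑ a ∈ A, Real.log (ct A (fun a => (Q a, P a)) a) := rfl
  rw [e3]
  linarith

theorem G_mono {A : Finset α} {P : α → β} {P' : α → β} {Q Q' : α → γ} (hP : Ref A P' P)
    (hQ : Ref A Q' Q) : G A P' Q Q' ≤ G A P Q Q' := by
  have h := G_step hP hQ
  have h1 : 0 ≤ S A (lab P Q) (fun Ω => ep Ω P' * hh Ω Q') :=
    S_nonneg fun a ha => mul_nonneg (ep_nonneg (cl_nonempty _ ha) _) (hh_nonneg _ _)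
  linarith

theorem G_le {A : Finset α} {P : α → β} {Q Q' : α → γ} (hQ : Ref A Q' Q) :
    G A P Q Q' ≤ Real.log (A.card : ℝ) * (pot A Q - pot A Q') := by
  have h := cond_le hQ P
  have h0 : 0 ≤ Real.log (A.card : ℝ) := Real.log_natCast_nonneg _
  refine le_trans ?_ (mul_le_mul_of_nonneg_left h h0)
  unfold G
  rw [mul_sum]
  apply sum_le_sum
  intro a ha
  exact mul_le_mul_of_nonneg_right (log_nn_le _ _ ha) (sub_nonneg.2 (log_nn_mono_right hQ ha))

/-- the first product sum -/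
theorem tel_X {A : Finset α} {ι κ : Type*} {I : Finset ι} {I' : Finset κ} {Pc Pf : ι → α → β}
    {Qc Qf : κ → α → γ} {c : ℝ} (h0 : 0 ≤ c) (TP : Tel A I Pc Pf c) (TQ : Tel A I' Qc Qf c) :
    ∑ t ∈ I', ∑ u ∈ I, S A (lab (Pc u) (Qc t)) (fun Ω => ep Ω (Pf u) * hh Ω (Qf t)) ≤
      c ^ 2 * (A.card * Real.log (A.card : ℝ) * Real.log (A.card : ℝ)) := by
  have hl : 0 ≤ Real.log (A.card : ℝ) := Real.log_natCast_nonneg _
  have h1 : ∀ t ∈ I', ∑ u ∈ I, S A (lab (Pc u) (Qc t)) (fun Ω => ep Ω (Pf u) * hh Ω (Qf t)) ≤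
      c * (Real.log (A.card : ℝ) * (pot A (Qc t) - pot A (Qf t))) := by
    intro t ht
    have hQ := TQ.ref t ht
    refine le_trans ?_ (TP.tel (fun P => G A P (Qc t) (Qf t)) _
      (mul_nonneg hl (sub_nonneg.2 (pot_mono hQ))) (fun P P' h => G_mono h hQ)
      (fun P => G_nonneg hQ) (fun P => G_le hQ))
    apply sum_le_sum
    intro u hu
    have := G_step (TP.ref u hu) hQ
    linarith
  refine (sum_le_sum h1).trans ?_
  rw [← mul_sum, ← mul_sum]
  have h2 := TQ.tel (fun Q => pot A Q) (A.card * Real.log (A.card : ℝ)) (by positivity)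
    (fun P P' h => pot_mono h) (fun P => pot_nonneg A P) (fun P => pot_le A P)
  have h3 := mul_le_mul_of_nonneg_left (mul_le_mul_of_nonneg_left h2 hl) h0
  refine h3.trans (le_of_eq ?_)
  ring

/-- the second product sum -/
theorem tel_Y {A : Finset α} {ι κ : Type*} {I : Finset ι} {I' : Finset κ} {Pc Pf : ι → α → β}
    {Qc Qf : κ → α → γ} {c : ℝ} (h0 : 0 ≤ c) (TP : Tel A I Pc Pf c) (TQ : Tel A I' Qc Qf c) :
    ∑ t ∈ I', ∑ u ∈ I, S A (lab (Pc u) (Qc t)) (fun Ω => ep Ω (Qf t) * hh Ω (Pf u)) ≤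
      c ^ 2 * (A.card * Real.log (A.card : ℝ) * Real.log (A.card : ℝ)) := by
  have h := tel_X h0 TQ TP
  rw [sum_comm]
  refine le_trans (le_of_eq ?_) h
  apply sum_congr rfl
  intro u _
  apply sum_congr rfl
  intro t _
  exact (S_swap A (Pc u) (Qc t) _).symm

/-- the sum of the mutual informations -/
theorem tel_M {A : Finset α} {ι κ : Type*} {I : Finset ι} {I' : Finset κ} {Pc Pf : ι → α → β}
    {Qc Qf : κ → α → γ} {c : ℝ} (h0 : 0 ≤ c) (TP : Tel A I Pc Pf c) (TQ : Tel A I' Qc Qf c) :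
    ∑ t ∈ I', ∑ u ∈ I, S A (lab (Pc u) (Qc t)) (fun Ω => mi Ω (Pf u) (Qf t)) ≤
      c ^ 2 * (A.card * Real.log (A.card : ℝ)) := by
  have h1 : ∀ t ∈ I', ∑ u ∈ I, S A (lab (Pc u) (Qc t)) (fun Ω => mi Ω (Pf u) (Qf t)) ≤
      c * (pot A (Qc t) - pot A (Qf t)) := by
    intro t ht
    have hQ := TQ.ref t ht
    refine le_trans ?_ (TP.tel (fun P => ∑ a ∈ A, (Real.log (nn A P (Qc t) a) -
      Real.log (nn A P (Qf t) a))) _ (sub_nonneg.2 (pot_mono hQ)) ?_ ?_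
      (fun P => cond_le hQ P))
    · apply sum_le_sum
      intro u hu
      rw [S_mi (TP.ref u hu) hQ, ← sum_sub_distrib]
      apply le_of_eq
      apply sum_congr rfl
      intro a _
      ring
    · intro P P' h
      have h2 : 0 ≤ S A (lab P (Qc t)) (fun Ω => mi Ω P' (Qf t)) :=
        S_nonneg fun a _ => mi_nonneg _ _ _
      rw [S_mi h hQ] at h2
      rw [← sub_nonneg, ← sum_sub_distrib]
      refine h2.trans (le_of_eq ?_)
      apply sum_congr rfl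
      intro a _
      ring
    · intro P
      exact sum_nonneg fun a ha => sub_nonneg.2 (log_nn_mono_right hQ ha)
  refine (sum_le_sum h1).trans ?_
  rw [← mul_sum]
  have hl : 0 ≤ Real.log (A.card : ℝ) := Real.log_natCast_nonneg _
  have h2 := TQ.tel (fun Q => pot A Q) (A.card * Real.log (A.card : ℝ)) (by positivity)
    (fun P P' h => pot_mono h) (fun P => pot_nonneg A P) (fun P => pot_le A P)
  have h3 := mul_le_mul_of_nonneg_left h2 h0
  refine h3.trans (le_of_eq ?_)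
  ring

/-- pairs of levels -/
theorem pair_sum {ι ν lx ly : Type*} {J : Finset ι} {N : Finset ν} {I : Finset lx}
    {I' : Finset ly} {f : ι → ν → lx} {g : ι → ν → ly} (hf : ∀ i ∈ J, ∀ n ∈ N, f i n ∈ I)
    (hg : ∀ i ∈ J, ∀ n ∈ N, g i n ∈ I')
    (hinj : ∀ i ∈ J, ∀ n ∈ N, ∀ i' ∈ J, ∀ n' ∈ N, f i n = f i' n' → g i n = g i' n' →
      i = i' ∧ n = n') {φ : lx → ly → ℝ} (h0 : ∀ u ∈ I, ∀ t ∈ I', 0 ≤ φ u t) :
    ∑ i ∈ J, ∑ n ∈ N, φ (f i n) (g i n) ≤ ∑ t ∈ I', ∑ u ∈ I, φ u t := by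
  rw [sum_comm (s := I'), ← sum_product', ← sum_product']
  have e : ∑ p ∈ J ×ˢ N, φ (f p.1 p.2) (g p.1 p.2) =
      ∑ q ∈ (J ×ˢ N).image (fun p => (f p.1 p.2, g p.1 p.2)), φ q.1 q.2 := by
    rw [sum_image]
    rintro ⟨i, n⟩ h ⟨i', n'⟩ h' heq
    rw [mem_coe, mem_product] at h h'
    simp only [Prod.mk.injEq] at heq
    obtain ⟨h1, h2⟩ := hinj i h.1 n h.2 i' h'.1 n' h'.2 heq.1 heq.2
    exact Prod.ext h1 h2
  rw [e]
  apply sum_le_sum_of_subset_of_nonneg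
  · intro q hq
    obtain ⟨p, hp, rfl⟩ := mem_image.1 hq
    rw [mem_product] at hp
    exact mem_product.2 ⟨hf _ hp.1 _ hp.2, hg _ hp.1 _ hp.2⟩
  · intro q hq _
    rw [mem_product] at hq
    exact h0 _ hq.1 _ hq.2

/-- **the sum over the scalars**, arbitrary sets -/
theorem gen_sum {δ : ℝ} (hδ : 0 < δ) (hδ1 : δ ≤ 1) (A : Finset α) {ι ν lx ly : Type*}
    (J : Finset ι) (N : Finset ν) {I : Finset lx} {I' : Finset ly} {f : ι → ν → lx}
    {g : ι → ν → ly} (hf : ∀ i ∈ J, ∀ n ∈ N, f i n ∈ I) (hg : ∀ i ∈ J, ∀ n ∈ N, g i n ∈ I')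
    (hinj : ∀ i ∈ J, ∀ n ∈ N, ∀ i' ∈ J, ∀ n' ∈ N, f i n = f i' n' → g i n = g i' n' →
      i = i' ∧ n = n') {Pc Pf : lx → α → β} {Qc Qf : ly → α → γ} {c : ℝ} (h0 : 0 ≤ c)
    (TP : Tel A I Pc Pf c) (TQ : Tel A I' Qc Qf c)
    (TJ : ∀ i ∈ J, Tel A N (fun n => lab (Pc (f i n)) (Qc (g i n)))
      (fun n => lab (Pf (f i n)) (Qf (g i n))) c) (Z : ι → α → ζ) :
    ∑ i ∈ J, ∑ n ∈ N, ∑ a ∈ A,
      (Real.log (ct A (fun b => (Z i b, lab (Pc (f i n)) (Qc (g i n)) b)) a) -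
        Real.log (ng A (Pc (f i n)) (Pf (f i n)) (Qc (g i n)) (Qf (g i n)) (Z i) a)) ≤
      2 * c * δ * (J.card * (A.card * Real.log (A.card : ℝ))) +
      (2 * (40 + Real.exp (1 / δ)) * Real.log (A.card : ℝ) + (1 + 2 * Real.log (A.card : ℝ))) *
        (c ^ 2 * (A.card * Real.log (A.card : ℝ))) := by
  have hl : 0 ≤ Real.log (A.card : ℝ) := Real.log_natCast_nonneg _
  set M : ℝ := A.card * Real.log (A.card : ℝ) with hM
  set C : ℝ := 40 + Real.exp (1 / δ) with hC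
  have hC0 : 0 ≤ C := by positivity
  -- the nodes
  have h1 : ∑ i ∈ J, ∑ n ∈ N, ∑ a ∈ A,
      (Real.log (ct A (fun b => (Z i b, lab (Pc (f i n)) (Qc (g i n)) b)) a) -
        Real.log (ng A (Pc (f i n)) (Pf (f i n)) (Qc (g i n)) (Qf (g i n)) (Z i) a)) ≤
      ∑ i ∈ J, ∑ n ∈ N, (δ * (S A (lab (Pc (f i n)) (Qc (g i n))) (fun Ω => hh Ω (Pf (f i n))) +
        S A (lab (Pc (f i n)) (Qc (g i n))) (fun Ω => hh Ω (Qf (g i n)))) +
      C * (S A (lab (Pc (f i n)) (Qc (g i n))) (fun Ω => ep Ω (Qf (g i n)) * hh Ω (Pf (f i n))) +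
        S A (lab (Pc (f i n)) (Qc (g i n))) (fun Ω => ep Ω (Pf (f i n)) * hh Ω (Qf (g i n)))) +
      (1 + 2 * Real.log (A.card : ℝ)) *
        S A (lab (Pc (f i n)) (Qc (g i n))) (fun Ω => mi Ω (Pf (f i n)) (Qf (g i n)))) :=
    sum_le_sum fun i _ => sum_le_sum fun n _ => node_gen hδ hδ1 A _ _ _ _ _
  refine h1.trans ?_
  simp only [sum_add_distrib, ← mul_sum]
  -- the entropies
  have hD : ∀ i ∈ J, ∀ n ∈ N, S A (lab (Pc (f i n)) (Qc (g i n))) (fun Ω => hh Ω (Pf (f i n))) ≤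
      pot A (lab (Pc (f i n)) (Qc (g i n))) - pot A (lab (Pf (f i n)) (Qf (g i n))) := by
    intro i hi n hn
    rw [S_hh_left (TP.ref _ (hf i hi n hn))]
    unfold pot
    rw [← sum_sub_distrib]
    apply sum_le_sum
    intro a ha
    have h2 := log_nn_mono_right (P := Pf (f i n)) (TQ.ref _ (hg i hi n hn)) ha
    unfold nn at h2 ⊢
    linarith
  have hD' : ∀ i ∈ J, ∀ n ∈ N, S A (lab (Pc (f i n)) (Qc (g i n))) (fun Ω => hh Ω (Qf (g i n))) ≤
      pot A (lab (Pc (f i n)) (Qc (g i n))) - pot A (lab (Pf (f i n)) (Qf (g i n))) := by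
    intro i hi n hn
    rw [S_hh_right (TQ.ref _ (hg i hi n hn))]
    unfold pot
    rw [← sum_sub_distrib]
    apply sum_le_sum
    intro a ha
    have h2 := log_nn_mono_left (Q := Qf (g i n)) (TP.ref _ (hf i hi n hn)) ha
    unfold nn at h2 ⊢
    linarith
  have hT : ∀ i ∈ J, ∑ n ∈ N, (pot A (lab (Pc (f i n)) (Qc (g i n))) -
      pot A (lab (Pf (f i n)) (Qf (g i n)))) ≤ c * M := fun i hi =>
    (TJ i hi).tel (fun Q => pot A Q) M (mul_nonneg (Nat.cast_nonneg _) hl)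
      (fun P P' h => pot_mono h) (fun P => pot_nonneg A P) (fun P => pot_le A P)
  have s1 : ∑ i ∈ J, ∑ n ∈ N, S A (lab (Pc (f i n)) (Qc (g i n))) (fun Ω => hh Ω (Pf (f i n))) ≤
      J.card * (c * M) := by
    rw [← nsmul_eq_mul, ← sum_const]
    exact sum_le_sum fun i hi => (sum_le_sum fun n hn => hD i hi n hn).trans (hT i hi)
  have s2 : ∑ i ∈ J, ∑ n ∈ N, S A (lab (Pc (f i n)) (Qc (g i n))) (fun Ω => hh Ω (Qf (g i n))) ≤
      J.card * (c * M) := by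
    rw [← nsmul_eq_mul, ← sum_const]
    exact sum_le_sum fun i hi => (sum_le_sum fun n hn => hD' i hi n hn).trans (hT i hi)
  -- the products
  have s3 : ∑ i ∈ J, ∑ n ∈ N, S A (lab (Pc (f i n)) (Qc (g i n)))
      (fun Ω => ep Ω (Qf (g i n)) * hh Ω (Pf (f i n))) ≤
      c ^ 2 * (M * Real.log (A.card : ℝ)) := by
    refine le_trans ?_ (tel_Y h0 TP TQ)
    exact pair_sum (φ := fun u t => S A (lab (Pc u) (Qc t)) (fun Ω => ep Ω (Qf t) * hh Ω (Pf u)))
      hf hg hinj fun u _ t _ => S_nonneg fun a ha =>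
        mul_nonneg (ep_nonneg (cl_nonempty _ ha) _) (hh_nonneg _ _)
  have s4 : ∑ i ∈ J, ∑ n ∈ N, S A (lab (Pc (f i n)) (Qc (g i n)))
      (fun Ω => ep Ω (Pf (f i n)) * hh Ω (Qf (g i n))) ≤
      c ^ 2 * (M * Real.log (A.card : ℝ)) := by
    refine le_trans ?_ (tel_X h0 TP TQ)
    exact pair_sum (φ := fun u t => S A (lab (Pc u) (Qc t)) (fun Ω => ep Ω (Pf u) * hh Ω (Qf t)))
      hf hg hinj fun u _ t _ => S_nonneg fun a ha =>
        mul_nonneg (ep_nonneg (cl_nonempty _ ha) _) (hh_nonneg _ _)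
  have s5 : ∑ i ∈ J, ∑ n ∈ N, S A (lab (Pc (f i n)) (Qc (g i n)))
      (fun Ω => mi Ω (Pf (f i n)) (Qf (g i n))) ≤ c ^ 2 * M := by
    refine le_trans ?_ (tel_M h0 TP TQ)
    exact pair_sum (φ := fun u t => S A (lab (Pc u) (Qc t)) (fun Ω => mi Ω (Pf u) (Qf t)))
      hf hg hinj fun u _ t _ => S_nonneg fun a _ => mi_nonneg _ _ _
  have t1 := mul_le_mul_of_nonneg_left (add_le_add s1 s2) hδ.le
  have t2 := mul_le_mul_of_nonneg_left (add_le_add s3 s4) hC0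
  have t3 := mul_le_mul_of_nonneg_left s5 (show 0 ≤ 1 + 2 * Real.log (A.card : ℝ) by linarith)
  refine (add_le_add (add_le_add t1 t2) t3).trans (le_of_eq ?_)
  ring

end Pool.Agent.H85.AK
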