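import Pool.Agent.H85.AK.Gen2

/-!
Chains from balls and from grids of cells; the number of exceptional values.
-/

set_option autoImplicit false

namespace Pool.Agent.H85.AK

open Finset
open scoped Classical

variable {α β γ ζ : Type*}

/-- a chain over the integers, steps of length five -/
theorem tel_int (A : Finset α) (P : ℤ → α → β) (hP : ∀ u, Ref A (P u) (P (u + 1)))
    {ι : Type*} (I : Finset ι) (e : ι → ℤ) (he : Set.InjOn e (I : Set ι)) (Pc : ι → α → β)
    (hPc : ∀ l ∈ I, Pc l = P (e l + 5)) (Pf : ι → α → β) (hPf : ∀ l ∈ I, Pf l = P (e l)) :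
    Tel A I Pc Pf 5 := by
  constructor
  · intro l hl a ha b hb h
    rw [hPf l hl] at h
    rw [hPc l hl]
    have h1 := hP (e l) a ha b hb h
    have h2 := hP (e l + 1) a ha b hb h1
    have h3 := hP (e l + 1 + 1) a ha b hb h2
    have h4 := hP (e l + 1 + 1 + 1) a ha b hb h3
    have h5 := hP (e l + 1 + 1 + 1 + 1) a ha b hb h4
    have e5 : e l + 1 + 1 + 1 + 1 + 1 = e l + 5 := by ring
    rw [e5] at h5
    exact h5
  · intro Φ M _ h1 h2 h3
    have h4 : ∑ l ∈ I, (Φ (Pc l) - Φ (Pf l)) = ∑ l ∈ I, (Φ (P (e l + 5)) - Φ (P (e l))) := by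
      apply sum_congr rfl
      intro l hl
      rw [hPc l hl, hPf l hl]
    rw [h4, ← sum_image (s := I) (g := e) (f := fun u => Φ (P (u + 5)) - Φ (P u)) he]
    apply levels5 (L := fun u => Φ (P u))
    · exact monotone_int_of_le_succ fun u => h1 _ _ (hP u)
    · exact fun s => h2 _
    · exact fun s => h3 _

/-- a chain over a linear order -/
theorem tel_ord {Γ₀ : Type*} [LinearOrder Γ₀] (A : Finset α) (I : Finset Γ₀)
    (Pc Pf : Γ₀ → α → β) (h1 : ∀ l, Ref A (Pf l) (Pc l))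
    (h2 : ∀ l l', l < l' → Ref A (Pc l) (Pf l')) : Tel A I Pc Pf 1 := by
  constructor
  · exact fun l _ => h1 l
  · intro Φ M hM h3 h4 h5
    have key : ∀ I : Finset Γ₀, ∀ B : ℝ, 0 ≤ B → (∀ l ∈ I, Φ (Pc l) ≤ B) →
        ∑ l ∈ I, (Φ (Pc l) - Φ (Pf l)) ≤ B := by
      intro I
      induction I using Finset.induction_on_max with
      | empty =>
        intro B hB _
        rw [sum_empty]
        exact hB
      | insert a s hs ih =>
        intro B hB h
        rw [sum_insert fun h' => lt_irrefl _ (hs a h')]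
        have h6 := ih (Φ (Pf a)) (h4 _) fun l hl => h3 _ _ (h2 l a (hs l hl))
        have h7 := h a (mem_insert_self _ _)
        linarith
    rw [one_mul]
    exact key I M hM fun l _ => h5 _


theorem ng_any {A : Finset α} {P P' : α → β} {Q Q' : α → γ} {Z : α → ζ} {a : α}
    (p : α → Prop) (i : DecidablePred p)
    (h : ∀ b, p b ↔ (Z b = Z a ∧ P b = P a ∧ Q b = Q a ∧ (P' b = P' a ∨ Q' b = Q' a))) :
    ((@Finset.filter α p i A).card : ℝ) = ng A P P' Q Q' Z a := by
  unfold ng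
  congr 2
  ext b
  rw [mem_filter, mem_filter, h b]

section

variable {F : Type} [Field F] {Γ₀ : Type} [LinearOrderedCommGroupWithZero Γ₀]

theorem ble_blt (v : Valuation F Γ₀) {γ γ' : Γ₀} (h : γ < γ') : ble v γ ≤ blt v γ' := by
  intro x hx
  exact Or.inr (lt_of_le_of_lt hx h)

/-- **the sum over the valuations**, arbitrary sets -/
theorem val_gen (hlev : Stmt2.S_levels) {δ : ℝ} (hδ : 0 < δ) (hδ1 : δ ≤ 1) (v : Valuation F Γ₀)
    (A : Finset (F × F)) (J : Finset Γ₀) (hJ : ∀ ρ ∈ J, ρ ≠ 0) (L : Γ₀ → F × F → ζ)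
    (hL : ∀ i ∈ J, ValLab v A i (L i)) :
    ∑ i ∈ J, ∑ a ∈ A, Real.log (ct A (L i) a) ≤
      2 * δ * (J.card * (A.card * Real.log (A.card : ℝ))) +
      (2 * (40 + Real.exp (1 / δ)) * Real.log (A.card : ℝ) + (1 + 2 * Real.log (A.card : ℝ))) *
        (A.card * Real.log (A.card : ℝ)) := by
  set Φ : Finset Γ₀ := ((A ×ˢ A).filter fun c => c.1.2 ≠ c.2.2).image fun c => v (c.2.2 - c.1.2)
    with hΦ
  have hΦ0 : ∀ γ ∈ Φ, γ ≠ 0 := by
    intro γ hγ
    obtain ⟨c, hc, rfl⟩ := mem_image.1 hγ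
    exact (Valuation.ne_zero_iff v).2 (sub_ne_zero.2 (mem_filter.1 hc).2.symm)
  have hmem : ∀ a ∈ A, ∀ b ∈ A, a.2 ≠ b.2 → v (b.2 - a.2) ∈ Φ := by
    intro a ha b hb hab
    exact mem_image.2 ⟨(a, b), mem_filter.2 ⟨mem_product.2 ⟨ha, hb⟩, hab⟩, rfl⟩
  have h := gen_sum (c := 1) (ζ := ζ) hδ hδ1 A J Φ
    (I := (J ×ˢ Φ).image fun p => p.2 / p.1) (I' := Φ) (f := fun i γ => γ / i)
    (g := fun _ γ => γ)
    (fun i hi n hn => mem_image.2 ⟨(i, n), mem_product.2 ⟨hi, hn⟩, rfl⟩) (fun i _ n hn => hn)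
    (by
      intro i hi n hn i' hi' n' hn' h1 h2
      subst h2
      refine ⟨?_, rfl⟩
      rw [div_eq_div_iff (hJ i hi) (hJ i' hi')] at h1
      exact (mul_left_cancel₀ (hΦ0 n hn) h1).symm)
    (Pc := fun γ b => cos (ble v γ) b.1) (Pf := fun γ b => cos (blt v γ) b.1)
    (Qc := fun γ b => cos (ble v γ) b.2) (Qf := fun γ b => cos (blt v γ) b.2)
    (by norm_num)
    (tel_ord A _ _ _ (fun l a _ b _ h => cos_eq.2 (blt_le v l (cos_eq.1 h)))
      (fun l l' hl a _ b _ h => cos_eq.2 (ble_blt v hl (cos_eq.1 h))))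
    (tel_ord A _ _ _ (fun l a _ b _ h => cos_eq.2 (blt_le v l (cos_eq.1 h)))
      (fun l l' hl a _ b _ h => cos_eq.2 (ble_blt v hl (cos_eq.1 h))))
    (by
      intro i hi
      apply tel_ord
      · intro l a _ b _ h
        simp only [lab, Prod.mk.injEq] at h ⊢
        exact ⟨cos_eq.2 (blt_le v _ (cos_eq.1 h.1)), cos_eq.2 (blt_le v _ (cos_eq.1 h.2))⟩
      · intro l l' hl a _ b _ h
        simp only [lab, Prod.mk.injEq] at h ⊢
        have hl2 : l / i < l' / i := by
          have hi0 : 0 < i := zero_lt_iff.2 (hJ i hi)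
          exact div_lt_div_of_pos_right hl hi0
        exact ⟨cos_eq.2 (ble_blt v hl2 (cos_eq.1 h.1)), cos_eq.2 (ble_blt v hl (cos_eq.1 h.2))⟩)
    L
  refine le_trans (le_of_eq ?_) (h.trans (le_of_eq (by ring)))
  apply sum_congr rfl
  intro i hi
  rw [sum_congr rfl fun a ha => val_fibreL hlev v (hJ i hi) (hL i hi) hΦ0 hmem ha, sum_comm]
  apply sum_congr rfl
  intro γ _
  apply sum_congr rfl
  intro a _
  refine congrArg₂ (fun x y : ℝ => x - y) rfl (congrArg Real.log ?_)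
  unfold nvL
  exact ng_any _ _ fun b => Iff.rfl

end

section

variable {F : Type*} [Field F]

/-- **the sum over the scales**, arbitrary sets -/
theorem arc_gen {δ : ℝ} (hδ : 0 < δ) (hδ1 : δ ≤ 1) (σ : F →+* ℂ)
    (A : Finset (F × F)) (J : Finset ℤ) (L : ℤ → F × F → ζ)
    (hL : ∀ i ∈ J, ArcLab σ A i (L i)) :
    ∑ i ∈ J, ∑ a ∈ A, Real.log (ct A (L i) a) ≤
      160 * δ * (J.card * (A.card * Real.log (A.card : ℝ))) +
      400 * (2 * (40 + Real.exp (1 / δ)) * Real.log (A.card : ℝ) +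
        (1 + 2 * Real.log (A.card : ℝ))) * (A.card * Real.log (A.card : ℝ)) := by
  obtain ⟨T, hT⟩ := scales (((A ×ˢ A).filter fun c => c.1.2 ≠ c.2.2).image
    fun c => ‖σ (c.2.2 - c.1.2)‖) (by
    intro d hd
    obtain ⟨c, hc, rfl⟩ := mem_image.1 hd
    have h1 := (mem_filter.1 hc).2
    rw [norm_pos_iff]
    intro h2
    exact h1 (sub_eq_zero.1 (σ.injective (by rw [h2, map_zero]))).symm)
  have hT' : ∀ a ∈ A, ∀ b ∈ A, a.2 ≠ b.2 →
      (3 : ℝ) ^ (-(T : ℤ)) ≤ ‖σ (b.2 - a.2)‖ ∧ ‖σ (b.2 - a.2)‖ < 3 ^ (T : ℤ) := by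
    intro a ha b hb hab
    exact hT _ (mem_image.2 ⟨(a, b), mem_filter.2 ⟨mem_product.2 ⟨ha, hb⟩, hab⟩, rfl⟩)
  have hcell : ∀ (g : Bool × Bool) (u : ℤ) (x y : F), cell g u (σ x) = cell g u (σ y) →
      cell g (u + 1) (σ x) = cell g (u + 1) (σ y) := fun g u x y h => cell_nest_add h 1
  have key : ∀ g ∈ (univ : Finset ((Bool × Bool) × (Bool × Bool))),
      ∑ i ∈ J, ∑ n ∈ range (2 * T), ∑ a ∈ A,
        (Real.log (cbL σ A (L i) i (-(T : ℤ) - 2 + n) g a) -
          Real.log (nbL σ A (L i) i (-(T : ℤ) - 2 + n) g a)) ≤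
      10 * δ * (J.card * (A.card * Real.log (A.card : ℝ))) +
      25 * (2 * (40 + Real.exp (1 / δ)) * Real.log (A.card : ℝ) +
        (1 + 2 * Real.log (A.card : ℝ))) * (A.card * Real.log (A.card : ℝ)) := by
    intro g _
    have h := gen_sum (c := 5) (ζ := ζ) hδ hδ1 A J (range (2 * T))
      (I := (J ×ˢ range (2 * T)).image fun p => -(T : ℤ) - 2 + p.2 - p.1)
      (I' := (range (2 * T)).image fun n : ℕ => -(T : ℤ) - 2 + n)
      (f := fun i n => -(T : ℤ) - 2 + n - i)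
      (g := fun _ n => -(T : ℤ) - 2 + n)
      (fun i hi n hn => mem_image.2 ⟨(i, n), mem_product.2 ⟨hi, hn⟩, rfl⟩)
      (fun i _ n hn => mem_image.2 ⟨n, hn, rfl⟩)
      (by
        intro i hi n hn i' hi' n' hn' h1 h2
        constructor <;> omega)
      (Pc := fun u b => cell g.1 (u + 5) (σ b.1)) (Pf := fun u b => cell g.1 u (σ b.1))
      (Qc := fun u b => cell g.2 (u + 5) (σ b.2)) (Qf := fun u b => cell g.2 u (σ b.2))
      (by norm_num)
      (tel_int A (fun u b => cell g.1 u (σ b.1)) (fun u a _ b _ h => hcell _ _ _ _ h) _ id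
        (Set.injOn_id _) _ (fun _ _ => rfl) _ (fun _ _ => rfl))
      (tel_int A (fun u b => cell g.2 u (σ b.2)) (fun u a _ b _ h => hcell _ _ _ _ h) _ id
        (Set.injOn_id _) _ (fun _ _ => rfl) _ (fun _ _ => rfl))
      (by
        intro i hi
        refine tel_int A (fun u => lab (fun b => cell g.1 (u - i) (σ b.1))
          (fun b => cell g.2 u (σ b.2))) ?_ _ (fun n : ℕ => -(T : ℤ) - 2 + n) ?_ _ ?_ _
          (fun _ _ => rfl)
        · intro u a _ b _ h
          simp only [lab, Prod.mk.injEq] at h ⊢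
          have h1 := hcell _ _ _ _ h.1
          have e : u - i + 1 = u + 1 - i := by ring
          rw [e] at h1
          exact ⟨h1, hcell _ _ _ _ h.2⟩
        · intro x _ y _ h
          simp only at h
          omega
        · intro l _
          have e : -(T : ℤ) - 2 + l - i + 5 = -(T : ℤ) - 2 + l + 5 - i := by ring
          simp only [e])
      L
    refine le_trans (le_of_eq ?_) (h.trans (le_of_eq (by ring)))
    apply sum_congr rfl
    intro i _
    apply sum_congr rfl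
    intro n _
    apply sum_congr rfl
    intro a _
    refine congrArg₂ (fun x y : ℝ => x - y) rfl (congrArg Real.log ?_)
    unfold nbL
    exact ng_any _ _ fun b => Iff.rfl
  have one : ∀ i ∈ J, ∑ a ∈ A, Real.log (ct A (L i) a) ≤
      ∑ g : (Bool × Bool) × (Bool × Bool), ∑ n ∈ range (2 * T), ∑ a ∈ A,
        (Real.log (cbL σ A (L i) i (-(T : ℤ) - 2 + n) g a) -
          Real.log (nbL σ A (L i) i (-(T : ℤ) - 2 + n) g a)) := by
    intro i hi
    have h3 := sum_le_sum fun a (ha : a ∈ A) => arc_fibreL σ (hL i hi) hT' ha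
    refine h3.trans (le_of_eq ?_)
    rw [sum_comm, sum_comm (s := univ)]
    apply sum_congr rfl
    intro n _
    rw [sum_comm]
  refine (sum_le_sum one).trans ?_
  rw [sum_comm]
  refine (sum_le_sum key).trans (le_of_eq ?_)
  rw [sum_const, nsmul_eq_mul]
  have e16 : ((univ : Finset ((Bool × Bool) × (Bool × Bool))).card : ℝ) = 16 := by
    norm_num [Finset.card_univ]
  rw [e16]
  ring

end

end Pool.Agent.H85.AK
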