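import Pool.Agent.H85.AK.Gen3
import Pool.Agent.H225.AKLevels

/-!
The number of exceptional slopes: valuations and archimedean scales.
-/

set_option autoImplicit false

namespace Pool.Agent.H85.AK

open Finset
open scoped Classical

/-- a label with few values -/
theorem low_one {α ζ : Type*} {ε : ℝ} {A : Finset α} (hA : 2 ≤ A.card) {z : α → ζ}
    (h : ((A.image z).card : ℝ) ≤ (A.card : ℝ) ^ (1 - ε)) :
    ε * (A.card * Real.log (A.card : ℝ)) ≤ ∑ a ∈ A, Real.log (ct A z a) := by
  have hne : A.Nonempty := card_pos.1 (by omega)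
  have hA0 : (0 : ℝ) < A.card := by exact_mod_cast card_pos.2 hne
  have h1 := image_log hne h
  rw [Real.log_rpow hA0] at h1
  refine le_trans (le_of_eq ?_) h1
  ring

theorem val_const {ε : ℝ} (hε : 0 < ε) (hε1 : ε ≤ 1) {S k : ℝ} (hS : Real.log 2 ≤ S)
    (h : ε / 2 * k ≤ 2 * (40 + Real.exp (1 / (ε / 4))) * S + (1 + 2 * S)) :
    k ≤ Real.exp (6 / ε) * S := by
  have hl := Real.log_two_gt_d9
  have hS0 : 0 < S := by linarith
  set x : ℝ := 1 / ε with hx
  have hx1 : 1 ≤ x := by
    rw [hx, le_div_iff₀ hε]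
    linarith
  have e1 : 1 / (ε / 4) = 4 * x := by
    rw [hx]
    field_simp
  have e2 : 6 / ε = 4 * x + 2 * x := by
    rw [hx]
    ring
  rw [e1] at h
  rw [e2, Real.exp_add]
  set y : ℝ := Real.exp (4 * x) with hy
  have r1 : 2 * (40 + y) * S + (1 + 2 * S) ≤ (84 + 2 * y) * S := by nlinarith
  have r2 : k ≤ 2 * x * ((84 + 2 * y) * S) := by
    have h1 := mul_le_mul_of_nonneg_left (h.trans r1) (show 0 ≤ 2 * x by linarith)
    have e3 : 2 * x * (ε / 2 * k) = k := by
      rw [hx]
      field_simp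
    rw [e3] at h1
    exact h1
  -- exponentials
  have y1 : (54.5 : ℝ) ≤ y := by
    have h1 := Real.exp_one_gt_d9
    have h2 : Real.exp 4 ≤ y := Real.exp_le_exp.2 (by linarith)
    have h3 : Real.exp 4 = Real.exp 1 ^ 4 := by
      rw [← Real.exp_nat_mul]
      norm_num
    have h4 : (2.718 : ℝ) ^ 4 ≤ Real.exp 1 ^ 4 :=
      pow_le_pow_left₀ (by norm_num) (by linarith) 4
    norm_num at h4
    linarith
  have y2 : 7.38 * (2 * x - 1) ≤ Real.exp (2 * x) := by
    have h1 := Real.exp_one_gt_d9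
    have h2 := Real.add_one_le_exp (2 * x - 2)
    have h3 : Real.exp (2 * x) = Real.exp 1 ^ 2 * Real.exp (2 * x - 2) := by
      rw [← Real.exp_nat_mul, ← Real.exp_add]
      congr 1
      push_cast
      ring
    rw [h3]
    have h4 : 7.38 ≤ Real.exp 1 ^ 2 := by nlinarith
    have h5 : 2 * x - 1 ≤ Real.exp (2 * x - 2) := by linarith
    calc 7.38 * (2 * x - 1) ≤ Real.exp 1 ^ 2 * (2 * x - 1) :=
          mul_le_mul_of_nonneg_right h4 (by linarith)
      _ ≤ Real.exp 1 ^ 2 * Real.exp (2 * x - 2) :=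
          mul_le_mul_of_nonneg_left h5 (by positivity)
  have r3 : 2 * x * (84 + 2 * y) ≤ y * Real.exp (2 * x) := by
    have h1 : y * (7.38 * (2 * x - 1)) ≤ y * Real.exp (2 * x) :=
      mul_le_mul_of_nonneg_left y2 (by linarith)
    refine le_trans ?_ h1
    have h2 : 0 ≤ (y - 54.5) * x := mul_nonneg (by linarith) (by linarith)
    have h3 : 0 ≤ (x - 1) * y := mul_nonneg (by linarith) (by linarith)
    nlinarith
  calc k ≤ 2 * x * ((84 + 2 * y) * S) := r2
    _ = 2 * x * (84 + 2 * y) * S := by ring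
    _ ≤ y * Real.exp (2 * x) * S := mul_le_mul_of_nonneg_right r3 hS0.le

theorem arc_const {ε : ℝ} (hε : 0 < ε) (hε1 : ε ≤ 1) {S k : ℝ} (hS : Real.log 2 ≤ S)
    (h : ε / 2 * k ≤ 400 * (2 * (40 + Real.exp (1 / (ε / 320))) * S + (1 + 2 * S))) :
    k ≤ Real.exp (330 / ε) * S := by
  have hl := Real.log_two_gt_d9
  have hS0 : 0 < S := by linarith
  set x : ℝ := 1 / ε with hx
  have hx1 : 1 ≤ x := by
    rw [hx, le_div_iff₀ hε]
    linarith
  have e1 : 1 / (ε / 320) = 320 * x := by
    rw [hx]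
    field_simp
  have e2 : 330 / ε = 330 * x := by
    rw [hx]
    ring
  rw [e1] at h
  rw [e2]
  set y : ℝ := Real.exp (320 * x) with hy
  have r1 : 400 * (2 * (40 + y) * S + (1 + 2 * S)) ≤ 400 * ((84 + 2 * y) * S) := by nlinarith
  have r2 : k ≤ 2 * x * (400 * ((84 + 2 * y) * S)) := by
    have h1 := mul_le_mul_of_nonneg_left (h.trans r1) (show 0 ≤ 2 * x by linarith)
    have e3 : 2 * x * (ε / 2 * k) = k := by
      rw [hx]
      field_simp
    rw [e3] at h1
    exact h1
  have y1 : (321 : ℝ) ≤ y := by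
    have h1 := Real.add_one_le_exp (320 * x)
    linarith
  have r3 : 800 * x * (84 + 2 * y) ≤ 3200 * x * (2 + y) := by
    have h2 : 0 ≤ (y - 321) * x := mul_nonneg (by linarith) (by linarith)
    nlinarith
  have r4 := exp_bound3 hx1
  calc k ≤ 2 * x * (400 * ((84 + 2 * y) * S)) := r2
    _ = 800 * x * (84 + 2 * y) * S := by ring
    _ ≤ 3200 * x * (2 + y) * S := mul_le_mul_of_nonneg_right r3 hS0.le
    _ ≤ Real.exp (330 * x) * S := mul_le_mul_of_nonneg_right r4 hS0.le

theorem swap_image {F : Type*} [Field F] (A : Finset (F × F)) (r : F) :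
    (A.image Prod.swap).image (fun b : F × F => r * b.1 + b.2) =
      A.image fun a : F × F => a.1 + r * a.2 := by
  rw [image_image]
  apply image_congr
  intro a _
  show r * a.2 + a.1 = a.1 + r * a.2
  ring

/-- **exceptional slopes have few valuations** -/
theorem val_cnt1 {ε : ℝ} (hε : 0 < ε) (hε1 : ε ≤ 1) {F : Type} [Field F] {Γ₀ : Type}
    [LinearOrderedCommGroupWithZero Γ₀] (v : Valuation F Γ₀) (A : Finset (F × F))
    (hA : 2 ≤ A.card) (R : Finset F) (hR0 : ∀ r ∈ R, r ≠ 0)
    (h : ∀ r ∈ R, ((A.image fun a : F × F => a.1 + r * a.2).card : ℝ) ≤ (A.card : ℝ) ^ (1 - ε)) :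
    ((R.image v).card : ℝ) ≤ Real.exp (6 / ε) * Real.log (A.card : ℝ) := by
  set B : Finset (F × F) := A.image Prod.swap with hB
  have hBc : B.card = A.card := card_image_of_injective _ Prod.swap_injective
  have hn : (2 : ℝ) ≤ B.card := by
    rw [hBc]
    exact_mod_cast hA
  have hS : Real.log 2 ≤ Real.log (B.card : ℝ) := Real.log_le_log (by norm_num) hn
  have hl := Real.log_two_gt_d9
  have hS0 : 0 < Real.log (B.card : ℝ) := by linarith
  have hex : ∀ ρ : Γ₀, ∃ r : F, ρ ∈ R.image v → r ∈ R ∧ v r = ρ := by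
    intro ρ
    by_cases hρ : ρ ∈ R.image v
    · obtain ⟨r, h1, h2⟩ := mem_image.1 hρ
      exact ⟨r, fun _ => ⟨h1, h2⟩⟩
    · exact ⟨0, fun h' => absurd h' hρ⟩
  choose r hr using hex
  have h1 := val_gen Pool.Agent.H225.AKLevels.s_levels (δ := ε / 4) (by linarith) (by linarith) v B
    (R.image v) (by
      intro ρ hρ
      obtain ⟨r', hr', rfl⟩ := mem_image.1 hρ
      exact (Valuation.ne_zero_iff v).2 (hR0 r' hr'))
    (fun ρ b => r ρ * b.1 + b.2) (by
      intro ρ hρ a _ b _ hab
      rw [fibre_val v hab, (hr ρ hρ).2])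
  have h2 : (R.image v).card * (ε * (B.card * Real.log (B.card : ℝ))) ≤
      ∑ ρ ∈ R.image v, ∑ a ∈ B, Real.log (ct B (fun b => r ρ * b.1 + b.2) a) := by
    rw [← nsmul_eq_mul, ← sum_const]
    apply sum_le_sum
    intro ρ hρ
    apply low_one (by rw [hBc]; exact hA)
    have e := swap_image A (r ρ)
    rw [← hB] at e
    rw [e, hBc]
    exact h _ (hr ρ hρ).1
  have h3 := h2.trans h1
  have hM : 0 < (B.card : ℝ) * Real.log (B.card : ℝ) := by positivity
  have h4 : (ε / 2 * ((R.image v).card : ℝ)) * ((B.card : ℝ) * Real.log (B.card : ℝ)) ≤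
      (2 * (40 + Real.exp (1 / (ε / 4))) * Real.log (B.card : ℝ) +
        (1 + 2 * Real.log (B.card : ℝ))) * ((B.card : ℝ) * Real.log (B.card : ℝ)) := by
    have e1 : (ε / 2 * ((R.image v).card : ℝ)) * ((B.card : ℝ) * Real.log (B.card : ℝ)) =
        (R.image v).card * (ε * (B.card * Real.log (B.card : ℝ))) -
        2 * (ε / 4) * ((R.image v).card * (B.card * Real.log (B.card : ℝ))) := by ring
    rw [e1]
    linarith
  have h5 := val_const hε hε1 hS (le_of_mul_le_mul_right h4 hM)
  rw [hBc] at h5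
  exact h5

/-- **exceptional slopes have few scales** -/
theorem arc_cnt1 {ε : ℝ} (hε : 0 < ε) (hε1 : ε ≤ 1) {F : Type*} [Field F] (σ : F →+* ℂ)
    (A : Finset (F × F)) (hA : 2 ≤ A.card) (R : Finset F) (hR0 : ∀ r ∈ R, r ≠ 0)
    (h : ∀ r ∈ R, ((A.image fun a : F × F => a.1 + r * a.2).card : ℝ) ≤ (A.card : ℝ) ^ (1 - ε)) :
    ((R.image fun r => Int.log 3 ‖σ r‖).card : ℝ) ≤
      Real.exp (330 / ε) * Real.log (A.card : ℝ) := by
  set B : Finset (F × F) := A.image Prod.swap with hB
  have hBc : B.card = A.card := card_image_of_injective _ Prod.swap_injective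
  have hn : (2 : ℝ) ≤ B.card := by
    rw [hBc]
    exact_mod_cast hA
  have hS : Real.log 2 ≤ Real.log (B.card : ℝ) := Real.log_le_log (by norm_num) hn
  have hl := Real.log_two_gt_d9
  have hS0 : 0 < Real.log (B.card : ℝ) := by linarith
  set J : Finset ℤ := R.image fun r => Int.log 3 ‖σ r‖ with hJ
  have hex : ∀ i : ℤ, ∃ r : F, i ∈ J → r ∈ R ∧ Int.log 3 ‖σ r‖ = i := by
    intro i
    by_cases hi : i ∈ J
    · obtain ⟨r, h1, h2⟩ := mem_image.1 hi
      exact ⟨r, fun _ => ⟨h1, h2⟩⟩
    · exact ⟨0, fun h' => absurd h' hi⟩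
  choose r hr using hex
  have h1 := arc_gen (δ := ε / 320) (by linarith) (by linarith) σ B J
    (fun i b => r i * b.1 + b.2) (by
      intro i hi a _ b _ hab
      have h5 := fibre_norm σ hab
      obtain ⟨h3, h4⟩ := hr i hi
      have h6 := hR0 _ h3
      have hpos : 0 < ‖σ (r i)‖ := by
        rw [norm_pos_iff]
        exact (map_ne_zero σ).2 h6
      have l1 : (3 : ℝ) ^ i ≤ ‖σ (r i)‖ := by
        have := Int.zpow_log_le_self (b := 3) (by norm_num) hpos
        rw [h4] at this
        exact_mod_cast this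
      have l2 : ‖σ (r i)‖ < (3 : ℝ) ^ (i + 1) := by
        have := Int.lt_zpow_succ_log_self (b := 3) (by norm_num) ‖σ (r i)‖
        rw [h4] at this
        exact_mod_cast this
      rw [h5]
      exact ⟨mul_le_mul_of_nonneg_right l1 (norm_nonneg _),
        mul_le_mul_of_nonneg_right l2.le (norm_nonneg _)⟩)
  have h2 : J.card * (ε * (B.card * Real.log (B.card : ℝ))) ≤
      ∑ i ∈ J, ∑ a ∈ B, Real.log (ct B (fun b => r i * b.1 + b.2) a) := by
    rw [← nsmul_eq_mul, ← sum_const]
    apply sum_le_sum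
    intro i hi
    apply low_one (by rw [hBc]; exact hA)
    have e := swap_image A (r i)
    rw [← hB] at e
    rw [e, hBc]
    exact h _ (hr i hi).1
  have h3 := h2.trans h1
  have hM : 0 < (B.card : ℝ) * Real.log (B.card : ℝ) := by positivity
  have h4 : (ε / 2 * (J.card : ℝ)) * ((B.card : ℝ) * Real.log (B.card : ℝ)) ≤
      (400 * (2 * (40 + Real.exp (1 / (ε / 320))) * Real.log (B.card : ℝ) +
        (1 + 2 * Real.log (B.card : ℝ)))) * ((B.card : ℝ) * Real.log (B.card : ℝ)) := by
    have e1 : (ε / 2 * (J.card : ℝ)) * ((B.card : ℝ) * Real.log (B.card : ℝ)) =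
        J.card * (ε * (B.card * Real.log (B.card : ℝ))) -
        160 * (ε / 320) * (J.card * (B.card * Real.log (B.card : ℝ))) := by ring
    rw [e1]
    linarith
  have h5 := arc_const hε hε1 hS (le_of_mul_le_mul_right h4 hM)
  rw [hBc] at h5
  exact h5

/-- a set of pairs of vectors as a set of pairs of scalars -/
theorem vec_pairs {F V : Type} [Field F] [Infinite F] [AddCommGroup V] [Module F V]
    (E : Finset (V × V)) (ε : ℝ) (R : Finset F)
    (h : ∀ r ∈ R, ((E.image fun e : V × V => e.1 + r • e.2).card : ℝ) ≤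
      (E.card : ℝ) ^ (1 - ε)) :
    ∃ A : Finset (F × F), A.card = E.card ∧ ∀ r ∈ R,
      ((A.image fun a : F × F => a.1 + r * a.2).card : ℝ) ≤ (A.card : ℝ) ^ (1 - ε) := by
  obtain ⟨f, hf1, hf2⟩ := exists_dual_inj (F := F) (E.image Prod.fst) (E.image Prod.snd)
  have hinj : Set.InjOn (fun e : V × V => (f e.1, f e.2)) (E : Set (V × V)) := by
    intro a ha b hb hab
    simp only [Prod.mk.injEq] at hab
    exact Prod.ext (hf1 (mem_image_of_mem _ ha) (mem_image_of_mem _ hb) hab.1)
      (hf2 (mem_image_of_mem _ ha) (mem_image_of_mem _ hb) hab.2)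
  have hc := card_image_of_injOn hinj
  refine ⟨E.image fun e => (f e.1, f e.2), hc, ?_⟩
  intro r hr
  rw [hc]
  refine le_trans (Nat.cast_le.2 ?_) (h r hr)
  have e : (E.image fun e => (f e.1, f e.2)).image (fun a : F × F => a.1 + r * a.2) =
      (E.image fun e : V × V => e.1 + r • e.2).image f := by
    rw [image_image, image_image]
    apply image_congr
    intro e _
    show f e.1 + r * f e.2 = f (e.1 + r • e.2)
    rw [map_add, map_smul]
    rfl
  rw [e]
  exact card_image_le

theorem card_image_any {α β : Type*} (i1 i2 : DecidableEq β) (s : Finset α) (f : α → β) :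
    (@Finset.image α β i1 f s).card = (@Finset.image α β i2 f s).card := by
  have h : i1 = i2 := Subsingleton.elim _ _
  rw [h]

/-- **exceptional slopes have few valuations**, pairs of vectors -/
theorem val_cnt {ε : ℝ} (hε : 0 < ε) (hε1 : ε ≤ 1) {F V : Type} [Field F] {Γ₀ : Type}
    [LinearOrderedCommGroupWithZero Γ₀] (v : Valuation F Γ₀) [AddCommGroup V] [Module F V]
    (E : Finset (V × V)) (hE : 2 ≤ E.card) (R : Finset F) (hR0 : ∀ r ∈ R, r ≠ 0)
    (h : ∀ r ∈ R, ((E.image fun e : V × V => e.1 + r • e.2).card : ℝ) ≤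
      (E.card : ℝ) ^ (1 - ε)) :
    ((R.image v).card : ℝ) ≤ Real.exp (6 / ε) * Real.log (E.card : ℝ) := by
  rcases finite_or_infinite F with hfin | hinf
  · have hn : (2 : ℝ) ≤ E.card := by exact_mod_cast hE
    have hS : Real.log 2 ≤ Real.log (E.card : ℝ) := Real.log_le_log (by norm_num) hn
    have hl := Real.log_two_gt_d9
    have h1 : (R.image v).card ≤ 1 := by
      apply card_le_one.2
      intro a ha b hb
      obtain ⟨r, hr, rfl⟩ := mem_image.1 ha
      obtain ⟨r', hr', rfl⟩ := mem_image.1 hb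
      rw [val_one_of_finite v (hR0 r hr), val_one_of_finite v (hR0 r' hr')]
    have h2 : ((R.image v).card : ℝ) ≤ 1 := by exact_mod_cast h1
    have h3 : (2 : ℝ) ≤ Real.exp (6 / ε) := by
      have h4 := Real.add_one_le_exp (6 / ε)
      have h5 : (6 : ℝ) ≤ 6 / ε := by
        rw [le_div_iff₀ hε]
        linarith
      linarith
    nlinarith
  · obtain ⟨A, hA1, hA2⟩ := vec_pairs E ε R h
    have h1 := val_cnt1 hε hε1 v A (by omega) R hR0 hA2
    rw [hA1] at h1
    exact h1

/-- **exceptional slopes have few scales**, pairs of vectors -/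
theorem arc_cnt {ε : ℝ} (hε : 0 < ε) (hε1 : ε ≤ 1) {F V : Type} [Field F] (σ : F →+* ℂ)
    [AddCommGroup V] [Module F V]
    (E : Finset (V × V)) (hE : 2 ≤ E.card) (R : Finset F) (hR0 : ∀ r ∈ R, r ≠ 0)
    (h : ∀ r ∈ R, ((E.image fun e : V × V => e.1 + r • e.2).card : ℝ) ≤
      (E.card : ℝ) ^ (1 - ε)) :
    ((R.image fun r => Int.log 3 ‖σ r‖).card : ℝ) ≤
      Real.exp (330 / ε) * Real.log (E.card : ℝ) := by
  have hchar : CharZero F := RingHom.charZero σ
  have hinf : Infinite F := Infinite.of_injective (fun n : ℕ => (n : F)) Nat.cast_injective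
  obtain ⟨A, hA1, hA2⟩ := vec_pairs E ε R h
  have h1 := arc_cnt1 hε hε1 σ A (by omega) R hR0 hA2
  rw [hA1] at h1
  exact h1

/-- a linear change of coordinates -/
theorem mob_pairs {F V : Type} [Field F] [AddCommGroup V] [Module F V] {a b c d : F}
    (hdet : a * d - b * c ≠ 0) (E : Finset (V × V)) (ε : ℝ) :
    ∃ E' : Finset (V × V), E'.card = E.card ∧ ∀ r : F, c + d * r ≠ 0 →
      ((E.image fun e : V × V => e.1 + r • e.2).card : ℝ) ≤ (E.card : ℝ) ^ (1 - ε) →
      ((E'.image fun e : V × V => e.1 + ((a + b * r) / (c + d * r)) • e.2).card : ℝ) ≤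
        (E'.card : ℝ) ^ (1 - ε) := by
  have hinj : Function.Injective fun e : V × V => (b • e.1 - a • e.2, c • e.2 - d • e.1) := by
    rintro ⟨x, y⟩ ⟨x', y'⟩ h
    simp only [Prod.mk.injEq] at h
    obtain ⟨h1, h2⟩ := h
    have e1 : (a * d - b * c) • (x - x') = 0 := by
      have h3 : c • (b • x - a • y) + a • (c • y - d • x) =
          c • (b • x' - a • y') + a • (c • y' - d • x') := by rw [h1, h2]
      have h4 : (a * d - b * c) • (x - x') = -((c • (b • x - a • y) + a • (c • y - d • x)) -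
          (c • (b • x' - a • y') + a • (c • y' - d • x'))) := by
        module
      rw [h4, h3, sub_self, neg_zero]
    have e2 : (a * d - b * c) • (y - y') = 0 := by
      have h3 : d • (b • x - a • y) + b • (c • y - d • x) =
          d • (b • x' - a • y') + b • (c • y' - d • x') := by rw [h1, h2]
      have h4 : (a * d - b * c) • (y - y') = -((d • (b • x - a • y) + b • (c • y - d • x)) -
          (d • (b • x' - a • y') + b • (c • y' - d • x'))) := by
        module
      rw [h4, h3, sub_self, neg_zero]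
    rcases smul_eq_zero.1 e1 with h3 | h3
    · exact absurd h3 hdet
    rcases smul_eq_zero.1 e2 with h4 | h4
    · exact absurd h4 hdet
    exact Prod.ext (sub_eq_zero.1 h3) (sub_eq_zero.1 h4)
  have hc : (E.image fun e : V × V => (b • e.1 - a • e.2, c • e.2 - d • e.1)).card = E.card :=
    card_image_of_injective _ hinj
  refine ⟨E.image fun e : V × V => (b • e.1 - a • e.2, c • e.2 - d • e.1), hc, ?_⟩
  intro r hr h
  rw [hc]
  refine le_trans (Nat.cast_le.2 ?_) h
  have e : (E.image fun e : V × V => (b • e.1 - a • e.2, c • e.2 - d • e.1)).image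
      (fun e : V × V => e.1 + ((a + b * r) / (c + d * r)) • e.2) =
      (E.image fun e : V × V => e.1 + r • e.2).image
        fun u => ((b * c - a * d) / (c + d * r)) • u := by
    rw [image_image, image_image]
    apply image_congr
    intro e _
    show (b • e.1 - a • e.2) + ((a + b * r) / (c + d * r)) • (c • e.2 - d • e.1) =
      ((b * c - a * d) / (c + d * r)) • (e.1 + r • e.2)
    have e3 : (a + b * r) / (c + d * r) * d = b - (b * c - a * d) / (c + d * r) := by
      rw [eq_sub_iff_add_eq, div_mul_eq_mul_div, ← add_div, div_eq_iff hr]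
      ring
    have e4 : (a + b * r) / (c + d * r) * c = a + (b * c - a * d) / (c + d * r) * r := by
      rw [div_mul_eq_mul_div, div_mul_eq_mul_div, ← sub_eq_iff_eq_add, ← sub_div, div_eq_iff hr]
      ring
    rw [smul_sub, smul_smul, smul_smul, e3, e4]
    module
  rw [e]
  exact card_image_le

end Pool.Agent.H85.AK
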