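import Pool.Agent.H85.AK.Lin1
import Pool.Agent.H591.AKVal
import Pool.Agent.H947.AKRank
import Pool.Agent.H236.AKUnit
import Pool.Agent.H225.AKLevels
import Pool.Agent.H297.AKLin

/-!
Finitely generated groups of scalars (linear dependence on the popularity).
-/

set_option autoImplicit false

namespace Pool.Agent.H85.AK

open Finset
open scoped Pointwise

theorem exists_reps {α β : Type*} [DecidableEq α] [DecidableEq β] (S : Finset α) (f : α → β) :
    ∃ T ⊆ S, T.card = (S.image f).card ∧ Set.InjOn f (T : Set α) := by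
  have h : ∀ b : β, ∃ a : Option α, b ∈ S.image f → ∃ a', a = some a' ∧ a' ∈ S ∧ f a' = b := by
    intro b
    by_cases hb : b ∈ S.image f
    · obtain ⟨a, ha, h⟩ := mem_image.1 hb
      exact ⟨some a, fun _ => ⟨a, rfl, ha, h⟩⟩
    · exact ⟨none, fun h => absurd h hb⟩
  choose g hg using h
  refine ⟨S.filter fun a => g (f a) = some a, filter_subset _ _, ?_, ?_⟩
  · have e : (S.filter fun a => g (f a) = some a).image f = S.image f := by
      ext b
      constructor
      · intro hb
        obtain ⟨a, ha, rfl⟩ := mem_image.1 hb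
        exact mem_image_of_mem _ (mem_filter.1 ha).1
      · intro hb
        obtain ⟨a', h1, h2, h3⟩ := hg b hb
        refine mem_image.2 ⟨a', mem_filter.2 ⟨h2, ?_⟩, h3⟩
        rw [h3, h1]
    rw [← e]
    symm
    apply card_image_of_injOn
    intro a ha a' ha' h
    have h1 := (mem_filter.1 (mem_coe.1 ha)).2
    have h2 := (mem_filter.1 (mem_coe.1 ha')).2
    rw [h, h2] at h1
    exact (Option.some.inj h1).symm
  · intro a ha a' ha' h
    have h1 := (mem_filter.1 (mem_coe.1 ha)).2
    have h2 := (mem_filter.1 (mem_coe.1 ha')).2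
    rw [h, h2] at h1
    exact (Option.some.inj h1).symm

section grp

variable {F : Type} [Field F] {M : Type} [AddCommGroup M] {g : M → F}

theorem g_ne (h0 : g 0 = 1) (hm : ∀ m n, g (m + n) = g m * g n) (m : M) : g m ≠ 0 := by
  intro h
  have h1 := hm m (-m)
  rw [add_neg_cancel, h0, h, zero_mul] at h1
  exact one_ne_zero h1

theorem g_nsmul (h0 : g 0 = 1) (hm : ∀ m n, g (m + n) = g m * g n) (m : M) (k : ℕ) :
    g (k • m) = g m ^ k := by
  induction k with
  | zero => rw [zero_smul, pow_zero, h0]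
  | succ k ih => rw [succ_nsmul, hm, ih, pow_succ]

/-- the elements of valuation one -/
def kerv {Γ₀ : Type} [LinearOrderedCommGroupWithZero Γ₀] (v : Valuation F Γ₀) (g : M → F)
    (h0 : g 0 = 1) (hm : ∀ m n, g (m + n) = g m * g n) : AddSubgroup M where
  carrier := {m | v (g m) = 1}
  zero_mem' := by
    show v (g 0) = 1
    rw [h0, map_one]
  add_mem' := by
    intro a b ha hb
    show v (g (a + b)) = 1
    rw [hm, map_mul, show v (g a) = 1 from ha, show v (g b) = 1 from hb, one_mul]
  neg_mem' := by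
    intro a ha
    show v (g (-a)) = 1
    have h1 := hm a (-a)
    rw [add_neg_cancel, h0] at h1
    have h2 := congrArg v h1
    rw [map_one, map_mul, show v (g a) = 1 from ha, one_mul] at h2
    exact h2.symm

theorem kerv_sat {Γ₀ : Type} [LinearOrderedCommGroupWithZero Γ₀] (v : Valuation F Γ₀)
    (h0 : g 0 = 1) (hm : ∀ m n, g (m + n) = g m * g n) (n : ℤ) (m : M) (hn : n ≠ 0)
    (h : n • m ∈ kerv v g h0 hm) : m ∈ kerv v g h0 hm := by
  have h1 : n.natAbs • m ∈ kerv v g h0 hm := by
    rcases Int.natAbs_eq n with h2 | h2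
    · rw [h2, natCast_zsmul] at h
      exact h
    · rw [h2, neg_smul, natCast_zsmul] at h
      exact (AddSubgroup.neg_mem_iff _).1 h
  have h2 : v (g (n.natAbs • m)) = 1 := h1
  rw [g_nsmul h0 hm, map_pow] at h2
  exact (pow_eq_one_iff_of_nonneg zero_le' (Int.natAbs_ne_zero.2 hn)).1 h2

end grp

/-- the statement of the theorem for one group -/
def PopL (F : Type) [Field F] (M : Type) [AddCommGroup M] (n : ℕ) (g : M → F) (ε C0 : ℝ) : Prop :=
  ∀ (V : Type) [AddCommGroup V] [Module F V] [DecidableEq V] (A C B : Finset V) (K : ℝ)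
    (R : Finset M), 1 ≤ K → K ≤ (C.card : ℝ) ^ (ε / 2) → 2 ≤ C.card → B.Nonempty →
    (∀ m ∈ R, (C.card : ℝ) ≤ K * ((C.filter fun c => g m • c ∈ A).card : ℝ)) →
    (C0 * K * Real.log (C.card : ℝ)) ^ n < (R.card : ℝ) →
    ((C.card : ℝ) * B.card) ^ (1 - ε) < ((A + B).card : ℝ)

/-- bounds for a large constant -/
theorem L_bounds {C0 K : ℝ} {c : ℕ} (h2 : 2 ≤ C0) (hK : 1 ≤ K) (hc : 2 ≤ c) :
    1 ≤ C0 * K * Real.log (c : ℝ) := by
  have hc' : (2 : ℝ) ≤ c := by exact_mod_cast hc
  have h1 : Real.log 2 ≤ Real.log (c : ℝ) := Real.log_le_log (by norm_num) hc'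
  have h3 := Real.log_two_gt_d9
  calc (1 : ℝ) ≤ 2 * 1 * (1 / 2) := by norm_num
    _ ≤ C0 * K * Real.log (c : ℝ) :=
      mul_le_mul (mul_le_mul h2 hK (by norm_num) (by linarith)) (by linarith) (by norm_num)
        (by positivity)

/-- a non-trivial valuation -/
theorem group_val {F : Type} [Field F] {n : ℕ} {M : Type} [AddCommGroup M] [Module.Free ℤ M]
    [Module.Finite ℤ M] (hn : Module.finrank ℤ M = n) {g : M → F} (h0 : g 0 = 1)
    (hm : ∀ m n, g (m + n) = g m * g n) {ε : ℝ} (hε : 0 < ε) (hε1 : ε ≤ 1)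
    {m1 : M} (hm1 : ¬ IsIntegral ℤ (g m1))
    (ih : ∀ N : Submodule ℤ M, Module.finrank ℤ N < n → ∃ C1 : ℝ, 2 ≤ C1 ∧
      PopL F N (Module.finrank ℤ N) (fun m => g m) ε C1) :
    ∃ C0 : ℝ, 2 ≤ C0 ∧ PopL F M n g ε C0 := by
  classical
  obtain ⟨Γ₀, inst, v, hv⟩ := Pool.Agent.H591.AKVal.s_valex F (g m1) hm1
  set N : Submodule ℤ M := AddSubgroup.toIntSubmodule (kerv v g h0 hm) with hN
  have hNmem : ∀ m, m ∈ N ↔ v (g m) = 1 := fun m => Iff.rfl
  have hrank : Module.finrank ℤ N < n := by
    rw [← hn]
    apply Pool.Agent.H947.AKRank.s_rank M N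
    · intro k m hk h
      exact kerv_sat v h0 hm k m hk h
    · intro htop
      have h1 : m1 ∈ N := by
        rw [htop]
        exact Submodule.mem_top
      rw [hNmem] at h1
      rw [h1] at hv
      exact lt_irrefl _ hv
  obtain ⟨C1, hC1, hP⟩ := ih N hrank
  set E : ℝ := Real.exp (330 / ε) with hE
  have hE0 : 0 < E := Real.exp_pos _
  set C0 : ℝ := max (max C1 E) 2 with hC0
  have c1 : C1 ≤ C0 := (le_max_left _ _).trans (le_max_left _ _)
  have c2 : E ≤ C0 := (le_max_right _ _).trans (le_max_left _ _)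
  have c3 : 2 ≤ C0 := le_max_right _ _
  refine ⟨C0, c3, ?_⟩
  intro V _ _ _ A C B K R hK hKC hC2 hB hR hcard
  have hlogC : 0 ≤ Real.log (C.card : ℝ) := Real.log_natCast_nonneg _
  have hL := L_bounds c3 hK hC2
  have hK0 : 0 ≤ K := by linarith
  set L : ℝ := C0 * K * Real.log (C.card : ℝ) with hLd
  set W : Finset Γ₀ := R.image fun m => v (g m) with hW
  by_cases hWc : E * K * Real.log (C.card : ℝ) < (W.card : ℝ)
  · obtain ⟨T, hTR, hTc, hTinj⟩ := exists_reps R (fun m => v (g m))
    have hginj : Set.InjOn g (T : Set M) := by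
      intro a ha b hb h
      apply hTinj ha hb
      show v (g a) = v (g b)
      rw [h]
    have hcT : (T.image g).card = T.card := card_image_of_injOn hginj
    refine valP Pool.Agent.H225.AKLevels.s_levels hε hε1 v A C B K hK hKC hC2 hB (T.image g)
      ?_ ?_ ?_ ?_
    · intro r hr
      obtain ⟨m, _, rfl⟩ := mem_image.1 hr
      exact g_ne h0 hm m
    · intro r hr r' hr' h
      obtain ⟨m, hm', rfl⟩ := mem_image.1 (mem_coe.1 hr)
      obtain ⟨m', hm'', rfl⟩ := mem_image.1 (mem_coe.1 hr')
      rw [hTinj hm' hm'' h]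
    · intro r hr
      obtain ⟨m, hm', rfl⟩ := mem_image.1 hr
      exact hR m (hTR hm')
    · rw [hcT, hTc]
      exact hWc
  · push Not at hWc
    have hWL : (W.card : ℝ) ≤ L :=
      hWc.trans (mul_le_mul_of_nonneg_right (mul_le_mul_of_nonneg_right c2 hK0) hlogC)
    -- a large fibre
    obtain ⟨w, hw, hwc⟩ : ∃ w ∈ W, L ^ (Module.finrank ℤ N) <
        ((R.filter fun m => v (g m) = w).card : ℝ) := by
      by_contra hcon
      push Not at hcon
      have h1 : (R.card : ℝ) ≤ W.card * L ^ (Module.finrank ℤ N) := by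
        have h2 : R.card = ∑ w ∈ W, (R.filter fun m => v (g m) = w).card :=
          card_eq_sum_card_fiberwise fun m hm' => mem_image_of_mem _ hm'
        rw [h2]
        push_cast
        rw [← nsmul_eq_mul, ← sum_const]
        exact sum_le_sum hcon
      have h2 : (W.card : ℝ) * L ^ (Module.finrank ℤ N) ≤ L ^ n := by
        calc (W.card : ℝ) * L ^ (Module.finrank ℤ N) ≤ L * L ^ (Module.finrank ℤ N) :=
              mul_le_mul_of_nonneg_right hWL (by positivity)
          _ = L ^ (Module.finrank ℤ N + 1) := by ring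
          _ ≤ L ^ n := pow_le_pow_right₀ hL hrank
      linarith
    set Rw : Finset M := R.filter fun m => v (g m) = w with hRw
    have hRwne : Rw.Nonempty := by
      apply card_pos.1
      have h1 : (0 : ℝ) < Rw.card := lt_of_le_of_lt (by positivity) hwc
      exact_mod_cast h1
    obtain ⟨m0, hm0⟩ := hRwne
    have hsub : ∀ m ∈ Rw, m - m0 ∈ N := by
      intro m hm'
      rw [hNmem]
      have h1 := (mem_filter.1 hm').2
      have h2 := (mem_filter.1 hm0).2
      have h3 := hm (m - m0) m0
      rw [sub_add_cancel] at h3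
      have h4 := congrArg v h3
      rw [map_mul, h1, h2] at h4
      have hw0 : w ≠ 0 := by
        rw [← h2]
        exact (Valuation.ne_zero_iff v).2 (g_ne h0 hm m0)
      have h5 : 1 * w = v (g (m - m0)) * w := by rw [one_mul]; exact h4
      exact (mul_right_cancel₀ hw0 h5).symm
    set f : M → N := fun m => if h : m - m0 ∈ N then ⟨m - m0, h⟩ else 0 with hf
    have hfc : ∀ m ∈ Rw, ((f m : N) : M) = m - m0 := by
      intro m hm'
      simp only [hf]
      rw [dif_pos (hsub m hm')]
    have hfinj : Set.InjOn f (Rw : Set M) := by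
      intro a ha b hb h
      have h1 : ((f a : N) : M) = f b := congrArg (fun u : N => (u : M)) h
      rw [hfc a ha, hfc b hb] at h1
      exact sub_left_inj.1 h1
    have hg0 := g_ne h0 hm m0
    have hsm : Function.Injective fun c : V => g m0 • c := MulAction.injective₀ hg0
    have hCc : (C.image fun c => g m0 • c).card = C.card := card_image_of_injective _ hsm
    have key := hP V A (C.image fun c => g m0 • c) B K (Rw.image f) hK (by rw [hCc]; exact hKC)
      (by rw [hCc]; exact hC2) hB (by
      intro u hu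
      obtain ⟨m, hm', rfl⟩ := mem_image.1 hu
      rw [hCc]
      refine (hR m (mem_filter.1 hm').1).trans (mul_le_mul_of_nonneg_left (Nat.cast_le.2 ?_) hK0)
      apply card_le_card_of_injOn (fun s => g m0 • s)
      · intro s hs
        obtain ⟨h1, h2⟩ := mem_filter.1 hs
        refine mem_filter.2 ⟨mem_image_of_mem _ h1, ?_⟩
        have e : g (f m : N) • (g m0 • s) = g m • s := by
          rw [hfc m hm', smul_smul, ← hm, sub_add_cancel]
        show g (f m : N) • (g m0 • s) ∈ A
        rw [e]
        exact h2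
      · intro s _ s' _ h
        exact hsm h) (by
      rw [hCc, card_image_of_injOn hfinj]
      refine lt_of_le_of_lt ?_ hwc
      apply pow_le_pow_left₀ (by positivity)
      exact mul_le_mul_of_nonneg_right (mul_le_mul_of_nonneg_right c1 hK0) hlogC)
    rw [hCc] at key
    exact key

/-- a group of units -/
theorem group_unit {F : Type} [Field F] [CharZero F] {n : ℕ} {M : Type} [AddCommGroup M]
    [Module.Free ℤ M] [Module.Finite ℤ M] (hn : Module.finrank ℤ M = n) (hn0 : n ≠ 0) {g : M → F}
    (h0 : g 0 = 1)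
    (hm : ∀ m n, g (m + n) = g m * g n) (hinj : Function.Injective g) {ε : ℝ}
    (hε : 0 < ε) (hε1 : ε ≤ 1) (hint : ∀ m, IsIntegral ℤ (g m)) :
    ∃ C0 : ℝ, 2 ≤ C0 ∧ PopL F M n g ε C0 := by
  classical
  obtain ⟨k, instk, inst2, x, σ, hx, hfin⟩ :=
    Pool.Agent.H236.AK.s_unit Pool.Agent.H297.AKLin.s_lin F M g h0 hm hinj hint
  subst hn
  have hainj : Function.Injective (algebraMap k F) := (algebraMap k F).injective
  have hxm : ∀ m n, x (m + n) = x m * x n := by
    intro m n
    apply hainj
    rw [map_mul, hx, hx, hx, hm]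
  have hx0 : x 0 = 1 := by
    apply hainj
    rw [hx, h0, map_one]
  have hxne : ∀ m, x m ≠ 0 := fun m => g_ne hx0 hxm m
  set N0 : ℕ := hfin.toFinset.card with hN0
  have hN1 : 1 ≤ N0 := by
    apply card_pos.2
    refine ⟨0, ?_⟩
    rw [Set.Finite.mem_toFinset]
    intro j
    rw [hx0, map_one, norm_one]
    norm_num
  set E : ℝ := Real.exp (330 / ε) with hE
  have hE0 : 0 < E := Real.exp_pos _
  set C0 : ℝ := max (N0 * E) 2 with hC0
  have c2 : N0 * E ≤ C0 := le_max_left _ _
  have c3 : 2 ≤ C0 := le_max_right _ _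
  refine ⟨C0, c3, ?_⟩
  intro V _ _ _ A C B K R hK hKC hC2 hB hR hcard
  have hK0 : 0 ≤ K := by linarith
  have hlogC : 0 ≤ Real.log (C.card : ℝ) := Real.log_natCast_nonneg _
  set fl : Fin (Module.finrank ℤ M) → M → ℤ := fun j m => Int.log 3 ‖σ j (x m)‖ with hfl
  have hpos : ∀ j m, 0 < ‖σ j (x m)‖ := by
    intro j m
    rw [norm_pos_iff]
    exact (map_ne_zero (σ j)).2 (hxne m)
  have hfl1 : ∀ j m, (3 : ℝ) ^ (fl j m) ≤ ‖σ j (x m)‖ := by
    intro j m
    exact_mod_cast Int.zpow_log_le_self (b := 3) (by norm_num) (hpos j m)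
  have hfl2 : ∀ j m, ‖σ j (x m)‖ < (3 : ℝ) ^ (fl j m + 1) := by
    intro j m
    exact_mod_cast Int.lt_zpow_succ_log_self (b := 3) (by norm_num) ‖σ j (x m)‖
  by_cases hex : ∃ j, E * K * Real.log (C.card : ℝ) < ((R.image (fl j)).card : ℝ)
  · obtain ⟨j, hj⟩ := hex
    let _ : Module k V := Module.compHom V (algebraMap k F)
    have hr : ∀ i : ℤ, ∃ m : M, i ∈ R.image (fl j) → m ∈ R ∧ fl j m = i := by
      intro i
      by_cases hi : i ∈ R.image (fl j)
      · obtain ⟨m, h1, h2⟩ := mem_image.1 hi
        exact ⟨m, fun _ => ⟨h1, h2⟩⟩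
      · exact ⟨0, fun h => absurd h hi⟩
    choose r hr using hr
    refine arcP hε hε1 (σ j) A C B K hK hKC hC2 hB (R.image (fl j)) (fun i => x (r i)) ?_ ?_ hj
    · intro i hi
      obtain ⟨_, h2⟩ := hr i hi
      have h3 := hfl1 j (r i)
      have h4 := hfl2 j (r i)
      rw [h2] at h3 h4
      exact ⟨h3, h4⟩
    · intro i hi
      obtain ⟨h1, _⟩ := hr i hi
      have h2 := hR (r i) h1
      rw [← hx] at h2
      exact h2
  · push Not at hex
    exfalso
    -- all projections are small
    set T : ℝ := E * K * Real.log (C.card : ℝ) with hT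
    have hT0 : 0 ≤ T := by positivity
    have h1 : R.card ≤ N0 * (R.image fun m => fun j => fl j m).card := by
      apply card_le_mul_card_image
      intro a ha
      obtain ⟨m', hm', rfl⟩ := mem_image.1 ha
      apply card_le_card_of_injOn (fun m => m - m')
      · intro m hm1
        have h2 := (mem_filter.1 hm1).2
        rw [Set.Finite.coe_toFinset]
        intro j
        have h3 : fl j m = fl j m' := congrFun h2 j
        have h4 := hxm (m - m') m'
        rw [sub_add_cancel] at h4
        have h5 : ‖σ j (x m)‖ = ‖σ j (x (m - m'))‖ * ‖σ j (x m')‖ := by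
          rw [h4, map_mul, norm_mul]
        have a1 := hfl1 j m
        have a2 := hfl2 j m
        have a3 := hfl1 j m'
        have a4 := hfl2 j m'
        rw [h3] at a1 a2
        have p := hpos j m'
        have e3 : (3 : ℝ) ^ (fl j m' + 1) = 3 ^ (fl j m') * 3 := by
          rw [zpow_add₀ (by norm_num), zpow_one]
        rw [e3] at a2 a4
        constructor
        · have h6 : 1 / 3 * ‖σ j (x m')‖ < ‖σ j (x (m - m'))‖ * ‖σ j (x m')‖ := by
            rw [← h5]
            linarith
          exact lt_of_mul_lt_mul_right h6 p.le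
        · have h6 : ‖σ j (x (m - m'))‖ * ‖σ j (x m')‖ < 3 * ‖σ j (x m')‖ := by
            rw [← h5]
            linarith
          exact lt_of_mul_lt_mul_right h6 p.le
      · intro a _ b _ h
        exact sub_left_inj.1 h
    have h2 : ((R.image fun m => fun j => fl j m).card : ℝ) ≤ T ^ (Module.finrank ℤ M) := by
      have h3 : (R.image fun m => fun j => fl j m) ⊆
          Fintype.piFinset fun j => R.image (fl j) := by
        intro y hy
        obtain ⟨m, hm', rfl⟩ := mem_image.1 hy
        exact Fintype.mem_piFinset.2 fun j => mem_image_of_mem _ hm'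
      have h4 := card_le_card h3
      rw [Fintype.card_piFinset] at h4
      have h5 : ((R.image fun m => fun j => fl j m).card : ℝ) ≤
          ∏ j, ((R.image (fl j)).card : ℝ) := by exact_mod_cast h4
      refine h5.trans ?_
      refine (prod_le_prod (fun j _ => Nat.cast_nonneg _) fun j _ => hex j).trans (le_of_eq ?_)
      rw [prod_const, card_univ, Fintype.card_fin]
    have h3 : (R.card : ℝ) ≤ N0 * T ^ (Module.finrank ℤ M) := by
      have h4 : (R.card : ℝ) ≤ N0 * ((R.image fun m => fun j => fl j m).card : ℝ) := by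
        exact_mod_cast h1
      exact h4.trans (mul_le_mul_of_nonneg_left h2 (Nat.cast_nonneg _))
    have h4 : (N0 : ℝ) * T ^ (Module.finrank ℤ M) ≤
        (C0 * K * Real.log (C.card : ℝ)) ^ (Module.finrank ℤ M) := by
      have hN1' : (1 : ℝ) ≤ N0 := by exact_mod_cast hN1
      calc (N0 : ℝ) * T ^ (Module.finrank ℤ M)
          ≤ (N0 : ℝ) ^ (Module.finrank ℤ M) * T ^ (Module.finrank ℤ M) := by
            apply mul_le_mul_of_nonneg_right _ (by positivity)
            exact le_self_pow₀ hN1' hn0
        _ = (N0 * T) ^ (Module.finrank ℤ M) := (mul_pow _ _ _).symm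
        _ ≤ (C0 * K * Real.log (C.card : ℝ)) ^ (Module.finrank ℤ M) := by
            apply pow_le_pow_left₀ (by positivity)
            rw [hT, ← mul_assoc, ← mul_assoc]
            exact mul_le_mul_of_nonneg_right (mul_le_mul_of_nonneg_right c2 hK0) hlogC
    linarith

/-- a trivial group -/
theorem group_triv {F : Type} [Field F] {n : ℕ} {M : Type} [AddCommGroup M] [Subsingleton M]
    {g : M → F} {ε : ℝ} : ∃ C0 : ℝ, 2 ≤ C0 ∧ PopL F M n g ε C0 := by
  refine ⟨2, le_rfl, ?_⟩
  intro V _ _ _ A C B K R hK _ hC _ _ hcard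
  exfalso
  have h1 : R.card ≤ 1 := card_le_one.2 fun a _ b _ => Subsingleton.elim a b
  have h2 : (R.card : ℝ) ≤ 1 := by exact_mod_cast h1
  have h3 : (1 : ℝ) ≤ (2 * K * Real.log (C.card : ℝ)) ^ n := one_le_pow₀ (L_bounds le_rfl hK hC)
  linarith

/-- **finitely generated groups of scalars** -/
theorem group_pop (F : Type) [Field F] (n : ℕ) : ∀ (M : Type) [AddCommGroup M] [Module.Free ℤ M]
    [Module.Finite ℤ M], Module.finrank ℤ M = n → ∀ g : M → F, g 0 = 1 →
    (∀ m n, g (m + n) = g m * g n) → Function.Injective g → ∀ ε : ℝ, 0 < ε → ε ≤ 1 →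
    ∃ C0 : ℝ, 2 ≤ C0 ∧ PopL F M n g ε C0 := by
  induction n using Nat.strong_induction_on with
  | _ n ih =>
    intro M _ _ _ hn g h0 hm hinj ε hε hε1
    by_cases hint : ∀ m, IsIntegral ℤ (g m)
    · obtain ⟨p, hp⟩ := CharP.exists F
      rcases CharP.char_is_prime_or_zero F p with hpp | hp0
      · haveI : Fact p.Prime := ⟨hpp⟩
        haveI : Subsingleton M := by
          refine ⟨fun a b => ?_⟩
          have h1 : ∀ m : M, m = 0 := by
            intro m
            obtain ⟨k, hk, hpow⟩ := Pool.Agent.H591.AKVal.s_charp F p (g m) (g_ne h0 hm m) (hint m)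
            rw [← g_nsmul h0 hm, ← h0] at hpow
            have h2 := hinj hpow
            rw [← natCast_zsmul, smul_eq_zero] at h2
            rcases h2 with h2 | h2
            · omega
            · exact h2
          rw [h1 a, h1 b]
        exact group_triv
      · subst hp0
        haveI : CharZero F := CharP.charP_to_charZero F
        by_cases hn0 : n = 0
        · haveI : Subsingleton M := by
            rw [hn0] at hn
            exact Module.finrank_zero_iff.1 hn
          exact group_triv
        · exact group_unit hn hn0 h0 hm hinj hε hε1 hint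
    · push Not at hint
      obtain ⟨m1, hm1⟩ := hint
      refine group_val hn h0 hm hε hε1 hm1 ?_
      intro N hN
      exact ih (Module.finrank ℤ N) hN N rfl (fun m => g m) h0 (fun m n => hm m n)
        (fun a b h => Subtype.ext (hinj h)) ε hε hε1

end Pool.Agent.H85.AK
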