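import Pool.Agent.H85.AK.Gen4
import Pool.Agent.H85.AK.Grp
import Pool.Agent.H30.AKSplit

/-!
Exceptional slopes in finitely generated groups.
-/

set_option autoImplicit false

namespace Pool.Agent.H85.AK

open Finset
open scoped Classical

/-- the statement of the theorem for one group -/
def ExcG (F : Type) [Field F] (M : Type) [AddCommGroup M] (n : ℕ) (g : M → F) (ε C0 : ℝ) : Prop :=
  ∀ (V : Type) [AddCommGroup V] [Module F V] (E : Finset (V × V)) (R : Finset M), 2 ≤ E.card →
    (∀ m ∈ R, ((E.image fun e : V × V => e.1 + g m • e.2).card : ℝ) ≤ (E.card : ℝ) ^ (1 - ε)) →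
    (R.card : ℝ) ≤ (C0 * Real.log (E.card : ℝ)) ^ n

theorem L_one {C0 : ℝ} {c : ℕ} (h2 : 2 ≤ C0) (hc : 2 ≤ c) : 1 ≤ C0 * Real.log (c : ℝ) := by
  have h := L_bounds (K := 1) h2 le_rfl hc
  rw [mul_one] at h
  exact h

/-- scaling the second coordinate -/
theorem scale_pairs {F V : Type} [Field F] [AddCommGroup V] [Module F V] {t : F} (ht : t ≠ 0)
    (E : Finset (V × V)) :
    (E.image fun e : V × V => (e.1, t • e.2)).card = E.card ∧ ∀ s : F,
      ((E.image fun e : V × V => (e.1, t • e.2)).image fun e : V × V => e.1 + s • e.2) =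
        E.image fun e : V × V => e.1 + (s * t) • e.2 := by
  constructor
  · apply card_image_of_injective
    rintro ⟨x, y⟩ ⟨x', y'⟩ h
    simp only [Prod.mk.injEq] at h
    exact Prod.ext h.1 (MulAction.injective₀ ht h.2)
  · intro s
    rw [image_image]
    apply image_congr
    intro e _
    show e.1 + s • (t • e.2) = e.1 + (s * t) • e.2
    rw [smul_smul]

/-- a non-trivial valuation -/
theorem excg_val {F : Type} [Field F] {n : ℕ} {M : Type} [AddCommGroup M] [Module.Free ℤ M]
    [Module.Finite ℤ M] (hn : Module.finrank ℤ M = n) {g : M → F} (h0 : g 0 = 1)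
    (hm : ∀ m n, g (m + n) = g m * g n) {ε : ℝ} (hε : 0 < ε) (hε1 : ε ≤ 1)
    {m1 : M} (hm1 : ¬ IsIntegral ℤ (g m1))
    (ih : ∀ N : Submodule ℤ M, Module.finrank ℤ N < n → ∃ C1 : ℝ, 2 ≤ C1 ∧
      ExcG F N (Module.finrank ℤ N) (fun m => g m) ε C1) :
    ∃ C0 : ℝ, 2 ≤ C0 ∧ ExcG F M n g ε C0 := by
  obtain ⟨Γ₀, inst, v, hv⟩ := Pool.Agent.H591.AKVal.s_valex F (g m1) hm1
  set N : Submodule ℤ M := AddSubgroup.toIntSubmodule (kerv v g h0 hm) with hN
  have hNmem : ∀ m, m ∈ N ↔ v (g m) = 1 := fun m => Iff.rfl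
  have hrank : Module.finrank ℤ N < n := by
    rw [← hn]
    apply Pool.Agent.H947.AKRank.s_rank M N
    · intro k m hk h
      exact kerv_sat v h0 hm k m hk h
    · intro htop
      have h1 : m1 ∈ N := by
        rw [htop]
        exact Submodule.mem_top
      rw [hNmem] at h1
      rw [h1] at hv
      exact lt_irrefl _ hv
  obtain ⟨C1, hC1, hP⟩ := ih N hrank
  set Ex : ℝ := Real.exp (6 / ε) with hEx
  set C0 : ℝ := max (max C1 Ex) 2 with hC0
  have c1 : C1 ≤ C0 := (le_max_left _ _).trans (le_max_left _ _)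
  have c2 : Ex ≤ C0 := (le_max_right _ _).trans (le_max_left _ _)
  have c3 : 2 ≤ C0 := le_max_right _ _
  refine ⟨C0, c3, ?_⟩
  intro V _ _ E R hE hR
  have hlog : 0 ≤ Real.log (E.card : ℝ) := Real.log_natCast_nonneg _
  have hL := L_one c3 hE
  set L : ℝ := C0 * Real.log (E.card : ℝ) with hLd
  set W : Finset Γ₀ := R.image fun m => v (g m) with hW
  have hWc : (W.card : ℝ) ≤ L := by
    have h1 := val_cnt hε hε1 v E hE (R.image g) (by
      intro r hr
      obtain ⟨m, _, rfl⟩ := mem_image.1 hr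
      exact g_ne h0 hm m) (by
      intro r hr
      obtain ⟨m, hm', rfl⟩ := mem_image.1 hr
      exact hR m hm')
    rw [image_image] at h1
    exact h1.trans (mul_le_mul_of_nonneg_right c2 hlog)
  -- the fibres
  have hfib : ∀ w ∈ W, ((R.filter fun m => v (g m) = w).card : ℝ) ≤ L ^ (Module.finrank ℤ N) := by
    intro w hw
    set Rw : Finset M := R.filter fun m => v (g m) = w with hRw
    obtain ⟨m0, hm0R, hm0w⟩ := mem_image.1 hw
    have hm0 : m0 ∈ Rw := mem_filter.2 ⟨hm0R, hm0w⟩
    have hsub : ∀ m ∈ Rw, m - m0 ∈ N := by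
      intro m hm'
      rw [hNmem]
      have h1 := (mem_filter.1 hm').2
      have h3 := hm (m - m0) m0
      rw [sub_add_cancel] at h3
      have h4 := congrArg v h3
      rw [map_mul, h1, hm0w] at h4
      have hw0 : w ≠ 0 := by
        rw [← hm0w]
        exact (Valuation.ne_zero_iff v).2 (g_ne h0 hm m0)
      have h5 : 1 * w = v (g (m - m0)) * w := by rw [one_mul]; exact h4
      exact (mul_right_cancel₀ hw0 h5).symm
    set f : M → N := fun m => if h : m - m0 ∈ N then ⟨m - m0, h⟩ else 0 with hf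
    have hfc : ∀ m ∈ Rw, ((f m : N) : M) = m - m0 := by
      intro m hm'
      simp only [hf]
      rw [dif_pos (hsub m hm')]
    have hfinj : Set.InjOn f (Rw : Set M) := by
      intro a ha b hb h
      have h1 : ((f a : N) : M) = f b := congrArg (fun u : N => (u : M)) h
      rw [hfc a ha, hfc b hb] at h1
      exact sub_left_inj.1 h1
    obtain ⟨hc, hs⟩ := scale_pairs (V := V) (g_ne h0 hm m0) E
    have key := hP V (E.image fun e : V × V => (e.1, g m0 • e.2)) (Rw.image f)
      (by rw [hc]; exact hE) (by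
      intro u hu
      obtain ⟨m, hm', rfl⟩ := mem_image.1 hu
      have e : (fun m : N => g m) (f m) * g m0 = g m := by
        show g (f m : M) * g m0 = g m
        rw [hfc m hm', ← hm, sub_add_cancel]
      rw [hs, hc, e]
      exact hR m (mem_filter.1 hm').1)
    rw [hc, card_image_of_injOn hfinj] at key
    refine key.trans ?_
    apply pow_le_pow_left₀ (by positivity)
    exact mul_le_mul_of_nonneg_right c1 hlog
  have h1 : (R.card : ℝ) ≤ W.card * L ^ (Module.finrank ℤ N) := by
    have h2 : R.card = ∑ w ∈ W, (R.filter fun m => v (g m) = w).card :=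
      card_eq_sum_card_fiberwise fun m hm' => mem_image_of_mem _ hm'
    rw [h2]
    push_cast
    rw [← nsmul_eq_mul, ← sum_const]
    exact sum_le_sum hfib
  calc (R.card : ℝ) ≤ W.card * L ^ (Module.finrank ℤ N) := h1
    _ ≤ L * L ^ (Module.finrank ℤ N) := mul_le_mul_of_nonneg_right hWc (by positivity)
    _ = L ^ (Module.finrank ℤ N + 1) := by ring
    _ ≤ L ^ n := pow_le_pow_right₀ hL hrank

/-- a group of units -/
theorem excg_unit {F : Type} [Field F] [CharZero F] {n : ℕ} {M : Type} [AddCommGroup M]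
    [Module.Free ℤ M] [Module.Finite ℤ M] (hn : Module.finrank ℤ M = n) (hn0 : n ≠ 0) {g : M → F}
    (h0 : g 0 = 1)
    (hm : ∀ m n, g (m + n) = g m * g n) (hinj : Function.Injective g) {ε : ℝ}
    (hε : 0 < ε) (hε1 : ε ≤ 1) (hint : ∀ m, IsIntegral ℤ (g m)) :
    ∃ C0 : ℝ, 2 ≤ C0 ∧ ExcG F M n g ε C0 := by
  obtain ⟨k, instk, inst2, x, σ, hx, hfin⟩ :=
    Pool.Agent.H236.AK.s_unit Pool.Agent.H297.AKLin.s_lin F M g h0 hm hinj hint
  subst hn
  have hainj : Function.Injective (algebraMap k F) := (algebraMap k F).injective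
  have hxm : ∀ m n, x (m + n) = x m * x n := by
    intro m n
    apply hainj
    rw [map_mul, hx, hx, hx, hm]
  have hx0 : x 0 = 1 := by
    apply hainj
    rw [hx, h0, map_one]
  have hxne : ∀ m, x m ≠ 0 := fun m => g_ne hx0 hxm m
  set N0 : ℕ := hfin.toFinset.card with hN0
  have hN1 : 1 ≤ N0 := by
    apply card_pos.2
    refine ⟨0, ?_⟩
    rw [Set.Finite.mem_toFinset]
    intro j
    rw [hx0, map_one, norm_one]
    norm_num
  set Ex : ℝ := Real.exp (330 / ε) with hEx
  set C0 : ℝ := max (N0 * Ex) 2 with hC0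
  have c2 : N0 * Ex ≤ C0 := le_max_left _ _
  have c3 : 2 ≤ C0 := le_max_right _ _
  refine ⟨C0, c3, ?_⟩
  intro V _ _ E R hE hR
  have hlog : 0 ≤ Real.log (E.card : ℝ) := Real.log_natCast_nonneg _
  set fl : Fin (Module.finrank ℤ M) → M → ℤ := fun j m => Int.log 3 ‖σ j (x m)‖ with hfl
  have hpos : ∀ j m, 0 < ‖σ j (x m)‖ := by
    intro j m
    rw [norm_pos_iff]
    exact (map_ne_zero (σ j)).2 (hxne m)
  have hfl1 : ∀ j m, (3 : ℝ) ^ (fl j m) ≤ ‖σ j (x m)‖ := by
    intro j m
    exact_mod_cast Int.zpow_log_le_self (b := 3) (by norm_num) (hpos j m)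
  have hfl2 : ∀ j m, ‖σ j (x m)‖ < (3 : ℝ) ^ (fl j m + 1) := by
    intro j m
    exact_mod_cast Int.lt_zpow_succ_log_self (b := 3) (by norm_num) ‖σ j (x m)‖
  set T : ℝ := Ex * Real.log (E.card : ℝ) with hT
  have hT0 : 0 ≤ T := by positivity
  have hex : ∀ j, ((R.image (fl j)).card : ℝ) ≤ T := by
    intro j
    let _ : Module k V := Module.compHom V (algebraMap k F)
    have h1 := arc_cnt hε hε1 (σ j) E hE (R.image x) (by
      intro r hr
      obtain ⟨m, _, rfl⟩ := mem_image.1 hr
      exact hxne m) (by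
      intro r hr
      obtain ⟨m, hm', rfl⟩ := mem_image.1 hr
      have h2 := hR m hm'
      rw [← hx] at h2
      exact h2)
    rw [image_image] at h1
    exact h1
  have h1 : R.card ≤ N0 * (R.image fun m => fun j => fl j m).card := by
    apply card_le_mul_card_image
    intro a ha
    obtain ⟨m', hm', rfl⟩ := mem_image.1 ha
    apply card_le_card_of_injOn (fun m => m - m')
    · intro m hm1
      have h2 := (mem_filter.1 hm1).2
      rw [Set.Finite.coe_toFinset]
      intro j
      have h3 : fl j m = fl j m' := congrFun h2 j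
      have h4 := hxm (m - m') m'
      rw [sub_add_cancel] at h4
      have h5 : ‖σ j (x m)‖ = ‖σ j (x (m - m'))‖ * ‖σ j (x m')‖ := by
        rw [h4, map_mul, norm_mul]
      have a1 := hfl1 j m
      have a2 := hfl2 j m
      have a3 := hfl1 j m'
      have a4 := hfl2 j m'
      rw [h3] at a1 a2
      have p := hpos j m'
      have e3 : (3 : ℝ) ^ (fl j m' + 1) = 3 ^ (fl j m') * 3 := by
        rw [zpow_add₀ (by norm_num), zpow_one]
      rw [e3] at a2 a4
      constructor
      · have h6 : 1 / 3 * ‖σ j (x m')‖ < ‖σ j (x (m - m'))‖ * ‖σ j (x m')‖ := by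
          rw [← h5]
          linarith
        exact lt_of_mul_lt_mul_right h6 p.le
      · have h6 : ‖σ j (x (m - m'))‖ * ‖σ j (x m')‖ < 3 * ‖σ j (x m')‖ := by
          rw [← h5]
          linarith
        exact lt_of_mul_lt_mul_right h6 p.le
    · intro a _ b _ h
      exact sub_left_inj.1 h
  have h2 : ((R.image fun m => fun j => fl j m).card : ℝ) ≤ T ^ (Module.finrank ℤ M) := by
    have h3 : (R.image fun m => fun j => fl j m) ⊆
        Fintype.piFinset fun j => R.image (fl j) := by
      intro y hy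
      obtain ⟨m, hm', rfl⟩ := mem_image.1 hy
      exact Fintype.mem_piFinset.2 fun j => mem_image_of_mem _ hm'
    have h4 := card_le_card h3
    rw [Fintype.card_piFinset] at h4
    have h5 : ((R.image fun m => fun j => fl j m).card : ℝ) ≤
        ∏ j, ((R.image (fl j)).card : ℝ) := by exact_mod_cast h4
    refine h5.trans ?_
    refine (prod_le_prod (fun j _ => Nat.cast_nonneg _) fun j _ => hex j).trans (le_of_eq ?_)
    rw [prod_const, card_univ, Fintype.card_fin]
  have h3 : (R.card : ℝ) ≤ N0 * T ^ (Module.finrank ℤ M) := by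
    have h4 : (R.card : ℝ) ≤ N0 * ((R.image fun m => fun j => fl j m).card : ℝ) := by
      exact_mod_cast h1
    exact h4.trans (mul_le_mul_of_nonneg_left h2 (Nat.cast_nonneg _))
  refine h3.trans ?_
  have hN1' : (1 : ℝ) ≤ N0 := by exact_mod_cast hN1
  calc (N0 : ℝ) * T ^ (Module.finrank ℤ M)
      ≤ (N0 : ℝ) ^ (Module.finrank ℤ M) * T ^ (Module.finrank ℤ M) := by
        apply mul_le_mul_of_nonneg_right _ (by positivity)
        exact le_self_pow₀ hN1' hn0
    _ = (N0 * T) ^ (Module.finrank ℤ M) := (mul_pow _ _ _).symm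
    _ ≤ (C0 * Real.log (E.card : ℝ)) ^ (Module.finrank ℤ M) := by
        apply pow_le_pow_left₀ (by positivity)
        rw [hT, ← mul_assoc]
        exact mul_le_mul_of_nonneg_right c2 hlog

/-- a trivial group -/
theorem excg_triv {F : Type} [Field F] {n : ℕ} {M : Type} [AddCommGroup M] [Subsingleton M]
    {g : M → F} {ε : ℝ} : ∃ C0 : ℝ, 2 ≤ C0 ∧ ExcG F M n g ε C0 := by
  refine ⟨2, le_rfl, ?_⟩
  intro V _ _ E R hE _
  have h1 : R.card ≤ 1 := card_le_one.2 fun a _ b _ => Subsingleton.elim a b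
  have h2 : (R.card : ℝ) ≤ 1 := by exact_mod_cast h1
  exact h2.trans (one_le_pow₀ (L_one le_rfl hE))

/-- **finitely generated groups of slopes**, free groups -/
theorem excg (F : Type) [Field F] (n : ℕ) : ∀ (M : Type) [AddCommGroup M] [Module.Free ℤ M]
    [Module.Finite ℤ M], Module.finrank ℤ M = n → ∀ g : M → F, g 0 = 1 →
    (∀ m n, g (m + n) = g m * g n) → Function.Injective g → ∀ ε : ℝ, 0 < ε → ε ≤ 1 →
    ∃ C0 : ℝ, 2 ≤ C0 ∧ ExcG F M n g ε C0 := by
  induction n using Nat.strong_induction_on with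
  | _ n ih =>
    intro M _ _ _ hn g h0 hm hinj ε hε hε1
    by_cases hint : ∀ m, IsIntegral ℤ (g m)
    · obtain ⟨p, hp⟩ := CharP.exists F
      rcases CharP.char_is_prime_or_zero F p with hpp | hp0
      · haveI : Fact p.Prime := ⟨hpp⟩
        haveI : Subsingleton M := by
          refine ⟨fun a b => ?_⟩
          have h1 : ∀ m : M, m = 0 := by
            intro m
            obtain ⟨k, hk, hpow⟩ := Pool.Agent.H591.AKVal.s_charp F p (g m) (g_ne h0 hm m) (hint m)
            rw [← g_nsmul h0 hm, ← h0] at hpow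
            have h2 := hinj hpow
            rw [← natCast_zsmul, smul_eq_zero] at h2
            rcases h2 with h2 | h2
            · omega
            · exact h2
          rw [h1 a, h1 b]
        exact excg_triv
      · subst hp0
        haveI : CharZero F := CharP.charP_to_charZero F
        by_cases hn0 : n = 0
        · haveI : Subsingleton M := by
            rw [hn0] at hn
            exact Module.finrank_zero_iff.1 hn
          exact excg_triv
        · exact excg_unit hn hn0 h0 hm hinj hε hε1 hint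
    · push Not at hint
      obtain ⟨m1, hm1⟩ := hint
      refine excg_val hn h0 hm hε hε1 hm1 ?_
      intro N hN
      exact ih (Module.finrank ℤ N) hN N rfl (fun m => g m) h0 (fun m n => hm m n)
        (fun a b h => Subtype.ext (hinj h)) ε hε hε1

/-- **exceptional slopes in a finitely generated group**, after any projective map -/
theorem exc_group (F : Type) [Field F] (Γ : Subgroup Fˣ) (hΓ : Γ.FG) {ε : ℝ} (hε : 0 < ε)
    (hε1 : ε ≤ 1) : ∃ C : ℝ, 0 < C ∧ ∀ (V : Type) [AddCommGroup V] [Module F V] (a b c d : F),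
      a * d - b * c ≠ 0 → ∀ (E : Finset (V × V)) (R : Finset F), 2 ≤ E.card →
      (∀ r ∈ R, (∃ γ ∈ Γ, a + b * r = γ * (c + d * r)) ∧
        ((E.image fun e : V × V => e.1 + r • e.2).card : ℝ) ≤ (E.card : ℝ) ^ (1 - ε)) →
      (R.card : ℝ) ≤ C * Real.log (E.card : ℝ) ^ Module.finrank ℤ (Additive Γ) := by
  haveI : Group.FG Γ := (Group.fg_iff_subgroup_fg Γ).2 hΓ
  obtain ⟨M, _, _, _, g, T, hrank, h0, hm, hinj, hT⟩ := Pool.Agent.H30.AKSplit.s_split Γ
  set gF : M → F := fun m => ((g m : Fˣ) : F) with hgF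
  have g0 : gF 0 = 1 := by
    simp only [hgF]
    rw [h0]
    rfl
  have gm : ∀ m n, gF (m + n) = gF m * gF n := by
    intro m n
    simp only [hgF]
    rw [hm]
    rfl
  have ginj : Function.Injective gF := by
    intro m n h
    apply hinj
    apply Subtype.ext
    exact Units.ext h
  obtain ⟨C0, hC0, hP⟩ := excg F (Module.finrank ℤ M) M rfl gF g0 gm ginj ε hε hε1
  set n : ℕ := Module.finrank ℤ M with hn
  refine ⟨(T.card + 1) * C0 ^ n, by positivity, ?_⟩
  intro V _ _ a b c d hdet E R hE hR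
  have hlog : 0 ≤ Real.log (E.card : ℝ) := Real.log_natCast_nonneg _
  rw [← hrank]
  obtain ⟨E', hE', hmob⟩ := mob_pairs (V := V) hdet E ε
  have hden : ∀ r ∈ R, c + d * r ≠ 0 := by
    intro r hr hz
    obtain ⟨⟨γ, _, h1⟩, _⟩ := hR r hr
    rw [hz, mul_zero] at h1
    apply hdet
    linear_combination d * h1 - b * hz
  -- every slope is in one of the classes
  have hcl : ∀ r ∈ R, ∃ t ∈ T, ∃ m : M, (a + b * r) / (c + d * r) = ((t : Fˣ) : F) * gF m := by
    intro r hr
    obtain ⟨⟨γ, hγ, h1⟩, _⟩ := hR r hr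
    obtain ⟨t, ht, m, h2⟩ := hT ⟨γ, hγ⟩
    refine ⟨t, ht, m, ?_⟩
    rw [div_eq_iff (hden r hr), h1]
    congr 1
    have h3 : (γ : Fˣ) = (t : Fˣ) * (g m : Fˣ) := congrArg (fun u : Γ => (u : Fˣ)) h2
    rw [h3]
    rfl
  choose! tt htt mm hmm using hcl
  have hinjR : ∀ r ∈ R, ∀ r' ∈ R, tt r = tt r' → mm r = mm r' → r = r' := by
    intro r hr r' hr' h1 h2
    have h3 : (a + b * r) / (c + d * r) = (a + b * r') / (c + d * r') := by
      rw [hmm r hr, hmm r' hr', h1, h2]
    rw [div_eq_div_iff (hden r hr) (hden r' hr')] at h3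
    have h4 : (a * d - b * c) * (r - r') = 0 := by linear_combination -h3
    rcases mul_eq_zero.1 h4 with h5 | h5
    · exact absurd h5 hdet
    · exact sub_eq_zero.1 h5
  have hone : ∀ t ∈ T, ((R.filter fun r => tt r = t).card : ℝ) ≤
      (C0 * Real.log (E.card : ℝ)) ^ n := by
    intro t _
    have ht0 : ((t : Fˣ) : F) ≠ 0 := Units.ne_zero _
    obtain ⟨hc, hs⟩ := scale_pairs (V := V) ht0 E'
    have key := hP V (E'.image fun e : V × V => (e.1, ((t : Fˣ) : F) • e.2))
      ((R.filter fun r => tt r = t).image mm) (by rw [hc, hE']; exact hE) (by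
        intro m hm'
        obtain ⟨r, hr, rfl⟩ := mem_image.1 hm'
        obtain ⟨hr1, hr2⟩ := mem_filter.1 hr
        rw [hs, hc]
        have h1 := hmob r (hden r hr1) (hR r hr1).2
        rw [hmm r hr1, hr2, mul_comm] at h1
        exact h1)
    rw [hc, hE', card_image_of_injOn (by
      intro r hr r' hr' h
      obtain ⟨h1, h2⟩ := mem_filter.1 (mem_coe.1 hr)
      obtain ⟨h3, h4⟩ := mem_filter.1 (mem_coe.1 hr')
      exact hinjR r h1 r' h3 (h2.trans h4.symm) h)] at key
    exact key
  have hsum : R.card = ∑ t ∈ T, (R.filter fun r => tt r = t).card :=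
    card_eq_sum_card_fiberwise fun r hr => htt r hr
  have h1 : (R.card : ℝ) ≤ T.card * (C0 * Real.log (E.card : ℝ)) ^ n := by
    rw [hsum]
    push_cast
    rw [← nsmul_eq_mul, ← sum_const]
    exact sum_le_sum hone
  refine h1.trans ?_
  rw [mul_pow, ← mul_assoc]
  apply mul_le_mul_of_nonneg_right _ (pow_nonneg hlog _)
  apply mul_le_mul_of_nonneg_right _ (by positivity)
  linarith

end Pool.Agent.H85.AK
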