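import Pool.Agent.H85.AK.Gen5
import Pool.Agent.H85.AK.Fin

/-!
Geometric progressions of rational slopes; projective maps.
-/

set_option autoImplicit false

namespace Pool.Agent.H85.AK

open Finset
open scoped Classical

/-- a prime in a rational number -/
theorem exists_prime_rat {g : ℚ} (h0 : g ≠ 0) (h1 : g ≠ 1) (h2 : g ≠ -1) :
    ∃ p : ℕ, p.Prime ∧ padicValRat p g ≠ 0 := by
  by_contra hcon
  push Not at hcon
  rcases rat_unit h0 hcon with h | h
  · exact h1 h
  · exact h2 h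

/-- **one of the first powers is not exceptional** -/
theorem good_power_g {ε : ℝ} (hε : 0 < ε) (hε1 : ε ≤ 1) {g : ℚ} (g0 : g ≠ 0) (g1 : g ≠ 1)
    (g2 : g ≠ -1) (A : Finset (ℤ × ℤ)) (hA : 2 ≤ A.card) :
    ∃ i : ℕ, 1 ≤ i ∧ (i : ℝ) ≤ Real.exp (13 / ε) * Real.log (A.card : ℝ) ∧
      (A.card : ℝ) ≤ ((A.image fun a => (a.1 : ℚ) + g ^ i * a.2).card : ℝ) ^ (1 + ε) := by
  obtain ⟨p, hp, hpg⟩ := exists_prime_rat g0 g1 g2
  haveI : Fact p.Prime := ⟨hp⟩
  by_contra hcon
  push Not at hcon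
  have hn : (2 : ℝ) ≤ A.card := by exact_mod_cast hA
  set s : ℝ := Real.log (A.card : ℝ) with hs
  have hs2 : Real.log 2 ≤ s := Real.log_le_log (by norm_num) hn
  have hl := Real.log_two_gt_d9
  set k : ℕ := ⌊Real.exp (13 / ε) * s⌋₊ with hk
  have hk1 : Real.exp (13 / ε) * s < k + 1 := Nat.lt_floor_add_one _
  have hk2 : (k : ℝ) ≤ Real.exp (13 / ε) * s := Nat.floor_le (by positivity)
  set ε' : ℝ := ε / (1 + ε) with hε'
  have hε'0 : 0 < ε' := by positivity
  have hε'1 : ε' ≤ 1 := by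
    rw [hε', div_le_one (by positivity)]
    linarith
  set R : Finset ℚ := (Icc 1 k).image fun i => g ^ i with hR
  have hR0 : ∀ r ∈ R, r ≠ 0 := by
    intro r hr
    obtain ⟨i, _, rfl⟩ := mem_image.1 hr
    exact pow_ne_zero _ g0
  have key := val_count_rat hε'0 hε'1 p A hA R hR0 (by
    intro r hr
    obtain ⟨i, hi, rfl⟩ := mem_image.1 hr
    obtain ⟨hi1, hi2⟩ := mem_Icc.1 hi
    have h1 := hcon i hi1 ((show (i : ℝ) ≤ k by exact_mod_cast hi2).trans hk2)
    set m : ℝ := ((A.image fun a => (a.1 : ℚ) + g ^ i * a.2).card : ℝ) with hm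
    have hm0 : 0 ≤ m := Nat.cast_nonneg _
    have h2 : m = (m ^ (1 + ε)) ^ (1 - ε') := by
      rw [← Real.rpow_mul hm0]
      have : (1 + ε) * (1 - ε') = 1 := by
        rw [hε']
        field_simp
        ring
      rw [this, Real.rpow_one]
    rw [h2]
    exact Real.rpow_le_rpow (Real.rpow_nonneg hm0 _) h1.le (by linarith))
  have hc : (R.image (padicValRat p)).card = k := by
    rw [hR, image_image, card_image_of_injOn, Nat.card_Icc]
    · omega
    · intro i _ j _ hij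
      have hij' : padicValRat p (g ^ i) = padicValRat p (g ^ j) := hij
      rw [padicValRat.pow, padicValRat.pow] at hij'
      have h1 : (i : ℤ) = (j : ℤ) := mul_right_cancel₀ hpg hij'
      exact_mod_cast h1
  rw [hc] at key
  -- numerical contradiction
  set t : ℝ := 1 / ε with ht
  have ht1 : 1 ≤ t := by
    rw [ht, le_div_iff₀ hε]
    linarith
  have e1 : 13 / ε = 13 * t := by
    rw [ht]
    ring
  have e2 : 6 / ε' = 6 + 6 * t := by
    rw [hε', ht]
    field_simp
    ring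
  rw [e1] at hk1
  rw [e2, ← hs] at key
  have h3 : Real.exp (6 + 6 * t) * Real.exp 1 ≤ Real.exp (13 * t) := by
    rw [← Real.exp_add]
    apply Real.exp_le_exp.2
    linarith
  have h4 := Real.exp_one_gt_d9
  have h5 : 1 + (6 + 6 * t) ≤ Real.exp (6 + 6 * t) := by
    have := Real.add_one_le_exp (6 + 6 * t)
    linarith
  have h6 : Real.exp (6 + 6 * t) * Real.exp 1 * s ≤ Real.exp (13 * t) * s :=
    mul_le_mul_of_nonneg_right h3 (by linarith)
  have h7 : 13 * (1 / 2) ≤ Real.exp (6 + 6 * t) * s := by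
    apply mul_le_mul <;> linarith
  nlinarith

/-- **valuations**, after any projective map -/
theorem val_mob {ε : ℝ} (hε : 0 < ε) (hε1 : ε ≤ 1) {F V : Type} [Field F] {Γ₀ : Type}
    [LinearOrderedCommGroupWithZero Γ₀] (v : Valuation F Γ₀) [AddCommGroup V] [Module F V]
    {a b c d : F} (hdet : a * d - b * c ≠ 0) (E : Finset (V × V)) (hE : 2 ≤ E.card)
    (R : Finset F) (hR : ∀ r ∈ R, a + b * r ≠ 0 ∧ c + d * r ≠ 0 ∧
      ((E.image fun e : V × V => e.1 + r • e.2).card : ℝ) ≤ (E.card : ℝ) ^ (1 - ε)) :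
    (((fun r => v ((a + b * r) / (c + d * r))) '' (R : Set F)).ncard : ℝ) ≤
      Real.exp (6 / ε) * Real.log (E.card : ℝ) := by
  obtain ⟨E', hE', hmob⟩ := mob_pairs (V := V) hdet E ε
  have h1 := val_cnt hε hε1 v E' (by omega) (R.image fun r => (a + b * r) / (c + d * r)) (by
    intro s hs
    obtain ⟨r, hr, rfl⟩ := mem_image.1 hs
    exact div_ne_zero (hR r hr).1 (hR r hr).2.1) (by
    intro s hs
    obtain ⟨r, hr, rfl⟩ := mem_image.1 hs
    exact hmob r (hR r hr).2.1 (hR r hr).2.2)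
  rw [hE', image_image] at h1
  rw [← Finset.coe_image, Set.ncard_coe_finset]
  exact h1

/-- **archimedean scales**, after any projective map -/
theorem arc_mob {ε : ℝ} (hε : 0 < ε) (hε1 : ε ≤ 1) {F V : Type} [Field F] (σ : F →+* ℂ)
    [AddCommGroup V] [Module F V]
    {a b c d : F} (hdet : a * d - b * c ≠ 0) (E : Finset (V × V)) (hE : 2 ≤ E.card)
    (R : Finset F) (hR : ∀ r ∈ R, a + b * r ≠ 0 ∧ c + d * r ≠ 0 ∧
      ((E.image fun e : V × V => e.1 + r • e.2).card : ℝ) ≤ (E.card : ℝ) ^ (1 - ε)) :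
    (((fun r => Int.log 3 ‖σ ((a + b * r) / (c + d * r))‖) '' (R : Set F)).ncard : ℝ) ≤
      Real.exp (330 / ε) * Real.log (E.card : ℝ) := by
  obtain ⟨E', hE', hmob⟩ := mob_pairs (V := V) hdet E ε
  have h1 := arc_cnt hε hε1 σ E' (by omega) (R.image fun r => (a + b * r) / (c + d * r)) (by
    intro s hs
    obtain ⟨r, hr, rfl⟩ := mem_image.1 hs
    exact div_ne_zero (hR r hr).1 (hR r hr).2.1) (by
    intro s hs
    obtain ⟨r, hr, rfl⟩ := mem_image.1 hs
    exact hmob r (hR r hr).2.1 (hR r hr).2.2)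
  rw [hE', image_image] at h1
  rw [← Finset.coe_image, Set.ncard_coe_finset]
  exact h1

end Pool.Agent.H85.AK
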