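import Pool.Agent.H85.AK.Loc4

/-!
A grid of pairs of digits: sums over the cells of one node.
-/

set_option autoImplicit false

namespace Pool.Agent.H85.AK

open Finset
open scoped Classical

variable {α β γ ζ κ : Type*}

/-- the cell of a point -/
noncomputable def cl (A : Finset α) (F : α → κ) (a : α) : Finset α := A.filter fun b => F b = F a

theorem mem_cl {A : Finset α} {F : α → κ} {a b : α} : b ∈ cl A F a ↔ b ∈ A ∧ F b = F a :=
  mem_filter

theorem ct_cl {A : Finset α} {F : α → κ} {a b : α} {f : α → ζ} (hb : b ∈ cl A F a) :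
    ct (cl A F a) f b = ct A (fun b => (f b, F b)) b := by
  have h := (mem_cl.1 hb).2
  unfold ct cv
  congr 2
  ext c
  simp only [mem_filter, mem_cl, Prod.mk.injEq, h]
  tauto

theorem card_cl {A : Finset α} {F : α → κ} {a b : α} (hb : b ∈ cl A F a) :
    ((cl A F a).card : ℝ) = ct A F b := by
  have h := (mem_cl.1 hb).2
  unfold cl
  rw [← h]
  rfl

theorem cl_sub (A : Finset α) (F : α → κ) (a : α) : cl A F a ⊆ A := filter_subset _ _

theorem cl_nonempty {A : Finset α} (F : α → κ) {a : α} (ha : a ∈ A) : (cl A F a).Nonempty :=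
  ⟨a, mem_cl.2 ⟨ha, rfl⟩⟩

/-- sum over the cells of a partition -/
noncomputable def S (A : Finset α) (F : α → κ) (Φ : Finset α → ℝ) : ℝ :=
  ∑ a ∈ A, Φ (cl A F a) / ct A F a

theorem S_eq {A : Finset α} {F : α → κ} {Φ : Finset α → ℝ} {ψ : α → ℝ}
    (h : ∀ a ∈ A, Φ (cl A F a) = ∑ b ∈ cl A F a, ψ b) :
    S A F Φ = ∑ a ∈ A, ψ a := by
  unfold S cl
  rw [sum_div_ct A F (fun c => Φ (A.filter fun b => F b = c)),
    ← Finset.sum_fiberwise_of_maps_to (s := A) (t := A.image F) (g := F)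
      fun a ha => mem_image_of_mem F ha]
  apply sum_congr rfl
  intro c hc
  obtain ⟨a, ha, rfl⟩ := mem_image.1 hc
  exact h a ha

theorem S_mono {A : Finset α} {F : α → κ} {Φ Ψ : Finset α → ℝ}
    (h : ∀ a ∈ A, Φ (cl A F a) ≤ Ψ (cl A F a)) :
    S A F Φ ≤ S A F Ψ := by
  unfold S
  apply sum_le_sum
  intro a ha
  exact div_le_div_of_nonneg_right (h a ha) (ct_pos F ha).le

theorem S_nonneg {A : Finset α} {F : α → κ} {Φ : Finset α → ℝ}
    (h : ∀ a ∈ A, 0 ≤ Φ (cl A F a)) : 0 ≤ S A F Φ :=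
  sum_nonneg fun a ha => div_nonneg (h a ha) (ct_pos F ha).le

theorem S_add {A : Finset α} {F : α → κ} (Φ Ψ : Finset α → ℝ) :
    S A F (fun Ω => Φ Ω + Ψ Ω) = S A F Φ + S A F Ψ := by
  unfold S
  rw [← sum_add_distrib]
  apply sum_congr rfl
  intro a _
  ring

theorem S_smul {A : Finset α} {F : α → κ} (c : ℝ) (Φ : Finset α → ℝ) :
    S A F (fun Ω => c * Φ Ω) = c * S A F Φ := by
  unfold S
  rw [mul_sum]
  apply sum_congr rfl
  intro a _
  ring

/-- the label of a node -/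
def lab (P : α → β) (Q : α → γ) (a : α) : β × γ := (P a, Q a)

/-- the number of points in the same cell -/
noncomputable def nn (A : Finset α) (P : α → β) (Q : α → γ) (a : α) : ℝ := ct A (lab P Q) a

theorem nn_pos {A : Finset α} (P : α → β) (Q : α → γ) {a : α} (ha : a ∈ A) : 0 < nn A P Q a :=
  ct_pos _ ha

theorem log_nn_nonneg {A : Finset α} (P : α → β) (Q : α → γ) {a : α} (ha : a ∈ A) :
    0 ≤ Real.log (nn A P Q a) := log_ct_nonneg _ ha

theorem log_nn_le {A : Finset α} (P : α → β) (Q : α → γ) {a : α} (ha : a ∈ A) :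
    Real.log (nn A P Q a) ≤ Real.log (A.card : ℝ) := log_ct_le _ ha

section node

variable {A : Finset α} {P P' : α → β} {Q Q' : α → γ}

/-- refinement -/
def Ref (A : Finset α) (f : α → β) (g : α → γ) : Prop := ∀ a ∈ A, ∀ b ∈ A, f a = f b → g a = g b

theorem ct_cell {a b : α} {f : α → ζ} (hb : b ∈ cl A (lab P Q) a) :
    ct (cl A (lab P Q) a) f b = ct A (fun b => (f b, lab P Q b)) b := ct_cl hb

theorem card_cell {a b : α} (hb : b ∈ cl A (lab P Q) a) :
    ((cl A (lab P Q) a).card : ℝ) = nn A P Q b := card_cl hb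

theorem ct_cell_left (hP : Ref A P' P) {a b : α}
    (hb : b ∈ cl A (lab P Q) a) :
    ct (cl A (lab P Q) a) P' b = nn A P' Q b := by
  have hbA := (mem_cl.1 hb).1
  rw [ct_cell hb]
  unfold nn
  apply ct_congr
  intro c hc
  simp only [lab, Prod.mk.injEq]
  constructor
  · rintro ⟨h1, h2, h3⟩
    exact ⟨h1, h3⟩
  · rintro ⟨h1, h3⟩
    exact ⟨h1, hP c hc b hbA h1, h3⟩

theorem ct_cell_right (hQ : Ref A Q' Q) {a b : α}
    (hb : b ∈ cl A (lab P Q) a) :
    ct (cl A (lab P Q) a) Q' b = nn A P Q' b := by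
  have hbA := (mem_cl.1 hb).1
  rw [ct_cell hb]
  unfold nn
  apply ct_congr
  intro c hc
  simp only [lab, Prod.mk.injEq]
  constructor
  · rintro ⟨h1, h2, h3⟩
    exact ⟨h2, h1⟩
  · rintro ⟨h1, h3⟩
    exact ⟨h3, h1, hQ c hc b hbA h3⟩

theorem ct_cell_both (hP : Ref A P' P) (hQ : Ref A Q' Q) {a b : α}
    (hb : b ∈ cl A (lab P Q) a) :
    ct (cl A (lab P Q) a) (fun a => (P' a, Q' a)) b = nn A P' Q' b := by
  have hbA := (mem_cl.1 hb).1
  rw [ct_cell hb]
  unfold nn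
  apply ct_congr
  intro c hc
  simp only [lab, Prod.mk.injEq]
  constructor
  · rintro ⟨h1, _⟩
    exact h1
  · rintro ⟨h1, h3⟩
    exact ⟨⟨h1, h3⟩, hP c hc b hbA h1, hQ c hc b hbA h3⟩

theorem S_hh_left (hP : Ref A P' P) :
    S A (lab P Q) (fun Ω => hh Ω P') = ∑ a ∈ A, (Real.log (nn A P Q a) -
      Real.log (nn A P' Q a)) := by
  apply S_eq
  intro a _
  unfold hh
  apply sum_congr rfl
  intro b hb
  rw [card_cell hb, ct_cell_left hP hb]

theorem S_hh_right (hQ : Ref A Q' Q) :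
    S A (lab P Q) (fun Ω => hh Ω Q') = ∑ a ∈ A, (Real.log (nn A P Q a) -
      Real.log (nn A P Q' a)) := by
  apply S_eq
  intro a _
  unfold hh
  apply sum_congr rfl
  intro b hb
  rw [card_cell hb, ct_cell_right hQ hb]

theorem S_mi (hP : Ref A P' P) (hQ : Ref A Q' Q) :
    S A (lab P Q) (fun Ω => mi Ω P' Q') = ∑ a ∈ A, (Real.log (nn A P' Q' a) +
      Real.log (nn A P Q a) - Real.log (nn A P' Q a) - Real.log (nn A P Q' a)) := by
  apply S_eq
  intro a _
  unfold mi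
  apply sum_congr rfl
  intro b hb
  rw [card_cell hb, ct_cell_right hQ hb, ct_cell_left hP hb, ct_cell_both hP hQ hb]

theorem S_loss (hP : Ref A P' P) (hQ : Ref A Q' Q) (Z : α → ζ) :
    S A (lab P Q) (fun Ω => loss Ω P' Q' Z) =
      ∑ a ∈ A, (Real.log (ct A (fun b => (Z b, lab P Q b)) a) - Real.log (nn A P' Q' a)) := by
  apply S_eq
  intro a _
  unfold loss
  apply sum_congr rfl
  intro b hb
  rw [ct_cell_both hP hQ hb, ct_cell hb]

/-- the potential -/
noncomputable def G (A : Finset α) (P : α → β) (Q Q' : α → γ) : ℝ :=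
  ∑ a ∈ A, Real.log (nn A P Q a) * (Real.log (nn A P Q a) - Real.log (nn A P Q' a))

theorem nn_mono_right (hQ : Ref A Q' Q) {a : α} (ha : a ∈ A) : nn A P Q' a ≤ nn A P Q a := by
  unfold nn
  apply ct_mono
  intro b hb
  simp only [lab, Prod.mk.injEq]
  rintro ⟨h1, h2⟩
  exact ⟨h1, hQ b hb a ha h2⟩

theorem nn_mono_left (hP : Ref A P' P) {a : α} (ha : a ∈ A) : nn A P' Q a ≤ nn A P Q a := by
  unfold nn
  apply ct_mono
  intro b hb
  simp only [lab, Prod.mk.injEq]
  rintro ⟨h1, h2⟩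
  exact ⟨hP b hb a ha h1, h2⟩

theorem log_nn_mono_right (hQ : Ref A Q' Q) {a : α} (ha : a ∈ A) :
    Real.log (nn A P Q' a) ≤ Real.log (nn A P Q a) :=
  Real.log_le_log (nn_pos _ _ ha) (nn_mono_right hQ ha)

theorem log_nn_mono_left (hP : Ref A P' P) {a : α} (ha : a ∈ A) :
    Real.log (nn A P' Q a) ≤ Real.log (nn A P Q a) :=
  Real.log_le_log (nn_pos _ _ ha) (nn_mono_left hP ha)

theorem G_nonneg (hQ : Ref A Q' Q) : 0 ≤ G A P Q Q' :=
  sum_nonneg fun _ ha => mul_nonneg (log_nn_nonneg _ _ ha)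
    (sub_nonneg.2 (log_nn_mono_right hQ ha))

/-- one step of the supermartingale -/
theorem G_step (hP : Ref A P' P) (hQ : Ref A Q' Q) :
    S A (lab P Q) (fun Ω => ep Ω P' * hh Ω Q') + G A P' Q Q' ≤ G A P Q Q' := by
  have e1 : G A P' Q Q' = S A (lab P Q) (fun Ω => ∑ a ∈ Ω, Real.log (nn A P' Q a) *
      (Real.log (nn A P' Q a) - Real.log (nn A P' Q' a))) := by
    symm
    exact S_eq fun a _ => rfl
  have e2 : G A P Q Q' = S A (lab P Q) (fun Ω => ∑ a ∈ Ω, Real.log (nn A P Q a) *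
      (Real.log (nn A P Q a) - Real.log (nn A P Q' a))) := by
    symm
    exact S_eq fun a _ => rfl
  rw [e1, e2, ← S_add]
  apply S_mono
  intro a ha
  set Ω := cl A (lab P Q) a with hΩd
  have hΩ : Ω.Nonempty := cl_nonempty _ ha
  have hsub : Ω ⊆ A := cl_sub _ _ _
  -- right side
  have r1 : ∑ b ∈ Ω, Real.log (nn A P Q b) *
      (Real.log (nn A P Q b) - Real.log (nn A P Q' b)) = Real.log (Ω.card : ℝ) * hh Ω Q' := by
    unfold hh
    rw [mul_sum]
    apply sum_congr rfl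
    intro b hb
    rw [← card_cell hb, ct_cell_right hQ hb]
  -- left side
  have l1 : ∑ b ∈ Ω, Real.log (nn A P' Q b) *
      (Real.log (nn A P' Q b) - Real.log (nn A P' Q' b)) ≤
      ∑ b ∈ Ω, Real.log (mx Ω P') * (Real.log (nn A P' Q b) - Real.log (nn A P' Q' b)) := by
    apply sum_le_sum
    intro b hb
    apply mul_le_mul_of_nonneg_right
    · rw [← ct_cell_left hP hb]
      exact Real.log_le_log (ct_pos _ hb) (ct_le_mx _ hb)
    · exact sub_nonneg.2 (log_nn_mono_right hQ (hsub hb))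
  have l2 : ∑ b ∈ Ω, (Real.log (nn A P' Q b) - Real.log (nn A P' Q' b)) ≤ hh Ω Q' := by
    have h1 := subadd Ω P' Q'
    rw [← sub_nonneg, ← sum_sub_distrib] at h1
    rw [← sub_nonneg]
    unfold hh
    rw [← sum_sub_distrib]
    refine h1.trans (le_of_eq ?_)
    apply sum_congr rfl
    intro b hb
    rw [ct_cell_left hP hb, ct_cell_both hP hQ hb]
    ring
  have hmx : 0 ≤ Real.log (mx Ω P') := by
    obtain ⟨b, hb, hb'⟩ := exists_mx hΩ P'
    rw [← hb']
    exact log_ct_nonneg _ hb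
  have l3 : ∑ b ∈ Ω, Real.log (mx Ω P') * (Real.log (nn A P' Q b) - Real.log (nn A P' Q' b)) ≤
      Real.log (mx Ω P') * hh Ω Q' := by
    rw [← mul_sum]
    exact mul_le_mul_of_nonneg_left l2 hmx
  have l4 : Real.log (mx Ω P') * hh Ω Q' ≤ (Real.log (Ω.card : ℝ) - ep Ω P') * hh Ω Q' :=
    mul_le_mul_of_nonneg_right (log_mx_le hΩ P') (hh_nonneg _ _)
  rw [r1]
  linarith

end node

end Pool.Agent.H85.AK
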