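import Pool.Agent.H85.AK.Slp4
import Pool.Agent.H85.AK.Fin2

/-!
Finitely generated groups of scalars: the weak type inequality.
-/

set_option autoImplicit false

namespace Pool.Agent.H85.AK

open Finset
open scoped Pointwise

/-- the weak type inequality for one group -/
def GWT (F : Type) [Field F] (M : Type) [AddCommGroup M] (n : ℕ) (g : M → F) (ε θ E : ℝ) : Prop :=
  ∀ (V : Type) [AddCommGroup V] [Module F V] [DecidableEq V] (A C B : Finset V) (R : Finset M),
    2 ≤ C.card → B.Nonempty → (R.card : ℝ) ≤ (C.card : ℝ) ^ θ →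
    ((A + B).card : ℝ) ≤ ((C.card : ℝ) * B.card) ^ (1 - ε) →
    ((∑ m ∈ R, (C.filter fun c => g m • c ∈ A).card : ℕ) : ℝ) ≤
      E * Real.log C.card ^ n * C.card

theorem half_le_log {c : ℕ} (hc : 2 ≤ c) : 1 / 2 ≤ Real.log (c : ℝ) := by
  have hc' : (2 : ℝ) ≤ c := by exact_mod_cast hc
  have h1 : Real.log 2 ≤ Real.log (c : ℝ) := Real.log_le_log (by norm_num) hc'
  have h2 := Real.log_two_gt_d9
  linarith

theorem pow_log_le {l : ℝ} (hl : 1 / 2 ≤ l) {a b : ℕ} (hab : a ≤ b) : l ^ a ≤ 2 ^ b * l ^ b := by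
  obtain ⟨d, rfl⟩ := Nat.exists_eq_add_of_le hab
  have h1 : 1 ≤ (2 * l) ^ d := one_le_pow₀ (by linarith)
  have h2 : (1 : ℝ) ≤ 2 ^ a := one_le_pow₀ (by norm_num)
  have h3 : 0 ≤ l ^ a := by positivity
  calc l ^ a = 1 * (1 * l ^ a) := by ring
    _ ≤ 2 ^ a * ((2 * l) ^ d * l ^ a) := by
        apply mul_le_mul h2 _ (by positivity) (by positivity)
        exact mul_le_mul_of_nonneg_right h1 h3
    _ = 2 ^ (a + d) * l ^ (a + d) := by
        rw [mul_pow, pow_add, pow_add]
        ring

/-- a non-trivial valuation -/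
theorem group_valW {F : Type} [Field F] {n : ℕ} {M : Type} [AddCommGroup M] [Module.Free ℤ M]
    [Module.Finite ℤ M] (hn : Module.finrank ℤ M = n) {g : M → F} (h0 : g 0 = 1)
    (hm : ∀ m n, g (m + n) = g m * g n) {ε : ℝ} (hε : 0 < ε) (hε1 : ε ≤ 1)
    {m1 : M} (hm1 : ¬ IsIntegral ℤ (g m1))
    (ih : ∀ N : Submodule ℤ M, Module.finrank ℤ N < n → ∃ θ E : ℝ, 0 < θ ∧ θ ≤ 1 ∧ 1 ≤ E ∧
      GWT F N (Module.finrank ℤ N) (fun m => g m) (ε / 2) θ E) :
    ∃ θ E : ℝ, 0 < θ ∧ θ ≤ 1 ∧ 1 ≤ E ∧ GWT F M n g ε θ E := by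
  classical
  obtain ⟨Γ₀, inst, v, hv⟩ := Pool.Agent.H591.AKVal.s_valex F (g m1) hm1
  set N : Submodule ℤ M := AddSubgroup.toIntSubmodule (kerv v g h0 hm) with hN
  have hNmem : ∀ m, m ∈ N ↔ v (g m) = 1 := fun m => Iff.rfl
  have hrank : Module.finrank ℤ N < n := by
    rw [← hn]
    apply Pool.Agent.H947.AKRank.s_rank M N
    · intro k m hk h
      exact kerv_sat v h0 hm k m hk h
    · intro htop
      have h1 : m1 ∈ N := by
        rw [htop]
        exact Submodule.mem_top
      rw [hNmem] at h1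
      rw [h1] at hv
      exact lt_irrefl _ hv
  obtain ⟨θ1, E1, hθ1, hθ11, hE1, hP⟩ := ih N hrank
  set n' : ℕ := Module.finrank ℤ N with hn'
  set E0 : ℝ := Real.exp (331 / ε) with hE0
  have hE0p : 0 < E0 := Real.exp_pos _
  refine ⟨min (θ1 / 2) (ε / 4), 2 ^ n * (E1 * E0 + 1), lt_min (by positivity) (by positivity),
    (min_le_left _ _).trans (by linarith), ?_, ?_⟩
  · have h1 : (1 : ℝ) ≤ 2 ^ n := one_le_pow₀ (by norm_num)
    have h2 : 0 ≤ E1 * E0 := by positivity
    calc (1 : ℝ) = 1 * 1 := by norm_num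
      _ ≤ 2 ^ n * (E1 * E0 + 1) := mul_le_mul h1 (by linarith) (by norm_num) (by positivity)
  intro V _ _ _ A C B R hC hB hRC hAB
  have hC2 : (2 : ℝ) ≤ C.card := by exact_mod_cast hC
  have hC0 : (0 : ℝ) < C.card := by linarith
  have hB1 : (1 : ℝ) ≤ B.card := by exact_mod_cast card_pos.2 hB
  have hlog2 := half_le_log hC
  have hlog : 0 ≤ Real.log (C.card : ℝ) := by linarith
  set κ : M → Γ₀ := fun m => v (g m) with hκ
  set Ry : Γ₀ → Finset M := fun y => R.filter fun m => κ m = y with hRy
  set Cy : Γ₀ → Finset V := fun y => C.filter fun c => ∃ m ∈ R, κ m = y ∧ g m • c ∈ A with hCy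
  have hRC1 : (R.card : ℝ) ≤ (C.card : ℝ) ^ (θ1 / 2) :=
    hRC.trans (Real.rpow_le_rpow_of_exponent_le (by linarith) (min_le_left _ _))
  have hRC2 : (R.card : ℝ) ≤ (C.card : ℝ) ^ (ε / 4) :=
    hRC.trans (Real.rpow_le_rpow_of_exponent_le (by linarith) (min_le_right _ _))
  -- the weak type inequality for the valuation
  have hval : ∑ y ∈ R.image κ, ((Cy y).card : ℝ) ≤ E0 * (C.card * Real.log C.card) := by
    have h1 := valW hε hε1 v V A C B (R.image g) hC hB (by
        refine le_trans ?_ hRC2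
        exact_mod_cast card_image_le) (by
        intro r hr
        obtain ⟨m, _, rfl⟩ := mem_image.1 hr
        exact g_ne h0 hm m) hAB
    rw [sum_actv] at h1
    push_cast at h1
    have e1 : (R.image g).image v = R.image κ := by
      rw [image_image]
      rfl
    rw [e1] at h1
    refine le_trans (le_of_eq ?_) h1
    apply sum_congr rfl
    intro y _
    congr 2
    ext c
    simp only [hCy, mem_filter, mem_image]
    constructor
    · rintro ⟨h1', m, h2, h3, h4⟩
      exact ⟨h1', g m, ⟨m, h2, rfl⟩, h3, h4⟩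
    · rintro ⟨h1', _, ⟨m, h2, rfl⟩, h3, h4⟩
      exact ⟨h1', m, h2, h3, h4⟩
  -- the decomposition
  have hdec : ∑ m ∈ R, (C.filter fun c => g m • c ∈ A).card =
      ∑ y ∈ R.image κ, ∑ m ∈ Ry y, ((Cy y).filter fun c => g m • c ∈ A).card := by
    rw [← sum_fiberwise_of_maps_to (s := R) (t := R.image κ) (g := κ)
      (fun m hm' => mem_image_of_mem _ hm')]
    apply sum_congr rfl
    intro y _
    apply sum_congr rfl
    intro m hm'
    obtain ⟨h1, h2⟩ := mem_filter.1 hm'
    congr 1
    ext c
    simp only [hCy, mem_filter]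
    constructor
    · rintro ⟨h3, h4⟩
      exact ⟨⟨h3, m, h1, h2, h4⟩, h4⟩
    · rintro ⟨⟨h3, _⟩, h4⟩
      exact ⟨h3, h4⟩
  -- one class
  have hone : ∀ y ∈ R.image κ,
      ((∑ m ∈ Ry y, ((Cy y).filter fun c => g m • c ∈ A).card : ℕ) : ℝ) ≤
      E1 * Real.log C.card ^ n' * (Cy y).card + (Ry y).card * (C.card : ℝ) ^ (1 - ε / 2) := by
    intro y hy
    have hCyle : ((Cy y).card : ℝ) ≤ C.card := by exact_mod_cast card_filter_le _ _
    have p1 : 0 ≤ E1 * Real.log C.card ^ n' * (Cy y).card := by positivity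
    have p2 : 0 ≤ (Ry y).card * (C.card : ℝ) ^ (1 - ε / 2) := by positivity
    by_cases hbig : (C.card : ℝ) ^ (1 - ε / 2) ≤ (Cy y).card
    · have hgt : (1 : ℝ) < (Cy y).card := by
        refine lt_of_lt_of_le ?_ hbig
        apply Real.one_lt_rpow (by linarith)
        linarith
      have hge : 2 ≤ (Cy y).card := by
        have : 1 < (Cy y).card := by exact_mod_cast hgt
        omega
      obtain ⟨m0, hm0R, hm0⟩ := mem_image.1 hy
      have hsub : ∀ m ∈ Ry y, m - m0 ∈ N := by
        intro m hm'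
        rw [hNmem]
        have h1 : v (g m) = y := (mem_filter.1 hm').2
        have h2 : v (g m0) = y := hm0
        have h3 := hm (m - m0) m0
        rw [sub_add_cancel] at h3
        have h4 := congrArg v h3
        rw [map_mul, h1, h2] at h4
        have hw0 : y ≠ 0 := by
          rw [← h2]
          exact (Valuation.ne_zero_iff v).2 (g_ne h0 hm m0)
        have h5 : 1 * y = v (g (m - m0)) * y := by rw [one_mul]; exact h4
        exact (mul_right_cancel₀ hw0 h5).symm
      set f : M → N := fun m => if h : m - m0 ∈ N then ⟨m - m0, h⟩ else 0 with hf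
      have hfc : ∀ m ∈ Ry y, ((f m : N) : M) = m - m0 := by
        intro m hm'
        simp only [hf]
        rw [dif_pos (hsub m hm')]
      have hfinj : Set.InjOn f (Ry y : Set M) := by
        intro a ha b hb h
        have h1 : ((f a : N) : M) = f b := congrArg (fun u : N => (u : M)) h
        rw [hfc a ha, hfc b hb] at h1
        exact sub_left_inj.1 h1
      have hg0 := g_ne h0 hm m0
      have hsm : Function.Injective fun c : V => g m0 • c := MulAction.injective₀ hg0
      have hCc : ((Cy y).image fun c => g m0 • c).card = (Cy y).card :=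
        card_image_of_injective _ hsm
      have key := hP V A ((Cy y).image fun c => g m0 • c) B ((Ry y).image f)
        (by rw [hCc]; exact hge) hB (by
          rw [hCc, card_image_of_injOn hfinj]
          have h5 : ((Ry y).card : ℝ) ≤ R.card := by exact_mod_cast card_filter_le _ _
          refine h5.trans (hRC1.trans ?_)
          have h6 : ((C.card : ℝ) ^ (1 - ε / 2)) ^ θ1 ≤ ((Cy y).card : ℝ) ^ θ1 :=
            Real.rpow_le_rpow (by positivity) hbig hθ1.le
          refine le_trans ?_ h6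
          rw [← Real.rpow_mul hC0.le]
          apply Real.rpow_le_rpow_of_exponent_le (by linarith)
          nlinarith) (by
          rw [hCc]
          exact hAB.trans (sub_power hε hε1 (by linarith) hB1 hbig))
      rw [hCc] at key
      have h7 : ∑ m ∈ Ry y, ((Cy y).filter fun c => g m • c ∈ A).card ≤
          ∑ m ∈ (Ry y).image f, (((Cy y).image fun c => g m0 • c).filter fun c =>
            g (m : M) • c ∈ A).card := by
        rw [sum_image hfinj]
        apply sum_le_sum
        intro m hm'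
        apply card_le_card_of_injOn (fun s => g m0 • s)
        · intro s hs
          obtain ⟨h1, h2⟩ := mem_filter.1 hs
          refine mem_filter.2 ⟨mem_image_of_mem _ h1, ?_⟩
          have e : g (f m : N) • (g m0 • s) = g m • s := by
            rw [hfc m hm', smul_smul, ← hm, sub_add_cancel]
          show g (f m : N) • (g m0 • s) ∈ A
          rw [e]
          exact h2
        · intro s _ s' _ h
          exact hsm h
      have h8 : ((∑ m ∈ Ry y, ((Cy y).filter fun c => g m • c ∈ A).card : ℕ) : ℝ) ≤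
          E1 * Real.log (Cy y).card ^ n' * (Cy y).card := le_trans (Nat.cast_le.2 h7) key
      have h9 : Real.log ((Cy y).card : ℝ) ^ n' ≤ Real.log (C.card : ℝ) ^ n' :=
        pow_le_pow_left₀ (Real.log_natCast_nonneg _) (Real.log_le_log (by linarith) hCyle) _
      have h10 : E1 * Real.log (Cy y).card ^ n' * (Cy y).card ≤
          E1 * Real.log C.card ^ n' * (Cy y).card := by
        apply mul_le_mul_of_nonneg_right _ (Nat.cast_nonneg _)
        exact mul_le_mul_of_nonneg_left h9 (by linarith)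
      linarith
    · push Not at hbig
      have h4 : ∑ m ∈ Ry y, ((Cy y).filter fun c => g m • c ∈ A).card ≤
          (Ry y).card * (Cy y).card := by
        rw [← smul_eq_mul, ← sum_const]
        exact sum_le_sum fun m _ => card_filter_le _ _
      have h5 : ((∑ m ∈ Ry y, ((Cy y).filter fun c => g m • c ∈ A).card : ℕ) : ℝ) ≤
          (Ry y).card * (Cy y).card := by exact_mod_cast h4
      have h6 : ((Ry y).card : ℝ) * (Cy y).card ≤ (Ry y).card * (C.card : ℝ) ^ (1 - ε / 2) :=
        mul_le_mul_of_nonneg_left hbig.le (Nat.cast_nonneg _)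
      linarith
  -- the sum
  have hsum : ((∑ m ∈ R, (C.filter fun c => g m • c ∈ A).card : ℕ) : ℝ) ≤
      E1 * Real.log C.card ^ n' * (E0 * (C.card * Real.log C.card)) +
      R.card * (C.card : ℝ) ^ (1 - ε / 2) := by
    rw [hdec]
    have h1 := sum_le_sum hone
    rw [sum_add_distrib, ← mul_sum, ← sum_mul] at h1
    have e2 : (R.card : ℝ) = ∑ y ∈ R.image κ, ((Ry y).card : ℝ) := by
      have h5 : R.card = ∑ y ∈ R.image κ, (Ry y).card :=
        card_eq_sum_card_fiberwise fun r hr => mem_image_of_mem _ hr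
      rw [h5]
      push_cast
      rfl
    rw [← e2] at h1
    have h2 := mul_le_mul_of_nonneg_left hval (show 0 ≤ E1 * Real.log C.card ^ n' by positivity)
    push_cast at h1 ⊢
    linarith
  have h5 : (R.card : ℝ) * (C.card : ℝ) ^ (1 - ε / 2) ≤ C.card := by
    calc (R.card : ℝ) * (C.card : ℝ) ^ (1 - ε / 2)
        ≤ (C.card : ℝ) ^ (ε / 4) * (C.card : ℝ) ^ (1 - ε / 2) :=
          mul_le_mul_of_nonneg_right hRC2 (by positivity)
      _ = (C.card : ℝ) ^ (ε / 4 + (1 - ε / 2)) := (Real.rpow_add hC0 _ _).symm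
      _ ≤ (C.card : ℝ) ^ (1 : ℝ) := by
          apply Real.rpow_le_rpow_of_exponent_le (by linarith)
          linarith
      _ = C.card := Real.rpow_one _
  have h6 : Real.log (C.card : ℝ) ^ (n' + 1) ≤ 2 ^ n * Real.log C.card ^ n :=
    pow_log_le hlog2 (by omega)
  have h7 : (1 : ℝ) ≤ 2 ^ n * Real.log C.card ^ n := by
    have := pow_log_le hlog2 (Nat.zero_le n)
    rw [pow_zero] at this
    exact this
  calc ((∑ m ∈ R, (C.filter fun c => g m • c ∈ A).card : ℕ) : ℝ)
      ≤ E1 * E0 * Real.log C.card ^ (n' + 1) * C.card + 1 * C.card := by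
        refine (hsum.trans (add_le_add le_rfl h5)).trans (le_of_eq ?_)
        ring
    _ ≤ E1 * E0 * (2 ^ n * Real.log C.card ^ n) * C.card +
        (2 ^ n * Real.log C.card ^ n) * C.card := by
        apply add_le_add
        · apply mul_le_mul_of_nonneg_right _ hC0.le
          exact mul_le_mul_of_nonneg_left h6 (by positivity)
        · exact mul_le_mul_of_nonneg_right h7 hC0.le
    _ = 2 ^ n * (E1 * E0 + 1) * Real.log C.card ^ n * C.card := by ring

/-- a group of units -/
theorem group_unitW {F : Type} [Field F] [CharZero F] {n : ℕ} {M : Type} [AddCommGroup M]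
    [Module.Free ℤ M] [Module.Finite ℤ M] (hn : Module.finrank ℤ M = n) {g : M → F}
    (h0 : g 0 = 1)
    (hm : ∀ m n, g (m + n) = g m * g n) (hinj : Function.Injective g) {ε : ℝ}
    (hε : 0 < ε) (hε1 : ε ≤ 1) (hint : ∀ m, IsIntegral ℤ (g m)) :
    ∃ θ E : ℝ, 0 < θ ∧ θ ≤ 1 ∧ 1 ≤ E ∧ GWT F M n g ε θ E := by
  classical
  obtain ⟨k, instk, inst2, x, σ, hx, hfin⟩ :=
    Pool.Agent.H236.AK.s_unit Pool.Agent.H297.AKLin.s_lin F M g h0 hm hinj hint
  subst hn
  have hainj : Function.Injective (algebraMap k F) := (algebraMap k F).injective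
  have hxm : ∀ m n, x (m + n) = x m * x n := by
    intro m n
    apply hainj
    rw [map_mul, hx, hx, hx, hm]
  have hx0 : x 0 = 1 := by
    apply hainj
    rw [hx, h0, map_one]
  have hxne : ∀ m, x m ≠ 0 := fun m => g_ne hx0 hxm m
  set N0 : ℕ := hfin.toFinset.card with hN0
  have hN1 : 1 ≤ N0 := by
    apply card_pos.2
    refine ⟨0, ?_⟩
    rw [Set.Finite.mem_toFinset]
    intro j
    rw [hx0, map_one, norm_one]
    norm_num
  set E : ℝ := Real.exp (662 / ε) with hE
  have h4E : 4 ≤ E := four_le_exp hε hε1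
  refine ⟨ε / 16, N0 * (2 * E ^ (Module.finrank ℤ M)), by positivity, by linarith, ?_, ?_⟩
  · have h1 : (1 : ℝ) ≤ N0 := by exact_mod_cast hN1
    have h2 : (1 : ℝ) ≤ E ^ (Module.finrank ℤ M) := one_le_pow₀ (by linarith)
    calc (1 : ℝ) = 1 * 1 := by norm_num
      _ ≤ N0 * (2 * E ^ (Module.finrank ℤ M)) := mul_le_mul h1 (by linarith) (by norm_num) (by positivity)
  intro V _ _ _ A C B R hC hB hRC hAB
  have hC2 : (2 : ℝ) ≤ C.card := by exact_mod_cast hC
  have hC0 : (0 : ℝ) < C.card := by linarith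
  set fl : Fin (Module.finrank ℤ M) → k → ℤ := fun j r => Int.log 3 ‖σ j r‖ with hfl
  have hpos : ∀ j m, 0 < ‖σ j (x m)‖ := by
    intro j m
    rw [norm_pos_iff]
    exact (map_ne_zero (σ j)).2 (hxne m)
  have hfl1 : ∀ j m, (3 : ℝ) ^ (fl j (x m)) ≤ ‖σ j (x m)‖ := by
    intro j m
    exact_mod_cast Int.zpow_log_le_self (b := 3) (by norm_num) (hpos j m)
  have hfl2 : ∀ j m, ‖σ j (x m)‖ < (3 : ℝ) ^ (fl j (x m) + 1) := by
    intro j m
    exact_mod_cast Int.lt_zpow_succ_log_self (b := 3) (by norm_num) ‖σ j (x m)‖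
  let _ : Module k V := Module.compHom V (algebraMap k F)
  have e6 : 331 / (ε / 2) = 662 / ε := by
    field_simp
    norm_num
  have hA : ∀ j, WT k (fl j) (ε / 2) E := by
    intro j
    rw [hE, ← e6]
    exact arcW (by positivity) (by linarith) (σ j)
  have h1 := iter_all (fun _ : k => ()) hε hε1 h4E A C B (R.image x) hC hB (by
      refine le_trans ?_ hRC
      exact_mod_cast card_image_le) (by
      intro r hr
      obtain ⟨m, _, rfl⟩ := mem_image.1 hr
      exact hxne m) hAB (Module.finrank ℤ M) fl hA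
  have h2 := TT_unit A C (R.image x)
  -- the fibres
  have hfib : ∀ c ∈ C, (R.filter fun m => g m • c ∈ A).card ≤
      N0 * ((actv A (R.image x) c).image fun r => ((), fun j => fl j r)).card := by
    intro c _
    have h3 : (R.filter fun m => g m • c ∈ A).card ≤
        N0 * ((R.filter fun m => g m • c ∈ A).image fun m => ((), fun j => fl j (x m))).card := by
      apply card_le_mul_card_image
      intro a ha
      obtain ⟨m', hm', rfl⟩ := mem_image.1 ha
      apply card_le_card_of_injOn (fun m => m - m')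
      · intro m hm1
        have h2 := (mem_filter.1 hm1).2
        rw [Set.Finite.coe_toFinset]
        intro j
        have h3 : fl j (x m) = fl j (x m') := congrFun (Prod.ext_iff.1 h2).2 j
        have h4 := hxm (m - m') m'
        rw [sub_add_cancel] at h4
        have h5 : ‖σ j (x m)‖ = ‖σ j (x (m - m'))‖ * ‖σ j (x m')‖ := by
          rw [h4, map_mul, norm_mul]
        have a1 := hfl1 j m
        have a2 := hfl2 j m
        have a3 := hfl1 j m'
        have a4 := hfl2 j m'
        rw [h3] at a1 a2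
        have p := hpos j m'
        have e3 : (3 : ℝ) ^ (fl j (x m') + 1) = 3 ^ (fl j (x m')) * 3 := by
          rw [zpow_add₀ (by norm_num), zpow_one]
        rw [e3] at a2 a4
        constructor
        · have h6 : 1 / 3 * ‖σ j (x m')‖ < ‖σ j (x (m - m'))‖ * ‖σ j (x m')‖ := by
            rw [← h5]
            linarith
          exact lt_of_mul_lt_mul_right h6 p.le
        · have h6 : ‖σ j (x (m - m'))‖ * ‖σ j (x m')‖ < 3 * ‖σ j (x m')‖ := by
            rw [← h5]
            linarith
          exact lt_of_mul_lt_mul_right h6 p.le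
      · intro a _ b _ h
        exact sub_left_inj.1 h
    refine h3.trans (Nat.mul_le_mul_left _ (card_le_card ?_))
    intro y hy
    obtain ⟨m, hm', rfl⟩ := mem_image.1 hy
    obtain ⟨h5, h6⟩ := mem_filter.1 hm'
    refine mem_image.2 ⟨x m, mem_filter.2 ⟨mem_image_of_mem _ h5, ?_⟩, rfl⟩
    rw [← hx] at h6
    exact h6
  have h3 : ∑ m ∈ R, (C.filter fun c => g m • c ∈ A).card =
      ∑ c ∈ C, (R.filter fun m => g m • c ∈ A).card := by
    simp only [card_filter]
    exact sum_comm
  have h4 : ((∑ m ∈ R, (C.filter fun c => g m • c ∈ A).card : ℕ) : ℝ) ≤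
      N0 * TT A C (R.image x) (fun r => ((), fun j => fl j r)) := by
    rw [h3]
    unfold TT
    have h5 := sum_le_sum hfib
    rw [← mul_sum] at h5
    exact_mod_cast h5
  have hN0' : (0 : ℝ) ≤ N0 := Nat.cast_nonneg _
  calc ((∑ m ∈ R, (C.filter fun c => g m • c ∈ A).card : ℕ) : ℝ)
      ≤ N0 * TT A C (R.image x) (fun r => ((), fun j => fl j r)) := h4
    _ ≤ N0 * ((E * Real.log C.card) ^ (Module.finrank ℤ M) * (C.card + C.card)) := by
        apply mul_le_mul_of_nonneg_left _ hN0'
        have h5 : (E * Real.log C.card) ^ (Module.finrank ℤ M) * (TT A C (R.image x) (fun _ : k => ()) + C.card) ≤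
            (E * Real.log C.card) ^ (Module.finrank ℤ M) * (C.card + C.card) := by
          apply mul_le_mul_of_nonneg_left _
          · have := Real.log_natCast_nonneg C.card
            positivity
          · linarith
        linarith
    _ = N0 * (2 * E ^ (Module.finrank ℤ M)) * Real.log C.card ^ (Module.finrank ℤ M) * C.card := by
        rw [mul_pow]
        ring

/-- a trivial group -/
theorem group_trivW {F : Type} [Field F] {n : ℕ} {M : Type} [AddCommGroup M] [Subsingleton M]
    {g : M → F} {ε : ℝ} : ∃ θ E : ℝ, 0 < θ ∧ θ ≤ 1 ∧ 1 ≤ E ∧ GWT F M n g ε θ E := by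
  refine ⟨1, 2 ^ n, one_pos, le_rfl, one_le_pow₀ (by norm_num), ?_⟩
  intro V _ _ _ A C B R hC _ _ _
  have h1 : R.card ≤ 1 := card_le_one.2 fun a _ b _ => Subsingleton.elim a b
  have h2 : ∑ m ∈ R, (C.filter fun c => g m • c ∈ A).card ≤ C.card := by
    calc ∑ m ∈ R, (C.filter fun c => g m • c ∈ A).card ≤ ∑ m ∈ R, C.card :=
          sum_le_sum fun _ _ => card_filter_le _ _
      _ = R.card * C.card := by rw [sum_const, smul_eq_mul]
      _ ≤ 1 * C.card := Nat.mul_le_mul_right _ h1
      _ = C.card := one_mul _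
  have h3 : ((∑ m ∈ R, (C.filter fun c => g m • c ∈ A).card : ℕ) : ℝ) ≤ C.card := by
    exact_mod_cast h2
  have h7 : (1 : ℝ) ≤ 2 ^ n * Real.log C.card ^ n := by
    have := pow_log_le (half_le_log hC) (Nat.zero_le n)
    rw [pow_zero] at this
    exact this
  calc ((∑ m ∈ R, (C.filter fun c => g m • c ∈ A).card : ℕ) : ℝ) ≤ 1 * C.card := by
        rw [one_mul]
        exact h3
    _ ≤ 2 ^ n * Real.log C.card ^ n * C.card := mul_le_mul_of_nonneg_right h7 (Nat.cast_nonneg _)

/-- **finitely generated free groups of scalars** -/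
theorem group_popW (F : Type) [Field F] (n : ℕ) : ∀ (M : Type) [AddCommGroup M] [Module.Free ℤ M]
    [Module.Finite ℤ M], Module.finrank ℤ M = n → ∀ g : M → F, g 0 = 1 →
    (∀ m n, g (m + n) = g m * g n) → Function.Injective g → ∀ ε : ℝ, 0 < ε → ε ≤ 1 →
    ∃ θ E : ℝ, 0 < θ ∧ θ ≤ 1 ∧ 1 ≤ E ∧ GWT F M n g ε θ E := by
  induction n using Nat.strong_induction_on with
  | _ n ih =>
    intro M _ _ _ hn g h0 hm hinj ε hε hε1
    by_cases hint : ∀ m, IsIntegral ℤ (g m)
    · obtain ⟨p, hp⟩ := CharP.exists F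
      rcases CharP.char_is_prime_or_zero F p with hpp | hp0
      · haveI : Fact p.Prime := ⟨hpp⟩
        haveI : Subsingleton M := by
          refine ⟨fun a b => ?_⟩
          have h1 : ∀ m : M, m = 0 := by
            intro m
            obtain ⟨k, hk, hpow⟩ := Pool.Agent.H591.AKVal.s_charp F p (g m) (g_ne h0 hm m) (hint m)
            rw [← g_nsmul h0 hm, ← h0] at hpow
            have h2 := hinj hpow
            rw [← natCast_zsmul, smul_eq_zero] at h2
            rcases h2 with h2 | h2
            · omega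
            · exact h2
          rw [h1 a, h1 b]
        exact group_trivW
      · subst hp0
        haveI : CharZero F := CharP.charP_to_charZero F
        exact group_unitW hn h0 hm hinj hε hε1 hint
    · push Not at hint
      obtain ⟨m1, hm1⟩ := hint
      refine group_valW hn h0 hm hε hε1 hm1 ?_
      intro N hN
      exact ih (Module.finrank ℤ N) hN N rfl (fun m => g m) h0 (fun m n => hm m n)
        (fun a b h => Subtype.ext (hinj h)) (ε / 2) (by positivity) (by linarith)

end Pool.Agent.H85.AK
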