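import Pool.Agent.H85.AK.Str4

/-!
Families of subsets instead of one set: the scalar is recorded in a second coordinate.
-/

set_option autoImplicit false

namespace Pool.Agent.H85.AK

open Finset
open scoped Pointwise

set_option maxHeartbeats 400000

/-- **the scalar as a coordinate** -/
theorem tag {F V : Type} [Field F] [AddCommGroup V] [Module F V] [DecidableEq V]
    [DecidableEq (V × F)] (B C : Finset V) (R : Finset F) (D : F → Finset V)
    (hD : ∀ r ∈ R, D r ⊆ C) (M : ℝ) (hM : ∀ r ∈ R, ((r • D r + B).card : ℝ) ≤ M) :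
    ∃ A' B' : Finset (V × F), B'.card = B.card ∧ (B.Nonempty → B'.Nonempty) ∧
      ((A' + B').card : ℝ) ≤ R.card * M ∧
      (C.image fun c => ((c, 1) : V × F)).card = C.card ∧
      (∀ r ∈ R, ∀ c ∈ D r, r • ((c, 1) : V × F) ∈ A') ∧
      ∀ r ∈ R, (D r).card ≤
        (((C.image fun c => ((c, 1) : V × F))).filter fun c => r • c ∈ A').card := by
  classical
  have hinj1 : ∀ s : F, Function.Injective fun c : V => ((c, s) : V × F) :=
    fun s a b h => (Prod.ext_iff.1 h).1
  set A' : Finset (V × F) := R.biUnion fun r => (D r).image fun c => (r • c, r) with hA'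
  set B' : Finset (V × F) := B.image fun b => (b, 0) with hB'
  have hmem : ∀ r ∈ R, ∀ c ∈ D r, r • ((c, 1) : V × F) ∈ A' := by
    intro r hr c hc
    refine mem_biUnion.2 ⟨r, hr, mem_image.2 ⟨c, hc, ?_⟩⟩
    rw [Prod.smul_mk, smul_eq_mul, mul_one]
  refine ⟨A', B', card_image_of_injective _ (hinj1 0), fun h => h.image _, ?_,
    card_image_of_injective _ (hinj1 1), hmem, ?_⟩
  · have h1 : A' + B' ⊆ R.biUnion fun r => (r • D r + B).image fun x => (x, r) := by
      intro z hz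
      obtain ⟨x, hx, y, hy, rfl⟩ := mem_add.1 hz
      obtain ⟨r, hr, hx'⟩ := mem_biUnion.1 hx
      obtain ⟨c, hc, rfl⟩ := mem_image.1 hx'
      obtain ⟨b, hb, rfl⟩ := mem_image.1 hy
      refine mem_biUnion.2 ⟨r, hr, mem_image.2 ⟨r • c + b, add_mem_add (smul_mem_smul_finset hc) hb,
        ?_⟩⟩
      rw [Prod.mk_add_mk, add_zero]
    calc ((A' + B').card : ℝ)
        ≤ ((R.biUnion fun r => (r • D r + B).image fun x => ((x, r) : V × F)).card : ℝ) := by
          exact_mod_cast card_le_card h1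
      _ ≤ ((∑ r ∈ R, ((r • D r + B).image fun x => ((x, r) : V × F)).card : ℕ) : ℝ) := by
          exact_mod_cast card_biUnion_le
      _ = ∑ r ∈ R, ((r • D r + B).card : ℝ) := by
          push_cast
          apply sum_congr rfl
          intro r _
          rw [card_image_of_injective _ (hinj1 r)]
      _ ≤ ∑ _r ∈ R, M := sum_le_sum hM
      _ = R.card * M := by rw [sum_const, nsmul_eq_mul]
  · intro r hr
    rw [← card_image_of_injective (D r) (hinj1 1)]
    apply card_le_card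
    intro z hz
    obtain ⟨c, hc, rfl⟩ := mem_image.1 hz
    exact mem_filter.2 ⟨mem_image_of_mem _ (hD r hr hc), hmem r hr c hc⟩

/-- the loss in the exponent -/
theorem tag_power {ε : ℝ} (hε : 0 < ε) {c b n : ℝ} (hc : 1 ≤ c) (hb : 1 ≤ b)
    (hn : n ≤ c ^ (ε / 17)) : n * (c * b) ^ (1 - ε) ≤ (c * b) ^ (1 - 16 * ε / 17) := by
  have hc0 : 0 < c := by linarith
  have hcb : 1 ≤ c * b := by nlinarith
  have hcb0 : 0 < c * b := by linarith
  calc n * (c * b) ^ (1 - ε) ≤ c ^ (ε / 17) * (c * b) ^ (1 - ε) :=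
        mul_le_mul_of_nonneg_right hn (Real.rpow_nonneg hcb0.le _)
    _ ≤ (c * b) ^ (ε / 17) * (c * b) ^ (1 - ε) := by
        apply mul_le_mul_of_nonneg_right _ (Real.rpow_nonneg hcb0.le _)
        apply Real.rpow_le_rpow hc0.le _ (by positivity)
        nlinarith
    _ = (c * b) ^ (1 - 16 * ε / 17) := by
        rw [← Real.rpow_add hcb0]
        congr 1
        ring

theorem exp704 {ε : ℝ} (hε : 0 < ε) : Real.exp (662 / (16 * ε / 17)) ≤ Real.exp (704 / ε) := by
  rw [Real.exp_le_exp, div_le_div_iff₀ (by positivity) hε]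
  nlinarith

/-- **a rational number determined by its valuations at given primes, families of subsets** -/
theorem rat_lin3 {ε : ℝ} (hε : 0 < ε) (hε1 : ε ≤ 1) {V : Type} [AddCommGroup V] [Module ℚ V]
    [DecidableEq V] (T : Finset ℕ) (hT : ∀ p ∈ T, p.Prime) (B C : Finset V) (K : ℝ) (hK : 1 ≤ K)
    (R : Finset ℚ) (D : ℚ → Finset V) (hC : 2 ≤ C.card) (hB : B.Nonempty)
    (hKC : 8 * K * (Real.exp (704 / ε) * Real.log C.card) ^ T.card ≤ (C.card : ℝ) ^ (ε / 17))
    (hR0 : ∀ r ∈ R, r ≠ 0)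
    (hRT : ∀ r ∈ R, ∀ r' ∈ R, (∀ p ∈ T, padicValRat p (r' / r) = 0) → r' / r = 1 ∨ r' / r = -1)
    (hR : ∀ r ∈ R, D r ⊆ C ∧ (C.card : ℝ) ≤ K * ((D r).card : ℝ) ∧
      ((r • D r + B).card : ℝ) ≤ ((C.card : ℝ) * B.card) ^ (1 - ε)) :
    (R.card : ℝ) ≤ 4 * K * (Real.exp (704 / ε) * Real.log C.card) ^ T.card := by
  classical
  by_contra hcon
  push Not at hcon
  have hC2 : (2 : ℝ) ≤ C.card := by exact_mod_cast hC
  have hCpos : (0 : ℝ) < C.card := by linarith
  have hB1 : (1 : ℝ) ≤ B.card := by exact_mod_cast card_pos.2 hB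
  have hK0 : 0 < K := by linarith
  have hlog := half_le_log hC
  have hη : 0 < 16 * ε / 17 := by positivity
  have hη1 : 16 * ε / 17 ≤ 1 := by linarith
  have h4E := four_le_exp hη hη1
  have hexp := exp704 hε
  set X : ℝ := (Real.exp (704 / ε) * Real.log C.card) ^ T.card with hX
  have hXX : (Real.exp (662 / (16 * ε / 17)) * Real.log C.card) ^ T.card ≤ X := by
    apply pow_le_pow_left₀ (by positivity)
    exact mul_le_mul_of_nonneg_right hexp (by linarith)
  have hX1 : 1 ≤ X := by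
    apply one_le_pow₀
    nlinarith
  have hY : (1 : ℝ) ≤ 4 * K * X := by nlinarith
  obtain ⟨S, hS, hSc⟩ := exists_subset_card_eq (s := R) (n := ⌊4 * K * X⌋₊ + 1) (by
    have h1 : ((⌊4 * K * X⌋₊ : ℕ) : ℝ) ≤ 4 * K * X := Nat.floor_le (by positivity)
    have h2 : ((⌊4 * K * X⌋₊ : ℕ) : ℝ) < R.card := by linarith
    have h3 : ⌊4 * K * X⌋₊ < R.card := by exact_mod_cast h2
    omega)
  have hScard : (S.card : ℝ) = (⌊4 * K * X⌋₊ : ℕ) + 1 := by
    rw [hSc]
    push_cast
    rfl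
  have h1 : (S.card : ℝ) ≤ (C.card : ℝ) ^ (ε / 17) := by
    rw [hScard]
    have h2 : ((⌊4 * K * X⌋₊ : ℕ) : ℝ) ≤ 4 * K * X := Nat.floor_le (by positivity)
    linarith
  have h2 : 4 * K * X < S.card := by
    rw [hScard]
    exact Nat.lt_floor_add_one _
  obtain ⟨A', B', hB', hBne, hAB, hCc, hmem, hcard⟩ := tag B C S D (fun r hr => (hR r (hS hr)).1)
    (((C.card : ℝ) * B.card) ^ (1 - ε)) (fun r hr => (hR r (hS hr)).2.2)
  have h3 := rat_lin2 hη hη1 T hT A' B' (C.image fun c => ((c, 1) : V × ℚ)) K hK S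
    (by rw [hCc]; exact hC) (hBne hB)
    (by
      rw [hCc]
      have e : 16 * ε / 17 / 16 = ε / 17 := by ring
      rw [e]
      refine le_trans ?_ hKC
      exact mul_le_mul_of_nonneg_left hXX (by positivity))
    (fun r hr => hR0 r (hS hr)) (fun r hr r' hr' => hRT r (hS hr) r' (hS hr'))
    (by
      intro r hr
      rw [hCc]
      refine (hR r (hS hr)).2.1.trans (mul_le_mul_of_nonneg_left ?_ hK0.le)
      exact_mod_cast hcard r hr)
    (by
      rw [hCc, hB']
      exact hAB.trans (tag_power hε (by linarith) hB1 h1))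
  rw [hCc] at h3
  have h4 : 4 * K * (Real.exp (662 / (16 * ε / 17)) * Real.log C.card) ^ T.card ≤ 4 * K * X :=
    mul_le_mul_of_nonneg_left hXX (by positivity)
  linarith

/-- **rational elements of a group of given rank, families of subsets** -/
theorem rat_group3 {ε : ℝ} (hε : 0 < ε) (hε1 : ε ≤ 1) (Γ : Subgroup ℚˣ) (hΓ : Γ.FG)
    {V : Type} [AddCommGroup V] [Module ℚ V]
    [DecidableEq V] (B C : Finset V) (K : ℝ) (hK : 1 ≤ K)
    (R : Finset ℚˣ) (D : ℚˣ → Finset V) (hC : 2 ≤ C.card) (hB : B.Nonempty)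
    (hKC : 8 * K * (Real.exp (704 / ε) * Real.log C.card) ^ Module.finrank ℤ (Additive Γ) ≤
      (C.card : ℝ) ^ (ε / 17))
    (hR : ∀ r ∈ R, r ∈ Γ ∧ D r ⊆ C ∧ (C.card : ℝ) ≤ K * ((D r).card : ℝ) ∧
      (((r : ℚ) • D r + B).card : ℝ) ≤ ((C.card : ℝ) * B.card) ^ (1 - ε)) :
    (R.card : ℝ) ≤
      4 * K * (Real.exp (704 / ε) * Real.log C.card) ^ Module.finrank ℤ (Additive Γ) := by
  classical
  obtain ⟨T, hTp, hTc, hT⟩ := group_primes Γ hΓ
  have hX1 : 1 ≤ Real.exp (704 / ε) * Real.log C.card := by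
    refine (one_le_X hε hε1 hC).trans ?_
    apply mul_le_mul_of_nonneg_right _ (Real.log_natCast_nonneg _)
    rw [Real.exp_le_exp]
    exact div_le_div_of_nonneg_right (by norm_num) hε.le
  have hpow := pow_le_pow_right₀ hX1 hTc
  have hQc : (R.image fun r : ℚˣ => (r : ℚ)).card = R.card :=
    card_image_of_injective _ fun a b h => Units.ext h
  have hu : ∀ u : ℚˣ, (if h : (u : ℚ) ≠ 0 then D (Units.mk0 (u : ℚ) h) else ∅) = D u := by
    intro u
    rw [dif_pos (Units.ne_zero u), Units.mk0_val]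
  have h1 := rat_lin3 hε hε1 T hTp B C K hK (R.image fun r : ℚˣ => (r : ℚ))
    (fun q => if h : q ≠ 0 then D (Units.mk0 q h) else ∅) hC hB
    (le_trans (mul_le_mul_of_nonneg_left hpow (by linarith)) hKC)
    (by
      intro r hr
      obtain ⟨u, _, rfl⟩ := mem_image.1 hr
      exact Units.ne_zero u)
    (by
      intro r hr r' hr' h
      obtain ⟨u, hu, rfl⟩ := mem_image.1 hr
      obtain ⟨u', hu', rfl⟩ := mem_image.1 hr'
      have e : ((u' / u : ℚˣ) : ℚ) = (u' : ℚ) / u := Units.val_div_eq_div_val _ _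
      rw [← e] at h ⊢
      exact hT _ (Γ.div_mem (hR u' hu').1 (hR u hu).1) h)
    (by
      intro r hr
      obtain ⟨u, hu', rfl⟩ := mem_image.1 hr
      simp only [hu]
      exact (hR u hu').2)
  rw [hQc] at h1
  exact h1.trans (mul_le_mul_of_nonneg_left hpow (by linarith))

end Pool.Agent.H85.AK
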