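import Pool.Agent.H85.AK.Slp3

/-!
Several places.
-/

set_option autoImplicit false

namespace Pool.Agent.H85.AK

open Finset
open scoped Pointwise

/-- the number of classes of active scalars, summed over `C` -/
noncomputable def TT {F V κ : Type*} [SMul F V] [DecidableEq V] [DecidableEq κ] (A C : Finset V)
    (R : Finset F) (u : F → κ) : ℝ :=
  ((∑ c ∈ C, ((actv A R c).image u).card : ℕ) : ℝ)

theorem TT_nonneg {F V κ : Type*} [SMul F V] [DecidableEq V] [DecidableEq κ] (A C : Finset V)
    (R : Finset F) (u : F → κ) : 0 ≤ TT A C R u := Nat.cast_nonneg _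

/-- the power inequality for subsets -/
theorem sub_power {ε : ℝ} (hε : 0 < ε) (hε1 : ε ≤ 1) {c c' b : ℝ} (hc : 1 ≤ c) (hb : 1 ≤ b)
    (h : c ^ (1 - ε / 2) ≤ c') : (c * b) ^ (1 - ε) ≤ (c' * b) ^ (1 - ε / 2) := by
  have hc0 : 0 < c := by linarith
  have hb0 : 0 < b := by linarith
  have h1 : (c ^ (1 - ε / 2) * b) ^ (1 - ε / 2) ≤ (c' * b) ^ (1 - ε / 2) := by
    apply Real.rpow_le_rpow (by positivity) _ (by linarith)
    exact mul_le_mul_of_nonneg_right h hb0.le
  refine le_trans ?_ h1
  rw [Real.mul_rpow hc0.le hb0.le, Real.mul_rpow (Real.rpow_nonneg hc0.le _) hb0.le,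
    ← Real.rpow_mul hc0.le]
  apply mul_le_mul
  · apply Real.rpow_le_rpow_of_exponent_le hc
    nlinarith
  · apply Real.rpow_le_rpow_of_exponent_le hb
    linarith
  · exact Real.rpow_nonneg hb0.le _
  · exact Real.rpow_nonneg hc0.le _

/-- **one more place** -/
theorem iter_step {F : Type} [Field F] {κ ι : Type} [DecidableEq κ] [DecidableEq ι] (u : F → κ)
    (w : F → ι) {ε E : ℝ} (hε : 0 < ε) (hε1 : ε ≤ 1) (hE : 0 ≤ E) (hw : WT F w (ε / 2) E)
    {V : Type} [AddCommGroup V] [Module F V] [DecidableEq V] (A C B : Finset V) (R : Finset F)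
    (hC : 2 ≤ C.card) (hB : B.Nonempty) (hRC : (R.card : ℝ) ≤ (C.card : ℝ) ^ (ε / 16))
    (hR0 : ∀ r ∈ R, r ≠ 0) (hAB : ((A + B).card : ℝ) ≤ ((C.card : ℝ) * B.card) ^ (1 - ε)) :
    TT A C R (fun r => (u r, w r)) ≤ E * Real.log C.card * TT A C R u + C.card := by
  have hC2 : (2 : ℝ) ≤ C.card := by exact_mod_cast hC
  have hC0 : (0 : ℝ) < C.card := by linarith
  have hB1 : (1 : ℝ) ≤ B.card := by exact_mod_cast card_pos.2 hB
  have hlog : 0 ≤ Real.log (C.card : ℝ) := Real.log_natCast_nonneg _
  set Ry : κ → Finset F := fun y => R.filter fun r => u r = y with hRy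
  set Cy : κ → Finset V := fun y => C.filter fun c => ∃ r ∈ R, u r = y ∧ r • c ∈ A with hCy
  -- the classes of the pair
  have h1 : ∀ c ∈ C, ((actv A R c).image fun r => (u r, w r)).card ≤
      ∑ y ∈ (actv A R c).image u, ((actv A (Ry y) c).image w).card := by
    intro c _
    have hsub : ((actv A R c).image fun r => (u r, w r)) ⊆
        ((actv A R c).image u).biUnion fun y => ((actv A (Ry y) c).image w).image fun i => (y, i) := by
      intro p hp
      obtain ⟨r, hr, rfl⟩ := mem_image.1 hp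
      obtain ⟨h2, h3⟩ := mem_filter.1 hr
      refine mem_biUnion.2 ⟨u r, mem_image_of_mem _ hr, ?_⟩
      refine mem_image_of_mem _ (mem_image_of_mem _ ?_)
      exact mem_filter.2 ⟨mem_filter.2 ⟨h2, rfl⟩, h3⟩
    refine (card_le_card hsub).trans (card_biUnion_le.trans ?_)
    exact sum_le_sum fun y _ => card_image_le
  have h2 : ∑ c ∈ C, ((actv A R c).image fun r => (u r, w r)).card ≤
      ∑ y ∈ R.image u, ∑ c ∈ Cy y, ((actv A (Ry y) c).image w).card := by
    refine (sum_le_sum h1).trans (le_of_eq ?_)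
    apply sum_comm'
    intro c y
    simp only [hCy, mem_image, mem_filter]
    constructor
    · rintro ⟨h3, r, h4, h5⟩
      obtain ⟨h6, h7⟩ := mem_filter.1 h4
      exact ⟨⟨h3, r, h6, h5, h7⟩, r, h6, h5⟩
    · rintro ⟨⟨h3, r, h4, h5, h6⟩, _⟩
      exact ⟨h3, r, mem_filter.2 ⟨h4, h6⟩, h5⟩
  -- one class
  have h3 : ∀ y ∈ R.image u, ((∑ c ∈ Cy y, ((actv A (Ry y) c).image w).card : ℕ) : ℝ) ≤
      E * Real.log C.card * (Cy y).card + (Ry y).card * (C.card : ℝ) ^ (1 - ε / 2) := by
    intro y _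
    have hCyle : ((Cy y).card : ℝ) ≤ C.card := by exact_mod_cast card_filter_le _ _
    have p1 : 0 ≤ E * Real.log C.card * (Cy y).card := by positivity
    have p2 : 0 ≤ (Ry y).card * (C.card : ℝ) ^ (1 - ε / 2) := by positivity
    by_cases hbig : (C.card : ℝ) ^ (1 - ε / 2) ≤ (Cy y).card
    · have hgt : (1 : ℝ) < (Cy y).card := by
        refine lt_of_lt_of_le ?_ hbig
        apply Real.one_lt_rpow (by linarith)
        linarith
      have hge : 2 ≤ (Cy y).card := by
        have : 1 < (Cy y).card := by exact_mod_cast hgt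
        omega
      have h4 := hw V A (Cy y) B (Ry y) hge hB (by
          have h5 : ((Ry y).card : ℝ) ≤ R.card := by exact_mod_cast card_filter_le _ _
          refine h5.trans (hRC.trans ?_)
          have h6 : ((C.card : ℝ) ^ (1 - ε / 2)) ^ (ε / 2 / 4) ≤ ((Cy y).card : ℝ) ^ (ε / 2 / 4) :=
            Real.rpow_le_rpow (by positivity) hbig (by positivity)
          refine le_trans ?_ h6
          rw [← Real.rpow_mul hC0.le]
          apply Real.rpow_le_rpow_of_exponent_le (by linarith)
          nlinarith)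
        (fun r hr => hR0 r (mem_filter.1 hr).1) (hAB.trans (sub_power hε hε1 (by linarith) hB1 hbig))
      refine h4.trans ?_
      have h5 : Real.log ((Cy y).card : ℝ) ≤ Real.log (C.card : ℝ) :=
        Real.log_le_log (by linarith) hCyle
      have h6 : E * ((Cy y).card * Real.log ((Cy y).card : ℝ)) ≤
          E * ((Cy y).card * Real.log (C.card : ℝ)) :=
        mul_le_mul_of_nonneg_left (mul_le_mul_of_nonneg_left h5 (Nat.cast_nonneg _)) hE
      have e : E * ((Cy y).card * Real.log (C.card : ℝ)) = E * Real.log C.card * (Cy y).card := by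
        ring
      linarith
    · push Not at hbig
      have h4 : ∑ c ∈ Cy y, ((actv A (Ry y) c).image w).card ≤ (Cy y).card * (Ry y).card := by
        rw [← smul_eq_mul, ← sum_const]
        apply sum_le_sum
        intro c _
        exact card_image_le.trans (card_le_card (actv_sub _ _ _))
      have h5 : ((∑ c ∈ Cy y, ((actv A (Ry y) c).image w).card : ℕ) : ℝ) ≤
          (Cy y).card * (Ry y).card := by exact_mod_cast h4
      have h6 : ((Cy y).card : ℝ) * (Ry y).card ≤ (C.card : ℝ) ^ (1 - ε / 2) * (Ry y).card :=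
        mul_le_mul_of_nonneg_right hbig.le (Nat.cast_nonneg _)
      linarith
  have h4 : ((∑ y ∈ R.image u, ∑ c ∈ Cy y, ((actv A (Ry y) c).image w).card : ℕ) : ℝ) ≤
      E * Real.log C.card * TT A C R u + R.card * (C.card : ℝ) ^ (1 - ε / 2) := by
    have e1 : TT A C R u = ∑ y ∈ R.image u, ((Cy y).card : ℝ) := by
      unfold TT
      rw [sum_actv]
      push_cast
      rfl
    have e2 : (R.card : ℝ) = ∑ y ∈ R.image u, ((Ry y).card : ℝ) := by
      have h5 : R.card = ∑ y ∈ R.image u, (Ry y).card :=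
        card_eq_sum_card_fiberwise fun r hr => mem_image_of_mem _ hr
      rw [h5]
      push_cast
      rfl
    rw [e1, e2, mul_sum, sum_mul, ← sum_add_distrib]
    push_cast
    have h5 := sum_le_sum h3
    push_cast at h5
    exact h5
  have h5 : (R.card : ℝ) * (C.card : ℝ) ^ (1 - ε / 2) ≤ C.card := by
    calc (R.card : ℝ) * (C.card : ℝ) ^ (1 - ε / 2)
        ≤ (C.card : ℝ) ^ (ε / 16) * (C.card : ℝ) ^ (1 - ε / 2) :=
          mul_le_mul_of_nonneg_right hRC (by positivity)
      _ = (C.card : ℝ) ^ (ε / 16 + (1 - ε / 2)) := (Real.rpow_add hC0 _ _).symm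
      _ ≤ (C.card : ℝ) ^ (1 : ℝ) := by
          apply Real.rpow_le_rpow_of_exponent_le (by linarith)
          linarith
      _ = C.card := Real.rpow_one _
  have h6 : TT A C R (fun r => (u r, w r)) ≤
      ((∑ y ∈ R.image u, ∑ c ∈ Cy y, ((actv A (Ry y) c).image w).card : ℕ) : ℝ) := by
    unfold TT
    exact_mod_cast h2
  linarith

/-- fewer classes after a map -/
theorem TT_comp {F V κ κ' : Type*} [SMul F V] [DecidableEq V] [DecidableEq κ] [DecidableEq κ']
    (A C : Finset V) (R : Finset F) (u : F → κ) (e : κ → κ') :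
    TT A C R (fun r => e (u r)) ≤ TT A C R u := by
  unfold TT
  apply Nat.cast_le.2
  apply sum_le_sum
  intro c _
  have h : (actv A R c).image (fun r => e (u r)) = ((actv A R c).image u).image e := by
    rw [image_image]
    rfl
  rw [h]
  exact card_image_le

/-- one class -/
theorem TT_unit {F V : Type*} [SMul F V] [DecidableEq V] (A C : Finset V) (R : Finset F) :
    TT A C R (fun _ => ()) ≤ C.card := by
  unfold TT
  apply Nat.cast_le.2
  rw [card_eq_sum_ones]
  apply sum_le_sum
  intro c _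
  exact card_le_one.2 fun a _ b _ => Subsingleton.elim a b

/-- **finitely many more places** -/
theorem iter_all {F : Type} [Field F] {κ ι : Type} [DecidableEq κ] [DecidableEq ι] (u : F → κ)
    {ε E : ℝ} (hε : 0 < ε) (hε1 : ε ≤ 1) (hE : 4 ≤ E)
    {V : Type} [AddCommGroup V] [Module F V] [DecidableEq V] (A C B : Finset V) (R : Finset F)
    (hC : 2 ≤ C.card) (hB : B.Nonempty) (hRC : (R.card : ℝ) ≤ (C.card : ℝ) ^ (ε / 16))
    (hR0 : ∀ r ∈ R, r ≠ 0) (hAB : ((A + B).card : ℝ) ≤ ((C.card : ℝ) * B.card) ^ (1 - ε))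
    (n : ℕ) : ∀ w : Fin n → F → ι, (∀ j, WT F (w j) (ε / 2) E) →
    TT A C R (fun r => (u r, fun j => w j r)) + C.card ≤
      (E * Real.log C.card) ^ n * (TT A C R u + C.card) := by
  have hC2 : (2 : ℝ) ≤ C.card := by exact_mod_cast hC
  have lc1 : 1 / 2 ≤ Real.log (C.card : ℝ) := by
    have h1 : Real.log 2 ≤ Real.log (C.card : ℝ) := Real.log_le_log (by norm_num) hC2
    have h2 := Real.log_two_gt_d9
    linarith
  have hX : 2 ≤ E * Real.log C.card := by nlinarith
  induction n with
  | zero =>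
    intro w _
    rw [pow_zero, one_mul]
    have h := TT_comp A C R u (fun a => (a, fun j : Fin 0 => (Fin.elim0 j : ι)))
    have e : (fun r => (u r, fun j : Fin 0 => w j r)) =
        fun r => ((fun a => (a, fun j : Fin 0 => (Fin.elim0 j : ι))) (u r)) := by
      funext r
      exact Prod.ext rfl (funext fun j => Fin.elim0 j)
    rw [e]
    linarith
  | succ n ih =>
    intro w hw
    have h1 := ih (fun j => w j.castSucc) (fun j => hw j.castSucc)
    have h2 := iter_step (fun r => (u r, fun j : Fin n => w j.castSucc r)) (w (Fin.last n)) hε hε1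
      (by linarith) (hw (Fin.last n)) A C B R hC hB hRC hR0 hAB
    have h3 := TT_comp A C R (fun r => ((u r, fun j : Fin n => w j.castSucc r), w (Fin.last n) r))
      (fun p => (p.1.1, (Fin.snoc p.1.2 p.2 : Fin (n + 1) → ι)))
    have e : (fun r => (u r, fun j : Fin (n + 1) => w j r)) = fun r =>
        (fun p : (κ × (Fin n → ι)) × ι => (p.1.1, (Fin.snoc p.1.2 p.2 : Fin (n + 1) → ι)))
          ((u r, fun j : Fin n => w j.castSucc r), w (Fin.last n) r) := by
      funext r
      refine Prod.ext rfl (funext fun j => ?_)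
      refine Fin.lastCases ?_ (fun i => ?_) j
      · simp
      · simp
    rw [e]
    set X : ℝ := E * Real.log C.card with hXd
    set T1 : ℝ := TT A C R (fun r => (u r, fun j : Fin n => w j.castSucc r)) with hT1
    have hT0 : 0 ≤ T1 := TT_nonneg _ _ _ _
    have h4 : X * T1 + C.card + C.card ≤ X * (T1 + C.card) := by nlinarith
    have h5 : X * (T1 + C.card) ≤ X * (X ^ n * (TT A C R u + C.card)) :=
      mul_le_mul_of_nonneg_left h1 (by linarith)
    have e5 : X * (X ^ n * (TT A C R u + C.card)) = X ^ (n + 1) * (TT A C R u + C.card) := by ring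
    linarith

/-- the constant -/
theorem four_le_exp {ε : ℝ} (hε : 0 < ε) (hε1 : ε ≤ 1) : 4 ≤ Real.exp (662 / ε) := by
  have h4 := Real.add_one_le_exp (662 / ε)
  have h5 : (662 : ℝ) ≤ 662 / ε := by
    rw [le_div_iff₀ hε]
    linarith
  linarith

/-- **several valuations and archimedean places** -/
theorem places {F : Type} [Field F] {Γ₀ : Type} [LinearOrderedCommGroupWithZero Γ₀]
    {ε : ℝ} (hε : 0 < ε) (hε1 : ε ≤ 1)
    {V : Type} [AddCommGroup V] [Module F V] [DecidableEq V] (A C B : Finset V) (R : Finset F)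
    (hC : 2 ≤ C.card) (hB : B.Nonempty) (hRC : (R.card : ℝ) ≤ (C.card : ℝ) ^ (ε / 16))
    (hR0 : ∀ r ∈ R, r ≠ 0) (hAB : ((A + B).card : ℝ) ≤ ((C.card : ℝ) * B.card) ^ (1 - ε))
    {m n : ℕ} (v : Fin m → Valuation F Γ₀) (σ : Fin n → F →+* ℂ) :
    TT A C R (fun r => ((fun i => v i r), (fun j => Int.log 3 ‖σ j r‖))) ≤
      2 * (Real.exp (662 / ε) * Real.log C.card) ^ (m + n) * C.card := by
  have h4 := four_le_exp hε hε1
  have e6 : 331 / (ε / 2) = 662 / ε := by
    field_simp
    norm_num
  have hV : ∀ i, WT F (v i) (ε / 2) (Real.exp (662 / ε)) := by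
    intro i
    rw [← e6]
    exact valW (by positivity) (by linarith) (v i)
  have hA : ∀ j, WT F (fun r => Int.log 3 ‖σ j r‖) (ε / 2) (Real.exp (662 / ε)) := by
    intro j
    rw [← e6]
    exact arcW (by positivity) (by linarith) (σ j)
  have h1 := iter_all (fun _ : F => ()) hε hε1 h4 A C B R hC hB hRC hR0 hAB m (fun i => v i) hV
  have h2 := iter_all (fun r : F => ((), fun i => v i r)) hε hε1 h4 A C B R hC hB hRC hR0 hAB n
    (fun j r => Int.log 3 ‖σ j r‖) hA
  have h3 := TT_comp A C R (fun r => (((), fun i => v i r), fun j => Int.log 3 ‖σ j r‖))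
    (fun p : (Unit × (Fin m → Γ₀)) × (Fin n → ℤ) => (p.1.2, p.2))
  have h5 := TT_unit A C R
  have hC2 : (2 : ℝ) ≤ C.card := by exact_mod_cast hC
  have hlog : 0 ≤ Real.log (C.card : ℝ) := Real.log_natCast_nonneg _
  set X : ℝ := Real.exp (662 / ε) * Real.log C.card with hX
  have hX0 : 0 ≤ X := by positivity
  calc TT A C R (fun r => ((fun i => v i r), (fun j => Int.log 3 ‖σ j r‖)))
      ≤ TT A C R (fun r => (((), fun i => v i r), fun j => Int.log 3 ‖σ j r‖)) := h3
    _ ≤ X ^ n * (TT A C R (fun r : F => ((), fun i => v i r)) + C.card) := by linarith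
    _ ≤ X ^ n * (X ^ m * (TT A C R (fun _ : F => ()) + C.card)) :=
        mul_le_mul_of_nonneg_left h1 (by positivity)
    _ ≤ X ^ n * (X ^ m * (C.card + C.card)) := by
        apply mul_le_mul_of_nonneg_left _ (by positivity)
        apply mul_le_mul_of_nonneg_left _ (by positivity)
        linarith
    _ = 2 * X ^ (m + n) * C.card := by ring

end Pool.Agent.H85.AK
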