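import Pool.Agent.H85.AK.Hom1
import Pool.Agent.H85.AK.Slp4

/-!
Families of subsets: several places, finitely generated groups.
-/

set_option autoImplicit false

namespace Pool.Agent.H85.AK

open Finset
open scoped Pointwise

set_option maxHeartbeats 400000

/-- **several valuations and archimedean places, families of subsets** -/
theorem places3 {F : Type} [Field F] {Γ₀ : Type} [LinearOrderedCommGroupWithZero Γ₀]
    {ε : ℝ} (hε : 0 < ε) (hε1 : ε ≤ 1)
    {V : Type} [AddCommGroup V] [Module F V] [DecidableEq V] (B C : Finset V) (R : Finset F)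
    (D : F → Finset V)
    (hC : 2 ≤ C.card) (hB : B.Nonempty) (hRC : (R.card : ℝ) ≤ (C.card : ℝ) ^ (ε / 17))
    (hR : ∀ r ∈ R, r ≠ 0 ∧ D r ⊆ C ∧
      ((r • D r + B).card : ℝ) ≤ ((C.card : ℝ) * B.card) ^ (1 - ε))
    {m n : ℕ} (v : Fin m → Valuation F Γ₀) (σ : Fin n → F →+* ℂ) :
    ((∑ c ∈ C, ((R.filter fun r => c ∈ D r).image fun r =>
      ((fun i => v i r), (fun j => Int.log 3 ‖σ j r‖))).card : ℕ) : ℝ) ≤
      2 * (Real.exp (704 / ε) * Real.log C.card) ^ (m + n) * C.card := by
  classical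
  have hC2 : (2 : ℝ) ≤ C.card := by exact_mod_cast hC
  have hB1 : (1 : ℝ) ≤ B.card := by exact_mod_cast card_pos.2 hB
  have hη : 0 < 16 * ε / 17 := by positivity
  have hη1 : 16 * ε / 17 ≤ 1 := by linarith
  obtain ⟨A', B', hB', hBne, hAB, hCc, hmem, hcard⟩ := tag B C R D (fun r hr => (hR r hr).2.1)
    (((C.card : ℝ) * B.card) ^ (1 - ε)) (fun r hr => (hR r hr).2.2)
  have h1 := places hη hη1 A' (C.image fun c => ((c, 1) : V × F)) B' R (by rw [hCc]; exact hC)
    (hBne hB) (by
      rw [hCc]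
      have e : 16 * ε / 17 / 16 = ε / 17 := by ring
      rw [e]
      exact hRC) (fun r hr => (hR r hr).1) (by
      rw [hCc, hB']
      exact hAB.trans (tag_power hε (by linarith) hB1 hRC)) v σ
  rw [hCc] at h1
  have hexp := exp704 hε
  have hlog : 0 ≤ Real.log (C.card : ℝ) := Real.log_natCast_nonneg _
  have h2 : (Real.exp (662 / (16 * ε / 17)) * Real.log C.card) ^ (m + n) ≤
      (Real.exp (704 / ε) * Real.log C.card) ^ (m + n) := by
    apply pow_le_pow_left₀ (by positivity)
    exact mul_le_mul_of_nonneg_right hexp hlog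
  refine le_trans ?_ (h1.trans (mul_le_mul_of_nonneg_right
    (mul_le_mul_of_nonneg_left h2 (by norm_num)) (Nat.cast_nonneg _)))
  unfold TT
  apply Nat.cast_le.2
  rw [sum_image (fun a _ b _ h => (Prod.ext_iff.1 h).1)]
  apply sum_le_sum
  intro c _
  apply card_le_card
  apply image_subset_image
  intro r hr
  obtain ⟨h3, h4⟩ := mem_filter.1 hr
  exact mem_filter.2 ⟨h3, hmem r h3 c h4⟩

/-- the trivial bound for the number of scalars with a coincidence -/
theorem trivial_R3 {F V : Type*} [Field F] [AddCommGroup V] [Module F V] [DecidableEq V]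
    {B C : Finset V} {R : Finset Fˣ} {D : Fˣ → Finset V} (hD : ∀ r ∈ R, D r ⊆ C)
    (h : ∀ r ∈ R, ((r : F) • D r + B).card < (D r).card * B.card) :
    R.card ≤ (C.card * B.card) * (C.card * B.card) := by
  classical
  have hex : ∀ r : Fˣ, ∃ s : (V × V) × (V × V), r ∈ R → (s.1.1 ∈ C ∧ s.1.2 ∈ B) ∧
      (s.2.1 ∈ C ∧ s.2.2 ∈ B) ∧ s.1.1 ≠ s.2.1 ∧
      (r : F) • s.1.1 + s.1.2 = (r : F) • s.2.1 + s.2.2 := by
    intro r
    by_cases hr : r ∈ R
    · have h1 := h r hr
      rw [← card_product] at h1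
      obtain ⟨x, hx, y, hy, hne, he⟩ := exists_ne_map_eq_of_card_lt_of_maps_to h1
        (f := fun s : V × V => (r : F) • s.1 + s.2) (fun s hs => by
          obtain ⟨h2, h3⟩ := mem_product.1 hs
          exact add_mem_add (smul_mem_smul_finset h2) h3)
      obtain ⟨h2, h3⟩ := mem_product.1 hx
      obtain ⟨h4, h5⟩ := mem_product.1 hy
      refine ⟨(x, y), fun _ => ⟨⟨hD r hr h2, h3⟩, ⟨hD r hr h4, h5⟩, ?_, he⟩⟩
      intro h6
      apply hne
      have h6' : x.1 = y.1 := h6
      have he' : (r : F) • x.1 + x.2 = (r : F) • y.1 + y.2 := he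
      rw [h6'] at he'
      exact Prod.ext h6' (add_left_cancel he')
    · exact ⟨((0, 0), (0, 0)), fun h' => absurd h' hr⟩
  choose f hf using hex
  rw [← card_product, ← card_product]
  apply card_le_card_of_injOn f
  · intro r hr
    obtain ⟨h1, h2, _⟩ := hf r hr
    exact mem_product.2 ⟨mem_product.2 h1, mem_product.2 h2⟩
  · intro r hr r' hr' heq
    obtain ⟨_, _, h3, h4⟩ := hf r hr
    obtain ⟨_, _, _, h4'⟩ := hf r' hr'
    rw [← heq] at h4'
    have h5 : ((r : F) - r') • ((f r).1.1 - (f r).2.1) = 0 := by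
      have e1 : (r : F) • ((f r).1.1 - (f r).2.1) = (f r).2.2 - (f r).1.2 := by
        rw [smul_sub, sub_eq_sub_iff_add_eq_add, h4, add_comm]
      have e2 : (r' : F) • ((f r).1.1 - (f r).2.1) = (f r).2.2 - (f r).1.2 := by
        rw [smul_sub, sub_eq_sub_iff_add_eq_add, h4', add_comm]
      rw [sub_smul, e1, e2, sub_self]
    rcases smul_eq_zero.1 h5 with h6 | h6
    · exact Units.ext (sub_eq_zero.1 h6)
    · exact absurd (sub_eq_zero.1 h6) h3

/-- **finitely generated groups, families of subsets** -/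
theorem subgroup_lin3 (F : Type) [Field F] (Γ : Subgroup Fˣ) (hΓ : Γ.FG) (ε : ℝ) (hε : 0 < ε)
    (hε1 : ε ≤ 1) : ∃ C0 : ℝ, 1 < C0 ∧ ∀ (V : Type) [AddCommGroup V] [Module F V] [DecidableEq V]
    (B C : Finset V) (K : ℝ) (R : Finset Fˣ) (D : Fˣ → Finset V), 2 ≤ C.card → B.Nonempty →
    1 ≤ K → K ≤ (C.card : ℝ) ^ (1 / C0) →
    (∀ r ∈ R, r ∈ Γ ∧ D r ⊆ C ∧ (C.card : ℝ) ≤ K * ((D r).card : ℝ)) →
    C0 * K * Real.log (C.card : ℝ) ^ (Module.finrank ℤ (Additive Γ)) < (R.card : ℝ) →
    ∃ r ∈ R, ((C.card : ℝ) * B.card) ^ (1 - ε) < (((r : F) • D r + B).card : ℝ) := by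
  classical
  obtain ⟨E, hE1, hE⟩ := subgroup_lin F Γ hΓ (16 * ε / 17) (by positivity) (by linarith)
  set ρ : ℕ := Module.finrank ℤ (Additive Γ) with hρ
  have hE0 : 0 < E := by linarith
  obtain ⟨X, hX1, hX⟩ := power_log (θ := ε / 34) (E := E + 2 ^ ρ) (by positivity) (by
    have : (0 : ℝ) < 2 ^ ρ := by positivity
    linarith) ρ
  set P1 : ℝ := 2 ^ ρ * X ^ (2 + 2 / ε) with hP1
  have hP10 : 0 < P1 := by positivity
  set C0 : ℝ := E + 34 / ε + P1 with hC0
  have h34 : 0 < 34 / ε := by positivity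
  refine ⟨C0, by linarith, ?_⟩
  intro V _ _ _ B C K R D hC hB hK hKC hR hcard
  by_contra hcon
  push Not at hcon
  have hC2 : (2 : ℝ) ≤ C.card := by exact_mod_cast hC
  have hCpos : (0 : ℝ) < C.card := by linarith
  have hK0 : 0 < K := by linarith
  have hB1 : (1 : ℝ) ≤ B.card := by exact_mod_cast card_pos.2 hB
  have hlog := half_le_log hC
  have hl1 : (1 : ℝ) ≤ 2 ^ ρ * Real.log (C.card : ℝ) ^ ρ := by
    have := pow_log_le hlog (Nat.zero_le ρ)
    rw [pow_zero] at this
    exact this
  set Lg : ℝ := Real.log (C.card : ℝ) ^ ρ with hLg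
  have hLg0 : 0 < Lg := by positivity
  have hKE : K ≤ (C.card : ℝ) ^ (1 / E) := by
    refine hKC.trans (Real.rpow_le_rpow_of_exponent_le (by linarith) ?_)
    exact one_div_le_one_div_of_le hE0 (by linarith)
  have hKθ : K ≤ (C.card : ℝ) ^ (ε / 34) := by
    refine hKC.trans (Real.rpow_le_rpow_of_exponent_le (by linarith) ?_)
    have e : ε / 34 = 1 / (34 / ε) := by rw [one_div_div]
    rw [e]
    exact one_div_le_one_div_of_le h34 (by linarith)
  have hRpos : (0 : ℝ) < R.card := lt_trans (by positivity) hcard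
  have hcb : 1 < (C.card : ℝ) * B.card := by nlinarith
  -- every set `r D_r + B` has a coincidence
  have hco : ∀ r ∈ R, (((r : F) • D r + B).card) < (D r).card * B.card := by
    intro r hr
    have h1 := hcon r hr
    have h2 := (hR r hr).2.2
    have h3 : K < ((C.card : ℝ) * B.card) ^ ε := by
      refine lt_of_le_of_lt hKθ ?_
      calc (C.card : ℝ) ^ (ε / 34) < (C.card : ℝ) ^ ε :=
            Real.rpow_lt_rpow_of_exponent_lt (by linarith) (by linarith)
        _ ≤ ((C.card : ℝ) * B.card) ^ ε :=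
            Real.rpow_le_rpow hCpos.le (by nlinarith) hε.le
    have h4 : ((C.card : ℝ) * B.card) ^ (1 - ε) * ((C.card : ℝ) * B.card) ^ ε =
        (C.card : ℝ) * B.card := by
      rw [← Real.rpow_add (by linarith)]
      have : 1 - ε + ε = 1 := by ring
      rw [this, Real.rpow_one]
    have h5 : 0 < ((C.card : ℝ) * B.card) ^ (1 - ε) := Real.rpow_pos_of_pos (by linarith) _
    have h6 : K * ((C.card : ℝ) * B.card) ^ (1 - ε) < C.card * B.card := by
      calc K * ((C.card : ℝ) * B.card) ^ (1 - ε)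
          < ((C.card : ℝ) * B.card) ^ ε * ((C.card : ℝ) * B.card) ^ (1 - ε) :=
            mul_lt_mul_of_pos_right h3 h5
        _ = _ := by rw [mul_comm, h4]
    have h7 : (C.card : ℝ) * B.card ≤ K * ((D r).card * B.card) := by
      have := mul_le_mul_of_nonneg_right h2 (show (0 : ℝ) ≤ B.card by linarith)
      linarith
    have h8 : ((C.card : ℝ) * B.card) ^ (1 - ε) < (D r).card * B.card :=
      lt_of_mul_lt_mul_left (lt_of_lt_of_le h6 h7) hK0.le
    exact_mod_cast lt_of_le_of_lt h1 h8
  rcases le_or_gt (C.card : ℝ) X with hsmall | hlarge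
  · -- small sets
    have h1 := trivial_R3 (B := B) (fun r hr => (hR r hr).2.1) hco
    obtain ⟨r, hr⟩ : R.Nonempty := card_pos.1 (by exact_mod_cast hRpos)
    have hDne : ((r : F) • D r).Nonempty := by
      rw [smul_finset_nonempty]
      apply card_pos.1
      by_contra h2
      have h3 : (D r).card = 0 := by omega
      have h4 := hco r hr
      rw [h3] at h4
      omega
    have a2 : (B.card : ℝ) ≤ ((C.card : ℝ) * B.card) ^ (1 - ε) :=
      le_trans (by exact_mod_cast card_le_card_add_left hDne) (hcon r hr)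
    have l2 := Real.log_le_log (by linarith) a2
    rw [Real.log_rpow (by positivity), Real.log_mul (by linarith) (by linarith)] at l2
    have h2 : (R.card : ℝ) ≤ (C.card * B.card) ^ 2 := by
      have : (R.card : ℝ) ≤ (C.card * B.card) * (C.card * B.card) := by exact_mod_cast h1
      rw [sq]
      exact this
    have h3 : ((C.card : ℝ) * B.card) ^ 2 ≤ (C.card : ℝ) ^ (2 + 2 / ε) := by
      rw [← Real.log_le_log_iff (by positivity) (by positivity), Real.log_rpow hCpos, Real.log_pow,
        Real.log_mul (by linarith) (by linarith)]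
      have l3 : Real.log (B.card : ℝ) ≤ Real.log (C.card : ℝ) / ε := by
        rw [le_div_iff₀ hε]
        have : 0 ≤ ε * Real.log (C.card : ℝ) := by positivity
        nlinarith
      have e : (2 + 2 / ε) * Real.log (C.card : ℝ) =
          2 * (Real.log (C.card : ℝ) + Real.log (C.card : ℝ) / ε) := by ring
      rw [e]
      push_cast
      linarith
    have h4 : (C.card : ℝ) ^ (2 + 2 / ε) ≤ X ^ (2 + 2 / ε) :=
      Real.rpow_le_rpow hCpos.le hsmall (by positivity)
    have h5 : X ^ (2 + 2 / ε) ≤ C0 * K * Lg := by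
      have h6 : X ^ (2 + 2 / ε) * 1 ≤ X ^ (2 + 2 / ε) * (2 ^ ρ * Lg) :=
        mul_le_mul_of_nonneg_left hl1 (by positivity)
      have h7 : P1 * Lg ≤ C0 * K * Lg := by
        apply mul_le_mul_of_nonneg_right _ hLg0.le
        have h8 : P1 ≤ C0 := by linarith
        have h9 : C0 ≤ C0 * K := by
          have : 0 ≤ C0 := by linarith
          nlinarith
        linarith
      have e : X ^ (2 + 2 / ε) * (2 ^ ρ * Lg) = P1 * Lg := by
        rw [hP1]
        ring
      linarith
    linarith
  · -- large sets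
    have hnot : ¬ (C.card : ℝ) ^ (ε / 34) ≤ (E + 2 ^ ρ) * Lg := fun h => by
      have := hX _ (by linarith) h
      linarith
    push Not at hnot
    have hEKL : E * K * Lg < R.card := by
      refine lt_of_le_of_lt ?_ hcard
      have h1 : 0 ≤ K * Lg := by positivity
      have h2 : E * K * Lg = E * (K * Lg) := by ring
      have h3 : C0 * K * Lg = C0 * (K * Lg) := by ring
      rw [h2, h3]
      apply mul_le_mul_of_nonneg_right _ h1
      linarith
    obtain ⟨S, hS, hSc⟩ := exists_subset_card_eq (s := R) (n := ⌊E * K * Lg⌋₊ + 1) (by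
      have h1 : ((⌊E * K * Lg⌋₊ : ℕ) : ℝ) ≤ E * K * Lg := Nat.floor_le (by positivity)
      have h2 : ((⌊E * K * Lg⌋₊ : ℕ) : ℝ) < R.card := by linarith
      have h3 : ⌊E * K * Lg⌋₊ < R.card := by exact_mod_cast h2
      omega)
    have hScard : (S.card : ℝ) = (⌊E * K * Lg⌋₊ : ℕ) + 1 := by
      rw [hSc]
      push_cast
      rfl
    have hS1 : (S.card : ℝ) ≤ (C.card : ℝ) ^ (ε / 17) := by
      rw [hScard]
      have h2 : ((⌊E * K * Lg⌋₊ : ℕ) : ℝ) ≤ E * K * Lg := Nat.floor_le (by positivity)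
      have h3 : E * K * Lg + 1 ≤ K * ((E + 2 ^ ρ) * Lg) := by
        have : (1 : ℝ) ≤ K * (2 ^ ρ * Lg) := by nlinarith
        linarith
      have h4 : K * ((E + 2 ^ ρ) * Lg) ≤ (C.card : ℝ) ^ (ε / 34) * (C.card : ℝ) ^ (ε / 34) :=
        mul_le_mul hKθ hnot.le (by positivity) (by positivity)
      rw [← Real.rpow_add hCpos] at h4
      have e : ε / 34 + ε / 34 = ε / 17 := by ring
      rw [e] at h4
      linarith
    have hS2 : E * K * Lg < S.card := by
      rw [hScard]
      exact Nat.lt_floor_add_one _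
    have hinj : Function.Injective fun r : Fˣ => (r : F) := fun a b h => Units.ext h
    have hu : ∀ u : Fˣ, (if h : (u : F) ≠ 0 then D (Units.mk0 (u : F) h) else ∅) = D u := by
      intro u
      rw [dif_pos (Units.ne_zero u), Units.mk0_val]
    obtain ⟨A', B', hB', hBne, hAB, hCc, hmem, hcard'⟩ := tag B C (S.image fun r : Fˣ => (r : F))
      (fun q => if h : q ≠ 0 then D (Units.mk0 q h) else ∅)
      (by
        intro r hr
        obtain ⟨u, hu', rfl⟩ := mem_image.1 hr
        simp only [hu]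
        exact (hR u (hS hu')).2.1)
      (((C.card : ℝ) * B.card) ^ (1 - ε))
      (by
        intro r hr
        obtain ⟨u, hu', rfl⟩ := mem_image.1 hr
        simp only [hu]
        exact hcon u (hS hu'))
    rw [card_image_of_injective _ hinj] at hAB
    have h3 := hE (V × F) A' (C.image fun c => ((c, 1) : V × F)) B' K S
      (fun r hr => (hR r (hS hr)).1) hK (by rw [hCc]; exact hKE) (by rw [hCc]; exact hC) (hBne hB)
      (by
        intro r hr
        rw [hCc]
        refine (hR r (hS hr)).2.2.trans (mul_le_mul_of_nonneg_left ?_ hK0.le)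
        have h4 := hcard' (r : F) (mem_image_of_mem _ hr)
        simp only [hu] at h4
        exact_mod_cast h4)
      (by
        rw [hCc]
        exact hS2)
    rw [hCc, hB'] at h3
    have h4 := tag_power hε (by linarith) hB1 hS1
    linarith

end Pool.Agent.H85.AK
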