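import Pool.Agent.H85.AK.Sel
import Pool.Graph.R_seed8.H137R2.Weak.Final
import Pool.Graph.R_seed8.H217R3.AK.Bsg

/-!
Sets of rational numbers with many multiplicative quadruples are, for a large part, contained in few cosets
of groups of small rank.
-/

set_option autoImplicit false

namespace Pool.Agent.H85.AK

open Finset
open scoped Pointwise

set_option maxHeartbeats 400000

/-- an element of odd order of the group of the units of the rationals is trivial -/
theorem odd_torsion {o : Additive ℚˣ} {m : ℕ} (hm : Odd m) (h : m • o = 0) : o = 0 := by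
  have h1 : ((Additive.toMul o : ℚˣ) : ℚ) ^ m = 1 := by
    have h2 : (Additive.toMul o : ℚˣ) ^ m = 1 := h
    have h3 := congrArg (fun u : ℚˣ => (u : ℚ)) h2
    simpa using h3
  have h4 : ((Additive.toMul o : ℚˣ) : ℚ) = 1 := by
    have h5 : ((Additive.toMul o : ℚˣ) : ℚ) ^ m = 1 ^ m := by rw [h1, one_pow]
    exact hm.strictMono_pow.injective h5
  have h6 : (Additive.toMul o : ℚˣ) = 1 := Units.ext h4
  exact h6

/-- the weak Marton theorem for an arbitrary decision procedure -/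
theorem marton' {G : Type} [AddCommGroup G] [d : DecidableEq G] {K : ℝ} {A : Finset G}
    (hA : A.Nonempty) (hK : ((A + A).card : ℝ) ≤ K * A.card) :
    ∃ (P : AddSubgroup G) (S T : Finset G), Finite P ∧
      (S.card : ℝ) ≤ 480 * Real.log K + 1 ∧ T ⊆ A ∧ (T.card : ℝ) ≤ K ^ 185 ∧
      ∀ a ∈ A, ∃ t ∈ T, ∃ o : G, (∃ m : ℕ, Odd m ∧ m • o = 0) ∧
        a - t - o ∈ P ⊔ AddSubgroup.closure (S : Set G) := by
  have h : d = Classical.decEq G := Subsingleton.elim _ _
  subst h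
  obtain ⟨P, S, T, h1, _, _, h2, h3, h4, h5⟩ := H137.Weak.weak_marton hA hK
  exact ⟨P, S, T, h1, h2, h3, h4, h5⟩

/-- sets with few products: few cosets of groups of small rank -/
theorem few_cosets [DecidableEq (Additive ℚˣ)] {L : ℝ} {R : Finset (Additive ℚˣ)}
    (hR : R.Nonempty) (hL : ((R + R).card : ℝ) ≤ L * R.card) :
    ∃ T : Finset ℕ, (∀ p ∈ T, p.Prime) ∧ (T.card : ℝ) ≤ 480 * Real.log L + 1 ∧
      ∃ R' ⊆ R, (R.card : ℝ) ≤ L ^ 185 * R'.card ∧
      ∀ r ∈ R', ∀ r' ∈ R', (∀ p ∈ T, padicValRat p ((Additive.toMul (r' - r) : ℚˣ) : ℚ) = 0) →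
      ((Additive.toMul (r' - r) : ℚˣ) : ℚ) = 1 ∨ ((Additive.toMul (r' - r) : ℚˣ) : ℚ) = -1 := by
  obtain ⟨P, S, T₀, hP, hS, hT₀, hTc, hcov⟩ := marton' hR hL
  obtain ⟨T, hTp, hTS, hT⟩ := sel_group S P hP
  have hTS' : (T.card : ℝ) ≤ 480 * Real.log L + 1 := by
    have h1 : (T.card : ℝ) ≤ S.card := by exact_mod_cast hTS
    linarith
  refine ⟨T, hTp, hTS', ?_⟩
  set M : AddSubgroup (Additive ℚˣ) := P ⊔ AddSubgroup.closure (S : Set (Additive ℚˣ)) with hM
  have hcov' : ∀ a ∈ R, ∃ t ∈ T₀, a - t ∈ M := by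
    intro a ha
    obtain ⟨t, ht, o, ⟨m, hm, hmo⟩, h⟩ := hcov a ha
    rw [odd_torsion hm hmo, sub_zero] at h
    exact ⟨t, ht, h⟩
  choose f hfT hfM using hcov'
  set g : Additive ℚˣ → Additive ℚˣ := fun a => if h : a ∈ R then f a h else 0 with hg
  have hgT : ∀ a ∈ R, g a ∈ T₀ := by
    intro a ha
    simp only [hg, dif_pos ha]
    exact hfT a ha
  have hgM : ∀ a ∈ R, a - g a ∈ M := by
    intro a ha
    simp only [hg, dif_pos ha]
    exact hfM a ha
  have hT₀ne : T₀.Nonempty := by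
    obtain ⟨a, ha⟩ := hR
    exact ⟨_, hgT a ha⟩
  -- the largest class
  obtain ⟨t, ht, hmax⟩ := exists_max_image T₀ (fun t => (R.filter fun a => g a = t).card) hT₀ne
  refine ⟨R.filter fun a => g a = t, filter_subset _ _, ?_, ?_⟩
  · have h1 : R.card = ∑ t ∈ T₀, (R.filter fun a => g a = t).card :=
      card_eq_sum_card_fiberwise (fun a ha => hgT a ha)
    have h2 : R.card ≤ T₀.card * (R.filter fun a => g a = t).card := by
      rw [h1, ← smul_eq_mul]
      exact sum_le_card_nsmul _ _ _ hmax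
    have h3 : (R.card : ℝ) ≤ T₀.card * ((R.filter fun a => g a = t).card : ℝ) := by
      exact_mod_cast h2
    exact h3.trans (mul_le_mul_of_nonneg_right hTc (Nat.cast_nonneg _))
  · intro r hr r' hr' h
    obtain ⟨h1, h2⟩ := mem_filter.1 hr
    obtain ⟨h3, h4⟩ := mem_filter.1 hr'
    apply hT _ _ h
    have h5 := M.sub_mem (hgM r' h3) (hgM r h1)
    rw [h2, h4] at h5
    have e : r' - t - (r - t) = r' - r := by abel
    rw [e] at h5
    exact h5

/-- **sets with many multiplicative quadruples** -/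
theorem few_cosets_energy [DecidableEq (Additive ℚˣ)] {L : ℝ} (hL : 1 ≤ L)
    {R : Finset (Additive ℚˣ)} (hR : R.Nonempty)
    (hE : (R.card : ℝ) ^ 3 ≤ L * (R.addEnergy R : ℕ)) :
    ∃ T : Finset ℕ, (∀ p ∈ T, p.Prime) ∧ (T.card : ℝ) ≤ 9600 * Real.log L + 14650 ∧
      ∃ R' ⊆ R, (R.card : ℝ) ≤ 8 * L * (2 ^ 44 * L ^ 20) ^ 185 * R'.card ∧
      ∀ r ∈ R', ∀ r' ∈ R', (∀ p ∈ T, padicValRat p ((Additive.toMul (r' - r) : ℚˣ) : ℚ) = 0) →
      ((Additive.toMul (r' - r) : ℚˣ) : ℚ) = 1 ∨ ((Additive.toMul (r' - r) : ℚˣ) : ℚ) = -1 := by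
  have hL0 : 0 < L := by linarith
  obtain ⟨B, hBR, hBn, hB1, hB2⟩ := Pool.Agent.H217R3.AK.bsg R hR L hL0 hE
  have hB0 : (0 : ℝ) < B.card := by exact_mod_cast card_pos.2 hBn
  have hsum : ((B + B).card : ℝ) ≤ (2 ^ 44 * L ^ 20) * B.card := by
    have h1 := pluennecke_ruzsa_inequality_nsmul_sub_nsmul_sub hBn B 2 0
    rw [zero_smul, sub_zero, two_nsmul, add_zero] at h1
    have h2 : ((B + B).card : ℝ) ≤ ((B - B).card / B.card) ^ 2 * B.card := by
      have h4 := (NNRat.cast_le (K := ℝ)).2 h1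
      push_cast at h4
      exact h4
    refine h2.trans (mul_le_mul_of_nonneg_right ?_ hB0.le)
    have h3 : ((B - B).card : ℝ) / B.card ≤ 2 ^ 22 * L ^ 10 := by
      rw [div_le_iff₀ hB0]
      exact hB2
    calc (((B - B).card : ℝ) / B.card) ^ 2 ≤ (2 ^ 22 * L ^ 10) ^ 2 :=
          pow_le_pow_left₀ (by positivity) h3 2
      _ = 2 ^ 44 * L ^ 20 := by ring
  obtain ⟨T, hTp, hTc, R', hR'B, hR'c, hR'⟩ := few_cosets hBn hsum
  refine ⟨T, hTp, ?_, R', hR'B.trans hBR, ?_, hR'⟩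
  · refine hTc.trans ?_
    rw [Real.log_mul (by positivity) (by positivity), Real.log_pow, Real.log_pow]
    have h1 := Real.log_two_lt_d9
    push_cast
    nlinarith
  · calc (R.card : ℝ) ≤ 8 * L * B.card := hB1
      _ ≤ 8 * L * ((2 ^ 44 * L ^ 20) ^ 185 * R'.card) :=
          mul_le_mul_of_nonneg_left hR'c (by positivity)
      _ = _ := by ring

end Pool.Agent.H85.AK
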