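import Pool.Agent.H85.AK.Str1
import Pool.Agent.H85.AK.Str2

/-!
Popular ratios: sets with many multiplicative quadruples.
-/

set_option autoImplicit false

namespace Pool.Agent.H85.AK

open Finset
open scoped Pointwise

set_option maxHeartbeats 400000

/-- the value of an element of the additive group of the units -/
def qv (a : Additive ℚˣ) : ℚ := ((Additive.toMul a : ℚˣ) : ℚ)

theorem qv_ne (a : Additive ℚˣ) : qv a ≠ 0 := Units.ne_zero _

theorem qv_inj : Function.Injective qv := by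
  intro a b h
  have h1 : (Additive.toMul a : ℚˣ) = Additive.toMul b := Units.ext h
  exact h1

theorem qv_sub (a b : Additive ℚˣ) : qv (a - b) = qv a / qv b := by
  show (((Additive.toMul a / Additive.toMul b : ℚˣ)) : ℚ) = _
  rw [Units.val_div_eq_div_val]
  rfl

theorem energy_map (R : Finset ℚˣ) :
    (R.map Additive.ofMul.toEmbedding).addEnergy (R.map Additive.ofMul.toEmbedding) =
      R.mulEnergy R := by
  symm
  unfold mulEnergy addEnergy
  apply card_bij (fun x _ => (((Additive.ofMul x.1.1, Additive.ofMul x.1.2),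
    (Additive.ofMul x.2.1, Additive.ofMul x.2.2)) :
      (Additive ℚˣ × Additive ℚˣ) × Additive ℚˣ × Additive ℚˣ))
  · intro x hx
    obtain ⟨h1, h2⟩ := mem_filter.1 hx
    obtain ⟨h3, h4⟩ := mem_product.1 h1
    obtain ⟨h5, h6⟩ := mem_product.1 h3
    obtain ⟨h7, h8⟩ := mem_product.1 h4
    refine mem_filter.2 ⟨mem_product.2 ⟨mem_product.2 ⟨mem_map_of_mem _ h5, mem_map_of_mem _ h6⟩,
      mem_product.2 ⟨mem_map_of_mem _ h7, mem_map_of_mem _ h8⟩⟩, ?_⟩
    exact congrArg Additive.ofMul h2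
  · intro x _ y _ h
    obtain ⟨h1, h2⟩ := Prod.ext_iff.1 h
    obtain ⟨h3, h4⟩ := Prod.ext_iff.1 h1
    obtain ⟨h5, h6⟩ := Prod.ext_iff.1 h2
    exact Prod.ext (Prod.ext h3 h4) (Prod.ext h5 h6)
  · intro y hy
    obtain ⟨h1, h2⟩ := mem_filter.1 hy
    obtain ⟨h3, h4⟩ := mem_product.1 h1
    obtain ⟨h5, h6⟩ := mem_product.1 h3
    obtain ⟨h7, h8⟩ := mem_product.1 h4
    obtain ⟨a, ha, hae⟩ := mem_map.1 h5
    obtain ⟨b, hb, hbe⟩ := mem_map.1 h6
    obtain ⟨c, hc, hce⟩ := mem_map.1 h7
    obtain ⟨d, hd, hde⟩ := mem_map.1 h8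
    refine ⟨((a, b), (c, d)), mem_filter.2 ⟨mem_product.2 ⟨mem_product.2 ⟨ha, hb⟩,
      mem_product.2 ⟨hc, hd⟩⟩, ?_⟩, ?_⟩
    · rw [← hae, ← hbe, ← hce, ← hde] at h2
      exact h2
    · exact Prod.ext (Prod.ext hae hbe) (Prod.ext hce hde)

/-- the numerical part -/
theorem str_num {x l t : ℝ} (hx : 661 ≤ x) (hl : 0 ≤ l) (ht : t ≤ 9600 * l + 14650) :
    5703 + 3701 * l + x * t ≤ x * (15000 * (1 + l)) := by
  have h1 : x * t ≤ x * (9600 * l + 14650) := mul_le_mul_of_nonneg_left ht (by linarith)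
  have h2 : 0 ≤ (x - 661) * l := mul_nonneg (by linarith) hl
  nlinarith

theorem log_cosets {L : ℝ} (hL : 1 ≤ L) :
    8 * L * (2 ^ 44 * L ^ 20) ^ 185 ≤ Real.exp (5700 + 3701 * Real.log L) := by
  have hL0 : 0 < L := by linarith
  have h0 : 0 < 8 * L * (2 ^ 44 * L ^ 20) ^ 185 := by positivity
  rw [← Real.exp_log h0, Real.exp_le_exp, Real.log_mul (by positivity) (by positivity),
    Real.log_mul (by norm_num) (by positivity), Real.log_pow, Real.log_mul (by positivity)
    (by positivity), Real.log_pow, Real.log_pow, show (8 : ℝ) = 2 ^ 3 by norm_num, Real.log_pow]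
  have h1 := Real.log_two_lt_d9
  push_cast
  nlinarith

/-- **popular ratios with many multiplicative quadruples** -/
theorem rat_struct {ε : ℝ} (hε : 0 < ε) (hε1 : ε ≤ 1) {V : Type} [AddCommGroup V] [Module ℚ V]
    [DecidableEq V] (A B C : Finset V) (K L : ℝ) (hK : 1 ≤ K) (hL : 1 ≤ L)
    (R : Finset ℚˣ) (hC : 2 ≤ C.card) (hB : B.Nonempty)
    (hE : (R.card : ℝ) ^ 3 ≤ L * (R.mulEnergy R : ℕ))
    (hKC : K * (Real.exp (662 / ε) * Real.log C.card) ^ (15000 * (1 + Real.log L)) ≤
      (C.card : ℝ) ^ (ε / 16))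
    (hR : ∀ r ∈ R, (C.card : ℝ) ≤ K * ((C.filter fun c => (r : ℚ) • c ∈ A).card : ℝ))
    (hAB : ((A + B).card : ℝ) ≤ ((C.card : ℝ) * B.card) ^ (1 - ε)) :
    (R.card : ℝ) ≤
      K * (Real.exp (662 / ε) * Real.log C.card) ^ (15000 * (1 + Real.log L)) := by
  classical
  have hK0 : 0 < K := by linarith
  have hlog := half_le_log hC
  set X : ℝ := Real.exp (662 / ε) * Real.log C.card with hX
  have hX0 : 0 < X := by positivity
  set x : ℝ := Real.log X with hx
  have hx661 : 661 ≤ x := by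
    rw [hx, hX, Real.log_mul (Real.exp_pos _).ne' (by positivity), Real.log_exp]
    have h1 : (662 : ℝ) ≤ 662 / ε := by
      rw [le_div_iff₀ hε]
      linarith
    have h2 : Real.log (1 / 2) ≤ Real.log (Real.log (C.card : ℝ)) :=
      Real.log_le_log (by norm_num) hlog
    have h3 : Real.log (1 / 2) = - Real.log 2 := by
      rw [one_div, Real.log_inv]
    have h4 := Real.log_two_lt_d9
    linarith
  have hl : 0 ≤ Real.log L := Real.log_nonneg hL
  set l : ℝ := Real.log L with hl'
  have hpow : X ^ (15000 * (1 + l)) = Real.exp (x * (15000 * (1 + l))) := by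
    rw [Real.rpow_def_of_pos hX0]
  rcases R.eq_empty_or_nonempty with hRe | hRne
  · rw [hRe, card_empty, Nat.cast_zero]
    positivity
  -- the cosets
  set R₁ : Finset (Additive ℚˣ) := R.map Additive.ofMul.toEmbedding with hR₁
  have hR₁c : R₁.card = R.card := card_map _
  obtain ⟨T, hTp, hTc, R', hR'R, hR'c, hR'⟩ := few_cosets_energy hL (R := R₁)
    (by rw [hR₁]; exact hRne.map) (by rw [hR₁c, hR₁, energy_map]; exact hE)
  set Q : Finset ℚ := R'.image qv with hQ
  have hQc : Q.card = R'.card := card_image_of_injective _ qv_inj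
  have hXT : X ^ T.card = Real.exp (x * T.card) := by
    rw [← Real.rpow_natCast, Real.rpow_def_of_pos hX0]
  have hnum := str_num hx661 hl hTc
  have h8 : (8 : ℝ) ≤ Real.exp 3 := by
    have h1 := Real.add_one_le_exp (1 : ℝ)
    have h2 : Real.exp 3 = Real.exp 1 ^ 3 := by
      rw [← Real.exp_nat_mul]
      norm_num
    rw [h2]
    have h3 : (2 : ℝ) ^ 3 ≤ Real.exp 1 ^ 3 := pow_le_pow_left₀ (by norm_num) (by linarith) 3
    linarith
  have hmain := rat_lin2 hε hε1 T hTp A B C K hK Q hC hB (by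
      refine le_trans ?_ hKC
      rw [hpow]
      have h1 : 8 * X ^ T.card ≤ Real.exp (x * (15000 * (1 + l))) := by
        rw [hXT]
        calc 8 * Real.exp (x * T.card) ≤ Real.exp 3 * Real.exp (x * T.card) :=
              mul_le_mul_of_nonneg_right h8 (Real.exp_pos _).le
          _ = Real.exp (3 + x * T.card) := by rw [Real.exp_add]
          _ ≤ _ := by
            rw [Real.exp_le_exp]
            linarith
      calc 8 * K * X ^ T.card = K * (8 * X ^ T.card) := by ring
        _ ≤ _ := mul_le_mul_of_nonneg_left h1 hK0.le)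
    (by
      intro r hr
      obtain ⟨a, _, rfl⟩ := mem_image.1 hr
      exact qv_ne a)
    (by
      intro r hr r' hr' h
      obtain ⟨a, ha, rfl⟩ := mem_image.1 hr
      obtain ⟨a', ha', rfl⟩ := mem_image.1 hr'
      rw [← qv_sub] at h ⊢
      exact hR' a ha a' ha' h)
    (by
      intro r hr
      obtain ⟨a, ha, rfl⟩ := mem_image.1 hr
      obtain ⟨u, hu, rfl⟩ := mem_map.1 (hR'R ha)
      exact hR u hu) hAB
  rw [hQc] at hmain
  rw [hR₁c] at hR'c
  have h3 : Real.log L = l := rfl
  have hcos := log_cosets hL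
  rw [h3] at hcos
  calc (R.card : ℝ) ≤ 8 * L * (2 ^ 44 * L ^ 20) ^ 185 * R'.card := hR'c
    _ ≤ Real.exp (5700 + 3701 * l) * R'.card :=
        mul_le_mul_of_nonneg_right hcos (Nat.cast_nonneg _)
    _ ≤ Real.exp (5700 + 3701 * l) * (4 * K * X ^ T.card) :=
        mul_le_mul_of_nonneg_left hmain (Real.exp_pos _).le
    _ = K * (Real.exp (5700 + 3701 * l) * (4 * Real.exp (x * T.card))) := by
        rw [hXT]
        ring
    _ ≤ K * (Real.exp (5700 + 3701 * l) * (Real.exp 3 * Real.exp (x * T.card))) := by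
        apply mul_le_mul_of_nonneg_left _ hK0.le
        apply mul_le_mul_of_nonneg_left _ (Real.exp_pos _).le
        apply mul_le_mul_of_nonneg_right _ (Real.exp_pos _).le
        linarith
    _ = K * Real.exp (5703 + 3701 * l + x * T.card) := by
        rw [← Real.exp_add, ← Real.exp_add]
        congr 2
        ring
    _ ≤ K * X ^ (15000 * (1 + l)) := by
        rw [hpow]
        apply mul_le_mul_of_nonneg_left _ hK0.le
        rw [Real.exp_le_exp]
        exact hnum

end Pool.Agent.H85.AK
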