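import Pool.Agent.H85.AK.Hom1
import Pool.Agent.H85.AK.Str3

/-!
Families of subsets: sets of rational numbers with many multiplicative quadruples.
-/

set_option autoImplicit false

namespace Pool.Agent.H85.AK

open Finset
open scoped Pointwise

set_option maxHeartbeats 400000

/-- **popular ratios with many multiplicative quadruples** -/
theorem rat_struct3 {ε : ℝ} (hε : 0 < ε) (hε1 : ε ≤ 1) {V : Type} [AddCommGroup V] [Module ℚ V]
    [DecidableEq V] (B C : Finset V) (K L : ℝ) (hK : 1 ≤ K) (hL : 1 ≤ L)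
    (R : Finset ℚˣ) (D : ℚˣ → Finset V) (hC : 2 ≤ C.card) (hB : B.Nonempty)
    (hE : (R.card : ℝ) ^ 3 ≤ L * (R.mulEnergy R : ℕ))
    (hKC : K * (Real.exp (704 / ε) * Real.log C.card) ^ (15000 * (1 + Real.log L)) ≤
      (C.card : ℝ) ^ (ε / 17))
    (hR : ∀ r ∈ R, D r ⊆ C ∧ (C.card : ℝ) ≤ K * ((D r).card : ℝ) ∧
      (((r : ℚ) • D r + B).card : ℝ) ≤ ((C.card : ℝ) * B.card) ^ (1 - ε)) :
    (R.card : ℝ) ≤
      K * (Real.exp (704 / ε) * Real.log C.card) ^ (15000 * (1 + Real.log L)) := by
  classical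
  have hK0 : 0 < K := by linarith
  have hlog := half_le_log hC
  set X : ℝ := Real.exp (704 / ε) * Real.log C.card with hX
  have hX0 : 0 < X := by positivity
  set x : ℝ := Real.log X with hx
  have hx661 : 661 ≤ x := by
    rw [hx, hX, Real.log_mul (Real.exp_pos _).ne' (by positivity), Real.log_exp]
    have h1 : (704 : ℝ) ≤ 704 / ε := by
      rw [le_div_iff₀ hε]
      linarith
    have h2 : Real.log (1 / 2) ≤ Real.log (Real.log (C.card : ℝ)) :=
      Real.log_le_log (by norm_num) hlog
    have h3 : Real.log (1 / 2) = - Real.log 2 := by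
      rw [one_div, Real.log_inv]
    have h4 := Real.log_two_lt_d9
    linarith
  have hl : 0 ≤ Real.log L := Real.log_nonneg hL
  set l : ℝ := Real.log L with hl'
  have hpow : X ^ (15000 * (1 + l)) = Real.exp (x * (15000 * (1 + l))) := by
    rw [Real.rpow_def_of_pos hX0]
  rcases R.eq_empty_or_nonempty with hRe | hRne
  · rw [hRe, card_empty, Nat.cast_zero]
    positivity
  -- the cosets
  set R₁ : Finset (Additive ℚˣ) := R.map Additive.ofMul.toEmbedding with hR₁
  have hR₁c : R₁.card = R.card := card_map _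
  obtain ⟨T, hTp, hTc, R', hR'R, hR'c, hR'⟩ := few_cosets_energy hL (R := R₁)
    (by rw [hR₁]; exact hRne.map) (by rw [hR₁c, hR₁, energy_map]; exact hE)
  set Q : Finset ℚ := R'.image qv with hQ
  have hQc : Q.card = R'.card := card_image_of_injective _ qv_inj
  have hXT : X ^ T.card = Real.exp (x * T.card) := by
    rw [← Real.rpow_natCast, Real.rpow_def_of_pos hX0]
  have hnum := str_num hx661 hl hTc
  have h8 : (8 : ℝ) ≤ Real.exp 3 := by
    have h1 := Real.add_one_le_exp (1 : ℝ)
    have h2 : Real.exp 3 = Real.exp 1 ^ 3 := by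
      rw [← Real.exp_nat_mul]
      norm_num
    rw [h2]
    have h3 : (2 : ℝ) ^ 3 ≤ Real.exp 1 ^ 3 := pow_le_pow_left₀ (by norm_num) (by linarith) 3
    linarith
  have hu : ∀ u : ℚˣ, (if h : (u : ℚ) ≠ 0 then D (Units.mk0 (u : ℚ) h) else ∅) = D u := by
    intro u
    rw [dif_pos (Units.ne_zero u), Units.mk0_val]
  have hmain := rat_lin3 hε hε1 T hTp B C K hK Q
    (fun q => if h : q ≠ 0 then D (Units.mk0 q h) else ∅) hC hB (by
      refine le_trans ?_ hKC
      rw [hpow]
      have h1 : 8 * X ^ T.card ≤ Real.exp (x * (15000 * (1 + l))) := by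
        rw [hXT]
        calc 8 * Real.exp (x * T.card) ≤ Real.exp 3 * Real.exp (x * T.card) :=
              mul_le_mul_of_nonneg_right h8 (Real.exp_pos _).le
          _ = Real.exp (3 + x * T.card) := by rw [Real.exp_add]
          _ ≤ _ := by
            rw [Real.exp_le_exp]
            linarith
      calc 8 * K * X ^ T.card = K * (8 * X ^ T.card) := by ring
        _ ≤ _ := mul_le_mul_of_nonneg_left h1 hK0.le)
    (by
      intro r hr
      obtain ⟨a, _, rfl⟩ := mem_image.1 hr
      exact qv_ne a)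
    (by
      intro r hr r' hr' h
      obtain ⟨a, ha, rfl⟩ := mem_image.1 hr
      obtain ⟨a', ha', rfl⟩ := mem_image.1 hr'
      rw [← qv_sub] at h ⊢
      exact hR' a ha a' ha' h)
    (by
      intro r hr
      obtain ⟨a, ha, rfl⟩ := mem_image.1 hr
      obtain ⟨u, hu', rfl⟩ := mem_map.1 (hR'R ha)
      have e : qv (Additive.ofMul.toEmbedding u) = (u : ℚ) := rfl
      rw [e]
      simp only [hu]
      exact hR u hu')
  rw [hQc] at hmain
  rw [hR₁c] at hR'c
  have h3 : Real.log L = l := rfl
  have hcos := log_cosets hL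
  rw [h3] at hcos
  calc (R.card : ℝ) ≤ 8 * L * (2 ^ 44 * L ^ 20) ^ 185 * R'.card := hR'c
    _ ≤ Real.exp (5700 + 3701 * l) * R'.card :=
        mul_le_mul_of_nonneg_right hcos (Nat.cast_nonneg _)
    _ ≤ Real.exp (5700 + 3701 * l) * (4 * K * X ^ T.card) :=
        mul_le_mul_of_nonneg_left hmain (Real.exp_pos _).le
    _ = K * (Real.exp (5700 + 3701 * l) * (4 * Real.exp (x * T.card))) := by
        rw [hXT]
        ring
    _ ≤ K * (Real.exp (5700 + 3701 * l) * (Real.exp 3 * Real.exp (x * T.card))) := by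
        apply mul_le_mul_of_nonneg_left _ hK0.le
        apply mul_le_mul_of_nonneg_left _ (Real.exp_pos _).le
        apply mul_le_mul_of_nonneg_right _ (Real.exp_pos _).le
        linarith
    _ = K * Real.exp (5703 + 3701 * l + x * T.card) := by
        rw [← Real.exp_add, ← Real.exp_add]
        congr 2
        ring
    _ ≤ K * X ^ (15000 * (1 + l)) := by
        rw [hpow]
        apply mul_le_mul_of_nonneg_left _ hK0.le
        rw [Real.exp_le_exp]
        exact hnum

end Pool.Agent.H85.AK
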