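import Pool.Agent.H85.AK.Pop2

/-!
Sums with dilates, partners, one almost symmetry.
-/

set_option autoImplicit false

namespace Pool.Agent.H85.AK

open Finset
open scoped Pointwise

/-- few valuations if all dilates of `C` are contained in `A`, in a field -/
theorem dil {ε : ℝ} (hε : 0 < ε) (hε1 : ε ≤ 1) {F : Type*} [Field F] [DecidableEq F]
    (v : Valuation F (WithZero (Multiplicative ℤ))) (A C : Finset F) (hC : 2 ≤ C.card)
    (R : Finset F) (hR0 : ∀ r ∈ R, r ≠ 0) (hR : ∀ r ∈ R, ∀ c ∈ C, r * c ∈ A)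
    (hv : Real.exp (7 / ε) * Real.log (C.card : ℝ) < ((v '' (R : Set F)).ncard : ℝ))
    (B : Finset F) (hB : B.Nonempty) :
    ((C.card : ℝ) * B.card) ^ (1 - ε) < ((A + B).card : ℝ) := by
  by_contra hcon
  push Not at hcon
  have hC2 : (2 : ℝ) ≤ C.card := by exact_mod_cast hC
  have hB1 : (1 : ℝ) ≤ B.card := by exact_mod_cast card_pos.2 hB
  have hlogC : 0 < Real.log (C.card : ℝ) := Real.log_pos (by linarith)
  have hRne : R.Nonempty := by
    by_contra hR1
    rw [not_nonempty_iff_eq_empty] at hR1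
    rw [hR1, coe_empty, Set.image_empty, Set.ncard_empty, Nat.cast_zero] at hv
    have : 0 ≤ Real.exp (7 / ε) * Real.log (C.card : ℝ) := by positivity
    linarith
  obtain ⟨r0, hr0⟩ := hRne
  obtain ⟨c0, hc0⟩ : C.Nonempty := card_pos.1 (by omega)
  have hBD : (B.card : ℝ) ≤ (A + B).card := by
    apply Nat.cast_le.2
    apply card_le_card_of_injOn (fun b => r0 * c0 + b)
    · intro b hb
      exact add_mem_add (hR r0 hr0 c0 hc0) hb
    · intro b _ b' _ h
      exact add_left_cancel h
  have hlog := log_prod hε (show (1 : ℝ) ≤ C.card by linarith) hB1 hBD hcon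
  set P : Finset (F × F) := B ×ˢ C with hP
  have hPc : (P.card : ℝ) = (C.card : ℝ) * B.card := by
    rw [hP, card_product]
    push_cast
    ring
  have hCP : (C.card : ℝ) ≤ P.card := by
    rw [hPc]
    nlinarith
  have hP2 : 2 ≤ P.card := by
    have : (2 : ℝ) ≤ P.card := by linarith
    exact_mod_cast this
  have key := val_count hε hε1 v P hP2 R hR0 ?_
  · rw [hPc] at key
    have h0 : (v '' (R : Set F)).ncard = (R.image v).card := by
      rw [← Finset.coe_image, Set.ncard_coe_finset]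
    rw [h0] at hv
    have h1 : Real.exp (6 / ε) * Real.log ((C.card : ℝ) * B.card) ≤
        Real.exp (7 / ε) * Real.log (C.card : ℝ) := by
      have h2 : Real.exp (6 / ε) * Real.log ((C.card : ℝ) * B.card) ≤
          Real.exp (6 / ε) * (1 / ε * Real.log (C.card : ℝ)) :=
        mul_le_mul_of_nonneg_left hlog (by positivity)
      have h3 : 1 / ε ≤ Real.exp (1 / ε) := by
        have := Real.add_one_le_exp (1 / ε)
        linarith
      have h4 : Real.exp (7 / ε) = Real.exp (6 / ε) * Real.exp (1 / ε) := by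
        rw [← Real.exp_add]
        congr 1
        ring
      rw [h4]
      have h5 : Real.exp (6 / ε) * (1 / ε * Real.log (C.card : ℝ)) =
          (Real.exp (6 / ε) * Real.log (C.card : ℝ)) * (1 / ε) := by ring
      have h6 : Real.exp (6 / ε) * Real.exp (1 / ε) * Real.log (C.card : ℝ) =
          (Real.exp (6 / ε) * Real.log (C.card : ℝ)) * Real.exp (1 / ε) := by ring
      rw [h6]
      rw [h5] at h2
      exact h2.trans (mul_le_mul_of_nonneg_left h3 (by positivity))
    exact absurd (key.trans h1) (not_le.2 hv)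
  · intro r hr
    rw [hPc]
    refine le_trans (Nat.cast_le.2 (card_le_card ?_)) hcon
    intro w hw
    obtain ⟨⟨b, c⟩, hbc, rfl⟩ := mem_image.1 hw
    obtain ⟨hb, hc⟩ := mem_product.1 hbc
    show b + r * c ∈ A + B
    rw [add_comm b]
    exact add_mem_add (hR r hr c hc) hb

/-- **sums with dilates, in vector spaces** -/
theorem dilV {ε : ℝ} (hε : 0 < ε) (hε1 : ε ≤ 1) {F V : Type*} [Field F] [DecidableEq F]
    [AddCommGroup V] [Module F V] [DecidableEq V]
    (v : Valuation F (WithZero (Multiplicative ℤ))) (C : Finset V) (hC : 2 ≤ C.card)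
    (P : Finset F) (hP0 : ∀ r ∈ P, r ≠ 0)
    (hv : Real.exp (7 / ε) * Real.log (C.card : ℝ) < ((v '' (P : Set F)).ncard : ℝ))
    (B : Finset V) (hB : B.Nonempty) :
    ((C.card : ℝ) * B.card) ^ (1 - ε) < ((P • C + B).card : ℝ) := by
  classical
  have hC2 : (2 : ℝ) ≤ C.card := by exact_mod_cast hC
  have hinf : Infinite F := by
    apply infinite_of_val v hP0
    have h1 : (1 : ℝ) < ((v '' (P : Set F)).ncard : ℝ) := by
      refine lt_of_le_of_lt ?_ hv
      have h2 : Real.log 2 ≤ Real.log (C.card : ℝ) := Real.log_le_log (by norm_num) hC2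
      have h3 := Real.log_two_gt_d9
      have h4 : 7 / ε + 1 ≤ Real.exp (7 / ε) := Real.add_one_le_exp _
      have h5 : (7 : ℝ) ≤ 7 / ε := by
        rw [le_div_iff₀ hε]
        linarith
      have h7 : (8 : ℝ) * (1 / 2) ≤ Real.exp (7 / ε) * Real.log (C.card : ℝ) :=
        mul_le_mul (by linarith) (by linarith) (by norm_num) (by positivity)
      linarith
    exact_mod_cast h1
  obtain ⟨f, hfC, hfB⟩ := exists_dual_inj (F := F) C B
  have hCc : (C.image f).card = C.card := card_image_of_injOn hfC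
  have hBc : (B.image f).card = B.card := card_image_of_injOn hfB
  have key := dil hε hε1 v ((P • C).image f) (C.image f) (by rw [hCc]; exact hC) P hP0 (by
      intro r hr c hc
      obtain ⟨c', hc', rfl⟩ := mem_image.1 hc
      have h3 : r * f c' = f (r • c') := by
        rw [map_smul]
        rfl
      rw [h3]
      exact mem_image_of_mem _ (smul_mem_smul hr hc'))
    (by rw [hCc]; exact hv) (B.image f) (hB.image f)
  rw [hCc, hBc] at key
  refine lt_of_lt_of_le key (Nat.cast_le.2 ?_)
  have h1 : (P • C).image f + B.image f = (P • C + B).image f := (image_add f).symm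
  rw [h1]
  exact card_image_le

/-- the Cauchy–Schwarz inequality: a partner gives popular ratios -/
theorem partner_pop {F V : Type*} [Field F] [DecidableEq F] [AddCommGroup V] [Module F V]
    [DecidableEq V] {A : Finset V} (hA : A.Nonempty) {P : Finset F} (hP : P.Nonempty)
    (hP0 : ∀ r ∈ P, r ≠ 0) {K : ℝ} (hK : 1 ≤ K) (h : ((P • A).card : ℝ) ≤ K * A.card) :
    ∃ q ∈ P, (P.card : ℝ) ≤ 2 * K * ((P.filter fun p =>
      (A.card : ℝ) ≤ 2 * K * ((A.filter fun a => (p⁻¹ * q) • a ∈ A).card : ℝ)).card : ℝ) := by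
  have hA0 : (0 : ℝ) < A.card := by exact_mod_cast card_pos.2 hA
  have hPc : (0 : ℝ) < P.card := by exact_mod_cast card_pos.2 hP
  -- representations
  set ρ : V → ℕ := fun x => (P.filter fun p => p⁻¹ • x ∈ A).card with hρ
  have h1 : ∑ x ∈ P • A, ρ x = P.card * A.card := by
    simp only [hρ, card_filter]
    rw [sum_comm]
    have h2 : ∀ p ∈ P, ∑ x ∈ P • A, (if p⁻¹ • x ∈ A then 1 else 0) = A.card := by
      intro p hp
      rw [← card_filter]
      have h3 : (P • A).filter (fun x => p⁻¹ • x ∈ A) = A.image (fun a => p • a) := by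
        ext x
        simp only [mem_filter, mem_image]
        constructor
        · rintro ⟨_, h4⟩
          exact ⟨_, h4, smul_inv_smul₀ (hP0 p hp) x⟩
        · rintro ⟨a, ha, rfl⟩
          exact ⟨smul_mem_smul hp ha, by rw [inv_smul_smul₀ (hP0 p hp)]; exact ha⟩
      rw [h3, card_image_of_injective _ (MulAction.injective₀ (hP0 p hp))]
    rw [sum_congr rfl h2, sum_const, smul_eq_mul]
  have h2 : (∑ x ∈ P • A, (ρ x : ℝ)) ^ 2 ≤ (P • A).card * ∑ x ∈ P • A, (ρ x : ℝ) ^ 2 :=
    sq_sum_le_card_mul_sum_sq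
  have h3 : (∑ x ∈ P • A, (ρ x : ℝ)) = P.card * A.card := by
    rw [← Nat.cast_sum, h1]
    push_cast
    rfl
  -- the second moment
  have h4 : ∑ x ∈ P • A, ρ x ^ 2 = ∑ q ∈ P, ∑ p ∈ P, (A.filter fun a => (p⁻¹ * q) • a ∈ A).card := by
    have h5 : ∀ x, ρ x ^ 2 = ∑ q ∈ P, ∑ p ∈ P, if q⁻¹ • x ∈ A ∧ p⁻¹ • x ∈ A then 1 else 0 := by
      intro x
      rw [sq]
      simp only [hρ, card_filter]
      rw [sum_mul_sum]
      apply sum_congr rfl
      intro q _
      apply sum_congr rfl
      intro p _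
      by_cases h6 : q⁻¹ • x ∈ A <;> by_cases h7 : p⁻¹ • x ∈ A <;> simp [h6, h7]
    simp only [h5]
    rw [sum_comm]
    apply sum_congr rfl
    intro q hq
    rw [sum_comm]
    apply sum_congr rfl
    intro p hp
    rw [← card_filter]
    have h8 : (P • A).filter (fun x => q⁻¹ • x ∈ A ∧ p⁻¹ • x ∈ A) =
        (A.filter fun a => (p⁻¹ * q) • a ∈ A).image fun a => q • a := by
      ext x
      simp only [mem_filter, mem_image]
      constructor
      · rintro ⟨_, h9, h10⟩
        refine ⟨q⁻¹ • x, ⟨h9, ?_⟩, smul_inv_smul₀ (hP0 q hq) x⟩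
        rw [smul_smul, mul_assoc, mul_inv_cancel₀ (hP0 q hq), mul_one]
        exact h10
      · rintro ⟨a, ⟨ha, h9⟩, rfl⟩
        refine ⟨smul_mem_smul hq ha, ?_, ?_⟩
        · rw [inv_smul_smul₀ (hP0 q hq)]
          exact ha
        · rw [smul_smul]
          exact h9
    rw [h8, card_image_of_injective _ (MulAction.injective₀ (hP0 q hq))]
  have h5 : (P.card : ℝ) ^ 2 * A.card ≤
      K * ∑ q ∈ P, ∑ p ∈ P, ((A.filter fun a => (p⁻¹ * q) • a ∈ A).card : ℝ) := by
    have h6 : ∑ x ∈ P • A, (ρ x : ℝ) ^ 2 =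
        ∑ q ∈ P, ∑ p ∈ P, ((A.filter fun a => (p⁻¹ * q) • a ∈ A).card : ℝ) := by
      exact_mod_cast h4
    rw [h3, h6] at h2
    set W : ℝ := ∑ q ∈ P, ∑ p ∈ P, ((A.filter fun a => (p⁻¹ * q) • a ∈ A).card : ℝ) with hW
    have hW0 : 0 ≤ W := sum_nonneg fun q _ => sum_nonneg fun p _ => Nat.cast_nonneg _
    have h7 : (P.card * A.card : ℝ) ^ 2 ≤ (K * A.card) * W :=
      h2.trans (mul_le_mul_of_nonneg_right h hW0)
    have h8 : ((P.card : ℝ) ^ 2 * A.card) * A.card ≤ (K * W) * A.card := by
      calc ((P.card : ℝ) ^ 2 * A.card) * A.card = (P.card * A.card : ℝ) ^ 2 := by ring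
        _ ≤ (K * A.card) * W := h7
        _ = (K * W) * A.card := by ring
    exact le_of_mul_le_mul_right h8 hA0
  -- a good element
  obtain ⟨q, hq, h6⟩ : ∃ q ∈ P, (P.card : ℝ) * A.card ≤
      K * ∑ p ∈ P, ((A.filter fun a => (p⁻¹ * q) • a ∈ A).card : ℝ) := by
    by_contra hcon
    push Not at hcon
    have h7 := sum_lt_sum_of_nonempty hP hcon
    rw [← mul_sum, sum_const, nsmul_eq_mul] at h7
    have h8 : (P.card : ℝ) ^ 2 * A.card = P.card * (P.card * A.card) := by ring
    linarith
  refine ⟨q, hq, ?_⟩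
  set G := P.filter fun p =>
    (A.card : ℝ) ≤ 2 * K * ((A.filter fun a => (p⁻¹ * q) • a ∈ A).card : ℝ) with hG
  have h7 : ∑ p ∈ P, ((A.filter fun a => (p⁻¹ * q) • a ∈ A).card : ℝ) ≤
      G.card * A.card + P.card * (A.card / (2 * K)) := by
    rw [← sum_filter_add_sum_filter_not P (fun p =>
      (A.card : ℝ) ≤ 2 * K * ((A.filter fun a => (p⁻¹ * q) • a ∈ A).card : ℝ))]
    apply add_le_add
    · rw [← nsmul_eq_mul, ← sum_const]
      exact sum_le_sum fun p _ => Nat.cast_le.2 (card_filter_le _ _)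
    · refine le_trans (sum_le_card_nsmul _ _ (A.card / (2 * K)) ?_) ?_
      · intro p hp
        have h8 := (mem_filter.1 hp).2
        push Not at h8
        rw [le_div_iff₀ (by positivity)]
        linarith
      · rw [nsmul_eq_mul]
        exact mul_le_mul_of_nonneg_right (Nat.cast_le.2 (card_filter_le _ _)) (by positivity)
  have h8 : (P.card : ℝ) * A.card ≤ K * (G.card * A.card + P.card * (A.card / (2 * K))) :=
    h6.trans (mul_le_mul_of_nonneg_left h7 (by linarith))
  have h9 : K * (G.card * A.card + P.card * (A.card / (2 * K))) =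
      K * G.card * A.card + P.card * A.card / 2 := by
    have : K ≠ 0 := by positivity
    field_simp
  rw [h9] at h8
  have h10 : (P.card : ℝ) * A.card ≤ (2 * K * G.card) * A.card := by nlinarith
  exact le_of_mul_le_mul_right h10 hA0

end Pool.Agent.H85.AK
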