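import Pool.Agent.H85.AK.Str3
import Pool.Agent.H85.AK.Pop3

/-!
Structured multiplicative partners of polylogarithmic size.
-/

set_option autoImplicit false

namespace Pool.Agent.H85.AK

open Finset
open scoped Pointwise

set_option maxHeartbeats 400000

/-- the numerical part -/
theorem part_num {x l : ℝ} (hx : 661 ≤ x) (hl : 0 ≤ l) :
    2 + 2 * l + x * (15000 * (1 + (1 + 2 * l))) ≤ x * (31000 * (1 + l)) := by
  have h2 : 0 ≤ (x - 661) * l := mul_nonneg (by linarith) hl
  nlinarith

/-- **structured multiplicative partners** -/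
theorem rat_partner {ε : ℝ} (hε : 0 < ε) (hε1 : ε ≤ 1) {V : Type} [AddCommGroup V] [Module ℚ V]
    [DecidableEq V] (A B : Finset V) (K : ℝ) (hK : 1 ≤ K) (P : Finset ℚˣ) (hA : 2 ≤ A.card)
    (hB : B.Nonempty)
    (hPA : (((P.image fun p : ℚˣ => (p : ℚ)) • A).card : ℝ) ≤ K * A.card)
    (hPP : ((P * P).card : ℝ) ≤ K * P.card)
    (hKA : (Real.exp (662 / ε) * Real.log A.card) ^ (31000 * (1 + Real.log K)) ≤
      (A.card : ℝ) ^ (ε / 16))
    (hP : (Real.exp (662 / ε) * Real.log A.card) ^ (31000 * (1 + Real.log K)) < (P.card : ℝ)) :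
    ((A.card : ℝ) * B.card) ^ (1 - ε) < ((A + B).card : ℝ) := by
  classical
  by_contra hcon
  push Not at hcon
  have hK0 : 0 < K := by linarith
  have hlog := half_le_log hA
  set X : ℝ := Real.exp (662 / ε) * Real.log A.card with hX
  have hX0 : 0 < X := by positivity
  set x : ℝ := Real.log X with hx
  have hx661 : 661 ≤ x := by
    rw [hx, hX, Real.log_mul (Real.exp_pos _).ne' (by positivity), Real.log_exp]
    have h1 : (662 : ℝ) ≤ 662 / ε := by
      rw [le_div_iff₀ hε]
      linarith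
    have h2 : Real.log (1 / 2) ≤ Real.log (Real.log (A.card : ℝ)) :=
      Real.log_le_log (by norm_num) hlog
    have h3 : Real.log (1 / 2) = - Real.log 2 := by
      rw [one_div, Real.log_inv]
    have h4 := Real.log_two_lt_d9
    linarith
  have hl : 0 ≤ Real.log K := Real.log_nonneg hK
  set l : ℝ := Real.log K with hl'
  have hKe : K = Real.exp l := by rw [hl', Real.exp_log hK0]
  have hpow : X ^ (31000 * (1 + l)) = Real.exp (x * (31000 * (1 + l))) := by
    rw [Real.rpow_def_of_pos hX0]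
  have hP0 : (0 : ℝ) < P.card := by
    refine lt_of_le_of_lt ?_ hP
    positivity
  have hPne : P.Nonempty := card_pos.1 (by exact_mod_cast hP0)
  have hAne : A.Nonempty := card_pos.1 (by omega)
  have hinj : Function.Injective fun p : ℚˣ => (p : ℚ) := fun a b h => Units.ext h
  obtain ⟨q, hq, hcard⟩ := partner_pop hAne (hPne.image fun p : ℚˣ => (p : ℚ)) (by
    intro r hr
    obtain ⟨u, _, rfl⟩ := mem_image.1 hr
    exact Units.ne_zero u) hK hPA
  obtain ⟨q', hq', rfl⟩ := mem_image.1 hq
  set P' : Finset ℚˣ := P.filter fun p =>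
      (A.card : ℝ) ≤ 2 * K * ((A.filter fun a => ((p : ℚ)⁻¹ * (q' : ℚ)) • a ∈ A).card : ℝ) with hP'
  have hP'c : (((P.image fun p : ℚˣ => (p : ℚ)).filter fun p =>
      (A.card : ℝ) ≤ 2 * K * ((A.filter fun a => (p⁻¹ * (q' : ℚ)) • a ∈ A).card : ℝ)).card : ℝ) =
      P'.card := by
    rw [filter_image, card_image_of_injective _ hinj]
  rw [card_image_of_injective _ hinj, hP'c] at hcard
  -- the ratios
  set R : Finset ℚˣ := P'.image fun p => p⁻¹ * q' with hR
  have hRc : R.card = P'.card := card_image_of_injective _ fun a b h => by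
    have h' : a⁻¹ * q' = b⁻¹ * q' := h
    exact inv_injective (mul_right_cancel h')
  have hRR : ((R * R).card : ℝ) ≤ 2 * K ^ 2 * R.card := by
    have h1 : R * R ⊆ (P * P).image fun y => y⁻¹ * (q' * q') := by
      intro z hz
      obtain ⟨a, ha, b, hb, rfl⟩ := mem_mul.1 hz
      obtain ⟨u, hu, rfl⟩ := mem_image.1 ha
      obtain ⟨w, hw, rfl⟩ := mem_image.1 hb
      refine mem_image.2 ⟨u * w, mul_mem_mul (mem_filter.1 hu).1 (mem_filter.1 hw).1, ?_⟩
      show (u * w)⁻¹ * (q' * q') = (u⁻¹ * q') * (w⁻¹ * q')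
      rw [mul_inv]
      exact mul_mul_mul_comm _ _ _ _
    have h2 : ((R * R).card : ℝ) ≤ (P * P).card := by
      exact_mod_cast (card_le_card h1).trans card_image_le
    calc ((R * R).card : ℝ) ≤ K * P.card := h2.trans hPP
      _ ≤ K * (2 * K * P'.card) := mul_le_mul_of_nonneg_left hcard hK0.le
      _ = 2 * K ^ 2 * R.card := by
          rw [hRc]
          ring
  have hRpos : (0 : ℝ) < R.card := by
    rw [hRc]
    by_contra h
    have h1 : (P'.card : ℝ) = 0 := le_antisymm (not_lt.1 h) (Nat.cast_nonneg _)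
    rw [h1, mul_zero] at hcard
    linarith
  have hE : (R.card : ℝ) ^ 3 ≤ (2 * K ^ 2) * (R.mulEnergy R : ℕ) := by
    have h1 := le_card_mul_mul_mulEnergy R R
    have h2 : (R.card : ℝ) ^ 2 * (R.card : ℝ) ^ 2 ≤ (R * R).card * (R.mulEnergy R : ℕ) := by
      exact_mod_cast h1
    have h3 : ((R * R).card : ℝ) * (R.mulEnergy R : ℕ) ≤
        2 * K ^ 2 * R.card * (R.mulEnergy R : ℕ) :=
      mul_le_mul_of_nonneg_right hRR (Nat.cast_nonneg _)
    have h4 : (R.card : ℝ) * (R.card : ℝ) ^ 3 ≤ R.card * ((2 * K ^ 2) * (R.mulEnergy R : ℕ)) := by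
      calc (R.card : ℝ) * (R.card : ℝ) ^ 3 = (R.card : ℝ) ^ 2 * (R.card : ℝ) ^ 2 := by ring
        _ ≤ 2 * K ^ 2 * R.card * (R.mulEnergy R : ℕ) := h2.trans h3
        _ = _ := by ring
    exact le_of_mul_le_mul_left h4 hRpos
  have hL2 : (1 : ℝ) ≤ 2 * K ^ 2 := by nlinarith
  have hlogL : Real.log (2 * K ^ 2) ≤ 1 + 2 * l := by
    rw [Real.log_mul (by norm_num) (by positivity), Real.log_pow]
    have := Real.log_two_lt_d9
    push_cast
    linarith
  have hX1 : 1 ≤ X := by
    by_contra h
    have h1 : Real.log X ≤ 0 := Real.log_nonpos hX0.le (not_le.1 h).le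
    linarith
  have h2e : (2 : ℝ) ≤ Real.exp 1 := by
    have := Real.add_one_le_exp (1 : ℝ)
    linarith
  -- the bound for the number of ratios
  have hY : 2 * K * X ^ (15000 * (1 + Real.log (2 * K ^ 2))) ≤
      Real.exp (1 + l + x * (15000 * (1 + (1 + 2 * l)))) := by
    have h1 : X ^ (15000 * (1 + Real.log (2 * K ^ 2))) ≤ Real.exp (x * (15000 * (1 + (1 + 2 * l)))) := by
      rw [← Real.rpow_def_of_pos hX0]
      apply Real.rpow_le_rpow_of_exponent_le hX1
      linarith
    calc 2 * K * X ^ (15000 * (1 + Real.log (2 * K ^ 2)))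
        ≤ Real.exp 1 * Real.exp l * Real.exp (x * (15000 * (1 + (1 + 2 * l)))) := by
          apply mul_le_mul _ h1 (by positivity) (by positivity)
          rw [← hKe]
          exact mul_le_mul_of_nonneg_right h2e hK0.le
      _ = _ := by
          rw [← Real.exp_add, ← Real.exp_add]
  have hnum := part_num hx661 hl
  have hmain := rat_struct hε hε1 A B A (2 * K) (2 * K ^ 2) (by linarith) hL2 R hA hB hE
    (by
      refine hY.trans (le_trans ?_ hKA)
      rw [hpow, Real.exp_le_exp]
      linarith)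
    (by
      intro r hr
      obtain ⟨u, hu, rfl⟩ := mem_image.1 hr
      have h1 := (mem_filter.1 hu).2
      have e : ((u⁻¹ * q' : ℚˣ) : ℚ) = (u : ℚ)⁻¹ * (q' : ℚ) := by
        rw [Units.val_mul, Units.val_inv_eq_inv_val]
      simp only [e]
      exact h1) hcon
  have hfin : (P.card : ℝ) ≤ X ^ (31000 * (1 + l)) := by
    calc (P.card : ℝ) ≤ 2 * K * P'.card := hcard
      _ = 2 * K * R.card := by rw [hRc]
      _ ≤ 2 * K * (2 * K * X ^ (15000 * (1 + Real.log (2 * K ^ 2)))) :=
          mul_le_mul_of_nonneg_left hmain (by linarith)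
      _ ≤ (Real.exp 1 * Real.exp l) * Real.exp (1 + l + x * (15000 * (1 + (1 + 2 * l)))) := by
          apply mul_le_mul _ hY (by positivity) (by positivity)
          rw [← hKe]
          exact mul_le_mul_of_nonneg_right h2e hK0.le
      _ = Real.exp (2 + 2 * l + x * (15000 * (1 + (1 + 2 * l)))) := by
          rw [← Real.exp_add, ← Real.exp_add]
          congr 1
          ring
      _ ≤ _ := by
          rw [hpow, Real.exp_le_exp]
          exact hnum
  linarith

end Pool.Agent.H85.AK
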