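import Pool.Agent.H85.AK.Hom3
import Pool.Agent.H85.AK.Str7

/-!
Families of subsets: homothetic copies, partners with translations.
-/

set_option autoImplicit false

namespace Pool.Agent.H85.AK

open Finset
open scoped Pointwise

set_option maxHeartbeats 400000

/-- homothetic copies: the translation does not matter -/
theorem hom_le {F V : Type*} [Field F] [AddCommGroup V] [Module F V] [DecidableEq V]
    {A B D : Finset V} {r : F} {s : V} (h : ∀ d ∈ D, r • d + s ∈ A) :
    (r • D + B).card ≤ (A + B).card := by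
  have h1 : r • D + B ⊆ (A + B).image fun z => z - s := by
    intro z hz
    obtain ⟨x, hx, b, hb, rfl⟩ := mem_add.1 hz
    obtain ⟨d, hd, rfl⟩ := mem_smul_finset.1 hx
    refine mem_image.2 ⟨(r • d + s) + b, add_mem_add (h d hd) hb, ?_⟩
    abel
  exact (card_le_card h1).trans card_image_le

/-- the sets of a partner -/
theorem partner_fam {F V : Type*} [Field F] [AddCommGroup V] [Module F V] [DecidableEq V]
    (A B : Finset V) (t : Fˣ → V) (u q : Fˣ) :
    ((((u⁻¹ * q : Fˣ) : F) • (A.filter fun a => (u : F)⁻¹ • ((q : F) • a + t q - t u) ∈ A)) +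
      B).card ≤ (A + B).card := by
  apply hom_le (s := (u : F)⁻¹ • (t q - t u))
  intro d hd
  have h2 := (mem_filter.1 hd).2
  have e2 : ((u⁻¹ * q : Fˣ) : F) • d + (u : F)⁻¹ • (t q - t u) =
      (u : F)⁻¹ • ((q : F) • d + t q - t u) := by
    rw [Units.val_mul, Units.val_inv_eq_inv_val, mul_smul, ← smul_add, add_sub_assoc]
  rw [e2]
  exact h2

/-- the Cauchy–Schwarz inequality: a partner gives popular ratios -/
theorem partner_pop3 {F V : Type*} [Field F] [AddCommGroup V] [Module F V]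
    [DecidableEq V] {A : Finset V} (hA : A.Nonempty) {P : Finset Fˣ} (hP : P.Nonempty)
    (t : Fˣ → V) {K : ℝ} (hK : 1 ≤ K)
    (h : ((P.biUnion fun p : Fˣ => A.image fun a => (p : F) • a + t p).card : ℝ) ≤ K * A.card) :
    ∃ q ∈ P, (P.card : ℝ) ≤ 2 * K * ((P.filter fun p : Fˣ =>
      (A.card : ℝ) ≤ 2 * K * ((A.filter fun a =>
        (p : F)⁻¹ • ((q : F) • a + t q - t p) ∈ A).card : ℝ)).card : ℝ) := by
  classical
  have hA0 : (0 : ℝ) < A.card := by exact_mod_cast card_pos.2 hA
  have hPc : (0 : ℝ) < P.card := by exact_mod_cast card_pos.2 hP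
  have hP0 : ∀ p : Fˣ, (p : F) ≠ 0 := fun p => Units.ne_zero p
  have hinj : ∀ p : Fˣ, Function.Injective fun a : V => (p : F) • a + t p := by
    intro p a b hab
    exact MulAction.injective₀ (hP0 p) (add_right_cancel hab)
  set U : Finset V := P.biUnion fun p : Fˣ => A.image fun a => (p : F) • a + t p with hU
  have hback : ∀ (p : Fˣ) (x : V), (p : F)⁻¹ • (x - t p) ∈ A ↔
      x ∈ A.image fun a => (p : F) • a + t p := by
    intro p x
    rw [mem_image]
    constructor
    · intro h1
      refine ⟨_, h1, ?_⟩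
      rw [smul_inv_smul₀ (hP0 p)]
      abel
    · rintro ⟨a, ha, rfl⟩
      rw [add_sub_cancel_right, inv_smul_smul₀ (hP0 p)]
      exact ha
  -- representations
  set ρ : V → ℕ := fun x => (P.filter fun p : Fˣ => (p : F)⁻¹ • (x - t p) ∈ A).card with hρ
  have h1 : ∑ x ∈ U, ρ x = P.card * A.card := by
    simp only [hρ, card_filter]
    rw [sum_comm]
    have h2 : ∀ p ∈ P, ∑ x ∈ U, (if (p : F)⁻¹ • (x - t p) ∈ A then 1 else 0) = A.card := by
      intro p hp
      rw [← card_filter]
      have h3 : U.filter (fun x => (p : F)⁻¹ • (x - t p) ∈ A) =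
          A.image (fun a => (p : F) • a + t p) := by
        ext x
        rw [mem_filter, hback]
        constructor
        · exact fun h4 => h4.2
        · exact fun h4 => ⟨mem_biUnion.2 ⟨p, hp, h4⟩, h4⟩
      rw [h3, card_image_of_injective _ (hinj p)]
    rw [sum_congr rfl h2, sum_const, smul_eq_mul]
  have h2 : (∑ x ∈ U, (ρ x : ℝ)) ^ 2 ≤ U.card * ∑ x ∈ U, (ρ x : ℝ) ^ 2 :=
    sq_sum_le_card_mul_sum_sq
  have h3 : (∑ x ∈ U, (ρ x : ℝ)) = P.card * A.card := by
    rw [← Nat.cast_sum, h1]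
    push_cast
    rfl
  -- the second moment
  have h4 : ∑ x ∈ U, ρ x ^ 2 = ∑ q ∈ P, ∑ p ∈ P, (A.filter fun a =>
      (p : F)⁻¹ • ((q : F) • a + t q - t p) ∈ A).card := by
    have h5 : ∀ x, ρ x ^ 2 = ∑ q ∈ P, ∑ p ∈ P,
        if (q : F)⁻¹ • (x - t q) ∈ A ∧ (p : F)⁻¹ • (x - t p) ∈ A then 1 else 0 := by
      intro x
      rw [sq]
      simp only [hρ, card_filter]
      rw [sum_mul_sum]
      apply sum_congr rfl
      intro q _
      apply sum_congr rfl
      intro p _
      by_cases h6 : (q : F)⁻¹ • (x - t q) ∈ A <;>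
        by_cases h7 : (p : F)⁻¹ • (x - t p) ∈ A <;> simp [h6, h7]
    simp only [h5]
    rw [sum_comm]
    apply sum_congr rfl
    intro q hq
    rw [sum_comm]
    apply sum_congr rfl
    intro p hp
    rw [← card_filter]
    have h8 : U.filter (fun x => (q : F)⁻¹ • (x - t q) ∈ A ∧ (p : F)⁻¹ • (x - t p) ∈ A) =
        (A.filter fun a => (p : F)⁻¹ • ((q : F) • a + t q - t p) ∈ A).image
          fun a => (q : F) • a + t q := by
      ext x
      simp only [mem_filter]
      rw [mem_image]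
      constructor
      · rintro ⟨_, h9, h10⟩
        refine ⟨(q : F)⁻¹ • (x - t q), mem_filter.2 ⟨h9, ?_⟩, ?_⟩
        · rw [smul_inv_smul₀ (hP0 q), sub_add_cancel]
          exact h10
        · rw [smul_inv_smul₀ (hP0 q), sub_add_cancel]
      · rintro ⟨a, ha', rfl⟩
        obtain ⟨ha, h9⟩ := mem_filter.1 ha'
        refine ⟨mem_biUnion.2 ⟨q, hq, mem_image_of_mem _ ha⟩, ?_, h9⟩
        rw [add_sub_cancel_right, inv_smul_smul₀ (hP0 q)]
        exact ha
    rw [h8, card_image_of_injective _ (hinj q)]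
  have h5 : (P.card : ℝ) ^ 2 * A.card ≤
      K * ∑ q ∈ P, ∑ p ∈ P, ((A.filter fun a =>
        (p : F)⁻¹ • ((q : F) • a + t q - t p) ∈ A).card : ℝ) := by
    have h6 : ∑ x ∈ U, (ρ x : ℝ) ^ 2 =
        ∑ q ∈ P, ∑ p ∈ P, ((A.filter fun a =>
          (p : F)⁻¹ • ((q : F) • a + t q - t p) ∈ A).card : ℝ) := by
      exact_mod_cast h4
    rw [h3, h6] at h2
    set W : ℝ := ∑ q ∈ P, ∑ p ∈ P, ((A.filter fun a =>
      (p : F)⁻¹ • ((q : F) • a + t q - t p) ∈ A).card : ℝ) with hW
    have hW0 : 0 ≤ W := sum_nonneg fun q _ => sum_nonneg fun p _ => Nat.cast_nonneg _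
    have h7 : (P.card * A.card : ℝ) ^ 2 ≤ (K * A.card) * W :=
      h2.trans (mul_le_mul_of_nonneg_right h hW0)
    have h8 : ((P.card : ℝ) ^ 2 * A.card) * A.card ≤ (K * W) * A.card := by
      calc ((P.card : ℝ) ^ 2 * A.card) * A.card = (P.card * A.card : ℝ) ^ 2 := by ring
        _ ≤ (K * A.card) * W := h7
        _ = (K * W) * A.card := by ring
    exact le_of_mul_le_mul_right h8 hA0
  -- a good element
  obtain ⟨q, hq, h6⟩ : ∃ q ∈ P, (P.card : ℝ) * A.card ≤
      K * ∑ p ∈ P, ((A.filter fun a =>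
        (p : F)⁻¹ • ((q : F) • a + t q - t p) ∈ A).card : ℝ) := by
    by_contra hcon
    push Not at hcon
    have h7 := sum_lt_sum_of_nonempty hP hcon
    rw [← mul_sum, sum_const, nsmul_eq_mul] at h7
    have h8 : (P.card : ℝ) ^ 2 * A.card = P.card * (P.card * A.card) := by ring
    linarith
  refine ⟨q, hq, ?_⟩
  set N : Fˣ → ℝ := fun p => ((A.filter fun a =>
    (p : F)⁻¹ • ((q : F) • a + t q - t p) ∈ A).card : ℝ) with hN
  set G := P.filter fun p => (A.card : ℝ) ≤ 2 * K * N p with hG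
  have h7 : ∑ p ∈ P, N p ≤ G.card * A.card + P.card * (A.card / (2 * K)) := by
    rw [← sum_filter_add_sum_filter_not P (fun p => (A.card : ℝ) ≤ 2 * K * N p)]
    apply add_le_add
    · rw [← nsmul_eq_mul, ← sum_const]
      exact sum_le_sum fun p _ => Nat.cast_le.2 (card_filter_le _ _)
    · refine le_trans (sum_le_card_nsmul _ _ (A.card / (2 * K)) ?_) ?_
      · intro p hp
        have h8 := (mem_filter.1 hp).2
        push Not at h8
        rw [le_div_iff₀ (by positivity)]
        linarith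
      · rw [nsmul_eq_mul]
        exact mul_le_mul_of_nonneg_right (Nat.cast_le.2 (card_filter_le _ _)) (by positivity)
  have h8 : (P.card : ℝ) * A.card ≤ K * (G.card * A.card + P.card * (A.card / (2 * K))) :=
    h6.trans (mul_le_mul_of_nonneg_left h7 (by linarith))
  have h9 : K * (G.card * A.card + P.card * (A.card / (2 * K))) =
      K * G.card * A.card + P.card * A.card / 2 := by
    have : K ≠ 0 := by positivity
    field_simp
  rw [h9] at h8
  have h10 : (P.card : ℝ) * A.card ≤ (2 * K * G.card) * A.card := by nlinarith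
  exact le_of_mul_le_mul_right h10 hA0

set_option maxHeartbeats 2000000 in
/-- **structured multiplicative partners, with translations** -/
theorem rat_partner3 {ε : ℝ} (hε : 0 < ε) (hε1 : ε ≤ 1) {V : Type} [AddCommGroup V] [Module ℚ V]
    [DecidableEq V] (A B : Finset V) (K : ℝ) (hK : 1 ≤ K) (P : Finset ℚˣ) (t : ℚˣ → V)
    (hA : 2 ≤ A.card) (hB : B.Nonempty)
    (hPA : ((P.biUnion fun p : ℚˣ => A.image fun a => (p : ℚ) • a + t p).card : ℝ) ≤ K * A.card)
    (hPP : ((P * P).card : ℝ) ≤ K * P.card)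
    (hKA : (Real.exp (704 / ε) * Real.log A.card) ^ (31000 * (1 + Real.log K)) ≤
      (A.card : ℝ) ^ (ε / 17))
    (hP : (Real.exp (704 / ε) * Real.log A.card) ^ (31000 * (1 + Real.log K)) < (P.card : ℝ)) :
    ((A.card : ℝ) * B.card) ^ (1 - ε) < ((A + B).card : ℝ) := by
  classical
  by_contra hcon
  push Not at hcon
  have hK0 : 0 < K := by linarith
  have hlog := half_le_log hA
  set X : ℝ := Real.exp (704 / ε) * Real.log A.card with hX
  have hX0 : 0 < X := by positivity
  set x : ℝ := Real.log X with hx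
  have hx661 : 661 ≤ x := by
    rw [hx, hX, Real.log_mul (Real.exp_pos _).ne' (by positivity), Real.log_exp]
    have h1 : (704 : ℝ) ≤ 704 / ε := by
      rw [le_div_iff₀ hε]
      linarith
    have h2 : Real.log (1 / 2) ≤ Real.log (Real.log (A.card : ℝ)) :=
      Real.log_le_log (by norm_num) hlog
    have h3 : Real.log (1 / 2) = - Real.log 2 := by
      rw [one_div, Real.log_inv]
    have h4 := Real.log_two_lt_d9
    linarith
  have hl : 0 ≤ Real.log K := Real.log_nonneg hK
  set l : ℝ := Real.log K with hl'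
  have hKe : K = Real.exp l := by rw [hl', Real.exp_log hK0]
  have hpow : X ^ (31000 * (1 + l)) = Real.exp (x * (31000 * (1 + l))) := by
    rw [Real.rpow_def_of_pos hX0]
  have hP0 : (0 : ℝ) < P.card := by
    refine lt_of_le_of_lt ?_ hP
    positivity
  have hPne : P.Nonempty := card_pos.1 (by exact_mod_cast hP0)
  have hAne : A.Nonempty := card_pos.1 (by omega)
  obtain ⟨q', hq', hcard⟩ := partner_pop3 hAne hPne t hK hPA
  set P' : Finset ℚˣ := P.filter fun p : ℚˣ => (A.card : ℝ) ≤ 2 * K * ((A.filter fun a =>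
      (p : ℚ)⁻¹ • ((q' : ℚ) • a + t q' - t p) ∈ A).card : ℝ) with hP'
  -- the ratios
  set R : Finset ℚˣ := P'.image fun p => p⁻¹ * q' with hR
  have hRc : R.card = P'.card := card_image_of_injective _ fun a b h => by
    have h' : a⁻¹ * q' = b⁻¹ * q' := h
    exact inv_injective (mul_right_cancel h')
  have hRR : ((R * R).card : ℝ) ≤ 2 * K ^ 2 * R.card := by
    have h1 : R * R ⊆ (P * P).image fun y => y⁻¹ * (q' * q') := by
      intro z hz
      obtain ⟨a, ha, b, hb, rfl⟩ := mem_mul.1 hz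
      obtain ⟨u, hu, rfl⟩ := mem_image.1 ha
      obtain ⟨w, hw, rfl⟩ := mem_image.1 hb
      refine mem_image.2 ⟨u * w, mul_mem_mul (mem_filter.1 hu).1 (mem_filter.1 hw).1, ?_⟩
      show (u * w)⁻¹ * (q' * q') = (u⁻¹ * q') * (w⁻¹ * q')
      rw [mul_inv]
      exact mul_mul_mul_comm _ _ _ _
    have h2 : ((R * R).card : ℝ) ≤ (P * P).card := by
      exact_mod_cast (card_le_card h1).trans card_image_le
    calc ((R * R).card : ℝ) ≤ K * P.card := h2.trans hPP
      _ ≤ K * (2 * K * P'.card) := mul_le_mul_of_nonneg_left hcard hK0.le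
      _ = 2 * K ^ 2 * R.card := by
          rw [hRc]
          ring
  have hRpos : (0 : ℝ) < R.card := by
    rw [hRc]
    by_contra h
    have h1 : (P'.card : ℝ) = 0 := le_antisymm (not_lt.1 h) (Nat.cast_nonneg _)
    rw [h1, mul_zero] at hcard
    linarith
  have hE : (R.card : ℝ) ^ 3 ≤ (2 * K ^ 2) * (R.mulEnergy R : ℕ) := by
    have h1 := le_card_mul_mul_mulEnergy R R
    have h2 : (R.card : ℝ) ^ 2 * (R.card : ℝ) ^ 2 ≤ (R * R).card * (R.mulEnergy R : ℕ) := by
      exact_mod_cast h1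
    have h3 : ((R * R).card : ℝ) * (R.mulEnergy R : ℕ) ≤
        2 * K ^ 2 * R.card * (R.mulEnergy R : ℕ) :=
      mul_le_mul_of_nonneg_right hRR (Nat.cast_nonneg _)
    have h4 : (R.card : ℝ) * (R.card : ℝ) ^ 3 ≤ R.card * ((2 * K ^ 2) * (R.mulEnergy R : ℕ)) := by
      calc (R.card : ℝ) * (R.card : ℝ) ^ 3 = (R.card : ℝ) ^ 2 * (R.card : ℝ) ^ 2 := by ring
        _ ≤ 2 * K ^ 2 * R.card * (R.mulEnergy R : ℕ) := h2.trans h3
        _ = _ := by ring
    exact le_of_mul_le_mul_left h4 hRpos
  have hL2 : (1 : ℝ) ≤ 2 * K ^ 2 := by nlinarith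
  have hlogL : Real.log (2 * K ^ 2) ≤ 1 + 2 * l := by
    rw [Real.log_mul (by norm_num) (by positivity), Real.log_pow]
    have := Real.log_two_lt_d9
    push_cast
    linarith
  have hX1 : 1 ≤ X := by
    by_contra h
    have h1 : Real.log X ≤ 0 := Real.log_nonpos hX0.le (not_le.1 h).le
    linarith
  have h2e : (2 : ℝ) ≤ Real.exp 1 := by
    have := Real.add_one_le_exp (1 : ℝ)
    linarith
  -- the bound for the number of ratios
  have hY : 2 * K * X ^ (15000 * (1 + Real.log (2 * K ^ 2))) ≤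
      Real.exp (1 + l + x * (15000 * (1 + (1 + 2 * l)))) := by
    have h1 : X ^ (15000 * (1 + Real.log (2 * K ^ 2))) ≤ Real.exp (x * (15000 * (1 + (1 + 2 * l)))) := by
      rw [← Real.rpow_def_of_pos hX0]
      apply Real.rpow_le_rpow_of_exponent_le hX1
      linarith
    calc 2 * K * X ^ (15000 * (1 + Real.log (2 * K ^ 2)))
        ≤ Real.exp 1 * Real.exp l * Real.exp (x * (15000 * (1 + (1 + 2 * l)))) := by
          apply mul_le_mul _ h1 (by positivity) (by positivity)
          rw [← hKe]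
          exact mul_le_mul_of_nonneg_right h2e hK0.le
      _ = _ := by
          rw [← Real.exp_add, ← Real.exp_add]
  have hnum := part_num hx661 hl
  have hmain := rat_struct3 hε hε1 B A (2 * K) (2 * K ^ 2) (by linarith) hL2 R
    (fun r => A.filter fun a => ((q' * r⁻¹ : ℚˣ) : ℚ)⁻¹ • ((q' : ℚ) • a + t q' - t (q' * r⁻¹)) ∈ A)
    hA hB hE
    (by
      refine hY.trans (le_trans ?_ hKA)
      rw [hpow, Real.exp_le_exp]
      linarith)
    (by
      intro r hr
      obtain ⟨u, hu, rfl⟩ := mem_image.1 hr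
      have h1 := (mem_filter.1 hu).2
      have e : q' * (u⁻¹ * q')⁻¹ = u := by
        rw [mul_inv, inv_inv, mul_comm u, mul_inv_cancel_left]
      simp only [e]
      refine ⟨filter_subset _ _, h1, ?_⟩
      exact le_trans (Nat.cast_le.2 (partner_fam A B t u q')) hcon)
  have hfin : (P.card : ℝ) ≤ X ^ (31000 * (1 + l)) := by
    calc (P.card : ℝ) ≤ 2 * K * P'.card := hcard
      _ = 2 * K * R.card := by rw [hRc]
      _ ≤ 2 * K * (2 * K * X ^ (15000 * (1 + Real.log (2 * K ^ 2)))) :=
          mul_le_mul_of_nonneg_left hmain (by linarith)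
      _ ≤ (Real.exp 1 * Real.exp l) * Real.exp (1 + l + x * (15000 * (1 + (1 + 2 * l)))) := by
          apply mul_le_mul _ hY (by positivity) (by positivity)
          rw [← hKe]
          exact mul_le_mul_of_nonneg_right h2e hK0.le
      _ = Real.exp (2 + 2 * l + x * (15000 * (1 + (1 + 2 * l)))) := by
          rw [← Real.exp_add, ← Real.exp_add]
          congr 1
          ring
      _ ≤ _ := by
          rw [hpow, Real.exp_le_exp]
          exact hnum
  linarith

end Pool.Agent.H85.AK
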