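import Pool.Agent.H85.AK.Fin2

/-!
One almost symmetry with a translation.
-/

set_option autoImplicit false

namespace Pool.Agent.H85.AK

open Finset
open scoped Pointwise

/-- a homothety with ratio `r ≠ 1` is a dilation with respect to its fixed point -/
theorem fix_point {F V : Type*} [Field F] [AddCommGroup V] [Module F V] [DecidableEq V]
    (A B : Finset V) (r : F) (hr1 : r ≠ 1) (t : V) :
    ∃ A' : Finset V, A'.card = A.card ∧ (A' + B).card = (A + B).card ∧
      (A' ∪ A'.image fun a => r • a).card = (A ∪ A.image fun a => r • a + t).card := by
  have h1 : (1 - r) ≠ 0 := sub_ne_zero.2 (Ne.symm hr1)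
  set x : V := (1 - r)⁻¹ • t with hx
  have hx1 : r • x + t = x := by
    have h2 : (1 - r) • x = t := smul_inv_smul₀ h1 t
    rw [sub_smul, one_smul] at h2
    rw [← h2]
    abel
  have hinj : Function.Injective fun a : V => a - x := fun a b h => sub_left_injective h
  refine ⟨A.image fun a => a - x, card_image_of_injective _ hinj, ?_, ?_⟩
  · have h2 : (A.image fun a => a - x) + B = (A + B).image fun a => a - x := by
      ext z
      constructor
      · intro hz
        obtain ⟨y, hy, b, hb, rfl⟩ := mem_add.1 hz
        obtain ⟨a, ha, rfl⟩ := mem_image.1 hy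
        exact mem_image.2 ⟨a + b, add_mem_add ha hb, by abel⟩
      · intro hz
        obtain ⟨y, hy, rfl⟩ := mem_image.1 hz
        obtain ⟨a, ha, b, hb, rfl⟩ := mem_add.1 hy
        exact mem_add.2 ⟨a - x, mem_image_of_mem _ ha, b, hb, by abel⟩
    rw [h2, card_image_of_injective _ hinj]
  · have h2 : ((A.image fun a => a - x) ∪ (A.image fun a => a - x).image fun a => r • a) =
        (A ∪ A.image fun a => r • a + t).image fun a => a - x := by
      rw [image_union, image_image, image_image]
      congr 1
      apply image_congr
      intro a _
      show r • (a - x) = r • a + t - x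
      rw [smul_sub]
      have h3 : r • x = x - t := eq_sub_of_add_eq hx1
      rw [h3]
      abel
    rw [h2, card_image_of_injective _ hinj]

end Pool.Agent.H85.AK
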