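import Pool.Agent.H85.AK.Stmt4
import Pool.Agent.H155.AKGroup

/-!
Sharpness of the bound for exceptional slopes in a group.
-/

set_option autoImplicit false

namespace Pool.Agent.H85.AK

open Finset

open Group155 in
/-- **S_kgroup.** -/
theorem s_kgroup' (h1 : Stmt4.S_kbox) (h2 : Stmt2.S_split) : Stmt4.S_kgroup := by
  classical
  intro Γ hFG halg hρ ε hε
  have hfg : Group.FG Γ := (Group.fg_iff_subgroup_fg Γ).2 hFG
  obtain ⟨M, iM1, iM2, iM3, g, -, hrank, g0, ga, ginj, -⟩ := h2 Γ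
  rw [← hrank] at hρ ⊢
  set ρ : ℕ := Module.finrank ℤ M with hρdef
  let b : Module.Basis (Fin ρ) ℤ M := Module.finBasis ℤ M
  let y : Fin ρ → Γ := fun i => g (b i)
  let x : Fin ρ → ℂ := fun i => ((y i : ℂˣ) : ℂ)
  let i0 : Fin ρ := ⟨0, hρ⟩
  have hx0 : ∀ i, x i ≠ 0 := fun i => Units.ne_zero _
  have hinf : ∀ n : ℕ, 0 < n → x i0 ^ n ≠ 1 := by
    intro n hn h
    have e1 : (y i0) ^ n = 1 := by
      apply Subtype.ext
      apply Units.ext
      rw [Subgroup.coe_pow, Units.val_pow_eq_pow_val]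
      exact h
    have e2 : ∏ i, g (b i) ^ (Pi.single i0 n : Fin ρ → ℕ) i = ∏ i, g (b i) ^ (0 : Fin ρ → ℕ) i := by
      have e3 : ∏ i, g (b i) ^ (0 : Fin ρ → ℕ) i = 1 := by
        simp
      rw [e3, prod_eq_single i0]
      · rw [Pi.single_eq_same]
        exact e1
      · intro i _ hi
        rw [Pi.single_eq_of_ne hi, pow_zero]
      · intro hh
        exact absurd (mem_univ _) hh
    have e4 := congrFun (prod_inj g0 ga ginj b _ _ e2) i0
    rw [Pi.single_eq_same, Pi.zero_apply] at e4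
    omega
  obtain ⟨c₀, hc₀, hbox⟩ := h1 ρ x hx0 (fun i => halg _ (y i).2) ⟨i0, hinf⟩ ε hε
  refine ⟨c₀ ^ ρ, by positivity, fun N => ?_⟩
  obtain ⟨E, hE1, hE2⟩ := hbox N
  set X : ℝ := c₀ * Real.log E.card with hX
  have hlog : 0 ≤ Real.log (E.card : ℝ) := Real.log_natCast_nonneg _
  have hX0 : 0 ≤ X := by positivity
  set L : ℕ := ⌊X⌋₊ with hL
  have hLle : (L : ℝ) ≤ X := Nat.floor_le (by positivity)
  have hLlt : X < (L : ℝ) + 1 := Nat.lt_floor_add_one _
  let rr : (Fin ρ → Fin (L + 1)) → Γ := fun p => ∏ i, y i ^ (p i : ℕ)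
  let R : Finset ℂˣ := (univ : Finset (Fin ρ → Fin (L + 1))).image fun p => (rr p : ℂˣ)
  refine ⟨E, R, hE1, ?_, ?_⟩
  · intro r hr
    obtain ⟨a, -, rfl⟩ := mem_image.1 hr
    refine ⟨(rr a).2, ?_⟩
    have hrv : ((rr a : ℂˣ) : ℂ) = ∏ i, x i ^ (a i : ℕ) := by
      show (((∏ i, y i ^ (a i : ℕ) : Γ) : ℂˣ) : ℂ) = _
      rw [Subgroup.val_finset_prod, Units.coe_prod]
      refine prod_congr rfl fun i _ => ?_
      rw [Subgroup.coe_pow, Units.val_pow_eq_pow_val]
    rw [hrv]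
    refine hE2 (fun i => (a i : ℕ)) fun i => ?_
    refine le_trans ?_ hLle
    have h3 : (a i : ℕ) ≤ L := by
      have := (a i).2
      omega
    exact_mod_cast h3
  · have hRcard : R.card = (L + 1) ^ ρ := by
      have e1 : R.card = (univ : Finset (Fin ρ → Fin (L + 1))).card := by
        refine card_image_of_injective _ ?_
        intro a a' hh
        have e2 : rr a = rr a' := Subtype.ext hh
        have e3 := prod_inj g0 ga ginj b _ _ e2
        funext i
        exact Fin.ext (congrFun e3 i)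
      rw [e1, card_univ, Fintype.card_fun, Fintype.card_fin, Fintype.card_fin]
    rw [hRcard]
    push_cast
    have e1 : c₀ ^ ρ * Real.log E.card ^ ρ = X ^ ρ := by
      rw [hX, mul_pow]
    rw [e1]
    exact pow_le_pow_left₀ hX0 hLlt.le ρ

end Pool.Agent.H85.AK
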