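import Pool.Agent.H85.AK.Slp3

/-!
Lacunary sets of scales: pairs of integers at lacunary distances, and the entropy of one digit.
-/

set_option autoImplicit false

namespace Pool.Agent.H85.AK

open Finset
open scoped Classical

/-- one grid: pairs at a distance `i` which are separated between two levels -/
theorem pairs_grid (S T : Finset ℤ) (i u : ℤ) (g : Bool × Bool)
    (hsep : ∀ s : ℤ, cell g u ((s : ℤ) : ℂ) ≠ cell g u (((s - i : ℤ) : ℤ) : ℂ)) :
    ((T.filter fun s => s - i ∈ S ∧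
      cell g (u + 5) ((s : ℤ) : ℂ) = cell g (u + 5) (((s - i : ℤ) : ℤ) : ℂ)).card : ℝ) ≤
      2 * wc (RingHom.id ℂ) ((S ∪ T).image fun s : ℤ => (s : ℂ)) g u := by
  set X : Finset ℂ := (S ∪ T).image fun s : ℤ => (s : ℂ) with hX
  set A := T.filter fun s => s - i ∈ S ∧
      cell g (u + 5) ((s : ℤ) : ℂ) = cell g (u + 5) (((s - i : ℤ) : ℤ) : ℂ) with hA
  rcases A.eq_empty_or_nonempty with h0 | ⟨s0, hs0⟩
  · rw [h0, card_empty]
    have := wc_nonneg (RingHom.id ℂ) X g u
    push_cast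
    linarith
  have hXne : X.Nonempty := ⟨(s0 : ℂ), mem_image.2 ⟨s0, mem_union_right _ (mem_filter.1 hs0).1, rfl⟩⟩
  obtain ⟨w, hw⟩ := exists_out hXne (fun x : ℂ => cell g (u + 5) ((RingHom.id ℂ) x))
    (fun x : ℂ => cell g u ((RingHom.id ℂ) x))
  set O := X.filter fun x => cell g u ((RingHom.id ℂ) x) ≠ w (cell g (u + 5) ((RingHom.id ℂ) x))
    with hO
  have hsub : A ⊆ (A.filter fun s : ℤ => (s : ℂ) ∈ O) ∪
      (A.filter fun s : ℤ => ((s - i : ℤ) : ℂ) ∈ O) := by
    intro s hs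
    obtain ⟨h1, h2, h3⟩ := mem_filter.1 hs
    by_cases c1 : (s : ℂ) ∈ O
    · exact mem_union_left _ (mem_filter.2 ⟨hs, c1⟩)
    by_cases c2 : ((s - i : ℤ) : ℂ) ∈ O
    · exact mem_union_right _ (mem_filter.2 ⟨hs, c2⟩)
    exfalso
    have m1 : ((s : ℤ) : ℂ) ∈ X := mem_image.2 ⟨s, mem_union_right _ h1, rfl⟩
    have m2 : ((s - i : ℤ) : ℂ) ∈ X := mem_image.2 ⟨s - i, mem_union_left _ h2, rfl⟩
    have d1 : cell g u ((s : ℤ) : ℂ) = w (cell g (u + 5) ((s : ℤ) : ℂ)) := by
      by_contra hne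
      exact c1 (mem_filter.2 ⟨m1, hne⟩)
    have d2 : cell g u ((s - i : ℤ) : ℂ) = w (cell g (u + 5) ((s - i : ℤ) : ℂ)) := by
      by_contra hne
      exact c2 (mem_filter.2 ⟨m2, hne⟩)
    apply hsep s
    rw [d1, d2, h3]
  have hinj : Function.Injective fun s : ℤ => (s : ℂ) := Int.cast_injective
  have c1 : (A.filter fun s : ℤ => (s : ℂ) ∈ O).card ≤ O.card := by
    apply card_le_card_of_injOn (fun s : ℤ => (s : ℂ))
    · intro s hs
      exact (mem_filter.1 hs).2
    · intro s _ s' _ h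
      exact hinj h
  have c2 : (A.filter fun s : ℤ => ((s - i : ℤ) : ℂ) ∈ O).card ≤ O.card := by
    apply card_le_card_of_injOn (fun s : ℤ => ((s - i : ℤ) : ℂ))
    · intro s hs
      exact (mem_filter.1 hs).2
    · intro s _ s' _ h
      have := hinj h
      omega
  have c3 : A.card ≤ 2 * O.card := by
    have := (card_le_card hsub).trans (card_union_le _ _)
    omega
  have c4 : (A.card : ℝ) ≤ 2 * (O.card : ℝ) := by exact_mod_cast c3
  have hw' : (O.card : ℝ) ≤ wc (RingHom.id ℂ) X g u :=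
    le_trans (le_of_eq (card_filter_any _ _)) hw
  linarith

/-- **pairs at lacunary distances** -/
theorem lac_pairs (S T : Finset ℤ) (J : Finset ℤ) (h0 : ∀ i ∈ J, i ≠ 0)
    (hinj : Set.InjOn (fun i : ℤ => Int.log 3 |(i : ℝ)|) (J : Set ℤ)) :
    ∑ i ∈ J, ((T.filter fun s => s - i ∈ S).card : ℝ) ≤
      40 * ((S ∪ T).card * Real.log ((S ∪ T).card : ℝ)) := by
  set X : Finset ℂ := (S ∪ T).image fun s : ℤ => (s : ℂ) with hX
  have hXc : X.card = (S ∪ T).card := card_image_of_injective _ Int.cast_injective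
  set u : ℤ → ℤ := fun i => Int.log 3 |(i : ℝ)| - 1 with hu
  have hbd : ∀ i ∈ J, (3 : ℝ) ^ (u i + 1) ≤ |(i : ℝ)| ∧ |(i : ℝ)| < 3 ^ (u i + 2) := by
    intro i hi
    have hpos : 0 < |(i : ℝ)| := abs_pos.2 (by exact_mod_cast h0 i hi)
    have l1 := Int.zpow_log_le_self (b := 3) (by norm_num) hpos
    have l2 := Int.lt_zpow_succ_log_self (b := 3) (by norm_num) |(i : ℝ)|
    have e1 : u i + 1 = Int.log 3 |(i : ℝ)| := by simp only [hu]; ring
    have e2 : u i + 2 = Int.log 3 |(i : ℝ)| + 1 := by simp only [hu]; ring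
    rw [e1, e2]
    exact ⟨by exact_mod_cast l1, by exact_mod_cast l2⟩
  have hdist : ∀ s i : ℤ, ‖((s : ℤ) : ℂ) - ((s - i : ℤ) : ℂ)‖ = |(i : ℝ)| := by
    intro s i
    have : ((s : ℤ) : ℂ) - ((s - i : ℤ) : ℂ) = ((i : ℤ) : ℂ) := by push_cast; ring
    rw [this, Complex.norm_intCast]
  have one : ∀ i ∈ J, ((T.filter fun s => s - i ∈ S).card : ℝ) ≤
      ∑ g : Bool × Bool, 2 * wc (RingHom.id ℂ) X g (u i) := by
    intro i hi
    obtain ⟨b1, b2⟩ := hbd i hi
    have hsub : (T.filter fun s => s - i ∈ S) ⊆ (univ : Finset (Bool × Bool)).biUnion fun g =>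
        T.filter fun s => s - i ∈ S ∧
          cell g (u i + 5) ((s : ℤ) : ℂ) = cell g (u i + 5) (((s - i : ℤ) : ℤ) : ℂ) := by
      intro s hs
      obtain ⟨h1, h2⟩ := mem_filter.1 hs
      obtain ⟨g, hg⟩ := cell_cover (u i + 5) ((s : ℤ) : ℂ)
      refine mem_biUnion.2 ⟨g, mem_univ _, mem_filter.2 ⟨h1, h2, ?_⟩⟩
      symm
      apply hg
      rw [hdist]
      have e : (3 : ℝ) ^ (u i + 5) = 27 * 3 ^ (u i + 2) := by
        have : u i + 5 = (u i + 2) + 3 := by ring
        rw [this, zpow_add₀ (by norm_num)]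
        norm_num
        ring
      rw [e]
      have : (0 : ℝ) < 3 ^ (u i + 2) := zpow_pos (by norm_num) _
      linarith
    have hc := (card_le_card hsub).trans card_biUnion_le
    have hc' : ((T.filter fun s => s - i ∈ S).card : ℝ) ≤ ∑ g : Bool × Bool,
        ((T.filter fun s => s - i ∈ S ∧
          cell g (u i + 5) ((s : ℤ) : ℂ) = cell g (u i + 5) (((s - i : ℤ) : ℤ) : ℂ)).card : ℝ) := by
      exact_mod_cast hc
    refine hc'.trans (sum_le_sum fun g _ => pairs_grid S T i (u i) g ?_)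
    intro s h
    have h1 := cell_diam h
    rw [hdist] at h1
    have e : (3 : ℝ) ^ (u i + 1) = 3 * 3 ^ (u i) := by
      rw [zpow_add₀ (by norm_num), zpow_one]
      ring
    rw [e] at b1
    have : (0 : ℝ) < 3 ^ (u i) := zpow_pos (by norm_num) _
    linarith
  refine (sum_le_sum one).trans ?_
  rw [sum_comm]
  have key : ∀ g ∈ (univ : Finset (Bool × Bool)), ∑ i ∈ J, 2 * wc (RingHom.id ℂ) X g (u i) ≤
      10 * (X.card * Real.log (X.card : ℝ)) := by
    intro g _
    rw [← mul_sum]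
    have h1 := wc_sum (RingHom.id ℂ) X g J u (by
      intro a ha b hb h
      apply hinj ha hb
      simp only [hu] at h
      have : Int.log 3 |(a : ℝ)| = Int.log 3 |(b : ℝ)| := by linarith
      exact this)
    linarith
  refine (sum_le_sum key).trans (le_of_eq ?_)
  rw [sum_const, nsmul_eq_mul, hXc]
  have e4 : ((univ : Finset (Bool × Bool)).card : ℝ) = 4 := by
    norm_num [Finset.card_univ]
  rw [e4]
  ring

theorem fl_digits {b : Bool} {u : ℤ} : ∃ c : ℤ, ∀ x : ℝ,
    fl b u x ∈ Finset.Ico (243 * fl b (u + 5) x + c) (243 * fl b (u + 5) x + c + 243) := by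
  obtain ⟨c, hc⟩ : ∃ c : ℤ, (c : ℝ) = 242 * hf b := by
    cases b
    · exact ⟨0, by simp [hf]⟩
    · exact ⟨121, by norm_num [hf]⟩
  refine ⟨c, fun x => ?_⟩
  have h3 : (3 : ℝ) ^ u ≠ 0 := (zpow_pos (by norm_num) u).ne'
  have e : x / 3 ^ u - hf b = 243 * (x / 3 ^ (u + 5) - hf b) + c := by
    rw [hc, zpow_add₀ (by norm_num)]
    have : (3 : ℝ) ^ (5 : ℤ) = 243 := by norm_num
    rw [this]
    field_simp
    ring
  unfold fl
  set n : ℤ := ⌊x / 3 ^ (u + 5) - hf b⌋ with hn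
  have h1 : (n : ℝ) ≤ x / 3 ^ (u + 5) - hf b := Int.floor_le _
  have h2 : x / 3 ^ (u + 5) - hf b < n + 1 := Int.lt_floor_add_one _
  rw [mem_Ico, Int.le_floor, Int.floor_lt, e]
  push_cast
  constructor <;> linarith

/-- the entropy of one digit -/
theorem hc_le_card {F : Type*} [Field F] (σ : F →+* ℂ) (X : Finset F) (g : Bool × Bool) (u : ℤ) :
    hc σ X g u ≤ 11 * X.card := by
  have hS : hc σ X g u = S X (fun x => cell g (u + 5) (σ x)) (fun Ω => hh Ω (fun x => cell g u (σ x))) :=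
    (S_hs (ref_cell σ X g u)).symm
  have hlog : Real.log ((59049 : ℕ) : ℝ) ≤ 11 := by
    rw [Real.log_le_iff_le_exp (by norm_num)]
    have h1 := Real.exp_one_gt_d9
    have h2 : Real.exp 11 = Real.exp 1 ^ 11 := by
      rw [← Real.exp_nat_mul]
      norm_num
    rw [h2]
    have h3 : (2.718 : ℝ) ^ 11 ≤ Real.exp 1 ^ 11 := pow_le_pow_left₀ (by norm_num) (by linarith) 11
    refine le_trans ?_ h3
    norm_num
  have h1 : S X (fun x => cell g (u + 5) (σ x)) (fun Ω => hh Ω (fun x => cell g u (σ x))) ≤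
      S X (fun x => cell g (u + 5) (σ x)) (fun Ω => ∑ _a ∈ Ω, (11 : ℝ)) := by
    apply S_mono
    intro a ha
    rw [sum_const, nsmul_eq_mul]
    have h2 := hh_le_card (Ω := cl X (fun x => cell g (u + 5) (σ x)) a)
      (f := fun x => cell g u (σ x)) (m := 59049) (by norm_num) ?_
    · refine h2.trans (mul_le_mul_of_nonneg_left hlog (Nat.cast_nonneg _))
    · obtain ⟨c1, hc1⟩ := fl_digits (b := g.1) (u := u)
      obtain ⟨c2, hc2⟩ := fl_digits (b := g.2) (u := u)
      have hsub : (cl X (fun x => cell g (u + 5) (σ x)) a).image (fun x => cell g u (σ x)) ⊆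
          (Finset.Ico (243 * fl g.1 (u + 5) (σ a).re + c1) (243 * fl g.1 (u + 5) (σ a).re + c1 + 243)) ×ˢ
          (Finset.Ico (243 * fl g.2 (u + 5) (σ a).im + c2) (243 * fl g.2 (u + 5) (σ a).im + c2 + 243)) := by
        intro y hy
        obtain ⟨x, hx, rfl⟩ := mem_image.1 hy
        have h3 := (mem_cl.1 hx).2
        unfold cell at h3
        rw [Prod.mk.injEq] at h3
        refine mem_product.2 ⟨?_, ?_⟩
        · rw [← h3.1]
          exact hc1 _
        · rw [← h3.2]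
          exact hc2 _
      refine le_trans (le_of_eq (congrArg Finset.card ?_)) ((card_le_card hsub).trans ?_)
      · ext y
        simp only [mem_image]
      rw [card_product, Int.card_Ico, Int.card_Ico]
      have e1 : ∀ z : ℤ, (z + 243 - z).toNat = 243 := fun z => by
        have : z + 243 - z = 243 := by ring
        rw [this]
        rfl
      rw [e1, e1]
  have h2 : S X (fun x => cell g (u + 5) (σ x)) (fun Ω => ∑ _a ∈ Ω, (11 : ℝ)) = ∑ _a ∈ X, (11 : ℝ) :=
    S_eq (ψ := fun _ => (11 : ℝ)) fun a _ => rfl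
  rw [hS]
  refine h1.trans (le_of_eq ?_)
  rw [h2, sum_const, nsmul_eq_mul]
  ring

end Pool.Agent.H85.AK
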