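import Pool.Agent.H85.AK.Lac1

/-!
Lacunary sets of scales: the sum over the scales.
-/

set_option autoImplicit false

namespace Pool.Agent.H85.AK

open Finset
open scoped Classical

section

variable {F : Type*} [Field F] {ζ : Type*}

/-- one scalar: small digits are cheap, the others are counted -/
theorem lac_one {δ : ℝ} (hδ : 0 < δ) (hδ1 : δ ≤ 1) {κ K : ℝ} (hκ : 0 < κ) (hK : 1 ≤ K)
    (σ : F →+* ℂ) (X Y Z : Finset F) (hZ : Z ⊆ X) (hXZ : (X.card : ℝ) ≤ K * Z.card)
    (hZ0 : Z.Nonempty) (i : ℤ) (L : F × F → ζ) (hL : ArcLab σ (Z ×ˢ Y) i L) (T : ℕ)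
    (hT : ∀ a ∈ Z ×ˢ Y, ∀ b ∈ Z ×ˢ Y, a.2 ≠ b.2 →
      (3 : ℝ) ^ (-(T : ℤ)) ≤ ‖σ (b.2 - a.2)‖ ∧ ‖σ (b.2 - a.2)‖ < 3 ^ (T : ℤ)) :
    ∑ a ∈ Z ×ˢ Y, Real.log (ct (Z ×ˢ Y) L a) ≤
      Z.card * Y.card * ((80 * δ + 160 * (2 + Real.exp (1 / δ)) * κ) *
        (Real.log (X.card : ℝ) + Real.log (Y.card : ℝ)) +
       22 * (2 + Real.exp (1 / δ)) * ∑ g : (Bool × Bool) × (Bool × Bool),
         (((range (2 * T)).filter fun n : ℕ => κ * Y.card < hc σ Y g.2 (-(T : ℤ) - 2 + n) ∧
           κ / K * X.card < hc σ X g.1 (-(T : ℤ) - 2 + n - i)).card : ℝ)) := by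
  set C : ℝ := 2 + Real.exp (1 / δ) with hC
  have hC0 : 0 ≤ C := by positivity
  have hK0 : 0 < K := by linarith
  set sn : ℕ → ℤ := fun n => -(T : ℤ) - 2 + n with hsn
  have hsn_inj : Function.Injective sn := by
    intro x y h
    simp only [hsn] at h
    omega
  have hz0 : (0 : ℝ) < Z.card := by exact_mod_cast card_pos.2 hZ0
  have hy0 : (0 : ℝ) ≤ Y.card := Nat.cast_nonneg _
  have hlZ : Real.log (Z.card : ℝ) ≤ Real.log (X.card : ℝ) :=
    Real.log_le_log hz0 (by exact_mod_cast card_le_card hZ)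
  have h3 := sum_le_sum fun a (ha : a ∈ Z ×ˢ Y) => arc_fibreL σ hL hT ha
  refine h3.trans ?_
  rw [sum_comm]
  have h4 : ∀ n ∈ range (2 * T), ∑ a ∈ Z ×ˢ Y, ∑ g : (Bool × Bool) × (Bool × Bool),
      (Real.log (cbL σ (Z ×ˢ Y) L i (-(T : ℤ) - 2 + n) g a) -
        Real.log (nbL σ (Z ×ˢ Y) L i (-(T : ℤ) - 2 + n) g a)) ≤
      ∑ g : (Bool × Bool) × (Bool × Bool),
        (δ * (Y.card * hc σ Z g.1 (sn n - i) + Z.card * hc σ Y g.2 (sn n)) +
      C * (wc σ Y g.2 (sn n) * hc σ Z g.1 (sn n - i) +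
        wc σ Z g.1 (sn n - i) * hc σ Y g.2 (sn n))) := by
    intro n _
    rw [sum_comm]
    apply sum_le_sum
    intro g _
    exact arc_cellL hδ hδ1 σ Z Y L i (sn n) g
  refine (sum_le_sum h4).trans ?_
  rw [sum_comm]
  have key : ∀ g ∈ (univ : Finset ((Bool × Bool) × (Bool × Bool))),
      ∑ n ∈ range (2 * T), (δ * (Y.card * hc σ Z g.1 (sn n - i) + Z.card * hc σ Y g.2 (sn n)) +
        C * (wc σ Y g.2 (sn n) * hc σ Z g.1 (sn n - i) +
        wc σ Z g.1 (sn n - i) * hc σ Y g.2 (sn n))) ≤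
      Z.card * Y.card * ((5 * δ + 10 * C * κ) *
        (Real.log (X.card : ℝ) + Real.log (Y.card : ℝ)) + 22 * C *
         (((range (2 * T)).filter fun n : ℕ => κ * Y.card < hc σ Y g.2 (sn n) ∧
           κ / K * X.card < hc σ X g.1 (sn n - i)).card : ℝ)) := by
    intro g _
    set G : ℕ → Prop := fun n : ℕ => κ * Y.card < hc σ Y g.2 (sn n) ∧
           κ / K * X.card < hc σ X g.1 (sn n - i) with hG
    have node : ∀ n ∈ range (2 * T), wc σ Y g.2 (sn n) * hc σ Z g.1 (sn n - i) +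
        wc σ Z g.1 (sn n - i) * hc σ Y g.2 (sn n) ≤
        2 * κ * (Y.card * hc σ Z g.1 (sn n - i) + Z.card * hc σ Y g.2 (sn n)) +
        22 * (Z.card * Y.card) * (if G n then 1 else 0) := by
      intro n _
      set wy := wc σ Y g.2 (sn n)
      set hy := hc σ Y g.2 (sn n)
      set wz := wc σ Z g.1 (sn n - i)
      set hz := hc σ Z g.1 (sn n - i)
      have a1 : 0 ≤ wy := wc_nonneg _ _ _ _
      have a2 : 0 ≤ hy := hc_nonneg _ _ _ _
      have a3 : 0 ≤ wz := wc_nonneg _ _ _ _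
      have a4 : 0 ≤ hz := hc_nonneg _ _ _ _
      have a5 : wy ≤ hy := wc_le _ _ _ _
      have a6 : wz ≤ hz := wc_le _ _ _ _
      have a7 : wy ≤ Y.card := ws_le_card _ _ _
      have a8 : wz ≤ Z.card := ws_le_card _ _ _
      have a9 : hy ≤ 11 * Y.card := hc_le_card _ _ _ _
      have a10 : hz ≤ 11 * Z.card := hc_le_card _ _ _ _
      have a11 : hz ≤ hc σ X g.1 (sn n - i) := hs_mono hZ (ref_cell σ X g.1 _)
      by_cases hGn : G n
      · rw [if_pos hGn]
        have b1 : wy * hz ≤ Y.card * (11 * Z.card) := mul_le_mul a7 a10 a4 hy0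
        have b2 : wz * hy ≤ Z.card * (11 * Y.card) := mul_le_mul a8 a9 a2 hz0.le
        have b3 : 0 ≤ 2 * κ * (Y.card * hz + Z.card * hy) := by positivity
        linarith
      · rw [if_neg hGn]
        rw [mul_zero, add_zero]
        by_cases c1 : κ * Y.card < hy
        · have c2 : ¬ κ / K * X.card < hc σ X g.1 (sn n - i) := fun h => hGn ⟨c1, h⟩
          have c3 : hz ≤ κ * Z.card := by
            refine (a11.trans (not_lt.1 c2)).trans ?_
            have : κ / K * X.card ≤ κ / K * (K * Z.card) :=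
              mul_le_mul_of_nonneg_left hXZ (by positivity)
            refine this.trans (le_of_eq ?_)
            field_simp
          have b1 : wy * hz ≤ hy * (κ * Z.card) := mul_le_mul a5 c3 a4 a2
          have b2 : wz * hy ≤ κ * Z.card * hy := mul_le_mul_of_nonneg_right (a6.trans c3) a2
          have b3 : 0 ≤ 2 * κ * (Y.card * hz) := by positivity
          nlinarith
        · have c3 := not_lt.1 c1
          have b1 : wy * hz ≤ κ * Y.card * hz := mul_le_mul_of_nonneg_right (a5.trans c3) a4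
          have b2 : wz * hy ≤ hz * (κ * Y.card) := mul_le_mul a6 c3 a2 a4
          have b3 : 0 ≤ 2 * κ * (Z.card * hy) := by positivity
          nlinarith
    have t1 : ∑ n ∈ range (2 * T), (Y.card * hc σ Z g.1 (sn n - i) +
        Z.card * hc σ Y g.2 (sn n)) ≤
        5 * (Z.card * Y.card * (Real.log (X.card : ℝ) + Real.log (Y.card : ℝ))) := by
      rw [sum_add_distrib, ← mul_sum, ← mul_sum]
      have b1 : ∑ n ∈ range (2 * T), hc σ Z g.1 (sn n - i) ≤
          5 * (Z.card * Real.log (X.card : ℝ)) := by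
        refine (hc_sum σ Z g.1 (range (2 * T)) (fun n => sn n - i) ?_).trans ?_
        · intro x _ y _ h
          exact hsn_inj (by simpa using h)
        · apply mul_le_mul_of_nonneg_left _ (by norm_num)
          exact mul_le_mul_of_nonneg_left hlZ hz0.le
      have b2 : ∑ n ∈ range (2 * T), hc σ Y g.2 (sn n) ≤ 5 * (Y.card * Real.log (Y.card : ℝ)) :=
        hc_sum σ Y g.2 (range (2 * T)) sn hsn_inj.injOn
      have c1 := mul_le_mul_of_nonneg_left b1 hy0
      have c2 := mul_le_mul_of_nonneg_left b2 hz0.le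
      refine (add_le_add c1 c2).trans (le_of_eq ?_)
      ring
    have e : ∑ n ∈ range (2 * T),
        (δ * (Y.card * hc σ Z g.1 (sn n - i) + Z.card * hc σ Y g.2 (sn n)) +
        C * (wc σ Y g.2 (sn n) * hc σ Z g.1 (sn n - i) +
        wc σ Z g.1 (sn n - i) * hc σ Y g.2 (sn n))) =
        δ * ∑ n ∈ range (2 * T), (Y.card * hc σ Z g.1 (sn n - i) + Z.card * hc σ Y g.2 (sn n)) +
        C * ∑ n ∈ range (2 * T), (wc σ Y g.2 (sn n) * hc σ Z g.1 (sn n - i) +
        wc σ Z g.1 (sn n - i) * hc σ Y g.2 (sn n)) := by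
      rw [sum_add_distrib, mul_sum, mul_sum]
    rw [e]
    have h5 : ∑ n ∈ range (2 * T), (wc σ Y g.2 (sn n) * hc σ Z g.1 (sn n - i) +
        wc σ Z g.1 (sn n - i) * hc σ Y g.2 (sn n)) ≤
        2 * κ * ∑ n ∈ range (2 * T), (Y.card * hc σ Z g.1 (sn n - i) + Z.card * hc σ Y g.2 (sn n)) +
        22 * (Z.card * Y.card) * ∑ n ∈ range (2 * T), (if G n then (1 : ℝ) else 0) := by
      refine (sum_le_sum node).trans (le_of_eq ?_)
      rw [sum_add_distrib, mul_sum, mul_sum]
    have h6 : ∑ n ∈ range (2 * T), (if G n then (1 : ℝ) else 0) =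
        (((range (2 * T)).filter fun n : ℕ => G n).card : ℝ) := by
      rw [card_filter]
      push_cast
      rfl
    rw [h6] at h5
    have h7 := mul_le_mul_of_nonneg_left h5 hC0
    have h8 := mul_le_mul_of_nonneg_left t1 hδ.le
    have h9 := mul_le_mul_of_nonneg_left t1 (show 0 ≤ C * (2 * κ) by positivity)
    have h10 : (((range (2 * T)).filter fun n : ℕ => G n).card : ℝ) =
        (((range (2 * T)).filter fun n : ℕ => κ * Y.card < hc σ Y g.2 (sn n) ∧
           κ / K * X.card < hc σ X g.1 (sn n - i)).card : ℝ) := card_filter_any _ _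
    rw [← h10]
    linarith
  have e16 : ((univ : Finset ((Bool × Bool) × (Bool × Bool))).card : ℝ) = 16 := by
    norm_num [Finset.card_univ]
  refine (sum_le_sum key).trans (le_of_eq ?_)
  have e1 : ∀ (a c d : ℝ) (f : (Bool × Bool) × (Bool × Bool) → ℝ),
      ∑ g : (Bool × Bool) × (Bool × Bool), a * (c + d * f g) =
      a * (16 * c + d * ∑ g : (Bool × Bool) × (Bool × Bool), f g) := by
    intro a c d f
    rw [← mul_sum, sum_add_distrib, sum_const, nsmul_eq_mul, e16, ← mul_sum]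
  rw [e1]
  congr 1
  congr 1
  ring

end

end Pool.Agent.H85.AK
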