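import Pool.Agent.H85.AK.Lac2

/-!
Lacunary sets of scales: the number of scales.
-/

set_option autoImplicit false

namespace Pool.Agent.H85.AK

open Finset
open scoped Classical

theorem nlogn_le {n : ℕ} {M : ℝ} (hM : 1 ≤ M) (h : (n : ℝ) ≤ M) :
    n * Real.log (n : ℝ) ≤ M * Real.log M := by
  rcases Nat.eq_zero_or_pos n with h0 | h0
  · subst h0
    have := Real.log_nonneg hM
    simp only [Nat.cast_zero, zero_mul]
    positivity
  · have h1 : (1 : ℝ) ≤ n := by exact_mod_cast h0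
    exact mul_le_mul h (Real.log_le_log (by linarith) h) (Real.log_nonneg h1) (by linarith)

/-- a set of levels with large values is small -/
theorem few_large {f : ℤ → ℝ} {c M : ℝ} (hc : 0 < c) (W : Finset ℤ)
    (hM : ∀ I : Finset ℤ, ∑ s ∈ I, f s ≤ M) :
    (((W.filter fun s => c < f s).card : ℕ) : ℝ) ≤ M / c := by
  rw [le_div_iff₀ hc]
  refine le_trans ?_ (hM (W.filter fun s => c < f s))
  rw [← nsmul_eq_mul, ← sum_const]
  exact sum_le_sum fun s hs => (mem_filter.1 hs).2.le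

section

variable {F : Type*} [Field F] {ζ : Type*}

theorem lac_count {δ : ℝ} (hδ : 0 < δ) (hδ1 : δ ≤ 1) {κ K β : ℝ} (hκ : 0 < κ) (hκ1 : κ ≤ 1)
    (hK : 1 ≤ K) (σ : F →+* ℂ) (X Y : Finset F) (hX : 2 ≤ X.card) (hY : Y.Nonempty)
    (J : Finset ℤ) (h0 : ∀ i ∈ J, i ≠ 0)
    (hinj : Set.InjOn (fun i : ℤ => Int.log 3 |(i : ℝ)|) (J : Set ℤ))
    (L : ℤ → F × F → ζ) (Z : ℤ → Finset F) (hZ : ∀ i ∈ J, Z i ⊆ X)
    (hXZ : ∀ i ∈ J, (X.card : ℝ) ≤ K * (Z i).card)
    (hL : ∀ i ∈ J, ArcLab σ (Z i ×ˢ Y) i (L i))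
    (low : ∀ i ∈ J, (Z i).card * Y.card * β ≤ ∑ a ∈ Z i ×ˢ Y, Real.log (ct (Z i ×ˢ Y) (L i) a)) :
    J.card * (β - (80 * δ + 160 * (2 + Real.exp (1 / δ)) * κ) *
        (Real.log (X.card : ℝ) + Real.log (Y.card : ℝ))) ≤
      14080 * (2 + Real.exp (1 / δ)) *
        ((5 * K / κ * (Real.log (X.card : ℝ) + Real.log (Y.card : ℝ))) *
          Real.log (5 * K / κ * (Real.log (X.card : ℝ) + Real.log (Y.card : ℝ)))) := by
  set C : ℝ := 2 + Real.exp (1 / δ) with hC
  have hC0 : 0 ≤ C := by positivity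
  have hK0 : 0 < K := by linarith
  set lX : ℝ := Real.log (X.card : ℝ) with hlX
  set lY : ℝ := Real.log (Y.card : ℝ) with hlY
  have hx2 : (2 : ℝ) ≤ X.card := by exact_mod_cast hX
  have hx0 : (0 : ℝ) < X.card := by linarith
  have hy1 : (1 : ℝ) ≤ Y.card := by exact_mod_cast card_pos.2 hY
  have hy0 : (0 : ℝ) < Y.card := by linarith
  have lX1 : 1 / 2 ≤ lX := by
    have h1 : Real.log 2 ≤ lX := Real.log_le_log (by norm_num) hx2
    have h2 := Real.log_two_gt_d9
    linarith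
  have lY0 : 0 ≤ lY := Real.log_nonneg hy1
  set M : ℝ := 5 * K / κ * (lX + lY) with hM
  have hM1 : 1 ≤ M := by
    have h1 : 5 ≤ 5 * K / κ := by
      rw [le_div_iff₀ hκ]
      nlinarith
    have h2 : 5 * (1 / 2) ≤ 5 * K / κ * (lX + lY) :=
      mul_le_mul h1 (by linarith) (by norm_num) (by linarith)
    rw [hM]
    linarith
  obtain ⟨T, hT⟩ := scales (((Y ×ˢ Y).filter fun c => c.1 ≠ c.2).image fun c => ‖σ (c.2 - c.1)‖) (by
    intro d hd
    obtain ⟨c, hc, rfl⟩ := mem_image.1 hd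
    have h1 := (mem_filter.1 hc).2
    rw [norm_pos_iff]
    intro h2
    exact h1 (sub_eq_zero.1 (σ.injective (by rw [h2, map_zero]))).symm)
  have hT' : ∀ i, ∀ a ∈ Z i ×ˢ Y, ∀ b ∈ Z i ×ˢ Y, a.2 ≠ b.2 →
      (3 : ℝ) ^ (-(T : ℤ)) ≤ ‖σ (b.2 - a.2)‖ ∧ ‖σ (b.2 - a.2)‖ < 3 ^ (T : ℤ) := by
    intro i a ha b hb hab
    exact hT _ (mem_image.2 ⟨(a.2, b.2), mem_filter.2 ⟨mem_product.2 ⟨(mem_product.1 ha).2,
      (mem_product.1 hb).2⟩, hab⟩, rfl⟩)
  set N : (Bool × Bool) × (Bool × Bool) → ℤ → ℝ := fun g i =>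
    (((range (2 * T)).filter fun n : ℕ => κ * Y.card < hc σ Y g.2 (-(T : ℤ) - 2 + n) ∧
           κ / K * X.card < hc σ X g.1 (-(T : ℤ) - 2 + n - i)).card : ℝ) with hN
  set A : ℝ := (80 * δ + 160 * C * κ) * (lX + lY) with hA
  have one : ∀ i ∈ J, β ≤ A + 22 * C * ∑ g : (Bool × Bool) × (Bool × Bool), N g i := by
    intro i hi
    have hz : (0 : ℝ) < (Z i).card := by
      have h1 := hXZ i hi
      by_contra hc
      have : ((Z i).card : ℝ) = 0 := le_antisymm (not_lt.1 hc) (Nat.cast_nonneg _)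
      rw [this, mul_zero] at h1
      linarith
    have hzne : (Z i).Nonempty := card_pos.1 (by exact_mod_cast hz)
    have h1 := lac_one hδ hδ1 hκ hK σ X Y (Z i) (hZ i hi) (hXZ i hi) hzne i (L i) (hL i hi) T (hT' i)
    have h2 := (low i hi).trans h1
    exact le_of_mul_le_mul_left h2 (by positivity)
  have hsum := sum_le_sum one
  rw [sum_const, nsmul_eq_mul, sum_add_distrib, sum_const, nsmul_eq_mul, ← mul_sum, sum_comm] at hsum
  have key : ∀ g ∈ (univ : Finset ((Bool × Bool) × (Bool × Bool))),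
      ∑ i ∈ J, N g i ≤ 40 * (M * Real.log M) := by
    intro g _
    set W : Finset ℤ := (range (2 * T)).image fun n : ℕ => -(T : ℤ) - 2 + n with hW
    set TT' : Finset ℤ := W.filter fun s => κ * Y.card < hc σ Y g.2 s with hTT
    set SS' : Finset ℤ := ((W ×ˢ J).image fun p => p.1 - p.2).filter fun u =>
      κ / K * X.card < hc σ X g.1 u with hSS
    have h1 : ∀ i ∈ J, N g i ≤ ((TT'.filter fun s => s - i ∈ SS').card : ℝ) := by
      intro i hi
      apply Nat.cast_le.2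
      apply card_le_card_of_injOn (fun n : ℕ => -(T : ℤ) - 2 + n)
      · intro n hn
        obtain ⟨h2, h3, h4⟩ := mem_filter.1 hn
        have hw : -(T : ℤ) - 2 + n ∈ W := mem_image.2 ⟨n, h2, rfl⟩
        exact mem_filter.2 ⟨mem_filter.2 ⟨hw, h3⟩, mem_filter.2
          ⟨mem_image.2 ⟨(_, i), mem_product.2 ⟨hw, hi⟩, rfl⟩, h4⟩⟩
      · intro a _ b _ h
        simp only at h
        omega
    refine (sum_le_sum h1).trans ((lac_pairs SS' TT' J h0 hinj).trans ?_)
    apply mul_le_mul_of_nonneg_left _ (by norm_num)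
    apply nlogn_le hM1
    have h2 : (TT'.card : ℝ) ≤ 5 * (Y.card * lY) / (κ * Y.card) :=
      few_large (by positivity) W fun I => hc_sum σ Y g.2 I id (Set.injOn_id _)
    have h3 : (SS'.card : ℝ) ≤ 5 * (X.card * lX) / (κ / K * X.card) :=
      few_large (by positivity) _ fun I => hc_sum σ X g.1 I id (Set.injOn_id _)
    have e2 : 5 * (Y.card * lY) / (κ * Y.card) = 5 / κ * lY := by
      field_simp
    have e3 : 5 * (X.card * lX) / (κ / K * X.card) = 5 * K / κ * lX := by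
      field_simp
    rw [e2] at h2
    rw [e3] at h3
    have h4 : ((SS' ∪ TT').card : ℝ) ≤ SS'.card + TT'.card := by exact_mod_cast card_union_le _ _
    have h5 : 5 / κ * lY ≤ 5 * K / κ * lY := by
      apply mul_le_mul_of_nonneg_right _ lY0
      apply div_le_div_of_nonneg_right _ hκ.le
      linarith
    rw [hM, mul_add]
    linarith
  have h6 := sum_le_sum key
  rw [sum_const, nsmul_eq_mul] at h6
  have e16 : ((univ : Finset ((Bool × Bool) × (Bool × Bool))).card : ℝ) = 16 := by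
    norm_num [Finset.card_univ]
  rw [e16] at h6
  have h7 := mul_le_mul_of_nonneg_left h6 (show 0 ≤ 22 * C by positivity)
  calc J.card * (β - A) = J.card * β - J.card * A := by ring
    _ ≤ 22 * C * ∑ g : (Bool × Bool) × (Bool × Bool), ∑ i ∈ J, N g i := by linarith
    _ ≤ 22 * C * (16 * (40 * (M * Real.log M))) := h7
    _ = _ := by ring

end

end Pool.Agent.H85.AK
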