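import Pool.Agent.H85.AK.Pop
import Pool.Agent.H85.AK.Fin

/-!
Sums of sets with many multiplicative symmetries in vector spaces.
-/

set_option autoImplicit false

namespace Pool.Agent.H85.AK

open Finset
open scoped Pointwise

/-- a field with an element of infinite order for a valuation is infinite -/
theorem infinite_of_val {F : Type*} [Field F] (v : Valuation F (WithZero (Multiplicative ℤ)))
    {R : Finset F} (hR0 : ∀ r ∈ R, r ≠ 0) (h : 1 < (v '' (R : Set F)).ncard) : Infinite F := by
  by_contra hfin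
  rw [not_infinite_iff_finite] at hfin
  have h1 : ∀ r ∈ R, v r = 1 := by
    intro r hr
    have hr0 := hR0 r hr
    have h2 : IsOfFinOrder (Units.mk0 r hr0) := isOfFinOrder_of_finite _
    obtain ⟨n, hn, hpow⟩ := isOfFinOrder_iff_pow_eq_one.1 h2
    have h3 : r ^ n = 1 := by
      have := congrArg Units.val hpow
      simpa using this
    have h4 : (v r) ^ n = 1 := by
      rw [← map_pow, h3, map_one]
    have hv0 : v r ≠ 0 := (Valuation.ne_zero_iff v).2 hr0
    have h5 : WithZero.log (v r) = 0 := by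
      have h6 := congrArg WithZero.log h4
      rw [WithZero.log_pow, WithZero.log_one] at h6
      have h7 : (n : ℤ) * WithZero.log (v r) = 0 := by simpa using h6
      rcases mul_eq_zero.1 h7 with h8 | h8
      · omega
      · exact h8
    rw [← WithZero.exp_log hv0, h5, WithZero.exp_zero]
  have h2 : v '' (R : Set F) ⊆ {1} := by
    rintro _ ⟨r, hr, rfl⟩
    exact h1 r hr
  have h3 := Set.ncard_le_ncard h2
  rw [Set.ncard_singleton] at h3
  omega

/-- a functional separating two finite sets -/
theorem exists_dual_inj {F V : Type*} [Field F] [Infinite F] [AddCommGroup V] [Module F V]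
    (X Y : Finset V) : ∃ f : V →ₗ[F] F, Set.InjOn f (X : Set V) ∧ Set.InjOn f (Y : Set V) := by
  classical
  set D : Finset V := ((X ×ˢ X).image (fun s => s.1 - s.2) ∪
    (Y ×ˢ Y).image (fun s => s.1 - s.2)).erase 0 with hD
  obtain ⟨f, hf⟩ := Module.exists_dual_forall_apply_ne_zero (K := F) (ι := D)
    (fun d => (d : V)) (fun d => (mem_erase.1 d.2).1)
  have key : ∀ x y : V, x - y ∈ (X ×ˢ X).image (fun s => s.1 - s.2) ∪
      (Y ×ˢ Y).image (fun s => s.1 - s.2) → f x = f y → x = y := by
    intro x y hxy h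
    by_contra hne
    have h1 : x - y ∈ D := mem_erase.2 ⟨sub_ne_zero.2 hne, hxy⟩
    apply hf ⟨x - y, h1⟩
    show f (x - y) = 0
    rw [map_sub, h, sub_self]
  refine ⟨f, ?_, ?_⟩
  · intro x hx y hy h
    exact key x y (mem_union_left _ (mem_image.2 ⟨(x, y), mem_product.2 ⟨hx, hy⟩, rfl⟩)) h
  · intro x hx y hy h
    exact key x y (mem_union_right _ (mem_image.2 ⟨(x, y), mem_product.2 ⟨hx, hy⟩, rfl⟩)) h

/-- **dilates of a set in another set, in vector spaces** -/
theorem popV {ε : ℝ} (hε : 0 < ε) (hε1 : ε ≤ 1) {F V : Type*} [Field F] [AddCommGroup V]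
    [Module F V] [DecidableEq V]
    (v : Valuation F (WithZero (Multiplicative ℤ))) (A C : Finset V) (K : ℝ) (hK : 1 ≤ K)
    (hKC : 8 * K ≤ (C.card : ℝ) ^ (ε / 8)) (R : Finset F) (hR0 : ∀ r ∈ R, r ≠ 0)
    (hR : ∀ r ∈ R, (C.card : ℝ) ≤ K * ((C.filter fun c => r • c ∈ A).card : ℝ))
    (hv : Real.exp (12 / ε) * K * Real.log (C.card : ℝ) < ((v '' (R : Set F)).ncard : ℝ))
    (B : Finset V) (hB : B.Nonempty) :
    ((C.card : ℝ) * B.card) ^ (1 - ε) < ((A + B).card : ℝ) := by
  classical
  -- the cardinality of C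
  have hC2 : (2 : ℝ) ≤ C.card := by
    by_contra h
    push Not at h
    have h1 : C.card ≤ 1 := by
      have : C.card < 2 := by exact_mod_cast h
      omega
    have h2 : (C.card : ℝ) ^ (ε / 8) ≤ 1 :=
      Real.rpow_le_one (Nat.cast_nonneg _) (by exact_mod_cast h1) (by positivity)
    linarith
  have hinf : Infinite F := by
    apply infinite_of_val v hR0
    have h1 : (1 : ℝ) < ((v '' (R : Set F)).ncard : ℝ) := by
      refine lt_of_le_of_lt ?_ hv
      have h2 : Real.log 2 ≤ Real.log (C.card : ℝ) := Real.log_le_log (by norm_num) hC2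
      have h3 := Real.log_two_gt_d9
      have h4 : 12 / ε + 1 ≤ Real.exp (12 / ε) := Real.add_one_le_exp _
      have h5 : (12 : ℝ) ≤ 12 / ε := by
        rw [le_div_iff₀ hε]
        linarith
      have h6 : (13 : ℝ) * 1 ≤ Real.exp (12 / ε) * K :=
        mul_le_mul (by linarith) hK (by norm_num) (by positivity)
      have h7 : (13 : ℝ) * 1 * (1 / 2) ≤ Real.exp (12 / ε) * K * Real.log (C.card : ℝ) :=
        mul_le_mul h6 (by linarith) (by norm_num) (by positivity)
      linarith
    exact_mod_cast h1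
  obtain ⟨f, hfC, hfB⟩ := exists_dual_inj (F := F) C B
  have hCc : (C.image f).card = C.card := card_image_of_injOn hfC
  have hBc : (B.image f).card = B.card := card_image_of_injOn hfB
  have key := pop hε hε1 v (A.image f) (C.image f) K hK (by rw [hCc]; exact hKC) R hR0 (by
      intro r hr
      rw [hCc]
      refine (hR r hr).trans (mul_le_mul_of_nonneg_left (Nat.cast_le.2 ?_) (by linarith))
      apply card_le_card_of_injOn f
      · intro c hc
        obtain ⟨h1, h2⟩ := mem_filter.1 hc
        refine mem_filter.2 ⟨mem_image_of_mem _ h1, ?_⟩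
        have h3 : r * f c = f (r • c) := by
          rw [map_smul]
          rfl
        rw [h3]
        exact mem_image_of_mem _ h2
      · intro c hc c' hc' h
        exact hfC (mem_filter.1 hc).1 (mem_filter.1 hc').1 h)
    (by rw [hCc]; exact hv) (B.image f) (hB.image f)
  rw [hCc, hBc] at key
  refine lt_of_lt_of_le key (Nat.cast_le.2 ?_)
  have h1 : ((A.image f ×ˢ B.image f).image fun s => s.1 + s.2) ⊆ (A + B).image f := by
    intro w hw
    obtain ⟨⟨x, y⟩, hxy, rfl⟩ := mem_image.1 hw
    obtain ⟨hx, hy⟩ := mem_product.1 hxy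
    obtain ⟨a, ha, rfl⟩ := mem_image.1 hx
    obtain ⟨b, hb, rfl⟩ := mem_image.1 hy
    exact mem_image.2 ⟨a + b, add_mem_add ha hb, map_add _ _ _⟩
  exact (card_le_card h1).trans card_image_le

end Pool.Agent.H85.AK
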