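import Pool.Agent.H85.AK.Lac3
import Pool.Agent.H85.AK.Pop2

/-!
Lacunary sequences of scalars: the bound `log log`.
-/

set_option autoImplicit false

namespace Pool.Agent.H85.AK

open Finset
open scoped Pointwise

/-- the choice of the constants -/
theorem lac_const {ε : ℝ} (hε : 0 < ε) (hε1 : ε ≤ 1) : ∃ c : ℝ, 0 < c ∧
    ∀ (C L lX K n : ℝ), C = 2 + Real.exp (1 / (ε / 640)) → 1 / 2 ≤ lX → lX ≤ L →
      L ≤ 2 / ε * lX → 1 ≤ K → 0 < Real.log 2 → Real.log 2 ≤ lX →
      n * (ε / 2 * L - (80 * (ε / 640) + 160 * C * (ε / (1280 * C))) * L) ≤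
        14080 * C * ((5 * K / (ε / (1280 * C)) * L) * Real.log (5 * K / (ε / (1280 * C)) * L)) →
      n ≤ c * K * (1 + Real.log (K * lX)) := by
  set C : ℝ := 2 + Real.exp (1 / (ε / 640)) with hC
  have hC2 : 2 ≤ C := by
    have := Real.exp_pos (1 / (ε / 640))
    linarith
  have hC0 : 0 < C := by linarith
  set q : ℝ := 6400 * C / ε with hq
  have hq1 : 6400 ≤ q := by
    rw [hq, le_div_iff₀ hε]
    nlinarith
  have hq0 : 0 < q := by linarith
  set c1 : ℝ := 4 / ε * 14080 * C * q with hc1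
  have hc10 : 0 < c1 := by positivity
  set c2 : ℝ := Real.log q + Real.log (2 / ε) with hc2
  have hc21 : 1 ≤ c2 := by
    have h1 : 1 ≤ Real.log q := by
      rw [Real.le_log_iff_exp_le hq0]
      have := Real.exp_one_lt_d9
      linarith
    have h2 : 0 ≤ Real.log (2 / ε) := Real.log_nonneg (by
      rw [le_div_iff₀ hε]
      linarith)
    linarith
  refine ⟨2 * c1 * c2, by positivity, ?_⟩
  intro C' L lX K n hC' hlX hL hL2 hK hlog2 hlX2 h
  rw [hC'] at h
  clear hC' C'
  have hK0 : 0 < K := by linarith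
  have hlX0 : 0 < lX := by linarith
  have hL0 : 0 < L := by linarith
  have e1 : ε / 2 * L - (80 * (ε / 640) + 160 * C * (ε / (1280 * C))) * L = ε / 4 * L := by
    field_simp
    ring
  have e2 : 5 * K / (ε / (1280 * C)) * L = q * (K * L) := by
    rw [hq]
    field_simp
    ring
  rw [e1, e2] at h
  have h1 : n ≤ c1 * K * Real.log (q * (K * L)) := by
    have h2 : n * (ε / 4 * L) ≤ (c1 * K * Real.log (q * (K * L))) * (ε / 4 * L) := by
      refine h.trans (le_of_eq ?_)
      rw [hc1]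
      field_simp
    exact le_of_mul_le_mul_right h2 (by positivity)
  have hx : -(1 / 2) ≤ Real.log (K * lX) := by
    have h2 : Real.log (1 * (1 / 2) : ℝ) ≤ Real.log (K * lX) :=
      Real.log_le_log (by norm_num) (mul_le_mul hK hlX (by norm_num) hK0.le)
    have h2' : Real.log (0.69 : ℝ) ≤ Real.log (K * lX) := by
      apply Real.log_le_log (by norm_num)
      have h3 := Real.log_two_gt_d9
      have h4 : (1 : ℝ) * Real.log 2 ≤ K * lX := mul_le_mul hK hlX2 hlog2.le hK0.le
      linarith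
    have h5 : -(1 / 2) ≤ Real.log (0.69 : ℝ) := by
      rw [Real.le_log_iff_exp_le (by norm_num), Real.exp_neg]
      have h6 : (1.5 : ℝ) ≤ Real.exp (1 / 2) := by
        have := Real.add_one_le_exp (1 / 2 : ℝ)
        linarith
      calc (Real.exp (1 / 2))⁻¹ ≤ (1.5 : ℝ)⁻¹ := inv_anti₀ (by norm_num) h6
        _ ≤ 0.69 := by norm_num
    linarith
  have h3 : Real.log (q * (K * L)) ≤ c2 + Real.log (K * lX) := by
    have h4 : q * (K * L) ≤ q * (2 / ε) * (K * lX) := by
      have h5 : K * L ≤ K * (2 / ε * lX) := mul_le_mul_of_nonneg_left hL2 hK0.le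
      calc q * (K * L) ≤ q * (K * (2 / ε * lX)) := mul_le_mul_of_nonneg_left h5 hq0.le
        _ = q * (2 / ε) * (K * lX) := by ring
    have h5 := Real.log_le_log (by positivity) h4
    have h6 : Real.log (q * (2 / ε) * (K * lX)) =
        Real.log q + Real.log (2 / ε) + Real.log (K * lX) := by
      rw [Real.log_mul (x := q * (2 / ε)) (by positivity) (by positivity),
        Real.log_mul hq0.ne' (by positivity)]
    rw [h6] at h5
    exact h5
  have h4 : c2 + Real.log (K * lX) ≤ 2 * c2 * (1 + Real.log (K * lX)) := by nlinarith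
  calc n ≤ c1 * K * Real.log (q * (K * L)) := h1
    _ ≤ c1 * K * (2 * c2 * (1 + Real.log (K * lX))) :=
        mul_le_mul_of_nonneg_left (h3.trans h4) (by positivity)
    _ = 2 * c1 * c2 * K * (1 + Real.log (K * lX)) := by ring

/-- **lacunary scales** -/
theorem lac_main0 {ε : ℝ} (hε : 0 < ε) (hε1 : ε ≤ 1) : ∃ c : ℝ, 0 < c ∧
    ∀ (F : Type) [Field F] [DecidableEq F] (σ : F →+* ℂ) (X Y : Finset F) (K : ℝ) (J : Finset ℤ)
      (r : ℤ → F) (Z : ℤ → Finset F), 2 ≤ X.card → Y.Nonempty → 1 ≤ K →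
      K ≤ (X.card : ℝ) ^ (ε / 2) → (∀ i ∈ J, i ≠ 0) →
      Set.InjOn (fun i : ℤ => Int.log 3 |(i : ℝ)|) (J : Set ℤ) →
      (∀ i ∈ J, (3 : ℝ) ^ i ≤ ‖σ (r i)‖ ∧ ‖σ (r i)‖ < 3 ^ (i + 1)) →
      (∀ i ∈ J, Z i ⊆ X ∧ (X.card : ℝ) ≤ K * (Z i).card ∧
        (((Z i ×ˢ Y).image fun s => r i * s.1 + s.2).card : ℝ) ≤
          ((X.card : ℝ) * Y.card) ^ (1 - ε)) →
      (J.card : ℝ) ≤ c * K * (1 + Real.log (K * Real.log (X.card : ℝ))) := by
  obtain ⟨c, hc, hcc⟩ := lac_const hε hε1
  refine ⟨c, hc, ?_⟩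
  intro F _ _ σ X Y K J r Z hX hY hK hKX h0 hinj hr hZ
  have hx2 : (2 : ℝ) ≤ X.card := by exact_mod_cast hX
  have hx0 : (0 : ℝ) < X.card := by linarith
  have hy1 : (1 : ℝ) ≤ Y.card := by exact_mod_cast card_pos.2 hY
  have hy0 : (0 : ℝ) < Y.card := by linarith
  have hK0 : 0 < K := by linarith
  set lX : ℝ := Real.log (X.card : ℝ) with hlX
  set lY : ℝ := Real.log (Y.card : ℝ) with hlY
  have hl2 : Real.log 2 ≤ lX := Real.log_le_log (by norm_num) hx2
  have hlog2 := Real.log_two_gt_d9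
  have lX1 : 1 / 2 ≤ lX := by linarith
  have lY0 : 0 ≤ lY := Real.log_nonneg hy1
  set N : ℝ := (X.card : ℝ) * Y.card with hN
  have hN0 : 0 < N := by positivity
  have hlN : Real.log N = lX + lY := Real.log_mul hx0.ne' hy0.ne'
  set C : ℝ := 2 + Real.exp (1 / (ε / 640)) with hC
  have hC2 : 2 ≤ C := by
    have := Real.exp_pos (1 / (ε / 640))
    linarith
  have hz : ∀ i ∈ J, (0 : ℝ) < (Z i).card := by
    intro i hi
    have h1 := (hZ i hi).2.1
    by_contra hc
    have : ((Z i).card : ℝ) = 0 := le_antisymm (not_lt.1 hc) (Nat.cast_nonneg _)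
    rw [this, mul_zero] at h1
    linarith
  rcases J.eq_empty_or_nonempty with hJ | ⟨i0, hi0⟩
  · subst hJ
    have h1 : Real.log (0.69 : ℝ) ≤ Real.log (K * lX) := by
      apply Real.log_le_log (by norm_num)
      have h4 : (1 : ℝ) * Real.log 2 ≤ K * lX := mul_le_mul hK hl2 (by linarith) hK0.le
      linarith
    have h5 : -(1 / 2) ≤ Real.log (0.69 : ℝ) := by
      rw [Real.le_log_iff_exp_le (by norm_num), Real.exp_neg]
      have h6 : (1.5 : ℝ) ≤ Real.exp (1 / 2) := by
        have := Real.add_one_le_exp (1 / 2 : ℝ)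
        linarith
      calc (Real.exp (1 / 2))⁻¹ ≤ (1.5 : ℝ)⁻¹ := inv_anti₀ (by norm_num) h6
        _ ≤ 0.69 := by norm_num
    have h6 : 0 ≤ 1 + Real.log (K * lX) := by linarith
    simp only [card_empty, Nat.cast_zero]
    positivity
  -- the size of `Y`
  have hL2 : lX + lY ≤ 2 / ε * lX := by
    obtain ⟨_, _, h3⟩ := hZ i0 hi0
    obtain ⟨z0, hz0⟩ : (Z i0).Nonempty := card_pos.1 (by exact_mod_cast hz i0 hi0)
    have h4 : Y.card ≤ ((Z i0 ×ˢ Y).image fun s => r i0 * s.1 + s.2).card := by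
      apply card_le_card_of_injOn (fun y => r i0 * z0 + y)
      · intro y hy
        exact mem_image.2 ⟨(z0, y), mem_product.2 ⟨hz0, hy⟩, rfl⟩
      · intro a _ b _ h
        exact add_left_cancel h
    have h5 : (Y.card : ℝ) ≤ N ^ (1 - ε) := le_trans (by exact_mod_cast h4) h3
    have h6 := Real.log_le_log hy0 h5
    rw [Real.log_rpow hN0, hlN] at h6
    have h7 : ε * (lX + lY) ≤ 2 * lX := by
      have : lY ≤ (1 - ε) * (lX + lY) := h6
      nlinarith
    rw [div_mul_eq_mul_div, le_div_iff₀ hε]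
    linarith
  have low : ∀ i ∈ J, (Z i).card * Y.card * (ε / 2 * (lX + lY)) ≤
      ∑ a ∈ Z i ×ˢ Y, Real.log (ct (Z i ×ˢ Y) (fun b => r i * b.1 + b.2) a) := by
    intro i hi
    obtain ⟨_, h2, h3⟩ := hZ i hi
    have hzi := hz i hi
    have hzne : (Z i).Nonempty := card_pos.1 (by exact_mod_cast hzi)
    have h1 := image_log (hzne.product hY) (z := fun b : F × F => r i * b.1 + b.2) h3
    refine le_trans ?_ h1
    rw [card_product]
    push_cast
    rw [Real.log_mul hzi.ne' hy0.ne', Real.log_rpow hN0, hlN]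
    have h4 : lX - Real.log K ≤ Real.log ((Z i).card : ℝ) := by
      have h5 := Real.log_le_log hx0 h2
      rw [Real.log_mul hK0.ne' hzi.ne'] at h5
      linarith
    have h5 : Real.log K ≤ ε / 2 * lX := by
      rw [hlX, ← Real.log_rpow hx0]
      exact Real.log_le_log hK0 hKX
    have h6 : ε / 2 * (lX + lY) ≤ Real.log ((Z i).card : ℝ) + lY - (1 - ε) * (lX + lY) := by
      have : 0 ≤ ε * lY := by positivity
      nlinarith
    exact mul_le_mul_of_nonneg_left h6 (by positivity)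
  have key := lac_count (δ := ε / 640) (κ := ε / (1280 * C)) (K := K) (β := ε / 2 * (lX + lY))
    (by positivity) (by linarith) (by positivity) (by
      rw [div_le_one (by positivity)]
      linarith) hK σ X Y hX hY J h0 hinj (fun i b => r i * b.1 + b.2) Z (fun i hi => (hZ i hi).1)
    (fun i hi => (hZ i hi).2.1) (by
      intro i hi a ha b hb hlab
      have h5 := fibre_norm σ hlab
      obtain ⟨l1, l2⟩ := hr i hi
      rw [h5]
      exact ⟨mul_le_mul_of_nonneg_right l1 (norm_nonneg _),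
        mul_le_mul_of_nonneg_right l2.le (norm_nonneg _)⟩) low
  exact hcc C (lX + lY) lX K J.card rfl lX1 (by linarith) hL2 hK (by linarith) hl2 key

end Pool.Agent.H85.AK
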