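import Pool.Agent.H85.AK.Lac4

/-!
Lacunary sequences of scalars, vector spaces.
-/

set_option autoImplicit false

namespace Pool.Agent.H85.AK

open Finset
open scoped Pointwise

/-- the scales of a lacunary sequence -/
theorem lac_scales {x : ℕ → ℝ} (hx : ∀ j, 0 < x j) (h0 : 5 ≤ |Real.log (x 0)|)
    (h1 : ∀ j, 4 * |Real.log (x j)| ≤ |Real.log (x (j + 1))|) :
    (∀ j, Int.log 3 (x j) ≠ 0) ∧
      StrictMono fun j => Int.log 3 |((Int.log 3 (x j) : ℤ) : ℝ)| := by
  have hl3 : 0 < Real.log 3 := Real.log_pos (by norm_num)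
  have hl3' : Real.log 3 ≤ 5 / 4 := by
    rw [Real.log_le_iff_le_exp (by norm_num)]
    have h2 : Real.exp (5 / 4) = Real.exp 1 * Real.exp (1 / 4) := by
      rw [← Real.exp_add]
      norm_num
    rw [h2]
    have h3 := Real.exp_one_gt_d9
    have h4 := Real.add_one_le_exp (1 / 4 : ℝ)
    nlinarith
  -- the real scales
  set l : ℕ → ℝ := fun j => Real.log (x j) / Real.log 3 with hl
  have habs : ∀ j, |l j| = |Real.log (x j)| / Real.log 3 := by
    intro j
    simp only [hl]
    rw [abs_div, abs_of_pos hl3]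
  have hfl : ∀ j, ((Int.log 3 (x j) : ℤ) : ℝ) ≤ l j ∧ l j < ((Int.log 3 (x j) : ℤ) : ℝ) + 1 := by
    intro j
    have a1 := Int.zpow_log_le_self (b := 3) (by norm_num) (hx j)
    have a2 := Int.lt_zpow_succ_log_self (b := 3) (by norm_num) (x j)
    have a1' : (3 : ℝ) ^ (Int.log 3 (x j)) ≤ x j := by exact_mod_cast a1
    have a2' : x j < (3 : ℝ) ^ (Int.log 3 (x j) + 1) := by exact_mod_cast a2
    have b1 := Real.log_le_log (zpow_pos (by norm_num) _) a1'
    have b2 := Real.log_lt_log (hx j) a2'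
    rw [Real.log_zpow] at b1 b2
    simp only [hl]
    constructor
    · rw [le_div_iff₀ hl3]
      exact b1
    · rw [div_lt_iff₀ hl3]
      push_cast at b2
      exact b2
  have hbig : ∀ j, 4 ≤ |l j| := by
    intro j
    induction j with
    | zero =>
      rw [habs, le_div_iff₀ hl3]
      linarith
    | succ j ih =>
      rw [habs, le_div_iff₀ hl3] at ih ⊢
      have := h1 j
      nlinarith
  have hstep : ∀ j, 4 * |l j| ≤ |l (j + 1)| := by
    intro j
    rw [habs, habs, ← mul_div_assoc]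
    exact div_le_div_of_nonneg_right (h1 j) hl3.le
  have hlow : ∀ j, |l j| - 1 ≤ |((Int.log 3 (x j) : ℤ) : ℝ)| := by
    intro j
    obtain ⟨a1, a2⟩ := hfl j
    have h2 : |l j - ((Int.log 3 (x j) : ℤ) : ℝ)| ≤ 1 := by
      rw [abs_le]
      constructor <;> linarith
    have h3 := abs_sub_abs_le_abs_sub (l j) ((Int.log 3 (x j) : ℤ) : ℝ)
    linarith
  have hup : ∀ j, |((Int.log 3 (x j) : ℤ) : ℝ)| ≤ |l j| + 1 := by
    intro j
    obtain ⟨a1, a2⟩ := hfl j
    have h2 : |((Int.log 3 (x j) : ℤ) : ℝ) - l j| ≤ 1 := by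
      rw [abs_le]
      constructor <;> linarith
    have h3 := abs_sub_abs_le_abs_sub ((Int.log 3 (x j) : ℤ) : ℝ) (l j)
    linarith
  constructor
  · intro j h
    have h2 := hlow j
    have h3 := hbig j
    rw [h, Int.cast_zero, abs_zero] at h2
    linarith
  · apply strictMono_nat_of_lt_succ
    intro j
    have hpos : ∀ j, 0 < |((Int.log 3 (x j) : ℤ) : ℝ)| := by
      intro j
      have h2 := hlow j
      have h3 := hbig j
      linarith
    have h2 := Int.zpow_log_le_self (b := 3) (by norm_num) (hpos j)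
    have h2' : (3 : ℝ) ^ (Int.log 3 |((Int.log 3 (x j) : ℤ) : ℝ)|) ≤
        |((Int.log 3 (x j) : ℤ) : ℝ)| := by exact_mod_cast h2
    have h3 : (3 : ℝ) ^ (Int.log 3 |((Int.log 3 (x j) : ℤ) : ℝ)| + 1) ≤
        |((Int.log 3 (x (j + 1)) : ℤ) : ℝ)| := by
      rw [zpow_add₀ (by norm_num), zpow_one]
      have a1 := hup j
      have a2 := hlow (j + 1)
      have a3 := hstep j
      have a4 := hbig j
      linarith
    have h4 : Int.log 3 |((Int.log 3 (x j) : ℤ) : ℝ)| + 1 ≤
        Int.log 3 |((Int.log 3 (x (j + 1)) : ℤ) : ℝ)| := by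
      apply (Int.zpow_le_iff_le_log (by norm_num) (hpos (j + 1))).1
      exact_mod_cast h3
    show Int.log 3 |((Int.log 3 (x j) : ℤ) : ℝ)| < Int.log 3 |((Int.log 3 (x (j + 1)) : ℤ) : ℝ)|
    omega

/-- **lacunary sequences of scalars** -/
theorem lac_main (ε : ℝ) (hε : 0 < ε) (hε1 : ε ≤ 1) : ∃ c : ℝ, 0 < c ∧
    ∀ (F V : Type) [Field F] [AddCommGroup V] [Module F V] [DecidableEq V] (σ : F →+* ℂ)
      (B C : Finset V) (K : ℝ) (r : ℕ → F), 2 ≤ C.card → B.Nonempty → 1 ≤ K →
      K ≤ (C.card : ℝ) ^ (ε / 2) → 5 ≤ |Real.log ‖σ (r 0)‖| →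
      (∀ j, 4 * |Real.log ‖σ (r j)‖| ≤ |Real.log ‖σ (r (j + 1))‖|) →
      ∀ (J : Finset ℕ), (∀ j ∈ J, ∃ D ⊆ C, (C.card : ℝ) ≤ K * (D.card : ℝ) ∧
        ((r j • D + B).card : ℝ) ≤ ((C.card : ℝ) * B.card) ^ (1 - ε)) →
      (J.card : ℝ) ≤ c * K * (1 + Real.log (K * Real.log (C.card : ℝ))) := by
  classical
  obtain ⟨c, hc, h⟩ := lac_main0 hε hε1
  refine ⟨c, hc, ?_⟩
  intro F V _ _ _ _ σ B C K r hC hB hK hKC hr0 hr J hJ
  have hchar : CharZero F := RingHom.charZero σ
  have hinf : Infinite F := Infinite.of_injective (fun n : ℕ => (n : F)) Nat.cast_injective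
  -- the scalars are different from zero
  have hpos : ∀ j, 0 < ‖σ (r j)‖ := by
    have hbig : ∀ j, 5 ≤ |Real.log ‖σ (r j)‖| := by
      intro j
      induction j with
      | zero => exact hr0
      | succ j ih => linarith [hr j]
    intro j
    by_contra hc
    have h1 : ‖σ (r j)‖ = 0 := le_antisymm (not_lt.1 hc) (norm_nonneg _)
    have h2 := hbig j
    rw [h1, Real.log_zero, abs_zero] at h2
    linarith
  obtain ⟨hs0, hsm⟩ := lac_scales hpos hr0 hr
  set sc : ℕ → ℤ := fun j => Int.log 3 ‖σ (r j)‖ with hsc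
  have hsc_inj : Function.Injective sc := by
    intro a b hab
    apply hsm.injective
    show Int.log 3 |((sc a : ℤ) : ℝ)| = Int.log 3 |((sc b : ℤ) : ℝ)|
    rw [hab]
  obtain ⟨f, hfC, hfB⟩ := exists_dual_inj (F := F) C B
  have hCc : (C.image f).card = C.card := card_image_of_injOn hfC
  have hBc : (B.image f).card = B.card := card_image_of_injOn hfB
  choose! D hD using hJ
  -- the index of a scale
  have hex : ∀ i : ℤ, ∃ j : ℕ, i ∈ J.image sc → j ∈ J ∧ sc j = i := by
    intro i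
    by_cases hi : i ∈ J.image sc
    · obtain ⟨j, h1, h2⟩ := mem_image.1 hi
      exact ⟨j, fun _ => ⟨h1, h2⟩⟩
    · exact ⟨0, fun h' => absurd h' hi⟩
  choose jd hjd using hex
  have key := h F σ (C.image f) (B.image f) K (J.image sc) (fun i => r (jd i))
    (fun i => (D (jd i)).image f) (by rw [hCc]; exact hC) (hB.image f) hK (by rw [hCc]; exact hKC)
    (by
      intro i hi
      obtain ⟨j, _, rfl⟩ := mem_image.1 hi
      exact hs0 j)
    (by
      intro a ha b hb hab
      obtain ⟨j, _, rfl⟩ := mem_image.1 (mem_coe.1 ha)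
      obtain ⟨j', _, rfl⟩ := mem_image.1 (mem_coe.1 hb)
      have := hsm.injective hab
      rw [this])
    (by
      intro i hi
      have h2 := (hjd i hi).2
      have l1 := Int.zpow_log_le_self (b := 3) (by norm_num) (hpos (jd i))
      have l2 := Int.lt_zpow_succ_log_self (b := 3) (by norm_num) ‖σ (r (jd i))‖
      rw [show Int.log 3 ‖σ (r (jd i))‖ = i from h2] at l1 l2
      exact ⟨by exact_mod_cast l1, by exact_mod_cast l2⟩)
    (by
      intro i hi
      obtain ⟨h1, _⟩ := hjd i hi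
      obtain ⟨h3, h4, h5⟩ := hD (jd i) h1
      refine ⟨image_subset_image h3, ?_, ?_⟩
      · rw [hCc, card_image_of_injOn (hfC.mono (coe_subset.2 h3))]
        exact h4
      · rw [hCc, hBc]
        refine le_trans (Nat.cast_le.2 ?_) h5
        have h6 : (((D (jd i)).image f ×ˢ B.image f).image fun s => r (jd i) * s.1 + s.2) ⊆
            (r (jd i) • D (jd i) + B).image f := by
          intro u hu
          obtain ⟨⟨x, y⟩, hxy, rfl⟩ := mem_image.1 hu
          obtain ⟨hx, hy⟩ := mem_product.1 hxy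
          obtain ⟨a, ha, rfl⟩ := mem_image.1 hx
          obtain ⟨b, hb, rfl⟩ := mem_image.1 hy
          refine mem_image.2 ⟨r (jd i) • a + b, add_mem_add (smul_mem_smul_finset ha) hb, ?_⟩
          rw [map_add, map_smul]
          rfl
        exact (card_le_card h6).trans card_image_le)
  rw [hCc, card_image_of_injective _ hsc_inj] at key
  exact key

end Pool.Agent.H85.AK
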