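import Pool.Agent.H85.AK.Lac5

/-!
Lacunary sequences of scalars, sharpness of `log log`.
-/

set_option autoImplicit false

namespace Pool.Agent.H85.AK

open Finset
open scoped Pointwise

/-- **intervals**: `log log` lacunary scalars -/
theorem lac_sharp {ε : ℝ} (hε1 : ε ≤ 1 / 8) (N : ℕ) :
    ∃ A : Finset ℚ, N ≤ A.card ∧ ∀ j : ℕ, (j : ℝ) ≤ Real.log (Real.log (A.card : ℝ)) / 2 - 2 →
      ((((3 : ℚ) ^ (5 * 4 ^ j)) • A + A).card : ℝ) ≤ ((A.card : ℝ) * A.card) ^ (1 - ε) := by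
  classical
  set n : ℕ := N + 1 with hn
  set A : Finset ℚ := (Finset.Icc 1 n).image fun k : ℕ => (k : ℚ) with hA
  have hAc : A.card = n := by
    rw [hA, card_image_of_injective _ Nat.cast_injective, Nat.card_Icc]
    omega
  refine ⟨A, by omega, ?_⟩
  intro j hj
  rw [hAc] at hj ⊢
  set Λ : ℝ := Real.log (n : ℝ) with hΛ
  have hΛ0 : 0 ≤ Λ := Real.log_natCast_nonneg _
  have hlΛ : 4 ≤ Real.log Λ := by
    have : (0 : ℝ) ≤ j := Nat.cast_nonneg _
    linarith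
  have hΛpos : 0 < Λ := by
    rcases hΛ0.eq_or_lt with h | h
    · rw [← h, Real.log_zero] at hlΛ
      linarith
    · exact h
  have hl2 := Real.log_two_lt_d9
  have hl2' := Real.log_two_gt_d9
  -- the exponent
  have h4j : (4 : ℝ) ^ j ≤ Λ / 16 := by
    have h1 : Real.log ((4 : ℝ) ^ j) ≤ Real.log (Λ / 16) := by
      rw [Real.log_pow, Real.log_div hΛpos.ne' (by norm_num)]
      have e4 : Real.log 4 = 2 * Real.log 2 := by
        rw [show (4 : ℝ) = 2 ^ 2 by norm_num, Real.log_pow]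
        norm_num
      have e16 : Real.log 16 = 4 * Real.log 2 := by
        rw [show (16 : ℝ) = 2 ^ 4 by norm_num, Real.log_pow]
        norm_num
      rw [e4, e16]
      have h2 : (j : ℝ) * (2 * Real.log 2) ≤ (Real.log Λ / 2 - 2) * (2 * Real.log 2) :=
        mul_le_mul_of_nonneg_right hj (by linarith)
      nlinarith
    exact (Real.log_le_log_iff (by positivity) (by positivity)).1 h1
  have hl3' : Real.log 3 ≤ 5 / 4 := by
    rw [Real.log_le_iff_le_exp (by norm_num)]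
    have h2 : Real.exp (5 / 4) = Real.exp 1 * Real.exp (1 / 4) := by
      rw [← Real.exp_add]
      norm_num
    rw [h2]
    have h3 := Real.exp_one_gt_d9
    have h4 := Real.add_one_le_exp (1 / 4 : ℝ)
    nlinarith
  have hl3 : 0 < Real.log 3 := Real.log_pos (by norm_num)
  set ρ : ℕ := 3 ^ (5 * 4 ^ j) with hρ
  have hn0 : (0 : ℝ) < n := by
    rw [hn]
    positivity
  have hρ0 : (0 : ℝ) < ρ := by
    rw [hρ]
    positivity
  have hρ1 : (1 : ℝ) ≤ ρ := by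
    have : 0 < ρ := by exact_mod_cast hρ0
    exact_mod_cast this
  have hρn : (ρ : ℝ) ≤ (n : ℝ) ^ (1 / 2 : ℝ) := by
    have h1 : Real.log (ρ : ℝ) ≤ Real.log ((n : ℝ) ^ (1 / 2 : ℝ)) := by
      rw [Real.log_rpow hn0, hρ]
      push_cast
      rw [Real.log_pow]
      push_cast
      have h2 : 5 * (4 : ℝ) ^ j * Real.log 3 ≤ 5 * (Λ / 16) * (5 / 4) :=
        mul_le_mul (by linarith) hl3' hl3.le (by positivity)
      linarith
    exact (Real.log_le_log_iff hρ0 (Real.rpow_pos_of_pos hn0 _)).1 h1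
  have hn4 : (2 : ℝ) ≤ (n : ℝ) ^ (1 / 4 : ℝ) := by
    have h1 : Real.log 2 ≤ Real.log ((n : ℝ) ^ (1 / 4 : ℝ)) := by
      rw [Real.log_rpow hn0]
      have h2 : Real.log Λ ≤ Λ - 1 := Real.log_le_sub_one_of_pos hΛpos
      linarith
    exact (Real.log_le_log_iff (by norm_num) (Real.rpow_pos_of_pos hn0 _)).1 h1
  -- the sumset
  have hsub : ((3 : ℚ) ^ (5 * 4 ^ j)) • A + A ⊆
      (Finset.Icc 1 (ρ * n + n)).image fun k : ℕ => (k : ℚ) := by
    intro u hu
    obtain ⟨x, hx, y, hy, rfl⟩ := Finset.mem_add.1 hu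
    obtain ⟨z, hz, rfl⟩ := Finset.mem_smul_finset.1 hx
    obtain ⟨a, ha, rfl⟩ := mem_image.1 hz
    obtain ⟨b, hb, rfl⟩ := mem_image.1 hy
    rw [Finset.mem_Icc] at ha hb
    refine mem_image.2 ⟨ρ * a + b, Finset.mem_Icc.2 ⟨?_, ?_⟩, ?_⟩
    · have : 0 ≤ ρ * a := Nat.zero_le _
      omega
    · have : ρ * a ≤ ρ * n := Nat.mul_le_mul_left _ ha.2
      omega
    · rw [hρ]
      push_cast
      rw [smul_eq_mul]
  have hcard : ((((3 : ℚ) ^ (5 * 4 ^ j)) • A + A).card : ℝ) ≤ ρ * n + n := by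
    have h1 := card_le_card hsub
    rw [card_image_of_injective _ Nat.cast_injective, Nat.card_Icc] at h1
    have h2 : (((3 : ℚ) ^ (5 * 4 ^ j)) • A + A).card ≤ ρ * n + n := by omega
    exact_mod_cast h2
  refine hcard.trans ?_
  have e1 : ((n : ℝ) * n) ^ (1 - ε) = (n : ℝ) ^ (2 * (1 - ε)) := by
    rw [Real.mul_rpow hn0.le hn0.le, ← Real.rpow_add hn0]
    congr 1
    ring
  have h74 : (n : ℝ) ^ (7 / 4 : ℝ) ≤ (n : ℝ) ^ (2 * (1 - ε)) := by
    apply Real.rpow_le_rpow_of_exponent_le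
    · rw [hn]
      push_cast
      have : (0 : ℝ) ≤ N := Nat.cast_nonneg _
      linarith
    · linarith
  rw [e1]
  refine le_trans ?_ h74
  have e2 : (n : ℝ) ^ (7 / 4 : ℝ) = (n : ℝ) ^ (1 / 4 : ℝ) * ((n : ℝ) ^ (1 / 2 : ℝ) * n) := by
    have h1 : (n : ℝ) = (n : ℝ) ^ (1 : ℝ) := (Real.rpow_one _).symm
    have h2 : (n : ℝ) ^ (1 / 2 : ℝ) * n = (n : ℝ) ^ (3 / 2 : ℝ) := by
      nth_rewrite 2 [h1]
      rw [← Real.rpow_add hn0]
      norm_num
    rw [h2, ← Real.rpow_add hn0]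
    norm_num
  rw [e2]
  have h5 : (ρ : ℝ) * n + n ≤ 2 * (ρ * n) := by nlinarith
  have h6 : (2 : ℝ) * (ρ * n) ≤ (n : ℝ) ^ (1 / 4 : ℝ) * ((n : ℝ) ^ (1 / 2 : ℝ) * n) := by
    apply mul_le_mul hn4 _ (by positivity) (by positivity)
    exact mul_le_mul_of_nonneg_right hρn hn0.le
  exact h5.trans h6

end Pool.Agent.H85.AK
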