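import Pool.Agent.H85.AK.Lac5
import Pool.Agent.H85.AK.Hom4

/-!
Lacunary sequences of scalars: partners.
-/

set_option autoImplicit false

namespace Pool.Agent.H85.AK

open Finset
open scoped Pointwise

theorem log_klog {K lX : ℝ} (hK : 1 ≤ K) (hl : Real.log 2 ≤ lX) : -(1 / 2) ≤ Real.log (K * lX) := by
  have hlog2 := Real.log_two_gt_d9
  have h1 : Real.log (0.69 : ℝ) ≤ Real.log (K * lX) := by
    apply Real.log_le_log (by norm_num)
    have h4 : (1 : ℝ) * Real.log 2 ≤ K * lX := mul_le_mul hK hl (by linarith) (by linarith)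
    linarith
  have h5 : -(1 / 2) ≤ Real.log (0.69 : ℝ) := by
    rw [Real.le_log_iff_exp_le (by norm_num), Real.exp_neg]
    have h6 : (1.5 : ℝ) ≤ Real.exp (1 / 2) := by
      have := Real.add_one_le_exp (1 / 2 : ℝ)
      linarith
    calc (Real.exp (1 / 2))⁻¹ ≤ (1.5 : ℝ)⁻¹ := inv_anti₀ (by norm_num) h6
      _ ≤ 0.69 := by norm_num
  linarith

/-- **lacunary partners** -/
theorem lac_partner (ε : ℝ) (hε : 0 < ε) (hε1 : ε ≤ 1) : ∃ c : ℝ, 0 < c ∧
    ∀ (F V : Type) [Field F] [AddCommGroup V] [Module F V] [DecidableEq V] (σ : F →+* ℂ)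
      (A B : Finset V) (K : ℝ) (p : ℕ → F) (t : ℕ → V), 2 ≤ A.card → B.Nonempty → 1 ≤ K →
      2 * K ≤ (A.card : ℝ) ^ (ε / 2) → 5 ≤ |Real.log ‖σ (p 0)‖| →
      (∀ j, 4 * |Real.log ‖σ (p j)‖| ≤ |Real.log ‖σ (p (j + 1))‖|) →
      ∀ J : Finset ℕ, ((J.biUnion fun j => A.image fun a => p j • a + t j).card : ℝ) ≤ K * A.card →
      c * K ^ 2 * (1 + Real.log (K * Real.log (A.card : ℝ))) < (J.card : ℝ) →
      ((A.card : ℝ) * B.card) ^ (1 - ε) < ((A + B).card : ℝ) := by
  classical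
  obtain ⟨c, hc, h⟩ := lac_main ε hε hε1
  refine ⟨12 * c, by positivity, ?_⟩
  intro F V _ _ _ _ σ A B K p t hA hB hK hKA hp0 hp J hU hJ
  by_contra hcon
  have hcon := not_lt.1 hcon
  have hchar : CharZero F := RingHom.charZero σ
  have hA2 : (2 : ℝ) ≤ A.card := by exact_mod_cast hA
  have hAne : A.Nonempty := card_pos.1 (by omega)
  have hl2 : Real.log 2 ≤ Real.log (A.card : ℝ) := Real.log_le_log (by norm_num) hA2
  have hlog2 := Real.log_two_gt_d9
  have hlog2' := Real.log_two_lt_d9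
  have hx := log_klog hK hl2
  have hK0 : 0 < K := by linarith
  -- the scalars are different from zero
  have hpos : ∀ j, 0 < ‖σ (p j)‖ := by
    have hbig : ∀ j, 5 ≤ |Real.log ‖σ (p j)‖| := by
      intro j
      induction j with
      | zero => exact hp0
      | succ j ih => linarith [hp j]
    intro j
    by_contra hc
    have h1 : ‖σ (p j)‖ = 0 := le_antisymm (not_lt.1 hc) (norm_nonneg _)
    have h2 := hbig j
    rw [h1, Real.log_zero, abs_zero] at h2
    linarith
  have hpne : ∀ j, p j ≠ 0 := by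
    intro j h1
    have := hpos j
    rw [h1, map_zero, norm_zero] at this
    exact lt_irrefl _ this
  obtain ⟨_, hsm⟩ := lac_scales hpos hp0 hp
  set u : ℕ → Fˣ := fun j => Units.mk0 (p j) (hpne j) with hu
  have huinj : Function.Injective u := by
    intro a b hab
    apply hsm.injective
    have h1 : p a = p b := by
      have := congrArg Units.val hab
      simpa [hu] using this
    show Int.log 3 |((Int.log 3 ‖σ (p a)‖ : ℤ) : ℝ)| = Int.log 3 |((Int.log 3 ‖σ (p b)‖ : ℤ) : ℝ)|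
    rw [h1]
  set P : Finset Fˣ := J.image u with hP
  have hPc : P.card = J.card := card_image_of_injective _ huinj
  have hex : ∀ q : Fˣ, ∃ j : ℕ, q ∈ P → j ∈ J ∧ u j = q := by
    intro q
    by_cases hq : q ∈ P
    · obtain ⟨j, h1, h2⟩ := mem_image.1 hq
      exact ⟨j, fun _ => ⟨h1, h2⟩⟩
    · exact ⟨0, fun h' => absurd h' hq⟩
  choose jd hjd using hex
  have hjdu : ∀ j ∈ J, jd (u j) = j := by
    intro j hj
    exact huinj (hjd (u j) (mem_image_of_mem _ hj)).2
  have hJ0 : (0 : ℝ) < J.card := by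
    refine lt_of_le_of_lt ?_ hJ
    have : 0 ≤ 1 + Real.log (K * Real.log (A.card : ℝ)) := by linarith
    positivity
  have hPne : P.Nonempty := card_pos.1 (by rw [hPc]; exact_mod_cast hJ0)
  set t' : Fˣ → V := fun q => t (jd q) with ht'
  obtain ⟨q, hq, h1⟩ := partner_pop3 hAne hPne t' hK (by
    refine le_trans (Nat.cast_le.2 (card_le_card ?_)) hU
    intro x hx
    obtain ⟨q, hq, hxq⟩ := mem_biUnion.1 hx
    obtain ⟨j, hj, rfl⟩ := mem_image.1 hq
    refine mem_biUnion.2 ⟨j, hj, ?_⟩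
    obtain ⟨a, ha, rfl⟩ := mem_image.1 hxq
    refine mem_image.2 ⟨a, ha, ?_⟩
    simp only [ht', hjdu j hj]
    rfl)
  -- the bad inverses
  set J' : Finset ℕ := J.filter fun j => (A.card : ℝ) ≤ 2 * K * ((A.filter fun a =>
        ((u j : Fˣ) : F)⁻¹ • ((q : F) • a + t' q - t' (u j)) ∈ A).card : ℝ) with hJ'
  have h2 : (P.filter fun p : Fˣ => (A.card : ℝ) ≤ 2 * K * ((A.filter fun a =>
        (p : F)⁻¹ • ((q : F) • a + t' q - t' p) ∈ A).card : ℝ)).card ≤ J'.card := by
    have h3 : (P.filter fun p : Fˣ => (A.card : ℝ) ≤ 2 * K * ((A.filter fun a =>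
        (p : F)⁻¹ • ((q : F) • a + t' q - t' p) ∈ A).card : ℝ)) ⊆ J'.image u := by
      intro x hx
      obtain ⟨h4, h5⟩ := mem_filter.1 hx
      obtain ⟨j, hj, rfl⟩ := mem_image.1 h4
      exact mem_image_of_mem _ (mem_filter.2 ⟨hj, h5⟩)
    exact (card_le_card h3).trans card_image_le
  have h3 : (J.card : ℝ) ≤ 2 * K * J'.card := by
    rw [← hPc]
    refine h1.trans (mul_le_mul_of_nonneg_left (by exact_mod_cast h2) (by positivity))
  have hq0 : (q : F) ≠ 0 := Units.ne_zero q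
  have h4 := h F V σ ((q : F)⁻¹ • B) A (2 * K) (fun j => (p j)⁻¹) hA hB.smul_finset
    (by linarith) hKA (by
      rw [map_inv₀, norm_inv, Real.log_inv, abs_neg]
      exact hp0) (by
      intro j
      rw [map_inv₀, norm_inv, Real.log_inv, abs_neg, map_inv₀, norm_inv, Real.log_inv, abs_neg]
      exact hp j) J' (by
      intro j hj
      obtain ⟨hjJ, h5⟩ := mem_filter.1 hj
      refine ⟨_, filter_subset _ _, h5, ?_⟩
      have h6 := partner_fam A B t' (u j) q
      have e1 : (p j)⁻¹ • (A.filter fun a =>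
          ((u j : Fˣ) : F)⁻¹ • ((q : F) • a + t' q - t' (u j)) ∈ A) + (q : F)⁻¹ • B =
          (q : F)⁻¹ • (((((u j)⁻¹ * q : Fˣ) : F) • (A.filter fun a =>
          ((u j : Fˣ) : F)⁻¹ • ((q : F) • a + t' q - t' (u j)) ∈ A)) + B) := by
        rw [smul_add, smul_smul]
        congr 2
        rw [Units.val_mul, Units.val_inv_eq_inv_val]
        show (p j)⁻¹ = (q : F)⁻¹ * ((p j)⁻¹ * (q : F))
        field_simp
      rw [e1, card_smul_finset₀ (inv_ne_zero hq0)]
      rw [card_smul_finset₀ (inv_ne_zero hq0)]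
      exact le_trans (by exact_mod_cast h6) hcon)
  have h5 : Real.log (2 * K * Real.log (A.card : ℝ)) =
      Real.log 2 + Real.log (K * Real.log (A.card : ℝ)) := by
    have h6 : 0 < Real.log (A.card : ℝ) := by linarith
    rw [mul_assoc, Real.log_mul (by norm_num) (by positivity)]
  rw [h5] at h4
  set x := Real.log (K * Real.log (A.card : ℝ)) with hxd
  have h6 : 1 + (Real.log 2 + x) ≤ 3 * (1 + x) := by linarith
  have h7 : (J'.card : ℝ) ≤ c * (2 * K) * (3 * (1 + x)) :=
    h4.trans (mul_le_mul_of_nonneg_left h6 (by positivity))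
  have h8 : 2 * K * (J'.card : ℝ) ≤ 2 * K * (c * (2 * K) * (3 * (1 + x))) :=
    mul_le_mul_of_nonneg_left h7 (by positivity)
  have h9 : 2 * K * (c * (2 * K) * (3 * (1 + x))) = 12 * c * K ^ 2 * (1 + x) := by ring
  linarith

end Pool.Agent.H85.AK
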