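import Pool.Agent.H85.AK.Lac7

/-!
Lacunary slopes, dense subsets of Cartesian products.
-/

set_option autoImplicit false

namespace Pool.Agent.H85.AK

open Finset
open scoped Classical

theorem ct_le_of {α β κ : Type*} {E Ω : Finset α} {f : α → β} {g : α → κ} {a : α} (hE : E ⊆ Ω)
    (h : ∀ b ∈ E, f b = f a → g b = g a) : ct E f a ≤ ct Ω g a := by
  unfold ct cv
  apply Nat.cast_le.2
  apply card_le_card
  intro b hb
  obtain ⟨h1, h2⟩ := mem_filter.1 hb
  exact mem_filter.2 ⟨hE h1, h b h1 h2⟩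

/-- dense subsets of `X × Y`, lacunary scales -/
theorem lac_dense0 {ε K : ℝ} (hε : 0 < ε) (hε1 : ε ≤ 1) (hK : 1 ≤ K) : ∃ c : ℝ, 0 < c ∧
    ∀ (F : Type) [Field F] (σ : F →+* ℂ) (X Y : Finset F) (J : Finset ℤ)
      (r : ℤ → F) (E : ℤ → Finset (F × F)), 2 ≤ X.card → Y.Nonempty →
      K ≤ ((X.card : ℝ) * Y.card) ^ (ε / 2) → (∀ i ∈ J, i ≠ 0) →
      Set.InjOn (fun i : ℤ => Int.log 3 |(i : ℝ)|) (J : Set ℤ) →
      (∀ i ∈ J, (3 : ℝ) ^ i ≤ ‖σ (r i)‖ ∧ ‖σ (r i)‖ < 3 ^ (i + 1)) →
      (∀ i ∈ J, E i ⊆ X ×ˢ Y ∧ (X.card : ℝ) * Y.card ≤ K * (E i).card ∧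
        (((E i).image fun s => r i * s.1 + s.2).card : ℝ) ≤
          ((X.card : ℝ) * Y.card) ^ (1 - ε)) →
      (J.card : ℝ) ≤ c * (1 + Real.log (Real.log (X.card : ℝ) + Real.log (Y.card : ℝ))) := by
  have hK0 : 0 < K := by linarith
  set δ : ℝ := ε / (640 * K) with hδ
  have hδ0 : 0 < δ := by positivity
  have hδ1 : δ ≤ 1 := by
    rw [hδ, div_le_one (by positivity)]
    linarith
  set C : ℝ := 2 + Real.exp (1 / δ) with hC
  have hC2 : 2 ≤ C := by
    have := Real.exp_pos (1 / δ)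
    linarith
  have hC0 : 0 < C := by linarith
  set κ : ℝ := ε / (1280 * C * K) with hκ
  have hκ0 : 0 < κ := by positivity
  have hκ1 : κ ≤ 1 := by
    rw [hκ, div_le_one (by positivity)]
    nlinarith
  set q : ℝ := 5 / κ with hq
  have hq5 : 5 ≤ q := by
    rw [hq, le_div_iff₀ hκ0]
    linarith
  have hq0 : 0 < q := by linarith
  have hlq : 1 ≤ Real.log q := by
    rw [Real.le_log_iff_exp_le hq0]
    have := Real.exp_one_lt_d9
    linarith
  set c1 : ℝ := 4 * K / ε * 14080 * C * q with hc1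
  have hc10 : 0 < c1 := by positivity
  refine ⟨2 * c1 * Real.log q, by positivity, ?_⟩
  intro F _ σ X Y J r E hX hY hKX h0 hinj hr hE
  have hx2 : (2 : ℝ) ≤ X.card := by exact_mod_cast hX
  have hx0 : (0 : ℝ) < X.card := by linarith
  have hy1 : (1 : ℝ) ≤ Y.card := by exact_mod_cast card_pos.2 hY
  have hy0 : (0 : ℝ) < Y.card := by linarith
  set lX : ℝ := Real.log (X.card : ℝ) with hlX
  set lY : ℝ := Real.log (Y.card : ℝ) with hlY
  have hl2 : Real.log 2 ≤ lX := Real.log_le_log (by norm_num) hx2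
  have hlog2 := Real.log_two_gt_d9
  have lY0 : 0 ≤ lY := Real.log_nonneg hy1
  set N : ℝ := (X.card : ℝ) * Y.card with hN
  have hN0 : 0 < N := by positivity
  have hlN : Real.log N = lX + lY := Real.log_mul hx0.ne' hy0.ne'
  set L : ℤ → F × F → F ⊕ (F × F) := fun i b =>
    if b ∈ E i then Sum.inl (r i * b.1 + b.2) else Sum.inr b with hL
  have low : ∀ i ∈ J, X.card * Y.card * (ε / (2 * K) * (lX + lY)) ≤
      ∑ a ∈ X ×ˢ Y, Real.log (ct (X ×ˢ Y) (L i) a) := by
    intro i hi
    obtain ⟨h1, h2, h3⟩ := hE i hi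
    have he0 : (0 : ℝ) < (E i).card := by
      by_contra hc
      have : ((E i).card : ℝ) = 0 := le_antisymm (not_lt.1 hc) (Nat.cast_nonneg _)
      rw [this, mul_zero] at h2
      linarith
    have hene : (E i).Nonempty := card_pos.1 (by exact_mod_cast he0)
    have h4 := image_log hene (z := fun b : F × F => r i * b.1 + b.2) h3
    have h5 : ∑ a ∈ E i, Real.log (ct (E i) (fun b : F × F => r i * b.1 + b.2) a) ≤
        ∑ a ∈ X ×ˢ Y, Real.log (ct (X ×ˢ Y) (L i) a) := by
      refine le_trans (sum_le_sum fun a ha => ?_) (sum_le_sum_of_subset_of_nonneg h1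
        fun a ha _ => log_ct_nonneg _ ha)
      apply Real.log_le_log (ct_pos _ ha)
      refine ct_le_of h1 fun b h6 h7 => ?_
      simp only [hL]
      rw [if_pos h6, if_pos ha]
      exact congrArg Sum.inl h7
    refine le_trans ?_ (h4.trans h5)
    rw [Real.log_rpow hN0, hlN]
    have h6 : lX + lY - Real.log K ≤ Real.log ((E i).card : ℝ) := by
      have h7 := Real.log_le_log hN0 h2
      rw [Real.log_mul hK0.ne' he0.ne', hlN] at h7
      linarith
    have h7 : Real.log K ≤ ε / 2 * (lX + lY) := by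
      rw [← hlN, ← Real.log_rpow hN0]
      exact Real.log_le_log hK0 hKX
    have h8 : ε / 2 * (lX + lY) ≤ Real.log ((E i).card : ℝ) - (1 - ε) * (lX + lY) := by
      nlinarith
    calc X.card * Y.card * (ε / (2 * K) * (lX + lY))
        = N / K * (ε / 2 * (lX + lY)) := by
          rw [hN]
          field_simp
      _ ≤ (E i).card * (ε / 2 * (lX + lY)) := by
          apply mul_le_mul_of_nonneg_right _ (by positivity)
          rw [div_le_iff₀ hK0]
          linarith
      _ ≤ _ := mul_le_mul_of_nonneg_left h8 he0.le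
  have key := lac_count (δ := δ) (κ := κ) (K := 1) (β := ε / (2 * K) * (lX + lY))
    hδ0 hδ1 hκ0 hκ1 le_rfl σ X Y hX hY J h0 hinj L (fun _ => X) (fun i _ => Subset.refl X)
    (fun i _ => by rw [one_mul]) (by
      intro i hi a ha b hb hlab
      simp only [hL] at hlab
      by_cases h1 : b ∈ E i
      · by_cases h2 : a ∈ E i
        · rw [if_pos h1, if_pos h2] at hlab
          have h5 := fibre_norm σ (Sum.inl.inj hlab)
          obtain ⟨l1, l2⟩ := hr i hi
          rw [h5]
          exact ⟨mul_le_mul_of_nonneg_right l1 (norm_nonneg _),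
            mul_le_mul_of_nonneg_right l2.le (norm_nonneg _)⟩
        · rw [if_pos h1, if_neg h2] at hlab
          cases hlab
      · by_cases h2 : a ∈ E i
        · rw [if_neg h1, if_pos h2] at hlab
          cases hlab
        · rw [if_neg h1, if_neg h2] at hlab
          have h3 := Sum.inr.inj hlab
          rw [h3, sub_self, sub_self, map_zero, norm_zero]
          simp) low
  rw [← hC, ← hlX, ← hlY] at key
  set Λ : ℝ := lX + lY with hΛ
  have hΛ2 : Real.log 2 ≤ Λ := by linarith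
  have hΛ0 : 0 < Λ := by linarith
  have e1 : ε / (2 * K) * Λ - (80 * δ + 160 * C * κ) * Λ = ε / (4 * K) * Λ := by
    rw [hδ, hκ]
    field_simp
    ring
  have e2 : 5 * 1 / κ * Λ = q * Λ := by
    rw [hq, mul_one]
  rw [e1, e2] at key
  have h1 : (J.card : ℝ) ≤ c1 * Real.log (q * Λ) := by
    have h2 : J.card * (ε / (4 * K) * Λ) ≤ (c1 * Real.log (q * Λ)) * (ε / (4 * K) * Λ) := by
      refine key.trans (le_of_eq ?_)
      rw [hc1]
      field_simp
    exact le_of_mul_le_mul_right h2 (by positivity)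
  have hx := log_klog (K := 1) le_rfl hΛ2
  rw [one_mul] at hx
  rw [Real.log_mul hq0.ne' hΛ0.ne'] at h1
  have h3 : Real.log q + Real.log Λ ≤ 2 * Real.log q * (1 + Real.log Λ) := by nlinarith
  calc (J.card : ℝ) ≤ c1 * (Real.log q + Real.log Λ) := h1
    _ ≤ c1 * (2 * Real.log q * (1 + Real.log Λ)) := mul_le_mul_of_nonneg_left h3 hc10.le
    _ = 2 * c1 * Real.log q * (1 + Real.log Λ) := by ring

/-- **dense subsets of Cartesian products, lacunary slopes** -/
theorem lac_dense (ε K : ℝ) (hε : 0 < ε) (hε1 : ε ≤ 1) (hK : 1 ≤ K) : ∃ c : ℝ, 0 < c ∧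
    ∀ (F V : Type) [Field F] [AddCommGroup V] [Module F V] [DecidableEq V] (σ : F →+* ℂ)
      (X Y : Finset V) (r : ℕ → F), X.Nonempty → 2 ≤ Y.card →
      K ≤ ((X.card : ℝ) * Y.card) ^ (ε / 2) → 5 ≤ |Real.log ‖σ (r 0)‖| →
      (∀ j, 4 * |Real.log ‖σ (r j)‖| ≤ |Real.log ‖σ (r (j + 1))‖|) →
      ∀ (J : Finset ℕ), (∀ j ∈ J, ∃ E ⊆ X ×ˢ Y, (X.card : ℝ) * Y.card ≤ K * (E.card : ℝ) ∧
        ((E.image fun e : V × V => e.1 + r j • e.2).card : ℝ) ≤
          ((X.card : ℝ) * Y.card) ^ (1 - ε)) →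
      (J.card : ℝ) ≤ c * (1 + Real.log (Real.log ((X.card : ℝ) * Y.card))) := by
  obtain ⟨c, hc, h⟩ := lac_dense0 hε hε1 hK
  refine ⟨c, hc, ?_⟩
  intro F V _ _ _ _ σ X Y r hX hY hKC hr0 hr J hJ
  have hchar : CharZero F := RingHom.charZero σ
  have hinf : Infinite F := Infinite.of_injective (fun n : ℕ => (n : F)) Nat.cast_injective
  have hpos : ∀ j, 0 < ‖σ (r j)‖ := by
    have hbig : ∀ j, 5 ≤ |Real.log ‖σ (r j)‖| := by
      intro j
      induction j with
      | zero => exact hr0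
      | succ j ih => linarith [hr j]
    intro j
    by_contra hc
    have h1 : ‖σ (r j)‖ = 0 := le_antisymm (not_lt.1 hc) (norm_nonneg _)
    have h2 := hbig j
    rw [h1, Real.log_zero, abs_zero] at h2
    linarith
  obtain ⟨hs0, hsm⟩ := lac_scales hpos hr0 hr
  set sc : ℕ → ℤ := fun j => Int.log 3 ‖σ (r j)‖ with hsc
  have hsc_inj : Function.Injective sc := by
    intro a b hab
    apply hsm.injective
    show Int.log 3 |((sc a : ℤ) : ℝ)| = Int.log 3 |((sc b : ℤ) : ℝ)|
    rw [hab]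
  obtain ⟨f, hfX, hfY⟩ := exists_dual_inj (F := F) X Y
  have hXc : (X.image f).card = X.card := card_image_of_injOn hfX
  have hYc : (Y.image f).card = Y.card := card_image_of_injOn hfY
  choose! D hD using hJ
  have hex : ∀ i : ℤ, ∃ j : ℕ, i ∈ J.image sc → j ∈ J ∧ sc j = i := by
    intro i
    by_cases hi : i ∈ J.image sc
    · obtain ⟨j, h1, h2⟩ := mem_image.1 hi
      exact ⟨j, fun _ => ⟨h1, h2⟩⟩
    · exact ⟨0, fun h' => absurd h' hi⟩
  choose jd hjd using hex
  set φ : V × V → F × F := fun e => (f e.2, f e.1) with hφ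
  have hφinj : ∀ E ⊆ X ×ˢ Y, Set.InjOn φ (E : Set (V × V)) := by
    intro E hE a ha b hb hab
    simp only [hφ, Prod.mk.injEq] at hab
    have ha' := mem_product.1 (hE (mem_coe.1 ha))
    have hb' := mem_product.1 (hE (mem_coe.1 hb))
    exact Prod.ext (hfX ha'.1 hb'.1 hab.2) (hfY ha'.2 hb'.2 hab.1)
  have key := h F σ (Y.image f) (X.image f) (J.image sc) (fun i => r (jd i))
    (fun i => (D (jd i)).image φ) (by rw [hYc]; exact hY) (hX.image f)
    (by rw [hXc, hYc, mul_comm]; exact hKC)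
    (by
      intro i hi
      obtain ⟨j, _, rfl⟩ := mem_image.1 hi
      exact hs0 j)
    (by
      intro a ha b hb hab
      obtain ⟨j, _, rfl⟩ := mem_image.1 (mem_coe.1 ha)
      obtain ⟨j', _, rfl⟩ := mem_image.1 (mem_coe.1 hb)
      have := hsm.injective hab
      rw [this])
    (by
      intro i hi
      have h2 := (hjd i hi).2
      have l1 := Int.zpow_log_le_self (b := 3) (by norm_num) (hpos (jd i))
      have l2 := Int.lt_zpow_succ_log_self (b := 3) (by norm_num) ‖σ (r (jd i))‖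
      rw [show Int.log 3 ‖σ (r (jd i))‖ = i from h2] at l1 l2
      exact ⟨by exact_mod_cast l1, by exact_mod_cast l2⟩)
    (by
      intro i hi
      obtain ⟨h1, _⟩ := hjd i hi
      obtain ⟨h3, h4, h5⟩ := hD (jd i) h1
      refine ⟨?_, ?_, ?_⟩
      · intro z hz
        obtain ⟨e, he, rfl⟩ := mem_image.1 hz
        have he' := mem_product.1 (h3 he)
        exact mem_product.2 ⟨mem_image_of_mem _ he'.2, mem_image_of_mem _ he'.1⟩
      · rw [hXc, hYc, card_image_of_injOn (hφinj _ h3), mul_comm]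
        exact h4
      · rw [hXc, hYc, mul_comm (Y.card : ℝ)]
        refine le_trans (Nat.cast_le.2 ?_) h5
        rw [image_image]
        have h6 : ((D (jd i)).image ((fun s : F × F => r (jd i) * s.1 + s.2) ∘ φ)) ⊆
            ((D (jd i)).image fun e : V × V => e.1 + r (jd i) • e.2).image f := by
          intro u hu
          obtain ⟨e, he, rfl⟩ := mem_image.1 hu
          refine mem_image.2 ⟨_, mem_image_of_mem _ he, ?_⟩
          simp only [hφ, Function.comp_apply, map_add, map_smul, smul_eq_mul]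
          ring
        exact (card_le_card h6).trans card_image_le)
  rw [card_image_of_injective _ hsc_inj, hXc, hYc] at key
  have hx0 : (X.card : ℝ) ≠ 0 := by
    have := card_pos.2 hX
    positivity
  have hy0 : (Y.card : ℝ) ≠ 0 := by
    have : 0 < Y.card := by omega
    positivity
  rw [Real.log_mul hx0 hy0, add_comm (Real.log (X.card : ℝ))]
  exact key

end Pool.Agent.H85.AK
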