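import Pool.Agent.H85.AK.Mon

/-!
Popular scalars: linear dependence on the popularity.
-/

set_option autoImplicit false

namespace Pool.Agent.H85.AK

open Finset

section vals

open scoped Classical

/-- **the sum over the scalars, with subsets** -/
theorem val_sum' (hlev : Stmt2.S_levels) {F : Type} [Field F] {Γ₀ : Type}
    [LinearOrderedCommGroupWithZero Γ₀] {δ : ℝ} (hδ : 0 < δ) (hδ1 : δ ≤ 1) (v : Valuation F Γ₀)
    (X Y : Finset F) {ι : Type*} (J : Finset ι) (r : ι → F) (hr : ∀ i ∈ J, r i ≠ 0)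
    (hinj : Set.InjOn (fun i => v (r i)) (J : Set ι)) (Z : ι → Finset F) (hZ : ∀ i ∈ J, Z i ⊆ X) :
    ∑ i ∈ J, ∑ a ∈ Z i ×ˢ Y, Real.log (ct (Z i ×ˢ Y) (fun b => r i * b.1 + b.2) a) ≤
      80 * δ * ∑ i ∈ J, (Z i).card * Y.card * (Real.log (X.card : ℝ) + Real.log (Y.card : ℝ)) +
      800 * (2 + Real.exp (1 / δ)) * ((X.card * Real.log (X.card : ℝ)) *
        (Y.card * Real.log (Y.card : ℝ))) := by
  set MX : ℝ := X.card * Real.log (X.card : ℝ) with hMX
  set MY : ℝ := Y.card * Real.log (Y.card : ℝ) with hMY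
  have hMX0 : 0 ≤ MX := by
    have := Real.log_natCast_nonneg X.card
    positivity
  have hMY0 : 0 ≤ MY := by
    have := Real.log_natCast_nonneg Y.card
    positivity
  set C : ℝ := 2 + Real.exp (1 / δ) with hC
  have hC0 : 0 ≤ C := by positivity
  set Φ : Finset Γ₀ := ((Y ×ˢ Y).filter fun c => c.1 ≠ c.2).image fun c => v (c.2 - c.1) with hΦ
  have hΦ0 : ∀ γ ∈ Φ, γ ≠ 0 := by
    intro γ hγ
    obtain ⟨c, hc, rfl⟩ := mem_image.1 hγ
    exact (Valuation.ne_zero_iff v).2 (sub_ne_zero.2 (mem_filter.1 hc).2.symm)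
  have hmem : ∀ i, ∀ a ∈ Z i ×ˢ Y, ∀ b ∈ Z i ×ˢ Y, a.2 ≠ b.2 → v (b.2 - a.2) ∈ Φ := by
    intro i a ha b hb hab
    exact mem_image.2 ⟨(a.2, b.2), mem_filter.2 ⟨mem_product.2 ⟨(mem_product.1 ha).2,
      (mem_product.1 hb).2⟩, hab⟩, rfl⟩
  have hv0 : ∀ i ∈ J, v (r i) ≠ 0 := fun i hi => (Valuation.ne_zero_iff v).2 (hr i hi)
  -- one scalar
  have one : ∀ i ∈ J, ∑ a ∈ Z i ×ˢ Y, Real.log (ct (Z i ×ˢ Y) (fun b => r i * b.1 + b.2) a) ≤
      ∑ γ ∈ Φ, (δ * (Y.card * hv v (Z i) (γ / v (r i)) + (Z i).card * hv v Y γ) +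
      C * (wv v Y γ * hv v X (γ / v (r i)) + wv v X (γ / v (r i)) * hv v Y γ)) := by
    intro i hi
    rw [sum_congr rfl fun a ha => val_fibre hlev v (hr i hi) hΦ0 (hmem i) ha, sum_comm]
    apply sum_le_sum
    intro γ _
    refine (val_cell hδ hδ1 v (Z i) Y (r i) γ).trans ?_
    apply add_le_add le_rfl
    apply mul_le_mul_of_nonneg_left _ hC0
    apply add_le_add
    · exact mul_le_mul_of_nonneg_left (hs_mono (hZ i hi) (ref_ball v X _)) (wv_nonneg _ _ _)
    · exact mul_le_mul_of_nonneg_right (ws_mono (hZ i hi) _ _) (hv_nonneg _ _ _)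
  refine (sum_le_sum one).trans ?_
  set SS : ℝ := ∑ i ∈ J, (Z i).card * Y.card * (Real.log (X.card : ℝ) + Real.log (Y.card : ℝ))
    with hSS
  have hSS0 : 0 ≤ SS := by
    apply sum_nonneg
    intro i _
    have := Real.log_natCast_nonneg X.card
    have := Real.log_natCast_nonneg Y.card
    positivity
  have t1 : ∑ i ∈ J, ∑ γ ∈ Φ, (Y.card * hv v (Z i) (γ / v (r i)) + (Z i).card * hv v Y γ) ≤
      SS := by
    rw [hSS]
    apply sum_le_sum
    intro i hi
    rw [sum_add_distrib, ← mul_sum, ← mul_sum]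
    have b1 : ∑ γ ∈ Φ, hv v (Z i) (γ / v (r i)) ≤ (Z i).card * Real.log (X.card : ℝ) := by
      refine (hv_sum hlev v (Z i) Φ (fun γ => γ / v (r i)) ?_).trans ?_
      · intro x _ y _ h
        exact (div_left_inj' (hv0 i hi)).1 h
      · rcases (Z i).eq_empty_or_nonempty with h0 | h0
        · rw [h0, card_empty]
          simp
        · apply mul_le_mul_of_nonneg_left _ (Nat.cast_nonneg _)
          apply Real.log_le_log
          · exact_mod_cast card_pos.2 h0
          · exact_mod_cast card_le_card (hZ i hi)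
    have b2 : ∑ γ ∈ Φ, hv v Y γ ≤ MY := hv_sum hlev v Y Φ id (Set.injOn_id _)
    have c1 := mul_le_mul_of_nonneg_left b1 (Nat.cast_nonneg Y.card : (0 : ℝ) ≤ Y.card)
    have c2 := mul_le_mul_of_nonneg_left b2 (Nat.cast_nonneg (Z i).card : (0 : ℝ) ≤ (Z i).card)
    refine (add_le_add c1 c2).trans (le_of_eq ?_)
    rw [hMY]
    ring
  have inj2 : ∀ γ ∈ Φ, Set.InjOn (fun i => γ / v (r i)) (J : Set ι) := by
    intro γ hγ x hx y hy h
    apply hinj hx hy
    simp only at h ⊢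
    have h1 := hΦ0 γ hγ
    have hx0 := hv0 x hx
    have hy0 := hv0 y hy
    rw [div_eq_div_iff hx0 hy0] at h
    exact (mul_left_cancel₀ h1 h).symm
  have t2 : ∑ i ∈ J, ∑ γ ∈ Φ, wv v Y γ * hv v X (γ / v (r i)) ≤ MY * MX := by
    rw [sum_comm]
    calc ∑ γ ∈ Φ, ∑ i ∈ J, wv v Y γ * hv v X (γ / v (r i))
        ≤ ∑ γ ∈ Φ, wv v Y γ * MX := by
          apply sum_le_sum
          intro γ hγ
          rw [← mul_sum]
          exact mul_le_mul_of_nonneg_left (hv_sum hlev v X J _ (inj2 γ hγ)) (wv_nonneg _ _ _)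
      _ ≤ MY * MX := by
          rw [← sum_mul]
          apply mul_le_mul_of_nonneg_right _ hMX0
          exact wv_sum hlev v Y Φ id (Set.injOn_id _)
  have t3 : ∑ i ∈ J, ∑ γ ∈ Φ, wv v X (γ / v (r i)) * hv v Y γ ≤ MX * MY := by
    rw [sum_comm]
    calc ∑ γ ∈ Φ, ∑ i ∈ J, wv v X (γ / v (r i)) * hv v Y γ
        ≤ ∑ γ ∈ Φ, MX * hv v Y γ := by
          apply sum_le_sum
          intro γ hγ
          rw [← sum_mul]
          exact mul_le_mul_of_nonneg_right (wv_sum hlev v X J _ (inj2 γ hγ)) (hv_nonneg _ _ _)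
      _ ≤ MX * MY := by
          rw [← mul_sum]
          apply mul_le_mul_of_nonneg_left _ hMX0
          exact hv_sum hlev v Y Φ id (Set.injOn_id _)
  have e : ∑ i ∈ J, ∑ γ ∈ Φ, (δ * (Y.card * hv v (Z i) (γ / v (r i)) + (Z i).card * hv v Y γ) +
      C * (wv v Y γ * hv v X (γ / v (r i)) + wv v X (γ / v (r i)) * hv v Y γ)) =
      δ * ∑ i ∈ J, ∑ γ ∈ Φ, (Y.card * hv v (Z i) (γ / v (r i)) + (Z i).card * hv v Y γ) +
      C * (∑ i ∈ J, ∑ γ ∈ Φ, wv v Y γ * hv v X (γ / v (r i)) +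
        ∑ i ∈ J, ∑ γ ∈ Φ, wv v X (γ / v (r i)) * hv v Y γ) := by
    simp only [sum_add_distrib, mul_sum, mul_add]
  rw [e]
  have h1 := mul_le_mul_of_nonneg_left t1 hδ.le
  have h2 := mul_le_mul_of_nonneg_left (add_le_add t2 t3) hC0
  refine (add_le_add h1 h2).trans ?_
  have h3 : δ * SS ≤ 80 * δ * SS := by
    have : 0 ≤ δ * SS := mul_nonneg hδ.le hSS0
    linarith
  have h4 : C * (MY * MX + MX * MY) ≤ 800 * C * (MX * MY) := by
    have h5 : 0 ≤ C * (MX * MY) := by positivity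
    have e5 : C * (MY * MX + MX * MY) = 2 * (C * (MX * MY)) := by ring
    have e6 : 800 * C * (MX * MY) = 800 * (C * (MX * MY)) := by ring
    rw [e5, e6]
    linarith
  exact add_le_add h3 h4

end vals

open scoped Pointwise

/-- few values: large fibres -/
theorem image_log {α ζ : Type*} [DecidableEq ζ] {Ω : Finset α} (hΩ : Ω.Nonempty) {z : α → ζ} {D : ℝ}
    (hD : ((Ω.image z).card : ℝ) ≤ D) :
    (Ω.card : ℝ) * (Real.log (Ω.card : ℝ) - Real.log D) ≤ ∑ a ∈ Ω, Real.log (ct Ω z a) := by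
  classical
  have hDpos : 0 < (Ω.image z).card := card_pos.2 (hΩ.image z)
  have h1 : hh Ω z ≤ Ω.card * Real.log ((Ω.image z).card : ℕ) := by
    apply hh_le_card hDpos
    refine le_of_eq ?_
    congr 1
    ext w
    simp only [mem_image]
  have h2 : hh Ω z = Ω.card * Real.log (Ω.card : ℝ) - ∑ a ∈ Ω, Real.log (ct Ω z a) := by
    unfold hh
    rw [sum_sub_distrib, sum_const, nsmul_eq_mul]
  have h4 : Real.log ((Ω.image z).card : ℝ) ≤ Real.log D :=
    Real.log_le_log (by exact_mod_cast hDpos) hD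
  have h5 : (Ω.card : ℝ) * Real.log ((Ω.image z).card : ℝ) ≤ Ω.card * Real.log D :=
    mul_le_mul_of_nonneg_left h4 (Nat.cast_nonneg _)
  rw [mul_sub]
  linarith

/-- the deduction from the sum over the scales, with subsets -/
theorem coreP {ε : ℝ} (hε : 0 < ε) (hε1 : ε ≤ 1) {F : Type*} [Field F] [DecidableEq F]
    (A C B : Finset F) (K : ℝ) (hK : 1 ≤ K)
    (hKC : K ≤ (C.card : ℝ) ^ (ε / 2)) (hC : 2 ≤ C.card) (hB : B.Nonempty) {ι : Type*}
    (J : Finset ι) (r : ι → F)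
    (hsum : ∀ δ : ℝ, 0 < δ → δ ≤ 1 → ∀ Z : ι → Finset F, (∀ i ∈ J, Z i ⊆ C) →
      ∑ i ∈ J, ∑ a ∈ Z i ×ˢ B, Real.log (ct (Z i ×ˢ B) (fun b => r i * b.1 + b.2) a) ≤
      80 * δ * ∑ i ∈ J, (Z i).card * B.card * (Real.log (C.card : ℝ) + Real.log (B.card : ℝ)) +
      800 * (2 + Real.exp (1 / δ)) * ((C.card * Real.log (C.card : ℝ)) *
        (B.card * Real.log (B.card : ℝ))))
    (hR : ∀ i ∈ J, (C.card : ℝ) ≤ K * ((C.filter fun c => r i * c ∈ A).card : ℝ))
    (hJ : Real.exp (330 / ε) * K * Real.log (C.card : ℝ) < (J.card : ℝ)) :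
    ((C.card : ℝ) * B.card) ^ (1 - ε) < (((A ×ˢ B).image fun s => s.1 + s.2).card : ℝ) := by
  by_contra hcon
  push Not at hcon
  have hC2 : (2 : ℝ) ≤ C.card := by exact_mod_cast hC
  have hC0 : (0 : ℝ) < C.card := by linarith
  have hB1 : (1 : ℝ) ≤ B.card := by exact_mod_cast card_pos.2 hB
  have hB0 : (0 : ℝ) < B.card := by linarith
  have hK0 : 0 < K := by linarith
  set lc : ℝ := Real.log (C.card : ℝ) with hlc
  set lb : ℝ := Real.log (B.card : ℝ) with hlb
  have lc0 : 0 < lc := Real.log_pos (by linarith)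
  have lb0 : 0 ≤ lb := Real.log_nonneg hB1
  set N : ℝ := (C.card : ℝ) * B.card with hN
  have hN0 : 0 < N := by positivity
  have hlN : Real.log N = lc + lb := Real.log_mul hC0.ne' (by linarith)
  have hlK : Real.log K ≤ ε / 2 * lc := by
    rw [hlc, ← Real.log_rpow hC0]
    exact Real.log_le_log hK0 hKC
  set Z : ι → Finset F := fun i => C.filter fun c => r i * c ∈ A with hZ
  have hZc : ∀ i ∈ J, (C.card : ℝ) ≤ K * (Z i).card := hR
  -- the lower bound for one scale
  have low : ∀ i ∈ J, ε / 2 * ((Z i).card * B.card * (lc + lb)) ≤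
      ∑ a ∈ Z i ×ˢ B, Real.log (ct (Z i ×ˢ B) (fun b => r i * b.1 + b.2) a) := by
    intro i hi
    have hz0 : (0 : ℝ) < (Z i).card := by
      by_contra h
      have h0 : ((Z i).card : ℝ) = 0 := le_antisymm (not_lt.1 h) (Nat.cast_nonneg _)
      have h1 := hZc i hi
      rw [h0, mul_zero] at h1
      linarith
    have hzne : (Z i).Nonempty := card_pos.1 (by exact_mod_cast hz0)
    have h1 := image_log (Ω := Z i ×ˢ B) (hzne.product hB)
      (z := fun b : F × F => r i * b.1 + b.2) (D := N ^ (1 - ε)) (by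
        refine le_trans (Nat.cast_le.2 (card_le_card ?_)) hcon
        intro w hw
        obtain ⟨s, hs, rfl⟩ := mem_image.1 hw
        obtain ⟨h2, h3⟩ := mem_product.1 hs
        exact mem_image.2 ⟨(r i * s.1, s.2), mem_product.2 ⟨(mem_filter.1 h2).2, h3⟩, rfl⟩)
    refine le_trans ?_ h1
    rw [card_product]
    push_cast
    rw [Real.log_mul hz0.ne' hB0.ne', Real.log_rpow hN0, hlN]
    have h2 : lc ≤ Real.log K + Real.log ((Z i).card : ℝ) := by
      rw [← Real.log_mul hK0.ne' hz0.ne']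
      exact Real.log_le_log hC0 (hZc i hi)
    have h3 : ε / 2 * (lc + lb) ≤ Real.log ((Z i).card : ℝ) + lb - (1 - ε) * (lc + lb) := by
      have h4 : 0 ≤ ε / 2 * lb := by positivity
      nlinarith
    have h5 := mul_le_mul_of_nonneg_left h3 (show 0 ≤ ((Z i).card : ℝ) * B.card by positivity)
    refine le_trans (le_of_eq ?_) h5
    ring
  have h1 := sum_le_sum low
  rw [← mul_sum] at h1
  set x : ℝ := 1 / ε with hx
  have hx1 : 1 ≤ x := by
    rw [hx, le_div_iff₀ hε]
    linarith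
  have hx0 : 0 < x := by linarith
  have hδ : 1 / (1 / (320 * x)) = 320 * x := by
    field_simp
  have h2 := hsum (1 / (320 * x)) (by positivity) (by
    rw [div_le_one (by positivity)]
    linarith) Z (fun i _ => filter_subset _ _)
  rw [hδ] at h2
  have h3 := h1.trans h2
  set E : ℝ := 2 + Real.exp (320 * x) with hE
  have hE0 : 0 < E := by positivity
  set SS : ℝ := ∑ i ∈ J, (Z i).card * B.card * (lc + lb) with hSS
  have e1 : 80 * (1 / (320 * x)) = ε / 4 := by
    rw [hx]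
    field_simp
    norm_num
  rw [e1] at h3
  have h4 : ε / 4 * SS ≤ 800 * E * (N * (lc * lb)) := by
    have e2 : 800 * E * ((C.card * lc) * (B.card * lb)) = 800 * E * (N * (lc * lb)) := by
      rw [hN]
      ring
    rw [e2] at h3
    linarith
  have h5 : (J.card : ℝ) * (N / K) * (lc + lb) ≤ SS := by
    rw [hSS, mul_assoc, ← nsmul_eq_mul, ← sum_const]
    apply sum_le_sum
    intro i hi
    apply mul_le_mul_of_nonneg_right _ (by linarith)
    rw [div_le_iff₀ hK0, hN]
    have h6 := mul_le_mul_of_nonneg_right (hZc i hi) hB0.le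
    linarith
  have h6 : 800 * E * (N * (lc * lb)) ≤ 800 * E * (N * (lc * (lc + lb))) := by
    apply mul_le_mul_of_nonneg_left _ (by positivity)
    apply mul_le_mul_of_nonneg_left _ hN0.le
    apply mul_le_mul_of_nonneg_left _ lc0.le
    linarith
  have h7 : (ε / 4 * ((J.card : ℝ) * (N / K))) * (lc + lb) ≤ (800 * E * (N * lc)) * (lc + lb) := by
    have h8 := mul_le_mul_of_nonneg_left h5 (show 0 ≤ ε / 4 by positivity)
    have e2 : (ε / 4 * ((J.card : ℝ) * (N / K))) * (lc + lb) =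
        ε / 4 * ((J.card : ℝ) * (N / K) * (lc + lb)) := by ring
    have e3 : (800 * E * (N * lc)) * (lc + lb) = 800 * E * (N * (lc * (lc + lb))) := by ring
    rw [e2, e3]
    linarith
  have h8 := le_of_mul_le_mul_right h7 (by linarith)
  have h9 : (J.card : ℝ) ≤ 3200 * x * E * (K * lc) := by
    have e3 : 4 * x * K / N * (ε / 4 * ((J.card : ℝ) * (N / K))) = J.card := by
      rw [hx]
      field_simp
    have p0 : 0 ≤ 4 * x * K / N :=
      div_nonneg (mul_nonneg (mul_nonneg (by norm_num) hx0.le) hK0.le) hN0.le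
    have h8' := mul_le_mul_of_nonneg_left h8 p0
    rw [e3] at h8'
    refine h8'.trans (le_of_eq ?_)
    have e5 : 4 * x * K / N * (800 * E * (N * lc)) = (N / N) * (3200 * x * E * (K * lc)) := by ring
    rw [e5, div_self hN0.ne', one_mul]
  have h10 : 3200 * x * E * (K * lc) ≤ Real.exp (330 * x) * (K * lc) :=
    mul_le_mul_of_nonneg_right (exp_bound3 hx1) (by positivity)
  have e4 : 330 / ε = 330 * x := by
    rw [hx]
    ring
  rw [e4] at hJ
  linarith

/-- the passage to vector spaces -/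
theorem vecP {F V : Type*} [Field F] [Infinite F] [AddCommGroup V] [Module F V] [DecidableEq V]
    {ε : ℝ} {K : ℝ} (hK : 1 ≤ K) {ι : Type*} (J : Finset ι) (r : ι → F) (A C B : Finset V)
    (hB : B.Nonempty) (hR : ∀ i ∈ J, (C.card : ℝ) ≤ K * ((C.filter fun c => r i • c ∈ A).card : ℝ))
    (H : ∀ [DecidableEq F] (A' C' B' : Finset F), C'.card = C.card → B'.card = B.card →
      B'.Nonempty → (∀ i ∈ J, (C'.card : ℝ) ≤ K * ((C'.filter fun c => r i * c ∈ A').card : ℝ)) →
      ((C'.card : ℝ) * B'.card) ^ (1 - ε) < (((A' ×ˢ B').image fun s => s.1 + s.2).card : ℝ)) :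
    ((C.card : ℝ) * B.card) ^ (1 - ε) < ((A + B).card : ℝ) := by
  classical
  obtain ⟨f, hfC, hfB⟩ := exists_dual_inj (F := F) C B
  have hCc : (C.image f).card = C.card := card_image_of_injOn hfC
  have hBc : (B.image f).card = B.card := card_image_of_injOn hfB
  have key := H (A.image f) (C.image f) (B.image f) hCc hBc (hB.image f) (by
      intro i hi
      rw [hCc]
      refine (hR i hi).trans (mul_le_mul_of_nonneg_left (Nat.cast_le.2 ?_) (by linarith))
      apply card_le_card_of_injOn f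
      · intro c hc
        obtain ⟨h1, h2⟩ := mem_filter.1 hc
        refine mem_filter.2 ⟨mem_image_of_mem _ h1, ?_⟩
        have h3 : r i * f c = f (r i • c) := by
          rw [map_smul]
          rfl
        rw [h3]
        exact mem_image_of_mem _ h2
      · intro c hc c' hc' h
        exact hfC (mem_filter.1 hc).1 (mem_filter.1 hc').1 h)
  rw [hCc, hBc] at key
  refine lt_of_lt_of_le key (Nat.cast_le.2 ?_)
  have h1 : ((A.image f ×ˢ B.image f).image fun s => s.1 + s.2) ⊆ (A + B).image f := by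
    intro w hw
    obtain ⟨⟨x, y⟩, hxy, rfl⟩ := mem_image.1 hw
    obtain ⟨hx, hy⟩ := mem_product.1 hxy
    obtain ⟨a, ha, rfl⟩ := mem_image.1 hx
    obtain ⟨b, hb, rfl⟩ := mem_image.1 hy
    exact mem_image.2 ⟨a + b, add_mem_add ha hb, map_add _ _ _⟩
  exact (card_le_card h1).trans card_image_le

/-- **popular scalars, an archimedean place** -/
theorem arcP {ε : ℝ} (hε : 0 < ε) (hε1 : ε ≤ 1) {F V : Type*} [Field F] [AddCommGroup V]
    [Module F V] [DecidableEq V] (σ : F →+* ℂ) (A C B : Finset V) (K : ℝ) (hK : 1 ≤ K)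
    (hKC : K ≤ (C.card : ℝ) ^ (ε / 2)) (hC : 2 ≤ C.card) (hB : B.Nonempty) (J : Finset ℤ)
    (r : ℤ → F) (hr : ∀ i ∈ J, (3 : ℝ) ^ i ≤ ‖σ (r i)‖ ∧ ‖σ (r i)‖ < 3 ^ (i + 1))
    (hR : ∀ i ∈ J, (C.card : ℝ) ≤ K * ((C.filter fun c => r i • c ∈ A).card : ℝ))
    (hJ : Real.exp (330 / ε) * K * Real.log (C.card : ℝ) < (J.card : ℝ)) :
    ((C.card : ℝ) * B.card) ^ (1 - ε) < ((A + B).card : ℝ) := by
  have hchar : CharZero F := RingHom.charZero σ
  have hinf : Infinite F := Infinite.of_injective (fun n : ℕ => (n : F)) Nat.cast_injective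
  refine vecP hK J r A C B hB hR ?_
  intro _ A' C' B' hC' hB' hBne hR'
  refine coreP hε hε1 A' C' B' K hK (by rw [hC']; exact hKC) (by rw [hC']; exact hC) hBne J r
    (fun δ h1 h2 Z hZ => arc_sum' h1 h2 σ C' B' J r hr Z hZ) hR' (by rw [hC']; exact hJ)

/-- **popular scalars, an arbitrary valuation** -/
theorem valP (hlev : Stmt2.S_levels) {ε : ℝ} (hε : 0 < ε) (hε1 : ε ≤ 1) {F V : Type} [Field F]
    [AddCommGroup V] [Module F V] [DecidableEq V] {Γ₀ : Type} [LinearOrderedCommGroupWithZero Γ₀]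
    (v : Valuation F Γ₀) (A C B : Finset V) (K : ℝ) (hK : 1 ≤ K)
    (hKC : K ≤ (C.card : ℝ) ^ (ε / 2)) (hC : 2 ≤ C.card) (hB : B.Nonempty) (R : Finset F)
    (hR0 : ∀ r ∈ R, r ≠ 0) (hinj : Set.InjOn v (R : Set F))
    (hR : ∀ r ∈ R, (C.card : ℝ) ≤ K * ((C.filter fun c => r • c ∈ A).card : ℝ))
    (hJ : Real.exp (330 / ε) * K * Real.log (C.card : ℝ) < (R.card : ℝ)) :
    ((C.card : ℝ) * B.card) ^ (1 - ε) < ((A + B).card : ℝ) := by
  have hinf : Infinite F := by
    by_contra hfin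
    rw [not_infinite_iff_finite] at hfin
    have h1 : R.card ≤ 1 := by
      rw [card_le_one]
      intro a ha b hb
      apply hinj ha hb
      rw [val_one_of_finite v (hR0 a ha), val_one_of_finite v (hR0 b hb)]
    have h2 : (2 : ℝ) ≤ C.card := by exact_mod_cast hC
    have h3 : Real.log 2 ≤ Real.log (C.card : ℝ) := Real.log_le_log (by norm_num) h2
    have h4 := Real.log_two_gt_d9
    have h5 : 2 ≤ Real.exp (330 / ε) := by
      have h6 := Real.add_one_le_exp (330 / ε)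
      have h7 : (330 : ℝ) ≤ 330 / ε := by
        rw [le_div_iff₀ hε]
        linarith
      linarith
    have h6 : (R.card : ℝ) ≤ 1 := by exact_mod_cast h1
    have h7 : 2 * 1 * (1 / 2) ≤ Real.exp (330 / ε) * K * Real.log (C.card : ℝ) :=
      mul_le_mul (mul_le_mul h5 hK (by norm_num) (by positivity)) (by linarith) (by norm_num)
        (by positivity)
    linarith
  refine vecP hK R id A C B hB hR ?_
  intro _ A' C' B' hC' hB' hBne hR'
  refine coreP hε hε1 A' C' B' K hK (by rw [hC']; exact hKC) (by rw [hC']; exact hC) hBne R id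
    (fun δ h1 h2 Z hZ => val_sum' hlev h1 h2 v C' B' R id hR0 hinj Z hZ) hR' (by rw [hC']; exact hJ)

end Pool.Agent.H85.AK
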