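import Pool.Agent.H85.AK.Cnt

/-!
The loss of a sum of two digits, one pair of digits.
-/

set_option autoImplicit false

namespace Pool.Agent.H85.AK

open Finset
open scoped Classical

variable {α β γ ζ : Type*}

/-- the loss -/
noncomputable def loss (Ω : Finset α) (U : α → β) (V : α → γ) (Z : α → ζ) : ℝ :=
  ∑ a ∈ Ω, (Real.log (ct Ω Z a) - Real.log (ct Ω (fun a => (U a, V a)) a))

/-- unnormalised mutual information -/
noncomputable def mi (Ω : Finset α) (U : α → β) (V : α → γ) : ℝ :=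
  ∑ a ∈ Ω, (Real.log (ct Ω (fun a => (U a, V a)) a) + Real.log (Ω.card : ℝ) -
    Real.log (ct Ω U a) - Real.log (ct Ω V a))

theorem mi_nonneg (Ω : Finset α) (U : α → β) (V : α → γ) : 0 ≤ mi Ω U V := by
  have h := subadd Ω U V
  unfold mi
  rw [← sub_nonneg, ← sum_sub_distrib] at h
  refine h.trans (le_of_eq ?_)
  apply sum_congr rfl
  intro a _
  ring

theorem loss_le_right {Ω : Finset α} {U : α → β} {V : α → γ} {Z : α → ζ}
    (hZ : ∀ a ∈ Ω, ∀ b ∈ Ω, U a = U b → V a = V b → Z a = Z b)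
    (hU : ∀ a ∈ Ω, ∀ b ∈ Ω, Z a = Z b → V a = V b → U a = U b) : loss Ω U V Z ≤ hh Ω V := by
  have h := subadd Ω Z V
  have e : ∀ a ∈ Ω, ct Ω (fun a => (Z a, V a)) a = ct Ω (fun a => (U a, V a)) a := by
    intro a ha
    apply ct_congr
    intro b hb
    simp only [Prod.mk.injEq]
    constructor
    · rintro ⟨h1, h2⟩
      exact ⟨hU b hb a ha h1 h2, h2⟩
    · rintro ⟨h1, h2⟩
      exact ⟨hZ b hb a ha h1 h2, h2⟩
  unfold loss hh
  rw [← sub_nonneg, ← sum_sub_distrib] at h ⊢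
  refine h.trans (le_of_eq ?_)
  apply sum_congr rfl
  intro a ha
  rw [e a ha]
  ring

theorem loss_le_left {Ω : Finset α} {U : α → β} {V : α → γ} {Z : α → ζ}
    (hZ : ∀ a ∈ Ω, ∀ b ∈ Ω, U a = U b → V a = V b → Z a = Z b)
    (hV : ∀ a ∈ Ω, ∀ b ∈ Ω, Z a = Z b → U a = U b → V a = V b) : loss Ω U V Z ≤ hh Ω U := by
  have h := subadd Ω Z U
  have e : ∀ a ∈ Ω, ct Ω (fun a => (Z a, U a)) a = ct Ω (fun a => (U a, V a)) a := by
    intro a ha
    apply ct_congr
    intro b hb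
    simp only [Prod.mk.injEq]
    constructor
    · rintro ⟨h1, h2⟩
      exact ⟨h2, hV b hb a ha h1 h2⟩
    · rintro ⟨h1, h2⟩
      exact ⟨hZ b hb a ha h1 h2, h1⟩
  unfold loss hh
  rw [← sub_nonneg, ← sum_sub_distrib] at h ⊢
  refine h.trans (le_of_eq ?_)
  apply sum_congr rfl
  intro a ha
  rw [e a ha]
  ring

theorem hh_le_card {Ω : Finset α} {f : α → β} {m : ℕ} (hm : 0 < m) (h : (Ω.image f).card ≤ m) :
    hh Ω f ≤ Ω.card * Real.log m := by
  rcases Ω.eq_empty_or_nonempty with h0 | h0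
  · subst h0
    simp [hh]
  have hN : (0 : ℝ) < Ω.card := by exact_mod_cast card_pos.2 h0
  have hm' : (0 : ℝ) < m := by exact_mod_cast hm
  have h1 : ∀ a ∈ Ω, Real.log (Ω.card : ℝ) - Real.log (ct Ω f a) - Real.log m ≤
      (Ω.card / m : ℝ) / ct Ω f a - 1 := by
    intro a ha
    have h2 := ct_pos f ha
    have h3 := Real.log_le_sub_one_of_pos (show 0 < (Ω.card / m : ℝ) / ct Ω f a by positivity)
    rw [Real.log_div (by positivity) h2.ne', Real.log_div hN.ne' hm'.ne'] at h3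
    linarith
  have h2 := sum_le_sum h1
  have h4 : ∑ a ∈ Ω, (Real.log (Ω.card : ℝ) - Real.log (ct Ω f a) - Real.log m) =
      hh Ω f - Ω.card * Real.log m := by
    unfold hh
    rw [sum_sub_distrib, sum_const, nsmul_eq_mul]
  have h5 : ∑ a ∈ Ω, ((Ω.card / m : ℝ) / ct Ω f a - 1) =
      (Ω.image f).card * (Ω.card / m : ℝ) - Ω.card := by
    rw [sum_sub_distrib, sum_const, nsmul_eq_mul, mul_one,
      sum_div_ct Ω f (fun _ => (Ω.card / m : ℝ)), sum_const, nsmul_eq_mul]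
  rw [h4, h5] at h2
  have h3 : ((Ω.image f).card : ℝ) * (Ω.card / m : ℝ) ≤ Ω.card := by
    have : ((Ω.image f).card : ℝ) ≤ m := by exact_mod_cast h
    calc ((Ω.image f).card : ℝ) * (Ω.card / m : ℝ) ≤ m * (Ω.card / m : ℝ) := by gcongr
      _ = Ω.card := by field_simp
  linarith

/-- restriction to a fibre -/
theorem ct_filter {Ω : Finset α} {τ : Type*} [DecidableEq τ] {f : α → β} {T : α → τ} {a : α} :
    ct (Ω.filter fun b => T b = T a) f a = ct Ω (fun b => (f b, T b)) a := by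
  unfold ct cv
  rw [filter_filter]
  congr 2
  ext b
  simp only [Prod.mk.injEq, mem_filter]
  tauto

theorem hh_bound_mode (Ω : Finset α) (U : α → β) (u : β) :
    ((Ω.filter fun a => U a ≠ u).card : ℝ) * (Real.log (Ω.card : ℝ) -
      Real.log ((Ω.filter fun a => U a ≠ u).card : ℝ)) ≤ hh Ω U := by
  have h1 : ∑ a ∈ Ω.filter (fun a => U a ≠ u), (Real.log (Ω.card : ℝ) - Real.log (ct Ω U a)) ≤
      hh Ω U := by
    apply sum_le_sum_of_subset_of_nonneg (filter_subset _ _)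
    intro a ha _
    exact sub_nonneg.2 (log_ct_le U ha)
  refine le_trans ?_ h1
  rw [← nsmul_eq_mul, ← sum_const]
  apply sum_le_sum
  intro a ha
  obtain ⟨h2, h3⟩ := mem_filter.1 ha
  apply sub_le_sub_left
  apply Real.log_le_log (ct_pos U h2)
  unfold ct cv
  apply Nat.cast_le.2
  apply card_le_card
  intro b hb
  obtain ⟨h4, h5⟩ := mem_filter.1 hb
  refine mem_filter.2 ⟨h4, ?_⟩
  rw [h5]
  exact h3

end Pool.Agent.H85.AK
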