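import Pool.Agent.H85.AK.Loc

/-!
The three parts of a pair of digits.
-/

set_option autoImplicit false

namespace Pool.Agent.H85.AK

open Finset
open scoped Classical

variable {α β γ ζ : Type*}

/-- the part where one of the digits is the popular one -/
theorem loss_zero {Ω : Finset α} {U : α → β} {V : α → γ} {Z : α → ζ} {u0 : β} {v0 : γ}
    (hZ : ∀ a ∈ Ω, ∀ b ∈ Ω, U a = U b → V a = V b → Z a = Z b)
    (hU : ∀ a ∈ Ω, ∀ b ∈ Ω, Z a = Z b → V a = V b → U a = U b)
    (hV : ∀ a ∈ Ω, ∀ b ∈ Ω, Z a = Z b → U a = U b → V a = V b)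
    (h0 : ∀ a ∈ Ω, U a = u0 ∨ V a = v0) :
    loss Ω U V Z ≤ ((Ω.filter fun a => ¬ (U a = u0 ∧ V a = v0)).card : ℝ) * Real.log 2 := by
  set Q := Ω.filter fun a => ¬ (U a = u0 ∧ V a = v0) with hQ
  have hsub : Q ⊆ Ω := filter_subset _ _
  -- the popular pair is alone
  have alone : ∀ a ∈ Ω, ∀ b ∈ Ω, Z a = Z b → (U a = u0 ∧ V a = v0) → (U b = u0 ∧ V b = v0) := by
    intro a ha b hb hab h
    rcases h0 b hb with h1 | h1
    · exact ⟨h1, (hV a ha b hb hab (h.1.trans h1.symm)).symm.trans h.2⟩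
    · exact ⟨(hU a ha b hb hab (h.2.trans h1.symm)).symm.trans h.1, h1⟩
  have e1 : ∀ a ∈ Ω, a ∉ Q → Real.log (ct Ω Z a) -
      Real.log (ct Ω (fun a => (U a, V a)) a) = 0 := by
    intro a ha haQ
    have h1 : U a = u0 ∧ V a = v0 := by
      by_contra h
      exact haQ (mem_filter.2 ⟨ha, h⟩)
    rw [sub_eq_zero]
    congr 1
    apply ct_congr
    intro b hb
    simp only [Prod.mk.injEq]
    constructor
    · intro h2
      have h3 := alone a ha b hb h2.symm h1
      exact ⟨h3.1.trans h1.1.symm, h3.2.trans h1.2.symm⟩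
    · rintro ⟨h2, h3⟩
      exact hZ b hb a ha h2 h3
  have e2 : loss Ω U V Z = ∑ a ∈ Q, (Real.log (ct Ω Z a) -
      Real.log (ct Ω (fun a => (U a, V a)) a)) := by
    unfold loss
    symm
    exact sum_subset hsub e1
  have hne : ∀ a ∈ Q, ¬ (U a = u0 ∧ V a = v0) := fun a ha => (mem_filter.1 ha).2
  have e3 : ∀ a ∈ Q, ct Ω Z a = ct Q Z a := by
    intro a ha
    unfold ct cv
    congr 2
    ext b
    simp only [mem_filter]
    constructor
    · rintro ⟨h1, h2⟩
      refine ⟨?_, h2⟩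
      refine mem_filter.2 ⟨h1, fun h3 => hne a ha (alone b h1 a (hsub ha) h2 h3)⟩
    · rintro ⟨h1, h2⟩
      exact ⟨hsub h1, h2⟩
  have e4 : ∀ a ∈ Q, ct Ω (fun a => (U a, V a)) a = ct Q (fun a => (U a, V a)) a := by
    intro a ha
    unfold ct cv
    congr 2
    ext b
    simp only [mem_filter, Prod.mk.injEq]
    constructor
    · rintro ⟨h1, h2, h3⟩
      refine ⟨?_, h2, h3⟩
      refine mem_filter.2 ⟨h1, fun h4 => hne a ha ⟨h2.symm.trans h4.1, h3.symm.trans h4.2⟩⟩
    · rintro ⟨h1, h2⟩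
      exact ⟨hsub h1, h2⟩
  have h3 := subadd Q Z (fun a => decide (U a = u0))
  have e5 : ∀ a ∈ Q, ct Q (fun a => (Z a, decide (U a = u0))) a =
      ct Q (fun a => (U a, V a)) a := by
    intro a ha
    apply ct_congr
    intro b hb
    simp only [Prod.mk.injEq]
    constructor
    · rintro ⟨h4, h5⟩
      have h6 : (U b = u0) ↔ (U a = u0) := by
        simpa using h5
      rcases h0 a (hsub ha) with h7 | h7
      · have h8 := h6.2 h7
        exact ⟨h8.trans h7.symm, hV b (hsub hb) a (hsub ha) h4 (h8.trans h7.symm)⟩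
      · have h8 : V b = v0 := by
          rcases h0 b (hsub hb) with h9 | h9
          · exact absurd ⟨h6.1 h9, h7⟩ (hne a ha)
          · exact h9
        exact ⟨hU b (hsub hb) a (hsub ha) h4 (h8.trans h7.symm), h8.trans h7.symm⟩
    · rintro ⟨h4, h5⟩
      exact ⟨hZ b (hsub hb) a (hsub ha) h4 h5, by rw [h4]⟩
  have h4 : hh Q (fun a => decide (U a = u0)) ≤ Q.card * Real.log (2 : ℕ) := by
    apply hh_le_card two_pos
    refine (card_le_card (subset_univ _)).trans ?_
    simp
  rw [e2]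
  refine le_trans ?_ (by simpa using h4)
  unfold hh
  rw [← sub_nonneg, ← sum_sub_distrib] at h3 ⊢
  refine h3.trans (le_of_eq ?_)
  apply sum_congr rfl
  intro a ha
  rw [e5 a ha, e3 a ha, e4 a ha]
  ring

/-- the trivial bound -/
theorem loss_triv (Ω : Finset α) (U : α → β) (V : α → γ) (Z : α → ζ) :
    loss Ω U V Z ≤ Ω.card * Real.log (Ω.card : ℝ) := by
  unfold loss
  rw [← nsmul_eq_mul, ← sum_const]
  apply sum_le_sum
  intro a ha
  have h1 := log_ct_le Z ha
  have h2 := log_ct_nonneg (fun a => (U a, V a)) ha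
  linarith

theorem sum_cv_ne (Ω : Finset α) (U : α → β) (u0 : β) :
    ∑ u ∈ (Ω.filter fun a => U a ≠ u0).image U, cv Ω U u =
      ((Ω.filter fun a => U a ≠ u0).card : ℝ) := by
  rw [← sum_cv (Ω.filter fun a => U a ≠ u0) U]
  apply sum_congr rfl
  intro u hu
  obtain ⟨a, ha, rfl⟩ := mem_image.1 hu
  have ha' := (mem_filter.1 ha).2
  unfold cv
  congr 2
  ext b
  simp only [mem_filter]
  constructor
  · rintro ⟨h1, h2⟩
    exact ⟨⟨h1, by rw [h2]; exact ha'⟩, h2⟩
  · rintro ⟨⟨h1, _⟩, h2⟩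
    exact ⟨h1, h2⟩

section good

variable {Ω E : Finset α} {U : α → β} {u0 : β} {q : ℝ}

theorem good_card (hE : E ⊆ Ω.filter fun a => U a ≠ u0) (hq : 0 ≤ q)
    (h : ∀ a ∈ E, ct E U a ≤ q * ct Ω U a) :
    (E.card : ℝ) ≤ q * ((Ω.filter fun a => U a ≠ u0).card : ℝ) := by
  rw [← sum_cv E U, ← sum_cv_ne Ω U u0, mul_sum]
  calc ∑ u ∈ E.image U, cv E U u ≤ ∑ u ∈ E.image U, q * cv Ω U u := by
        apply sum_le_sum
        intro u hu
        obtain ⟨a, ha, rfl⟩ := mem_image.1 hu
        exact h a ha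
    _ ≤ ∑ u ∈ (Ω.filter fun a => U a ≠ u0).image U, q * cv Ω U u := by
        apply sum_le_sum_of_subset_of_nonneg (image_subset_image hE)
        intro u _ _
        exact mul_nonneg hq (cv_nonneg _ _ _)

theorem good_hh (hE : E ⊆ Ω.filter fun a => U a ≠ u0) (hq : 0 ≤ q)
    (h : ∀ a ∈ E, ct E U a ≤ q * ct Ω U a) :
    hh E U ≤ q * hh Ω U + q * ((Ω.filter fun a => U a ≠ u0).card : ℝ) := by
  rcases E.eq_empty_or_nonempty with hE0 | hE0
  · subst hE0
    simp only [hh, sum_empty]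
    have := hh_nonneg Ω U
    unfold hh at this
    positivity
  have hsub : E ⊆ Ω := hE.trans (filter_subset _ _)
  have hΩ : Ω.Nonempty := hE0.mono hsub
  have hN : (0 : ℝ) < Ω.card := by exact_mod_cast card_pos.2 hΩ
  have hE2 : (0 : ℝ) < E.card := by exact_mod_cast card_pos.2 hE0
  have hq0 : 0 < q := by
    obtain ⟨a, ha⟩ := hE0
    by_contra hn
    have : q = 0 := le_antisymm (not_lt.1 hn) hq
    have h1 := h a ha
    rw [this, zero_mul] at h1
    have := ct_pos U ha
    linarith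
  have hcard := good_card hE hq h
  have hcard2 : (E.card : ℝ) ≤ q * Ω.card := by
    refine hcard.trans (mul_le_mul_of_nonneg_left ?_ hq)
    exact_mod_cast card_filter_le _ _
  -- pointwise bound
  have hpt : ∀ a ∈ E, Real.log (E.card : ℝ) - Real.log (ct E U a) ≤
      (Real.log (Ω.card : ℝ) - Real.log (ct Ω U a)) + q * ct Ω U a / ct E U a := by
    intro a ha
    have h1 := ct_pos U ha
    have h2 := ct_pos U (hsub ha)
    have h3 : Real.log (E.card : ℝ) ≤ Real.log q + Real.log (Ω.card : ℝ) := by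
      rw [← Real.log_mul hq0.ne' hN.ne']
      exact Real.log_le_log hE2 hcard2
    have h4 := Real.log_le_sub_one_of_pos (show 0 < q * ct Ω U a / ct E U a by positivity)
    rw [Real.log_div (by positivity) h1.ne', Real.log_mul hq0.ne' h2.ne'] at h4
    linarith
  have h1 : hh E U ≤ ∑ a ∈ E, (Real.log (Ω.card : ℝ) - Real.log (ct Ω U a)) +
      ∑ a ∈ E, q * ct Ω U a / ct E U a := by
    rw [← sum_add_distrib]
    exact sum_le_sum hpt
  have h2 : ∑ a ∈ E, q * ct Ω U a / ct E U a ≤ q * ((Ω.filter fun a => U a ≠ u0).card : ℝ) := by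
    have := sum_div_ct E U (fun u => q * cv Ω U u)
    calc ∑ a ∈ E, q * ct Ω U a / ct E U a = ∑ u ∈ E.image U, q * cv Ω U u := this
      _ ≤ ∑ u ∈ (Ω.filter fun a => U a ≠ u0).image U, q * cv Ω U u := by
          apply sum_le_sum_of_subset_of_nonneg (image_subset_image hE)
          intro u _ _
          exact mul_nonneg hq (cv_nonneg _ _ _)
      _ = _ := by rw [← mul_sum, sum_cv_ne]
  have h3 : ∑ a ∈ E, (Real.log (Ω.card : ℝ) - Real.log (ct Ω U a)) ≤ q * hh Ω U := by
    have e1 := sum_div_ct E U (fun u => cv E U u *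
      (Real.log (Ω.card : ℝ) - Real.log (cv Ω U u)))
    have e2 := sum_div_ct Ω U (fun u => cv Ω U u *
      (Real.log (Ω.card : ℝ) - Real.log (cv Ω U u)))
    have e3 : ∑ a ∈ E, (Real.log (Ω.card : ℝ) - Real.log (ct Ω U a)) =
        ∑ u ∈ E.image U, cv E U u * (Real.log (Ω.card : ℝ) - Real.log (cv Ω U u)) := by
      rw [← e1]
      apply sum_congr rfl
      intro a ha
      have := (ct_pos U ha).ne'
      unfold ct at *
      field_simp
    have e4 : hh Ω U =
        ∑ u ∈ Ω.image U, cv Ω U u * (Real.log (Ω.card : ℝ) - Real.log (cv Ω U u)) := by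
      rw [← e2]
      unfold hh
      apply sum_congr rfl
      intro a ha
      have := (ct_pos U ha).ne'
      unfold ct at *
      field_simp
    have hnn : ∀ u ∈ Ω.image U, 0 ≤ Real.log (Ω.card : ℝ) - Real.log (cv Ω U u) := by
      intro u hu
      obtain ⟨a, ha, rfl⟩ := mem_image.1 hu
      exact sub_nonneg.2 (log_ct_le U ha)
    rw [e3, e4, mul_sum]
    calc ∑ u ∈ E.image U, cv E U u * (Real.log (Ω.card : ℝ) - Real.log (cv Ω U u))
        ≤ ∑ u ∈ E.image U, q * (cv Ω U u * (Real.log (Ω.card : ℝ) - Real.log (cv Ω U u))) := by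
          apply sum_le_sum
          intro u hu
          rw [← mul_assoc]
          apply mul_le_mul_of_nonneg_right _ (hnn u (image_subset_image hsub hu))
          obtain ⟨a, ha, rfl⟩ := mem_image.1 hu
          exact h a ha
      _ ≤ ∑ u ∈ Ω.image U, q * (cv Ω U u * (Real.log (Ω.card : ℝ) - Real.log (cv Ω U u))) := by
          apply sum_le_sum_of_subset_of_nonneg (image_subset_image hsub)
          intro u hu _
          exact mul_nonneg hq (mul_nonneg (cv_nonneg _ _ _) (hnn u hu))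
  linarith

end good

end Pool.Agent.H85.AK
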