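import Pool.Agent.H85.AK.Loc2

/-!
The local inequality.
-/

set_option autoImplicit false

namespace Pool.Agent.H85.AK

open Finset
open scoped Classical

variable {α β γ ζ : Type*}

/-- the mass of the correlated part -/
theorem bad_mass {Ω : Finset α} (hΩ : Ω.Nonempty) (U : α → β) (V : α → γ) (v0 : γ)
    (bad : β → Prop)
    (hbad : ∀ u, bad u → 8 * ((Ω.filter fun a => V a ≠ v0).card : ℝ) * cv Ω U u ≤
      ((Ω.filter fun a => V a ≠ v0 ∧ U a = u).card : ℝ) * Ω.card) :
    ((Ω.filter fun a => V a ≠ v0 ∧ bad (U a)).card : ℝ) ≤ mi Ω U V := by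
  set E := Ω.filter fun a => V a ≠ v0 ∧ bad (U a) with hE
  set N : ℝ := (Ω.card : ℝ) with hN
  have hN0 : 0 < N := by rw [hN]; exact_mod_cast card_pos.2 hΩ
  set eV : ℝ := ((Ω.filter fun a => V a ≠ v0).card : ℝ) with heV
  set ib : β → ℝ := fun u => if bad u then 1 else 0 with hib
  set iv : γ → ℝ := fun v => if v ≠ v0 then 1 else 0 with hiv
  have ib0 : ∀ u, 0 ≤ ib u := fun u => by simp only [hib]; split_ifs <;> norm_num
  have iv0 : ∀ v, 0 ≤ iv v := fun v => by simp only [hiv]; split_ifs <;> norm_num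
  set φ : β × γ → ℝ := fun c => (1 + 7 * ib c.1 * iv c.2) * cv Ω U c.1 * cv Ω V c.2 / N with hφ
  have hφ0 : ∀ c, 0 ≤ φ c := by
    intro c
    have h1 := cv_nonneg Ω U c.1
    have h2 := cv_nonneg Ω V c.2
    have h3 := ib0 c.1
    have h4 := iv0 c.2
    simp only [hφ]
    positivity
  set W : α → β × γ := fun a => (U a, V a) with hW
  -- the two evaluations of the sum of weights
  have s1 : ∑ v ∈ Ω.image V, iv v * cv Ω V v = eV := by
    have h1 := sum_div_ct Ω V (fun v => iv v * cv Ω V v)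
    rw [← h1]
    have h2 : ∀ a ∈ Ω, iv (V a) * cv Ω V (V a) / ct Ω V a = if V a ≠ v0 then (1 : ℝ) else 0 := by
      intro a ha
      have := (ct_pos V ha).ne'
      unfold ct at *
      rw [mul_div_assoc, div_self this, mul_one]
    rw [sum_congr rfl h2, ← sum_filter, sum_const, nsmul_eq_mul, mul_one]
  have s2 : ∀ u, ∑ v ∈ Ω.image V, φ (u, v) = cv Ω U u + 7 * (ib u * cv Ω U u * eV / N) := by
    intro u
    have h1 : ∀ v ∈ Ω.image V, φ (u, v) = cv Ω U u / N * cv Ω V v +
        7 * ib u * cv Ω U u / N * (iv v * cv Ω V v) := by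
      intro v _
      simp only [hφ]
      ring
    rw [sum_congr rfl h1, sum_add_distrib, ← mul_sum, ← mul_sum, s1, sum_cv]
    rw [← hN]
    field_simp
  have s3 : ∑ u ∈ Ω.image U, ib u * ((Ω.filter fun a => V a ≠ v0 ∧ U a = u).card : ℝ) =
      E.card := by
    have h1 := Finset.card_eq_sum_card_fiberwise (s := E) (t := Ω.image U) (f := U)
      (fun a ha => mem_image_of_mem U (mem_filter.1 ha).1)
    rw [h1]
    push_cast
    apply sum_congr rfl
    intro u _
    by_cases hb : bad u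
    · have e1 : ib u = 1 := if_pos hb
      rw [e1, one_mul]
      congr 2
      ext a
      simp only [hE, mem_filter]
      constructor
      · rintro ⟨h2, h3, h4⟩
        exact ⟨⟨h2, h3, by rw [h4]; exact hb⟩, h4⟩
      · rintro ⟨⟨h2, h3, _⟩, h4⟩
        exact ⟨h2, h3, h4⟩
    · have e1 : ib u = 0 := if_neg hb
      rw [e1, zero_mul]
      symm
      rw [Nat.cast_eq_zero, card_eq_zero, filter_eq_empty_iff]
      intro a ha hau
      have h2 := (mem_filter.1 ha).2.2
      rw [hau] at h2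
      exact hb h2
  have s4 : ∑ u ∈ Ω.image U, 7 * (ib u * cv Ω U u * eV / N) ≤ 7 / 8 * E.card := by
    rw [← s3, mul_sum]
    apply sum_le_sum
    intro u _
    by_cases hb : bad u
    · have e1 : ib u = 1 := if_pos hb
      have h1 := hbad u hb
      rw [e1, one_mul, one_mul]
      rw [← mul_div_assoc, div_le_iff₀ hN0]
      linarith
    · have e1 : ib u = 0 := if_neg hb
      rw [e1]
      simp
  have key : ∑ a ∈ Ω, φ (W a) / ct Ω W a ≤ N + 7 / 8 * E.card := by
    rw [sum_div_ct]
    have hsub : Ω.image W ⊆ (Ω.image U) ×ˢ (Ω.image V) := by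
      intro t ht
      obtain ⟨a, ha, rfl⟩ := mem_image.1 ht
      exact mem_product.2 ⟨mem_image_of_mem _ ha, mem_image_of_mem _ ha⟩
    refine (sum_le_sum_of_subset_of_nonneg hsub fun t _ _ => hφ0 t).trans ?_
    rw [sum_product, sum_congr rfl fun u _ => s2 u, sum_add_distrib, sum_cv]
    linarith
  have hterm : ∀ a ∈ Ω, (if V a ≠ v0 ∧ bad (U a) then Real.log 8 else 0) -
      (Real.log (ct Ω W a) + Real.log N - Real.log (ct Ω U a) - Real.log (ct Ω V a)) ≤
      φ (W a) / ct Ω W a - 1 := by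
    intro a ha
    have p1 := ct_pos U ha
    have p2 := ct_pos V ha
    have p3 := ct_pos W ha
    have e1 : φ (W a) = (1 + 7 * ib (U a) * iv (V a)) * ct Ω U a * ct Ω V a / N := rfl
    have e2 : Real.log (1 + 7 * ib (U a) * iv (V a)) =
        if V a ≠ v0 ∧ bad (U a) then Real.log 8 else 0 := by
      by_cases h1 : bad (U a)
      · by_cases h2 : V a ≠ v0
        · have e3 : ib (U a) = 1 := if_pos h1
          have e4 : iv (V a) = 1 := if_pos h2
          rw [e3, e4, if_pos ⟨h2, h1⟩]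
          norm_num
        · have e4 : iv (V a) = 0 := if_neg h2
          rw [e4, if_neg fun h => h2 h.1]
          simp
      · have e3 : ib (U a) = 0 := if_neg h1
        rw [e3, if_neg fun h => h1 h.2]
        simp
    have p4 : 0 < 1 + 7 * ib (U a) * iv (V a) := by
      have := ib0 (U a)
      have := iv0 (V a)
      positivity
    have h1 := Real.log_le_sub_one_of_pos (show 0 < φ (W a) / ct Ω W a by rw [e1]; positivity)
    have e3 : Real.log (φ (W a) / ct Ω W a) = Real.log (1 + 7 * ib (U a) * iv (V a)) +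
        Real.log (ct Ω U a) + Real.log (ct Ω V a) - Real.log N - Real.log (ct Ω W a) := by
      rw [e1, Real.log_div (by positivity) p3.ne', Real.log_div (by positivity) hN0.ne',
        Real.log_mul (by positivity) p2.ne', Real.log_mul p4.ne' p1.ne']
    rw [e3, e2] at h1
    linarith
  have h1 := sum_le_sum hterm
  have hL : ∑ a ∈ Ω, ((if V a ≠ v0 ∧ bad (U a) then Real.log 8 else 0) -
      (Real.log (ct Ω W a) + Real.log N - Real.log (ct Ω U a) - Real.log (ct Ω V a))) =
      (E.card : ℝ) * Real.log 8 - mi Ω U V := by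
    rw [sum_sub_distrib, ← sum_filter, sum_const, nsmul_eq_mul]
    rfl
  have hR : ∑ a ∈ Ω, (φ (W a) / ct Ω W a - 1) = ∑ a ∈ Ω, φ (W a) / ct Ω W a - N := by
    rw [sum_sub_distrib, sum_const, nsmul_eq_mul, mul_one]
  rw [hL, hR] at h1
  have h2 : (E.card : ℝ) * Real.log 8 - mi Ω U V ≤ 7 / 8 * E.card := by linarith
  have h3 : (15 / 8 : ℝ) ≤ Real.log 8 := by
    have : (8 : ℝ) = 2 ^ 3 := by norm_num
    rw [this, Real.log_pow]
    have := Real.log_two_gt_d9
    push_cast
    linarith
  have h4 : (0 : ℝ) ≤ E.card := Nat.cast_nonneg _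
  nlinarith

theorem loss_split {Ω : Finset α} (U : α → β) (V : α → γ) (Z : α → ζ) (T : α → ℕ)
    (hT : ∀ a ∈ Ω, ∀ b ∈ Ω, U a = U b → V a = V b → T a = T b) (hT3 : ∀ a ∈ Ω, T a < 3) :
    loss Ω U V Z ≤ ∑ t ∈ range 3, (((Ω.filter fun a => T a = t).card : ℝ) *
      (Real.log (Ω.card : ℝ) - Real.log ((Ω.filter fun a => T a = t).card : ℝ)) +
      loss (Ω.filter fun a => T a = t) U V Z) := by
  have h := subadd Ω Z T
  have h1 : loss Ω U V Z ≤ ∑ a ∈ Ω, (Real.log (ct Ω (fun a => (Z a, T a)) a) +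
      Real.log (Ω.card : ℝ) - Real.log (ct Ω T a) - Real.log (ct Ω (fun a => (U a, V a)) a)) := by
    unfold loss
    rw [← sub_nonneg, ← sum_sub_distrib] at h ⊢
    refine h.trans (le_of_eq ?_)
    apply sum_congr rfl
    intro a _
    ring
  refine h1.trans (le_of_eq ?_)
  rw [← Finset.sum_fiberwise_of_maps_to (s := Ω) (t := range 3) (g := T)
    fun a ha => mem_range.2 (hT3 a ha)]
  apply sum_congr rfl
  intro t _
  unfold loss
  rw [← nsmul_eq_mul, ← sum_const, ← sum_add_distrib]
  apply sum_congr rfl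
  intro a ha
  obtain ⟨ha1, ha2⟩ := mem_filter.1 ha
  subst ha2
  have e1 : ct Ω (fun a => (Z a, T a)) a = ct (Ω.filter fun b => T b = T a) Z a := ct_filter.symm
  have e2 : ct Ω (fun a => (U a, V a)) a =
      ct (Ω.filter fun b => T b = T a) (fun a => (U a, V a)) a := by
    rw [ct_filter]
    apply ct_congr
    intro b hb
    simp only [Prod.mk.injEq]
    constructor
    · rintro ⟨h2, h3⟩
      exact ⟨⟨h2, h3⟩, hT b hb a ha1 h2 h3⟩
    · exact fun h2 => h2.1
  have e3 : ct Ω T a = ((Ω.filter fun b => T b = T a).card : ℝ) := cv_eq Ω T (T a)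
  rw [e1, e2, e3]
  ring

end Pool.Agent.H85.AK
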