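import Pool.Agent.H85.AK.Loc3

/-!
The local inequality, assembled.
-/

set_option autoImplicit false

namespace Pool.Agent.H85.AK

open Finset
open scoped Classical

variable {α β γ ζ : Type*}

/-- the size of the largest class -/
noncomputable def mx (Ω : Finset α) (f : α → β) : ℝ :=
  ((Ω.sup fun a => (Ω.filter fun b => f b = f a).card : ℕ) : ℝ)

/-- the proportion outside the largest class -/
noncomputable def ep (Ω : Finset α) (f : α → β) : ℝ := 1 - mx Ω f / Ω.card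

theorem ct_le_mx {Ω : Finset α} (f : α → β) {a : α} (ha : a ∈ Ω) : ct Ω f a ≤ mx Ω f := by
  unfold ct cv mx
  apply Nat.cast_le.2
  exact Finset.le_sup (f := fun a => (Ω.filter fun b => f b = f a).card) ha

theorem exists_mx {Ω : Finset α} (hΩ : Ω.Nonempty) (f : α → β) : ∃ a ∈ Ω, ct Ω f a = mx Ω f := by
  obtain ⟨a, ha, h⟩ := Finset.exists_mem_eq_sup Ω hΩ
    (fun a => (Ω.filter fun b => f b = f a).card)
  refine ⟨a, ha, ?_⟩
  unfold ct cv mx
  rw [h]

theorem mx_pos {Ω : Finset α} (hΩ : Ω.Nonempty) (f : α → β) : 0 < mx Ω f := by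
  obtain ⟨a, ha, h⟩ := exists_mx hΩ f
  rw [← h]
  exact ct_pos f ha

theorem ep_nonneg {Ω : Finset α} (hΩ : Ω.Nonempty) (f : α → β) : 0 ≤ ep Ω f := by
  have hN : (0 : ℝ) < Ω.card := by exact_mod_cast card_pos.2 hΩ
  obtain ⟨a, _, h⟩ := exists_mx hΩ f
  unfold ep
  rw [sub_nonneg, div_le_one hN, ← h]
  exact ct_le _ _ _

theorem log_mx_le {Ω : Finset α} (hΩ : Ω.Nonempty) (f : α → β) :
    Real.log (mx Ω f) ≤ Real.log (Ω.card : ℝ) - ep Ω f := by
  have hN : (0 : ℝ) < Ω.card := by exact_mod_cast card_pos.2 hΩ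
  have hm := mx_pos hΩ f
  have h := Real.log_le_sub_one_of_pos (show 0 < mx Ω f / Ω.card by positivity)
  rw [Real.log_div hm.ne' hN.ne'] at h
  unfold ep
  linarith

theorem xlog_le {x B : ℝ} (hx : 0 ≤ x) (hB : 0 < B) :
    x * (Real.log B - Real.log x) ≤ B - x := by
  rcases hx.eq_or_lt with h | h
  · rw [← h]
    simp only [zero_mul, sub_zero]
    exact hB.le
  · have h1 := Real.log_le_sub_one_of_pos (show 0 < B / x by positivity)
    rw [Real.log_div hB.ne' h.ne'] at h1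
    have h2 := mul_le_mul_of_nonneg_left h1 hx
    have h3 : x * (B / x - 1) = B - x := by field_simp
    linarith

theorem part2_ent {N2 N eU eV pU pV hU hV : ℝ} (hN : 0 < N) (N2n : 0 ≤ N2) (heU : 0 < eU)
    (heV : 0 < eV) (hepU : eU = pU * N) (hepV : eV = pV * N) (hpU : 0 ≤ pU) (hpV : 0 < pV)
    (hN2c : N2 ≤ 8 * pV * eU)
    (hbU : eU * (Real.log N - Real.log eU) ≤ hU) (hbV : eV * (Real.log N - Real.log eV) ≤ hV)
    (hlU : 0 ≤ Real.log N - Real.log eU) (hlV : 0 ≤ Real.log N - Real.log eV) :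
    N2 * (Real.log N - Real.log N2) ≤ 8 * pV * eU + 8 * (pU * hV) + 8 * (pV * hU) := by
  have hB : 0 < 8 * pV * eU := by positivity
  have h1 := xlog_le N2n hB
  have h2 : Real.log N - Real.log (8 * pV * eU) ≤
      (Real.log N - Real.log eV) + (Real.log N - Real.log eU) := by
    have h3 : 8 * pV * eU = 8 * eV * eU / N := by
      rw [hepV]
      field_simp
    have h4 : (0 : ℝ) ≤ Real.log 8 := Real.log_nonneg (by norm_num)
    rw [h3, Real.log_div (by positivity) hN.ne', Real.log_mul (by positivity) heU.ne',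
      Real.log_mul (by norm_num) heV.ne']
    linarith
  have h3 : 0 ≤ (Real.log N - Real.log eV) + (Real.log N - Real.log eU) := by linarith
  have h4 : N2 * (Real.log N - Real.log (8 * pV * eU)) ≤
      (8 * pV * eU) * ((Real.log N - Real.log eV) + (Real.log N - Real.log eU)) :=
    (mul_le_mul_of_nonneg_left h2 N2n).trans (mul_le_mul_of_nonneg_right hN2c h3)
  have h5 : (8 * pV * eU) * (Real.log N - Real.log eV) ≤ 8 * (pU * hV) := by
    have e1 : 8 * pV * eU = 8 * pU * eV := by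
      rw [hepU, hepV]
      ring
    rw [e1]
    have h6 := mul_le_mul_of_nonneg_left hbV hpU
    linarith
  have h6 : (8 * pV * eU) * (Real.log N - Real.log eU) ≤ 8 * (pV * hU) := by
    have h7 := mul_le_mul_of_nonneg_left hbU hpV.le
    linarith
  linarith

theorem final_arith {L N1 N2 eU eV lg pU pV hU hV m δ ex : ℝ} (hpV : 0 ≤ pV) (hlg : 0 ≤ lg)
    (hN2c : N2 ≤ 8 * pV * eU) (heU : eU ≤ δ * hU) (heV : eV ≤ δ * hV) (hpU : 0 ≤ pU)
    (heU1 : eU ≤ hU) (hhV : 0 ≤ hV) (hhU : 0 ≤ hU) (hex : 0 ≤ ex) (hm : N1 ≤ m)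
    (htot : L ≤ (N1 + N2) + (eU + eV) + (N1 * lg + N1 * lg) +
      ((8 * pV * eU + 8 * (pU * hV) + 8 * (pV * hU)) + (8 * pV * hU + 8 * pV * eU))) :
    L ≤ δ * (hU + hV) + (40 + ex) * (pV * hU + pU * hV) + (1 + 2 * lg) * m := by
  have r1 : 8 * pV * eU ≤ 8 * (pV * hU) := by
    have := mul_le_mul_of_nonneg_left heU1 hpV
    linarith
  have r3 : N1 * (1 + 2 * lg) ≤ (1 + 2 * lg) * m := by
    rw [mul_comm]
    exact mul_le_mul_of_nonneg_left hm (by positivity)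
  have r4 : 0 ≤ ex * (pV * hU + pU * hV) := by positivity
  have r6 : 0 ≤ pU * hV := by positivity
  have r5 : (40 + ex) * (pV * hU + pU * hV) =
    40 * (pV * hU) + 40 * (pU * hV) + ex * (pV * hU + pU * hV) := by ring
  rw [r5]
  linarith

theorem part0 {Ω Ω0 : Finset α} {U : α → β} {V : α → γ} {Z : α → ζ} {u0 : β} {v0 : γ}
    (sub0 : Ω0 ⊆ Ω)
    (hZ : ∀ a ∈ Ω, ∀ b ∈ Ω, U a = U b → V a = V b → Z a = Z b)
    (hU : ∀ a ∈ Ω, ∀ b ∈ Ω, Z a = Z b → V a = V b → U a = U b)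
    (hV : ∀ a ∈ Ω, ∀ b ∈ Ω, Z a = Z b → U a = U b → V a = V b)
    (m0 : ∀ a ∈ Ω0, U a = u0 ∨ V a = v0) :
    loss Ω0 U V Z ≤ ((Ω.filter fun a => U a ≠ u0).card : ℝ) +
      ((Ω.filter fun a => V a ≠ v0).card : ℝ) := by
  have h1 := loss_zero (Ω := Ω0) (u0 := u0) (v0 := v0)
    (fun a ha b hb => hZ a (sub0 ha) b (sub0 hb))
    (fun a ha b hb => hU a (sub0 ha) b (sub0 hb)) (fun a ha b hb => hV a (sub0 ha) b (sub0 hb)) m0
  have h2 : ((Ω0.filter fun a => ¬ (U a = u0 ∧ V a = v0)).card : ℝ) ≤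
      ((Ω.filter fun a => U a ≠ u0).card : ℝ) + ((Ω.filter fun a => V a ≠ v0).card : ℝ) := by
    have h3 : (Ω0.filter fun a => ¬ (U a = u0 ∧ V a = v0)) ⊆
        (Ω.filter fun a => U a ≠ u0) ∪ (Ω.filter fun a => V a ≠ v0) := by
      intro a ha
      obtain ⟨h4, h5⟩ := mem_filter.1 ha
      rw [mem_union, mem_filter, mem_filter]
      by_cases h6 : U a = u0
      · exact Or.inr ⟨sub0 h4, fun h7 => h5 ⟨h6, h7⟩⟩
      · exact Or.inl ⟨sub0 h4, h6⟩
    have h4 := (card_le_card h3).trans (card_union_le _ _)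
    exact_mod_cast h4
  have h3 : Real.log 2 ≤ 1 := by
    have := Real.log_two_lt_d9
    linarith
  have h4 : (0 : ℝ) ≤ ((Ω0.filter fun a => ¬ (U a = u0 ∧ V a = v0)).card : ℝ) :=
    Nat.cast_nonneg _
  have h5 : ((Ω0.filter fun a => ¬ (U a = u0 ∧ V a = v0)).card : ℝ) * Real.log 2 ≤
      ((Ω0.filter fun a => ¬ (U a = u0 ∧ V a = v0)).card : ℝ) := mul_le_of_le_one_right h4 h3
  linarith

theorem part1 {Ω Ω1 : Finset α} {U : α → β} {V : α → γ} {Z : α → ζ} (sub1 : Ω1 ⊆ Ω) :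
    loss Ω1 U V Z ≤ (Ω1.card : ℝ) * Real.log (Ω.card : ℝ) := by
  refine (loss_triv Ω1 U V Z).trans ?_
  rcases Ω1.eq_empty_or_nonempty with h | h
  · rw [h]
    simp
  · apply mul_le_mul_of_nonneg_left _ (Nat.cast_nonneg _)
    apply Real.log_le_log
    · exact_mod_cast card_pos.2 h
    · exact_mod_cast card_le_card sub1

theorem part2_ct {Ω Ω2 : Finset α} {U : α → β} {V : α → γ} {v0 : γ} {p : ℝ} (sub2 : Ω2 ⊆ Ω)
    (hΩ : Ω.Nonempty) (hepV : ((Ω.filter fun a => V a ≠ v0).card : ℝ) = p * Ω.card)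
    (m2 : ∀ a ∈ Ω2, V a ≠ v0 ∧ ((Ω.filter fun b => V b ≠ v0 ∧ U b = U a).card : ℝ) * Ω.card ≤
      8 * ((Ω.filter fun a => V a ≠ v0).card : ℝ) * cv Ω U (U a)) :
    ∀ a ∈ Ω2, ct Ω2 U a ≤ 8 * p * ct Ω U a := by
  have hN : (0 : ℝ) < Ω.card := by exact_mod_cast card_pos.2 hΩ
  intro a ha
  obtain ⟨h1, h4⟩ := m2 a ha
  have h5 : ct Ω2 U a ≤ ((Ω.filter fun b => V b ≠ v0 ∧ U b = U a).card : ℝ) := by
    unfold ct cv
    apply Nat.cast_le.2
    apply card_le_card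
    intro b hb
    obtain ⟨h6, h7⟩ := mem_filter.1 hb
    exact mem_filter.2 ⟨sub2 h6, (m2 b h6).1, h7⟩
  refine h5.trans ?_
  rw [hepV] at h4
  have h6 : ((Ω.filter fun b => V b ≠ v0 ∧ U b = U a).card : ℝ) * Ω.card ≤
      (8 * p * ct Ω U a) * Ω.card := by
    unfold ct
    linarith
  exact le_of_mul_le_mul_right h6 hN

/-- the popular class -/
theorem ep_eq {Ω : Finset α} (hΩ : Ω.Nonempty) {U : α → β} {x0 : α}
    (h : ct Ω U x0 = mx Ω U) :
    ((Ω.filter fun a => U a ≠ U x0).card : ℝ) = ep Ω U * Ω.card := by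
  have hN : (0 : ℝ) < Ω.card := by exact_mod_cast card_pos.2 hΩ
  have h1 := Finset.card_filter_add_card_filter_not (s := Ω) (fun a => U a = U x0)
  have h2 : mx Ω U + ((Ω.filter fun a => U a ≠ U x0).card : ℝ) = Ω.card := by
    rw [← h]
    unfold ct cv
    exact_mod_cast h1
  unfold ep
  rw [sub_mul, one_mul, div_mul_cancel₀ _ hN.ne']
  linarith

theorem hh_zero {Ω : Finset α} {U : α → β} {u : β}
    (h : ((Ω.filter fun a => U a ≠ u).card : ℝ) = 0) : hh Ω U = 0 := by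
  unfold hh
  apply sum_eq_zero
  intro a ha
  rw [sub_eq_zero]
  congr 1
  have h2 : (Ω.filter fun a => U a ≠ u) = ∅ := by
    rw [← card_eq_zero]
    exact_mod_cast h
  have h3 : ∀ b ∈ Ω, U b = u := by
    intro b hb
    by_contra hne
    have : b ∈ (Ω.filter fun a => U a ≠ u) := mem_filter.2 ⟨hb, hne⟩
    rw [h2] at this
    exact absurd this (notMem_empty b)
  unfold ct cv
  congr 2
  symm
  rw [filter_eq_self]
  intro b hb
  rw [h3 b hb, h3 a ha]

theorem small_mass {δ : ℝ} (hδ : 0 < δ) {Ω : Finset α} (hΩ : Ω.Nonempty) {U : α → β} {u : β}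
    (h0 : 0 < ((Ω.filter fun a => U a ≠ u).card : ℝ))
    (h : ((Ω.filter fun a => U a ≠ u).card : ℝ) = ep Ω U * Ω.card)
    (hc : ep Ω U ≤ Real.exp (-(1 / δ))) :
    0 ≤ Real.log (Ω.card : ℝ) - Real.log ((Ω.filter fun a => U a ≠ u).card : ℝ) ∧
      ((Ω.filter fun a => U a ≠ u).card : ℝ) ≤ δ * hh Ω U := by
  have hN : (0 : ℝ) < Ω.card := by exact_mod_cast card_pos.2 hΩ
  have hb := hh_bound_mode Ω U u
  set e : ℝ := ((Ω.filter fun a => U a ≠ u).card : ℝ) with he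
  have h1 : e ≤ Real.exp (-(1 / δ)) * Ω.card := by
    rw [h]
    exact mul_le_mul_of_nonneg_right hc hN.le
  have h2 := Real.log_le_log h0 h1
  rw [Real.log_mul (Real.exp_pos _).ne' hN.ne', Real.log_exp] at h2
  have h4 : 0 < 1 / δ := by positivity
  refine ⟨by linarith, ?_⟩
  have h5 : 1 / δ ≤ Real.log (Ω.card : ℝ) - Real.log e := by linarith
  have h6 : e * (1 / δ) ≤ hh Ω U := (mul_le_mul_of_nonneg_left h5 h0.le).trans hb
  have h7 := mul_le_mul_of_nonneg_left h6 hδ.le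
  have h8 : δ * (e * (1 / δ)) = e := by field_simp
  linarith

/-- the case of very popular digits -/
theorem local_small {δ : ℝ} (hδ : 0 < δ) (hδ1 : δ ≤ 1) {Ω : Finset α} (hΩ : Ω.Nonempty)
    {U : α → β} {V : α → γ} {Z : α → ζ}
    (hZ : ∀ a ∈ Ω, ∀ b ∈ Ω, U a = U b → V a = V b → Z a = Z b)
    (hU : ∀ a ∈ Ω, ∀ b ∈ Ω, Z a = Z b → V a = V b → U a = U b)
    (hV : ∀ a ∈ Ω, ∀ b ∈ Ω, Z a = Z b → U a = U b → V a = V b) {u0 : β} {v0 : γ}
    (heU0 : 0 < ((Ω.filter fun a => U a ≠ u0).card : ℝ))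
    (heV0 : 0 < ((Ω.filter fun a => V a ≠ v0).card : ℝ))
    (heU : ((Ω.filter fun a => U a ≠ u0).card : ℝ) = ep Ω U * Ω.card)
    (heV : ((Ω.filter fun a => V a ≠ v0).card : ℝ) = ep Ω V * Ω.card)
    (c1 : ep Ω U ≤ Real.exp (-(1 / δ))) (c2 : ep Ω V ≤ Real.exp (-(1 / δ))) :
    loss Ω U V Z ≤ δ * (hh Ω U + hh Ω V) +
      (40 + Real.exp (1 / δ)) * (ep Ω V * hh Ω U + ep Ω U * hh Ω V) +
      (1 + 2 * Real.log (Ω.card : ℝ)) * mi Ω U V := by
  have hN : (0 : ℝ) < Ω.card := by exact_mod_cast card_pos.2 hΩ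
  obtain ⟨lU, sU⟩ := small_mass hδ hΩ heU0 heU c1
  obtain ⟨lV, sV⟩ := small_mass hδ hΩ heV0 heV c2
  have hbU := hh_bound_mode Ω U u0
  have hbV := hh_bound_mode Ω V v0
  -- the partition
  obtain ⟨bad, hbad⟩ : ∃ bad : β → Prop, ∀ u, bad u ↔ (u ≠ u0 ∧
      8 * ((Ω.filter fun a => V a ≠ v0).card : ℝ) * cv Ω U u <
        ((Ω.filter fun a => V a ≠ v0 ∧ U a = u).card : ℝ) * Ω.card) := ⟨_, fun _ => Iff.rfl⟩
  obtain ⟨T, hTd⟩ : ∃ T : α → ℕ, ∀ a, T a = if U a = u0 ∨ V a = v0 then 0 else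
    if bad (U a) then 1 else 2 := ⟨_, fun _ => rfl⟩
  have hT : ∀ a ∈ Ω, ∀ b ∈ Ω, U a = U b → V a = V b → T a = T b := by
    intro a _ b _ h1 h2
    rw [hTd, hTd, h1, h2]
  have hT3 : ∀ a ∈ Ω, T a < 3 := by
    intro a _
    rw [hTd]
    split_ifs <;> norm_num
  have hsplit := loss_split U V Z T hT hT3
  rw [sum_range_succ, sum_range_succ, sum_range_succ, sum_range_zero, zero_add] at hsplit
  have m0 : ∀ a ∈ Ω.filter (fun a => T a = 0), U a = u0 ∨ V a = v0 := by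
    intro a ha
    have h1 := (mem_filter.1 ha).2
    by_contra hc
    rw [hTd, if_neg hc] at h1
    by_cases hb : bad (U a)
    · rw [if_pos hb] at h1
      exact absurd h1 (by norm_num)
    · rw [if_neg hb] at h1
      exact absurd h1 (by norm_num)
  have m1 : ∀ a ∈ Ω.filter (fun a => T a = 1), V a ≠ v0 ∧ bad (U a) := by
    intro a ha
    have h1 := (mem_filter.1 ha).2
    have hc : ¬ (U a = u0 ∨ V a = v0) := by
      intro hc
      rw [hTd, if_pos hc] at h1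
      exact absurd h1 (by norm_num)
    rw [hTd, if_neg hc] at h1
    by_cases hb : bad (U a)
    · exact ⟨fun h => hc (Or.inr h), hb⟩
    · rw [if_neg hb] at h1
      exact absurd h1 (by norm_num)
  have m2 : ∀ a ∈ Ω.filter (fun a => T a = 2), U a ≠ u0 ∧ V a ≠ v0 ∧ ¬ bad (U a) := by
    intro a ha
    have h1 := (mem_filter.1 ha).2
    have hc : ¬ (U a = u0 ∨ V a = v0) := by
      intro hc
      rw [hTd, if_pos hc] at h1
      exact absurd h1 (by norm_num)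
    rw [hTd, if_neg hc] at h1
    by_cases hb : bad (U a)
    · rw [if_pos hb] at h1
      exact absurd h1 (by norm_num)
    · exact ⟨fun h => hc (Or.inl h), fun h => hc (Or.inr h), hb⟩
  have hcards : ((Ω.filter fun a => T a = 0).card : ℝ) + (Ω.filter fun a => T a = 1).card +
      (Ω.filter fun a => T a = 2).card = Ω.card := by
    have h1 := Finset.card_eq_sum_card_fiberwise (s := Ω) (t := range 3) (f := T)
      (fun a ha => mem_range.2 (hT3 a ha))
    rw [sum_range_succ, sum_range_succ, sum_range_succ, sum_range_zero, zero_add] at h1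
    exact_mod_cast h1.symm
  have p0 := part0 (filter_subset _ _) hZ hU hV m0
  have p1 := part1 (U := U) (V := V) (Z := Z) (filter_subset (fun a => T a = 1) Ω)
  have hE2 : Ω.filter (fun a => T a = 2) ⊆ Ω.filter fun a => U a ≠ u0 :=
    fun a ha => mem_filter.2 ⟨(mem_filter.1 ha).1, (m2 a ha).1⟩
  have sub2 : Ω.filter (fun a => T a = 2) ⊆ Ω := filter_subset _ _
  have hct2 := part2_ct (Ω := Ω) (Ω2 := Ω.filter fun a => T a = 2) (U := U) sub2 hΩ heV (by
    intro a ha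
    obtain ⟨h1, h2, h3⟩ := m2 a ha
    refine ⟨h2, ?_⟩
    by_contra hc
    exact h3 ((hbad _).2 ⟨h1, not_le.1 hc⟩))
  have hepV := ep_nonneg hΩ V
  have hepU := ep_nonneg hΩ U
  have hq0 : 0 ≤ 8 * ep Ω V := by positivity
  have hN2c := good_card hE2 hq0 hct2
  have p2 := (loss_le_left (fun a ha b hb => hZ a (sub2 ha) b (sub2 hb))
      (fun a ha b hb => hV a (sub2 ha) b (sub2 hb))).trans (good_hh hE2 hq0 hct2)
  have hN1mi : ((Ω.filter fun a => T a = 1).card : ℝ) ≤ mi Ω U V := by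
    have h1 := bad_mass hΩ U V v0 bad (fun u hu => ((hbad u).1 hu).2.le)
    refine le_trans ?_ h1
    apply Nat.cast_le.2
    apply card_le_card
    intro a ha
    exact mem_filter.2 ⟨(mem_filter.1 ha).1, m1 a ha⟩
  have hlogn : 0 ≤ Real.log (Ω.card : ℝ) := Real.log_natCast_nonneg _
  have log1n : 0 ≤ Real.log ((Ω.filter fun a => T a = 1).card : ℝ) := Real.log_natCast_nonneg _
  have q0 := xlog_le (Nat.cast_nonneg (Ω.filter fun a => T a = 0).card) hN
  have q1 : ((Ω.filter fun a => T a = 1).card : ℝ) * (Real.log (Ω.card : ℝ) -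
      Real.log ((Ω.filter fun a => T a = 1).card : ℝ)) ≤
      ((Ω.filter fun a => T a = 1).card : ℝ) * Real.log (Ω.card : ℝ) :=
    mul_le_mul_of_nonneg_left (by linarith) (Nat.cast_nonneg _)
  have hpV : 0 < ep Ω V := by
    by_contra hc
    have h1 : ep Ω V = 0 := le_antisymm (not_lt.1 hc) hepV
    rw [h1, zero_mul] at heV
    linarith
  have q2 := part2_ent hN (Nat.cast_nonneg (Ω.filter fun a => T a = 2).card) heU0 heV0 heU heV
    hepU hpV hN2c hbU hbV lU lV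
  have hhU := hh_nonneg Ω U
  exact final_arith hepV hlogn hN2c sU sV hepU (sU.trans (mul_le_of_le_one_left hhU hδ1))
    (hh_nonneg Ω V) hhU (Real.exp_pos _).le hN1mi (by linarith)

/-- **the local inequality** -/
theorem local_ineq {δ : ℝ} (hδ : 0 < δ) (hδ1 : δ ≤ 1) {Ω : Finset α} (hΩ : Ω.Nonempty)
    {U : α → β} {V : α → γ} {Z : α → ζ}
    (hZ : ∀ a ∈ Ω, ∀ b ∈ Ω, U a = U b → V a = V b → Z a = Z b)
    (hU : ∀ a ∈ Ω, ∀ b ∈ Ω, Z a = Z b → V a = V b → U a = U b)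
    (hV : ∀ a ∈ Ω, ∀ b ∈ Ω, Z a = Z b → U a = U b → V a = V b) :
    loss Ω U V Z ≤ δ * (hh Ω U + hh Ω V) +
      (40 + Real.exp (1 / δ)) * (ep Ω V * hh Ω U + ep Ω U * hh Ω V) +
      (1 + 2 * Real.log (Ω.card : ℝ)) * mi Ω U V := by
  have hlogN : 0 ≤ Real.log (Ω.card : ℝ) := Real.log_natCast_nonneg _
  have hhU := hh_nonneg Ω U
  have hhV := hh_nonneg Ω V
  have hep1 := ep_nonneg hΩ U
  have hep2 := ep_nonneg hΩ V
  have hmi := mi_nonneg Ω U V
  have hexp := Real.exp_pos (1 / δ)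
  have hl1 := loss_le_left hZ hV
  have hl2 := loss_le_right hZ hU
  have n1 : 0 ≤ δ * (hh Ω U + hh Ω V) := by positivity
  have n2 : 0 ≤ (1 + 2 * Real.log (Ω.card : ℝ)) * mi Ω U V := by positivity
  have n3 : 0 ≤ ep Ω V * hh Ω U := by positivity
  have n4 : 0 ≤ ep Ω U * hh Ω V := by positivity
  have hone : Real.exp (1 / δ) * Real.exp (-(1 / δ)) = 1 := by
    rw [← Real.exp_add]
    simp
  have hexpand : (40 + Real.exp (1 / δ)) * (ep Ω V * hh Ω U + ep Ω U * hh Ω V) =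
      40 * (ep Ω V * hh Ω U) + 40 * (ep Ω U * hh Ω V) + Real.exp (1 / δ) * (ep Ω V * hh Ω U) +
        Real.exp (1 / δ) * (ep Ω U * hh Ω V) := by ring
  have n5 : 0 ≤ Real.exp (1 / δ) * (ep Ω V * hh Ω U) := by positivity
  have n6 : 0 ≤ Real.exp (1 / δ) * (ep Ω U * hh Ω V) := by positivity
  by_cases c1 : Real.exp (-(1 / δ)) < ep Ω U
  · have h1 : 1 ≤ Real.exp (1 / δ) * ep Ω U :=
      hone.symm.le.trans (mul_le_mul_of_nonneg_left c1.le hexp.le)
    have h2 : hh Ω V ≤ Real.exp (1 / δ) * ep Ω U * hh Ω V :=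
      le_mul_of_one_le_left hhV h1
    rw [hexpand]
    linarith
  by_cases c2 : Real.exp (-(1 / δ)) < ep Ω V
  · have h1 : 1 ≤ Real.exp (1 / δ) * ep Ω V :=
      hone.symm.le.trans (mul_le_mul_of_nonneg_left c2.le hexp.le)
    have h2 : hh Ω U ≤ Real.exp (1 / δ) * ep Ω V * hh Ω U :=
      le_mul_of_one_le_left hhU h1
    rw [hexpand]
    linarith
  push Not at c1 c2
  obtain ⟨x0, hx0, hx0'⟩ := exists_mx hΩ U
  obtain ⟨y0, hy0, hy0'⟩ := exists_mx hΩ V
  have hepU := ep_eq hΩ hx0'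
  have hepV := ep_eq hΩ hy0'
  rcases (Nat.cast_nonneg (Ω.filter fun a => U a ≠ U x0).card :
    (0 : ℝ) ≤ ((Ω.filter fun a => U a ≠ U x0).card : ℝ)).eq_or_lt with hz | heUp
  · have h1 := hh_zero hz.symm
    rw [hexpand]
    linarith
  rcases (Nat.cast_nonneg (Ω.filter fun a => V a ≠ V y0).card :
    (0 : ℝ) ≤ ((Ω.filter fun a => V a ≠ V y0).card : ℝ)).eq_or_lt with hz | heVp
  · have h1 := hh_zero hz.symm
    rw [hexpand]
    linarith
  exact local_small hδ hδ1 hΩ hZ hU hV heUp heVp hepU hepV c1 c2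

end Pool.Agent.H85.AK
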