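import Pool.Agent.H85.AK.Loc4

/-!
The local inequality, pointwise form.
-/

set_option autoImplicit false

namespace Pool.Agent.H85.AK

open Finset
open scoped Classical

variable {α β γ ζ : Type*}

theorem ct_le_filter {Ω : Finset α} {f : α → β} {a : α} {p : α → Prop} [DecidablePred p]
    (h : ∀ b ∈ Ω, f b = f a → p b) : ct Ω f a ≤ ((Ω.filter p).card : ℝ) := by
  unfold ct cv
  apply Nat.cast_le.2
  apply card_le_card
  intro b hb
  obtain ⟨h1, h2⟩ := mem_filter.1 hb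
  exact mem_filter.2 ⟨h1, h b h1 h2⟩

section zero

variable {Ω : Finset α} {U : α → β} {V : α → γ} {Z : α → ζ} {u0 : β} {v0 : γ}

/-- the points with exactly one popular digit -/
noncomputable def one (Ω : Finset α) (U : α → β) (V : α → γ) (u0 : β) (v0 : γ) : Finset α :=
  Ω.filter fun a => ¬ (U a = u0 ∧ V a = v0)

theorem zero_out (hZ : ∀ a ∈ Ω, ∀ b ∈ Ω, U a = U b → V a = V b → Z a = Z b)
    (hU : ∀ a ∈ Ω, ∀ b ∈ Ω, Z a = Z b → V a = V b → U a = U b)
    (hV : ∀ a ∈ Ω, ∀ b ∈ Ω, Z a = Z b → U a = U b → V a = V b)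
    (h0 : ∀ a ∈ Ω, U a = u0 ∨ V a = v0) {a : α} (ha : a ∈ Ω) (haQ : a ∉ one Ω U V u0 v0) :
    Real.log (ct Ω Z a) - Real.log (ct Ω (fun a => (U a, V a)) a) = 0 := by
  have alone : ∀ a ∈ Ω, ∀ b ∈ Ω, Z a = Z b → (U a = u0 ∧ V a = v0) → (U b = u0 ∧ V b = v0) := by
    intro a ha b hb hab h
    rcases h0 b hb with h1 | h1
    · exact ⟨h1, (hV a ha b hb hab (h.1.trans h1.symm)).symm.trans h.2⟩
    · exact ⟨(hU a ha b hb hab (h.2.trans h1.symm)).symm.trans h.1, h1⟩
  have h1 : U a = u0 ∧ V a = v0 := by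
    by_contra h
    exact haQ (mem_filter.2 ⟨ha, h⟩)
  rw [sub_eq_zero]
  congr 1
  apply ct_congr
  intro b hb
  simp only [Prod.mk.injEq]
  constructor
  · intro h2
    have h3 := alone a ha b hb h2.symm h1
    exact ⟨h3.1.trans h1.1.symm, h3.2.trans h1.2.symm⟩
  · rintro ⟨h2, h3⟩
    exact hZ b hb a ha h2 h3

theorem zero_in (hU : ∀ a ∈ Ω, ∀ b ∈ Ω, Z a = Z b → V a = V b → U a = U b)
    (hV : ∀ a ∈ Ω, ∀ b ∈ Ω, Z a = Z b → U a = U b → V a = V b)
    (h0 : ∀ a ∈ Ω, U a = u0 ∨ V a = v0) {a : α} (haQ : a ∈ one Ω U V u0 v0) :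
    ct Ω Z a = ct (one Ω U V u0 v0) Z a ∧ ct Ω (fun a => (U a, V a)) a =
      ct (one Ω U V u0 v0) (fun a => (U a, V a)) a := by
  have alone : ∀ a ∈ Ω, ∀ b ∈ Ω, Z a = Z b → (U a = u0 ∧ V a = v0) → (U b = u0 ∧ V b = v0) := by
    intro a ha b hb hab h
    rcases h0 b hb with h1 | h1
    · exact ⟨h1, (hV a ha b hb hab (h.1.trans h1.symm)).symm.trans h.2⟩
    · exact ⟨(hU a ha b hb hab (h.2.trans h1.symm)).symm.trans h.1, h1⟩
  have hsub : one Ω U V u0 v0 ⊆ Ω := filter_subset _ _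
  have hne : ¬ (U a = u0 ∧ V a = v0) := (mem_filter.1 haQ).2
  constructor
  · unfold ct cv
    congr 2
    ext b
    simp only [mem_filter]
    constructor
    · rintro ⟨h1, h2⟩
      refine ⟨?_, h2⟩
      exact mem_filter.2 ⟨h1, fun h3 => hne (alone b h1 a (hsub haQ) h2 h3)⟩
    · rintro ⟨h1, h2⟩
      exact ⟨hsub h1, h2⟩
  · unfold ct cv
    congr 2
    ext b
    simp only [mem_filter, Prod.mk.injEq]
    constructor
    · rintro ⟨h1, h2, h3⟩
      refine ⟨?_, h2, h3⟩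
      exact mem_filter.2 ⟨h1, fun h4 => hne ⟨h2.symm.trans h4.1, h3.symm.trans h4.2⟩⟩
    · rintro ⟨h1, h2⟩
      exact ⟨hsub h1, h2⟩

theorem zero_exp (hZ : ∀ a ∈ Ω, ∀ b ∈ Ω, U a = U b → V a = V b → Z a = Z b)
    (hU : ∀ a ∈ Ω, ∀ b ∈ Ω, Z a = Z b → V a = V b → U a = U b)
    (hV : ∀ a ∈ Ω, ∀ b ∈ Ω, Z a = Z b → U a = U b → V a = V b)
    (h0 : ∀ a ∈ Ω, U a = u0 ∨ V a = v0) :
    ∑ a ∈ one Ω U V u0 v0, ct (one Ω U V u0 v0) Z a /
      ct (one Ω U V u0 v0) (fun a => (U a, V a)) a ≤ 2 * ((one Ω U V u0 v0).card : ℝ) := by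
  set Q := one Ω U V u0 v0 with hQ
  have hsub : Q ⊆ Ω := filter_subset _ _
  have hne : ∀ a ∈ Q, ¬ (U a = u0 ∧ V a = v0) := fun a ha => (mem_filter.1 ha).2
  have e5 : ∀ a ∈ Q, ct Q (fun a => (Z a, decide (U a = u0))) a =
      ct Q (fun a => (U a, V a)) a := by
    intro a ha
    apply ct_congr
    intro b hb
    simp only [Prod.mk.injEq]
    constructor
    · rintro ⟨h4, h5⟩
      have h6 : (U b = u0) ↔ (U a = u0) := by
        simpa using h5
      rcases h0 a (hsub ha) with h7 | h7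
      · have h8 := h6.2 h7
        exact ⟨h8.trans h7.symm, hV b (hsub hb) a (hsub ha) h4 (h8.trans h7.symm)⟩
      · have h8 : V b = v0 := by
          rcases h0 b (hsub hb) with h9 | h9
          · exact absurd ⟨h6.1 h9, h7⟩ (hne a ha)
          · exact h9
        exact ⟨hU b (hsub hb) a (hsub ha) h4 (h8.trans h7.symm), h8.trans h7.symm⟩
    · rintro ⟨h4, h5⟩
      exact ⟨hZ b (hsub hb) a (hsub ha) h4 h5, by rw [h4]⟩
  set F : α → ζ × Bool := fun a => (Z a, decide (U a = u0)) with hF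
  have e6 : ∀ a ∈ Q, ct Q Z a / ct Q (fun a => (U a, V a)) a =
      (fun c : ζ × Bool => cv Q Z c.1) (F a) / ct Q F a := by
    intro a ha
    rw [← e5 a ha]
    rfl
  rw [sum_congr rfl e6, sum_div_ct Q F (fun c : ζ × Bool => cv Q Z c.1)]
  have hs : Q.image F ⊆ (Q.image Z) ×ˢ (univ : Finset Bool) := by
    intro c hc
    obtain ⟨a, ha, rfl⟩ := mem_image.1 hc
    exact mem_product.2 ⟨mem_image_of_mem _ ha, mem_univ _⟩
  refine (sum_le_sum_of_subset_of_nonneg hs fun c _ _ => cv_nonneg _ _ _).trans (le_of_eq ?_)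
  rw [sum_product]
  simp only [sum_const, card_univ, Fintype.card_bool, nsmul_eq_mul]
  rw [← mul_sum, sum_cv]
  norm_num

end zero

theorem final_arith' {L N1 N2 eU lg pU pV hU hV m ex : ℝ} (hpV : 0 ≤ pV) (hlg : 0 ≤ lg)
    (hN2c : N2 ≤ 8 * pV * eU) (hpU : 0 ≤ pU)
    (heU1 : eU ≤ hU) (hhV : 0 ≤ hV) (hhU : 0 ≤ hU) (hex : 0 ≤ ex) (hm : N1 ≤ m)
    (htot : L ≤ (N1 + N2) + (N1 * lg + N1 * lg) +
      ((8 * pV * eU + 8 * (pU * hV) + 8 * (pV * hU)) + (8 * pV * hU + 8 * pV * eU))) :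
    L ≤ (40 + ex) * (pV * hU + pU * hV) + (1 + 2 * lg) * m := by
  have r1 : 8 * pV * eU ≤ 8 * (pV * hU) := by
    have := mul_le_mul_of_nonneg_left heU1 hpV
    linarith
  have r3 : N1 * (1 + 2 * lg) ≤ (1 + 2 * lg) * m := by
    rw [mul_comm]
    exact mul_le_mul_of_nonneg_left hm (by positivity)
  have r4 : 0 ≤ ex * (pV * hU + pU * hV) := by positivity
  have r6 : 0 ≤ pU * hV := by positivity
  have r5 : (40 + ex) * (pV * hU + pU * hV) =
    40 * (pV * hU) + 40 * (pU * hV) + ex * (pV * hU + pU * hV) := by ring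
  rw [r5]
  linarith

/-- the data of the pointwise inequality -/
structure Pt (δ : ℝ) (Ω : Finset α) (U : α → β) (V : α → γ) (Z : α → ζ)
    (ex W y : α → ℝ) : Prop where
  bd : ∀ a ∈ Ω, Real.log (ct Ω Z a) - Real.log (ct Ω (fun a => (U a, V a)) a) ≤
    ex a + W a + Real.log 2 * y a
  ex0 : ∀ a ∈ Ω, 0 ≤ ex a
  exs : ∑ a ∈ Ω, ex a ≤ (40 + Real.exp (1 / δ)) * (ep Ω V * hh Ω U + ep Ω U * hh Ω V) +
    (1 + 2 * Real.log (Ω.card : ℝ)) * mi Ω U V
  Ws : ∑ a ∈ Ω, Real.exp (W a) ≤ Ω.card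
  yb : ∀ a ∈ Ω, y a * (1 / δ) ≤ Real.log (Ω.card : ℝ) -
    Real.log (ct Ω (fun a => (U a, V a)) a)
  Wc : ∀ a ∈ Ω, ∀ b ∈ Ω, U a = U b → V a = V b → W a = W b

/-- when the total loss is small -/
theorem pt_triv {δ : ℝ} {Ω : Finset α} {U : α → β} {V : α → γ} {Z : α → ζ}
    (hZ : ∀ a ∈ Ω, ∀ b ∈ Ω, U a = U b → V a = V b → Z a = Z b)
    (h : loss Ω U V Z ≤ (40 + Real.exp (1 / δ)) * (ep Ω V * hh Ω U + ep Ω U * hh Ω V) +
      (1 + 2 * Real.log (Ω.card : ℝ)) * mi Ω U V) :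
    ∃ ex W y : α → ℝ, Pt δ Ω U V Z ex W y := by
  refine ⟨fun a => Real.log (ct Ω Z a) - Real.log (ct Ω (fun a => (U a, V a)) a), fun _ => 0,
    fun _ => 0, ?_, ?_, h, ?_, ?_, fun _ _ _ _ _ _ => rfl⟩
  · intro a _
    simp
  · intro a ha
    apply sub_nonneg.2
    apply Real.log_le_log (ct_pos _ ha)
    apply ct_mono
    intro b hb hab
    simp only [Prod.mk.injEq] at hab
    exact hZ b hb a ha hab.1 hab.2
  · simp
  · intro a ha
    rw [zero_mul]
    exact sub_nonneg.2 (log_ct_le _ ha)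

/-- the case of very popular digits -/
theorem pt_small {δ : ℝ} (hδ : 0 < δ) (hδ1 : δ ≤ 1) {Ω : Finset α} (hΩ : Ω.Nonempty)
    {U : α → β} {V : α → γ} {Z : α → ζ}
    (hZ : ∀ a ∈ Ω, ∀ b ∈ Ω, U a = U b → V a = V b → Z a = Z b)
    (hU : ∀ a ∈ Ω, ∀ b ∈ Ω, Z a = Z b → V a = V b → U a = U b)
    (hV : ∀ a ∈ Ω, ∀ b ∈ Ω, Z a = Z b → U a = U b → V a = V b) {u0 : β} {v0 : γ}
    (heU0 : 0 < ((Ω.filter fun a => U a ≠ u0).card : ℝ))
    (heV0 : 0 < ((Ω.filter fun a => V a ≠ v0).card : ℝ))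
    (heU : ((Ω.filter fun a => U a ≠ u0).card : ℝ) = ep Ω U * Ω.card)
    (heV : ((Ω.filter fun a => V a ≠ v0).card : ℝ) = ep Ω V * Ω.card)
    (c1 : ep Ω U ≤ Real.exp (-(1 / δ))) (c2 : ep Ω V ≤ Real.exp (-(1 / δ))) :
    ∃ ex W y : α → ℝ, Pt δ Ω U V Z ex W y := by
  have hN : (0 : ℝ) < Ω.card := by exact_mod_cast card_pos.2 hΩ
  obtain ⟨lU, sU⟩ := small_mass hδ hΩ heU0 heU c1
  obtain ⟨lV, sV⟩ := small_mass hδ hΩ heV0 heV c2
  have hbU := hh_bound_mode Ω U u0
  have hbV := hh_bound_mode Ω V v0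
  -- the partition
  obtain ⟨bad, hbad⟩ : ∃ bad : β → Prop, ∀ u, bad u ↔ (u ≠ u0 ∧
      8 * ((Ω.filter fun a => V a ≠ v0).card : ℝ) * cv Ω U u <
        ((Ω.filter fun a => V a ≠ v0 ∧ U a = u).card : ℝ) * Ω.card) := ⟨_, fun _ => Iff.rfl⟩
  obtain ⟨T, hTd⟩ : ∃ T : α → ℕ, ∀ a, T a = if U a = u0 ∨ V a = v0 then 0 else
    if bad (U a) then 1 else 2 := ⟨_, fun _ => rfl⟩
  have hT : ∀ a ∈ Ω, ∀ b ∈ Ω, U a = U b → V a = V b → T a = T b := by
    intro a _ b _ h1 h2
    rw [hTd, hTd, h1, h2]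
  have hT3 : ∀ a ∈ Ω, T a < 3 := by
    intro a _
    rw [hTd]
    split_ifs <;> norm_num
  have m0 : ∀ a ∈ Ω.filter (fun a => T a = 0), U a = u0 ∨ V a = v0 := by
    intro a ha
    have h1 := (mem_filter.1 ha).2
    by_contra hc
    rw [hTd, if_neg hc] at h1
    by_cases hb : bad (U a)
    · rw [if_pos hb] at h1
      exact absurd h1 (by norm_num)
    · rw [if_neg hb] at h1
      exact absurd h1 (by norm_num)
  have m1 : ∀ a ∈ Ω.filter (fun a => T a = 1), V a ≠ v0 ∧ bad (U a) := by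
    intro a ha
    have h1 := (mem_filter.1 ha).2
    have hc : ¬ (U a = u0 ∨ V a = v0) := by
      intro hc
      rw [hTd, if_pos hc] at h1
      exact absurd h1 (by norm_num)
    rw [hTd, if_neg hc] at h1
    by_cases hb : bad (U a)
    · exact ⟨fun h => hc (Or.inr h), hb⟩
    · rw [if_neg hb] at h1
      exact absurd h1 (by norm_num)
  have m2 : ∀ a ∈ Ω.filter (fun a => T a = 2), U a ≠ u0 ∧ V a ≠ v0 ∧ ¬ bad (U a) := by
    intro a ha
    have h1 := (mem_filter.1 ha).2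
    have hc : ¬ (U a = u0 ∨ V a = v0) := by
      intro hc
      rw [hTd, if_pos hc] at h1
      exact absurd h1 (by norm_num)
    rw [hTd, if_neg hc] at h1
    by_cases hb : bad (U a)
    · rw [if_pos hb] at h1
      exact absurd h1 (by norm_num)
    · exact ⟨fun h => hc (Or.inl h), fun h => hc (Or.inr h), hb⟩
  have hcards : ((Ω.filter fun a => T a = 0).card : ℝ) + (Ω.filter fun a => T a = 1).card +
      (Ω.filter fun a => T a = 2).card = Ω.card := by
    have h1 := Finset.card_eq_sum_card_fiberwise (s := Ω) (t := range 3) (f := T)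
      (fun a ha => mem_range.2 (hT3 a ha))
    rw [sum_range_succ, sum_range_succ, sum_range_succ, sum_range_zero, zero_add] at h1
    exact_mod_cast h1.symm
  have p1 := part1 (U := U) (V := V) (Z := Z) (filter_subset (fun a => T a = 1) Ω)
  have hE2 : Ω.filter (fun a => T a = 2) ⊆ Ω.filter fun a => U a ≠ u0 :=
    fun a ha => mem_filter.2 ⟨(mem_filter.1 ha).1, (m2 a ha).1⟩
  have sub2 : Ω.filter (fun a => T a = 2) ⊆ Ω := filter_subset _ _
  have hct2 := part2_ct (Ω := Ω) (Ω2 := Ω.filter fun a => T a = 2) (U := U) sub2 hΩ heV (by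
    intro a ha
    obtain ⟨h1, h2, h3⟩ := m2 a ha
    refine ⟨h2, ?_⟩
    by_contra hc
    exact h3 ((hbad _).2 ⟨h1, not_le.1 hc⟩))
  have hepV := ep_nonneg hΩ V
  have hepU := ep_nonneg hΩ U
  have hq0 : 0 ≤ 8 * ep Ω V := by positivity
  have hN2c := good_card hE2 hq0 hct2
  have p2 := (loss_le_left (fun a ha b hb => hZ a (sub2 ha) b (sub2 hb))
      (fun a ha b hb => hV a (sub2 ha) b (sub2 hb))).trans (good_hh hE2 hq0 hct2)
  have hN1mi : ((Ω.filter fun a => T a = 1).card : ℝ) ≤ mi Ω U V := by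
    have h1 := bad_mass hΩ U V v0 bad (fun u hu => ((hbad u).1 hu).2.le)
    refine le_trans ?_ h1
    apply Nat.cast_le.2
    apply card_le_card
    intro a ha
    exact mem_filter.2 ⟨(mem_filter.1 ha).1, m1 a ha⟩
  have hlogn : 0 ≤ Real.log (Ω.card : ℝ) := Real.log_natCast_nonneg _
  have log1n : 0 ≤ Real.log ((Ω.filter fun a => T a = 1).card : ℝ) := Real.log_natCast_nonneg _
  have q0 := xlog_le (Nat.cast_nonneg (Ω.filter fun a => T a = 0).card) hN
  have q1 : ((Ω.filter fun a => T a = 1).card : ℝ) * (Real.log (Ω.card : ℝ) -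
      Real.log ((Ω.filter fun a => T a = 1).card : ℝ)) ≤
      ((Ω.filter fun a => T a = 1).card : ℝ) * Real.log (Ω.card : ℝ) :=
    mul_le_mul_of_nonneg_left (by linarith) (Nat.cast_nonneg _)
  have hpV : 0 < ep Ω V := by
    by_contra hc
    have h1 : ep Ω V = 0 := le_antisymm (not_lt.1 hc) hepV
    rw [h1, zero_mul] at heV
    linarith
  have q2 := part2_ent hN (Nat.cast_nonneg (Ω.filter fun a => T a = 2).card) heU0 heV0 heU heV
    hepU hpV hN2c hbU hbV lU lV
  have hhU := hh_nonneg Ω U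
  -- the three functions
  set Ω0 := Ω.filter fun a => T a = 0 with hΩ0
  have sub0 : Ω0 ⊆ Ω := filter_subset _ _
  have hZ0 : ∀ a ∈ Ω0, ∀ b ∈ Ω0, U a = U b → V a = V b → Z a = Z b :=
    fun a ha b hb => hZ a (sub0 ha) b (sub0 hb)
  have hU0 : ∀ a ∈ Ω0, ∀ b ∈ Ω0, Z a = Z b → V a = V b → U a = U b :=
    fun a ha b hb => hU a (sub0 ha) b (sub0 hb)
  have hV0 : ∀ a ∈ Ω0, ∀ b ∈ Ω0, Z a = Z b → U a = U b → V a = V b :=
    fun a ha b hb => hV a (sub0 ha) b (sub0 hb)
  set Q := one Ω0 U V u0 v0 with hQ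
  have subQ0 : Q ⊆ Ω0 := filter_subset _ _
  have subQ : Q ⊆ Ω := subQ0.trans sub0
  have memQ : ∀ a ∈ Ω, a ∈ Q ↔ (T a = 0 ∧ ¬ (U a = u0 ∧ V a = v0)) := by
    intro a ha
    rw [hQ, hΩ0]
    unfold one
    rw [mem_filter, mem_filter]
    tauto
  have eT : ∀ a ∈ Ω, ct Ω (fun a => (U a, V a)) a =
      ct (Ω.filter fun b => T b = T a) (fun a => (U a, V a)) a := by
    intro a ha
    rw [ct_filter]
    apply ct_congr
    intro b hb
    simp only [Prod.mk.injEq]
    constructor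
    · rintro ⟨h2, h3⟩
      exact ⟨⟨h2, h3⟩, hT b hb a ha h2 h3⟩
    · exact fun h2 => h2.1
  set f1 : α → ℝ := fun a => Real.log (ct Ω Z a) -
    Real.log (ct (Ω.filter fun b => T b = T a) Z a) with hf1
  set f2 : α → ℝ := fun a => Real.log (ct (Ω.filter fun b => T b = T a) Z a) -
    Real.log (ct (Ω.filter fun b => T b = T a) (fun a => (U a, V a)) a) with hf2
  have hf10 : ∀ a ∈ Ω, 0 ≤ f1 a := by
    intro a ha
    have ha' : a ∈ Ω.filter (fun b => T b = T a) := mem_filter.2 ⟨ha, rfl⟩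
    apply sub_nonneg.2
    apply Real.log_le_log (ct_pos _ ha')
    unfold ct cv
    apply Nat.cast_le.2
    apply card_le_card
    exact filter_subset_filter _ (filter_subset _ _)
  have hf20 : ∀ a ∈ Ω, 0 ≤ f2 a := by
    intro a ha
    have ha' : a ∈ Ω.filter (fun b => T b = T a) := mem_filter.2 ⟨ha, rfl⟩
    apply sub_nonneg.2
    apply Real.log_le_log (ct_pos _ ha')
    apply ct_mono
    intro b hb hab
    simp only [Prod.mk.injEq] at hab
    exact hZ b (mem_filter.1 hb).1 a ha hab.1 hab.2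
  refine ⟨fun a => f1 a + if T a = 0 then 0 else f2 a,
    fun a => if a ∈ Q then Real.log (ct Q Z a / (2 * ct Q (fun a => (U a, V a)) a)) else 0,
    fun a => if a ∈ Q then 1 else 0, ?_, ?_, ?_, ?_, ?_, ?_⟩
  · -- the bound
    intro a ha
    have h1 : Real.log (ct Ω Z a) - Real.log (ct Ω (fun a => (U a, V a)) a) = f1 a + f2 a := by
      rw [eT a ha]
      simp only [hf1, hf2]
      ring
    rw [h1]
    by_cases hT0 : T a = 0
    · have ha0 : a ∈ Ω0 := mem_filter.2 ⟨ha, hT0⟩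
      have e2 : f2 a = Real.log (ct Ω0 Z a) - Real.log (ct Ω0 (fun a => (U a, V a)) a) := by
        simp only [hf2, hT0]
        rfl
      by_cases haQ : a ∈ Q
      · obtain ⟨z1, z2⟩ := zero_in hU0 hV0 m0 haQ
        rw [z1, z2] at e2
        have p1 := ct_pos Z haQ
        have p2 := ct_pos (fun a => (U a, V a)) haQ
        simp only [if_pos hT0, if_pos haQ]
        rw [e2, Real.log_div p1.ne' (by positivity), Real.log_mul (by norm_num) p2.ne']
        linarith
      · have e3 := zero_out hZ0 hU0 hV0 m0 ha0 haQ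
        rw [e2, e3]
        simp only [if_pos hT0, if_neg haQ]
        linarith
    · have haQ : a ∉ Q := fun h => hT0 ((memQ a ha).1 h).1
      simp only [if_neg hT0, if_neg haQ]
      linarith
  · intro a ha
    have h1 := hf10 a ha
    have h2 := hf20 a ha
    show 0 ≤ f1 a + if T a = 0 then 0 else f2 a
    split_ifs <;> linarith
  · -- the sum of the expensive part
    rw [sum_add_distrib]
    have s1 : ∑ a ∈ Ω, f1 a ≤ ∑ t ∈ range 3, (((Ω.filter fun a => T a = t).card : ℝ) *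
        (Real.log (Ω.card : ℝ) - Real.log ((Ω.filter fun a => T a = t).card : ℝ))) := by
      have h := subadd Ω Z T
      have h1 : ∑ a ∈ Ω, f1 a ≤ ∑ a ∈ Ω, (Real.log (Ω.card : ℝ) - Real.log (ct Ω T a)) := by
        have e1 : ∀ a ∈ Ω, f1 a = Real.log (ct Ω Z a) -
            Real.log (ct Ω (fun a => (Z a, T a)) a) := by
          intro a ha
          simp only [hf1]
          rw [ct_filter]
        rw [sum_congr rfl e1]
        rw [← sub_nonneg, ← sum_sub_distrib] at h ⊢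
        refine h.trans (le_of_eq ?_)
        apply sum_congr rfl
        intro a _
        ring
      refine h1.trans (le_of_eq ?_)
      rw [← Finset.sum_fiberwise_of_maps_to (s := Ω) (t := range 3) (g := T)
        fun a ha => mem_range.2 (hT3 a ha)]
      apply sum_congr rfl
      intro t _
      rw [← nsmul_eq_mul, ← sum_const]
      apply sum_congr rfl
      intro a ha
      obtain ⟨ha1, ha2⟩ := mem_filter.1 ha
      subst ha2
      have e3 : ct Ω T a = ((Ω.filter fun b => T b = T a).card : ℝ) := cv_eq Ω T (T a)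
      rw [e3]
    have s2 : ∑ a ∈ Ω, (if T a = 0 then 0 else f2 a) =
        loss (Ω.filter fun a => T a = 1) U V Z + loss (Ω.filter fun a => T a = 2) U V Z := by
      rw [← Finset.sum_fiberwise_of_maps_to (s := Ω) (t := range 3) (g := T)
        fun a ha => mem_range.2 (hT3 a ha)]
      rw [sum_range_succ, sum_range_succ, sum_range_succ, sum_range_zero, zero_add]
      have e0 : ∑ a ∈ Ω.filter (fun a => T a = 0), (if T a = 0 then 0 else f2 a) = 0 := by
        apply sum_eq_zero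
        intro a ha
        rw [if_pos (mem_filter.1 ha).2]
      have e1 : ∑ a ∈ Ω.filter (fun a => T a = 1), (if T a = 0 then 0 else f2 a) =
          loss (Ω.filter fun a => T a = 1) U V Z := by
        unfold loss
        apply sum_congr rfl
        intro a ha
        have h1 := (mem_filter.1 ha).2
        rw [if_neg (by rw [h1]; norm_num)]
        simp only [hf2, h1]
      have e2 : ∑ a ∈ Ω.filter (fun a => T a = 2), (if T a = 0 then 0 else f2 a) =
          loss (Ω.filter fun a => T a = 2) U V Z := by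
        unfold loss
        apply sum_congr rfl
        intro a ha
        have h1 := (mem_filter.1 ha).2
        rw [if_neg (by rw [h1]; norm_num)]
        simp only [hf2, h1]
      rw [e0, e1, e2, zero_add]
    rw [sum_range_succ, sum_range_succ, sum_range_succ, sum_range_zero, zero_add] at s1
    rw [s2]
    exact final_arith' hepV hlogn hN2c hepU (sU.trans (mul_le_of_le_one_left hhU hδ1))
      (hh_nonneg Ω V) hhU (Real.exp_pos _).le hN1mi (by linarith)
  · -- the exponential sum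
    have e1 : ∑ a ∈ Ω, Real.exp (if a ∈ Q then
        Real.log (ct Q Z a / (2 * ct Q (fun a => (U a, V a)) a)) else 0) =
        ∑ a ∈ Q, ct Q Z a / (2 * ct Q (fun a => (U a, V a)) a) +
          ∑ a ∈ Ω \ Q, (1 : ℝ) := by
      rw [← sum_sdiff subQ, add_comm]
      congr 1
      · apply sum_congr rfl
        intro a ha
        have p1 := ct_pos Z ha
        have p2 := ct_pos (fun a => (U a, V a)) ha
        rw [if_pos ha, Real.exp_log (by positivity)]
      · apply sum_congr rfl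
        intro a ha
        rw [if_neg (mem_sdiff.1 ha).2, Real.exp_zero]
    rw [e1, sum_const, nsmul_eq_mul, mul_one]
    have e2 : ∑ a ∈ Q, ct Q Z a / (2 * ct Q (fun a => (U a, V a)) a) =
        (∑ a ∈ Q, ct Q Z a / ct Q (fun a => (U a, V a)) a) / 2 := by
      rw [sum_div]
      apply sum_congr rfl
      intro a _
      rw [div_div, mul_comm]
    have e3 := zero_exp hZ0 hU0 hV0 m0
    have e4 : ((Ω \ Q).card : ℝ) + Q.card = Ω.card := by
      exact_mod_cast card_sdiff_add_card_eq_card subQ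
    rw [e2]
    linarith
  · -- the number of cheap steps
    intro a ha
    show (if a ∈ Q then (1 : ℝ) else 0) * (1 / δ) ≤ _
    by_cases haQ : a ∈ Q
    · rw [if_pos haQ, one_mul]
      have h1 := ((memQ a ha).1 haQ).2
      have p2 := ct_pos (fun a => (U a, V a)) ha
      have key : ct Ω (fun a => (U a, V a)) a ≤ Real.exp (-(1 / δ)) * Ω.card := by
        by_cases h2 : U a = u0
        · have h3 : V a ≠ v0 := fun h => h1 ⟨h2, h⟩
          have h4 : ct Ω (fun a => (U a, V a)) a ≤ ((Ω.filter fun a => V a ≠ v0).card : ℝ) := by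
            apply ct_le_filter
            intro b _ h6
            simp only [Prod.mk.injEq] at h6
            rw [h6.2]
            exact h3
          rw [heV] at h4
          exact h4.trans (mul_le_mul_of_nonneg_right c2 hN.le)
        · have h4 : ct Ω (fun a => (U a, V a)) a ≤ ((Ω.filter fun a => U a ≠ u0).card : ℝ) := by
            apply ct_le_filter
            intro b _ h6
            simp only [Prod.mk.injEq] at h6
            rw [h6.1]
            exact h2
          rw [heU] at h4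
          exact h4.trans (mul_le_mul_of_nonneg_right c1 hN.le)
      have h5 := Real.log_le_log p2 key
      rw [Real.log_mul (Real.exp_pos _).ne' hN.ne', Real.log_exp] at h5
      linarith
    · rw [if_neg haQ, zero_mul]
      exact sub_nonneg.2 (log_ct_le _ ha)
  · -- measurability
    intro a ha b hb h1 h2
    have hTab := hT a ha b hb h1 h2
    have hmem : a ∈ Q ↔ b ∈ Q := by
      rw [memQ a ha, memQ b hb, hTab, h1, h2]
    by_cases haQ : a ∈ Q
    · have hbQ := hmem.1 haQ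
      have hZab := hZ a ha b hb h1 h2
      have e1 : ct Q Z a = ct Q Z b := by
        unfold ct
        rw [hZab]
      have e2 : ct Q (fun a => (U a, V a)) a = ct Q (fun a => (U a, V a)) b := by
        show cv Q (fun a => (U a, V a)) (U a, V a) = cv Q (fun a => (U a, V a)) (U b, V b)
        rw [h1, h2]
      show (if a ∈ Q then _ else _) = (if b ∈ Q then _ else _)
      rw [if_pos haQ, if_pos hbQ, e1, e2]
    · have hbQ : b ∉ Q := fun h => haQ (hmem.2 h)
      show (if a ∈ Q then _ else _) = (if b ∈ Q then _ else _)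
      rw [if_neg haQ, if_neg hbQ]

/-- **the pointwise local inequality** -/
theorem local_pt {δ : ℝ} (hδ : 0 < δ) (hδ1 : δ ≤ 1) {Ω : Finset α} (hΩ : Ω.Nonempty)
    {U : α → β} {V : α → γ} {Z : α → ζ}
    (hZ : ∀ a ∈ Ω, ∀ b ∈ Ω, U a = U b → V a = V b → Z a = Z b)
    (hU : ∀ a ∈ Ω, ∀ b ∈ Ω, Z a = Z b → V a = V b → U a = U b)
    (hV : ∀ a ∈ Ω, ∀ b ∈ Ω, Z a = Z b → U a = U b → V a = V b) :
    ∃ ex W y : α → ℝ, Pt δ Ω U V Z ex W y := by
  have hlogN : 0 ≤ Real.log (Ω.card : ℝ) := Real.log_natCast_nonneg _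
  have hhU := hh_nonneg Ω U
  have hhV := hh_nonneg Ω V
  have hep1 := ep_nonneg hΩ U
  have hep2 := ep_nonneg hΩ V
  have hmi := mi_nonneg Ω U V
  have hexp := Real.exp_pos (1 / δ)
  have hl1 := loss_le_left hZ hV
  have hl2 := loss_le_right hZ hU
  have n2 : 0 ≤ (1 + 2 * Real.log (Ω.card : ℝ)) * mi Ω U V := by positivity
  have n3 : 0 ≤ ep Ω V * hh Ω U := by positivity
  have n4 : 0 ≤ ep Ω U * hh Ω V := by positivity
  have hone : Real.exp (1 / δ) * Real.exp (-(1 / δ)) = 1 := by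
    rw [← Real.exp_add]
    simp
  have hexpand : (40 + Real.exp (1 / δ)) * (ep Ω V * hh Ω U + ep Ω U * hh Ω V) =
      40 * (ep Ω V * hh Ω U) + 40 * (ep Ω U * hh Ω V) + Real.exp (1 / δ) * (ep Ω V * hh Ω U) +
        Real.exp (1 / δ) * (ep Ω U * hh Ω V) := by ring
  have n5 : 0 ≤ Real.exp (1 / δ) * (ep Ω V * hh Ω U) := by positivity
  have n6 : 0 ≤ Real.exp (1 / δ) * (ep Ω U * hh Ω V) := by positivity
  by_cases c1 : Real.exp (-(1 / δ)) < ep Ω U
  · have h1 : 1 ≤ Real.exp (1 / δ) * ep Ω U :=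
      hone.symm.le.trans (mul_le_mul_of_nonneg_left c1.le hexp.le)
    have h2 : hh Ω V ≤ Real.exp (1 / δ) * ep Ω U * hh Ω V :=
      le_mul_of_one_le_left hhV h1
    apply pt_triv hZ
    rw [hexpand]
    linarith
  by_cases c2 : Real.exp (-(1 / δ)) < ep Ω V
  · have h1 : 1 ≤ Real.exp (1 / δ) * ep Ω V :=
      hone.symm.le.trans (mul_le_mul_of_nonneg_left c2.le hexp.le)
    have h2 : hh Ω U ≤ Real.exp (1 / δ) * ep Ω V * hh Ω U :=
      le_mul_of_one_le_left hhU h1
    apply pt_triv hZ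
    rw [hexpand]
    linarith
  push Not at c1 c2
  obtain ⟨x0, hx0, hx0'⟩ := exists_mx hΩ U
  obtain ⟨y0, hy0, hy0'⟩ := exists_mx hΩ V
  have hepU := ep_eq hΩ hx0'
  have hepV := ep_eq hΩ hy0'
  rcases (Nat.cast_nonneg (Ω.filter fun a => U a ≠ U x0).card :
    (0 : ℝ) ≤ ((Ω.filter fun a => U a ≠ U x0).card : ℝ)).eq_or_lt with hz | heUp
  · have h1 := hh_zero hz.symm
    apply pt_triv hZ
    rw [hexpand]
    linarith
  rcases (Nat.cast_nonneg (Ω.filter fun a => V a ≠ V y0).card :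
    (0 : ℝ) ≤ ((Ω.filter fun a => V a ≠ V y0).card : ℝ)).eq_or_lt with hz | heVp
  · have h1 := hh_zero hz.symm
    apply pt_triv hZ
    rw [hexpand]
    linarith
  exact pt_small hδ hδ1 hΩ hZ hU hV heUp heVp hepU hepV c1 c2

end Pool.Agent.H85.AK
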