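import Mathlib

/-!
Sets with many exceptional slopes.
-/

set_option autoImplicit false

namespace Pool.Agent.H85.AK

open Finset
open scoped Pointwise

/-- a run of powers -/
def DD (p h e : ℕ) : Finset ℤ := (range (4 * h)).image fun a => (p : ℤ) ^ (e + a)

theorem card_DD (p h e : ℕ) : (DD p h e).card ≤ 4 * h :=
  card_image_le.trans (by rw [card_range])

theorem card_DD_pair (p : ℕ) {h e f : ℕ} (h1 : e ≤ f) (h2 : f ≤ e + 2 * h) :
    (DD p h e + DD p h f).card ≤ 15 * h ^ 2 := by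
  set Y : Finset (ℕ × ℕ) := (range (4 * h) ×ˢ range (4 * h)) \ (Ico (3 * h) (4 * h) ×ˢ range h)
    with hY
  have hsub : DD p h e + DD p h f ⊆ Y.image fun c => (p : ℤ) ^ (e + c.1) + (p : ℤ) ^ (f + c.2) := by
    intro z hz
    obtain ⟨u, hu, v, hv, rfl⟩ := mem_add.1 hz
    obtain ⟨a, ha, rfl⟩ := mem_image.1 hu
    obtain ⟨b, hb, rfl⟩ := mem_image.1 hv
    have ha' := mem_range.1 ha
    have hb' := mem_range.1 hb
    by_cases hbad : 3 * h ≤ a ∧ b < h
    · refine mem_image.2 ⟨(f + b - e, e + a - f), ?_, ?_⟩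
      · rw [hY, mem_sdiff, mem_product, mem_product]
        simp only [mem_range, mem_Ico]
        omega
      · have e1 : e + (f + b - e) = f + b := by omega
        have e2 : f + (e + a - f) = e + a := by omega
        show (p : ℤ) ^ (e + (f + b - e)) + (p : ℤ) ^ (f + (e + a - f)) = _
        rw [e1, e2]
        show (p : ℤ) ^ (f + b) + (p : ℤ) ^ (e + a) = (p : ℤ) ^ (e + a) + (p : ℤ) ^ (f + b)
        ring
    · refine mem_image.2 ⟨(a, b), ?_, rfl⟩
      rw [hY, mem_sdiff, mem_product, mem_product]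
      simp only [mem_range, mem_Ico]
      omega
  refine (card_le_card hsub).trans (card_image_le.trans ?_)
  rw [hY, card_sdiff_of_subset, card_product, card_product, card_range, card_range, Nat.card_Ico]
  · have e3 : 4 * h - 3 * h = h := by omega
    rw [e3]
    have : 4 * h * (4 * h) = 15 * h ^ 2 + h * h := by ring
    omega
  · intro c hc
    rw [mem_product] at hc ⊢
    simp only [mem_range, mem_Ico] at hc ⊢
    omega

theorem card_DD_pair' (p : ℕ) {h e f : ℕ} (h1 : e ≤ f + 2 * h) (h2 : f ≤ e + 2 * h) :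
    (DD p h e + DD p h f).card ≤ 15 * h ^ 2 := by
  rcases le_total e f with h3 | h3
  · exact card_DD_pair p h3 h2
  · rw [add_comm]
    exact card_DD_pair p h3 h1

/-- sums of powers, one from each run -/
def GG (p h m i : ℕ) : Finset ℤ := ∑ t ∈ range m, DD p h (t * (4 * h) + i)

theorem card_sum_le_pow (F : ℕ → Finset ℤ) (c n : ℕ) (hF : ∀ t, (F t).card ≤ c) :
    (∑ t ∈ range n, F t).card ≤ c ^ n := by
  induction n with
  | zero => simp
  | succ n ih =>
    rw [sum_range_succ, pow_succ]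
    exact card_add_le.trans (Nat.mul_le_mul ih (hF n))

theorem GG_succ (p h m i : ℕ) : GG p h (m + 1) i = GG p h m i + DD p h (m * (4 * h) + i) := by
  unfold GG
  rw [sum_range_succ]

theorem GG_bound {p h : ℕ} (hp : 2 ≤ p) (m : ℕ) :
    ∀ g ∈ GG p h m 0, 0 ≤ g ∧ g < (p : ℤ) ^ (m * (4 * h)) := by
  induction m with
  | zero =>
    intro g hg
    simp only [GG, range_zero, sum_empty] at hg
    have : g = 0 := by simpa using hg
    rw [this]
    simp
  | succ m ih =>
    intro g hg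
    rw [GG_succ] at hg
    obtain ⟨u, hu, v, hv, rfl⟩ := mem_add.1 hg
    obtain ⟨a, ha, rfl⟩ := mem_image.1 hv
    have ha' := mem_range.1 ha
    obtain ⟨h1, h2⟩ := ih u hu
    have hp0 : (1 : ℤ) ≤ p := by omega
    have hp2 : (2 : ℤ) ≤ p := by exact_mod_cast hp
    have h3 : (p : ℤ) ^ (m * (4 * h)) ≤ (p : ℤ) ^ (m * (4 * h) + a) :=
      pow_le_pow_right₀ hp0 (by omega)
    have h4 : (p : ℤ) ^ (m * (4 * h) + a + 1) ≤ (p : ℤ) ^ ((m + 1) * (4 * h)) :=
      pow_le_pow_right₀ hp0 (by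
        have : (m + 1) * (4 * h) = m * (4 * h) + 4 * h := by ring
        omega)
    have h5 : (p : ℤ) ^ (m * (4 * h) + a + 1) = (p : ℤ) ^ (m * (4 * h) + a) * p := pow_succ _ _
    have h6 : 0 < (p : ℤ) ^ (m * (4 * h) + a) := by positivity
    simp only [add_zero] at *
    constructor
    · linarith
    · have h7 : (p : ℤ) ^ (m * (4 * h) + a) * 2 ≤ (p : ℤ) ^ (m * (4 * h) + a) * p :=
        mul_le_mul_of_nonneg_left hp2 h6.le
      linarith

theorem card_DD_eq {p : ℕ} (hp : 2 ≤ p) (h e : ℕ) : (DD p h e).card = 4 * h := by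
  unfold DD
  rw [card_image_of_injective, card_range]
  intro a b hab
  have h1 : (1 : ℤ) < p := by exact_mod_cast (show 1 < p by omega)
  have h2 := pow_right_injective₀ (show (0 : ℤ) < p by omega) h1.ne' hab
  have h3 : e + a = e + b := h2
  omega

theorem card_GG {p : ℕ} (hp : 2 ≤ p) (h m : ℕ) : (GG p h m 0).card = (4 * h) ^ m := by
  induction m with
  | zero => simp [GG]
  | succ m ih =>
    have hinj : Set.InjOn (fun c : ℤ × ℤ => c.1 + c.2)
        ((GG p h m 0 : Set ℤ) ×ˢ (DD p h (m * (4 * h) + 0) : Set ℤ)) := by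
      rintro ⟨u, v⟩ ⟨hu, hv⟩ ⟨u', v'⟩ ⟨hu', hv'⟩ heq
      simp only at heq
      obtain ⟨h1, h2⟩ := GG_bound hp m u hu
      obtain ⟨h3, h4⟩ := GG_bound hp m u' hu'
      obtain ⟨a, ha, rfl⟩ := mem_image.1 (mem_coe.1 hv)
      obtain ⟨b, hb, rfl⟩ := mem_image.1 (mem_coe.1 hv')
      have hp1 : (1 : ℤ) ≤ p := by exact_mod_cast (show 1 ≤ p by omega)
      have hp2 : (2 : ℤ) ≤ p := by exact_mod_cast hp
      have key : ∀ a b : ℕ, a < b → ∀ u u' : ℤ, u < (p : ℤ) ^ (m * (4 * h)) → 0 ≤ u' →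
          u + (p : ℤ) ^ (m * (4 * h) + 0 + a) ≠ u' + (p : ℤ) ^ (m * (4 * h) + 0 + b) := by
        intro a b hab u u' hu hu' hcon
        have h5 : (p : ℤ) ^ (m * (4 * h)) ≤ (p : ℤ) ^ (m * (4 * h) + 0 + a) :=
          pow_le_pow_right₀ hp1 (by omega)
        have h6 : (p : ℤ) ^ (m * (4 * h) + 0 + a + 1) ≤ (p : ℤ) ^ (m * (4 * h) + 0 + b) :=
          pow_le_pow_right₀ hp1 (by omega)
        have h7 : (p : ℤ) ^ (m * (4 * h) + 0 + a + 1) = (p : ℤ) ^ (m * (4 * h) + 0 + a) * p :=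
          pow_succ _ _
        have h8 : 0 < (p : ℤ) ^ (m * (4 * h) + 0 + a) := by positivity
        have h9 : (p : ℤ) ^ (m * (4 * h) + 0 + a) * 2 ≤ (p : ℤ) ^ (m * (4 * h) + 0 + a) * p :=
          mul_le_mul_of_nonneg_left hp2 h8.le
        linarith
      rcases lt_trichotomy a b with hab | hab | hab
      · exact absurd heq (key a b hab u u' h2 h3)
      · subst hab
        have : u = u' := by linarith
        rw [this]
      · exact absurd heq.symm (key b a hab u' u h4 h1)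
    rw [GG_succ, card_add_iff.2 hinj, ih, card_DD_eq hp, pow_succ]

theorem mul_GG (p h m i : ℕ) : ∀ g ∈ GG p h m 0, (p : ℤ) ^ i * g ∈ GG p h m i := by
  induction m with
  | zero =>
    intro g hg
    simp only [GG, range_zero, sum_empty] at hg ⊢
    have : g = 0 := by simpa using hg
    rw [this]
    simp
  | succ m ih =>
    intro g hg
    rw [GG_succ] at hg ⊢
    obtain ⟨u, hu, v, hv, rfl⟩ := mem_add.1 hg
    rw [mul_add]
    apply add_mem_add (ih u hu)
    obtain ⟨a, ha, rfl⟩ := mem_image.1 hv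
    refine mem_image.2 ⟨a, ha, ?_⟩
    show (p : ℤ) ^ (m * (4 * h) + i + a) = (p : ℤ) ^ i * (p : ℤ) ^ (m * (4 * h) + 0 + a)
    rw [← pow_add]
    congr 1
    ring

/-- the bound of the shifted sum -/
theorem card_GG_add (p h M i : ℕ) (hh0 : 0 < h) (hi : i ≤ 4 * h * M) :
    ∃ j ≤ M, (GG p h (2 * M) 0 + GG p h (2 * M) i).card ≤
      (4 * h) ^ j * (15 * h ^ 2) ^ (2 * M - j) * (4 * h) ^ j := by
  set j := (i + 2 * h) / (4 * h) with hj
  have hjd := Nat.div_add_mod (i + 2 * h) (4 * h)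
  have hjm := Nat.mod_lt (i + 2 * h) (show 0 < 4 * h by omega)
  rw [← hj] at hjd
  have hjM : j ≤ M := by
    by_contra hc
    have h1 : M + 1 ≤ j := by omega
    have h2 : 4 * h * (M + 1) ≤ 4 * h * j := Nat.mul_le_mul_left _ h1
    have h3 : 4 * h * (M + 1) = 4 * h * M + 4 * h := by ring
    omega
  refine ⟨j, hjM, ?_⟩
  set u := 2 * M - j with hu
  have e1 : GG p h (2 * M) 0 = (∑ t ∈ range j, DD p h (t * (4 * h) + 0)) +
      ∑ t ∈ range u, DD p h ((j + t) * (4 * h) + 0) := by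
    unfold GG
    have : 2 * M = j + u := by omega
    rw [this, sum_range_add]
  have e2 : GG p h (2 * M) i = (∑ t ∈ range u, DD p h (t * (4 * h) + i)) +
      ∑ t ∈ range j, DD p h ((u + t) * (4 * h) + i) := by
    unfold GG
    have : 2 * M = u + j := by omega
    rw [this, sum_range_add]
  have e3 : GG p h (2 * M) 0 + GG p h (2 * M) i = (∑ t ∈ range j, DD p h (t * (4 * h) + 0)) +
      (∑ t ∈ range u, (DD p h ((j + t) * (4 * h) + 0) + DD p h (t * (4 * h) + i))) +
      ∑ t ∈ range j, DD p h ((u + t) * (4 * h) + i) := by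
    rw [e1, e2, sum_add_distrib]
    abel
  rw [e3]
  refine card_add_le.trans (Nat.mul_le_mul (card_add_le.trans (Nat.mul_le_mul ?_ ?_)) ?_)
  · exact card_sum_le_pow _ _ _ fun t => card_DD _ _ _
  · apply card_sum_le_pow
    intro t
    have e4 : (j + t) * (4 * h) + 0 = 4 * h * j + t * (4 * h) := by ring
    apply card_DD_pair'
    · rw [e4]
      omega
    · rw [e4]
      omega
  · exact card_sum_le_pow _ _ _ fun t => card_DD _ _ _

end Pool.Agent.H85.AK
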