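import Mathlib

/-!
Sets with small sumset and long geometric progressions for several primes.
-/

set_option autoImplicit false

namespace Pool.Agent.H85.AK

open Finset
open scoped Pointwise

/-- multiples of the elements of an interval by the divisors of `D` -/
def box (D X : ℕ) : Finset ℕ := (D.divisors ×ˢ Icc 1 X).image fun s => s.1 * s.2

theorem mem_box {D X y : ℕ} (hD : D ≠ 0) :
    y ∈ box D X ↔ ∃ d x, d ∣ D ∧ 1 ≤ x ∧ x ≤ X ∧ d * x = y := by
  unfold box
  simp only [mem_image, mem_product, Nat.mem_divisors, mem_Icc, Prod.exists]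
  constructor
  · rintro ⟨d, x, ⟨⟨h1, _⟩, h2, h3⟩, h4⟩
    exact ⟨d, x, h1, h2, h3, h4⟩
  · rintro ⟨d, x, h1, h2, h3, h4⟩
    exact ⟨d, x, ⟨⟨h1, hD⟩, h2, h3⟩, h4⟩

theorem box_down {D X p z : ℕ} (hD : D ≠ 0) (hp : p.Prime) (h : p * z ∈ box D X) :
    z ∈ box D X := by
  obtain ⟨d, x, h1, h2, h3, h4⟩ := (mem_box hD).1 h
  rw [mem_box hD]
  have h5 : p ∣ d * x := ⟨z, h4⟩
  rcases hp.dvd_mul.1 h5 with ⟨d', rfl⟩ | ⟨x', rfl⟩
  · refine ⟨d', x, (Dvd.intro_left p rfl).trans h1, h2, h3, ?_⟩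
    rw [mul_assoc] at h4
    exact Nat.eq_of_mul_eq_mul_left hp.pos h4
  · refine ⟨d, x', h1, ?_, ?_, ?_⟩
    · by_contra hc
      have : x' = 0 := by omega
      rw [this] at h2
      omega
    · exact (Nat.le_mul_of_pos_left x' hp.pos).trans h3
    · have h6 : p * (d * x') = p * z := by
        rw [← h4]
        ring
      exact Nat.eq_of_mul_eq_mul_left hp.pos h6

theorem box_up {Q H X p y e : ℕ} (hQ : Q ≠ 0) (hp : p.Prime) (hpQ : p ∣ Q)
    (h : y ∈ box (Q ^ H) X) (hy : ¬ p ∣ y) (he : e ≤ H) : p ^ e * y ∈ box (Q ^ H) X := by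
  obtain ⟨d, x, h1, h2, h3, h4⟩ := (mem_box (pow_ne_zero H hQ)).1 h
  rw [mem_box (pow_ne_zero H hQ)]
  refine ⟨p ^ e * d, x, ?_, h2, h3, by rw [← h4]; ring⟩
  apply Nat.Coprime.mul_dvd_of_dvd_of_dvd
  · apply Nat.Coprime.pow_left
    rw [hp.coprime_iff_not_dvd]
    intro h5
    apply hy
    rw [← h4]
    exact h5.mul_right x
  · exact (pow_dvd_pow p he).trans (pow_dvd_pow_of_dvd hpQ H)
  · exact h1

theorem box_bottom {Q H X p : ℕ} (hQ : Q ≠ 0) (hp : p.Prime) (hpQ : p ∣ Q) :
    (H + 1) * ((box (Q ^ H) X).filter fun y => ¬ p ∣ y).card ≤ (box (Q ^ H) X).card := by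
  set M := (box (Q ^ H) X).filter fun y => ¬ p ∣ y with hM
  have h1 : (range (H + 1) ×ˢ M).card ≤ (box (Q ^ H) X).card := by
    apply card_le_card_of_injOn (fun s => p ^ s.1 * s.2)
    · intro s hs
      obtain ⟨h2, h3⟩ := mem_product.1 (mem_coe.1 hs)
      obtain ⟨h4, h5⟩ := mem_filter.1 h3
      exact box_up hQ hp hpQ h4 h5 (Nat.lt_succ_iff.1 (mem_range.1 h2))
    · rintro ⟨e, y⟩ hs ⟨e', y'⟩ hs' h
      have hy : ¬ p ∣ y := (mem_filter.1 (mem_product.1 (mem_coe.1 hs)).2).2
      have hy' : ¬ p ∣ y' := (mem_filter.1 (mem_product.1 (mem_coe.1 hs')).2).2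
      have h' : p ^ e * y = p ^ e' * y' := h
      have key : ∀ a b u w : ℕ, p ^ a * u = p ^ b * w → ¬ p ∣ u → b ≤ a := by
        intro a b u w huw hu
        by_contra hc
        push Not at hc
        obtain ⟨c, rfl⟩ : ∃ c, b = a + (c + 1) := ⟨b - a - 1, by omega⟩
        apply hu
        refine ⟨p ^ c * w, ?_⟩
        have h6 : p ^ a * u = p ^ a * (p * (p ^ c * w)) := by
          rw [huw]
          ring
        exact Nat.eq_of_mul_eq_mul_left (pow_pos hp.pos a) h6
      have h1 := key e e' y y' h' hy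
      have h2 := key e' e y' y h'.symm hy'
      have h3 : e = e' := le_antisymm h2 h1
      subst h3
      have h4 := Nat.eq_of_mul_eq_mul_left (pow_pos hp.pos e) h'
      rw [h4]
  rw [card_product, card_range] at h1
  exact h1

theorem box_top {Q H X p : ℕ} (hQ : Q ≠ 0) (hp : p.Prime) (hpQ : p ∣ Q) :
    (H + 1) * ((box (Q ^ H) X).filter fun y => p * y ∉ box (Q ^ H) X).card ≤
      (box (Q ^ H) X).card := by
  set A := box (Q ^ H) X with hA
  have h1 : (A.filter fun y => p ∣ y).card ≤ (A.filter fun y => p * y ∈ A).card := by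
    apply card_le_card_of_injOn (fun y => y / p)
    · intro y hy
      obtain ⟨h2, z, rfl⟩ := mem_filter.1 (mem_coe.1 hy)
      have e : p * z / p = z := Nat.mul_div_cancel_left z hp.pos
      show p * z / p ∈ A.filter fun y => p * y ∈ A
      rw [e]
      exact mem_filter.2 ⟨box_down (pow_ne_zero H hQ) hp h2, h2⟩
    · intro y hy y' hy' h
      obtain ⟨_, z, rfl⟩ := mem_filter.1 (mem_coe.1 hy)
      obtain ⟨_, z', rfl⟩ := mem_filter.1 (mem_coe.1 hy')
      have e : p * z / p = z := Nat.mul_div_cancel_left z hp.pos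
      have e' : p * z' / p = z' := Nat.mul_div_cancel_left z' hp.pos
      have h2 : p * z / p = p * z' / p := h
      rw [e, e'] at h2
      rw [h2]
  have h2 := card_filter_add_card_filter_not (s := A) (fun y => p ∣ y)
  have h3 := card_filter_add_card_filter_not (s := A) (fun y => p * y ∈ A)
  have h4 : (A.filter fun y => p * y ∉ A).card ≤ (A.filter fun y => ¬ p ∣ y).card := by omega
  exact (Nat.mul_le_mul_left _ h4).trans (box_bottom hQ hp hpQ)

/-- **sharpness for several primes** -/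
theorem low4 {ε : ℝ} (hε : 0 < ε) (hε1 : ε ≤ 1) (P : Finset ℕ) (hP : ∀ p ∈ P, p.Prime)
    (hne : P.Nonempty) (N : ℕ) :
    ∃ A : Finset ℤ, N ≤ A.card ∧ ((A + A).card : ℝ) ≤ (A.card : ℝ) ^ (1 + ε) ∧
      ∀ p ∈ P, ε / (4 * ∑ q ∈ P, Real.log q) * Real.log (A.card : ℝ) *
        ((A.filter fun a => (p : ℤ) * a ∉ A).card : ℝ) ≤ A.card := by
  set Q : ℕ := ∏ p ∈ P, p with hQ
  have hQ2 : 2 ≤ Q := by
    obtain ⟨p, hp⟩ := hne
    have h1 : p ∣ Q := dvd_prod_of_mem _ hp
    have h2 : 0 < Q := prod_pos fun q hq => (hP q hq).pos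
    exact (hP p hp).two_le.trans (Nat.le_of_dvd h2 h1)
  have hQ0 : Q ≠ 0 := by omega
  set H : ℕ := N + 1 with hH
  set D : ℕ := Q ^ H with hD
  have hD0 : D ≠ 0 := pow_ne_zero H hQ0
  have hDN : N + 2 ≤ D := by
    have h1 : H < 2 ^ H := Nat.lt_two_pow_self
    have h2 : 2 ^ H ≤ D := Nat.pow_le_pow_left hQ2 H
    omega
  have hDr : (1 : ℝ) ≤ D := by exact_mod_cast (show 1 ≤ D by omega)
  set Xr : ℝ := (2 * D : ℝ) ^ (1 / ε) with hXr
  set X : ℕ := ⌈Xr⌉₊ with hX
  have h1ε : 1 ≤ 1 / ε := by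
    rw [le_div_iff₀ hε]
    linarith
  have hXr1 : (2 * D : ℝ) ≤ Xr := by
    calc (2 * D : ℝ) = (2 * D : ℝ) ^ (1 : ℝ) := (Real.rpow_one _).symm
      _ ≤ (2 * D : ℝ) ^ (1 / ε) := Real.rpow_le_rpow_of_exponent_le (by linarith) h1ε
  have hX1 : Xr ≤ X := Nat.le_ceil _
  have hX2 : (X : ℝ) ≤ 2 * Xr := by
    have := Nat.ceil_lt_add_one (show 0 ≤ Xr by positivity)
    linarith
  have hX0 : (0 : ℝ) < X := by linarith
  -- the set
  set A0 : Finset ℕ := box D X with hA0
  set A : Finset ℤ := A0.image (fun a : ℕ => (a : ℤ)) with hA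
  have hAc : A.card = A0.card := card_image_of_injective _ Nat.cast_injective
  have hmem : ∀ a : ℕ, (a : ℤ) ∈ A ↔ a ∈ A0 := by
    intro a
    rw [hA, mem_image]
    constructor
    · rintro ⟨b, hb, h⟩
      have : b = a := by exact_mod_cast h
      rwa [← this]
    · intro h
      exact ⟨a, h, rfl⟩
  have hlow : X ≤ A0.card := by
    have h1 : Icc 1 X ⊆ A0 := by
      intro x hx
      obtain ⟨h2, h3⟩ := mem_Icc.1 hx
      exact (mem_box hD0).2 ⟨1, x, one_dvd _, h2, h3, one_mul x⟩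
    have h2 := card_le_card h1
    rw [Nat.card_Icc] at h2
    omega
  have hbound : ∀ a ∈ A0, 1 ≤ a ∧ a ≤ D * X := by
    intro a ha
    obtain ⟨d, x, h1, h2, h3, rfl⟩ := (mem_box hD0).1 ha
    have h4 : 0 < d := Nat.pos_of_dvd_of_pos h1 (by omega)
    exact ⟨Nat.mul_pos h4 h2, Nat.mul_le_mul (Nat.le_of_dvd (by omega) h1) h3⟩
  have hup : A0.card ≤ D * X := by
    have h1 : A0 ⊆ Icc 1 (D * X) := fun a ha => mem_Icc.2 (hbound a ha)
    have h2 := card_le_card h1
    rw [Nat.card_Icc] at h2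
    omega
  have hsum : (A + A).card ≤ 2 * (D * X) := by
    have h1 : A + A ⊆ Icc (1 : ℤ) (2 * (D * X) : ℕ) := by
      intro s hs
      obtain ⟨a, ha, b, hb, rfl⟩ := mem_add.1 hs
      obtain ⟨a', ha', rfl⟩ := mem_image.1 ha
      obtain ⟨b', hb', rfl⟩ := mem_image.1 hb
      have h2 := hbound a' ha'
      have h3 := hbound b' hb'
      rw [mem_Icc]
      constructor
      · omega
      · have : a' + b' ≤ 2 * (D * X) := by omega
        exact_mod_cast this
    have h2 := card_le_card h1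
    rw [Int.card_Icc] at h2
    omega
  have hAX : (X : ℝ) ≤ A.card := by
    rw [hAc]
    exact_mod_cast hlow
  refine ⟨A, ?_, ?_, ?_⟩
  · rw [hAc]
    have : (N : ℝ) ≤ X := by
      have h1 : ((N + 2 : ℕ) : ℝ) ≤ D := by exact_mod_cast hDN
      push_cast at h1
      linarith
    have h2 : N ≤ X := by exact_mod_cast this
    omega
  · have h1 : ((A + A).card : ℝ) ≤ 2 * (D * X) := by exact_mod_cast hsum
    have h2 : (2 * D : ℝ) ≤ (X : ℝ) ^ ε := by
      calc (2 * D : ℝ) = Xr ^ ε := by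
            rw [hXr, ← Real.rpow_mul (by linarith)]
            have : 1 / ε * ε = 1 := by field_simp
            rw [this, Real.rpow_one]
        _ ≤ (X : ℝ) ^ ε := Real.rpow_le_rpow (by positivity) hX1 hε.le
    calc ((A + A).card : ℝ) ≤ 2 * (D * X) := h1
      _ = (2 * D) * X := by ring
      _ ≤ (X : ℝ) ^ ε * X := mul_le_mul_of_nonneg_right h2 hX0.le
      _ = (X : ℝ) ^ (1 + ε) := by
          rw [Real.rpow_add hX0, Real.rpow_one, mul_comm]
      _ ≤ (A.card : ℝ) ^ (1 + ε) := Real.rpow_le_rpow hX0.le hAX (by linarith)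
  · intro p hp
    have hpr := hP p hp
    have hpQ : p ∣ Q := dvd_prod_of_mem _ hp
    -- the number of tops
    have h1 : (A.filter fun a => (p : ℤ) * a ∉ A).card ≤ (A0.filter fun y => p * y ∉ A0).card := by
      have h2 : (A.filter fun a => (p : ℤ) * a ∉ A) ⊆
          (A0.filter fun y => p * y ∉ A0).image (fun a : ℕ => (a : ℤ)) := by
        intro a ha
        obtain ⟨h3, h4⟩ := mem_filter.1 ha
        obtain ⟨y, hy, rfl⟩ := mem_image.1 h3
        refine mem_image.2 ⟨y, mem_filter.2 ⟨hy, fun h5 => h4 ?_⟩, rfl⟩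
        have h6 := (hmem (p * y)).2 h5
        push_cast at h6
        exact h6
      exact (card_le_card h2).trans card_image_le
    have h2 := box_top (H := H) (X := X) hQ0 hpr hpQ
    have h3 : ((H : ℝ) + 1) * ((A.filter fun a => (p : ℤ) * a ∉ A).card : ℝ) ≤ A.card := by
      rw [hAc]
      have : (H + 1) * (A.filter fun a => (p : ℤ) * a ∉ A).card ≤ A0.card :=
        (Nat.mul_le_mul_left _ h1).trans h2
      exact_mod_cast this
    refine le_trans (mul_le_mul_of_nonneg_right ?_ (Nat.cast_nonneg _)) h3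
    -- logarithms
    have hlQ : ∑ q ∈ P, Real.log q = Real.log Q := by
      rw [hQ]
      push_cast
      rw [Real.log_prod]
      intro q hq
      exact_mod_cast (hP q hq).pos.ne'
    rw [hlQ]
    set l : ℝ := Real.log Q with hl
    have hl2 : Real.log 2 ≤ l := Real.log_le_log (by norm_num) (by exact_mod_cast hQ2)
    have hl0 : 0 < l := by
      have := Real.log_two_gt_d9
      linarith
    have hlD : Real.log (D : ℝ) = H * l := by
      rw [hD]
      push_cast
      rw [Real.log_pow]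
    have hH1 : (1 : ℝ) ≤ H := by
      rw [hH]
      push_cast
      have : (0 : ℝ) ≤ N := Nat.cast_nonneg N
      linarith
    have hHl : l ≤ H * l := le_mul_of_one_le_left hl0.le hH1
    have hlA : Real.log (A.card : ℝ) ≤ 4 / ε * (H * l) := by
      have h4 : (A.card : ℝ) ≤ D * (2 * Xr) := by
        have h5 : (A.card : ℝ) ≤ D * X := by
          rw [hAc]
          exact_mod_cast hup
        exact h5.trans (mul_le_mul_of_nonneg_left hX2 (by linarith))
      have hA0' : (0 : ℝ) < A.card := by linarith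
      have h5 := Real.log_le_log hA0' h4
      have hXr0 : 0 < Xr := by linarith
      rw [Real.log_mul (by linarith) (by positivity), Real.log_mul (by norm_num) hXr0.ne', hXr,
        Real.log_rpow (by linarith), Real.log_mul (by norm_num) (by linarith), hlD] at h5
      have h6 : Real.log 2 + H * l ≤ 2 * (H * l) := by linarith
      have h7 : 1 / ε * (Real.log 2 + H * l) ≤ 1 / ε * (2 * (H * l)) :=
        mul_le_mul_of_nonneg_left h6 (by positivity)
      have h8 : H * l ≤ 1 / ε * (H * l) := le_mul_of_one_le_left (by positivity) h1ε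
      have h9 : 4 / ε * (H * l) = 4 * (1 / ε * (H * l)) := by ring
      linarith
    calc ε / (4 * l) * Real.log (A.card : ℝ) ≤ ε / (4 * l) * (4 / ε * (H * l)) :=
          mul_le_mul_of_nonneg_left hlA (by positivity)
      _ = H := by field_simp
      _ ≤ H + 1 := by linarith

end Pool.Agent.H85.AK
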