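import Pool.Agent.H85.AK.Val2

/-!
Subsets: entropies and masses of the levels decrease.
-/

set_option autoImplicit false

namespace Pool.Agent.H85.AK

open Finset
open scoped Classical

variable {α β γ : Type*}

theorem hs_mono {X' X : Finset α} (h : X' ⊆ X) {P : α → β} {P' : α → γ} (hP : Ref X P' P) :
    hs X' P P' ≤ hs X P P' := by
  have h1 := cond_filter_le (Ω := X) (σ := P) (τ := P') hP (fun x => decide (x ∈ X'))
  have e : (X.filter fun a => decide (a ∈ X') = true) = X' := by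
    ext a
    rw [mem_filter, decide_eq_true_eq]
    exact ⟨fun h' => h'.2, fun h' => ⟨h h', h'⟩⟩
  rw [e] at h1
  exact h1

theorem cv_le_mx (Ω : Finset α) (f : α → β) (w : β) : cv Ω f w ≤ mx Ω f := by
  by_cases h : ∃ x ∈ Ω, f x = w
  · obtain ⟨x, hx, rfl⟩ := h
    exact ct_le_mx f hx
  · push Not at h
    have h1 : cv Ω f w = 0 := by
      unfold cv
      rw [Nat.cast_eq_zero, card_eq_zero, filter_eq_empty_iff]
      exact fun x hx => h x hx
    rw [h1]
    exact Nat.cast_nonneg _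

theorem card_out (Ω : Finset α) (f : α → β) (w : β) :
    ((Ω.filter fun x => f x ≠ w).card : ℝ) = Ω.card - cv Ω f w := by
  have h := card_filter_add_card_filter_not (s := Ω) (fun x => f x = w)
  unfold cv
  have h' : ((Ω.filter fun x => f x = w).card : ℝ) + ((Ω.filter fun x => ¬ f x = w).card : ℝ) =
      Ω.card := by exact_mod_cast h
  linarith

theorem S_out (X : Finset α) (P : α → β) (P' : α → γ) (u : β → γ) :
    S X P (fun Ω => ((Ω.filter fun x => P' x ≠ u (P x)).card : ℝ)) =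
      ((X.filter fun x => P' x ≠ u (P x)).card : ℝ) := by
  have h1 : S X P (fun Ω => ((Ω.filter fun x => P' x ≠ u (P x)).card : ℝ)) =
      ∑ x ∈ X, (if P' x ≠ u (P x) then (1 : ℝ) else 0) := by
    apply S_eq
    intro a _
    rw [card_filter]
    push_cast
    rfl
  rw [h1, card_filter]
  push_cast
  rfl

theorem out_cl {X : Finset α} {P : α → β} {P' : α → γ} (u : β → γ) {a : α} :
    (((cl X P a).filter fun x => P' x ≠ u (P x)).card : ℝ) =
      (cl X P a).card - cv (cl X P a) P' (u (P a)) := by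
  rw [← card_out]
  congr 2
  apply filter_congr
  intro x hx
  rw [(mem_cl.1 hx).2]

theorem ws_le_out (X : Finset α) (P : α → β) (P' : α → γ) (u : β → γ) :
    ws X P P' ≤ ((X.filter fun x => P' x ≠ u (P x)).card : ℝ) := by
  rw [← S_card_ep, ← S_out X P P' u]
  apply S_mono
  intro a ha
  rw [out_cl]
  have h0 : (0 : ℝ) < (cl X P a).card := by exact_mod_cast card_pos.2 (cl_nonempty P ha)
  have h1 := cv_le_mx (cl X P a) P' (u (P a))
  unfold ep
  rw [mul_sub, mul_one, mul_div_cancel₀ _ h0.ne']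
  linarith

theorem exists_out {X : Finset α} (hX : X.Nonempty) (P : α → β) (P' : α → γ) :
    ∃ u : β → γ, ((X.filter fun x => P' x ≠ u (P x)).card : ℝ) ≤ ws X P P' := by
  obtain ⟨y0, _⟩ := hX
  have hex : ∀ p : β, ∃ w : γ, ∀ a ∈ X, P a = p → cv (cl X P a) P' w = mx (cl X P a) P' := by
    intro p
    by_cases h : ∃ a ∈ X, P a = p
    · obtain ⟨a0, ha0, h0⟩ := h
      obtain ⟨x0, _, hx0⟩ := exists_mx (cl_nonempty P ha0) P'
      refine ⟨P' x0, fun a _ hap => ?_⟩
      rw [cl_congr (hap.trans h0.symm), ← hx0]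
      rfl
    · exact ⟨P' y0, fun a ha hap => absurd ⟨a, ha, hap⟩ h⟩
  choose u hu using hex
  refine ⟨u, ?_⟩
  rw [← S_card_ep, ← S_out X P P' u]
  apply S_mono
  intro a ha
  rw [out_cl, hu (P a) a ha rfl]
  have h0 : (0 : ℝ) < (cl X P a).card := by exact_mod_cast card_pos.2 (cl_nonempty P ha)
  unfold ep
  rw [mul_sub, mul_one, mul_div_cancel₀ _ h0.ne']

/-- the masses decrease -/
theorem ws_mono {X' X : Finset α} (h : X' ⊆ X) (P : α → β) (P' : α → γ) :
    ws X' P P' ≤ ws X P P' := by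
  rcases X.eq_empty_or_nonempty with h0 | h0
  · subst h0
    rw [subset_empty.1 h]
  obtain ⟨u, hu⟩ := exists_out h0 P P'
  refine (ws_le_out X' P P' u).trans (le_trans ?_ hu)
  exact Nat.cast_le.2 (card_le_card (filter_subset_filter _ h))

/-- **the sum over the scales, with subsets** -/
theorem arc_sum' {F : Type*} [Field F] {δ : ℝ} (hδ : 0 < δ) (hδ1 : δ ≤ 1) (σ : F →+* ℂ)
    (X Y : Finset F) (J : Finset ℤ) (r : ℤ → F)
    (hr : ∀ i ∈ J, (3 : ℝ) ^ i ≤ ‖σ (r i)‖ ∧ ‖σ (r i)‖ < 3 ^ (i + 1)) (Z : ℤ → Finset F)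
    (hZ : ∀ i ∈ J, Z i ⊆ X) :
    ∑ i ∈ J, ∑ a ∈ Z i ×ˢ Y, Real.log (ct (Z i ×ˢ Y) (fun b => r i * b.1 + b.2) a) ≤
      80 * δ * ∑ i ∈ J, (Z i).card * Y.card * (Real.log (X.card : ℝ) + Real.log (Y.card : ℝ)) +
      800 * (2 + Real.exp (1 / δ)) * ((X.card * Real.log (X.card : ℝ)) *
        (Y.card * Real.log (Y.card : ℝ))) := by
  set MX : ℝ := 5 * (X.card * Real.log (X.card : ℝ)) with hMX
  set MY : ℝ := 5 * (Y.card * Real.log (Y.card : ℝ)) with hMY
  have hMX0 : 0 ≤ MX := by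
    have := Real.log_natCast_nonneg X.card
    positivity
  have hMY0 : 0 ≤ MY := by
    have := Real.log_natCast_nonneg Y.card
    positivity
  set C : ℝ := 2 + Real.exp (1 / δ) with hC
  have hC0 : 0 ≤ C := by positivity
  -- the range of the scales
  obtain ⟨T, hT⟩ := scales (((Y ×ˢ Y).filter fun c => c.1 ≠ c.2).image fun c => ‖σ (c.2 - c.1)‖) (by
    intro d hd
    obtain ⟨c, hc, rfl⟩ := mem_image.1 hd
    have h1 := (mem_filter.1 hc).2
    rw [norm_pos_iff]
    intro h2
    exact h1 (sub_eq_zero.1 (σ.injective (by rw [h2, map_zero]))).symm)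
  have hT' : ∀ i, ∀ a ∈ Z i ×ˢ Y, ∀ b ∈ Z i ×ˢ Y, a.2 ≠ b.2 →
      (3 : ℝ) ^ (-(T : ℤ)) ≤ ‖σ (b.2 - a.2)‖ ∧ ‖σ (b.2 - a.2)‖ < 3 ^ (T : ℤ) := by
    intro i a ha b hb hab
    exact hT _ (mem_image.2 ⟨(a.2, b.2), mem_filter.2 ⟨mem_product.2 ⟨(mem_product.1 ha).2,
      (mem_product.1 hb).2⟩, hab⟩, rfl⟩)
  set sn : ℕ → ℤ := fun n => -(T : ℤ) - 2 + n with hsn
  have hsn_inj : Function.Injective sn := by
    intro x y h
    simp only [hsn] at h
    omega
  set NN : (Bool × Bool) × (Bool × Bool) → ℤ → ℕ → ℝ := fun g i n =>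
    δ * (Y.card * hc σ (Z i) g.1 (sn n - i) + (Z i).card * hc σ Y g.2 (sn n)) +
      C * (wc σ Y g.2 (sn n) * hc σ X g.1 (sn n - i) +
        wc σ X g.1 (sn n - i) * hc σ Y g.2 (sn n)) with hNN
  -- one scale
  have one : ∀ i ∈ J, ∑ a ∈ Z i ×ˢ Y, Real.log (ct (Z i ×ˢ Y) (fun b => r i * b.1 + b.2) a) ≤
      ∑ g : (Bool × Bool) × (Bool × Bool), ∑ n ∈ range (2 * T), NN g i n := by
    intro i hi
    obtain ⟨h1, h2⟩ := hr i hi
    have hr0 : r i ≠ 0 := by
      intro h0
      rw [h0, map_zero, norm_zero] at h1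
      exact absurd h1 (not_le.2 (zpow_pos (by norm_num) i))
    have h3 := sum_le_sum fun a (ha : a ∈ Z i ×ˢ Y) => arc_fibre σ hr0 h1 h2 (hT' i) ha
    refine h3.trans ?_
    rw [sum_comm]
    have h4 : ∀ n ∈ range (2 * T), ∑ a ∈ Z i ×ˢ Y, ∑ g : (Bool × Bool) × (Bool × Bool),
        (Real.log (cb σ (Z i ×ˢ Y) (r i) i (-(T : ℤ) - 2 + n) g a) -
          Real.log (nb σ (Z i ×ˢ Y) (r i) i (-(T : ℤ) - 2 + n) g a)) ≤
        ∑ g : (Bool × Bool) × (Bool × Bool), NN g i n := by
      intro n _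
      rw [sum_comm]
      apply sum_le_sum
      intro g _
      refine (arc_cell hδ hδ1 σ (Z i) Y (r i) i (sn n) g).trans ?_
      apply add_le_add le_rfl
      apply mul_le_mul_of_nonneg_left _ hC0
      apply add_le_add
      · exact mul_le_mul_of_nonneg_left (hs_mono (hZ i hi) (ref_cell σ X g.1 _))
          (wc_nonneg _ _ _ _)
      · exact mul_le_mul_of_nonneg_right (ws_mono (hZ i hi) _ _) (hc_nonneg _ _ _ _)
    refine (sum_le_sum h4).trans ?_
    rw [sum_comm]
  refine (sum_le_sum one).trans ?_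
  rw [sum_comm]
  set SS : ℝ := ∑ i ∈ J, (Z i).card * Y.card * (Real.log (X.card : ℝ) + Real.log (Y.card : ℝ))
    with hSS
  have key : ∀ g ∈ (univ : Finset ((Bool × Bool) × (Bool × Bool))),
      ∑ i ∈ J, ∑ n ∈ range (2 * T), NN g i n ≤ 5 * δ * SS + C * (MY * MX + MX * MY) := by
    intro g _
    have t1 : ∑ i ∈ J, ∑ n ∈ range (2 * T), (Y.card * hc σ (Z i) g.1 (sn n - i) +
        (Z i).card * hc σ Y g.2 (sn n)) ≤ 5 * SS := by
      rw [hSS, mul_sum]
      apply sum_le_sum
      intro i hi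
      rw [sum_add_distrib, ← mul_sum, ← mul_sum]
      have b1 : ∑ n ∈ range (2 * T), hc σ (Z i) g.1 (sn n - i) ≤
          5 * ((Z i).card * Real.log (X.card : ℝ)) := by
        refine (hc_sum σ (Z i) g.1 (range (2 * T)) (fun n => sn n - i) ?_).trans ?_
        · intro x _ y _ h
          exact hsn_inj (by simpa using h)
        · apply mul_le_mul_of_nonneg_left _ (by norm_num)
          rcases (Z i).eq_empty_or_nonempty with h0 | h0
          · rw [h0, card_empty]
            simp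
          · apply mul_le_mul_of_nonneg_left _ (Nat.cast_nonneg _)
            apply Real.log_le_log
            · exact_mod_cast card_pos.2 h0
            · exact_mod_cast card_le_card (hZ i hi)
      have b2 : ∑ n ∈ range (2 * T), hc σ Y g.2 (sn n) ≤ MY :=
        hc_sum σ Y g.2 (range (2 * T)) sn hsn_inj.injOn
      have c1 := mul_le_mul_of_nonneg_left b1 (Nat.cast_nonneg Y.card : (0 : ℝ) ≤ Y.card)
      have c2 := mul_le_mul_of_nonneg_left b2 (Nat.cast_nonneg (Z i).card : (0 : ℝ) ≤ (Z i).card)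
      refine (add_le_add c1 c2).trans (le_of_eq ?_)
      rw [hMY]
      ring
    have t2 : ∑ i ∈ J, ∑ n ∈ range (2 * T), wc σ Y g.2 (sn n) * hc σ X g.1 (sn n - i) ≤
        MY * MX := by
      rw [sum_comm]
      calc ∑ n ∈ range (2 * T), ∑ i ∈ J, wc σ Y g.2 (sn n) * hc σ X g.1 (sn n - i)
          ≤ ∑ n ∈ range (2 * T), wc σ Y g.2 (sn n) * MX := by
            apply sum_le_sum
            intro n _
            rw [← mul_sum]
            apply mul_le_mul_of_nonneg_left _ (wc_nonneg _ _ _ _)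
            apply hc_sum σ X g.1 J (fun i => sn n - i)
            intro x _ y _ h
            simp only at h
            omega
        _ ≤ MY * MX := by
            rw [← sum_mul]
            apply mul_le_mul_of_nonneg_right _ hMX0
            exact wc_sum σ Y g.2 (range (2 * T)) sn hsn_inj.injOn
    have t3 : ∑ i ∈ J, ∑ n ∈ range (2 * T), wc σ X g.1 (sn n - i) * hc σ Y g.2 (sn n) ≤
        MX * MY := by
      rw [sum_comm]
      calc ∑ n ∈ range (2 * T), ∑ i ∈ J, wc σ X g.1 (sn n - i) * hc σ Y g.2 (sn n)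
          ≤ ∑ n ∈ range (2 * T), MX * hc σ Y g.2 (sn n) := by
            apply sum_le_sum
            intro n _
            rw [← sum_mul]
            apply mul_le_mul_of_nonneg_right _ (hc_nonneg _ _ _ _)
            apply wc_sum σ X g.1 J (fun i => sn n - i)
            intro x _ y _ h
            simp only at h
            omega
        _ ≤ MX * MY := by
            rw [← mul_sum]
            apply mul_le_mul_of_nonneg_left _ hMX0
            exact hc_sum σ Y g.2 (range (2 * T)) sn hsn_inj.injOn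
    have e : ∑ i ∈ J, ∑ n ∈ range (2 * T), NN g i n =
        δ * ∑ i ∈ J, ∑ n ∈ range (2 * T), (Y.card * hc σ (Z i) g.1 (sn n - i) +
          (Z i).card * hc σ Y g.2 (sn n)) +
        C * (∑ i ∈ J, ∑ n ∈ range (2 * T), wc σ Y g.2 (sn n) * hc σ X g.1 (sn n - i) +
          ∑ i ∈ J, ∑ n ∈ range (2 * T), wc σ X g.1 (sn n - i) * hc σ Y g.2 (sn n)) := by
      simp only [hNN, sum_add_distrib, mul_sum, mul_add]
    rw [e]
    have h1 := mul_le_mul_of_nonneg_left t1 hδ.le
    have h2 := mul_le_mul_of_nonneg_left (add_le_add t2 t3) hC0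
    refine (add_le_add h1 h2).trans (le_of_eq ?_)
    ring
  refine (sum_le_sum key).trans (le_of_eq ?_)
  rw [sum_const, nsmul_eq_mul]
  have e16 : ((univ : Finset ((Bool × Bool) × (Bool × Bool))).card : ℝ) = 16 := by
    norm_num [Finset.card_univ]
  rw [e16, hMX, hMY]
  ring

end Pool.Agent.H85.AK
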