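import Pool.Agent.H85.AK.Pop8

/-!
Products of two sets: cells, nodes.
-/

set_option autoImplicit false

namespace Pool.Agent.H85.AK

open Finset
open scoped Classical

variable {α β γ ζ κ μ : Type*}

theorem ct_prod (X : Finset α) (Y : Finset β) (f : α → γ) (g : β → ζ) (a : α × β) :
    ct (X ×ˢ Y) (fun s => (f s.1, g s.2)) a = ct X f a.1 * ct Y g a.2 := by
  unfold ct cv
  rw [← Nat.cast_mul, ← card_product]
  congr 2
  ext s
  simp only [mem_filter, mem_product, Prod.mk.injEq]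
  tauto

theorem ct_fst (X : Finset α) (Y : Finset β) (f : α → γ) (a : α × β) :
    ct (X ×ˢ Y) (fun s => f s.1) a = ct X f a.1 * Y.card := by
  unfold ct cv
  rw [← Nat.cast_mul, ← card_product]
  congr 2
  ext s
  simp only [mem_filter, mem_product]
  tauto

theorem ct_snd (X : Finset α) (Y : Finset β) (g : β → ζ) (a : α × β) :
    ct (X ×ˢ Y) (fun s => g s.2) a = X.card * ct Y g a.2 := by
  unfold ct cv
  rw [← Nat.cast_mul, ← card_product]
  congr 2
  ext s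
  simp only [mem_filter, mem_product]
  tauto

theorem cl_prod (X : Finset α) (Y : Finset β) (f : α → γ) (g : β → ζ) (a : α × β) :
    cl (X ×ˢ Y) (lab (fun s : α × β => f s.1) (fun s : α × β => g s.2)) a =
      cl X f a.1 ×ˢ cl Y g a.2 := by
  ext s
  simp only [mem_cl, mem_product, lab, Prod.mk.injEq]
  tauto

theorem mx_fst {X : Finset α} {Y : Finset β} (hX : X.Nonempty) (hY : Y.Nonempty) (f : α → γ) :
    mx (X ×ˢ Y) (fun s => f s.1) = mx X f * Y.card := by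
  obtain ⟨a, ha, h⟩ := exists_mx (hX.product hY) (fun s : α × β => f s.1)
  obtain ⟨x, hx, h'⟩ := exists_mx hX f
  obtain ⟨y, hy⟩ := hY
  obtain ⟨h1, _⟩ := mem_product.1 ha
  apply le_antisymm
  · rw [← h, ct_fst]
    exact mul_le_mul_of_nonneg_right (ct_le_mx f h1) (Nat.cast_nonneg _)
  · rw [← h', ← ct_fst X Y f (x, y)]
    exact ct_le_mx (fun s : α × β => f s.1) (mem_product.2 ⟨hx, hy⟩)

theorem mx_snd {X : Finset α} {Y : Finset β} (hX : X.Nonempty) (hY : Y.Nonempty) (g : β → ζ) :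
    mx (X ×ˢ Y) (fun s => g s.2) = X.card * mx Y g := by
  obtain ⟨a, ha, h⟩ := exists_mx (hX.product hY) (fun s : α × β => g s.2)
  obtain ⟨y, hy, h'⟩ := exists_mx hY g
  obtain ⟨x, hx⟩ := hX
  obtain ⟨_, h1⟩ := mem_product.1 ha
  apply le_antisymm
  · rw [← h, ct_snd]
    exact mul_le_mul_of_nonneg_left (ct_le_mx g h1) (Nat.cast_nonneg _)
  · rw [← h', ← ct_snd X Y g (x, y)]
    exact ct_le_mx (fun s : α × β => g s.2) (mem_product.2 ⟨hx, hy⟩)

theorem ep_fst {X : Finset α} {Y : Finset β} (hX : X.Nonempty) (hY : Y.Nonempty) (f : α → γ) :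
    ep (X ×ˢ Y) (fun s => f s.1) = ep X f := by
  have h1 : (Y.card : ℝ) ≠ 0 := by exact_mod_cast (card_pos.2 hY).ne'
  unfold ep
  rw [mx_fst hX hY, card_product]
  push_cast
  rw [mul_div_mul_right _ _ h1]

theorem ep_snd {X : Finset α} {Y : Finset β} (hX : X.Nonempty) (hY : Y.Nonempty) (g : β → ζ) :
    ep (X ×ˢ Y) (fun s => g s.2) = ep Y g := by
  have h1 : (X.card : ℝ) ≠ 0 := by exact_mod_cast (card_pos.2 hX).ne'
  unfold ep
  rw [mx_snd hX hY, card_product]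
  push_cast
  rw [mul_div_mul_left _ _ h1]

theorem hh_fst {X : Finset α} {Y : Finset β} (hX : X.Nonempty) (hY : Y.Nonempty) (f : α → γ) :
    hh (X ×ˢ Y) (fun s => f s.1) = Y.card * hh X f := by
  have hXc : (0 : ℝ) < X.card := by exact_mod_cast card_pos.2 hX
  have hYc : (0 : ℝ) < Y.card := by exact_mod_cast card_pos.2 hY
  unfold hh
  rw [sum_product, mul_sum]
  apply sum_congr rfl
  intro x hx
  have h1 : ∀ y ∈ Y, Real.log ((X ×ˢ Y).card : ℝ) -
      Real.log (ct (X ×ˢ Y) (fun s => f s.1) (x, y)) =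
      Real.log (X.card : ℝ) - Real.log (ct X f x) := by
    intro y _
    rw [ct_fst, card_product]
    push_cast
    rw [Real.log_mul hXc.ne' hYc.ne', Real.log_mul (ct_pos f hx).ne' hYc.ne']
    ring
  rw [sum_congr rfl h1, sum_const, nsmul_eq_mul]

theorem hh_snd {X : Finset α} {Y : Finset β} (hX : X.Nonempty) (hY : Y.Nonempty) (g : β → ζ) :
    hh (X ×ˢ Y) (fun s => g s.2) = X.card * hh Y g := by
  have hXc : (0 : ℝ) < X.card := by exact_mod_cast card_pos.2 hX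
  have hYc : (0 : ℝ) < Y.card := by exact_mod_cast card_pos.2 hY
  unfold hh
  rw [sum_product_right, mul_sum]
  apply sum_congr rfl
  intro y hy
  have h1 : ∀ x ∈ X, Real.log ((X ×ˢ Y).card : ℝ) -
      Real.log (ct (X ×ˢ Y) (fun s => g s.2) (x, y)) =
      Real.log (Y.card : ℝ) - Real.log (ct Y g y) := by
    intro x _
    rw [ct_snd, card_product]
    push_cast
    rw [Real.log_mul hXc.ne' hYc.ne', Real.log_mul hXc.ne' (ct_pos g hy).ne']
    ring
  rw [sum_congr rfl h1, sum_const, nsmul_eq_mul]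

/-- the entropy of a refinement -/
noncomputable def hs (X : Finset α) (P : α → β) (P' : α → γ) : ℝ :=
  ∑ x ∈ X, (Real.log (ct X P x) - Real.log (ct X P' x))

/-- the mass outside the largest subcells -/
noncomputable def ws (X : Finset α) (P : α → β) (P' : α → γ) : ℝ :=
  ∑ x ∈ X, ep (cl X P x) P'

theorem ct_cl_ref {X : Finset α} {P : α → β} {P' : α → γ} (hP : Ref X P' P) {a b : α}
    (hb : b ∈ cl X P a) : ct (cl X P a) P' b = ct X P' b := by
  have hbX := (mem_cl.1 hb).1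
  rw [ct_cl hb]
  apply ct_congr
  intro c hc
  simp only [Prod.mk.injEq]
  exact ⟨fun h => h.1, fun h => ⟨h, hP c hc b hbX h⟩⟩

theorem S_hs {X : Finset α} {P : α → β} {P' : α → γ} (hP : Ref X P' P) :
    S X P (fun Ω => hh Ω P') = hs X P P' := by
  apply S_eq
  intro a _
  unfold hh
  apply sum_congr rfl
  intro b hb
  rw [card_cl hb, ct_cl_ref hP hb]

theorem hs_nonneg {X : Finset α} {P : α → β} {P' : α → γ} (hP : Ref X P' P) : 0 ≤ hs X P P' :=
  sum_nonneg fun _ hx => sub_nonneg.2 (Real.log_le_log (ct_pos P' hx)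
    (ct_mono fun b hb h => hP b hb _ hx h))

theorem ws_nonneg (X : Finset α) (P : α → β) (P' : α → γ) : 0 ≤ ws X P P' :=
  sum_nonneg fun _ hx => ep_nonneg (cl_nonempty P hx) P'

theorem ep_le_one (Ω : Finset α) (f : α → β) : ep Ω f ≤ 1 := by
  unfold ep
  have : 0 ≤ mx Ω f / Ω.card := div_nonneg (Nat.cast_nonneg _) (Nat.cast_nonneg _)
  linarith

theorem ws_le_card (X : Finset α) (P : α → β) (P' : α → γ) : ws X P P' ≤ X.card := by
  unfold ws
  calc ∑ x ∈ X, ep (cl X P x) P' ≤ ∑ _x ∈ X, (1 : ℝ) := sum_le_sum fun _ _ => ep_le_one _ _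
    _ = X.card := by rw [sum_const, nsmul_eq_mul, mul_one]

/-- the mass outside the largest subcells is at most the entropy -/
theorem ws_le_hs {X : Finset α} {P : α → β} {P' : α → γ} (hP : Ref X P' P) :
    ws X P P' ≤ hs X P P' := by
  rw [← S_hs hP]
  unfold ws S
  apply sum_le_sum
  intro x hx
  have hne := cl_nonempty P hx
  have hc : ((cl X P x).card : ℝ) = ct X P x := card_cl (mem_cl.2 ⟨hx, rfl⟩)
  have hpos := ct_pos P hx
  rw [le_div_iff₀ hpos]
  have h1 := log_mx_le hne P'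
  have h2 : ∀ b ∈ cl X P x, ep (cl X P x) P' ≤
      Real.log ((cl X P x).card : ℝ) - Real.log (ct (cl X P x) P' b) := by
    intro b hb
    have h3 := Real.log_le_log (ct_pos P' hb) (ct_le_mx P' hb)
    linarith
  have h3 := sum_le_sum h2
  rw [sum_const, nsmul_eq_mul, hc] at h3
  rw [mul_comm]
  exact h3

theorem S_prod {X : Finset α} {Y : Finset β} {P : α → γ} {Q : β → κ} {Ψ : Finset (α × β) → ℝ}
    {Φ1 : Finset α → ℝ} {Φ2 : Finset β → ℝ}
    (h : ∀ a ∈ X ×ˢ Y, Ψ (cl X P a.1 ×ˢ cl Y Q a.2) = Φ1 (cl X P a.1) * Φ2 (cl Y Q a.2)) :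
    S (X ×ˢ Y) (lab (fun s : α × β => P s.1) (fun s : α × β => Q s.2)) Ψ = S X P Φ1 * S Y Q Φ2 := by
  unfold S
  rw [sum_mul_sum, sum_product]
  apply sum_congr rfl
  intro x hx
  apply sum_congr rfl
  intro y hy
  have e1 : ct (X ×ˢ Y) (lab (fun s : α × β => P s.1) (fun s : α × β => Q s.2)) (x, y) =
      ct X P x * ct Y Q y := ct_prod X Y P Q (x, y)
  rw [cl_prod, h (x, y) (mem_product.2 ⟨hx, hy⟩), e1, mul_div_mul_comm]

theorem S_card (Y : Finset β) (Q : β → κ) : S Y Q (fun Ω => (Ω.card : ℝ)) = Y.card := by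
  have h1 : S Y Q (fun Ω => (Ω.card : ℝ)) = ∑ y ∈ Y, (1 : ℝ) := by
    apply S_eq
    intro a _
    rw [sum_const, nsmul_eq_mul, mul_one]
  rw [h1, sum_const, nsmul_eq_mul, mul_one]

theorem S_card_ep (Y : Finset β) (Q : β → κ) (Q' : β → μ) :
    S Y Q (fun Ω => (Ω.card : ℝ) * ep Ω Q') = ws Y Q Q' := by
  unfold S ws
  apply sum_congr rfl
  intro y hy
  have hc : ((cl Y Q y).card : ℝ) = ct Y Q y := card_cl (mem_cl.2 ⟨hy, rfl⟩)
  have hpos := ct_pos Q hy
  show ((cl Y Q y).card : ℝ) * ep (cl Y Q y) Q' / ct Y Q y = ep (cl Y Q y) Q'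
  rw [hc]
  field_simp

theorem mi_prod {X : Finset α} {Y : Finset β} (f : α → γ) (g : β → κ) :
    mi (X ×ˢ Y) (fun s => f s.1) (fun s => g s.2) = 0 := by
  unfold mi
  apply sum_eq_zero
  intro a ha
  obtain ⟨h1, h2⟩ := mem_product.1 ha
  have hXc : (0 : ℝ) < X.card := by exact_mod_cast card_pos.2 ⟨_, h1⟩
  have hYc : (0 : ℝ) < Y.card := by exact_mod_cast card_pos.2 ⟨_, h2⟩
  have p1 := (ct_pos f h1).ne'
  have p2 := (ct_pos g h2).ne'
  rw [ct_prod, ct_fst, ct_snd, card_product]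
  push_cast
  rw [Real.log_mul p1 p2, Real.log_mul p1 hYc.ne', Real.log_mul hXc.ne' p2,
    Real.log_mul hXc.ne' hYc.ne']
  ring

/-- **the inequality of one node, for a product** -/
theorem prod_node {δ : ℝ} (hδ : 0 < δ) (hδ1 : δ ≤ 1) (X : Finset α) (Y : Finset β)
    {P P' : α → γ} {Q Q' : β → κ} {ν : Type*} {Z : α × β → ν}
    (hP : Ref X P' P) (hQ : Ref Y Q' Q)
    (hZ : ∀ a ∈ X ×ˢ Y, ∀ b ∈ X ×ˢ Y, P' a.1 = P' b.1 → Q' a.2 = Q' b.2 → Z a = Z b)
    (hU : ∀ a ∈ X ×ˢ Y, ∀ b ∈ X ×ˢ Y, Z a = Z b → Q' a.2 = Q' b.2 → P' a.1 = P' b.1)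
    (hV : ∀ a ∈ X ×ˢ Y, ∀ b ∈ X ×ˢ Y, Z a = Z b → P' a.1 = P' b.1 → Q' a.2 = Q' b.2) :
    ∑ a ∈ X ×ˢ Y, (Real.log (ct (X ×ˢ Y) (fun b => (Z b, (P b.1, Q b.2))) a) -
      Real.log (ct (X ×ˢ Y) (fun b => (P' b.1, Q' b.2)) a)) ≤
      δ * (Y.card * hs X P P' + X.card * hs Y Q Q') +
      (40 + Real.exp (1 / δ)) * (ws Y Q Q' * hs X P P' + ws X P P' * hs Y Q Q') := by
  have hP2 : Ref (X ×ˢ Y) (fun s : α × β => P' s.1) (fun s : α × β => P s.1) :=
    fun a ha b hb h => hP _ (mem_product.1 ha).1 _ (mem_product.1 hb).1 h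
  have hQ2 : Ref (X ×ˢ Y) (fun s : α × β => Q' s.2) (fun s : α × β => Q s.2) :=
    fun a ha b hb h => hQ _ (mem_product.1 ha).2 _ (mem_product.1 hb).2 h
  have key := node_ineq hδ hδ1 hP2 hQ2 (Z := Z) hZ hU hV
  have ne : ∀ a ∈ X ×ˢ Y, (cl X P a.1).Nonempty ∧ (cl Y Q a.2).Nonempty := by
    intro a ha
    obtain ⟨h1, h2⟩ := mem_product.1 ha
    exact ⟨cl_nonempty P h1, cl_nonempty Q h2⟩
  have e1 : S (X ×ˢ Y) (lab (fun s : α × β => P s.1) (fun s : α × β => Q s.2))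
      (fun Ω => hh Ω (fun s : α × β => P' s.1)) = Y.card * hs X P P' := by
    rw [S_prod (Φ1 := fun Ω => hh Ω P') (Φ2 := fun Ω => (Ω.card : ℝ)), S_hs hP, S_card, mul_comm]
    intro a ha
    rw [hh_fst (ne a ha).1 (ne a ha).2, mul_comm]
  have e2 : S (X ×ˢ Y) (lab (fun s : α × β => P s.1) (fun s : α × β => Q s.2))
      (fun Ω => hh Ω (fun s : α × β => Q' s.2)) = X.card * hs Y Q Q' := by
    rw [S_prod (Φ1 := fun Ω => (Ω.card : ℝ)) (Φ2 := fun Ω => hh Ω Q'), S_hs hQ, S_card]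
    intro a ha
    rw [hh_snd (ne a ha).1 (ne a ha).2]
  have e3 : S (X ×ˢ Y) (lab (fun s : α × β => P s.1) (fun s : α × β => Q s.2))
      (fun Ω => ep Ω (fun s : α × β => Q' s.2) * hh Ω (fun s : α × β => P' s.1)) =
      ws Y Q Q' * hs X P P' := by
    rw [S_prod (Φ1 := fun Ω => hh Ω P') (Φ2 := fun Ω => (Ω.card : ℝ) * ep Ω Q'), S_hs hP,
      S_card_ep, mul_comm]
    intro a ha
    rw [hh_fst (ne a ha).1 (ne a ha).2, ep_snd (ne a ha).1 (ne a ha).2]
    ring
  have e4 : S (X ×ˢ Y) (lab (fun s : α × β => P s.1) (fun s : α × β => Q s.2))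
      (fun Ω => ep Ω (fun s : α × β => P' s.1) * hh Ω (fun s : α × β => Q' s.2)) =
      ws X P P' * hs Y Q Q' := by
    rw [S_prod (Φ1 := fun Ω => (Ω.card : ℝ) * ep Ω P') (Φ2 := fun Ω => hh Ω Q'), S_hs hQ,
      S_card_ep]
    intro a ha
    rw [hh_snd (ne a ha).1 (ne a ha).2, ep_fst (ne a ha).1 (ne a ha).2]
    ring
  have e5 : S (X ×ˢ Y) (lab (fun s : α × β => P s.1) (fun s : α × β => Q s.2))
      (fun Ω => mi Ω (fun s : α × β => P' s.1) (fun s : α × β => Q' s.2)) = 0 := by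
    unfold S
    apply sum_eq_zero
    intro a _
    rw [cl_prod]
    show mi (cl X P a.1 ×ˢ cl Y Q a.2) (fun s : α × β => P' s.1) (fun s : α × β => Q' s.2) / _ = 0
    rw [mi_prod, zero_div]
  rw [e1, e2, e3, e4, e5, mul_zero, add_zero] at key
  exact key

/-- a chain of labels, from one partition to a finer one -/
theorem chain' {ν : Type*} (A : Finset α) (T : ℕ) (F : ℕ → α → κ) (Z : ℕ → α → ν)
    (hFZ : ∀ t, ∀ a ∈ A, ∀ b ∈ A, F t a = F t b → Z t a = Z t b)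
    (hZZ : ∀ t, ∀ a ∈ A, ∀ b ∈ A, Z (t + 1) a = Z (t + 1) b → Z t a = Z t b)
    (h0 : ∀ a ∈ A, ∀ b ∈ A, Z 0 a = Z 0 b → F 0 a = F 0 b) :
    ∑ a ∈ A, (Real.log (ct A (Z T) a) - Real.log (ct A (F T) a)) ≤
      ∑ t ∈ range T, ∑ a ∈ A,
        (Real.log (ct A (fun b => (Z (t + 1) b, F t b)) a) - Real.log (ct A (F (t + 1)) a)) := by
  have step : ∀ t, ∑ a ∈ A, Real.log (ct A (Z (t + 1)) a) + ∑ a ∈ A, Real.log (ct A (F t) a) ≤
      ∑ a ∈ A, Real.log (ct A (fun b => (Z (t + 1) b, F t b)) a) +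
        ∑ a ∈ A, Real.log (ct A (Z t) a) := by
    intro t
    have h := submod A (Z (t + 1)) (F t) (Z t)
    rw [sum_add_distrib, sum_add_distrib] at h
    have e1 : ∀ a ∈ A, Real.log (ct A (fun a => (Z (t + 1) a, Z t a)) a) =
        Real.log (ct A (Z (t + 1)) a) := by
      intro a ha
      congr 1
      apply ct_congr
      intro b hb
      simp only [Prod.mk.injEq]
      exact ⟨fun h => h.1, fun h => ⟨h, hZZ t b hb a ha h⟩⟩
    have e2 : ∀ a ∈ A, Real.log (ct A (fun a => (F t a, Z t a)) a) =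
        Real.log (ct A (F t) a) := by
      intro a ha
      congr 1
      apply ct_congr
      intro b hb
      simp only [Prod.mk.injEq]
      exact ⟨fun h => h.1, fun h => ⟨h, hFZ t b hb a ha h⟩⟩
    have e3 : ∀ a ∈ A, Real.log (ct A (fun a => (Z (t + 1) a, F t a, Z t a)) a) =
        Real.log (ct A (fun b => (Z (t + 1) b, F t b)) a) := by
      intro a ha
      congr 1
      apply ct_congr
      intro b hb
      simp only [Prod.mk.injEq]
      exact ⟨fun h => ⟨h.1, h.2.1⟩, fun h => ⟨h.1, h.2, hFZ t b hb a ha h.2⟩⟩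
    rw [sum_congr rfl e1, sum_congr rfl e2, sum_congr rfl e3] at h
    exact h
  induction T with
  | zero =>
    rw [range_zero, sum_empty]
    apply sum_nonpos
    intro a ha
    rw [sub_nonpos]
    exact Real.log_le_log (ct_pos _ ha) (ct_mono fun b hb h => h0 b hb a ha h)
  | succ T ih =>
    rw [sum_range_succ]
    have h1 := step T
    rw [sum_sub_distrib] at ih ⊢
    rw [sum_sub_distrib (s := A) (f := fun a =>
      Real.log (ct A (fun b => (Z (T + 1) b, F T b)) a))]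
    linarith

end Pool.Agent.H85.AK
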