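import Pool.Agent.H85.AK.Mul1

/-!
The sum over the shifts, for a product of two sets.
-/

set_option autoImplicit false

namespace Pool.Agent.H85.AK

open Finset
open scoped Classical

variable {α β γ κ : Type*}

theorem hs_tel {X : Finset α} (P : ℤ → α → γ) (T : ℕ) :
    ∑ s ∈ range T, hs X (P (s : ℤ)) (P ((s : ℤ) + 1)) = hs X (P 0) (P (T : ℤ)) := by
  unfold hs
  rw [sum_comm]
  apply sum_congr rfl
  intro x _
  have h := sum_range_sub' (fun s : ℕ => Real.log (ct X (P (s : ℤ)) x)) T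
  simp only [Nat.cast_add, Nat.cast_one, Nat.cast_zero] at h
  exact h

theorem sum_shift {f : ℤ → ℝ} (hf : ∀ s, 0 ≤ f s) (hf0 : ∀ s < 0, f s = 0) (J : Finset ℕ)
    {t T : ℕ} (htT : t < T) : ∑ i ∈ J, f ((t : ℤ) - i) ≤ ∑ s ∈ range T, f (s : ℤ) := by
  have h1 : ∑ i ∈ J, f ((t : ℤ) - i) = ∑ i ∈ J.filter (fun i => i ≤ t), f ((t : ℤ) - i) := by
    symm
    apply sum_filter_of_ne
    intro i _ hi
    by_contra hc
    apply hi
    apply hf0
    omega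
  rw [h1]
  have h2 : ∑ i ∈ J.filter (fun i => i ≤ t), f ((t : ℤ) - i) =
      ∑ s ∈ (J.filter (fun i => i ≤ t)).image (fun i => t - i), f (s : ℤ) := by
    rw [sum_image]
    · apply sum_congr rfl
      intro i hi
      have := (mem_filter.1 hi).2
      congr 1
      omega
    · intro i hi j hj h
      have h3 := (mem_filter.1 hi).2
      have h4 := (mem_filter.1 hj).2
      simp only at h
      omega
  rw [h2]
  apply sum_le_sum_of_subset_of_nonneg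
  · intro s hs
    obtain ⟨i, hi, rfl⟩ := mem_image.1 hs
    exact mem_range.2 (by omega)
  · intro s _ _
    exact hf _

theorem sum_shift' {f : ℤ → ℝ} (hf : ∀ s, 0 ≤ f s) (hf0 : ∀ s < 0, f s = 0) (i T : ℕ) :
    ∑ t ∈ range T, f ((t : ℤ) - i) ≤ ∑ s ∈ range T, f (s : ℤ) := by
  have h1 : ∑ t ∈ range T, f ((t : ℤ) - i) = ∑ t ∈ (range T).filter (fun t => i ≤ t),
      f ((t : ℤ) - i) := by
    symm
    apply sum_filter_of_ne
    intro t _ ht
    by_contra hc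
    apply ht
    apply hf0
    omega
  rw [h1]
  have h2 : ∑ t ∈ (range T).filter (fun t => i ≤ t), f ((t : ℤ) - i) =
      ∑ s ∈ ((range T).filter (fun t => i ≤ t)).image (fun t => t - i), f (s : ℤ) := by
    rw [sum_image]
    · apply sum_congr rfl
      intro t ht
      have := (mem_filter.1 ht).2
      congr 1
      omega
    · intro s hs t ht h
      have h3 := (mem_filter.1 hs).2
      have h4 := (mem_filter.1 ht).2
      simp only at h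
      omega
  rw [h2]
  apply sum_le_sum_of_subset_of_nonneg
  · intro s hs
    obtain ⟨t, ht, rfl⟩ := mem_image.1 hs
    have := mem_range.1 (mem_filter.1 ht).1
    exact mem_range.2 (by omega)
  · intro s _ _
    exact hf _

/-- **the sum over the shifts** -/
theorem grid {δ : ℝ} (hδ : 0 < δ) (hδ1 : δ ≤ 1) (X : Finset α) (Y : Finset β)
    (P : ℤ → α → γ) (Q : ℤ → β → κ) {ν : Type*} (Z : ℕ → ℕ → α × β → ν)
    (hP : ∀ s, Ref X (P (s + 1)) (P s)) (hQ : ∀ s, Ref Y (Q (s + 1)) (Q s))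
    (hP0 : ∀ s, s < 0 → Ref X (P s) (P (s + 1))) (J : Finset ℕ) (T : ℕ)
    (hZ : ∀ i ∈ J, ∀ t : ℕ, ∀ a ∈ X ×ˢ Y, ∀ b ∈ X ×ˢ Y, P ((t : ℤ) - i) a.1 = P ((t : ℤ) - i) b.1 →
      Q (t : ℤ) a.2 = Q (t : ℤ) b.2 → Z i t a = Z i t b)
    (hU : ∀ i ∈ J, ∀ t : ℕ, ∀ a ∈ X ×ˢ Y, ∀ b ∈ X ×ˢ Y, Z i t a = Z i t b →
      Q (t : ℤ) a.2 = Q (t : ℤ) b.2 → P ((t : ℤ) - i) a.1 = P ((t : ℤ) - i) b.1)
    (hV : ∀ i ∈ J, ∀ t : ℕ, ∀ a ∈ X ×ˢ Y, ∀ b ∈ X ×ˢ Y, Z i t a = Z i t b →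
      P ((t : ℤ) - i) a.1 = P ((t : ℤ) - i) b.1 → Q (t : ℤ) a.2 = Q (t : ℤ) b.2)
    (hZZ : ∀ i ∈ J, ∀ t : ℕ, ∀ a ∈ X ×ˢ Y, ∀ b ∈ X ×ˢ Y, Z i (t + 1) a = Z i (t + 1) b →
      Z i t a = Z i t b)
    (h0 : ∀ i ∈ J, ∀ a ∈ X ×ˢ Y, ∀ b ∈ X ×ˢ Y, Z i 0 a = Z i 0 b →
      P (0 - (i : ℤ)) a.1 = P (0 - (i : ℤ)) b.1 ∧ Q 0 a.2 = Q 0 b.2) :
    ∑ i ∈ J, ∑ a ∈ X ×ˢ Y, (Real.log (ct (X ×ˢ Y) (Z i T) a) -
      Real.log (ct (X ×ˢ Y) (fun b => (P ((T : ℤ) - i) b.1, Q (T : ℤ) b.2)) a)) ≤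
      J.card * (δ * (Y.card * hs X (P 0) (P (T : ℤ)) + X.card * hs Y (Q 0) (Q (T : ℤ)))) +
      (40 + Real.exp (1 / δ)) *
        ((∑ t ∈ range T, ws Y (Q (t : ℤ)) (Q ((t : ℤ) + 1))) * hs X (P 0) (P (T : ℤ)) +
        (∑ t ∈ range T, ws X (P (t : ℤ)) (P ((t : ℤ) + 1))) * hs Y (Q 0) (Q (T : ℤ))) := by
  set C : ℝ := 40 + Real.exp (1 / δ) with hC
  have hC0 : 0 ≤ C := by positivity
  set hX : ℤ → ℝ := fun s => hs X (P s) (P (s + 1)) with hhX
  set hY : ℤ → ℝ := fun s => hs Y (Q s) (Q (s + 1)) with hhY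
  set wX : ℤ → ℝ := fun s => ws X (P s) (P (s + 1)) with hwX
  set wY : ℤ → ℝ := fun s => ws Y (Q s) (Q (s + 1)) with hwY
  have hX0 : ∀ s, 0 ≤ hX s := fun s => hs_nonneg (hP s)
  have hY0 : ∀ s, 0 ≤ hY s := fun s => hs_nonneg (hQ s)
  have wX0 : ∀ s, 0 ≤ wX s := fun s => ws_nonneg _ _ _
  have wY0 : ∀ s, 0 ≤ wY s := fun s => ws_nonneg _ _ _
  have hXn : ∀ s < 0, hX s = 0 := by
    intro s hs0
    simp only [hhX]
    unfold hs
    apply sum_eq_zero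
    intro x hx
    rw [sub_eq_zero]
    congr 1
    exact ct_congr fun b hb => ⟨fun h => hP0 s hs0 b hb x hx h, fun h => hP s b hb x hx h⟩
  have wXn : ∀ s < 0, wX s = 0 := by
    intro s hs0
    have h1 := ws_le_hs (hP s)
    have h2 := hXn s hs0
    simp only [hhX] at h2
    rw [h2] at h1
    exact le_antisymm h1 (wX0 s)
  -- one shift
  have one : ∀ i ∈ J, ∑ a ∈ X ×ˢ Y, (Real.log (ct (X ×ˢ Y) (Z i T) a) -
      Real.log (ct (X ×ˢ Y) (fun b => (P ((T : ℤ) - i) b.1, Q (T : ℤ) b.2)) a)) ≤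
      ∑ t ∈ range T, (δ * (Y.card * hX ((t : ℤ) - i) + X.card * hY (t : ℤ)) +
        C * (wY (t : ℤ) * hX ((t : ℤ) - i) + wX ((t : ℤ) - i) * hY (t : ℤ))) := by
    intro i hi
    have h1 := chain' (X ×ˢ Y) T (fun t b => (P ((t : ℤ) - i) b.1, Q (t : ℤ) b.2)) (Z i)
      (fun t a ha b hb h => by
        simp only [Prod.mk.injEq] at h
        exact hZ i hi t a ha b hb h.1 h.2)
      (fun t a ha b hb h => hZZ i hi t a ha b hb h)
      (fun a ha b hb h => by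
        have h2 := h0 i hi a ha b hb h
        simp only [Prod.mk.injEq, Nat.cast_zero]
        exact h2)
    refine h1.trans (sum_le_sum fun t _ => ?_)
    have e : ((t + 1 : ℕ) : ℤ) - i = ((t : ℤ) - i) + 1 := by
      push_cast
      ring
    have e' : ((t + 1 : ℕ) : ℤ) = (t : ℤ) + 1 := by push_cast; ring
    have h2 := prod_node hδ hδ1 X Y (P := P ((t : ℤ) - i)) (P' := P (((t : ℤ) - i) + 1))
      (Q := Q (t : ℤ)) (Q' := Q ((t : ℤ) + 1)) (Z := Z i (t + 1)) (hP _) (hQ _)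
      (by
        have := hZ i hi (t + 1)
        rw [e, e'] at this
        exact this)
      (by
        have := hU i hi (t + 1)
        rw [e, e'] at this
        exact this)
      (by
        have := hV i hi (t + 1)
        rw [e, e'] at this
        exact this)
    rw [e, e']
    exact h2
  refine (sum_le_sum one).trans ?_
  have SX : ∑ s ∈ range T, hX (s : ℤ) = hs X (P 0) (P (T : ℤ)) := hs_tel P T
  have SY : ∑ s ∈ range T, hY (s : ℤ) = hs Y (Q 0) (Q (T : ℤ)) := hs_tel Q T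
  rw [← SX, ← SY]
  -- the three sums
  have t1 : ∑ i ∈ J, ∑ t ∈ range T, (Y.card * hX ((t : ℤ) - i) + X.card * hY (t : ℤ)) ≤
      J.card * (Y.card * ∑ s ∈ range T, hX (s : ℤ) + X.card * ∑ s ∈ range T, hY (s : ℤ)) := by
    rw [← nsmul_eq_mul, ← sum_const]
    apply sum_le_sum
    intro i _
    rw [sum_add_distrib, ← mul_sum, ← mul_sum]
    apply add_le_add _ le_rfl
    exact mul_le_mul_of_nonneg_left (sum_shift' hX0 hXn i T) (Nat.cast_nonneg _)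
  have t2 : ∑ i ∈ J, ∑ t ∈ range T, wY (t : ℤ) * hX ((t : ℤ) - i) ≤
      (∑ t ∈ range T, wY (t : ℤ)) * ∑ s ∈ range T, hX (s : ℤ) := by
    rw [sum_comm, sum_mul]
    apply sum_le_sum
    intro t ht
    rw [← mul_sum]
    exact mul_le_mul_of_nonneg_left (sum_shift hX0 hXn J (mem_range.1 ht)) (wY0 _)
  have t3 : ∑ i ∈ J, ∑ t ∈ range T, wX ((t : ℤ) - i) * hY (t : ℤ) ≤
      (∑ t ∈ range T, wX (t : ℤ)) * ∑ s ∈ range T, hY (s : ℤ) := by
    rw [sum_comm, mul_sum]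
    apply sum_le_sum
    intro t ht
    rw [← sum_mul]
    exact mul_le_mul_of_nonneg_right (sum_shift wX0 wXn J (mem_range.1 ht)) (hY0 _)
  have e : ∑ i ∈ J, ∑ t ∈ range T, (δ * (Y.card * hX ((t : ℤ) - i) + X.card * hY (t : ℤ)) +
      C * (wY (t : ℤ) * hX ((t : ℤ) - i) + wX ((t : ℤ) - i) * hY (t : ℤ))) =
      δ * ∑ i ∈ J, ∑ t ∈ range T, (Y.card * hX ((t : ℤ) - i) + X.card * hY (t : ℤ)) +
      C * (∑ i ∈ J, ∑ t ∈ range T, wY (t : ℤ) * hX ((t : ℤ) - i) +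
        ∑ i ∈ J, ∑ t ∈ range T, wX ((t : ℤ) - i) * hY (t : ℤ)) := by
    simp only [sum_add_distrib, mul_sum, mul_add]
  rw [e]
  have h1 := mul_le_mul_of_nonneg_left t1 hδ.le
  have h2 := mul_le_mul_of_nonneg_left (add_le_add t2 t3) hC0
  refine (add_le_add h1 h2).trans (le_of_eq ?_)
  ring

end Pool.Agent.H85.AK
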