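import Pool.Agent.H85.AK.Mul2

/-!
Changing one of the two sets.
-/

set_option autoImplicit false

namespace Pool.Agent.H85.AK

open Finset
open scoped Classical

variable {α β γ κ μ ν : Type*}

/-- the conditional entropy of `τ` given `σ` -/
noncomputable def cond (Ω : Finset α) (σ : α → γ) (τ : α → κ) : ℝ :=
  ∑ a ∈ Ω, (Real.log (ct Ω σ a) - Real.log (ct Ω τ a))

theorem cond_nonneg {Ω : Finset α} {σ : α → γ} {τ : α → κ} (h : Ref Ω τ σ) : 0 ≤ cond Ω σ τ :=
  sum_nonneg fun _ ha => sub_nonneg.2 (Real.log_le_log (ct_pos τ ha)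
    (ct_mono fun b hb h' => h b hb _ ha h'))

/-- restriction to a part given by a label -/
theorem cond_split (Ω : Finset α) (σ : α → γ) (τ : α → κ) (ζ : α → Bool) :
    ∑ a ∈ Ω, (Real.log (ct Ω (fun b => (σ b, ζ b)) a) - Real.log (ct Ω (fun b => (τ b, ζ b)) a)) =
      cond (Ω.filter fun a => ζ a = true) σ τ + cond (Ω.filter fun a => ¬ ζ a = true) σ τ := by
  rw [← sum_filter_add_sum_filter_not Ω (fun a => ζ a = true)]
  unfold cond
  congr 1
  · apply sum_congr rfl
    intro a ha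
    have hz := (mem_filter.1 ha).2
    have e : (Ω.filter fun a => ζ a = true) = Ω.filter fun b => ζ b = ζ a := by rw [hz]
    rw [e, ct_filter, ct_filter]
  · apply sum_congr rfl
    intro a ha
    have hz := (mem_filter.1 ha).2
    have e : (Ω.filter fun a => ¬ ζ a = true) = Ω.filter fun b => ζ b = ζ a := by
      apply filter_congr
      intro b _
      have : ζ a = false := by simpa using hz
      rw [this]
      simp
    rw [e, ct_filter, ct_filter]

/-- a subset has a smaller conditional entropy -/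
theorem cond_filter_le {Ω : Finset α} {σ : α → γ} {τ : α → κ} (h : Ref Ω τ σ) (ζ : α → Bool) :
    cond (Ω.filter fun a => ζ a = true) σ τ ≤ cond Ω σ τ := by
  have h1 := submod Ω τ ζ σ
  rw [← sub_nonneg, ← sum_sub_distrib] at h1
  have h2 : 0 ≤ cond (Ω.filter fun a => ¬ ζ a = true) σ τ :=
    cond_nonneg fun a ha b hb hab => h a (mem_filter.1 ha).1 b (mem_filter.1 hb).1 hab
  have h3 : ∑ a ∈ Ω, (Real.log (ct Ω (fun b => (σ b, ζ b)) a) -
      Real.log (ct Ω (fun b => (τ b, ζ b)) a)) ≤ cond Ω σ τ := by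
    rw [← sub_nonneg]
    unfold cond
    rw [← sum_sub_distrib]
    refine h1.trans (le_of_eq ?_)
    apply sum_congr rfl
    intro a ha
    have e1 : ct Ω (fun a => (τ a, σ a)) a = ct Ω τ a := ct_congr fun b hb => by
      simp only [Prod.mk.injEq]
      exact ⟨fun h' => h'.1, fun h' => ⟨h', h b hb a ha h'⟩⟩
    have e2 : ct Ω (fun a => (ζ a, σ a)) a = ct Ω (fun b => (σ b, ζ b)) a := ct_congr fun b hb => by
      simp only [Prod.mk.injEq]
      exact ⟨fun h' => ⟨h'.2, h'.1⟩, fun h' => ⟨h'.2, h'.1⟩⟩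
    have e3 : ct Ω (fun a => (τ a, ζ a, σ a)) a = ct Ω (fun b => (τ b, ζ b)) a :=
      ct_congr fun b hb => by
        simp only [Prod.mk.injEq]
        exact ⟨fun h' => ⟨h'.1, h'.2.1⟩, fun h' => ⟨h'.1, h'.2, h b hb a ha h'.1⟩⟩
    rw [e1, e2, e3]
    ring
  rw [cond_split] at h3
  linarith

/-- two parts -/
theorem cond_le_parts {Ω : Finset α} (σ : α → γ) (τ : α → κ) (ζ : α → Bool) :
    cond Ω σ τ ≤ Ω.card * Real.log 2 + (cond (Ω.filter fun a => ζ a = true) σ τ +
      cond (Ω.filter fun a => ¬ ζ a = true) σ τ) := by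
  rw [← cond_split]
  have h1 := subadd Ω σ ζ
  rw [← sub_nonneg, ← sum_sub_distrib] at h1
  have h2 : hh Ω ζ ≤ Ω.card * Real.log (2 : ℕ) := by
    apply hh_le_card two_pos
    refine (card_le_card (subset_univ _)).trans ?_
    simp
  have h3 : cond Ω σ τ ≤ hh Ω ζ + ∑ a ∈ Ω, (Real.log (ct Ω (fun b => (σ b, ζ b)) a) -
      Real.log (ct Ω (fun b => (τ b, ζ b)) a)) := by
    unfold cond hh
    rw [← sum_add_distrib, ← sub_nonneg, ← sum_sub_distrib]
    refine h1.trans (sum_le_sum fun a ha => ?_)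
    have h4 : Real.log (ct Ω (fun b => (τ b, ζ b)) a) ≤ Real.log (ct Ω τ a) := by
      apply Real.log_le_log (ct_pos _ ha)
      apply ct_mono
      intro b _ h
      simp only [Prod.mk.injEq] at h
      exact h.1
    linarith
  have e : Real.log ((2 : ℕ) : ℝ) = Real.log 2 := by norm_num
  rw [e] at h2
  linarith

/-- the entropy of one coordinate is an upper bound -/
theorem cond_le_snd {X : Finset α} {Y : Finset β} {σ : α × β → γ} {τ : α × β → κ} {g0 : β → μ}
    {g : β → ν} (h1 : ∀ a ∈ X ×ˢ Y, ∀ b ∈ X ×ˢ Y, σ a = σ b → g0 a.2 = g0 b.2)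
    (h2 : ∀ a ∈ X ×ˢ Y, ∀ b ∈ X ×ˢ Y, σ a = σ b → g a.2 = g b.2 → τ a = τ b)
    (h3 : Ref Y g g0) :
    cond (X ×ˢ Y) σ τ ≤ X.card * hs Y g0 g := by
  have h := submod (X ×ˢ Y) σ (fun a => g a.2) (fun a => g0 a.2)
  rw [← sub_nonneg, ← sum_sub_distrib] at h
  have e0 : (X.card : ℝ) * hs Y g0 g = ∑ a ∈ X ×ˢ Y,
      (Real.log (ct (X ×ˢ Y) (fun a => g0 a.2) a) - Real.log (ct (X ×ˢ Y) (fun a => g a.2) a)) := by
    rw [sum_product]
    unfold hs
    have h4 : ∀ x ∈ X, ∑ y ∈ Y, (Real.log (ct (X ×ˢ Y) (fun a => g0 a.2) (x, y)) -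
        Real.log (ct (X ×ˢ Y) (fun a => g a.2) (x, y))) =
        ∑ y ∈ Y, (Real.log (ct Y g0 y) - Real.log (ct Y g y)) := by
      intro x hx
      have hXc : (0 : ℝ) < X.card := by exact_mod_cast card_pos.2 ⟨_, hx⟩
      apply sum_congr rfl
      intro y hy
      rw [ct_snd, ct_snd, Real.log_mul hXc.ne' (ct_pos g0 hy).ne',
        Real.log_mul hXc.ne' (ct_pos g hy).ne']
      ring
    rw [sum_congr rfl h4, sum_const, nsmul_eq_mul]
  rw [e0, ← sub_nonneg]
  unfold cond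
  rw [← sum_sub_distrib]
  refine h.trans (sum_le_sum fun a ha => ?_)
  have e1 : ct (X ×ˢ Y) (fun a => (σ a, g0 a.2)) a = ct (X ×ˢ Y) σ a := ct_congr fun b hb => by
    simp only [Prod.mk.injEq]
    exact ⟨fun h' => h'.1, fun h' => ⟨h', h1 b hb a ha h'⟩⟩
  have e2 : ct (X ×ˢ Y) (fun a => (g a.2, g0 a.2)) a = ct (X ×ˢ Y) (fun a => g a.2) a :=
    ct_congr fun b hb => by
      simp only [Prod.mk.injEq]
      exact ⟨fun h' => h'.1, fun h' => ⟨h', h3 b.2 (mem_product.1 hb).2 a.2 (mem_product.1 ha).2 h'⟩⟩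
  have e3 : Real.log (ct (X ×ˢ Y) (fun a => (σ a, g a.2, g0 a.2)) a) ≤
      Real.log (ct (X ×ˢ Y) τ a) := by
    apply Real.log_le_log (ct_pos _ ha)
    apply ct_mono
    intro b hb h'
    simp only [Prod.mk.injEq] at h'
    exact h2 b hb a ha h'.1 h'.2.1
  rw [e1, e2]
  linarith

theorem ct_image [DecidableEq β] {Ω : Finset α} {φ : α → β} (hφ : Set.InjOn φ (Ω : Set α)) (f : β → γ) {a : α} :
    ct (Ω.image φ) f (φ a) = ct Ω (fun b => f (φ b)) a := by
  unfold ct cv
  congr 1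
  have e : (Ω.image φ).filter (fun b => f b = f (φ a)) =
      (Ω.filter fun b => f (φ b) = f (φ a)).image φ := by
    ext b
    simp only [mem_filter, mem_image]
    constructor
    · rintro ⟨⟨c, hc, rfl⟩, h⟩
      exact ⟨c, ⟨hc, h⟩, rfl⟩
    · rintro ⟨c, ⟨hc, h⟩, rfl⟩
      exact ⟨⟨c, hc, rfl⟩, h⟩
  rw [e, card_image_of_injOn]
  intro x hx y hy h
  exact hφ (mem_filter.1 hx).1 (mem_filter.1 hy).1 h

theorem cond_image [DecidableEq β] {Ω : Finset α} {φ : α → β} (hφ : Set.InjOn φ (Ω : Set α)) (σ : β → γ)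
    (τ : β → κ) : cond (Ω.image φ) σ τ = cond Ω (fun b => σ (φ b)) (fun b => τ (φ b)) := by
  unfold cond
  rw [sum_image hφ]
  apply sum_congr rfl
  intro a _
  rw [ct_image hφ, ct_image hφ]

/-- **changing one of the two sets** -/
theorem cond_change {X : Finset α} {Y : Finset β} {φ : α → α} (hφ : Function.Injective φ)
    {σ : α × β → γ} {τ : α × β → κ} {g0 : β → μ}
    {g : β → ν} (h1 : ∀ a b : α × β, σ a = σ b → g0 a.2 = g0 b.2)
    (h2 : ∀ a b : α × β, σ a = σ b → g a.2 = g b.2 → τ a = τ b)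
    (h3 : ∀ a b : β, g a = g b → g0 a = g0 b) (h4 : ∀ a b : α × β, τ a = τ b → σ a = σ b) :
    cond (X ×ˢ Y) σ τ ≤ X.card * Y.card * Real.log 2 +
      (cond (X ×ˢ Y) (fun b => σ (φ b.1, b.2)) (fun b => τ (φ b.1, b.2)) +
      (X.filter fun x => x ∉ X.image φ).card * hs Y g0 g) := by
  set ζ : α × β → Bool := fun a => decide (a.1 ∈ X.image φ) with hζ
  have p := cond_le_parts (Ω := X ×ˢ Y) σ τ ζ
  have e1 : ((X ×ˢ Y).card : ℝ) = X.card * Y.card := by
    rw [card_product]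
    push_cast
    rfl
  rw [e1] at p
  -- the second part
  have q : cond ((X ×ˢ Y).filter fun a => ¬ ζ a = true) σ τ ≤
      (X.filter fun x => x ∉ X.image φ).card * hs Y g0 g := by
    have e2 : ((X ×ˢ Y).filter fun a => ¬ ζ a = true) = (X.filter fun x => x ∉ X.image φ) ×ˢ Y := by
      ext a
      simp only [hζ, mem_filter, mem_product, decide_eq_true_eq]
      tauto
    rw [e2]
    exact cond_le_snd (fun a _ b _ h => h1 a b h) (fun a _ b _ h h' => h2 a b h h')
      (fun a _ b _ h => h3 a b h)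
  -- the first part
  set ζ' : α × β → Bool := fun a => decide (a.1 ∈ X) with hζ'
  have r : cond ((X ×ˢ Y).filter fun a => ζ a = true) σ τ ≤
      cond (X ×ˢ Y) (fun b => σ (φ b.1, b.2)) (fun b => τ (φ b.1, b.2)) := by
    have e3 : ((X ×ˢ Y).filter fun a => ζ a = true) =
        ((X.image φ ×ˢ Y).filter fun a => ζ' a = true) := by
      ext a
      simp only [hζ, hζ', mem_filter, mem_product, decide_eq_true_eq]
      tauto
    have e4 : X.image φ ×ˢ Y = (X ×ˢ Y).image (fun b => (φ b.1, b.2)) := by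
      ext a
      simp only [mem_product, mem_image, Prod.exists]
      constructor
      · rintro ⟨⟨x, hx, h⟩, hy⟩
        exact ⟨x, a.2, ⟨hx, hy⟩, by rw [h]⟩
      · rintro ⟨x, y, ⟨hx, hy⟩, rfl⟩
        exact ⟨⟨x, hx, rfl⟩, hy⟩
    have hinj : Function.Injective (fun b : α × β => (φ b.1, b.2)) := by
      rintro ⟨x, y⟩ ⟨x', y'⟩ h
      simp only [Prod.mk.injEq] at h
      exact Prod.ext (hφ h.1) h.2
    rw [e3]
    refine (cond_filter_le (fun a _ b _ h => h4 a b h) ζ').trans ?_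
    rw [e4, cond_image hinj.injOn]
  linarith

end Pool.Agent.H85.AK
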