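import Pool.Agent.H85.AK.Mul3

/-!
One prime.
-/

set_option autoImplicit false

namespace Pool.Agent.H85.AK

open Finset
open scoped Classical

variable {α β γ κ μ ν : Type*}

theorem cond_congr {Ω : Finset α} {σ : α → γ} {τ : α → κ} {σ' : α → μ} {τ' : α → ν}
    (h1 : ∀ a b : α, σ a = σ b ↔ σ' a = σ' b) (h2 : ∀ a b : α, τ a = τ b ↔ τ' a = τ' b) :
    cond Ω σ τ = cond Ω σ' τ' := by
  unfold cond
  apply sum_congr rfl
  intro a _
  rw [ct_congr (f := σ) (g := σ') fun b _ => h1 b a, ct_congr (f := τ) (g := τ') fun b _ => h2 b a]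

section stage

variable {K : Type*} [AddCommGroup K]

/-- residual entropy -/
noncomputable def rr (H : AddSubgroup K) (A : Finset K) : ℝ := ∑ x ∈ A, Real.log (ct A (cos H) x)

/-- the label of a level -/
def lev (H : AddSubgroup K) (L : ℤ → AddSubgroup K) (c s : ℤ) (x : K) : Set K × Set K :=
  (cos H x, cos (L (c + s)) x)

theorem lev_eq {H : AddSubgroup K} {L : ℤ → AddSubgroup K} {c s : ℤ} {x y : K} :
    lev H L c s x = lev H L c s y ↔ x - y ∈ H ∧ x - y ∈ L (c + s) := by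
  unfold lev
  rw [Prod.mk.injEq, cos_eq, cos_eq]

theorem rr_nonneg (H : AddSubgroup K) (A : Finset K) : 0 ≤ rr H A :=
  sum_nonneg fun _ hx => log_ct_nonneg _ hx

theorem hs_lev {H : AddSubgroup K} {L : ℤ → AddSubgroup K} {c : ℤ} {A : Finset K}
    (hA : ∀ x ∈ A, ∀ y ∈ A, x - y ∈ L c) (s : ℤ) :
    hs A (lev H L c 0) (lev H L c s) = rr H A - rr (H ⊓ L (c + s)) A := by
  unfold hs rr
  rw [← sum_sub_distrib]
  apply sum_congr rfl
  intro x hx
  congr 2
  · apply ct_congr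
    intro y hy
    rw [lev_eq, cos_eq, add_zero]
    exact ⟨fun h => h.1, fun h => ⟨h, hA y hy x hx⟩⟩
  · apply ct_congr
    intro y _
    rw [lev_eq, cos_eq, AddSubgroup.mem_inf]

/-- the label of the sum, given the classes modulo `H` -/
def sig (H L : AddSubgroup K) (a : K × K) : Set K × Set K × Set K :=
  (cos H a.1, cos H a.2, cos L (a.1 + a.2))

/-- the labels of the two coordinates -/
def tau (H : AddSubgroup K) (a : K × K) : Set K × Set K := (cos H a.1, cos H a.2)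

theorem sig_eq {H L : AddSubgroup K} {a b : K × K} : sig H L a = sig H L b ↔
    a.1 - b.1 ∈ H ∧ a.2 - b.2 ∈ H ∧ (a.1 - b.1) + (a.2 - b.2) ∈ L := by
  unfold sig
  rw [Prod.mk.injEq, Prod.mk.injEq, cos_eq, cos_eq, cos_eq, add_sub_add_comm]

theorem tau_eq {H : AddSubgroup K} {a b : K × K} : tau H a = tau H b ↔
    a.1 - b.1 ∈ H ∧ a.2 - b.2 ∈ H := by
  unfold tau
  rw [Prod.mk.injEq, cos_eq, cos_eq]

/-- **one stage** -/
theorem stage {δ θ : ℝ} (hδ : 0 < δ) (hδ1 : δ ≤ 1) {L : ℤ → AddSubgroup K} (hL : Antitone L)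
    {H : AddSubgroup K} {c : ℤ} {A B : Finset K}
    (hA : ∀ x ∈ A, ∀ y ∈ A, x - y ∈ L c) (hB : ∀ x ∈ B, ∀ y ∈ B, x - y ∈ L c)
    (J : Finset ℕ) (hJ : J.Nonempty) (φ : ℕ → K →+ K)
    (hinj : ∀ i ∈ J, Function.Injective (φ i))
    (hφL : ∀ i ∈ J, ∀ y l, φ i y ∈ L (l + i) ↔ y ∈ L l)
    (hφH : ∀ i ∈ J, ∀ y, φ i y ∈ H ↔ y ∈ H)
    (hθ : ∀ i ∈ J, ((A.filter fun x => x ∉ A.image (φ i)).card : ℝ) ≤ θ * A.card) (T : ℕ)
    {w : ℝ}
    (hWA : (∑ t ∈ range T, ws A (lev H L c (t : ℤ)) (lev H L c ((t : ℤ) + 1))) ≤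
      w * J.card * A.card)
    (hWB : (∑ t ∈ range T, ws B (lev H L c (t : ℤ)) (lev H L c ((t : ℤ) + 1))) ≤
      w * J.card * B.card) :
    cond (A ×ˢ B) (sig H (L (c + T))) (tau (H ⊓ L (c + T))) ≤
      (δ + (40 + Real.exp (1 / δ)) * w) * (B.card * (rr H A - rr (H ⊓ L (c + T)) A) +
        A.card * (rr H B - rr (H ⊓ L (c + T)) B)) + A.card * B.card * Real.log 2 +
        θ * A.card * (rr H B - rr (H ⊓ L (c + T)) B) := by
  set P : ℤ → K → Set K × Set K := fun s => lev H L c s with hP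
  set DA : ℝ := rr H A - rr (H ⊓ L (c + T)) A with hDA
  set DB : ℝ := rr H B - rr (H ⊓ L (c + T)) B with hDB
  have eA : hs A (P 0) (P (T : ℤ)) = DA := hs_lev hA _
  have eB : hs B (P 0) (P (T : ℤ)) = DB := hs_lev hB _
  have href : ∀ (X : Finset K) (s : ℤ), Ref X (P (s + 1)) (P s) := by
    intro X s x _ y _ h
    have h1 := lev_eq.1 h
    exact lev_eq.2 ⟨h1.1, hL (by omega) h1.2⟩
  have DA0 : 0 ≤ DA := by
    rw [← eA]
    apply sum_nonneg
    intro x hx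
    rw [sub_nonneg]
    apply Real.log_le_log (ct_pos _ hx)
    apply ct_mono
    intro y _ h
    have h1 := lev_eq.1 h
    exact lev_eq.2 ⟨h1.1, hL (by omega) h1.2⟩
  have DB0 : 0 ≤ DB := by
    rw [← eB]
    apply sum_nonneg
    intro x hx
    rw [sub_nonneg]
    apply Real.log_le_log (ct_pos _ hx)
    apply ct_mono
    intro y _ h
    have h1 := lev_eq.1 h
    exact lev_eq.2 ⟨h1.1, hL (by omega) h1.2⟩
  set Z : ℕ → ℕ → K × K → Set K × Set K × Set K := fun i t b =>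
    (cos H b.1, cos H b.2, cos (L (c + t)) (φ i b.1 + b.2)) with hZ
  have Z_eq : ∀ i t (a b : K × K), Z i t a = Z i t b ↔ a.1 - b.1 ∈ H ∧ a.2 - b.2 ∈ H ∧
      φ i (a.1 - b.1) + (a.2 - b.2) ∈ L (c + t) := by
    intro i t a b
    simp only [hZ]
    rw [Prod.mk.injEq, Prod.mk.injEq, cos_eq, cos_eq, cos_eq, add_sub_add_comm, map_sub]
  have hφL' : ∀ i ∈ J, ∀ (t : ℕ) y, φ i y ∈ L (c + t) ↔ y ∈ L (c + ((t : ℤ) - i)) := by
    intro i hi t y
    have h := hφL i hi y (c + ((t : ℤ) - i))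
    have e : c + ((t : ℤ) - i) + i = c + t := by ring
    rwa [e] at h
  have g := grid hδ hδ1 A B P P Z (href A) (href B) (by
      intro s hs x hx y hy h
      have h1 := lev_eq.1 h
      exact lev_eq.2 ⟨h1.1, hL (by omega) (hA x hx y hy)⟩) J T
    (by
      intro i hi t a _ b _ h1 h2
      have h3 := lev_eq.1 h1
      have h4 := lev_eq.1 h2
      exact (Z_eq i t a b).2 ⟨h3.1, h4.1, AddSubgroup.add_mem _ ((hφL' i hi t _).2 h3.2) h4.2⟩)
    (by
      intro i hi t a _ b _ h1 h2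
      obtain ⟨h3, h4, h5⟩ := (Z_eq i t a b).1 h1
      have h6 := lev_eq.1 h2
      refine lev_eq.2 ⟨h3, (hφL' i hi t _).1 ?_⟩
      have e : φ i (a.1 - b.1) = (φ i (a.1 - b.1) + (a.2 - b.2)) - (a.2 - b.2) := by abel
      rw [e]
      exact AddSubgroup.sub_mem _ h5 h6.2)
    (by
      intro i hi t a _ b _ h1 h2
      obtain ⟨h3, h4, h5⟩ := (Z_eq i t a b).1 h1
      have h6 := lev_eq.1 h2
      refine lev_eq.2 ⟨h4, ?_⟩
      have e : a.2 - b.2 = (φ i (a.1 - b.1) + (a.2 - b.2)) - φ i (a.1 - b.1) := by abel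
      rw [e]
      exact AddSubgroup.sub_mem _ h5 ((hφL' i hi t _).2 h6.2))
    (by
      intro i _ t a _ b _ h
      obtain ⟨h3, h4, h5⟩ := (Z_eq i (t + 1) a b).1 h
      exact (Z_eq i t a b).2 ⟨h3, h4, hL (by push_cast; omega) h5⟩)
    (by
      intro i _ a ha b hb h
      obtain ⟨h3, h4, _⟩ := (Z_eq i 0 a b).1 h
      refine ⟨lev_eq.2 ⟨h3, hL (by omega) (hA _ (mem_product.1 ha).1 _ (mem_product.1 hb).1)⟩,
        lev_eq.2 ⟨h4, hL (by omega) (hB _ (mem_product.1 ha).2 _ (mem_product.1 hb).2)⟩⟩)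
  rw [eA, eB] at g
  -- the change of the set
  have ch : ∀ i ∈ J, cond (A ×ˢ B) (sig H (L (c + T))) (tau (H ⊓ L (c + T))) ≤
      A.card * B.card * Real.log 2 + (∑ a ∈ A ×ˢ B, (Real.log (ct (A ×ˢ B) (Z i T) a) -
      Real.log (ct (A ×ˢ B) (fun b => (P ((T : ℤ) - i) b.1, P (T : ℤ) b.2)) a)) +
      θ * A.card * DB) := by
    intro i hi
    have h1 := cond_change (X := A) (Y := B) (φ := fun x => φ i x) (hinj i hi)
      (σ := sig H (L (c + T))) (τ := tau (H ⊓ L (c + T))) (g0 := cos H)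
      (g := cos (H ⊓ L (c + T)))
      (fun a b h => cos_eq.2 (sig_eq.1 h).2.1)
      (fun a b h h' => by
        obtain ⟨h3, h4, h5⟩ := sig_eq.1 h
        have h6 := cos_eq.1 h'
        refine tau_eq.2 ⟨AddSubgroup.mem_inf.2 ⟨h3, ?_⟩, h6⟩
        have e : a.1 - b.1 = ((a.1 - b.1) + (a.2 - b.2)) - (a.2 - b.2) := by abel
        rw [e]
        exact AddSubgroup.sub_mem _ h5 (AddSubgroup.mem_inf.1 h6).2)
      (fun a b h => cos_eq.2 (AddSubgroup.mem_inf.1 (cos_eq.1 h)).1)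
      (fun a b h => by
        obtain ⟨h3, h4⟩ := tau_eq.1 h
        rw [AddSubgroup.mem_inf] at h3 h4
        exact sig_eq.2 ⟨h3.1, h4.1, AddSubgroup.add_mem _ h3.2 h4.2⟩)
    have e1 : cond (A ×ˢ B) (fun b => sig H (L (c + T)) (φ i b.1, b.2))
        (fun b => tau (H ⊓ L (c + T)) (φ i b.1, b.2)) =
        cond (A ×ˢ B) (Z i T) (fun b => (P ((T : ℤ) - i) b.1, P (T : ℤ) b.2)) := by
      apply cond_congr
      · intro a b
        rw [sig_eq, Z_eq, ← map_sub, hφH i hi]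
      · intro a b
        rw [tau_eq, Prod.mk.injEq, lev_eq, lev_eq, AddSubgroup.mem_inf, AddSubgroup.mem_inf,
          ← map_sub, hφH i hi, hφL' i hi T]
    have e2 : hs B (cos H) (cos (H ⊓ L (c + T))) = DB := by
      unfold hs
      rw [sum_sub_distrib]
      rfl
    rw [e1, e2] at h1
    have h2 : ((A.filter fun x => x ∉ A.image fun x => φ i x).card : ℝ) * DB ≤
        θ * A.card * DB := mul_le_mul_of_nonneg_right (hθ i hi) DB0
    have h3 : cond (A ×ˢ B) (Z i T) (fun b => (P ((T : ℤ) - i) b.1, P (T : ℤ) b.2)) =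
        ∑ a ∈ A ×ˢ B, (Real.log (ct (A ×ˢ B) (Z i T) a) -
        Real.log (ct (A ×ˢ B) (fun b => (P ((T : ℤ) - i) b.1, P (T : ℤ) b.2)) a)) := rfl
    rw [h3] at h1
    linarith
  have h1 := sum_le_sum ch
  rw [sum_const, nsmul_eq_mul, sum_add_distrib, sum_add_distrib, sum_const, sum_const,
    nsmul_eq_mul, nsmul_eq_mul] at h1
  have hJ0 : (0 : ℝ) < J.card := by exact_mod_cast card_pos.2 hJ
  set C : ℝ := 40 + Real.exp (1 / δ) with hC
  have hC0 : 0 ≤ C := by positivity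
  have h2 : C * ((∑ t ∈ range T, ws B (P (t : ℤ)) (P ((t : ℤ) + 1))) * DA +
      (∑ t ∈ range T, ws A (P (t : ℤ)) (P ((t : ℤ) + 1))) * DB) ≤
      C * (w * J.card * B.card * DA + w * J.card * A.card * DB) := by
    apply mul_le_mul_of_nonneg_left _ hC0
    exact add_le_add (mul_le_mul_of_nonneg_right hWB DA0) (mul_le_mul_of_nonneg_right hWA DB0)
  set Φ := cond (A ×ˢ B) (sig H (L (c + T))) (tau (H ⊓ L (c + T))) with hΦ
  have h3 : (J.card : ℝ) * Φ ≤ J.card * ((δ + C * w) * (B.card * DA + A.card * DB) +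
      A.card * B.card * Real.log 2 + θ * A.card * DB) := by
    have h4 := h1.trans (add_le_add le_rfl (add_le_add (g.trans (add_le_add le_rfl h2)) le_rfl))
    refine h4.trans (le_of_eq ?_)
    ring
  exact le_of_mul_le_mul_left h3 hJ0

end stage

end Pool.Agent.H85.AK
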