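import Pool.Agent.H85.AK.Mul4

/-!
Several primes.
-/

set_option autoImplicit false

namespace Pool.Agent.H85.AK

open Finset
open scoped Classical

theorem ct_le_ct {α β γ κ : Type*} {Ω : Finset α} {Ω' : Finset β} {f : α → γ} {g : β → κ} {a : α}
    {b : β} (ψ : α → β)
    (h : ∀ c ∈ Ω, f c = f a → ψ c ∈ Ω' ∧ g (ψ c) = g b)
    (hinj : ∀ c ∈ Ω, ∀ d ∈ Ω, f c = f a → f d = f a → ψ c = ψ d → c = d) :
    ct Ω f a ≤ ct Ω' g b := by
  unfold ct cv
  apply Nat.cast_le.2
  apply card_le_card_of_injOn ψ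
  · intro c hc
    obtain ⟨h1, h2⟩ := mem_filter.1 hc
    exact mem_filter.2 (h c h1 h2)
  · intro c hc d hd hcd
    obtain ⟨h1, h2⟩ := mem_filter.1 hc
    obtain ⟨h3, h4⟩ := mem_filter.1 hd
    exact hinj c h1 d h3 h2 h4 hcd

theorem ct_eq_one {α γ : Type*} {Ω : Finset α} {f : α → γ} {a : α} (ha : a ∈ Ω)
    (h : ∀ b ∈ Ω, f b = f a → b = a) : ct Ω f a = 1 := by
  unfold ct cv
  have h5 : (Ω.filter fun b => f b = f a) = {a} := by
    ext y
    rw [mem_filter, mem_singleton]
    constructor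
    · rintro ⟨hy, h6⟩
      exact h y hy h6
    · rintro rfl
      exact ⟨ha, rfl⟩
  rw [h5, card_singleton]
  norm_num

section multi

variable {K : Type*} [AddCommGroup K]

/-- the label of the exact sum -/
def sg (H : AddSubgroup K) (a : K × K) : Set K × Set K × K := (cos H a.1, cos H a.2, a.1 + a.2)

theorem sg_eq {H : AddSubgroup K} {a b : K × K} : sg H a = sg H b ↔
    a.1 - b.1 ∈ H ∧ a.2 - b.2 ∈ H ∧ a.1 + a.2 = b.1 + b.2 := by
  unfold sg
  rw [Prod.mk.injEq, Prod.mk.injEq, cos_eq, cos_eq]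

/-- the entropy of the pairs given the sum and the classes modulo `H` -/
noncomputable def psi (H : AddSubgroup K) (A B : Finset K) : ℝ :=
  ∑ a ∈ A ×ˢ B, Real.log (ct (A ×ˢ B) (sg H) a)

theorem psi_step (H L : AddSubgroup K) (A B : Finset K) :
    psi H A B ≤ cond (A ×ˢ B) (sig H L) (tau (H ⊓ L)) + psi (H ⊓ L) A B := by
  have h := submod (A ×ˢ B) (sg H) (tau (H ⊓ L)) (sig H L)
  rw [← sub_nonneg, ← sum_sub_distrib] at h
  unfold psi cond
  rw [← sum_add_distrib, ← sub_nonneg, ← sum_sub_distrib]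
  refine h.trans (le_of_eq ?_)
  apply sum_congr rfl
  intro a _
  have e1 : ct (A ×ˢ B) (fun a => (sg H a, sig H L a)) a = ct (A ×ˢ B) (sg H) a :=
    ct_congr fun b _ => by
      rw [Prod.mk.injEq, sg_eq, sig_eq]
      constructor
      · exact fun h => h.1
      · rintro ⟨h1, h2, h3⟩
        refine ⟨⟨h1, h2, h3⟩, h1, h2, ?_⟩
        have e : b.1 - a.1 + (b.2 - a.2) = (b.1 + b.2) - (a.1 + a.2) := by abel
        rw [e, h3, sub_self]
        exact L.zero_mem
  have e2 : ct (A ×ˢ B) (fun a => (tau (H ⊓ L) a, sig H L a)) a =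
      ct (A ×ˢ B) (tau (H ⊓ L)) a := ct_congr fun b _ => by
      rw [Prod.mk.injEq, tau_eq, sig_eq, AddSubgroup.mem_inf, AddSubgroup.mem_inf]
      constructor
      · exact fun h => h.1
      · rintro ⟨⟨h1, h2⟩, h3, h4⟩
        exact ⟨⟨⟨h1, h2⟩, h3, h4⟩, h1, h3, L.add_mem h2 h4⟩
  have e3 : ct (A ×ˢ B) (fun a => (sg H a, tau (H ⊓ L) a, sig H L a)) a =
      ct (A ×ˢ B) (sg (H ⊓ L)) a := ct_congr fun b _ => by
      rw [Prod.mk.injEq, sg_eq, sg_eq, Prod.mk.injEq, tau_eq, sig_eq, AddSubgroup.mem_inf,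
        AddSubgroup.mem_inf]
      constructor
      · rintro ⟨⟨h1, h2, h3⟩, ⟨h4, h5⟩, _⟩
        exact ⟨h4, h5, h3⟩
      · rintro ⟨h4, h5, h3⟩
        exact ⟨⟨h4.1, h5.1, h3⟩, ⟨h4, h5⟩, h4.1, h5.1, L.add_mem h4.2 h5.2⟩
  rw [e1, e2, e3]
  ring

theorem psi_triv (H : AddSubgroup K) (A B : Finset K) : psi H A B ≤ A.card * rr H B := by
  unfold psi rr
  rw [sum_product, ← nsmul_eq_mul, ← sum_const]
  apply sum_le_sum
  intro x hx
  apply sum_le_sum
  intro y hy
  apply Real.log_le_log (ct_pos _ (mem_product.2 ⟨hx, hy⟩))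
  apply ct_le_ct (fun a => a.2)
  · intro a ha h2
    obtain ⟨_, h3, _⟩ := sg_eq.1 h2
    exact ⟨(mem_product.1 ha).2, cos_eq.2 h3⟩
  · intro a _ b _ h2 h3 h
    have h4 := (sg_eq.1 (h2.trans h3.symm)).2.2
    have h5 : a.2 = b.2 := h
    rw [h5] at h4
    exact Prod.ext (add_right_cancel h4) h5

/-- **several stages** -/
theorem stages {δ θ : ℝ} (hδ : 0 < δ) (hδ1 : δ ≤ 1) (hθ0 : 0 ≤ θ) {A B : Finset K}
    (hAne : A.Nonempty)
    (hBne : B.Nonempty) (κ : ℝ) (hκ : κ = δ / (2 * (40 + Real.exp (1 / δ)))) (n : ℕ) :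
    ∀ (L : ℕ → ℤ → AddSubgroup K) (J : ℕ → Finset ℕ) (φ : ℕ → ℕ → K →+ K) (H : AddSubgroup K),
    (∀ j < n, Antitone (L j)) → (∀ j < n, ∀ x, ∃ l, x ∈ L j l) →
    (∀ j < n, ∀ x, x ≠ 0 → ∃ l, x ∉ L j l) →
    (∀ j < n, 2 ≤ δ * κ * (J j).card) →
    (∀ j < n, ∀ i ∈ J j, Function.Injective (φ j i)) →
    (∀ j < n, ∀ i ∈ J j, ∀ y l, φ j i y ∈ L j (l + i) ↔ y ∈ L j l) →
    (∀ j < n, ∀ i ∈ J j, ∀ j' < j, ∀ y l, φ j i y ∈ L j' l ↔ y ∈ L j' l) →
    (∀ j < n, ∀ i ∈ J j, ∀ y, φ j i y ∈ H ↔ y ∈ H) →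
    (∀ j < n, ∀ i ∈ J j, ((A.filter fun x => x ∉ A.image (φ j i)).card : ℝ) ≤ θ * A.card) →
    psi H A B / (A.card * B.card) ≤ 3 * δ * (rr H A / A.card + rr H B / B.card) +
      θ * (rr H B / B.card) + Real.log 2 +
      max 0 (rr H A / A.card + rr H B / B.card - κ * ∑ j ∈ range n, ((J j).card : ℝ)) := by
  have hA0 : (0 : ℝ) < A.card := by exact_mod_cast card_pos.2 hAne
  have hB0 : (0 : ℝ) < B.card := by exact_mod_cast card_pos.2 hBne
  have hl2 : 0 ≤ Real.log 2 := Real.log_nonneg (by norm_num)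
  have hl2' : Real.log 2 ≤ 1 := by
    have := Real.log_two_lt_d9
    linarith
  have hC0 : 0 < 40 + Real.exp (1 / δ) := by positivity
  have hκ0 : 0 < κ := by
    rw [hκ]
    positivity
  have hCκ : (40 + Real.exp (1 / δ)) * (2 * κ) = δ := by
    rw [hκ]
    field_simp
  have rA0 : ∀ H : AddSubgroup K, 0 ≤ rr H A / A.card := fun H => div_nonneg (rr_nonneg _ _) hA0.le
  have rB0 : ∀ H : AddSubgroup K, 0 ≤ rr H B / B.card := fun H => div_nonneg (rr_nonneg _ _) hB0.le
  induction n with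
  | zero =>
    intro L J φ H _ _ _ _ _ _ _ _ _
    rw [range_zero, sum_empty, mul_zero, sub_zero]
    have h1 := psi_triv H A B
    have h2 : psi H A B / (A.card * B.card) ≤ rr H B / B.card := by
      rw [div_le_div_iff₀ (by positivity) hB0]
      have := mul_le_mul_of_nonneg_right h1 hB0.le
      linarith
    have h3 := le_max_right 0 (rr H A / A.card + rr H B / B.card)
    have h4 := rA0 H
    have h5 := rB0 H
    have h6 : 0 ≤ 3 * δ * (rr H A / A.card + rr H B / B.card) := by positivity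
    have h7 : 0 ≤ θ * (rr H B / B.card) := by positivity
    linarith
  | succ n ih =>
    intro L J φ H hL htop hbot hJc hinj hφL hφL' hφH hθ
    have h0n : 0 < n + 1 := Nat.succ_pos n
    -- the base level
    obtain ⟨c, hc⟩ := filt_low (hL 0 h0n) (htop 0 h0n)
      ((A ×ˢ A).image (fun s => s.1 - s.2) ∪ (B ×ˢ B).image (fun s => s.1 - s.2))
    obtain ⟨c1, hc1⟩ := filt_high (hL 0 h0n) (hbot 0 h0n)
      ((A ×ˢ A).image (fun s => s.1 - s.2) ∪ (B ×ˢ B).image (fun s => s.1 - s.2))
    have memA : ∀ x ∈ A, ∀ y ∈ A, x - y ∈ (A ×ˢ A).image (fun s => s.1 - s.2) ∪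
        (B ×ˢ B).image (fun s => s.1 - s.2) := fun x hx y hy =>
      mem_union_left _ (mem_image.2 ⟨(x, y), mem_product.2 ⟨hx, hy⟩, rfl⟩)
    have memB : ∀ x ∈ B, ∀ y ∈ B, x - y ∈ (A ×ˢ A).image (fun s => s.1 - s.2) ∪
        (B ×ˢ B).image (fun s => s.1 - s.2) := fun x hx y hy =>
      mem_union_right _ (mem_image.2 ⟨(x, y), mem_product.2 ⟨hx, hy⟩, rfl⟩)
    have hcA : ∀ x ∈ A, ∀ y ∈ A, x - y ∈ L 0 c := fun x hx y hy => hc _ (memA x hx y hy)
    have hcB : ∀ x ∈ B, ∀ y ∈ B, x - y ∈ L 0 c := fun x hx y hy => hc _ (memB x hx y hy)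
    -- the number of shifts
    set m : ℝ := ((J 0).card : ℝ) with hm
    have hm1 : 2 ≤ δ * κ * m := hJc 0 h0n
    have hm0 : 0 < m := by
      by_contra h
      have h1 : m ≤ 0 := not_lt.1 h
      have h2 : δ * κ * m ≤ 0 := mul_nonpos_of_nonneg_of_nonpos (by positivity) h1
      linarith
    have hκm : 2 ≤ κ * m := by
      have h1 : δ * (κ * m) ≤ 1 * (κ * m) := mul_le_mul_of_nonneg_right hδ1 (by positivity)
      linarith
    have hJne : (J 0).Nonempty := card_pos.1 (by
      have : (0 : ℝ) < ((J 0).card : ℝ) := hm0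
      exact_mod_cast this)
    -- the weights
    set wA : ℕ → ℝ := fun t => ws A (lev H (L 0) c (t : ℤ)) (lev H (L 0) c ((t : ℤ) + 1)) with hwA
    set wB : ℕ → ℝ := fun t => ws B (lev H (L 0) c (t : ℤ)) (lev H (L 0) c ((t : ℤ) + 1)) with hwB
    set W : ℕ → ℝ := fun T => (∑ t ∈ range T, wA t) / A.card + (∑ t ∈ range T, wB t) / B.card
      with hW
    have wA0 : ∀ t, 0 ≤ wA t := fun t => ws_nonneg _ _ _
    have wB0 : ∀ t, 0 ≤ wB t := fun t => ws_nonneg _ _ _
    have wA1 : ∀ t, wA t ≤ A.card := fun t => ws_le_card _ _ _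
    have wB1 : ∀ t, wB t ≤ B.card := fun t => ws_le_card _ _ _
    -- the inequality of the stage, normalised
    have st : ∀ T : ℕ, W T ≤ 2 * κ * m →
        psi H A B / (A.card * B.card) ≤
          2 * δ * ((rr H A / A.card - rr (H ⊓ L 0 (c + T)) A / A.card) +
            (rr H B / B.card - rr (H ⊓ L 0 (c + T)) B / B.card)) + Real.log 2 +
          θ * (rr H B / B.card - rr (H ⊓ L 0 (c + T)) B / B.card) +
          psi (H ⊓ L 0 (c + T)) A B / (A.card * B.card) := by
      intro T hT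
      have sA : 0 ≤ (∑ t ∈ range T, wA t) / A.card :=
        div_nonneg (sum_nonneg fun t _ => wA0 t) hA0.le
      have sB : 0 ≤ (∑ t ∈ range T, wB t) / B.card :=
        div_nonneg (sum_nonneg fun t _ => wB0 t) hB0.le
      have hT' : (∑ t ∈ range T, wA t) / A.card + (∑ t ∈ range T, wB t) / B.card ≤ 2 * κ * m := hT
      have h1 : (∑ t ∈ range T, wA t) / A.card ≤ 2 * κ * m := by linarith
      have h2 : (∑ t ∈ range T, wB t) / B.card ≤ 2 * κ * m := by linarith
      rw [div_le_iff₀ hA0] at h1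
      rw [div_le_iff₀ hB0] at h2
      have h3 := stage hδ hδ1 (hL 0 h0n) (H := H) hcA hcB (J 0) hJne (φ 0) (hinj 0 h0n)
        (hφL 0 h0n) (hφH 0 h0n) (hθ 0 h0n) T (w := 2 * κ) h1 h2
      rw [hCκ] at h3
      have h4 := psi_step H (L 0 (c + T)) A B
      have h5 := h4.trans (add_le_add h3 le_rfl)
      have h6 : psi H A B / (A.card * B.card) ≤ ((δ + δ) * (B.card *
          (rr H A - rr (H ⊓ L 0 (c + T)) A) + A.card * (rr H B - rr (H ⊓ L 0 (c + T)) B)) +
          A.card * B.card * Real.log 2 + θ * A.card * (rr H B - rr (H ⊓ L 0 (c + T)) B) +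
          psi (H ⊓ L 0 (c + T)) A B) / (A.card * B.card) :=
        div_le_div_of_nonneg_right h5 (by positivity)
      refine h6.trans (le_of_eq ?_)
      field_simp
      ring
    by_cases hex : ∃ T, κ * m ≤ W T
    · -- the threshold is reached
      have hfind := Nat.find_spec hex
      have hmin := fun T h => Nat.find_min hex (m := T) h
      set T := Nat.find hex with hTd
      have hT0 : T ≠ 0 := by
        intro h0
        rw [h0] at hfind
        simp only [hW, range_zero, sum_empty, zero_div, add_zero] at hfind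
        linarith
      obtain ⟨T', hT'⟩ := Nat.exists_eq_succ_of_ne_zero hT0
      have h1 : W T' < κ * m := not_le.1 (hmin T' (by omega))
      have h2 : W T ≤ 2 * κ * m := by
        have h3 : W T ≤ W T' + 2 := by
          simp only [hW, hT']
          rw [Nat.succ_eq_add_one, sum_range_succ, sum_range_succ, add_div, add_div]
          have h4 : wA T' / A.card ≤ 1 := (div_le_one hA0).2 (wA1 _)
          have h5 : wB T' / B.card ≤ 1 := (div_le_one hB0).2 (wB1 _)
          linarith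
        linarith
      have h3 := st T h2
      -- the decrease of the entropy
      have h4 : κ * m ≤ (rr H A / A.card - rr (H ⊓ L 0 (c + T)) A / A.card) +
            (rr H B / B.card - rr (H ⊓ L 0 (c + T)) B / B.card) := by
        refine hfind.trans ?_
        have href : ∀ (X : Finset K) (s : ℤ), Ref X (lev H (L 0) c (s + 1)) (lev H (L 0) c s) := by
          intro X s x _ y _ h
          have h1 := lev_eq.1 h
          exact lev_eq.2 ⟨h1.1, hL 0 h0n (by omega) h1.2⟩
        have h5 : ∑ t ∈ range T, wA t ≤ rr H A - rr (H ⊓ L 0 (c + T)) A := by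
          rw [← hs_lev hcA, ← hs_tel (lev H (L 0) c) T]
          exact sum_le_sum fun t _ => ws_le_hs (href A t)
        have h6 : ∑ t ∈ range T, wB t ≤ rr H B - rr (H ⊓ L 0 (c + T)) B := by
          rw [← hs_lev hcB, ← hs_tel (lev H (L 0) c) T]
          exact sum_le_sum fun t _ => ws_le_hs (href B t)
        simp only [hW]
        rw [← sub_div, ← sub_div]
        exact add_le_add (div_le_div_of_nonneg_right h5 hA0.le)
          (div_le_div_of_nonneg_right h6 hB0.le)
      -- the remaining stages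
      have h5 := ih (fun j => L (j + 1)) (fun j => J (j + 1)) (fun j => φ (j + 1))
        (H ⊓ L 0 (c + T)) (fun j hj => hL _ (by omega)) (fun j hj => htop _ (by omega))
        (fun j hj => hbot _ (by omega)) (fun j hj => hJc _ (by omega))
        (fun j hj => hinj _ (by omega)) (fun j hj => hφL _ (by omega))
        (fun j hj i hi j' hj' => hφL' _ (by omega) i hi _ (by omega))
        (fun j hj i hi y => by
          rw [AddSubgroup.mem_inf, AddSubgroup.mem_inf, hφH _ (by omega) i hi,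
            hφL' (j + 1) (by omega) i hi 0 (by omega)])
        (fun j hj => hθ _ (by omega))
      have e : ∑ j ∈ range (n + 1), ((J j).card : ℝ) =
          ∑ j ∈ range n, ((J (j + 1)).card : ℝ) + m := sum_range_succ' _ _
      rw [e]
      set RA := rr H A / A.card
      set RB := rr H B / B.card
      set RA' := rr (H ⊓ L 0 (c + T)) A / A.card
      set RB' := rr (H ⊓ L 0 (c + T)) B / B.card
      set Sg := ∑ j ∈ range n, ((J (j + 1)).card : ℝ)
      have h6 : Real.log 2 ≤ δ * (κ * m) := by linarith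
      have h7 : δ * (κ * m) ≤ δ * ((RA - RA') + (RB - RB')) :=
        mul_le_mul_of_nonneg_left h4 hδ.le
      have h8 : max 0 (RA' + RB' - κ * Sg) ≤ max 0 (RA + RB - κ * (Sg + m)) := by
        apply max_le_max le_rfl
        linarith
      linarith
    · -- everything is resolved
      push Not at hex
      obtain ⟨T, hT⟩ : ∃ T : ℕ, c1 ≤ c + T := ⟨(c1 - c).toNat, by
        have := Int.self_le_toNat (c1 - c)
        omega⟩
      have h3 := st T (by
        have := hex T
        linarith)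
      have hB' : rr (H ⊓ L 0 (c + T)) B = 0 := by
        unfold rr
        apply sum_eq_zero
        intro x hx
        have h4 : ct B (cos (H ⊓ L 0 (c + T))) x = 1 := by
          apply ct_eq_one hx
          intro y hy h6
          have h7 := (AddSubgroup.mem_inf.1 (cos_eq.1 h6)).2
          exact sub_eq_zero.1 (hc1 _ (memB y hy x hx) (hL 0 h0n hT h7))
        rw [h4, Real.log_one]
      have h4 : psi (H ⊓ L 0 (c + T)) A B / (A.card * B.card) ≤ 0 := by
        have h5 := psi_triv (H ⊓ L 0 (c + T)) A B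
        rw [hB', mul_zero] at h5
        exact div_nonpos_of_nonpos_of_nonneg h5 (by positivity)
      rw [hB', zero_div, sub_zero] at h3
      have h5 := le_max_left 0 (rr H A / A.card + rr H B / B.card -
        κ * ∑ j ∈ range (n + 1), ((J j).card : ℝ))
      have h6 := rA0 H
      have h7 := rB0 H
      have h8 := rA0 (H ⊓ L 0 (c + T))
      have h9 : 0 ≤ δ * (rr H A / A.card + rr H B / B.card) := by positivity
      have h10 : 0 ≤ δ * (rr (H ⊓ L 0 (c + T)) A / A.card) := by positivity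
      linarith

end multi

end Pool.Agent.H85.AK
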