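import Pool.Agent.H85.AK.Mul5

/-!
Fields with several valuations.
-/

set_option autoImplicit false

namespace Pool.Agent.H85.AK

open Finset
open scoped Pointwise

section

variable {F : Type*} [Field F] [DecidableEq F]

theorem leave_inv (A : Finset F) {r : F} (hr : r ≠ 0) :
    (A.filter fun x => x ∉ A.image fun a => r⁻¹ * a) = A.filter fun a => r * a ∉ A := by
  apply filter_congr
  intro x _
  rw [not_iff_not, mem_image]
  constructor
  · rintro ⟨a, ha, rfl⟩
    rw [mul_inv_cancel_left₀ hr]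
    exact ha
  · intro h
    exact ⟨_, h, inv_mul_cancel_left₀ hr x⟩

theorem leave_self (A : Finset F) {r : F} (hr : r ≠ 0) :
    (A.filter fun x => x ∉ A.image fun a => r * a).card = (A.filter fun a => r * a ∉ A).card := by
  have h1 : (A.filter fun x => x ∈ A.image fun a => r * a).card =
      (A.filter fun a => r * a ∈ A).card := by
    have e : (A.filter fun x => x ∈ A.image fun a => r * a) =
        (A.filter fun a => r * a ∈ A).image fun a => r * a := by
      ext x
      simp only [mem_filter, mem_image]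
      constructor
      · rintro ⟨hx, a, ha, rfl⟩
        exact ⟨a, ⟨ha, hx⟩, rfl⟩
      · rintro ⟨a, ⟨ha, hx⟩, rfl⟩
        exact ⟨hx, a, ha, rfl⟩
    rw [e, card_image_of_injective _ (mul_right_injective₀ hr)]
  have h2 := card_filter_add_card_filter_not (s := A) (fun x => x ∈ A.image fun a => r * a)
  have h3 := card_filter_add_card_filter_not (s := A) (fun a => r * a ∈ A)
  omega

/-- shifts from valuations -/
theorem exists_shifts (v : Valuation F (WithZero (Multiplicative ℤ))) (A : Finset F)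
    (R : Finset F) (hR : ∀ r ∈ R, r ≠ 0) {θ : ℝ}
    (hθ : ∀ r ∈ R, ((A.filter fun a => r * a ∉ A).card : ℝ) ≤ θ * A.card) :
    ∃ (J : Finset ℕ) (s : ℕ → F), (v '' (R : Set F)).ncard ≤ 2 * J.card ∧
      ∀ i ∈ J, v (s i) = WithZero.exp (-(i : ℤ)) ∧ (s i ∈ R ∨ (s i)⁻¹ ∈ R) ∧
        ((A.filter fun x => x ∉ A.image fun a => s i * a).card : ℝ) ≤ θ * A.card := by
  classical
  set S : Finset ℤ := R.image fun r => WithZero.log (v r) with hS
  set J : Finset ℕ := S.image Int.natAbs with hJ
  have hc : (v '' (R : Set F)).ncard = S.card := by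
    have h1 : v '' (R : Set F) = ((R.image v : Finset _) : Set _) := by rw [coe_image]
    have h2 : S = (R.image v).image WithZero.log := by rw [hS, image_image]; rfl
    rw [h1, Set.ncard_coe_finset, h2]
    refine (card_image_of_injOn ?_).symm
    intro x hx y hy h
    obtain ⟨r, hr, rfl⟩ := mem_image.1 (mem_coe.1 hx)
    obtain ⟨r', hr', rfl⟩ := mem_image.1 (mem_coe.1 hy)
    have hx0 : v r ≠ 0 := (Valuation.ne_zero_iff v).2 (hR r hr)
    have hy0 : v r' ≠ 0 := (Valuation.ne_zero_iff v).2 (hR r' hr')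
    rw [← WithZero.exp_log hx0, ← WithZero.exp_log hy0, h]
  have h2 : S.card ≤ 2 * J.card := by
    apply card_le_mul_card_image
    intro i _
    have h3 : (S.filter fun z => z.natAbs = i) ⊆ {(i : ℤ), -(i : ℤ)} := by
      intro z hz
      have h4 := (mem_filter.1 hz).2
      rw [mem_insert, mem_singleton]
      omega
    exact (card_le_card h3).trans (card_le_two)
  have h3 : ∀ i : ℕ, ∃ s : F, i ∈ J → v s = WithZero.exp (-(i : ℤ)) ∧ (s ∈ R ∨ s⁻¹ ∈ R) ∧
        ((A.filter fun x => x ∉ A.image fun a => s * a).card : ℝ) ≤ θ * A.card := by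
    intro i
    by_cases hi : i ∈ J
    · obtain ⟨z, hz, hzi⟩ := mem_image.1 hi
      obtain ⟨r, hr, hrz⟩ := mem_image.1 hz
      have hr0 := hR r hr
      have hv0 : v r ≠ 0 := (Valuation.ne_zero_iff v).2 hr0
      rcases Int.natAbs_eq z with h4 | h4
      · refine ⟨r⁻¹, fun _ => ⟨?_, Or.inr (by rw [inv_inv]; exact hr), ?_⟩⟩
        · rw [map_inv₀, ← WithZero.exp_log hv0, hrz, h4, hzi, WithZero.exp_neg]
        · rw [leave_inv A hr0]
          exact hθ r hr
      · refine ⟨r, fun _ => ⟨?_, Or.inl hr, ?_⟩⟩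
        · rw [← WithZero.exp_log hv0, hrz, h4, hzi]
        · rw [leave_self A hr0]
          exact hθ r hr
    · exact ⟨0, fun h => absurd h hi⟩
  choose s hs using h3
  exact ⟨J, s, by rw [hc]; exact h2, fun i hi => hs i hi⟩

/-- multiplication by an element of valuation `exp (-i)` -/
theorem vfil_shift (v : Valuation F (WithZero (Multiplicative ℤ))) {r : F} {i : ℤ}
    (h : v r = WithZero.exp (-i)) (y : F) (l : ℤ) : r * y ∈ vfil v (l + i) ↔ y ∈ vfil v l := by
  show v (r * y) ≤ WithZero.exp (-(l + i)) ↔ v y ≤ WithZero.exp (-l)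
  rw [map_mul, h]
  have e : WithZero.exp (-(l + i)) = WithZero.exp (-i) * WithZero.exp (-l) := by
    rw [← WithZero.exp_add]
    congr 1
    ring
  rw [e]
  exact mul_le_mul_iff_right₀ (by simp)

theorem vfil_anti (v : Valuation F (WithZero (Multiplicative ℤ))) : Antitone (vfil v) := by
  intro l l' hll x hx
  show v x ≤ WithZero.exp (-l)
  refine (show v x ≤ WithZero.exp (-l') from hx).trans ?_
  rw [WithZero.exp_le_exp]
  omega

theorem vfil_top (v : Valuation F (WithZero (Multiplicative ℤ))) (x : F) : ∃ l, x ∈ vfil v l := by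
  by_cases hx : x = 0
  · exact ⟨0, by rw [hx]; exact AddSubgroup.zero_mem _⟩
  · refine ⟨-WithZero.log (v x), ?_⟩
    show v x ≤ WithZero.exp (- -WithZero.log (v x))
    rw [neg_neg, WithZero.exp_log ((Valuation.ne_zero_iff v).2 hx)]

theorem vfil_bot (v : Valuation F (WithZero (Multiplicative ℤ))) (x : F) (hx : x ≠ 0) :
    ∃ l, x ∉ vfil v l := by
  refine ⟨-WithZero.log (v x) + 1, fun h => ?_⟩
  have h1 : v x ≤ WithZero.exp (-(-WithZero.log (v x) + 1)) := h
  have h2 := (WithZero.log_le_iff_le_exp ((Valuation.ne_zero_iff v).2 hx)).2 h1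
  omega

/-- **several valuations**, the entropy inequality in a field -/
theorem multi0 {δ θ : ℝ} (hδ : 0 < δ) (hδ1 : δ ≤ 1) (hθ0 : 0 ≤ θ) {A B : Finset F}
    (hA : A.Nonempty) (hB : B.Nonempty) (n : ℕ)
    (v : ℕ → Valuation F (WithZero (Multiplicative ℤ)))
    (R : ℕ → Finset F) (hR : ∀ j < n, ∀ r ∈ R j, r ≠ 0 ∧ ∀ i < j, v i r = 1)
    (hθ : ∀ j < n, ∀ r ∈ R j, ((A.filter fun a => r * a ∉ A).card : ℝ) ≤ θ * A.card)
    (hmin : ∀ j < n, 8 * (40 + Real.exp (1 / δ)) / δ ^ 2 ≤ ((v j '' (R j : Set F)).ncard : ℝ))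
    (hsum : 4 * (40 + Real.exp (1 / δ)) / δ * Real.log ((A.card : ℝ) * B.card) ≤
      ∑ j ∈ range n, ((v j '' (R j : Set F)).ncard : ℝ)) :
    ∑ a ∈ A ×ˢ B, Real.log (ct (A ×ˢ B) (fun a => a.1 + a.2) a) ≤
      (A.card * B.card) * (3 * δ * Real.log ((A.card : ℝ) * B.card) + θ * Real.log (B.card : ℝ) +
        Real.log 2) := by
  classical
  have hA0 : (0 : ℝ) < A.card := by exact_mod_cast card_pos.2 hA
  have hB0 : (0 : ℝ) < B.card := by exact_mod_cast card_pos.2 hB
  set C : ℝ := 40 + Real.exp (1 / δ) with hC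
  have hC0 : 0 < C := by positivity
  have hex : ∀ j : ℕ, ∃ (J : Finset ℕ) (s : ℕ → F), j < n → (v j '' (R j : Set F)).ncard ≤ 2 * J.card ∧
      ∀ i ∈ J, v j (s i) = WithZero.exp (-(i : ℤ)) ∧ (s i ∈ R j ∨ (s i)⁻¹ ∈ R j) ∧
        ((A.filter fun x => x ∉ A.image fun a => s i * a).card : ℝ) ≤ θ * A.card := by
    intro j
    by_cases hj : j < n
    · obtain ⟨J, s, h1, h2⟩ := exists_shifts (v j) A (R j) (fun r hr => (hR j hj r hr).1) (hθ j hj)
      exact ⟨J, s, fun _ => ⟨h1, h2⟩⟩
    · exact ⟨∅, fun _ => 0, fun h => absurd h hj⟩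
  choose J s hJs using hex
  have hs0 : ∀ j < n, ∀ i ∈ J j, s j i ≠ 0 := by
    intro j hj i hi h0
    obtain ⟨_, h1 | h1, _⟩ := (hJs j hj).2 i hi
    · exact (hR j hj _ h1).1 h0
    · rw [h0, inv_zero] at h1
      exact (hR j hj _ h1).1 rfl
  have hs1 : ∀ j < n, ∀ i ∈ J j, ∀ j' < j, v j' (s j i) = 1 := by
    intro j hj i hi j' hj'
    obtain ⟨_, h1 | h1, _⟩ := (hJs j hj).2 i hi
    · exact (hR j hj _ h1).2 j' hj'
    · have h2 := (hR j hj _ h1).2 j' hj'
      rw [map_inv₀, inv_eq_one] at h2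
      exact h2
  set κ : ℝ := δ / (2 * (40 + Real.exp (1 / δ))) with hκ
  have hκ0 : 0 < κ := by rw [hκ]; positivity
  have hJ2 : ∀ j < n, ((v j '' (R j : Set F)).ncard : ℝ) ≤ 2 * ((J j).card : ℝ) := by
    intro j hj
    exact_mod_cast (hJs j hj).1
  have key := stages hδ hδ1 hθ0 hA hB κ hκ n (fun j => vfil (v j)) J
    (fun j i => AddMonoidHom.mulLeft (s j i)) ⊤ (fun j _ => vfil_anti (v j))
    (fun j _ => vfil_top (v j)) (fun j _ => vfil_bot (v j))
    (by
      intro j hj
      have h1 := hmin j hj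
      have h2 := hJ2 j hj
      have h3 : 4 * C / δ ^ 2 ≤ ((J j).card : ℝ) := by
        have e : 8 * C / δ ^ 2 = 2 * (4 * C / δ ^ 2) := by ring
        linarith
      have h4 := mul_le_mul_of_nonneg_left h3 (show 0 ≤ δ * κ by positivity)
      have e : δ * κ * (4 * C / δ ^ 2) = 2 := by
        rw [hκ, ← hC]
        field_simp
        ring
      linarith)
    (by
      intro j hj i hi
      exact mul_right_injective₀ (hs0 j hj i hi))
    (by
      intro j hj i hi y l
      exact vfil_shift (v j) ((hJs j hj).2 i hi).1 y l)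
    (by
      intro j hj i hi j' hj' y l
      have h1 := hs1 j hj i hi j' hj'
      have h2 : v j' (s j i) = WithZero.exp (-0) := by rw [h1, neg_zero, WithZero.exp_zero]
      have h3 := vfil_shift (v j') h2 y l
      rw [add_zero] at h3
      exact h3)
    (by
      intro j _ i _ y
      exact ⟨fun _ => AddSubgroup.mem_top _, fun _ => AddSubgroup.mem_top _⟩)
    (by
      intro j hj i hi
      have h := ((hJs j hj).2 i hi).2.2
      refine le_trans (Nat.cast_le.2 (card_le_card ?_)) h
      intro x hx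
      simp only [mem_filter, mem_image] at hx ⊢
      exact hx)
  -- the whole group
  have hrr : ∀ X : Finset F, X.Nonempty → rr ⊤ X / X.card = Real.log (X.card : ℝ) := by
    intro X hX
    have hX0 : (X.card : ℝ) ≠ 0 := by exact_mod_cast (card_pos.2 hX).ne'
    unfold rr
    have h1 : ∀ x ∈ X, Real.log (ct X (cos (⊤ : AddSubgroup F)) x) = Real.log (X.card : ℝ) := by
      intro x _
      congr 1
      unfold ct cv
      rw [filter_true_of_mem]
      intro y _
      exact cos_eq.2 (AddSubgroup.mem_top _)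
    rw [sum_congr rfl h1, sum_const, nsmul_eq_mul]
    field_simp
  have hlog : Real.log ((A.card : ℝ) * B.card) = Real.log (A.card : ℝ) + Real.log (B.card : ℝ) :=
    Real.log_mul hA0.ne' hB0.ne'
  rw [hrr A hA, hrr B hB, ← hlog] at key
  have hmax : max 0 (Real.log ((A.card : ℝ) * B.card) - κ * ∑ j ∈ range n, ((J j).card : ℝ)) = 0 := by
    apply max_eq_left
    rw [sub_nonpos]
    have h1 : ∑ j ∈ range n, ((v j '' (R j : Set F)).ncard : ℝ) ≤
        2 * ∑ j ∈ range n, ((J j).card : ℝ) := by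
      rw [mul_sum]
      exact sum_le_sum fun j hj => hJ2 j (mem_range.1 hj)
    have h2 : 2 * C / δ * Real.log ((A.card : ℝ) * B.card) ≤ ∑ j ∈ range n, ((J j).card : ℝ) := by
      have e : 4 * C / δ * Real.log ((A.card : ℝ) * B.card) =
        2 * (2 * C / δ * Real.log ((A.card : ℝ) * B.card)) := by ring
      linarith
    have h3 := mul_le_mul_of_nonneg_left h2 hκ0.le
    have e : κ * (2 * C / δ * Real.log ((A.card : ℝ) * B.card)) =
        Real.log ((A.card : ℝ) * B.card) := by
      rw [hκ, ← hC]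
      field_simp
    linarith
  rw [hmax, add_zero] at key
  have hpsi : psi ⊤ A B = ∑ a ∈ A ×ˢ B, Real.log (ct (A ×ˢ B) (fun a => a.1 + a.2) a) := by
    unfold psi
    apply sum_congr rfl
    intro a _
    congr 1
    apply ct_congr
    intro b _
    rw [sg_eq]
    exact ⟨fun h => h.2.2, fun h => ⟨AddSubgroup.mem_top _, AddSubgroup.mem_top _, h⟩⟩
  rw [hpsi, div_le_iff₀ (by positivity)] at key
  linarith

end

end Pool.Agent.H85.AK
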