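import Pool.Agent.H85.AK.Mul6

/-!
Several valuations, vector spaces, sumsets.
-/

set_option autoImplicit false

namespace Pool.Agent.H85.AK

open Finset
open scoped Pointwise

section

variable {F V : Type*} [Field F] [AddCommGroup V] [Module F V] [DecidableEq V]

/-- **several valuations**, the entropy inequality in a vector space -/
theorem multiV {δ θ : ℝ} (hδ : 0 < δ) (hδ1 : δ ≤ 1) (hθ0 : 0 ≤ θ) {A B : Finset V}
    (hA : A.Nonempty) (hB : B.Nonempty) (n : ℕ)
    (v : ℕ → Valuation F (WithZero (Multiplicative ℤ)))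
    (R : ℕ → Finset F) (hR : ∀ j < n, ∀ r ∈ R j, r ≠ 0 ∧ ∀ i < j, v i r = 1)
    (hθ : ∀ j < n, ∀ r ∈ R j, ((A.filter fun a => r • a ∉ A).card : ℝ) ≤ θ * A.card)
    (hmin : ∀ j < n, 8 * (40 + Real.exp (1 / δ)) / δ ^ 2 ≤ ((v j '' (R j : Set F)).ncard : ℝ))
    (hsum : 4 * (40 + Real.exp (1 / δ)) / δ * Real.log ((A.card : ℝ) * B.card) ≤
      ∑ j ∈ range n, ((v j '' (R j : Set F)).ncard : ℝ)) :
    ∑ a ∈ A ×ˢ B, Real.log (ct (A ×ˢ B) (fun a => a.1 + a.2) a) ≤
      (A.card * B.card) * (3 * δ * Real.log ((A.card : ℝ) * B.card) + θ * Real.log (B.card : ℝ) +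
        Real.log 2) := by
  classical
  have hA0 : (0 : ℝ) < A.card := by exact_mod_cast card_pos.2 hA
  have hB0 : (0 : ℝ) < B.card := by exact_mod_cast card_pos.2 hB
  have hA1 : (1 : ℝ) ≤ A.card := by exact_mod_cast card_pos.2 hA
  have hB1 : (1 : ℝ) ≤ B.card := by exact_mod_cast card_pos.2 hB
  have hlB : 0 ≤ Real.log (B.card : ℝ) := Real.log_nonneg hB1
  have hlN : 0 ≤ Real.log ((A.card : ℝ) * B.card) := Real.log_nonneg (by nlinarith)
  have hl2 : 0 ≤ Real.log 2 := Real.log_nonneg (by norm_num)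
  have hC40 : 40 ≤ 40 + Real.exp (1 / δ) := by
    have := Real.exp_pos (1 / δ)
    linarith
  rcases Nat.eq_zero_or_pos n with hn | hn
  · -- no valuation
    subst hn
    rw [range_zero, sum_empty] at hsum
    have h1 : Real.log ((A.card : ℝ) * B.card) ≤ 0 := by
      by_contra hc
      push Not at hc
      have : 0 < 4 * (40 + Real.exp (1 / δ)) / δ * Real.log ((A.card : ℝ) * B.card) := by positivity
      linarith
    have h2 : ∑ a ∈ A ×ˢ B, Real.log (ct (A ×ˢ B) (fun a => a.1 + a.2) a) ≤ 0 := by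
      apply sum_nonpos
      intro a ha
      refine (log_ct_le _ ha).trans ?_
      rw [card_product]
      push_cast
      exact h1
    refine h2.trans ?_
    positivity
  · have hinf : Infinite F := by
      apply infinite_of_val (v 0) (fun r hr => (hR 0 hn r hr).1)
      have h1 := hmin 0 hn
      have h2 : (320 : ℝ) ≤ 8 * (40 + Real.exp (1 / δ)) / δ ^ 2 := by
        rw [le_div_iff₀ (by positivity)]
        have : δ ^ 2 ≤ 1 := pow_le_one₀ hδ.le hδ1
        nlinarith
      have h3 : (1 : ℝ) < ((v 0 '' (R 0 : Set F)).ncard : ℝ) := by linarith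
      exact_mod_cast h3
    obtain ⟨f, hfA, hfB⟩ := exists_dual_inj (F := F) A B
    have hAc : (A.image f).card = A.card := card_image_of_injOn hfA
    have hBc : (B.image f).card = B.card := card_image_of_injOn hfB
    have key := multi0 hδ hδ1 hθ0 (hA.image f) (hB.image f) n v R hR (by
      intro j hj r hr
      rw [hAc]
      refine le_trans (Nat.cast_le.2 ?_) (hθ j hj r hr)
      have h1 : ((A.image f).filter fun a => r * a ∉ A.image f) ⊆
          (A.filter fun a => r • a ∉ A).image f := by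
        intro x hx
        obtain ⟨h2, h3⟩ := mem_filter.1 hx
        obtain ⟨a, ha, rfl⟩ := mem_image.1 h2
        refine mem_image.2 ⟨a, mem_filter.2 ⟨ha, fun h4 => h3 ?_⟩, rfl⟩
        refine mem_image.2 ⟨r • a, h4, ?_⟩
        rw [map_smul]
        rfl
      exact (card_le_card h1).trans card_image_le) hmin (by rw [hAc, hBc]; exact hsum)
    rw [hAc, hBc] at key
    refine le_trans ?_ key
    have hinj : Set.InjOn (fun a : V × V => (f a.1, f a.2)) ((A ×ˢ B : Finset (V × V)) : Set (V × V)) := by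
      intro a ha b hb h
      obtain ⟨h1, h2⟩ := mem_product.1 (mem_coe.1 ha)
      obtain ⟨h3, h4⟩ := mem_product.1 (mem_coe.1 hb)
      obtain ⟨h5, h6⟩ := Prod.ext_iff.1 h
      exact Prod.ext (hfA h1 h3 h5) (hfB h2 h4 h6)
    have e4 : A.image f ×ˢ B.image f = (A ×ˢ B).image (fun a : V × V => (f a.1, f a.2)) := by
      ext a
      simp only [mem_product, mem_image, Prod.exists]
      constructor
      · rintro ⟨⟨x, hx, h⟩, ⟨y, hy, h'⟩⟩
        exact ⟨x, y, ⟨hx, hy⟩, by rw [h, h']⟩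
      · rintro ⟨x, y, ⟨hx, hy⟩, rfl⟩
        exact ⟨⟨x, hx, rfl⟩, ⟨y, hy, rfl⟩⟩
    rw [e4, sum_image hinj]
    apply sum_le_sum
    intro a ha
    rw [ct_image hinj]
    apply Real.log_le_log (ct_pos _ ha)
    apply ct_mono
    intro b _ h
    show f b.1 + f b.2 = f a.1 + f a.2
    have h' : b.1 + b.2 = a.1 + a.2 := h
    rw [← map_add, ← map_add, h']

theorem exp_bound1 {t : ℝ} (ht : 1 ≤ t) : 24 * t ^ 2 * (40 + Real.exp (3 * t)) ≤ Real.exp (9 * t) ∧
    72 * t ^ 2 * (40 + Real.exp (3 * t)) ≤ Real.exp (9 * t) := by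
  have y1 : (2.7 : ℝ) ≤ Real.exp t := by
    have h1 := Real.exp_one_gt_d9
    have h2 := Real.exp_le_exp.2 ht
    linarith
  have x1 : 2.7 * t ≤ Real.exp t := by
    have h1 := Real.exp_one_gt_d9
    have h2 := Real.add_one_le_exp (t - 1)
    have h3 : Real.exp t = Real.exp 1 * Real.exp (t - 1) := by
      rw [← Real.exp_add]
      congr 1
      ring
    rw [h3]
    have h4 : t ≤ Real.exp (t - 1) := by linarith
    calc 2.7 * t ≤ Real.exp 1 * t := mul_le_mul_of_nonneg_right (by linarith) (by linarith)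
      _ ≤ Real.exp 1 * Real.exp (t - 1) := mul_le_mul_of_nonneg_left h4 (Real.exp_pos _).le
  set y : ℝ := Real.exp t with hy
  have e3 : Real.exp (3 * t) = y ^ 3 := by
    rw [hy, ← Real.exp_nat_mul]
    norm_num
  have e4 : Real.exp (9 * t) = y ^ 9 := by
    rw [hy, ← Real.exp_nat_mul]
    norm_num
  rw [e3, e4]
  have hy0 : 0 < y := by linarith
  have h1 : 40 + y ^ 3 ≤ 3.1 * y ^ 3 := by
    have : (2.7 : ℝ) ^ 3 ≤ y ^ 3 := pow_le_pow_left₀ (by norm_num) y1 3
    norm_num at this
    linarith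
  have h2 : 72 * t ^ 2 ≤ 10 * y ^ 2 := by
    have : (2.7 * t) ^ 2 ≤ y ^ 2 := pow_le_pow_left₀ (by linarith) x1 2
    nlinarith
  have h3 : 31 * y ^ 5 ≤ y ^ 9 := by
    have h4 : (2.7 : ℝ) ^ 4 ≤ y ^ 4 := pow_le_pow_left₀ (by norm_num) y1 4
    have h5 : 31 ≤ y ^ 4 := by
      norm_num at h4
      linarith
    have e : y ^ 9 = y ^ 4 * y ^ 5 := by ring
    rw [e]
    exact mul_le_mul_of_nonneg_right h5 (by positivity)
  have h5 : 72 * t ^ 2 * (40 + y ^ 3) ≤ y ^ 9 := by
    calc 72 * t ^ 2 * (40 + y ^ 3) ≤ (10 * y ^ 2) * (3.1 * y ^ 3) :=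
          mul_le_mul h2 h1 (by positivity) (by positivity)
      _ = 31 * y ^ 5 := by ring
      _ ≤ y ^ 9 := h3
  refine ⟨?_, h5⟩
  have : 0 ≤ t ^ 2 * (40 + y ^ 3) := by positivity
  linarith

/-- the number of sums and the numbers of representations -/
theorem sums_of_ct {A B : Finset V} (hA : A.Nonempty) (hB : B.Nonempty) :
    Real.log ((A.card : ℝ) * B.card) * (A.card * B.card) ≤
      ∑ a ∈ A ×ˢ B, Real.log (ct (A ×ˢ B) (fun a => a.1 + a.2) a) +
      A.card * B.card * Real.log ((A + B).card : ℝ) := by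
  have hm : 0 < (A + B).card := card_pos.2 (hA.add hB)
  have h0 : hh (A ×ˢ B) (fun a => a.1 + a.2) ≤ (A ×ˢ B).card * Real.log ((A + B).card : ℕ) := by
    have h : ((A ×ˢ B).image fun a => a.1 + a.2) ⊆ A + B := by
      intro w hw
      obtain ⟨a, ha, rfl⟩ := mem_image.1 hw
      obtain ⟨h1, h2⟩ := mem_product.1 ha
      exact add_mem_add h1 h2
    apply hh_le_card hm
    refine le_trans (le_of_eq ?_) (card_le_card h)
    congr 1
    ext w
    simp only [mem_image]
  have h1 : hh (A ×ˢ B) (fun a => a.1 + a.2) = (A.card * B.card) * Real.log ((A.card : ℝ) * B.card) -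
      ∑ a ∈ A ×ˢ B, Real.log (ct (A ×ˢ B) (fun a => a.1 + a.2) a) := by
    unfold hh
    rw [sum_sub_distrib, sum_const, nsmul_eq_mul, card_product]
    push_cast
    ring
  rw [h1, card_product] at h0
  push_cast at h0
  linarith

/-- **several valuations**, sumsets -/
theorem multiSum {ε θ : ℝ} (hε : 0 < ε) (hε1 : ε ≤ 1) (hθ0 : 0 ≤ θ) {A : Finset V}
    (hA : A.Nonempty) (n : ℕ)
    (v : ℕ → Valuation F (WithZero (Multiplicative ℤ)))
    (R : ℕ → Finset F) (hR : ∀ j < n, ∀ r ∈ R j, r ≠ 0 ∧ ∀ i < j, v i r = 1)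
    (hθ : ∀ j < n, ∀ r ∈ R j, ((A.filter fun a => r • a ∉ A).card : ℝ) ≤ θ * A.card)
    (hmin : ∀ j < n, Real.exp (9 / ε) ≤ ((v j '' (R j : Set F)).ncard : ℝ))
    (hsum : Real.exp (9 / ε) * Real.log (A.card : ℝ) ≤
      ∑ j ∈ range n, ((v j '' (R j : Set F)).ncard : ℝ)) {B : Finset V} (hB : B.Nonempty) :
    (A.card : ℝ) ^ (1 - ε) * (B.card : ℝ) ^ (1 - θ - ε) ≤ 2 * ((A + B).card : ℝ) := by
  by_contra hcon
  push Not at hcon
  have hA0 : (0 : ℝ) < A.card := by exact_mod_cast card_pos.2 hA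
  have hB0 : (0 : ℝ) < B.card := by exact_mod_cast card_pos.2 hB
  have hA1 : (1 : ℝ) ≤ A.card := by exact_mod_cast card_pos.2 hA
  have hB1 : (1 : ℝ) ≤ B.card := by exact_mod_cast card_pos.2 hB
  have hlA : 0 ≤ Real.log (A.card : ℝ) := Real.log_nonneg hA1
  have hlB : 0 ≤ Real.log (B.card : ℝ) := Real.log_nonneg hB1
  have hS0 : (0 : ℝ) < (A + B).card := by exact_mod_cast card_pos.2 (hA.add hB)
  have hl2 : 0 ≤ Real.log 2 := Real.log_nonneg (by norm_num)
  set a : ℝ := Real.log (A.card : ℝ) with ha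
  set b : ℝ := Real.log (B.card : ℝ) with hb
  set s : ℝ := Real.log ((A + B).card : ℝ) with hs
  have hlog : Real.log ((A.card : ℝ) * B.card) = a + b := Real.log_mul hA0.ne' hB0.ne'
  have h1 : Real.log 2 + s < (1 - ε) * a + (1 - θ - ε) * b := by
    have h2 := Real.log_lt_log (by positivity) hcon
    rw [Real.log_mul (by norm_num) hS0.ne', Real.log_mul (by positivity) (by positivity),
      Real.log_rpow hA0, Real.log_rpow hB0] at h2
    exact h2
  have h2 : b ≤ s := by
    apply Real.log_le_log hB0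
    apply Nat.cast_le.2
    obtain ⟨x, hx⟩ := hA
    apply card_le_card_of_injOn (fun y => x + y)
    · intro y hy
      exact add_mem_add hx hy
    · intro y _ y' _ h
      exact add_left_cancel h
  set t : ℝ := 1 / ε with ht
  have ht1 : 1 ≤ t := by
    rw [ht, le_div_iff₀ hε]
    linarith
  have hεt : ε * t = 1 := by
    rw [ht]
    field_simp
  -- log |B| is at most log |A| / ε
  have h3 : ε * b ≤ a := by
    have h4 : 0 ≤ θ * b := by positivity
    have h5 : 0 ≤ ε * a := by positivity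
    linarith
  have h4 : a + b ≤ 2 * t * a := by
    have h5 : b = t * (ε * b) := by
      rw [← mul_assoc, mul_comm t ε, hεt, one_mul]
    have h6 : b ≤ t * a := by
      rw [h5]
      exact mul_le_mul_of_nonneg_left h3 (by linarith)
    have h7 : a ≤ t * a := le_mul_of_one_le_left hlA ht1
    linarith
  obtain ⟨b1, b2⟩ := exp_bound1 ht1
  have e9 : 9 / ε = 9 * t := by
    rw [ht]
    ring
  have e3 : 1 / (ε / 3) = 3 * t := by
    rw [ht]
    field_simp
  rw [e9] at hmin hsum
  have key := multiV (δ := ε / 3) (by positivity) (by linarith) hθ0 hA hB n v R hR hθ (by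
      intro j hj
      refine le_trans ?_ (hmin j hj)
      rw [e3]
      refine le_trans (le_of_eq ?_) b2
      have : 8 * (40 + Real.exp (3 * t)) / (ε / 3) ^ 2 = 72 * (40 + Real.exp (3 * t)) * t ^ 2 := by
        rw [ht]
        field_simp
        ring
      rw [this]
      ring) (by
      refine le_trans ?_ hsum
      rw [e3, hlog]
      have h5 : 4 * (40 + Real.exp (3 * t)) / (ε / 3) = 12 * t * (40 + Real.exp (3 * t)) := by
        rw [ht]
        field_simp
        ring
      rw [h5]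
      calc 12 * t * (40 + Real.exp (3 * t)) * (a + b)
          ≤ 12 * t * (40 + Real.exp (3 * t)) * (2 * t * a) :=
            mul_le_mul_of_nonneg_left h4 (by positivity)
        _ = 24 * t ^ 2 * (40 + Real.exp (3 * t)) * a := by ring
        _ ≤ Real.exp (9 * t) * a := mul_le_mul_of_nonneg_right b1 hlA)
  have h5 := sums_of_ct hA hB
  rw [hlog] at h5 key
  rw [← hs] at h5
  rw [← hb] at key
  have hN : 0 < (A.card : ℝ) * B.card := by positivity
  have h6 : (A.card : ℝ) * B.card * (a + b) ≤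
      (A.card : ℝ) * B.card * (3 * (ε / 3) * (a + b) + θ * b + Real.log 2 + s) := by
    have e : (A.card : ℝ) * B.card * (3 * (ε / 3) * (a + b) + θ * b + Real.log 2 + s) =
        (A.card : ℝ) * B.card * (3 * (ε / 3) * (a + b) + θ * b + Real.log 2) +
        A.card * B.card * s := by ring
    rw [e]
    linarith
  have h7 := le_of_mul_le_mul_left h6 hN
  linarith

end

end Pool.Agent.H85.AK
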