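import Pool.Agent.H85.AK.Mul7

/-!
The lengths of the geometric progressions in a set.
-/

set_option autoImplicit false

namespace Pool.Agent.H85.AK

open Finset
open scoped Pointwise

theorem exp_bound2 {t : ℝ} (ht : 1 ≤ t) : 4608 * t ^ 3 * (40 + Real.exp (12 * t)) ≤
    Real.exp (22 * t) ∧ 192 * t ^ 2 * (40 + Real.exp (12 * t)) ≤ Real.exp (22 * t) := by
  have y1 : (2.7 : ℝ) ≤ Real.exp t := by
    have h1 := Real.exp_one_gt_d9
    have h2 := Real.exp_le_exp.2 ht
    linarith
  have x1 : 2.7 * t ≤ Real.exp t := by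
    have h1 := Real.exp_one_gt_d9
    have h2 := Real.add_one_le_exp (t - 1)
    have h3 : Real.exp t = Real.exp 1 * Real.exp (t - 1) := by
      rw [← Real.exp_add]
      congr 1
      ring
    rw [h3]
    have h4 : t ≤ Real.exp (t - 1) := by linarith
    calc 2.7 * t ≤ Real.exp 1 * t := mul_le_mul_of_nonneg_right (by linarith) (by linarith)
      _ ≤ Real.exp 1 * Real.exp (t - 1) := mul_le_mul_of_nonneg_left h4 (Real.exp_pos _).le
  set y : ℝ := Real.exp t with hy
  have e3 : Real.exp (12 * t) = y ^ 12 := by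
    rw [hy, ← Real.exp_nat_mul]
    norm_num
  have e4 : Real.exp (22 * t) = y ^ 22 := by
    rw [hy, ← Real.exp_nat_mul]
    norm_num
  rw [e3, e4]
  have hy0 : 0 < y := by linarith
  have h1 : 40 + y ^ 12 ≤ 2 * y ^ 12 := by
    have : (2.7 : ℝ) ^ 12 ≤ y ^ 12 := pow_le_pow_left₀ (by norm_num) y1 12
    norm_num at this
    linarith
  have h2 : 4608 * t ^ 3 ≤ 235 * y ^ 3 := by
    have h4 : (2.7 * t) ^ 3 ≤ y ^ 3 := pow_le_pow_left₀ (by linarith) x1 3
    have h5 : (2.7 * t) ^ 3 = 19.683 * t ^ 3 := by ring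
    have h6 : 0 ≤ y ^ 3 := by positivity
    linarith
  have h3 : 470 * y ^ 15 ≤ y ^ 22 := by
    have h4 : (2.7 : ℝ) ^ 7 ≤ y ^ 7 := pow_le_pow_left₀ (by norm_num) y1 7
    have h5 : 470 ≤ y ^ 7 := by
      norm_num at h4
      linarith
    have e : y ^ 22 = y ^ 7 * y ^ 15 := by ring
    rw [e]
    exact mul_le_mul_of_nonneg_right h5 (by positivity)
  have h5 : 4608 * t ^ 3 * (40 + y ^ 12) ≤ y ^ 22 := by
    calc 4608 * t ^ 3 * (40 + y ^ 12) ≤ (235 * y ^ 3) * (2 * y ^ 12) :=
          mul_le_mul h2 h1 (by positivity) (by positivity)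
      _ = 470 * y ^ 15 := by ring
      _ ≤ y ^ 22 := h3
  refine ⟨h5, ?_⟩
  refine le_trans ?_ h5
  apply mul_le_mul_of_nonneg_right _ (by positivity)
  have : t ^ 2 ≤ t ^ 3 := pow_le_pow_right₀ ht (by norm_num)
  nlinarith [pow_pos (show 0 < t by linarith) 2]

section

variable {F V : Type*} [Field F] [AddCommGroup V] [Module F V] [DecidableEq V]

theorem pow_leave (A : Finset V) {r : F} (hr : r ≠ 0) {θ : ℝ}
    (hm : 0 < (A.filter fun a => r • a ∉ A).card) {i : ℕ}
    (hi : i ≤ ⌊θ * A.card / ((A.filter fun a => r • a ∉ A).card : ℝ)⌋₊) (hθ : 0 ≤ θ) :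
    ((A.filter fun a => r ^ i • a ∉ A).card : ℝ) ≤ θ * A.card := by
  set m : ℕ := (A.filter fun a => r • a ∉ A).card with hmd
  have hm1 : (0 : ℝ) < m := by exact_mod_cast hm
  have h1 : ((A.filter fun a => r ^ i • a ∉ A).card : ℝ) ≤ i * m := by
    exact_mod_cast card_leave_pow A hr i
  have h2 : (i : ℝ) ≤ θ * A.card / m :=
    (Nat.cast_le.2 hi).trans (Nat.floor_le (by positivity))
  have h3 : (i : ℝ) * m ≤ θ * A.card / m * m := mul_le_mul_of_nonneg_right h2 hm1.le
  have h4 : θ * A.card / m * m = θ * A.card := by field_simp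
  linarith

/-- the valuations of the powers -/
theorem pow_vals (v : Valuation F (WithZero (Multiplicative ℤ))) [DecidableEq F] {r : F}
    (hr : r ≠ 0) (hv : v r ≠ 1)
    (I : ℕ) : (v '' (((range (I + 1)).image fun i => r ^ i : Finset F) : Set F)).ncard = I + 1 := by
  have h4 : v '' (((range (I + 1)).image fun i => r ^ i : Finset F) : Set F) =
      (fun i : ℕ => v (r ^ i)) '' ((range (I + 1) : Finset ℕ) : Set ℕ) := by
    rw [coe_image, Set.image_image]
  rw [h4, Set.InjOn.ncard_image, Set.ncard_coe_finset, card_range]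
  intro i _ j _ hij
  have hv0 : v r ≠ 0 := (Valuation.ne_zero_iff v).2 hr
  have h5 := congrArg WithZero.log (show v (r ^ i) = v (r ^ j) from hij)
  simp only [map_pow, WithZero.log_pow] at h5
  have h6 : WithZero.log (v r) ≠ 0 := by
    intro h7
    apply hv
    rw [← WithZero.exp_log hv0, h7, WithZero.exp_zero]
  have h7 : (i : ℤ) * WithZero.log (v r) = (j : ℤ) * WithZero.log (v r) := by simpa using h5
  have h8 := mul_right_cancel₀ h6 h7
  exact_mod_cast h8

/-- **long geometric progressions**, the numbers of representations -/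
theorem lengths_ct {ε : ℝ} (hε : 0 < ε) (hε1 : ε ≤ 1) {A B : Finset V} (hA : 2 ≤ A.card)
    (hB : B.Nonempty) (n : ℕ) (v : ℕ → Valuation F (WithZero (Multiplicative ℤ))) (r : ℕ → F)
    (hr : ∀ j < n, r j ≠ 0 ∧ v j (r j) ≠ 1 ∧ ∀ i < j, v i (r j) = 1)
    (hmin : ∀ j < n, Real.exp (22 / ε) * ((A.filter fun a => r j • a ∉ A).card : ℝ) ≤ A.card)
    (hsum : Real.exp (22 / ε) * Real.log ((A.card : ℝ) * B.card) ≤
      ∑ j ∈ range n, (A.card : ℝ) / ((A.filter fun a => r j • a ∉ A).card : ℝ)) :
    ∑ a ∈ A ×ˢ B, Real.log (ct (A ×ˢ B) (fun a => a.1 + a.2) a) ≤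
      ε * ((A.card : ℝ) * B.card * Real.log ((A.card : ℝ) * B.card)) := by
  classical
  have hAne : A.Nonempty := card_pos.1 (by omega)
  have hA2 : (2 : ℝ) ≤ A.card := by exact_mod_cast hA
  have hA0 : (0 : ℝ) < A.card := by linarith
  have hB0 : (0 : ℝ) < B.card := by exact_mod_cast card_pos.2 hB
  have hB1 : (1 : ℝ) ≤ B.card := by exact_mod_cast card_pos.2 hB
  have hlB : 0 ≤ Real.log (B.card : ℝ) := Real.log_nonneg hB1
  have hlA : 0 < Real.log (A.card : ℝ) := Real.log_pos (by linarith)
  have hlog : Real.log ((A.card : ℝ) * B.card) = Real.log (A.card : ℝ) + Real.log (B.card : ℝ) :=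
    Real.log_mul hA0.ne' hB0.ne'
  set N : ℝ := (A.card : ℝ) * B.card with hN
  have hN0 : 0 < N := by positivity
  have hlN : 0 < Real.log N := by linarith
  set t : ℝ := 1 / ε with ht
  have ht1 : 1 ≤ t := by
    rw [ht, le_div_iff₀ hε]
    linarith
  obtain ⟨b1, b2⟩ := exp_bound2 ht1
  have e22 : 22 / ε = 22 * t := by
    rw [ht]
    ring
  have e12 : 1 / (ε / 12) = 12 * t := by
    rw [ht]
    field_simp
  rw [e22] at hmin hsum
  have hE0 : 0 < Real.exp (22 * t) := Real.exp_pos _
  have hm : ∀ j < n, 0 < (A.filter fun a => r j • a ∉ A).card := fun j hj =>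
    leave_pos (v j) A hA (hr j hj).1 (hr j hj).2.1
  have hn : 0 < n := by
    by_contra hc
    have h0 : n = 0 := by omega
    rw [h0, range_zero, sum_empty] at hsum
    have : 0 < Real.exp (22 * t) * Real.log N := by positivity
    linarith
  -- the set is large
  have hbig : 22 * t ≤ Real.log (A.card : ℝ) := by
    rw [← Real.log_exp (22 * t)]
    apply Real.log_le_log hE0
    have h1 : (1 : ℝ) ≤ ((A.filter fun a => r 0 • a ∉ A).card : ℝ) := by exact_mod_cast hm 0 hn
    have h2 := hmin 0 hn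
    nlinarith
  set I : ℕ → ℕ := fun j => ⌊ε / 4 * A.card / ((A.filter fun a => r j • a ∉ A).card : ℝ)⌋₊ with hI
  have hIv : ∀ j < n, ε / 4 * (A.card / ((A.filter fun a => r j • a ∉ A).card : ℝ)) ≤
      ((v j '' (((range (I j + 1)).image fun i => r j ^ i : Finset F) : Set F)).ncard : ℝ) := by
    intro j hj
    rw [pow_vals (v j) (hr j hj).1 (hr j hj).2.1]
    have h1 : ε / 4 * A.card / ((A.filter fun a => r j • a ∉ A).card : ℝ) < I j + 1 :=
      Nat.lt_floor_add_one _
    push_cast
    rw [← mul_div_assoc]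
    exact h1.le
  have key := multiV (δ := ε / 12) (θ := ε / 4) (by positivity) (by linarith) (by positivity)
    hAne hB n v (fun j => (range (I j + 1)).image fun i => r j ^ i) (by
      intro j hj x hx
      obtain ⟨i, _, rfl⟩ := mem_image.1 hx
      refine ⟨pow_ne_zero i (hr j hj).1, fun i' hi' => ?_⟩
      rw [map_pow, (hr j hj).2.2 i' hi', one_pow]) (by
      intro j hj x hx
      obtain ⟨i, hi, rfl⟩ := mem_image.1 hx
      have h1 : i ≤ I j := Nat.lt_succ_iff.1 (mem_range.1 hi)
      have h2 := pow_leave (θ := ε / 4) A (hr j hj).1 (hm j hj) h1 (by positivity)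
      refine le_trans (Nat.cast_le.2 (card_le_card ?_)) h2
      intro a ha
      simp only [mem_filter] at ha ⊢
      exact ha) (by
      intro j hj
      refine le_trans ?_ (hIv j hj)
      rw [e12]
      have h1 : Real.exp (22 * t) ≤ A.card / ((A.filter fun a => r j • a ∉ A).card : ℝ) := by
        rw [le_div_iff₀ (by exact_mod_cast hm j hj)]
        exact hmin j hj
      have h2 : 8 * (40 + Real.exp (12 * t)) / (ε / 12) ^ 2 =
          ε / 4 * (4608 * t ^ 3 * (40 + Real.exp (12 * t))) := by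
        rw [ht]
        field_simp
        ring
      rw [h2]
      exact mul_le_mul_of_nonneg_left (b1.trans h1) (by positivity)) (by
      have h1 : ε / 4 * ∑ j ∈ range n, (A.card : ℝ) / ((A.filter fun a => r j • a ∉ A).card : ℝ) ≤
          ∑ j ∈ range n, ((v j '' (((range (I j + 1)).image fun i => r j ^ i : Finset F) :
            Set F)).ncard : ℝ) := by
        rw [mul_sum]
        exact sum_le_sum fun j hj => hIv j (mem_range.1 hj)
      refine le_trans ?_ h1
      rw [e12]
      have h2 : 4 * (40 + Real.exp (12 * t)) / (ε / 12) =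
          ε / 4 * (192 * t ^ 2 * (40 + Real.exp (12 * t))) := by
        rw [ht]
        field_simp
        ring
      rw [h2]
      have h3 := mul_le_mul_of_nonneg_right b2 hlN.le
      calc ε / 4 * (192 * t ^ 2 * (40 + Real.exp (12 * t))) * Real.log N
          = ε / 4 * (192 * t ^ 2 * (40 + Real.exp (12 * t)) * Real.log N) := by ring
        _ ≤ ε / 4 * ∑ j ∈ range n, (A.card : ℝ) / ((A.filter fun a => r j • a ∉ A).card : ℝ) :=
            mul_le_mul_of_nonneg_left (h3.trans hsum) (by positivity))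
  rw [← hN] at key
  refine key.trans ?_
  have h1 : Real.log 2 ≤ ε / 2 * Real.log N := by
    have h2 : ε / 2 * (22 * t) ≤ ε / 2 * Real.log N :=
      mul_le_mul_of_nonneg_left (by linarith) (by positivity)
    have h3 : ε / 2 * (22 * t) = 11 := by
      rw [ht]
      field_simp
      norm_num
    have h4 := Real.log_two_lt_d9
    linarith
  have h2 : ε / 4 * Real.log (B.card : ℝ) ≤ ε / 4 * Real.log N :=
    mul_le_mul_of_nonneg_left (by linarith) (by positivity)
  have h3 : 3 * (ε / 12) * Real.log N + ε / 4 * Real.log (B.card : ℝ) + Real.log 2 ≤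
      ε * Real.log N := by
    have : 3 * (ε / 12) * Real.log N = ε / 4 * Real.log N := by ring
    linarith
  calc N * (3 * (ε / 12) * Real.log N + ε / 4 * Real.log (B.card : ℝ) + Real.log 2) ≤
        N * (ε * Real.log N) := mul_le_mul_of_nonneg_left h3 hN0.le
    _ = ε * (N * Real.log N) := by ring

/-- **long geometric progressions**, sumsets -/
theorem lengths_sum {ε : ℝ} (hε : 0 < ε) (hε1 : ε ≤ 1) {A : Finset V} (hA : 2 ≤ A.card)
    (n : ℕ) (v : ℕ → Valuation F (WithZero (Multiplicative ℤ))) (r : ℕ → F)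
    (hr : ∀ j < n, r j ≠ 0 ∧ v j (r j) ≠ 1 ∧ ∀ i < j, v i (r j) = 1)
    (hmin : ∀ j < n, Real.exp (24 / ε) * ((A.filter fun a => r j • a ∉ A).card : ℝ) ≤ A.card)
    (hsum : Real.exp (24 / ε) * Real.log (A.card : ℝ) ≤
      ∑ j ∈ range n, (A.card : ℝ) / ((A.filter fun a => r j • a ∉ A).card : ℝ))
    {B : Finset V} (hB : B.Nonempty) :
    ((A.card : ℝ) * B.card) ^ (1 - ε) ≤ ((A + B).card : ℝ) := by
  by_contra hcon
  push Not at hcon
  have hAne : A.Nonempty := card_pos.1 (by omega)
  have hA2 : (2 : ℝ) ≤ A.card := by exact_mod_cast hA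
  have hA0 : (0 : ℝ) < A.card := by linarith
  have hB0 : (0 : ℝ) < B.card := by exact_mod_cast card_pos.2 hB
  have hB1 : (1 : ℝ) ≤ B.card := by exact_mod_cast card_pos.2 hB
  have hlA : 0 < Real.log (A.card : ℝ) := Real.log_pos (by linarith)
  have hS0 : (0 : ℝ) < (A + B).card := by exact_mod_cast card_pos.2 (hAne.add hB)
  have hBS : (B.card : ℝ) ≤ (A + B).card := by
    apply Nat.cast_le.2
    obtain ⟨x, hx⟩ := hAne
    apply card_le_card_of_injOn (fun y => x + y)
    · intro y hy
      exact add_mem_add hx hy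
    · intro y _ y' _ h
      exact add_left_cancel h
  have hlog := log_prod hε (show (1 : ℝ) ≤ A.card by linarith) hB1 hBS hcon.le
  set t : ℝ := 1 / ε with ht
  have ht1 : 1 ≤ t := by
    rw [ht, le_div_iff₀ hε]
    linarith
  have e24 : 24 / ε = 24 * t := by
    rw [ht]
    ring
  have e22 : 22 / ε = 22 * t := by
    rw [ht]
    ring
  rw [e24] at hmin hsum
  have hEE : Real.exp (22 * t) ≤ Real.exp (24 * t) := Real.exp_le_exp.2 (by linarith)
  have key := lengths_ct hε hε1 hA hB n v r hr (by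
      intro j hj
      rw [e22]
      exact (mul_le_mul_of_nonneg_right hEE (Nat.cast_nonneg _)).trans (hmin j hj)) (by
      refine le_trans ?_ hsum
      rw [e22]
      have h1 : Real.exp (24 * t) = Real.exp (22 * t) * Real.exp (2 * t) := by
        rw [← Real.exp_add]
        congr 1
        ring
      have h2 : t ≤ Real.exp (2 * t) := by
        have := Real.add_one_le_exp (2 * t)
        linarith
      calc Real.exp (22 * t) * Real.log ((A.card : ℝ) * B.card)
          ≤ Real.exp (22 * t) * (t * Real.log (A.card : ℝ)) :=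
            mul_le_mul_of_nonneg_left hlog (Real.exp_pos _).le
        _ ≤ Real.exp (22 * t) * (Real.exp (2 * t) * Real.log (A.card : ℝ)) :=
            mul_le_mul_of_nonneg_left (mul_le_mul_of_nonneg_right h2 hlA.le) (Real.exp_pos _).le
        _ = Real.exp (24 * t) * Real.log (A.card : ℝ) := by
            rw [h1]
            ring)
  have h5 := sums_of_ct hAne hB
  set N : ℝ := (A.card : ℝ) * B.card with hN
  have hN0 : 0 < N := by positivity
  have h6 : N * Real.log N ≤ N * (ε * Real.log N + Real.log ((A + B).card : ℝ)) := by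
    have e : N * (ε * Real.log N + Real.log ((A + B).card : ℝ)) =
      ε * (N * Real.log N) + N * Real.log ((A + B).card : ℝ) := by ring
    rw [e]
    linarith
  have h7 := le_of_mul_le_mul_left h6 hN0
  have h8 := Real.log_lt_log hS0 hcon
  rw [Real.log_rpow hN0] at h8
  linarith

end

end Pool.Agent.H85.AK
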