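import Pool.Agent.H85.AK.Mul8

/-!
Pairwise coprime integers.
-/

set_option autoImplicit false

namespace Pool.Agent.H85.AK

open Finset
open scoped Pointwise

/-- the valuations of pairwise coprime integers -/
theorem exists_padic (Q : Finset ℕ) (hQ : ∀ q ∈ Q, 2 ≤ q)
    (hcop : ∀ q ∈ Q, ∀ q' ∈ Q, q ≠ q' → q.Coprime q') :
    ∃ (v : ℕ → Valuation ℚ (WithZero (Multiplicative ℤ))) (q : ℕ → ℕ),
      (∀ j < Q.card, ((q j : ℕ) : ℚ) ≠ 0 ∧ v j ((q j : ℕ) : ℚ) ≠ 1 ∧
        ∀ i < j, v i ((q j : ℕ) : ℚ) = 1) ∧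
      (∀ j < Q.card, q j ∈ Q) ∧ ∀ f : ℕ → ℝ, ∑ j ∈ range Q.card, f (q j) = ∑ q ∈ Q, f q := by
  classical
  set e := Q.equivFin.symm with he
  set q : ℕ → ℕ := fun j => if h : j < Q.card then (e ⟨j, h⟩ : ℕ) else 2 with hq
  have hqv : ∀ j (h : j < Q.card), q j = (e ⟨j, h⟩ : ℕ) := fun j h => dif_pos h
  have hqQ : ∀ j < Q.card, q j ∈ Q := by
    intro j h
    rw [hqv j h]
    exact (e ⟨j, h⟩).2
  have hq2 : ∀ j, 2 ≤ q j := by
    intro j
    by_cases h : j < Q.card
    · exact hQ _ (hqQ j h)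
    · simp only [hq, dif_neg h]
      exact le_rfl
  have hinj : ∀ i < Q.card, ∀ j < Q.card, q i = q j → i = j := by
    intro i hi j hj h
    rw [hqv i hi, hqv j hj] at h
    have h1 := e.injective (Subtype.ext h)
    exact congrArg Fin.val h1
  have hpr : ∀ j, (q j).minFac.Prime := fun j => Nat.minFac_prime (by
    have := hq2 j
    omega)
  set v : ℕ → Valuation ℚ (WithZero (Multiplicative ℤ)) := fun j =>
    haveI : Fact ((q j).minFac.Prime) := ⟨hpr j⟩
    Rat.padicValuation (q j).minFac with hv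
  have hval : ∀ i j, v i ((q j : ℕ) : ℚ) = WithZero.exp (-(padicValNat (q i).minFac (q j) : ℤ)) := by
    intro i j
    haveI : Fact ((q i).minFac.Prime) := ⟨hpr i⟩
    have h0 : ((q j : ℕ) : ℚ) ≠ 0 := by
      have := hq2 j
      exact_mod_cast (show q j ≠ 0 by omega)
    have h1 : v i ((q j : ℕ) : ℚ) = WithZero.exp (-padicValRat (q i).minFac ((q j : ℕ) : ℚ)) := by
      simp only [hv]
      simp [Rat.padicValuation, h0]
    rw [h1, padicValRat.of_nat]
  refine ⟨v, q, ?_, hqQ, ?_⟩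
  · intro j hj
    have h2 := hq2 j
    refine ⟨by exact_mod_cast (show q j ≠ 0 by omega), ?_, ?_⟩
    · rw [hval]
      haveI : Fact ((q j).minFac.Prime) := ⟨hpr j⟩
      have h3 : 1 ≤ padicValNat (q j).minFac (q j) :=
        one_le_padicValNat_of_dvd (by omega) (Nat.minFac_dvd _)
      intro h
      have h4 := congrArg WithZero.log h
      rw [WithZero.log_exp, WithZero.log_one] at h4
      omega
    · intro i hi
      rw [hval]
      have hij : q i ≠ q j := fun h => by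
        have := hinj i (by omega) j hj h
        omega
      have h3 := hcop _ (hqQ i (by omega)) _ (hqQ j hj) hij
      have h4 : padicValNat (q i).minFac (q j) = 0 := by
        apply padicValNat.eq_zero_of_not_dvd
        intro h5
        have h6 := Nat.dvd_gcd (Nat.minFac_dvd (q i)) h5
        rw [h3] at h6
        exact (hpr i).one_lt.ne' (Nat.dvd_one.1 h6)
      rw [h4]
      simp
  · intro f
    rw [← Fin.sum_univ_eq_sum_range (fun j => f (q j)) Q.card, ← Finset.sum_coe_sort Q f]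
    apply Fintype.sum_equiv e
    intro x
    rw [hqv x.1 x.2]

section

variable {V : Type*} [AddCommGroup V] [Module ℚ V] [DecidableEq V]

/-- **pairwise coprime integers**, representations -/
theorem coprime_ct {ε : ℝ} (hε : 0 < ε) (hε1 : ε ≤ 1) {A B : Finset V} (hA : 2 ≤ A.card)
    (hB : B.Nonempty) (Q : Finset ℕ) (hQ : ∀ q ∈ Q, 2 ≤ q)
    (hcop : ∀ q ∈ Q, ∀ q' ∈ Q, q ≠ q' → q.Coprime q')
    (hmin : ∀ q ∈ Q, Real.exp (22 / ε) * ((A.filter fun a => (q : ℚ) • a ∉ A).card : ℝ) ≤ A.card)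
    (hsum : Real.exp (22 / ε) * Real.log ((A.card : ℝ) * B.card) ≤
      ∑ q ∈ Q, (A.card : ℝ) / ((A.filter fun a => (q : ℚ) • a ∉ A).card : ℝ)) :
    ∑ a ∈ A ×ˢ B, Real.log (ct (A ×ˢ B) (fun a => a.1 + a.2) a) ≤
      ε * ((A.card : ℝ) * B.card * Real.log ((A.card : ℝ) * B.card)) := by
  obtain ⟨v, q, h1, h2, h3⟩ := exists_padic Q hQ hcop
  apply lengths_ct hε hε1 hA hB Q.card v (fun j => ((q j : ℕ) : ℚ)) h1
  · intro j hj
    exact hmin _ (h2 j hj)
  · refine hsum.trans (le_of_eq ?_)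
    exact (h3 fun q => (A.card : ℝ) / ((A.filter fun a => (q : ℚ) • a ∉ A).card : ℝ)).symm

/-- **pairwise coprime integers**, sumsets -/
theorem coprime_sum {ε : ℝ} (hε : 0 < ε) (hε1 : ε ≤ 1) {A : Finset V} (hA : 2 ≤ A.card)
    (Q : Finset ℕ) (hQ : ∀ q ∈ Q, 2 ≤ q)
    (hcop : ∀ q ∈ Q, ∀ q' ∈ Q, q ≠ q' → q.Coprime q')
    (hmin : ∀ q ∈ Q, Real.exp (24 / ε) * ((A.filter fun a => (q : ℚ) • a ∉ A).card : ℝ) ≤ A.card)
    (hsum : Real.exp (24 / ε) * Real.log (A.card : ℝ) ≤
      ∑ q ∈ Q, (A.card : ℝ) / ((A.filter fun a => (q : ℚ) • a ∉ A).card : ℝ))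
    {B : Finset V} (hB : B.Nonempty) :
    ((A.card : ℝ) * B.card) ^ (1 - ε) ≤ ((A + B).card : ℝ) := by
  obtain ⟨v, q, h1, h2, h3⟩ := exists_padic Q hQ hcop
  apply lengths_sum hε hε1 hA Q.card v (fun j => ((q j : ℕ) : ℚ)) h1 _ _ hB
  · intro j hj
    exact hmin _ (h2 j hj)
  · refine hsum.trans (le_of_eq ?_)
    exact (h3 fun q => (A.card : ℝ) / ((A.filter fun a => (q : ℚ) • a ∉ A).card : ℝ)).symm

end

/-- the cast of a set of integers -/
def cz (A : Finset ℤ) : Finset ℚ := A.image (fun a : ℤ => (a : ℚ))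

theorem cz_card (A : Finset ℤ) : (cz A).card = A.card :=
  card_image_of_injective _ Int.cast_injective

theorem mem_cz {A : Finset ℤ} {a : ℤ} : (a : ℚ) ∈ cz A ↔ a ∈ A := by
  unfold cz
  rw [mem_image]
  constructor
  · rintro ⟨b, hb, h⟩
    have : b = a := by exact_mod_cast h
    rwa [← this]
  · intro h
    exact ⟨a, h, rfl⟩

theorem cz_filter (A : Finset ℤ) (q : ℕ) :
    ((cz A).filter fun a => (q : ℚ) • a ∉ cz A).card = (A.filter fun a => (q : ℤ) * a ∉ A).card := by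
  have e : ((cz A).filter fun a => (q : ℚ) • a ∉ cz A) = cz (A.filter fun a => (q : ℤ) * a ∉ A) := by
    ext x
    rw [mem_filter]
    unfold cz
    simp only [mem_image, mem_filter]
    constructor
    · rintro ⟨⟨a, ha, rfl⟩, h⟩
      refine ⟨a, ⟨ha, fun h1 => h ⟨_, h1, ?_⟩⟩, rfl⟩
      push_cast
      rfl
    · rintro ⟨a, ⟨ha, h⟩, rfl⟩
      refine ⟨⟨a, ha, rfl⟩, ?_⟩
      rintro ⟨b, hb, h1⟩
      apply h
      have h2 : (b : ℚ) = ((q : ℤ) * a : ℤ) := by
        rw [h1]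
        push_cast
        rfl
      have h3 : b = (q : ℤ) * a := by exact_mod_cast h2
      rwa [← h3]
  rw [e, cz_card]

theorem cz_add (A B : Finset ℤ) : cz (A + B) = cz A + cz B := by
  unfold cz
  exact image_add (Int.castAddHom ℚ)

/-- **sets of integers** -/
theorem coprime_int {ε : ℝ} (hε : 0 < ε) (hε1 : ε ≤ 1) {A : Finset ℤ} (hA : 2 ≤ A.card)
    (Q : Finset ℕ) (hQ : ∀ q ∈ Q, 2 ≤ q)
    (hcop : ∀ q ∈ Q, ∀ q' ∈ Q, q ≠ q' → q.Coprime q')
    (hmin : ∀ q ∈ Q, Real.exp (24 / ε) * ((A.filter fun a => (q : ℤ) * a ∉ A).card : ℝ) ≤ A.card)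
    (hsum : Real.exp (24 / ε) * Real.log (A.card : ℝ) ≤
      ∑ q ∈ Q, (A.card : ℝ) / ((A.filter fun a => (q : ℤ) * a ∉ A).card : ℝ))
    {B : Finset ℤ} (hB : B.Nonempty) :
    ((A.card : ℝ) * B.card) ^ (1 - ε) ≤ ((A + B).card : ℝ) := by
  have key := coprime_sum hε hε1 (A := cz A) (by rw [cz_card]; exact hA) Q hQ hcop
    (by
      intro q hq
      rw [cz_filter, cz_card]
      exact hmin q hq)
    (by
      simp only [cz_filter, cz_card]
      exact hsum) (B := cz B) (hB.image _)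
  rw [cz_card, cz_card, ← cz_add, cz_card] at key
  exact key

/-- **almost invariant sets of integers** -/
theorem almost_int {ε : ℝ} (hε : 0 < ε) (hε1 : ε ≤ 1) {A : Finset ℤ} (hA : 2 ≤ A.card)
    (Q : Finset ℕ) (hQ : ∀ q ∈ Q, 2 ≤ q)
    (hcop : ∀ q ∈ Q, ∀ q' ∈ Q, q ≠ q' → q.Coprime q') {η : ℝ} (hη : 0 < η)
    (hη1 : η ≤ Real.exp (-(24 / ε)))
    (hη2 : Real.exp (24 / ε) * η * Real.log (A.card : ℝ) ≤ Q.card)
    (h : ∀ q ∈ Q, ((A.filter fun a => (q : ℤ) * a ∉ A).card : ℝ) ≤ η * A.card)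
    {B : Finset ℤ} (hB : B.Nonempty) :
    ((A.card : ℝ) * B.card) ^ (1 - ε) ≤ ((A + B).card : ℝ) := by
  have hA2 : (2 : ℝ) ≤ A.card := by exact_mod_cast hA
  have hA0 : (0 : ℝ) < A.card := by linarith
  have hE : Real.exp (24 / ε) * Real.exp (-(24 / ε)) = 1 := by
    rw [← Real.exp_add]
    simp
  apply coprime_int hε hε1 hA Q hQ hcop _ _ hB
  · intro q hq
    calc Real.exp (24 / ε) * ((A.filter fun a => (q : ℤ) * a ∉ A).card : ℝ)
        ≤ Real.exp (24 / ε) * (Real.exp (-(24 / ε)) * A.card) := by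
          apply mul_le_mul_of_nonneg_left _ (Real.exp_pos _).le
          exact (h q hq).trans (mul_le_mul_of_nonneg_right hη1 hA0.le)
      _ = A.card := by rw [← mul_assoc, hE, one_mul]
  · have h1 : ∀ q ∈ Q, 1 / η ≤ (A.card : ℝ) / ((A.filter fun a => (q : ℤ) * a ∉ A).card : ℝ) := by
      intro q hq
      have hpos : 0 < (A.filter fun a => (q : ℤ) * a ∉ A).card := by
        have hq2 := hQ q hq
        -- use a prime divisor of q
        have hpr : (q.minFac).Prime := Nat.minFac_prime (by omega)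
        have : Fact (q.minFac).Prime := ⟨hpr⟩
        have h3 := leave_pos (Rat.padicValuation q.minFac) (cz A) (by rw [cz_card]; exact hA)
          (r := ((q : ℕ) : ℚ)) (by exact_mod_cast (show q ≠ 0 by omega)) (by
            have h0 : ((q : ℕ) : ℚ) ≠ 0 := by exact_mod_cast (show q ≠ 0 by omega)
            have h4 : Rat.padicValuation q.minFac ((q : ℕ) : ℚ) =
                WithZero.exp (-padicValRat q.minFac ((q : ℕ) : ℚ)) := by
              simp [Rat.padicValuation, h0]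
            rw [h4, padicValRat.of_nat]
            have h5 : 1 ≤ padicValNat q.minFac q :=
              one_le_padicValNat_of_dvd (by omega) (Nat.minFac_dvd _)
            intro h
            have h6 := congrArg WithZero.log h
            rw [WithZero.log_exp, WithZero.log_one] at h6
            omega)
        rw [cz_filter] at h3
        exact h3
      have hpos' : (0 : ℝ) < ((A.filter fun a => (q : ℤ) * a ∉ A).card : ℝ) := by
        exact_mod_cast hpos
      rw [div_le_div_iff₀ hη hpos', one_mul]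
      have := h q hq
      linarith
    have h2 := sum_le_sum h1
    rw [sum_const, nsmul_eq_mul] at h2
    refine le_trans ?_ h2
    rw [mul_one_div, le_div_iff₀ hη]
    linarith

end Pool.Agent.H85.AK
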