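import Pool.Agent.H85.AK.Rob

/-!
Sums of sets with many multiplicative symmetries.
-/

set_option autoImplicit false

namespace Pool.Agent.H85.AK

open Finset

/-- the logarithm of `|A| |B|`, if `A + B` has few elements -/
theorem log_prod {ε : ℝ} (hε : 0 < ε) {a b s : ℝ} (ha : 1 ≤ a) (hb : 1 ≤ b) (hs : b ≤ s)
    (h : s ≤ (a * b) ^ (1 - ε)) : Real.log (a * b) ≤ 1 / ε * Real.log a := by
  have ha0 : 0 < a := by linarith
  have hb0 : 0 < b := by linarith
  have h1 : Real.log b ≤ (1 - ε) * Real.log (a * b) := by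
    rw [← Real.log_rpow (by positivity)]
    exact Real.log_le_log hb0 (hs.trans h)
  have h2 : Real.log (a * b) = Real.log a + Real.log b := Real.log_mul ha0.ne' hb0.ne'
  have h3 : ε * Real.log (a * b) ≤ Real.log a := by linarith
  rw [one_div, ← div_eq_inv_mul, le_div_iff₀ hε]
  linarith

/-- **dilates of a set in another set** -/
theorem pop {ε : ℝ} (hε : 0 < ε) (hε1 : ε ≤ 1) {F : Type*} [Field F] [DecidableEq F]
    (v : Valuation F (WithZero (Multiplicative ℤ))) (A C : Finset F) (K : ℝ) (hK : 1 ≤ K)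
    (hKC : 8 * K ≤ (C.card : ℝ) ^ (ε / 8)) (R : Finset F) (hR0 : ∀ r ∈ R, r ≠ 0)
    (hR : ∀ r ∈ R, (C.card : ℝ) ≤ K * ((C.filter fun c => r * c ∈ A).card : ℝ))
    (hv : Real.exp (12 / ε) * K * Real.log (C.card : ℝ) < ((v '' (R : Set F)).ncard : ℝ))
    (B : Finset F) (hB : B.Nonempty) :
    ((C.card : ℝ) * B.card) ^ (1 - ε) < (((A ×ˢ B).image fun s => s.1 + s.2).card : ℝ) := by
  by_contra hcon
  push Not at hcon
  -- the cardinality of C
  have hC2 : (2 : ℝ) ≤ C.card := by
    by_contra h
    push Not at h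
    have h1 : C.card ≤ 1 := by
      have : C.card < 2 := by exact_mod_cast h
      omega
    have h2 : (C.card : ℝ) ^ (ε / 8) ≤ 1 :=
      Real.rpow_le_one (Nat.cast_nonneg _) (by exact_mod_cast h1) (by positivity)
    linarith
  have hB1 : (1 : ℝ) ≤ B.card := by exact_mod_cast card_pos.2 hB
  have hlogC : 0 < Real.log (C.card : ℝ) := Real.log_pos (by linarith)
  -- A is not empty
  have hRne : R.Nonempty := by
    by_contra hR1
    rw [not_nonempty_iff_eq_empty] at hR1
    rw [hR1, coe_empty, Set.image_empty, Set.ncard_empty, Nat.cast_zero] at hv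
    have : 0 ≤ Real.exp (12 / ε) * K * Real.log (C.card : ℝ) := by positivity
    linarith
  obtain ⟨r0, hr0⟩ := hRne
  have hAne : A.Nonempty := by
    by_contra hA
    rw [not_nonempty_iff_eq_empty] at hA
    have h1 := hR r0 hr0
    rw [hA] at h1
    simp only [notMem_empty, filter_false, card_empty, Nat.cast_zero, mul_zero] at h1
    linarith
  set D : Finset F := (A ×ˢ B).image fun s => s.1 + s.2 with hD
  have hBD : (B.card : ℝ) ≤ D.card := by
    obtain ⟨a, ha⟩ := hAne
    apply Nat.cast_le.2
    apply card_le_card_of_injOn (fun b => a + b)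
    · intro b hb
      exact mem_image.2 ⟨(a, b), mem_product.2 ⟨ha, hb⟩, rfl⟩
    · intro b _ b' _ h
      exact add_left_cancel h
  have hlog := log_prod hε (show (1 : ℝ) ≤ C.card by linarith) hB1 hBD hcon
  -- the set of pairs
  set P : Finset (F × F) := B ×ˢ C with hP
  have hPc : (P.card : ℝ) = (C.card : ℝ) * B.card := by
    rw [hP, card_product]
    push_cast
    ring
  have hCP : (C.card : ℝ) ≤ P.card := by
    rw [hPc]
    nlinarith
  have hP2 : 2 ≤ P.card := by
    have : (2 : ℝ) ≤ P.card := by linarith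
    exact_mod_cast this
  have key := val_rob' hε hε1 v P hP2 K hK
    (hKC.trans (Real.rpow_le_rpow (Nat.cast_nonneg _) hCP (by positivity))) R hR0
    (fun r => B ×ˢ C.filter fun c => r * c ∈ A) ?_ ?_ ?_
  · rw [hPc] at key
    have h1 : Real.exp (11 / ε) * K * Real.log ((C.card : ℝ) * B.card) ≤
        Real.exp (12 / ε) * K * Real.log (C.card : ℝ) := by
      have h2 : Real.exp (11 / ε) * K * Real.log ((C.card : ℝ) * B.card) ≤
          Real.exp (11 / ε) * K * (1 / ε * Real.log (C.card : ℝ)) :=
        mul_le_mul_of_nonneg_left hlog (by positivity)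
      have h3 : 1 / ε ≤ Real.exp (1 / ε) := by
        have := Real.add_one_le_exp (1 / ε)
        linarith
      have h4 : Real.exp (12 / ε) = Real.exp (11 / ε) * Real.exp (1 / ε) := by
        rw [← Real.exp_add]
        congr 1
        ring
      rw [h4]
      have h5 : Real.exp (11 / ε) * K * (1 / ε * Real.log (C.card : ℝ)) =
          (Real.exp (11 / ε) * K * Real.log (C.card : ℝ)) * (1 / ε) := by ring
      have h6 : Real.exp (11 / ε) * Real.exp (1 / ε) * K * Real.log (C.card : ℝ) =
          (Real.exp (11 / ε) * K * Real.log (C.card : ℝ)) * Real.exp (1 / ε) := by ring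
      rw [h6]
      rw [h5] at h2
      exact h2.trans (mul_le_mul_of_nonneg_left h3 (by positivity))
    exact absurd (key.trans h1) (not_le.2 hv)
  · intro r _
    exact product_subset_product le_rfl (filter_subset _ _)
  · intro r hr
    rw [hPc, card_product]
    push_cast
    have h1 := mul_le_mul_of_nonneg_right (hR r hr) (show (0 : ℝ) ≤ B.card by linarith)
    linarith
  · intro r _
    rw [hPc, ← Finset.coe_image, Set.ncard_coe_finset]
    refine le_trans (Nat.cast_le.2 (card_le_card ?_)) hcon
    intro w hw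
    obtain ⟨⟨b, c⟩, hbc, rfl⟩ := mem_image.1 hw
    obtain ⟨hb, hc⟩ := mem_product.1 hbc
    refine mem_image.2 ⟨(r * c, b), mem_product.2 ⟨(mem_filter.1 hc).2, hb⟩, ?_⟩
    exact add_comm _ _

end Pool.Agent.H85.AK
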