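import Pool.Agent.H85.AK.Pop3

/-!
Partners and one almost symmetry.
-/

set_option autoImplicit false

namespace Pool.Agent.H85.AK

open Finset
open scoped Pointwise

/-- a section -/
theorem exists_section {α β : Type*} (P : Finset α) (v : α → β) :
    ∃ P' : Finset α, P' ⊆ P ∧ Set.InjOn v (P' : Set α) ∧ (v '' (P : Set α)).ncard = P'.card := by
  classical
  obtain ⟨s, hs1, hs2, hs3⟩ := (Set.surjOn_image v (P : Set α)).exists_subset_injOn_image_eq
  have hfin : s.Finite := (finite_toSet P).subset hs1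
  refine ⟨hfin.toFinset, fun x hx => by simpa using hs1 ((Set.Finite.mem_toFinset hfin).1 hx),
    ?_, ?_⟩
  · rw [Set.Finite.coe_toFinset]
    exact hs2
  · rw [← hs3, hs2.ncard_image, Set.ncard_eq_toFinset_card s hfin]

/-- **partners** -/
theorem partner {ε : ℝ} (hε : 0 < ε) (hε1 : ε ≤ 1) {F V : Type*} [Field F] [DecidableEq F]
    [AddCommGroup V] [Module F V] [DecidableEq V]
    (v : Valuation F (WithZero (Multiplicative ℤ))) (A : Finset V)
    (K : ℝ) (hK : 1 ≤ K) (hKA : 16 * K ≤ (A.card : ℝ) ^ (ε / 8))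
    (P : Finset F) (hP0 : ∀ r ∈ P, r ≠ 0) (h : ((P • A).card : ℝ) ≤ K * A.card)
    (hv : 4 * Real.exp (12 / ε) * K ^ 2 * Real.log (A.card : ℝ) < ((v '' (P : Set F)).ncard : ℝ))
    (B : Finset V) (hB : B.Nonempty) :
    ((A.card : ℝ) * B.card) ^ (1 - ε) < ((A + B).card : ℝ) := by
  classical
  obtain ⟨P', hP', hinj, hc⟩ := exists_section P v
  rw [hc] at hv
  have hA : A.Nonempty := by
    rw [nonempty_iff_ne_empty]
    rintro rfl
    rw [card_empty, Nat.cast_zero, Real.zero_rpow (by positivity)] at hKA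
    linarith
  have hlog : 0 ≤ Real.log (A.card : ℝ) := Real.log_natCast_nonneg _
  have hP'ne : P'.Nonempty := by
    rw [← card_pos]
    have h1 : (0 : ℝ) < (P'.card : ℝ) := lt_of_le_of_lt (by positivity) hv
    exact_mod_cast h1
  have hP'0 : ∀ r ∈ P', r ≠ 0 := fun r hr => hP0 r (hP' hr)
  have h' : ((P' • A).card : ℝ) ≤ K * A.card :=
    (Nat.cast_le.2 (card_le_card (smul_subset_smul_right hP'))).trans h
  obtain ⟨q, hq, hG⟩ := partner_pop hA hP'ne hP'0 hK h'
  set G := P'.filter fun p =>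
      (A.card : ℝ) ≤ 2 * K * ((A.filter fun a => (p⁻¹ * q) • a ∈ A).card : ℝ) with hGd
  set R : Finset F := G.image fun p => p⁻¹ * q with hR
  have hRc : (v '' (R : Set F)).ncard = G.card := by
    have h1 : v '' (R : Set F) = (fun p => v (p⁻¹ * q)) '' (G : Set F) := by
      rw [hR, coe_image, Set.image_image]
    rw [h1, Set.InjOn.ncard_image, Set.ncard_coe_finset]
    intro p hp p' hp' hpp
    have h2 : v (p⁻¹ * q) = v (p'⁻¹ * q) := hpp
    rw [map_mul, map_mul, map_inv₀, map_inv₀] at h2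
    have hq0 : v q ≠ 0 := (Valuation.ne_zero_iff v).2 (hP'0 q hq)
    have h3 := mul_right_cancel₀ hq0 h2
    exact hinj (mem_filter.1 hp).1 (mem_filter.1 hp').1 (inv_injective h3)
  apply popV hε hε1 v A A (2 * K) (by linarith) (by linarith) R
  · intro r hr
    obtain ⟨p, hp, rfl⟩ := mem_image.1 hr
    exact mul_ne_zero (inv_ne_zero (hP'0 p (mem_filter.1 hp).1)) (hP'0 q hq)
  · intro r hr
    obtain ⟨p, hp, rfl⟩ := mem_image.1 hr
    exact (mem_filter.1 hp).2
  · rw [hRc]
    have h1 : 4 * Real.exp (12 / ε) * K ^ 2 * Real.log (A.card : ℝ) < 2 * K * G.card :=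
      lt_of_lt_of_le hv hG
    have h2 : 2 * K * (Real.exp (12 / ε) * (2 * K) * Real.log (A.card : ℝ)) < 2 * K * G.card := by
      have : 2 * K * (Real.exp (12 / ε) * (2 * K) * Real.log (A.card : ℝ)) =
        4 * Real.exp (12 / ε) * K ^ 2 * Real.log (A.card : ℝ) := by ring
      rw [this]
      exact h1
    exact lt_of_mul_lt_mul_left h2 (by linarith)
  · exact hB

end Pool.Agent.H85.AK
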