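import Pool.Agent.H85.AK.Pop4

/-!
One almost symmetry.
-/

set_option autoImplicit false

namespace Pool.Agent.H85.AK

open Finset
open scoped Pointwise

section
variable {F V : Type*} [Field F] [AddCommGroup V] [Module F V] [DecidableEq V]

/-- the elements leaving `A` -/
theorem card_leave (A : Finset V) {r : F} (hr : r ≠ 0) :
    (A ∪ A.image fun a => r • a).card = A.card + (A.filter fun a => r • a ∉ A).card := by
  have h1 : A ∪ A.image (fun a => r • a) =
      A ∪ (A.filter fun a => r • a ∉ A).image fun a => r • a := by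
    ext x
    simp only [mem_union, mem_image, mem_filter]
    constructor
    · rintro (h | ⟨a, ha, rfl⟩)
      · exact Or.inl h
      · by_cases h2 : r • a ∈ A
        · exact Or.inl h2
        · exact Or.inr ⟨a, ⟨ha, h2⟩, rfl⟩
    · rintro (h | ⟨a, ⟨ha, _⟩, rfl⟩)
      · exact Or.inl h
      · exact Or.inr ⟨a, ha, rfl⟩
  rw [h1, card_union_of_disjoint, card_image_of_injective _ (MulAction.injective₀ hr)]
  rw [disjoint_left]
  intro x hx hx2
  obtain ⟨a, ha, rfl⟩ := mem_image.1 hx2
  exact (mem_filter.1 ha).2 hx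

/-- powers of an almost symmetry -/
theorem card_leave_pow (A : Finset V) {r : F} (hr : r ≠ 0) (i : ℕ) :
    (A.filter fun a => r ^ i • a ∉ A).card ≤ i * (A.filter fun a => r • a ∉ A).card := by
  induction i with
  | zero =>
    have : (A.filter fun a => r ^ 0 • a ∉ A) = ∅ := by
      apply filter_false_of_mem
      intro a ha
      rw [pow_zero, one_smul]
      exact not_not.2 ha
    rw [this]
    simp
  | succ i ih =>
    have h1 : (A.filter fun a => r ^ (i + 1) • a ∉ A) ⊆
        (A.filter fun a => r ^ i • a ∉ A) ∪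
        (A.filter fun a => r ^ i • a ∈ A.filter fun b => r • b ∉ A) := by
      intro a ha
      obtain ⟨h2, h3⟩ := mem_filter.1 ha
      rw [mem_union, mem_filter, mem_filter]
      by_cases h4 : r ^ i • a ∈ A
      · refine Or.inr ⟨h2, mem_filter.2 ⟨h4, ?_⟩⟩
        rw [smul_smul, ← pow_succ']
        exact h3
      · exact Or.inl ⟨h2, h4⟩
    have h2 : (A.filter fun a => r ^ i • a ∈ A.filter fun b => r • b ∉ A).card ≤
        (A.filter fun b => r • b ∉ A).card := by
      apply card_le_card_of_injOn (fun a => r ^ i • a)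
      · intro a ha
        exact (mem_filter.1 ha).2
      · intro a _ b _ h
        exact MulAction.injective₀ (pow_ne_zero i hr) h
    refine (card_le_card h1).trans ((card_union_le _ _).trans ?_)
    calc _ ≤ i * (A.filter fun a => r • a ∉ A).card + (A.filter fun a => r • a ∉ A).card :=
          Nat.add_le_add ih h2
      _ = (i + 1) * (A.filter fun a => r • a ∉ A).card := by ring

/-- some element leaves -/
theorem leave_pos (v : Valuation F (WithZero (Multiplicative ℤ))) (A : Finset V)
    (hA : 2 ≤ A.card) {r : F} (hr : r ≠ 0) (hv : v r ≠ 1) :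
    0 < (A.filter fun a => r • a ∉ A).card := by
  by_contra hcon
  have h0 : (A.filter fun a => r • a ∉ A).card = 0 := by omega
  -- a nonzero element
  obtain ⟨a, ha, ha0⟩ : ∃ a ∈ A, a ≠ 0 := by
    by_contra h
    push Not at h
    have h1 : A ⊆ {0} := fun a ha => mem_singleton.2 (h a ha)
    have h2 := card_le_card h1
    rw [card_singleton] at h2
    omega
  have hall : ∀ i : ℕ, r ^ i • a ∈ A := by
    intro i
    have h1 := card_leave_pow A hr i
    rw [h0, mul_zero, Nat.le_zero, card_eq_zero] at h1
    by_contra h2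
    have h3 : a ∈ A.filter fun a => r ^ i • a ∉ A := mem_filter.2 ⟨ha, h2⟩
    rw [h1] at h3
    exact absurd h3 (notMem_empty _)
  have hinj : Function.Injective fun i : ℕ => r ^ i • a := by
    intro i j hij
    have h1 : r ^ i = r ^ j := smul_left_injective F ha0 hij
    have hv0 : v r ≠ 0 := (Valuation.ne_zero_iff v).2 hr
    have h2 := congrArg (fun x => WithZero.log (v x)) h1
    simp only [map_pow, WithZero.log_pow] at h2
    have h3 : WithZero.log (v r) ≠ 0 := by
      intro h4
      apply hv
      rw [← WithZero.exp_log hv0, h4, WithZero.exp_zero]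
    have h4 : (i : ℤ) * WithZero.log (v r) = (j : ℤ) * WithZero.log (v r) := by simpa using h2
    have h5 := mul_right_cancel₀ h3 h4
    exact_mod_cast h5
  have hinf := Set.infinite_of_injective_forall_mem (s := (A : Set V)) hinj (fun i => hall i)
  exact hinf (finite_toSet A)

/-- **one almost symmetry** -/
theorem onesym {ε : ℝ} (hε : 0 < ε) (hε1 : ε ≤ 1)
    (v : Valuation F (WithZero (Multiplicative ℤ))) (A : Finset V)
    (hA : 2 ≤ A.card) {r : F} (hr : r ≠ 0) (hv : v r ≠ 1)
    (h : Real.log (A.card : ℝ) * (((A ∪ A.image fun a => r • a).card : ℝ) - A.card) ≤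
      Real.exp (-(23 / ε)) * A.card)
    (B : Finset V) (hB : B.Nonempty) :
    ((A.card : ℝ) * B.card) ^ (1 - ε) < ((A + B).card : ℝ) := by
  classical
  set m : ℕ := (A.filter fun a => r • a ∉ A).card with hm
  have hm0 : 0 < m := leave_pos v A hA hr hv
  rw [card_leave A hr] at h
  push_cast at h
  rw [← hm] at h
  have h0 : Real.log (A.card : ℝ) * m ≤ Real.exp (-(23 / ε)) * A.card := by linarith
  have hA2 : (2 : ℝ) ≤ A.card := by exact_mod_cast hA
  set n : ℝ := (A.card : ℝ) with hn
  set s : ℝ := Real.log n with hs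
  have hs2 : Real.log 2 ≤ s := Real.log_le_log (by norm_num) hA2
  have hl2 := Real.log_two_gt_d9
  have hs0 : 0 < s := by linarith
  have hm1 : (1 : ℝ) ≤ m := by exact_mod_cast hm0
  have hn0 : 0 < n := by linarith
  set t : ℝ := 1 / ε with ht
  have ht1 : 1 ≤ t := by
    rw [ht, le_div_iff₀ hε]
    linarith
  have e23 : 23 / ε = 23 * t := by
    rw [ht]
    ring
  have e12 : 12 / ε = 12 * t := by
    rw [ht]
    ring
  rw [e23, Real.exp_neg] at h0
  have hE : 0 < Real.exp (23 * t) := Real.exp_pos _
  -- n is large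
  have h1 : Real.exp (23 * t) * (s * m) ≤ n := by
    have h2 := mul_le_mul_of_nonneg_left h0 hE.le
    rw [← mul_assoc (Real.exp (23 * t)) (Real.exp (23 * t))⁻¹, mul_inv_cancel₀ hE.ne', one_mul] at h2
    exact h2
  have h2 : Real.exp (23 * t) * s ≤ n := by
    refine le_trans (mul_le_mul_of_nonneg_left ?_ hE.le) h1
    nlinarith
  have hs1 : 1 ≤ s := by
    by_contra hs1
    push Not at hs1
    have h3 : 23 * t + 1 ≤ Real.exp (23 * t) := Real.add_one_le_exp _
    have h4 : (24 : ℝ) * (1 / 2) ≤ Real.exp (23 * t) * s :=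
      mul_le_mul (by linarith) (by linarith) (by norm_num) hE.le
    have h5 : Real.log 12 ≤ s := Real.log_le_log (by norm_num) (by linarith)
    have h6 : (1 : ℝ) ≤ Real.log 12 := by
      rw [← Real.log_exp 1]
      apply Real.log_le_log (Real.exp_pos _)
      have := Real.exp_one_lt_d9
      linarith
    linarith
  have h3 : Real.exp (23 * t) ≤ n := by nlinarith
  have hsize : 8 * 2 ≤ n ^ (ε / 8) := by
    have h4 : (Real.exp (23 * t)) ^ (ε / 8) ≤ n ^ (ε / 8) :=
      Real.rpow_le_rpow hE.le h3 (by positivity)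
    rw [← Real.exp_mul] at h4
    have h5 : 23 * t * (ε / 8) = 23 / 8 := by
      rw [ht]
      field_simp
    rw [h5] at h4
    have h6 : (16 : ℝ) ≤ Real.exp (23 / 8) := by
      have h7 : Real.exp (23 / 8) = Real.exp 1 ^ 2 * Real.exp (7 / 8) := by
        rw [← Real.exp_nat_mul, ← Real.exp_add]
        norm_num
      have h8 := Real.exp_one_gt_d9
      have h9 : 1 + 7 / 8 + (7 / 8) ^ 2 / 2 ≤ Real.exp (7 / 8) :=
        Real.quadratic_le_exp_of_nonneg (by norm_num)
      rw [h7]
      have h10 : (7.389 : ℝ) ≤ Real.exp 1 ^ 2 := by nlinarith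
      nlinarith
    linarith
  -- the powers
  set I : ℕ := ⌊n / (2 * m)⌋₊ with hI
  have hI1 : n / (2 * m) < I + 1 := Nat.lt_floor_add_one _
  have hI2 : (I : ℝ) ≤ n / (2 * m) := Nat.floor_le (by positivity)
  set R : Finset F := (range (I + 1)).image fun i => r ^ i with hR
  have hRc : (v '' (R : Set F)).ncard = I + 1 := by
    have h4 : v '' (R : Set F) = (fun i : ℕ => v (r ^ i)) '' ((range (I + 1) : Finset ℕ) : Set ℕ) := by
      rw [hR, coe_image, Set.image_image]
    rw [h4, Set.InjOn.ncard_image, Set.ncard_coe_finset, card_range]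
    intro i _ j _ hij
    have hv0 : v r ≠ 0 := (Valuation.ne_zero_iff v).2 hr
    have h5 := congrArg WithZero.log (show v (r ^ i) = v (r ^ j) from hij)
    simp only [map_pow, WithZero.log_pow] at h5
    have h6 : WithZero.log (v r) ≠ 0 := by
      intro h7
      apply hv
      rw [← WithZero.exp_log hv0, h7, WithZero.exp_zero]
    have h7 : (i : ℤ) * WithZero.log (v r) = (j : ℤ) * WithZero.log (v r) := by simpa using h5
    have h8 := mul_right_cancel₀ h6 h7
    exact_mod_cast h8
  refine popV hε hε1 v A A 2 (by norm_num) hsize R ?_ ?_ ?_ B hB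
  · intro x hx
    obtain ⟨i, _, rfl⟩ := mem_image.1 hx
    exact pow_ne_zero i hr
  · intro x hx
    obtain ⟨i, hi, rfl⟩ := mem_image.1 hx
    have h4 := card_leave_pow A hr i
    rw [← hm] at h4
    have h5 : (i : ℝ) ≤ I := by exact_mod_cast Nat.lt_succ_iff.1 (mem_range.1 hi)
    have h6 : ((A.filter fun a => r ^ i • a ∉ A).card : ℝ) ≤ i * m := by exact_mod_cast h4
    have h7 : ((A.filter fun a => r ^ i • a ∈ A).card : ℝ) +
        ((A.filter fun a => r ^ i • a ∉ A).card : ℝ) = A.card := by
      exact_mod_cast card_filter_add_card_filter_not (s := A) (fun a => r ^ i • a ∈ A)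
    have h8 : (i : ℝ) * m ≤ n / 2 := by
      have h9 : (i : ℝ) * m ≤ n / (2 * m) * m :=
        mul_le_mul_of_nonneg_right (h5.trans hI2) (by linarith)
      have h10 : n / (2 * m) * m = n / 2 := by
        field_simp
      linarith
    linarith
  · rw [hRc, ← hn, ← hs, e12]
    push_cast
    refine lt_of_le_of_lt ?_ hI1
    rw [le_div_iff₀ (by positivity)]
    have h4 : Real.exp (12 * t) * 4 ≤ Real.exp (23 * t) := by
      have h5 : Real.exp (23 * t) = Real.exp (12 * t) * Real.exp (11 * t) := by
        rw [← Real.exp_add]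
        congr 1
        ring
      rw [h5]
      apply mul_le_mul_of_nonneg_left _ (Real.exp_pos _).le
      have := Real.add_one_le_exp (11 * t)
      linarith
    calc Real.exp (12 * t) * 2 * s * (2 * m) = (Real.exp (12 * t) * 4) * (s * m) := by ring
      _ ≤ Real.exp (23 * t) * (s * m) := mul_le_mul_of_nonneg_right h4 (by positivity)
      _ ≤ n := h1

end

end Pool.Agent.H85.AK
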