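import Pool.Agent.H85.AK.Pop5

/-!
Rational ratios composed of given primes.
-/

set_option autoImplicit false

namespace Pool.Agent.H85.AK

open Finset
open scoped Pointwise

/-- a set of rational numbers composed of the primes in `T` -/
theorem sunit_prod (T : Finset ℕ) (R : Finset ℚ) (hR0 : ∀ r ∈ R, r ≠ 0)
    (hRT : ∀ r ∈ R, ∀ p : ℕ, p.Prime → p ∉ T → padicValRat p r = 0) :
    R.card ≤ 2 * ∏ p ∈ T, (R.image (padicValRat p)).card := by
  classical
  set Φ : ℚ → Bool × ((p : ℕ) → p ∈ T → ℤ) := fun r => (decide (0 < r), fun p _ => padicValRat p r)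
    with hΦ
  have hinj : Set.InjOn Φ (R : Set ℚ) := by
    intro r hr r' hr' heq
    have hr0 := hR0 r hr
    have hr0' := hR0 r' hr'
    simp only [hΦ, Prod.mk.injEq, decide_eq_decide] at heq
    obtain ⟨h1, h2⟩ := heq
    have h3 : r / r' = 1 ∨ r / r' = -1 := by
      apply rat_unit (div_ne_zero hr0 hr0')
      intro p hp
      have : Fact p.Prime := ⟨hp⟩
      rw [padicValRat.div hr0 hr0']
      by_cases hpT : p ∈ T
      · have := congrFun (congrFun h2 p) hpT
        rw [this, sub_self]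
      · rw [hRT r hr p hp hpT, hRT r' hr' p hp hpT, sub_self]
    rcases h3 with h3 | h3
    · exact (div_eq_one_iff_eq hr0').1 h3
    · exfalso
      have h4 : r = -r' := by
        field_simp at h3
        exact h3
      rcases lt_or_gt_of_ne hr0' with h5 | h5
      · have h6 : 0 < r := by linarith
        exact absurd (h1.1 h6) (not_lt.2 h5.le)
      · have h6 : 0 < r := h1.2 h5
        linarith
  have hmaps : R.image Φ ⊆ (univ : Finset Bool) ×ˢ T.pi fun p => R.image (padicValRat p) := by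
    intro w hw
    obtain ⟨r, hr, rfl⟩ := mem_image.1 hw
    refine mem_product.2 ⟨mem_univ _, mem_pi.2 fun p hp => mem_image_of_mem _ hr⟩
  have h2 := card_le_card hmaps
  rw [card_image_of_injOn hinj, card_product, card_pi] at h2
  simpa using h2

/-- the values of the `p`-adic valuation -/
theorem padic_ncard (p : ℕ) [Fact p.Prime] (R : Finset ℚ) (hR0 : ∀ r ∈ R, r ≠ 0) :
    (R.image (padicValRat p)).card ≤ (Rat.padicValuation p '' (R : Set ℚ)).ncard := by
  classical
  have h1 : ((R.image (padicValRat p) : Finset ℤ) : Set ℤ) ⊆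
      (fun w => -WithZero.log w) '' (Rat.padicValuation p '' (R : Set ℚ)) := by
    intro w hw
    obtain ⟨r, hr, rfl⟩ := mem_image.1 hw
    refine ⟨_, ⟨r, hr, rfl⟩, ?_⟩
    have : Rat.padicValuation p r = WithZero.exp (-padicValRat p r) := by
      simp [Rat.padicValuation, hR0 r hr]
    show -WithZero.log (Rat.padicValuation p r) = padicValRat p r
    rw [this, WithZero.log_exp, neg_neg]
  have hfin : (Rat.padicValuation p '' (R : Set ℚ)).Finite := (finite_toSet R).image _
  have h2 := Set.ncard_le_ncard h1 (hfin.image _)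
  rw [Set.ncard_coe_finset] at h2
  exact h2.trans (Set.ncard_image_le hfin)

/-- **popular ratios with prescribed prime divisors** -/
theorem popT {ε : ℝ} (hε : 0 < ε) (hε1 : ε ≤ 1) {V : Type*} [AddCommGroup V]
    [Module ℚ V] [DecidableEq V] (T : Finset ℕ) (hT : ∀ p ∈ T, p.Prime)
    (A B C : Finset V) (K : ℝ) (hK : 1 ≤ K) (hB : B.Nonempty)
    (hKC : 8 * K ≤ (C.card : ℝ) ^ (ε / 8))
    (hAB : ((A + B).card : ℝ) ≤ ((C.card : ℝ) * B.card) ^ (1 - ε))
    (R : Finset ℚ) (hR0 : ∀ r ∈ R, r ≠ 0)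
    (hRT : ∀ r ∈ R, ∀ p : ℕ, p.Prime → p ∉ T → padicValRat p r = 0)
    (hR : ∀ r ∈ R, (C.card : ℝ) ≤ K * ((C.filter fun c => r • c ∈ A).card : ℝ)) :
    (R.card : ℝ) ≤ 2 * (Real.exp (12 / ε) * K * Real.log (C.card : ℝ)) ^ T.card := by
  have h1 := sunit_prod T R hR0 hRT
  have h2 : (R.card : ℝ) ≤ 2 * ∏ p ∈ T, ((R.image (padicValRat p)).card : ℝ) := by
    exact_mod_cast h1
  refine h2.trans ?_
  rw [← prod_const]
  have h3 : ∏ p ∈ T, ((R.image (padicValRat p)).card : ℝ) ≤
      ∏ _p ∈ T, Real.exp (12 / ε) * K * Real.log (C.card : ℝ) := by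
    apply prod_le_prod
    · intro p _
      positivity
    · intro p hp
      have : Fact p.Prime := ⟨hT p hp⟩
      have h4 : ((R.image (padicValRat p)).card : ℝ) ≤
          ((Rat.padicValuation p '' (R : Set ℚ)).ncard : ℝ) :=
        Nat.cast_le.2 (padic_ncard p R hR0)
      refine h4.trans ?_
      by_contra hcon
      push Not at hcon
      exact absurd (popV hε hε1 (Rat.padicValuation p) A C K hK hKC R hR0 hR hcon B hB)
        (not_lt.2 hAB)
  linarith

/-- **one rational almost symmetry** -/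
theorem onesym_rat {ε : ℝ} (hε : 0 < ε) (hε1 : ε ≤ 1) {V : Type*} [AddCommGroup V]
    [Module ℚ V] [DecidableEq V] (A : Finset V) (hA : 2 ≤ A.card) {r : ℚ} (hr : r ≠ 0)
    (hr1 : r ≠ 1) (hr2 : r ≠ -1)
    (h : Real.log (A.card : ℝ) * (((A ∪ A.image fun a => r • a).card : ℝ) - A.card) ≤
      Real.exp (-(23 / ε)) * A.card)
    (B : Finset V) (hB : B.Nonempty) :
    ((A.card : ℝ) * B.card) ^ (1 - ε) < ((A + B).card : ℝ) := by
  obtain ⟨p, hp, hpr⟩ : ∃ p : ℕ, p.Prime ∧ padicValRat p r ≠ 0 := by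
    by_contra hcon
    push Not at hcon
    rcases rat_unit hr hcon with h1 | h1
    · exact hr1 h1
    · exact hr2 h1
  have : Fact p.Prime := ⟨hp⟩
  apply onesym hε hε1 (Rat.padicValuation p) A hA hr _ h B hB
  intro h1
  have h2 : Rat.padicValuation p r = WithZero.exp (-padicValRat p r) := by
    simp [Rat.padicValuation, hr]
  rw [h2] at h1
  have h3 := congrArg WithZero.log h1
  rw [WithZero.log_exp, WithZero.log_one] at h3
  omega

end Pool.Agent.H85.AK
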