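import Pool.Agent.H85.AK.Pop6

/-!
Sums along dense sets of pairs.
-/

set_option autoImplicit false

namespace Pool.Agent.H85.AK

open Finset
open scoped Pointwise

/-- **sums along a set of pairs with many symmetries**, in a field -/
theorem popG0 {ε : ℝ} (hε : 0 < ε) (hε1 : ε ≤ 1) {F : Type*} [Field F] [DecidableEq F]
    (v : Valuation F (WithZero (Multiplicative ℤ))) (C B : Finset F) (G : Finset (F × F))
    (K : ℝ) (hK : 1 ≤ K)
    (hKC : 8 * K ≤ (C.card : ℝ) ^ (ε / 8)) (hB : B.Nonempty) (R : Finset F)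
    (hR0 : ∀ r ∈ R, r ≠ 0)
    (hR : ∀ r ∈ R, (C.card : ℝ) * B.card ≤
      K * (((C ×ˢ B).filter fun s => (r * s.1, s.2) ∈ G).card : ℝ))
    (hv : Real.exp (12 / ε) * K * Real.log (C.card : ℝ) < ((v '' (R : Set F)).ncard : ℝ)) :
    ((C.card : ℝ) * B.card) ^ (1 - ε) < ((G.image fun s => s.1 + s.2).card : ℝ) := by
  by_contra hcon
  push Not at hcon
  -- the cardinality of C
  have hC2 : (2 : ℝ) ≤ C.card := by
    by_contra h
    push Not at h
    have h1 : C.card ≤ 1 := by
      have : C.card < 2 := by exact_mod_cast h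
      omega
    have h2 : (C.card : ℝ) ^ (ε / 8) ≤ 1 :=
      Real.rpow_le_one (Nat.cast_nonneg _) (by exact_mod_cast h1) (by positivity)
    linarith
  have hC0 : (0 : ℝ) < C.card := by linarith
  have hB1 : (1 : ℝ) ≤ B.card := by exact_mod_cast card_pos.2 hB
  have hlogC : 0 < Real.log (C.card : ℝ) := Real.log_pos (by linarith)
  have hRne : R.Nonempty := by
    by_contra hR1
    rw [not_nonempty_iff_eq_empty] at hR1
    rw [hR1, coe_empty, Set.image_empty, Set.ncard_empty, Nat.cast_zero] at hv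
    have : 0 ≤ Real.exp (12 / ε) * K * Real.log (C.card : ℝ) := by positivity
    linarith
  obtain ⟨r0, hr0⟩ := hRne
  set D : Finset F := G.image fun s => s.1 + s.2 with hD
  -- the number of sums is at least |B| / K
  have hBD : (B.card : ℝ) ≤ K * D.card := by
    have h1 : ((C ×ˢ B).filter fun s => (r0 * s.1, s.2) ∈ G).card ≤ C.card * D.card := by
      have h2 : ((C ×ˢ B).filter fun s => (r0 * s.1, s.2) ∈ G).card ≤ (C ×ˢ D).card := by
        apply card_le_card_of_injOn (fun s => (s.1, r0 * s.1 + s.2))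
        · intro s hs
          obtain ⟨h3, h4⟩ := mem_filter.1 hs
          exact mem_product.2 ⟨(mem_product.1 h3).1, mem_image.2 ⟨_, h4, rfl⟩⟩
        · intro s _ s' _ h
          obtain ⟨h5, h6⟩ := Prod.ext_iff.1 h
          simp only at h5 h6
          rw [h5] at h6
          exact Prod.ext h5 (add_left_cancel h6)
      rwa [card_product] at h2
    have h2 : (C.card : ℝ) * B.card ≤ K * (C.card * D.card) := by
      refine (hR r0 hr0).trans (mul_le_mul_of_nonneg_left ?_ (by linarith))
      exact_mod_cast h1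
    have h3 : (C.card : ℝ) * B.card ≤ C.card * (K * D.card) := by linarith
    exact le_of_mul_le_mul_left h3 hC0
  have hlog : Real.log ((C.card : ℝ) * B.card) ≤ 9 / 8 * (1 / ε) * Real.log (C.card : ℝ) := by
    have h1 : (B.card : ℝ) ≤ (C.card : ℝ) ^ (ε / 8) * ((C.card : ℝ) * B.card) ^ (1 - ε) := by
      refine hBD.trans (mul_le_mul (by linarith) hcon (Nat.cast_nonneg _) (by positivity))
    have h2 : Real.log (B.card : ℝ) ≤ ε / 8 * Real.log (C.card : ℝ) +
        (1 - ε) * Real.log ((C.card : ℝ) * B.card) := by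
      have h3 := Real.log_le_log (by linarith) h1
      rw [Real.log_mul (by positivity) (by positivity), Real.log_rpow hC0,
        Real.log_rpow (by positivity)] at h3
      exact h3
    have h3 : Real.log ((C.card : ℝ) * B.card) = Real.log (C.card : ℝ) + Real.log (B.card : ℝ) :=
      Real.log_mul hC0.ne' (by linarith)
    have h4 : ε * Real.log ((C.card : ℝ) * B.card) ≤ 9 / 8 * Real.log (C.card : ℝ) := by
      have h5 : ε / 8 * Real.log (C.card : ℝ) ≤ 1 / 8 * Real.log (C.card : ℝ) :=
        mul_le_mul_of_nonneg_right (by linarith) hlogC.le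
      linarith
    have h5 : 9 / 8 * (1 / ε) * Real.log (C.card : ℝ) = 9 / 8 * Real.log (C.card : ℝ) / ε := by
      ring
    rw [h5, le_div_iff₀ hε]
    linarith
  -- the set of pairs
  set P : Finset (F × F) := B ×ˢ C with hP
  have hPc : (P.card : ℝ) = (C.card : ℝ) * B.card := by
    rw [hP, card_product]
    push_cast
    ring
  have hCP : (C.card : ℝ) ≤ P.card := by
    rw [hPc]
    nlinarith
  have hP2 : 2 ≤ P.card := by
    have : (2 : ℝ) ≤ P.card := by linarith
    exact_mod_cast this
  have key := val_rob' hε hε1 v P hP2 K hK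
    (hKC.trans (Real.rpow_le_rpow (Nat.cast_nonneg _) hCP (by positivity))) R hR0
    (fun r => P.filter fun s => (r * s.2, s.1) ∈ G) ?_ ?_ ?_
  · rw [hPc] at key
    have h1 : Real.exp (11 / ε) * K * Real.log ((C.card : ℝ) * B.card) ≤
        Real.exp (12 / ε) * K * Real.log (C.card : ℝ) := by
      have h2 : Real.exp (11 / ε) * K * Real.log ((C.card : ℝ) * B.card) ≤
          Real.exp (11 / ε) * K * (9 / 8 * (1 / ε) * Real.log (C.card : ℝ)) :=
        mul_le_mul_of_nonneg_left hlog (by positivity)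
      have h3 : 9 / 8 * (1 / ε) ≤ Real.exp (1 / ε) := by
        have ht : 1 ≤ 1 / ε := by
          rw [le_div_iff₀ hε]
          linarith
        have h4 := Real.quadratic_le_exp_of_nonneg (show 0 ≤ 1 / ε by positivity)
        nlinarith
      have h4 : Real.exp (12 / ε) = Real.exp (11 / ε) * Real.exp (1 / ε) := by
        rw [← Real.exp_add]
        congr 1
        ring
      rw [h4]
      have h5 : Real.exp (11 / ε) * K * (9 / 8 * (1 / ε) * Real.log (C.card : ℝ)) =
          (Real.exp (11 / ε) * K * Real.log (C.card : ℝ)) * (9 / 8 * (1 / ε)) := by ring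
      have h6 : Real.exp (11 / ε) * Real.exp (1 / ε) * K * Real.log (C.card : ℝ) =
          (Real.exp (11 / ε) * K * Real.log (C.card : ℝ)) * Real.exp (1 / ε) := by ring
      rw [h6]
      rw [h5] at h2
      exact h2.trans (mul_le_mul_of_nonneg_left h3 (by positivity))
    exact absurd (key.trans h1) (not_le.2 hv)
  · intro r _
    exact filter_subset _ _
  · intro r hr
    rw [hPc]
    refine (hR r hr).trans (mul_le_mul_of_nonneg_left (Nat.cast_le.2 ?_) (by linarith))
    apply card_le_card_of_injOn (fun s => (s.2, s.1))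
    · intro s hs
      obtain ⟨h3, h4⟩ := mem_filter.1 hs
      obtain ⟨h5, h6⟩ := mem_product.1 h3
      exact mem_filter.2 ⟨mem_product.2 ⟨h6, h5⟩, h4⟩
    · intro s _ s' _ h
      obtain ⟨h5, h6⟩ := Prod.ext_iff.1 h
      exact Prod.ext h6 h5
  · intro r _
    rw [hPc, ← Finset.coe_image, Set.ncard_coe_finset]
    refine le_trans (Nat.cast_le.2 (card_le_card ?_)) hcon
    intro w hw
    obtain ⟨⟨b, c⟩, hbc, rfl⟩ := mem_image.1 hw
    refine mem_image.2 ⟨(r * c, b), (mem_filter.1 hbc).2, ?_⟩
    exact add_comm _ _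

/-- **sums along a set of pairs with many symmetries**, in vector spaces -/
theorem popG {ε : ℝ} (hε : 0 < ε) (hε1 : ε ≤ 1) {F V : Type*} [Field F] [AddCommGroup V]
    [Module F V] [DecidableEq V]
    (v : Valuation F (WithZero (Multiplicative ℤ))) (C B : Finset V) (G : Finset (V × V))
    (K : ℝ) (hK : 1 ≤ K)
    (hKC : 8 * K ≤ (C.card : ℝ) ^ (ε / 8)) (hB : B.Nonempty) (R : Finset F)
    (hR0 : ∀ r ∈ R, r ≠ 0)
    (hR : ∀ r ∈ R, (C.card : ℝ) * B.card ≤
      K * (((C ×ˢ B).filter fun s => (r • s.1, s.2) ∈ G).card : ℝ))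
    (hv : Real.exp (12 / ε) * K * Real.log (C.card : ℝ) < ((v '' (R : Set F)).ncard : ℝ)) :
    ((C.card : ℝ) * B.card) ^ (1 - ε) < ((G.image fun s => s.1 + s.2).card : ℝ) := by
  classical
  -- the cardinality of C
  have hC2 : (2 : ℝ) ≤ C.card := by
    by_contra h
    push Not at h
    have h1 : C.card ≤ 1 := by
      have : C.card < 2 := by exact_mod_cast h
      omega
    have h2 : (C.card : ℝ) ^ (ε / 8) ≤ 1 :=
      Real.rpow_le_one (Nat.cast_nonneg _) (by exact_mod_cast h1) (by positivity)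
    linarith
  have hinf : Infinite F := by
    apply infinite_of_val v hR0
    have h1 : (1 : ℝ) < ((v '' (R : Set F)).ncard : ℝ) := by
      refine lt_of_le_of_lt ?_ hv
      have h2 : Real.log 2 ≤ Real.log (C.card : ℝ) := Real.log_le_log (by norm_num) hC2
      have h3 := Real.log_two_gt_d9
      have h4 : 12 / ε + 1 ≤ Real.exp (12 / ε) := Real.add_one_le_exp _
      have h5 : (12 : ℝ) ≤ 12 / ε := by
        rw [le_div_iff₀ hε]
        linarith
      have h6 : (13 : ℝ) * 1 ≤ Real.exp (12 / ε) * K :=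
        mul_le_mul (by linarith) hK (by norm_num) (by positivity)
      have h7 : (13 : ℝ) * 1 * (1 / 2) ≤ Real.exp (12 / ε) * K * Real.log (C.card : ℝ) :=
        mul_le_mul h6 (by linarith) (by norm_num) (by positivity)
      linarith
    exact_mod_cast h1
  obtain ⟨f, hfC, hfB⟩ := exists_dual_inj (F := F) C B
  have hCc : (C.image f).card = C.card := card_image_of_injOn hfC
  have hBc : (B.image f).card = B.card := card_image_of_injOn hfB
  have key := popG0 hε hε1 v (C.image f) (B.image f) (G.image fun s => (f s.1, f s.2)) K hK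
    (by rw [hCc]; exact hKC) (hB.image f) R hR0 (by
      intro r hr
      rw [hCc, hBc]
      refine (hR r hr).trans (mul_le_mul_of_nonneg_left (Nat.cast_le.2 ?_) (by linarith))
      apply card_le_card_of_injOn (fun s => (f s.1, f s.2))
      · intro s hs
        obtain ⟨h1, h2⟩ := mem_filter.1 hs
        obtain ⟨h3, h4⟩ := mem_product.1 h1
        refine mem_filter.2 ⟨mem_product.2 ⟨mem_image_of_mem _ h3, mem_image_of_mem _ h4⟩, ?_⟩
        refine mem_image.2 ⟨_, h2, ?_⟩
        show (f (r • s.1), f s.2) = (r * f s.1, f s.2)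
        rw [map_smul]
        rfl
      · intro s hs s' hs' h
        obtain ⟨h1, _⟩ := mem_filter.1 hs
        obtain ⟨h3, h4⟩ := mem_product.1 h1
        obtain ⟨h1', _⟩ := mem_filter.1 hs'
        obtain ⟨h3', h4'⟩ := mem_product.1 h1'
        obtain ⟨h5, h6⟩ := Prod.ext_iff.1 h
        exact Prod.ext (hfC h3 h3' h5) (hfB h4 h4' h6))
    (by rw [hCc]; exact hv)
  rw [hCc, hBc] at key
  refine lt_of_lt_of_le key (Nat.cast_le.2 ?_)
  have h1 : ((G.image fun s => (f s.1, f s.2)).image fun s => s.1 + s.2) ⊆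
      (G.image fun s => s.1 + s.2).image f := by
    intro w hw
    obtain ⟨s, hs, rfl⟩ := mem_image.1 hw
    obtain ⟨s', hs', rfl⟩ := mem_image.1 hs
    exact mem_image.2 ⟨s'.1 + s'.2, mem_image_of_mem _ hs', map_add _ _ _⟩
  exact (card_le_card h1).trans card_image_le

/-- **sums along dense sets of pairs**, with a set of almost symmetries -/
theorem popA {ε : ℝ} (hε : 0 < ε) (hε1 : ε ≤ 1) {F V : Type*} [Field F] [AddCommGroup V]
    [Module F V] [DecidableEq V]
    (v : Valuation F (WithZero (Multiplicative ℤ))) (A B : Finset V) (G : Finset (V × V))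
    (K : ℝ) (hK : 1 ≤ K)
    (hKA : 16 * K ≤ (A.card : ℝ) ^ (ε / 8)) (hB : B.Nonempty) (R : Finset F)
    (hR0 : ∀ r ∈ R, r ≠ 0)
    (hR : ∀ r ∈ R, 2 * K * ((A.filter fun a => r • a ∉ A).card : ℝ) ≤ A.card)
    (hG : G ⊆ A ×ˢ B) (hGc : (A.card : ℝ) * B.card ≤ K * G.card)
    (hv : 2 * Real.exp (12 / ε) * K * Real.log (A.card : ℝ) < ((v '' (R : Set F)).ncard : ℝ)) :
    ((A.card : ℝ) * B.card) ^ (1 - ε) < ((G.image fun s => s.1 + s.2).card : ℝ) := by
  refine popG hε hε1 v A B G (2 * K) (by linarith) (by linarith) hB R hR0 ?_ (by linarith)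
  intro r hr
  -- the pairs of G that are not counted
  have h1 : G.card ≤ ((A ×ˢ B).filter fun s => (r • s.1, s.2) ∈ G).card +
      (A.filter fun a => r • a ∉ A).card * B.card := by
    set H : Finset (V × V) := ((A ×ˢ B).filter fun s => (r • s.1, s.2) ∈ G).image
      fun s => (r • s.1, s.2) with hH
    have h2 : G ⊆ H ∪ (A \ (A.image fun a => r • a)) ×ˢ B := by
      intro s hs
      obtain ⟨h3, h4⟩ := mem_product.1 (hG hs)
      by_cases h5 : s.1 ∈ A.image fun a => r • a
      · obtain ⟨a, ha, h6⟩ := mem_image.1 h5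
        refine mem_union_left _ (mem_image.2 ⟨(a, s.2), mem_filter.2 ⟨mem_product.2 ⟨ha, h4⟩, ?_⟩, ?_⟩)
        · show (r • a, s.2) ∈ G
          rw [h6]
          exact hs
        · show (r • a, s.2) = s
          rw [h6]
      · exact mem_union_right _ (mem_product.2 ⟨mem_sdiff.2 ⟨h3, h5⟩, h4⟩)
    have h3 : (A \ (A.image fun a => r • a)).card = (A.filter fun a => r • a ∉ A).card := by
      have h4 := card_sdiff_add_card A (A.image fun a => r • a)
      have h5 := card_leave A (hR0 r hr)
      have h6 : (A.image fun a => r • a).card = A.card :=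
        card_image_of_injective _ (MulAction.injective₀ (hR0 r hr))
      omega
    calc G.card ≤ (H ∪ (A \ (A.image fun a => r • a)) ×ˢ B).card := card_le_card h2
      _ ≤ H.card + ((A \ (A.image fun a => r • a)) ×ˢ B).card := card_union_le _ _
      _ ≤ _ := by
        rw [card_product, h3]
        exact Nat.add_le_add card_image_le le_rfl
  have h2 : (G.card : ℝ) ≤ (((A ×ˢ B).filter fun s => (r • s.1, s.2) ∈ G).card : ℝ) +
      ((A.filter fun a => r • a ∉ A).card : ℝ) * B.card := by exact_mod_cast h1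
  have h3 := mul_le_mul_of_nonneg_right (hR r hr) (Nat.cast_nonneg B.card : (0 : ℝ) ≤ B.card)
  have h4 := mul_le_mul_of_nonneg_left h2 (show 0 ≤ 2 * K by linarith)
  nlinarith

/-- **the number of popular pairs** -/
theorem popPairs {ε : ℝ} (hε : 0 < ε) (hε1 : ε ≤ 1) {F V : Type*} [Field F] [AddCommGroup V]
    [Module F V] [DecidableEq V]
    (v : Valuation F (WithZero (Multiplicative ℤ))) (A B : Finset V)
    (K : ℝ) (hK : 1 ≤ K)
    (hKA : 16 * K ≤ (A.card : ℝ) ^ (ε / 8)) (R : Finset F)
    (hR0 : ∀ r ∈ R, r ≠ 0)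
    (hR : ∀ r ∈ R, 2 * K * ((A.filter fun a => r • a ∉ A).card : ℝ) ≤ A.card)
    (hv : 2 * Real.exp (12 / ε) * K * Real.log (A.card : ℝ) < ((v '' (R : Set F)).ncard : ℝ)) :
    K * (((A ×ˢ B).filter fun s => ((A.card : ℝ) * B.card) ^ ε ≤
      (((A ×ˢ B).filter fun t => t.1 + t.2 = s.1 + s.2).card : ℝ)).card : ℝ) ≤
      (A.card : ℝ) * B.card := by
  classical
  by_contra hcon
  push Not at hcon
  set N : ℝ := (A.card : ℝ) * B.card with hN
  set G : Finset (V × V) := (A ×ˢ B).filter fun s => N ^ ε ≤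
      (((A ×ˢ B).filter fun t => t.1 + t.2 = s.1 + s.2).card : ℝ) with hG
  have hGsub : G ⊆ A ×ˢ B := filter_subset _ _
  have hA : 0 < (A.card : ℝ) := by
    by_contra h
    have h0 : (A.card : ℝ) = 0 := le_antisymm (not_lt.1 h) (Nat.cast_nonneg _)
    rw [h0, Real.zero_rpow (by positivity)] at hKA
    linarith
  have hBne : B.Nonempty := by
    rw [nonempty_iff_ne_empty]
    rintro rfl
    rw [product_empty] at hGsub
    have h1 := subset_empty.1 hGsub
    rw [h1, card_empty, Nat.cast_zero, mul_zero, hN, card_empty, Nat.cast_zero, mul_zero] at hcon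
    exact absurd hcon (lt_irrefl _)
  have hB : 0 < (B.card : ℝ) := by exact_mod_cast card_pos.2 hBne
  have hN0 : 0 < N := mul_pos hA hB
  have h1 := popA hε hε1 v A B G K hK hKA hBne R hR0 hR hGsub hcon.le hv
  rw [← hN] at h1
  -- every sum has many representations
  set D : Finset V := G.image fun s => s.1 + s.2 with hD
  have h2 : (D.card : ℝ) * N ^ ε ≤ N := by
    have h3 : ∑ d ∈ D, ((A ×ˢ B).filter fun t => t.1 + t.2 = d).card ≤ (A ×ˢ B).card := by
      rw [sum_card_fiberwise_eq_card_filter]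
      exact card_filter_le _ _
    have h4 : ∑ d ∈ D, N ^ ε ≤ ∑ d ∈ D, (((A ×ˢ B).filter fun t => t.1 + t.2 = d).card : ℝ) := by
      apply sum_le_sum
      intro d hd
      obtain ⟨s, hs, rfl⟩ := mem_image.1 hd
      exact (mem_filter.1 hs).2
    rw [sum_const, nsmul_eq_mul] at h4
    refine h4.trans ?_
    have h5 : (∑ d ∈ D, (((A ×ˢ B).filter fun t => t.1 + t.2 = d).card : ℝ)) ≤
        ((A ×ˢ B).card : ℝ) := by exact_mod_cast h3
    refine h5.trans ?_
    rw [card_product]
    push_cast
    exact le_rfl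
  have h3 : N ^ (1 - ε) * N ^ ε = N := by
    rw [← Real.rpow_add hN0]
    rw [sub_add_cancel, Real.rpow_one]
  have h4 : N ^ (1 - ε) * N ^ ε < D.card * N ^ ε :=
    mul_lt_mul_of_pos_right h1 (by positivity)
  linarith

end Pool.Agent.H85.AK
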