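import Pool.Agent.H85.AK.Pop7

/-!
One almost symmetry: the number of popular pairs, the additive energy.
-/

set_option autoImplicit false

namespace Pool.Agent.H85.AK

open Finset
open scoped Pointwise

section
variable {F V : Type*} [Field F] [AddCommGroup V] [Module F V] [DecidableEq V]

/-- **one almost symmetry**, popular pairs -/
theorem onePairs {ε : ℝ} (hε : 0 < ε) (hε1 : ε ≤ 1)
    (v : Valuation F (WithZero (Multiplicative ℤ))) (A B : Finset V)
    (K : ℝ) (hK : 1 ≤ K) (hKA : 16 * K ≤ (A.card : ℝ) ^ (ε / 8))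
    {r : F} (hr : r ≠ 0) (hv : v r ≠ 1)
    (h : K ^ 2 * Real.log (A.card : ℝ) * (((A ∪ A.image fun a => r • a).card : ℝ) - A.card) ≤
      Real.exp (-(14 / ε)) * A.card) :
    K * (((A ×ˢ B).filter fun s => ((A.card : ℝ) * B.card) ^ ε ≤
      (((A ×ˢ B).filter fun t => t.1 + t.2 = s.1 + s.2).card : ℝ)).card : ℝ) ≤
      (A.card : ℝ) * B.card := by
  classical
  -- the cardinality of A
  have hA2' : (2 : ℝ) ≤ A.card := by
    by_contra h
    push Not at h
    have h1 : A.card ≤ 1 := by
      have : A.card < 2 := by exact_mod_cast h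
      omega
    have h2 : (A.card : ℝ) ^ (ε / 8) ≤ 1 :=
      Real.rpow_le_one (Nat.cast_nonneg _) (by exact_mod_cast h1) (by positivity)
    linarith
  have hA : 2 ≤ A.card := by exact_mod_cast hA2'
  set m : ℕ := (A.filter fun a => r • a ∉ A).card with hm
  have hm0 : 0 < m := leave_pos v A hA hr hv
  rw [card_leave A hr] at h
  push_cast at h
  rw [← hm] at h
  have h0 : K ^ 2 * Real.log (A.card : ℝ) * m ≤ Real.exp (-(14 / ε)) * A.card := by
    have : K ^ 2 * Real.log (A.card : ℝ) * ((A.card : ℝ) + m - A.card) =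
      K ^ 2 * Real.log (A.card : ℝ) * m := by ring
    rw [this] at h
    exact h
  set n : ℝ := (A.card : ℝ) with hn
  set s : ℝ := Real.log n with hs
  have hs2 : Real.log 2 ≤ s := Real.log_le_log (by norm_num) hA2'
  have hl2 := Real.log_two_gt_d9
  have hs0 : 0 < s := by linarith
  have hm1 : (1 : ℝ) ≤ m := by exact_mod_cast hm0
  have hn0 : 0 < n := by linarith
  set t : ℝ := 1 / ε with ht
  have ht1 : 1 ≤ t := by
    rw [ht, le_div_iff₀ hε]
    linarith
  have e14 : 14 / ε = 14 * t := by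
    rw [ht]
    ring
  have e12 : 12 / ε = 12 * t := by
    rw [ht]
    ring
  rw [e14, Real.exp_neg] at h0
  have hE : 0 < Real.exp (14 * t) := Real.exp_pos _
  have h1 : Real.exp (14 * t) * (K ^ 2 * s * m) ≤ n := by
    have h2 := mul_le_mul_of_nonneg_left h0 hE.le
    rw [← mul_assoc (Real.exp (14 * t)) (Real.exp (14 * t))⁻¹, mul_inv_cancel₀ hE.ne', one_mul] at h2
    exact h2
  -- the powers
  set I : ℕ := ⌊n / (2 * K * m)⌋₊ with hI
  have hI1 : n / (2 * K * m) < I + 1 := Nat.lt_floor_add_one _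
  have hI2 : (I : ℝ) ≤ n / (2 * K * m) := Nat.floor_le (by positivity)
  set R : Finset F := (range (I + 1)).image fun i => r ^ i with hR
  have hRc : (v '' (R : Set F)).ncard = I + 1 := by
    have h4 : v '' (R : Set F) = (fun i : ℕ => v (r ^ i)) '' ((range (I + 1) : Finset ℕ) : Set ℕ) := by
      rw [hR, coe_image, Set.image_image]
    rw [h4, Set.InjOn.ncard_image, Set.ncard_coe_finset, card_range]
    intro i _ j _ hij
    have hv0 : v r ≠ 0 := (Valuation.ne_zero_iff v).2 hr
    have h5 := congrArg WithZero.log (show v (r ^ i) = v (r ^ j) from hij)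
    simp only [map_pow, WithZero.log_pow] at h5
    have h6 : WithZero.log (v r) ≠ 0 := by
      intro h7
      apply hv
      rw [← WithZero.exp_log hv0, h7, WithZero.exp_zero]
    have h7 : (i : ℤ) * WithZero.log (v r) = (j : ℤ) * WithZero.log (v r) := by simpa using h5
    have h8 := mul_right_cancel₀ h6 h7
    exact_mod_cast h8
  refine popPairs hε hε1 v A B K hK hKA R ?_ ?_ ?_
  · intro x hx
    obtain ⟨i, _, rfl⟩ := mem_image.1 hx
    exact pow_ne_zero i hr
  · intro x hx
    obtain ⟨i, hi, rfl⟩ := mem_image.1 hx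
    have h4 := card_leave_pow A hr i
    rw [← hm] at h4
    have h5 : (i : ℝ) ≤ I := by exact_mod_cast Nat.lt_succ_iff.1 (mem_range.1 hi)
    have h6 : ((A.filter fun a => r ^ i • a ∉ A).card : ℝ) ≤ i * m := by exact_mod_cast h4
    have h9 : (i : ℝ) * m ≤ n / (2 * K * m) * m :=
      mul_le_mul_of_nonneg_right (h5.trans hI2) (by linarith)
    have h10 : 2 * K * (n / (2 * K * m) * m) = n := by
      have : K ≠ 0 := by positivity
      field_simp
    calc 2 * K * ((A.filter fun a => r ^ i • a ∉ A).card : ℝ) ≤ 2 * K * (n / (2 * K * m) * m) :=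
          mul_le_mul_of_nonneg_left (h6.trans h9) (by linarith)
      _ = n := h10
  · rw [hRc, ← hn, ← hs, e12]
    push_cast
    refine lt_of_le_of_lt ?_ hI1
    rw [le_div_iff₀ (by positivity)]
    have h4 : Real.exp (12 * t) * 4 ≤ Real.exp (14 * t) := by
      have h5 : Real.exp (14 * t) = Real.exp (12 * t) * Real.exp (2 * t) := by
        rw [← Real.exp_add]
        congr 1
        ring
      rw [h5]
      apply mul_le_mul_of_nonneg_left _ (Real.exp_pos _).le
      have h6 := Real.quadratic_le_exp_of_nonneg (show 0 ≤ 2 * t by linarith)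
      nlinarith
    calc 2 * Real.exp (12 * t) * K * s * (2 * K * m) =
          (Real.exp (12 * t) * 4) * (K ^ 2 * s * m) := by ring
      _ ≤ Real.exp (14 * t) * (K ^ 2 * s * m) := mul_le_mul_of_nonneg_right h4 (by positivity)
      _ ≤ n := h1

end

/-- the same for a rational number -/
theorem onePairs_rat {ε : ℝ} (hε : 0 < ε) (hε1 : ε ≤ 1) {V : Type*} [AddCommGroup V]
    [Module ℚ V] [DecidableEq V] (A B : Finset V)
    (K : ℝ) (hK : 1 ≤ K) (hKA : 16 * K ≤ (A.card : ℝ) ^ (ε / 8)) {r : ℚ} (hr : r ≠ 0)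
    (hr1 : r ≠ 1) (hr2 : r ≠ -1)
    (h : K ^ 2 * Real.log (A.card : ℝ) * (((A ∪ A.image fun a => r • a).card : ℝ) - A.card) ≤
      Real.exp (-(14 / ε)) * A.card) :
    K * (((A ×ˢ B).filter fun s => ((A.card : ℝ) * B.card) ^ ε ≤
      (((A ×ˢ B).filter fun t => t.1 + t.2 = s.1 + s.2).card : ℝ)).card : ℝ) ≤
      (A.card : ℝ) * B.card := by
  obtain ⟨p, hp, hpr⟩ : ∃ p : ℕ, p.Prime ∧ padicValRat p r ≠ 0 := by
    by_contra hcon
    push Not at hcon
    rcases rat_unit hr hcon with h1 | h1
    · exact hr1 h1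
    · exact hr2 h1
  have : Fact p.Prime := ⟨hp⟩
  apply onePairs hε hε1 (Rat.padicValuation p) A B K hK hKA hr _ h
  intro h1
  have h2 : Rat.padicValuation p r = WithZero.exp (-padicValRat p r) := by
    simp [Rat.padicValuation, hr]
  rw [h2] at h1
  have h3 := congrArg WithZero.log h1
  rw [WithZero.log_exp, WithZero.log_one] at h3
  omega

end Pool.Agent.H85.AK
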