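import Pool.Agent.H85.AK.Fin3

/-!
Popular rational numbers composed of given primes, with a uniform constant.
-/

set_option autoImplicit false

namespace Pool.Agent.H85.AK

open Finset
open scoped Pointwise

/-- the `p`-adic valuation as a place of weak type -/
theorem rat_WT {ε : ℝ} (hε : 0 < ε) (hε1 : ε ≤ 1) (p : ℕ) [Fact p.Prime] :
    WT ℚ (padicValRat p) ε (Real.exp (331 / ε)) := by
  intro V _ _ _ A C B R hC hB hRC hR0 hAB
  refine le_trans ?_ (valW hε hε1 (Rat.padicValuation p) V A C B R hC hB hRC hR0 hAB)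
  apply Nat.cast_le.2
  apply sum_le_sum
  intro c _
  have h1 : (actv A R c).image (padicValRat p) ⊆
      ((actv A R c).image (Rat.padicValuation p)).image fun w => -WithZero.log w := by
    intro u hu
    obtain ⟨r, hr, rfl⟩ := mem_image.1 hu
    refine mem_image.2 ⟨Rat.padicValuation p r, mem_image_of_mem _ hr, ?_⟩
    have h2 : Rat.padicValuation p r = WithZero.exp (-padicValRat p r) := by
      simp [Rat.padicValuation, hR0 r (actv_sub A R c hr)]
    rw [h2, WithZero.log_exp, neg_neg]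
  exact (card_le_card h1).trans card_image_le

/-- the weak type inequality for rational numbers composed of given primes -/
theorem rat_sum {ε : ℝ} (hε : 0 < ε) (hε1 : ε ≤ 1) {V : Type} [AddCommGroup V] [Module ℚ V]
    [DecidableEq V] (T : Finset ℕ) (hT : ∀ p ∈ T, p.Prime) (A C B : Finset V) (R : Finset ℚ)
    (hC : 2 ≤ C.card) (hB : B.Nonempty) (hRC : (R.card : ℝ) ≤ (C.card : ℝ) ^ (ε / 16))
    (hR0 : ∀ r ∈ R, r ≠ 0) (hRT : ∀ r ∈ R, ∀ p : ℕ, p.Prime → p ∉ T → padicValRat p r = 0)
    (hAB : ((A + B).card : ℝ) ≤ ((C.card : ℝ) * B.card) ^ (1 - ε)) :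
    ((∑ r ∈ R, (C.filter fun c => r • c ∈ A).card : ℕ) : ℝ) ≤
      4 * (Real.exp (662 / ε) * Real.log C.card) ^ T.card * C.card := by
  classical
  set e : T ≃ Fin T.card := T.equivFin with he
  set w : Fin T.card → ℚ → ℤ := fun j => padicValRat (e.symm j : ℕ) with hw
  have e6 : 331 / (ε / 2) = 662 / ε := by
    field_simp
    norm_num
  have hW : ∀ j, WT ℚ (w j) (ε / 2) (Real.exp (662 / ε)) := by
    intro j
    have : Fact (Nat.Prime (e.symm j : ℕ)) := ⟨hT _ (e.symm j).2⟩
    rw [← e6]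
    exact rat_WT (by positivity) (by linarith) (e.symm j : ℕ)
  have h1 := iter_all (fun _ : ℚ => ()) hε hε1 (four_le_exp hε hε1) A C B R hC hB hRC hR0 hAB
    T.card w hW
  have h2 := TT_unit A C R
  set X : ℝ := Real.exp (662 / ε) * Real.log C.card with hX
  have hX0 : 0 ≤ X := by
    have := Real.log_natCast_nonneg C.card
    positivity
  -- the fibres
  have hfib : ∀ c ∈ C, (actv A R c).card ≤
      2 * ((actv A R c).image fun r => ((), fun j => w j r)).card := by
    intro c _
    apply card_le_mul_card_image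
    intro u hu
    obtain ⟨r, hr, rfl⟩ := mem_image.1 hu
    have hr0 := hR0 r (actv_sub A R c hr)
    have h3 : ((actv A R c).filter fun r' => ((), fun j => w j r') = (((), fun j => w j r) :
        Unit × (Fin T.card → ℤ))) ⊆ {r, -r} := by
      intro r' hr'
      obtain ⟨h4, h5⟩ := mem_filter.1 hr'
      have hr0' := hR0 r' (actv_sub A R c h4)
      have h6 : ∀ p : ℕ, p.Prime → padicValRat p (r' / r) = 0 := by
        intro p hp
        have : Fact p.Prime := ⟨hp⟩
        rw [padicValRat.div hr0' hr0]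
        by_cases hpT : p ∈ T
        · have h7 := congrFun (Prod.ext_iff.1 h5).2 (e ⟨p, hpT⟩)
          have h8 : padicValRat (e.symm (e ⟨p, hpT⟩) : ℕ) r' =
              padicValRat (e.symm (e ⟨p, hpT⟩) : ℕ) r := h7
          rw [Equiv.symm_apply_apply] at h8
          have h9 : padicValRat p r' = padicValRat p r := h8
          rw [h9, sub_self]
        · rw [hRT r' (actv_sub A R c h4) p hp hpT, hRT r (actv_sub A R c hr) p hp hpT, sub_self]
      rw [mem_insert, mem_singleton]
      rcases rat_unit (div_ne_zero hr0' hr0) h6 with h7 | h7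
      · left
        rw [div_eq_one_iff_eq hr0] at h7
        exact h7
      · right
        rw [div_eq_iff hr0] at h7
        rw [h7]
        ring
    exact (card_le_card h3).trans (card_le_two)
  have h3 : ∑ r ∈ R, (C.filter fun c => r • c ∈ A).card = ∑ c ∈ C, (actv A R c).card := by
    unfold actv
    simp only [card_filter]
    exact sum_comm
  have h4 : ((∑ r ∈ R, (C.filter fun c => r • c ∈ A).card : ℕ) : ℝ) ≤
      2 * TT A C R (fun r => ((), fun j => w j r)) := by
    rw [h3]
    unfold TT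
    have h5 := sum_le_sum hfib
    rw [← mul_sum] at h5
    exact_mod_cast h5
  have h5 : X ^ T.card * (TT A C R (fun _ : ℚ => ()) + C.card) ≤ X ^ T.card * (C.card + C.card) :=
    mul_le_mul_of_nonneg_left (by linarith) (by positivity)
  have h6 : (0 : ℝ) ≤ C.card := Nat.cast_nonneg _
  calc ((∑ r ∈ R, (C.filter fun c => r • c ∈ A).card : ℕ) : ℝ)
      ≤ 2 * TT A C R (fun r => ((), fun j => w j r)) := h4
    _ ≤ 2 * (X ^ T.card * (C.card + C.card)) := by linarith
    _ = 4 * X ^ T.card * C.card := by ring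

/-- **popular rational numbers composed of given primes** -/
theorem rat_lin {ε : ℝ} (hε : 0 < ε) (hε1 : ε ≤ 1) {V : Type} [AddCommGroup V] [Module ℚ V]
    [DecidableEq V] (T : Finset ℕ) (hT : ∀ p ∈ T, p.Prime) (A B C : Finset V) (K : ℝ) (hK : 1 ≤ K)
    (R : Finset ℚ) (hC : 2 ≤ C.card) (hB : B.Nonempty)
    (hKC : 8 * K * (Real.exp (662 / ε) * Real.log C.card) ^ T.card ≤ (C.card : ℝ) ^ (ε / 16))
    (hR0 : ∀ r ∈ R, r ≠ 0) (hRT : ∀ r ∈ R, ∀ p : ℕ, p.Prime → p ∉ T → padicValRat p r = 0)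
    (hR : ∀ r ∈ R, (C.card : ℝ) ≤ K * ((C.filter fun c => r • c ∈ A).card : ℝ))
    (hAB : ((A + B).card : ℝ) ≤ ((C.card : ℝ) * B.card) ^ (1 - ε)) :
    (R.card : ℝ) ≤ 4 * K * (Real.exp (662 / ε) * Real.log C.card) ^ T.card := by
  by_contra hcon
  push Not at hcon
  have hC2 : (2 : ℝ) ≤ C.card := by exact_mod_cast hC
  have hCpos : (0 : ℝ) < C.card := by linarith
  have hK0 : 0 < K := by linarith
  have hlog := half_le_log hC
  have h4E := four_le_exp hε hε1
  set X : ℝ := (Real.exp (662 / ε) * Real.log C.card) ^ T.card with hX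
  have hX1 : 1 ≤ X := by
    apply one_le_pow₀
    nlinarith
  have hY : (1 : ℝ) ≤ 4 * K * X := by nlinarith
  obtain ⟨S, hS, hSc⟩ := exists_subset_card_eq (s := R) (n := ⌊4 * K * X⌋₊ + 1) (by
    have h1 : ((⌊4 * K * X⌋₊ : ℕ) : ℝ) ≤ 4 * K * X := Nat.floor_le (by positivity)
    have h2 : ((⌊4 * K * X⌋₊ : ℕ) : ℝ) < R.card := by linarith
    have h3 : ⌊4 * K * X⌋₊ < R.card := by exact_mod_cast h2
    omega)
  have hScard : (S.card : ℝ) = (⌊4 * K * X⌋₊ : ℕ) + 1 := by
    rw [hSc]
    push_cast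
    rfl
  have h1 : (S.card : ℝ) ≤ (C.card : ℝ) ^ (ε / 16) := by
    rw [hScard]
    have h2 : ((⌊4 * K * X⌋₊ : ℕ) : ℝ) ≤ 4 * K * X := Nat.floor_le (by positivity)
    linarith
  have h2 : 4 * K * X < S.card := by
    rw [hScard]
    exact Nat.lt_floor_add_one _
  have h3 := rat_sum hε hε1 T hT A C B S hC hB h1 (fun r hr => hR0 r (hS hr))
    (fun r hr => hRT r (hS hr)) hAB
  have h4 : (S.card : ℝ) * (C.card / K) ≤
      ((∑ r ∈ S, (C.filter fun c => r • c ∈ A).card : ℕ) : ℝ) := by
    push_cast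
    rw [← nsmul_eq_mul, ← sum_const]
    apply sum_le_sum
    intro r hr
    rw [div_le_iff₀ hK0, mul_comm]
    exact hR r (hS hr)
  have h5 : (S.card : ℝ) * (C.card / K) = (S.card / K) * C.card := by ring
  have h6 := h4.trans h3
  rw [h5] at h6
  have h7 := le_of_mul_le_mul_right h6 hCpos
  rw [div_le_iff₀ hK0] at h7
  have h8 : 4 * X * K = 4 * K * X := by ring
  linarith

end Pool.Agent.H85.AK
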