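import Pool.Agent.H85.AK.Weak2

/-!
Exceptional valuations for dense subsets.
-/

set_option autoImplicit false

namespace Pool.Agent.H85.AK

open Finset
open scoped Classical

theorem const_bound2 {ε : ℝ} (hε : 0 < ε) (hε1 : ε ≤ 1) {S k K : ℝ} (hS : Real.log 2 ≤ S)
    (hK : 1 ≤ K)
    (h : k ≤ 8 * K / ε * (1 + 2 * S + 2 * (40 + Real.exp (1 / (ε / 8))) * S)) :
    k ≤ Real.exp (11 / ε) * K * S := by
  have hl := Real.log_two_gt_d9
  have hS0 : 0 < S := by linarith
  set t : ℝ := 1 / ε with ht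
  have ht1 : 1 ≤ t := by
    rw [ht, le_div_iff₀ hε]
    linarith
  have e1 : 1 / (ε / 8) = 8 * t := by
    rw [ht]
    field_simp
  have e2 : 11 / ε = 11 * t := by
    rw [ht]
    ring
  have e0 : 8 * K / ε = 8 * K * t := by
    rw [ht]
    ring
  rw [e0, e1] at h
  rw [e2]
  -- exponentials
  have y1 : (2.7 : ℝ) ≤ Real.exp t := by
    have h1 := Real.exp_one_gt_d9
    have h2 := Real.exp_le_exp.2 ht1
    linarith
  have x1 : 2.7 * t ≤ Real.exp t := by
    have h1 := Real.exp_one_gt_d9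
    have h2 := Real.add_one_le_exp (t - 1)
    have h3 : Real.exp t = Real.exp 1 * Real.exp (t - 1) := by
      rw [← Real.exp_add]
      congr 1
      ring
    rw [h3]
    have h4 : t ≤ Real.exp (t - 1) := by linarith
    calc 2.7 * t ≤ Real.exp 1 * t := mul_le_mul_of_nonneg_right (by linarith) (by linarith)
      _ ≤ Real.exp 1 * Real.exp (t - 1) := mul_le_mul_of_nonneg_left h4 (Real.exp_pos _).le
  set y : ℝ := Real.exp t with hy
  have e3 : Real.exp (8 * t) = y ^ 8 := by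
    rw [hy, ← Real.exp_nat_mul]
    norm_num
  have e4 : Real.exp (11 * t) = y ^ 11 := by
    rw [hy, ← Real.exp_nat_mul]
    norm_num
  rw [e3] at h
  rw [e4]
  have r1 : 1 + 2 * S + 2 * (40 + y ^ 8) * S ≤ (84 + 2 * y ^ 8) * S := by
    nlinarith
  have hy0 : 0 < y := by linarith
  have r2 : 84 + 2 * y ^ 8 ≤ (9 / 4) * y ^ 8 := by
    have : (2.7 : ℝ) ^ 8 ≤ y ^ 8 := pow_le_pow_left₀ (by norm_num) y1 8
    norm_num at this
    linarith
  have r3 : 7 * y ^ 9 ≤ y ^ 11 := by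
    have h1 : (2.7 : ℝ) ^ 2 ≤ y ^ 2 := pow_le_pow_left₀ (by norm_num) y1 2
    have h2 : 7 ≤ y ^ 2 := by
      norm_num at h1
      linarith
    have h3 : y ^ 11 = y ^ 2 * y ^ 9 := by ring
    rw [h3]
    exact mul_le_mul_of_nonneg_right h2 (by positivity)
  have h2 : 1 + 2 * S + 2 * (40 + y ^ 8) * S ≤ (9 / 4) * y ^ 8 * S :=
    r1.trans (mul_le_mul_of_nonneg_right r2 hS0.le)
  calc k ≤ 8 * K * t * ((9 / 4) * y ^ 8 * S) :=
        h.trans (mul_le_mul_of_nonneg_left h2 (by positivity))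
    _ = (2.7 * t) * (18 / 2.7 * y ^ 8 * K * S) := by ring
    _ ≤ y * (18 / 2.7 * y ^ 8 * K * S) := mul_le_mul_of_nonneg_right x1 (by positivity)
    _ = 18 / 2.7 * (y ^ 9 * (K * S)) := by ring
    _ ≤ 7 * (y ^ 9 * (K * S)) := mul_le_mul_of_nonneg_right (by norm_num) (by positivity)
    _ = 7 * y ^ 9 * (K * S) := by ring
    _ ≤ y ^ 11 * (K * S) := mul_le_mul_of_nonneg_right r3 (by positivity)
    _ = y ^ 11 * K * S := by ring

/-- **exceptional shifts, dense subsets** -/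
theorem filt_rob {ε : ℝ} (hε : 0 < ε) (hε1 : ε ≤ 1) {F : Type*} [AddCommGroup F]
    {L : ℤ → AddSubgroup F} (hL : Antitone L) (htop : ∀ x, ∃ l, x ∈ L l)
    (hbot : ∀ x, x ≠ 0 → ∃ l, x ∉ L l) (A : Finset (F × F)) (hA : 2 ≤ A.card) (K : ℝ)
    (hK : 1 ≤ K) (hKA : 8 * K ≤ (A.card : ℝ) ^ (ε / 8)) (J : Finset ℤ)
    (ρ : ℤ → F →+ F) (hρ : ∀ i ∈ J, ∀ y l, ρ i y ∈ L (l + i) ↔ y ∈ L l)
    (A' : ℤ → Finset (F × F)) (hsub : ∀ i ∈ J, A' i ⊆ A)
    (hd : ∀ i ∈ J, (A.card : ℝ) ≤ K * (A' i).card)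
    (h : ∀ i ∈ J, (((A' i).image fun a => a.1 + ρ i a.2).card : ℝ) ≤ (A.card : ℝ) ^ (1 - ε)) :
    (J.card : ℝ) ≤ Real.exp (11 / ε) * K * Real.log (A.card : ℝ) := by
  have hAne : A.Nonempty := card_pos.1 (by omega)
  have hn : (2 : ℝ) ≤ A.card := by exact_mod_cast hA
  have hS : Real.log 2 ≤ Real.log (A.card : ℝ) := Real.log_le_log (by norm_num) hn
  have hS0 : 0 < Real.log (A.card : ℝ) := by
    have := Real.log_two_gt_d9
    linarith
  set n : ℝ := (A.card : ℝ) with hnd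
  set s : ℝ := Real.log n with hs
  have hn0 : 0 < n := by linarith
  have hlogK : Real.log (8 * K) ≤ ε / 8 * s := by
    rw [hs, ← Real.log_rpow hn0]
    exact Real.log_le_log (by linarith) hKA
  have hlog2K : Real.log (2 * K) ≤ ε / 8 * s :=
    (Real.log_le_log (by linarith) (by linarith)).trans hlogK
  have h1 := filt_weak (δ := ε / 8) (by linarith) (by linarith) hL htop hbot A J ρ hρ
    (ε / 8 * s) (ε / 2 * s) (by positivity)
  have h2 : (J.card : ℝ) * (n / (2 * K)) ≤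
      ∑ i ∈ J, ((A.filter fun a => 2 * (ε / 8 * s) + ε / 2 * s + ε / 8 * Real.log (A.card : ℝ) ≤
      Real.log (ct A (fun a : F × F => a.1 + ρ i a.2) a)).card : ℝ) := by
    rw [← nsmul_eq_mul, ← sum_const]
    refine sum_le_sum fun i hi => many_large hAne (hsub i hi) hK (hd i hi) (h i hi) ?_
    rw [← hnd, ← hs]
    linarith
  have h3 := h2.trans h1
  rw [← hnd, ← hs] at h3
  have h4 : 2 * (n * Real.exp (-(ε / 8 * s))) ≤ n / (4 * K) := by
    have h5 : Real.exp (-(ε / 8 * s)) ≤ 1 / (8 * K) := by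
      rw [Real.exp_neg, one_div]
      apply inv_anti₀ (by linarith)
      have h6 : 8 * K = Real.exp (Real.log (8 * K)) := (Real.exp_log (by linarith)).symm
      rw [h6]
      exact Real.exp_le_exp.2 hlogK
    calc 2 * (n * Real.exp (-(ε / 8 * s))) ≤ 2 * (n * (1 / (8 * K))) := by
          have := mul_le_mul_of_nonneg_left h5 hn0.le
          linarith
      _ = n / (4 * K) := by
          field_simp
          ring
  have h5 : (J.card : ℝ) * (2 * (n * Real.exp (-(ε / 8 * s)))) ≤ J.card * (n / (4 * K)) :=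
    mul_le_mul_of_nonneg_left h4 (Nat.cast_nonneg _)
  set W : ℝ := 1 + 2 * s + 2 * (40 + Real.exp (1 / (ε / 8))) * s with hW
  have h6 : n * s * W / (ε / 2 * s) = 2 / ε * W * n := by
    field_simp
  rw [h6] at h3
  have h7 : (J.card : ℝ) * (n / (2 * K)) = J.card * (n / (4 * K)) + J.card * (n / (4 * K)) := by
    field_simp
    ring
  have h8 : (J.card : ℝ) * (n / (4 * K)) ≤ 2 / ε * W * n := by linarith
  have h9 : (J.card : ℝ) ≤ 8 * K / ε * W := by
    have h11 : n / (4 * K) * (4 * K / n) = 1 := by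
      have : (4 * K) ≠ 0 := by positivity
      rw [div_mul_div_comm, mul_comm n (4 * K), div_self (by positivity)]
    calc (J.card : ℝ) = (J.card : ℝ) * (n / (4 * K) * (4 * K / n)) := by rw [h11, mul_one]
      _ = (J.card : ℝ) * (n / (4 * K)) * (4 * K / n) := by ring
      _ ≤ (2 / ε * W * n) * (4 * K / n) :=
          mul_le_mul_of_nonneg_right h8 (by positivity)
      _ = 8 * K / ε * W := by
          have hn1 : n ≠ 0 := hn0.ne'
          have : n * (1 / n) = 1 := by rw [mul_one_div, div_self hn1]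
          calc (2 / ε * W * n) * (4 * K / n) = 8 * K / ε * W * (n * (1 / n)) := by ring
            _ = 8 * K / ε * W := by rw [this, mul_one]
  exact const_bound2 hε hε1 hS hK h9

/-- **exceptional valuations, dense subsets** -/
theorem val_rob {ε : ℝ} (hε : 0 < ε) (hε1 : ε ≤ 1) {F : Type*} [Field F]
    (v : Valuation F (WithZero (Multiplicative ℤ))) (A : Finset (F × F)) (hA : 2 ≤ A.card)
    (K : ℝ) (hK : 1 ≤ K) (hKA : 8 * K ≤ (A.card : ℝ) ^ (ε / 8))
    (R : Finset F) (hR0 : ∀ r ∈ R, r ≠ 0) (A' : F → Finset (F × F))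
    (hsub : ∀ r ∈ R, A' r ⊆ A) (hd : ∀ r ∈ R, (A.card : ℝ) ≤ K * (A' r).card)
    (h : ∀ r ∈ R, (((A' r).image fun a => a.1 + r * a.2).card : ℝ) ≤ (A.card : ℝ) ^ (1 - ε)) :
    ((R.image v).card : ℝ) ≤ Real.exp (11 / ε) * K * Real.log (A.card : ℝ) := by
  set J : Finset ℤ := R.image fun r => -WithZero.log (v r) with hJ
  have hc : (R.image v).card ≤ J.card := by
    have h1 : R.image v ⊆ J.image fun i => WithZero.exp (-i) := by
      intro w hw
      obtain ⟨r, hr, rfl⟩ := mem_image.1 hw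
      refine mem_image.2 ⟨_, mem_image_of_mem _ hr, ?_⟩
      rw [neg_neg, WithZero.exp_log ((Valuation.ne_zero_iff v).2 (hR0 r hr))]
    exact (card_le_card h1).trans card_image_le
  have hex : ∀ i : ℤ, ∃ r : F, i ∈ J → r ∈ R ∧ v r = WithZero.exp (-i) := by
    intro i
    by_cases hi : i ∈ J
    · obtain ⟨r, hr, hri⟩ := mem_image.1 hi
      refine ⟨r, fun _ => ⟨hr, ?_⟩⟩
      rw [← hri, neg_neg, WithZero.exp_log ((Valuation.ne_zero_iff v).2 (hR0 r hr))]
    · exact ⟨0, fun h => absurd h hi⟩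
  choose r hr using hex
  have key := filt_rob hε hε1 (L := vfil v) (F := F) ?_ ?_ ?_ A hA K hK hKA J
    (fun i => AddMonoidHom.mulLeft (r i)) ?_ (fun i => A' (r i)) ?_ ?_ ?_
  · exact (Nat.cast_le.2 hc).trans key
  · intro l l' hll x hx
    show v x ≤ WithZero.exp (-l)
    refine (show v x ≤ WithZero.exp (-l') from hx).trans ?_
    rw [WithZero.exp_le_exp]
    omega
  · intro x
    by_cases hx : x = 0
    · exact ⟨0, by rw [hx]; exact AddSubgroup.zero_mem _⟩
    · refine ⟨-WithZero.log (v x), ?_⟩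
      show v x ≤ WithZero.exp (- -WithZero.log (v x))
      rw [neg_neg, WithZero.exp_log ((Valuation.ne_zero_iff v).2 hx)]
  · intro x hx
    refine ⟨-WithZero.log (v x) + 1, fun h => ?_⟩
    have h1 : v x ≤ WithZero.exp (-(-WithZero.log (v x) + 1)) := h
    have h2 := (WithZero.log_le_iff_le_exp ((Valuation.ne_zero_iff v).2 hx)).2 h1
    omega
  · intro i hi y l
    obtain ⟨_, hv⟩ := hr i hi
    show v (r i * y) ≤ WithZero.exp (-(l + i)) ↔ v y ≤ WithZero.exp (-l)
    rw [map_mul, hv]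
    have e : WithZero.exp (-(l + i)) = WithZero.exp (-i) * WithZero.exp (-l) := by
      rw [← WithZero.exp_add]
      congr 1
      ring
    rw [e]
    exact mul_le_mul_iff_right₀ (by simp)
  · intro i hi
    exact hsub (r i) (hr i hi).1
  · intro i hi
    exact hd (r i) (hr i hi).1
  · intro i hi
    exact h (r i) (hr i hi).1

/-- the same, for sets -/
theorem val_rob' {ε : ℝ} (hε : 0 < ε) (hε1 : ε ≤ 1) {F : Type*} [Field F]
    (v : Valuation F (WithZero (Multiplicative ℤ))) (A : Finset (F × F)) (hA : 2 ≤ A.card)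
    (K : ℝ) (hK : 1 ≤ K) (hKA : 8 * K ≤ (A.card : ℝ) ^ (ε / 8))
    (R : Finset F) (hR0 : ∀ r ∈ R, r ≠ 0) (A' : F → Finset (F × F))
    (hsub : ∀ r ∈ R, A' r ⊆ A) (hd : ∀ r ∈ R, (A.card : ℝ) ≤ K * (A' r).card)
    (h : ∀ r ∈ R, ((((fun a : F × F => a.1 + r * a.2) '' (A' r : Set (F × F))).ncard : ℕ) : ℝ) ≤
      (A.card : ℝ) ^ (1 - ε)) :
    ((v '' (R : Set F)).ncard : ℝ) ≤ Real.exp (11 / ε) * K * Real.log (A.card : ℝ) := by
  have key := val_rob hε hε1 v A hA K hK hKA R hR0 A' hsub hd (by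
    intro r hr
    have h1 := h r hr
    rw [← Finset.coe_image, Set.ncard_coe_finset] at h1
    exact h1)
  rw [← Finset.coe_image, Set.ncard_coe_finset]
  exact key

end Pool.Agent.H85.AK
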