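import Pool.Agent.H85.AK.Rat2

/-!
Finitely generated groups of rational numbers: choice of primes.
-/

set_option autoImplicit false

namespace Pool.Agent.H85.AK

open Finset

/-- the `p`-adic valuation on the units of the rationals, written additively -/
def vpr (p : Nat.Primes) : Additive ℚˣ →+ ℤ where
  toFun x := padicValRat p ((Additive.toMul x : ℚˣ) : ℚ)
  map_zero' := by
    show padicValRat p (((1 : ℚˣ)) : ℚ) = 0
    rw [Units.val_one, padicValRat.one]
  map_add' x y := by
    have : Fact (p : ℕ).Prime := ⟨p.2⟩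
    show padicValRat p (((Additive.toMul x * Additive.toMul y : ℚˣ)) : ℚ) = _
    rw [Units.val_mul, padicValRat.mul (Units.ne_zero _) (Units.ne_zero _)]

theorem vpr_apply (p : Nat.Primes) (x : Additive ℚˣ) :
    vpr p x = padicValRat p ((Additive.toMul x : ℚˣ) : ℚ) := rfl

/-- few primes determine the valuations on a finite set -/
theorem sel_primes (S : Finset (Additive ℚˣ)) : ∃ T : Finset Nat.Primes, T.card ≤ S.card ∧
    ∀ p : Nat.Primes, ∃ c : Nat.Primes → ℚ, ∀ s ∈ S, ((vpr p s : ℤ) : ℚ) =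
      ∑ q ∈ T, c q * ((vpr q s : ℤ) : ℚ) := by
  classical
  set w : Nat.Primes → (S → ℚ) := fun p s => ((vpr p (s : Additive ℚˣ) : ℤ) : ℚ) with hw
  obtain ⟨κ, a, hainj, hspan, hli⟩ := exists_linearIndependent' ℚ w
  have hfin : Finite κ := hli.finite
  have : Fintype κ := Fintype.ofFinite κ
  have hcard : Fintype.card κ ≤ S.card := by
    have h1 := hli.fintype_card_le_finrank
    rw [Module.finrank_fintype_fun_eq_card, Fintype.card_coe] at h1
    exact h1
  refine ⟨univ.image a, card_image_le.trans (by rw [card_univ]; exact hcard), ?_⟩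
  intro p
  have h1 : w p ∈ Submodule.span ℚ (Set.range (w ∘ a)) := by
    rw [hspan]
    exact Submodule.subset_span ⟨p, rfl⟩
  rw [Submodule.mem_span_range_iff_exists_fun] at h1
  obtain ⟨c, hc⟩ := h1
  refine ⟨fun q => ∑ k : κ, if a k = q then c k else 0, ?_⟩
  intro s hs
  have h2 := congrFun hc ⟨s, hs⟩
  have h3 : ((vpr p s : ℤ) : ℚ) = ∑ k : κ, c k * ((vpr (a k) s : ℤ) : ℚ) := by
    rw [Finset.sum_apply] at h2
    simp only [Pi.smul_apply, smul_eq_mul, Function.comp, hw] at h2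
    exact h2.symm
  rw [h3, sum_image (fun x _ y _ h => hainj h)]
  apply sum_congr rfl
  intro k _
  congr 1
  have h4 : (∑ k' : κ, if a k' = a k then c k' else 0) = ∑ k' : κ, if k' = k then c k' else 0 := by
    apply sum_congr rfl
    intro k' _
    by_cases h : k' = k
    · rw [if_pos h, if_pos (by rw [h])]
    · rw [if_neg h, if_neg (fun h' => h (hainj h'))]
  have h5 : (∑ k' : κ, if k' = k then c k' else 0) = c k := by
    rw [sum_ite_eq' univ k]
    simp
  exact (h4.trans h5).symm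

/-- few primes determine the elements of a finitely generated group up to the sign -/
theorem sel_group (S : Finset (Additive ℚˣ)) (P : AddSubgroup (Additive ℚˣ)) (hP : Finite P) :
    ∃ T : Finset ℕ, (∀ p ∈ T, p.Prime) ∧ T.card ≤ S.card ∧
    ∀ x ∈ P ⊔ AddSubgroup.closure (S : Set (Additive ℚˣ)),
      (∀ p ∈ T, padicValRat p ((Additive.toMul x : ℚˣ) : ℚ) = 0) →
      ((Additive.toMul x : ℚˣ) : ℚ) = 1 ∨ ((Additive.toMul x : ℚˣ) : ℚ) = -1 := by
  classical
  obtain ⟨T, hT, hsel⟩ := sel_primes S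
  refine ⟨Finset.image (fun p : Nat.Primes => p.1) T, ?_, card_image_le.trans hT, ?_⟩
  · intro p hp
    obtain ⟨q, _, rfl⟩ := mem_image.1 hp
    exact q.2
  intro x hx hx0
  apply rat_unit (Units.ne_zero _)
  intro p hp
  obtain ⟨c, hc⟩ := hsel ⟨p, hp⟩
  set φ : Additive ℚˣ →+ ℚ := (Int.castAddHom ℚ).comp (vpr ⟨p, hp⟩) -
    ∑ q ∈ T, (AddMonoidHom.mulLeft (c q)).comp ((Int.castAddHom ℚ).comp (vpr q)) with hφ
  have hφx : ∀ y, φ y = ((vpr ⟨p, hp⟩ y : ℤ) : ℚ) - ∑ q ∈ T, c q * ((vpr q y : ℤ) : ℚ) := by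
    intro y
    rw [hφ, AddMonoidHom.sub_apply, AddMonoidHom.finsetSum_apply]
    rfl
  have hker : P ⊔ AddSubgroup.closure (S : Set (Additive ℚˣ)) ≤ φ.ker := by
    apply sup_le
    · intro y hy
      rw [AddMonoidHom.mem_ker]
      obtain ⟨n, hn, hny'⟩ := isOfFinAddOrder_iff_nsmul_eq_zero.1
        (isOfFinAddOrder_of_finite (⟨y, hy⟩ : P))
      have hny : n • y = 0 := by
        have h1 := congrArg (fun u : P => (u : Additive ℚˣ)) hny'
        simpa using h1
      have h2 : (n : ℚ) * φ y = 0 := by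
        rw [← nsmul_eq_mul, ← map_nsmul, hny, map_zero]
      rcases mul_eq_zero.1 h2 with h3 | h3
      · exact absurd (by exact_mod_cast h3) hn.ne'
      · exact h3
    · rw [AddSubgroup.closure_le]
      intro s hs
      rw [SetLike.mem_coe, AddMonoidHom.mem_ker, hφx, hc s hs, sub_self]
  have h1 : φ x = 0 := (AddMonoidHom.mem_ker).1 (hker hx)
  rw [hφx] at h1
  have h2 : ∑ q ∈ T, c q * ((vpr q x : ℤ) : ℚ) = 0 := by
    apply sum_eq_zero
    intro q hq
    have h3 := hx0 q.1 (mem_image_of_mem _ hq)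
    rw [vpr_apply, h3]
    simp
  rw [h2, sub_zero] at h1
  have h4 : vpr ⟨p, hp⟩ x = 0 := by exact_mod_cast h1
  exact h4

end Pool.Agent.H85.AK
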