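import Pool.Agent.H85.AK.Lin1

/-!
Scalars which depend on the point: archimedean places.
-/

set_option autoImplicit false

namespace Pool.Agent.H85.AK

open Finset
open scoped Classical

section

variable {F : Type*} [Field F] {ζ : Type*}

/-- the fibres of the label `L` have slopes of the scale `i` -/
def ArcLab (σ : F →+* ℂ) (Ω : Finset (F × F)) (i : ℤ) (L : F × F → ζ) : Prop :=
  ∀ a ∈ Ω, ∀ b ∈ Ω, L b = L a → (3 : ℝ) ^ i * ‖σ (b.1 - a.1)‖ ≤ ‖σ (b.2 - a.2)‖ ∧
    ‖σ (b.2 - a.2)‖ ≤ 3 ^ (i + 1) * ‖σ (b.1 - a.1)‖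

/-- the number of points of a fibre at a bounded distance -/
noncomputable def fbL (σ : F →+* ℂ) (Ω : Finset (F × F)) (L : F × F → ζ) (t : ℤ) (a : F × F) : ℝ :=
  ((Ω.filter fun b => L b = L a ∧ ‖σ (b.2 - a.2)‖ < 3 ^ t).card : ℝ)

theorem fbL_pos (σ : F →+* ℂ) {Ω : Finset (F × F)} (L : F × F → ζ) (t : ℤ) {a : F × F}
    (ha : a ∈ Ω) : 0 < fbL σ Ω L t a := by
  have h : 0 < (Ω.filter fun b => L b = L a ∧ ‖σ (b.2 - a.2)‖ < 3 ^ t).card := by
    refine card_pos.2 ⟨a, mem_filter.2 ⟨ha, rfl, ?_⟩⟩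
    rw [sub_self, map_zero, norm_zero]
    exact zpow_pos (by norm_num) t
  unfold fbL
  exact_mod_cast h

/-- the neighbours in a pair of cells -/
noncomputable def nbL (σ : F →+* ℂ) (Ω : Finset (F × F)) (L : F × F → ζ) (i s : ℤ)
    (g : (Bool × Bool) × (Bool × Bool)) (a : F × F) : ℝ :=
  ((Ω.filter fun b => L b = L a ∧
    cell g.1 (s - i + 5) (σ b.1) = cell g.1 (s - i + 5) (σ a.1) ∧
    cell g.2 (s + 5) (σ b.2) = cell g.2 (s + 5) (σ a.2) ∧
    (cell g.1 (s - i) (σ b.1) = cell g.1 (s - i) (σ a.1) ∨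
      cell g.2 s (σ b.2) = cell g.2 s (σ a.2))).card : ℝ)

/-- the points in a pair of cells -/
noncomputable def cbL (σ : F →+* ℂ) (Ω : Finset (F × F)) (L : F × F → ζ) (i s : ℤ)
    (g : (Bool × Bool) × (Bool × Bool)) (a : F × F) : ℝ :=
  ct Ω (fun b => (L b, (cell g.1 (s - i + 5) (σ b.1), cell g.2 (s + 5) (σ b.2)))) a

/-- **one level** -/
theorem arc_stepL (σ : F →+* ℂ) (Ω : Finset (F × F)) {L : F × F → ζ} {i : ℤ}
    (hL : ArcLab σ Ω i L) (s : ℤ) {a : F × F} (ha : a ∈ Ω) :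
    Real.log (fbL σ Ω L (s + 3) a) - Real.log (fbL σ Ω L (s + 2) a) ≤
      ∑ g : (Bool × Bool) × (Bool × Bool),
        (Real.log (cbL σ Ω L i s g a) - Real.log (nbL σ Ω L i s g a)) := by
  have h3 : ∀ t : ℤ, (0 : ℝ) < 3 ^ t := fun t => zpow_pos (by norm_num) t
  have nbpos : ∀ g, 0 < nbL σ Ω L i s g a := by
    intro g
    have h : 0 < (Ω.filter fun b => L b = L a ∧
        cell g.1 (s - i + 5) (σ b.1) = cell g.1 (s - i + 5) (σ a.1) ∧
        cell g.2 (s + 5) (σ b.2) = cell g.2 (s + 5) (σ a.2) ∧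
        (cell g.1 (s - i) (σ b.1) = cell g.1 (s - i) (σ a.1) ∨
          cell g.2 s (σ b.2) = cell g.2 s (σ a.2))).card :=
      card_pos.2 ⟨a, mem_filter.2 ⟨ha, rfl, rfl, rfl, Or.inl rfl⟩⟩
    unfold nbL
    exact_mod_cast h
  have hnonneg : ∀ g ∈ (univ : Finset ((Bool × Bool) × (Bool × Bool))),
      0 ≤ Real.log (cbL σ Ω L i s g a) - Real.log (nbL σ Ω L i s g a) := by
    intro g _
    rw [sub_nonneg]
    apply Real.log_le_log (nbpos g)
    unfold nbL cbL
    apply card_le_ct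
    rintro b _ ⟨h5, h6, h7, _⟩
    show (L b, _, _) = (L a, _, _)
    rw [h5, h6, h7]
  obtain ⟨g1, hg1⟩ := cell_cover (s - i + 5) (σ a.1)
  obtain ⟨g2, hg2⟩ := cell_cover (s + 5) (σ a.2)
  refine le_trans ?_ (single_le_sum hnonneg (mem_univ (g1, g2)))
  have e1 : (3 : ℝ) ^ (s + 5) = 9 * 3 ^ (s + 3) := by
    have : s + 5 = 2 + (s + 3) := by ring
    rw [this, zpow_add₀ (by norm_num)]
    norm_num
  have e2 : (3 : ℝ) ^ (s + 3) = 3 ^ i * 3 ^ (s - i + 3) := by
    rw [← zpow_add₀ (by norm_num)]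
    congr 1
    ring
  have e3 : (3 : ℝ) ^ (s - i + 5) = 9 * 3 ^ (s - i + 3) := by
    have : s - i + 5 = 2 + (s - i + 3) := by ring
    rw [this, zpow_add₀ (by norm_num)]
    norm_num
  have e4 : (3 : ℝ) ^ (s + 2) = 9 * 3 ^ s := by
    rw [add_comm, zpow_add₀ (by norm_num)]
    norm_num
  have e5 : (3 : ℝ) ^ (i + 1) * 3 ^ (s - i) = 3 * 3 ^ s := by
    rw [← zpow_add₀ (by norm_num)]
    have : i + 1 + (s - i) = 1 + s := by ring
    rw [this, zpow_add₀ (by norm_num)]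
    norm_num
  have up : fbL σ Ω L (s + 3) a ≤ cbL σ Ω L i s (g1, g2) a := by
    unfold fbL cbL
    apply card_le_ct
    rintro b h4 ⟨h5, h6⟩
    have h7 := (hL a ha b h4 h5).1
    have h8 : ‖σ (b.1 - a.1)‖ < 3 ^ (s - i + 3) := by
      have h9 : (3 : ℝ) ^ i * ‖σ (b.1 - a.1)‖ < 3 ^ i * 3 ^ (s - i + 3) := by
        rw [← e2]
        exact lt_of_le_of_lt h7 h6
      exact lt_of_mul_lt_mul_left h9 (h3 i).le
    have h9 : cell g1 (s - i + 5) (σ b.1) = cell g1 (s - i + 5) (σ a.1) := by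
      apply hg1
      rw [← map_sub, ← norm_neg, ← map_neg, neg_sub, e3]
      have := h3 (s - i + 3)
      linarith
    have h10 : cell g2 (s + 5) (σ b.2) = cell g2 (s + 5) (σ a.2) := by
      apply hg2
      rw [← map_sub, ← norm_neg, ← map_neg, neg_sub, e1]
      have := h3 (s + 3)
      linarith
    show (L b, cell g1 (s - i + 5) (σ b.1), cell g2 (s + 5) (σ b.2)) =
      (L a, cell g1 (s - i + 5) (σ a.1), cell g2 (s + 5) (σ a.2))
    rw [h5, h9, h10]
  have lo : nbL σ Ω L i s (g1, g2) a ≤ fbL σ Ω L (s + 2) a := by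
    unfold fbL nbL
    apply Nat.cast_le.2
    apply card_le_card
    intro b hb
    obtain ⟨h4, h5, _, _, h6⟩ := mem_filter.1 hb
    refine mem_filter.2 ⟨h4, h5, ?_⟩
    have h0 := h3 s
    rcases h6 with h6 | h6
    · have h7 := cell_diam h6
      rw [← map_sub] at h7
      rw [e4]
      calc ‖σ (b.2 - a.2)‖ ≤ 3 ^ (i + 1) * ‖σ (b.1 - a.1)‖ := (hL a ha b h4 h5).2
        _ ≤ 3 ^ (i + 1) * (2 * 3 ^ (s - i)) :=
            mul_le_mul_of_nonneg_left h7.le (h3 _).le
        _ = 2 * (3 ^ (i + 1) * 3 ^ (s - i)) := by ring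
        _ < 9 * 3 ^ s := by
            rw [e5]
            linarith
    · have h7 := cell_diam h6
      rw [← map_sub] at h7
      rw [e4]
      linarith
  have l1 := Real.log_le_log (fbL_pos σ L (s + 3) ha) up
  have l2 := Real.log_le_log (nbpos (g1, g2)) lo
  linarith

/-- the logarithm of a fibre as a sum over the levels -/
theorem arc_fibreL (σ : F →+* ℂ) {Ω : Finset (F × F)} {L : F × F → ζ} {i : ℤ}
    (hL : ArcLab σ Ω i L) {T : ℕ}
    (hT : ∀ a ∈ Ω, ∀ b ∈ Ω, a.2 ≠ b.2 → (3 : ℝ) ^ (-(T : ℤ)) ≤ ‖σ (b.2 - a.2)‖ ∧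
      ‖σ (b.2 - a.2)‖ < 3 ^ (T : ℤ)) {a : F × F} (ha : a ∈ Ω) :
    Real.log (ct Ω L a) ≤
      ∑ n ∈ range (2 * T), ∑ g : (Bool × Bool) × (Bool × Bool),
        (Real.log (cbL σ Ω L i (-(T : ℤ) - 2 + n) g a) -
          Real.log (nbL σ Ω L i (-(T : ℤ) - 2 + n) g a)) := by
  have htel : ∀ n : ℕ, Real.log (fbL σ Ω L (-(T : ℤ) + n) a) - Real.log (fbL σ Ω L (-(T : ℤ)) a) ≤
      ∑ n ∈ range n, ∑ g : (Bool × Bool) × (Bool × Bool),
        (Real.log (cbL σ Ω L i (-(T : ℤ) - 2 + n) g a) -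
          Real.log (nbL σ Ω L i (-(T : ℤ) - 2 + n) g a)) := by
    intro n
    induction n with
    | zero => simp
    | succ n ih =>
      rw [sum_range_succ]
      have h3 := arc_stepL σ Ω hL (-(T : ℤ) - 2 + n) ha
      have e1 : -(T : ℤ) - 2 + n + 3 = -(T : ℤ) + ((n + 1 : ℕ) : ℤ) := by push_cast; ring
      have e2 : -(T : ℤ) - 2 + n + 2 = -(T : ℤ) + n := by ring
      rw [e1, e2] at h3
      linarith
  have h3 := htel (2 * T)
  have h4 : fbL σ Ω L (-(T : ℤ)) a = 1 := by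
    unfold fbL
    have : (Ω.filter fun b => L b = L a ∧ ‖σ (b.2 - a.2)‖ < 3 ^ (-(T : ℤ))) = {a} := by
      ext b
      rw [mem_filter, mem_singleton]
      constructor
      · rintro ⟨h5, h6, h7⟩
        have h8 : b.2 = a.2 := by
          by_contra h
          exact absurd (hT a ha b h5 fun h' => h h'.symm).1 (not_le.2 h7)
        have h9 := (hL a ha b h5 h6).1
        rw [h8, sub_self, map_zero, norm_zero] at h9
        have h10 : ‖σ (b.1 - a.1)‖ ≤ 0 := by
          have hp : (0 : ℝ) < 3 ^ i := zpow_pos (by norm_num) i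
          by_contra hcon
          push Not at hcon
          have := mul_pos hp hcon
          linarith
        have h11 : σ (b.1 - a.1) = 0 := norm_le_zero_iff.1 h10
        have h12 : b.1 - a.1 = 0 := σ.injective (by rw [h11, map_zero])
        exact Prod.ext (sub_eq_zero.1 h12) h8
      · rintro rfl
        refine ⟨ha, rfl, ?_⟩
        rw [sub_self, map_zero, norm_zero]
        exact zpow_pos (by norm_num) _
    rw [this, card_singleton, Nat.cast_one]
  have h5 : fbL σ Ω L (-(T : ℤ) + ((2 * T : ℕ) : ℤ)) a = ct Ω L a := by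
    have e : -(T : ℤ) + ((2 * T : ℕ) : ℤ) = T := by push_cast; ring
    rw [e]
    unfold fbL ct cv
    congr 2
    ext b
    rw [mem_filter, mem_filter]
    constructor
    · rintro ⟨h6, h7, _⟩
      exact ⟨h6, h7⟩
    · rintro ⟨h6, h7⟩
      refine ⟨h6, h7, ?_⟩
      by_cases h : a.2 = b.2
      · rw [h, sub_self, map_zero, norm_zero]
        exact zpow_pos (by norm_num) _
      · exact (hT a ha b h6 h).2
  rw [h4, h5, Real.log_one, sub_zero] at h3
  exact h3

/-- one node -/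
theorem arc_cellL {δ : ℝ} (hδ : 0 < δ) (hδ1 : δ ≤ 1) (σ : F →+* ℂ) (X Y : Finset F)
    (L : F × F → ζ) (i s : ℤ) (g : (Bool × Bool) × (Bool × Bool)) :
    ∑ a ∈ X ×ˢ Y, (Real.log (cbL σ (X ×ˢ Y) L i s g a) - Real.log (nbL σ (X ×ˢ Y) L i s g a)) ≤
      δ * (Y.card * hc σ X g.1 (s - i) + X.card * hc σ Y g.2 s) +
      (2 + Real.exp (1 / δ)) * (wc σ Y g.2 s * hc σ X g.1 (s - i) +
        wc σ X g.1 (s - i) * hc σ Y g.2 s) := by
  have h := arc_node hδ hδ1 X Y (P := fun x => cell g.1 (s - i + 5) (σ x))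
    (P' := fun x => cell g.1 (s - i) (σ x)) (Q := fun y => cell g.2 (s + 5) (σ y))
    (Q' := fun y => cell g.2 s (σ y)) L
    (ref_cell σ X g.1 (s - i)) (ref_cell σ Y g.2 s)
  refine le_trans (le_of_eq ?_) h
  apply sum_congr rfl
  intro a _
  unfold cbL nbL
  rw [sub_right_inj]
  exact congrArg Real.log (card_filter_any _ _)

/-- **the sum over the scales, with subsets** -/
theorem arc_sumL {δ : ℝ} (hδ : 0 < δ) (hδ1 : δ ≤ 1) (σ : F →+* ℂ)
    (X Y : Finset F) (J : Finset ℤ) (L : ℤ → F × F → ζ) (Z : ℤ → Finset F)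
    (hZ : ∀ i ∈ J, Z i ⊆ X) (hL : ∀ i ∈ J, ArcLab σ (Z i ×ˢ Y) i (L i)) :
    ∑ i ∈ J, ∑ a ∈ Z i ×ˢ Y, Real.log (ct (Z i ×ˢ Y) (L i) a) ≤
      80 * δ * ∑ i ∈ J, (Z i).card * Y.card * (Real.log (X.card : ℝ) + Real.log (Y.card : ℝ)) +
      800 * (2 + Real.exp (1 / δ)) * ((X.card * Real.log (X.card : ℝ)) *
        (Y.card * Real.log (Y.card : ℝ))) := by
  set MX : ℝ := 5 * (X.card * Real.log (X.card : ℝ)) with hMX
  set MY : ℝ := 5 * (Y.card * Real.log (Y.card : ℝ)) with hMY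
  have hMX0 : 0 ≤ MX := by
    have := Real.log_natCast_nonneg X.card
    positivity
  have hMY0 : 0 ≤ MY := by
    have := Real.log_natCast_nonneg Y.card
    positivity
  set C : ℝ := 2 + Real.exp (1 / δ) with hC
  have hC0 : 0 ≤ C := by positivity
  -- the range of the scales
  obtain ⟨T, hT⟩ := scales (((Y ×ˢ Y).filter fun c => c.1 ≠ c.2).image fun c => ‖σ (c.2 - c.1)‖) (by
    intro d hd
    obtain ⟨c, hc, rfl⟩ := mem_image.1 hd
    have h1 := (mem_filter.1 hc).2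
    rw [norm_pos_iff]
    intro h2
    exact h1 (sub_eq_zero.1 (σ.injective (by rw [h2, map_zero]))).symm)
  have hT' : ∀ i, ∀ a ∈ Z i ×ˢ Y, ∀ b ∈ Z i ×ˢ Y, a.2 ≠ b.2 →
      (3 : ℝ) ^ (-(T : ℤ)) ≤ ‖σ (b.2 - a.2)‖ ∧ ‖σ (b.2 - a.2)‖ < 3 ^ (T : ℤ) := by
    intro i a ha b hb hab
    exact hT _ (mem_image.2 ⟨(a.2, b.2), mem_filter.2 ⟨mem_product.2 ⟨(mem_product.1 ha).2,
      (mem_product.1 hb).2⟩, hab⟩, rfl⟩)
  set sn : ℕ → ℤ := fun n => -(T : ℤ) - 2 + n with hsn
  have hsn_inj : Function.Injective sn := by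
    intro x y h
    simp only [hsn] at h
    omega
  set NN : (Bool × Bool) × (Bool × Bool) → ℤ → ℕ → ℝ := fun g i n =>
    δ * (Y.card * hc σ (Z i) g.1 (sn n - i) + (Z i).card * hc σ Y g.2 (sn n)) +
      C * (wc σ Y g.2 (sn n) * hc σ X g.1 (sn n - i) +
        wc σ X g.1 (sn n - i) * hc σ Y g.2 (sn n)) with hNN
  -- one scale
  have one : ∀ i ∈ J, ∑ a ∈ Z i ×ˢ Y, Real.log (ct (Z i ×ˢ Y) (L i) a) ≤
      ∑ g : (Bool × Bool) × (Bool × Bool), ∑ n ∈ range (2 * T), NN g i n := by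
    intro i hi
    have h3 := sum_le_sum fun a (ha : a ∈ Z i ×ˢ Y) => arc_fibreL σ (hL i hi) (hT' i) ha
    refine h3.trans ?_
    rw [sum_comm]
    have h4 : ∀ n ∈ range (2 * T), ∑ a ∈ Z i ×ˢ Y, ∑ g : (Bool × Bool) × (Bool × Bool),
        (Real.log (cbL σ (Z i ×ˢ Y) (L i) i (-(T : ℤ) - 2 + n) g a) -
          Real.log (nbL σ (Z i ×ˢ Y) (L i) i (-(T : ℤ) - 2 + n) g a)) ≤
        ∑ g : (Bool × Bool) × (Bool × Bool), NN g i n := by
      intro n _
      rw [sum_comm]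
      apply sum_le_sum
      intro g _
      refine (arc_cellL hδ hδ1 σ (Z i) Y (L i) i (sn n) g).trans ?_
      apply add_le_add le_rfl
      apply mul_le_mul_of_nonneg_left _ hC0
      apply add_le_add
      · exact mul_le_mul_of_nonneg_left (hs_mono (hZ i hi) (ref_cell σ X g.1 _))
          (wc_nonneg _ _ _ _)
      · exact mul_le_mul_of_nonneg_right (ws_mono (hZ i hi) _ _) (hc_nonneg _ _ _ _)
    refine (sum_le_sum h4).trans ?_
    rw [sum_comm]
  refine (sum_le_sum one).trans ?_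
  rw [sum_comm]
  set SS : ℝ := ∑ i ∈ J, (Z i).card * Y.card * (Real.log (X.card : ℝ) + Real.log (Y.card : ℝ))
    with hSS
  have key : ∀ g ∈ (univ : Finset ((Bool × Bool) × (Bool × Bool))),
      ∑ i ∈ J, ∑ n ∈ range (2 * T), NN g i n ≤ 5 * δ * SS + C * (MY * MX + MX * MY) := by
    intro g _
    have t1 : ∑ i ∈ J, ∑ n ∈ range (2 * T), (Y.card * hc σ (Z i) g.1 (sn n - i) +
        (Z i).card * hc σ Y g.2 (sn n)) ≤ 5 * SS := by
      rw [hSS, mul_sum]
      apply sum_le_sum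
      intro i hi
      rw [sum_add_distrib, ← mul_sum, ← mul_sum]
      have b1 : ∑ n ∈ range (2 * T), hc σ (Z i) g.1 (sn n - i) ≤
          5 * ((Z i).card * Real.log (X.card : ℝ)) := by
        refine (hc_sum σ (Z i) g.1 (range (2 * T)) (fun n => sn n - i) ?_).trans ?_
        · intro x _ y _ h
          exact hsn_inj (by simpa using h)
        · apply mul_le_mul_of_nonneg_left _ (by norm_num)
          rcases (Z i).eq_empty_or_nonempty with h0 | h0
          · rw [h0, card_empty]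
            simp
          · apply mul_le_mul_of_nonneg_left _ (Nat.cast_nonneg _)
            apply Real.log_le_log
            · exact_mod_cast card_pos.2 h0
            · exact_mod_cast card_le_card (hZ i hi)
      have b2 : ∑ n ∈ range (2 * T), hc σ Y g.2 (sn n) ≤ MY :=
        hc_sum σ Y g.2 (range (2 * T)) sn hsn_inj.injOn
      have c1 := mul_le_mul_of_nonneg_left b1 (Nat.cast_nonneg Y.card : (0 : ℝ) ≤ Y.card)
      have c2 := mul_le_mul_of_nonneg_left b2 (Nat.cast_nonneg (Z i).card : (0 : ℝ) ≤ (Z i).card)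
      refine (add_le_add c1 c2).trans (le_of_eq ?_)
      rw [hMY]
      ring
    have t2 : ∑ i ∈ J, ∑ n ∈ range (2 * T), wc σ Y g.2 (sn n) * hc σ X g.1 (sn n - i) ≤
        MY * MX := by
      rw [sum_comm]
      calc ∑ n ∈ range (2 * T), ∑ i ∈ J, wc σ Y g.2 (sn n) * hc σ X g.1 (sn n - i)
          ≤ ∑ n ∈ range (2 * T), wc σ Y g.2 (sn n) * MX := by
            apply sum_le_sum
            intro n _
            rw [← mul_sum]
            apply mul_le_mul_of_nonneg_left _ (wc_nonneg _ _ _ _)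
            apply hc_sum σ X g.1 J (fun i => sn n - i)
            intro x _ y _ h
            simp only at h
            omega
        _ ≤ MY * MX := by
            rw [← sum_mul]
            apply mul_le_mul_of_nonneg_right _ hMX0
            exact wc_sum σ Y g.2 (range (2 * T)) sn hsn_inj.injOn
    have t3 : ∑ i ∈ J, ∑ n ∈ range (2 * T), wc σ X g.1 (sn n - i) * hc σ Y g.2 (sn n) ≤
        MX * MY := by
      rw [sum_comm]
      calc ∑ n ∈ range (2 * T), ∑ i ∈ J, wc σ X g.1 (sn n - i) * hc σ Y g.2 (sn n)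
          ≤ ∑ n ∈ range (2 * T), MX * hc σ Y g.2 (sn n) := by
            apply sum_le_sum
            intro n _
            rw [← sum_mul]
            apply mul_le_mul_of_nonneg_right _ (hc_nonneg _ _ _ _)
            apply wc_sum σ X g.1 J (fun i => sn n - i)
            intro x _ y _ h
            simp only at h
            omega
        _ ≤ MX * MY := by
            rw [← mul_sum]
            apply mul_le_mul_of_nonneg_left _ hMX0
            exact hc_sum σ Y g.2 (range (2 * T)) sn hsn_inj.injOn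
    have e : ∑ i ∈ J, ∑ n ∈ range (2 * T), NN g i n =
        δ * ∑ i ∈ J, ∑ n ∈ range (2 * T), (Y.card * hc σ (Z i) g.1 (sn n - i) +
          (Z i).card * hc σ Y g.2 (sn n)) +
        C * (∑ i ∈ J, ∑ n ∈ range (2 * T), wc σ Y g.2 (sn n) * hc σ X g.1 (sn n - i) +
          ∑ i ∈ J, ∑ n ∈ range (2 * T), wc σ X g.1 (sn n - i) * hc σ Y g.2 (sn n)) := by
      simp only [hNN, sum_add_distrib, mul_sum, mul_add]
    rw [e]
    have h1 := mul_le_mul_of_nonneg_left t1 hδ.le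
    have h2 := mul_le_mul_of_nonneg_left (add_le_add t2 t3) hC0
    refine (add_le_add h1 h2).trans (le_of_eq ?_)
    ring
  refine (sum_le_sum key).trans (le_of_eq ?_)
  rw [sum_const, nsmul_eq_mul]
  have e16 : ((univ : Finset ((Bool × Bool) × (Bool × Bool))).card : ℝ) = 16 := by
    norm_num [Finset.card_univ]
  rw [e16, hMX, hMY]
  ring

end

end Pool.Agent.H85.AK
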