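import Pool.Agent.H85.AK.Slp1

/-!
Scalars which depend on the point: valuations.
-/

set_option autoImplicit false

namespace Pool.Agent.H85.AK

open Finset
open scoped Classical

section

variable {F : Type} [Field F] {Γ₀ : Type} [LinearOrderedCommGroupWithZero Γ₀] {ζ : Type*}

/-- the fibres of the label `L` have slopes of the valuation `ρ` -/
def ValLab (v : Valuation F Γ₀) (Ω : Finset (F × F)) (ρ : Γ₀) (L : F × F → ζ) : Prop :=
  ∀ a ∈ Ω, ∀ b ∈ Ω, L b = L a → v (b.2 - a.2) = ρ * v (b.1 - a.1)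

/-- the neighbours at a level -/
noncomputable def nvL (v : Valuation F Γ₀) (Ω : Finset (F × F)) (L : F × F → ζ) (ρ γ : Γ₀)
    (a : F × F) : ℝ :=
  ((Ω.filter fun b => L b = L a ∧
    cos (ble v (γ / ρ)) b.1 = cos (ble v (γ / ρ)) a.1 ∧ cos (ble v γ) b.2 = cos (ble v γ) a.2 ∧
    (cos (blt v (γ / ρ)) b.1 = cos (blt v (γ / ρ)) a.1 ∨
      cos (blt v γ) b.2 = cos (blt v γ) a.2)).card : ℝ)

/-- the points of a fibre at a level -/
noncomputable def cvlL (v : Valuation F Γ₀) (Ω : Finset (F × F)) (L : F × F → ζ) (ρ γ : Γ₀)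
    (a : F × F) : ℝ :=
  ct Ω (fun b => (L b, (cos (ble v (γ / ρ)) b.1, cos (ble v γ) b.2))) a

/-- **the fibre as a sum over the levels** -/
theorem val_fibreL (hlev : Stmt2.S_levels) (v : Valuation F Γ₀) {Ω : Finset (F × F)} {ρ : Γ₀}
    (hρ : ρ ≠ 0) {L : F × F → ζ} (hL : ValLab v Ω ρ L) {Φ : Finset Γ₀} (hΦ : ∀ γ ∈ Φ, γ ≠ 0)
    (hmem : ∀ a ∈ Ω, ∀ b ∈ Ω, a.2 ≠ b.2 → v (b.2 - a.2) ∈ Φ) {a : F × F} (ha : a ∈ Ω) :
    Real.log (ct Ω L a) =
      ∑ γ ∈ Φ, (Real.log (cvlL v Ω L ρ γ a) - Real.log (nvL v Ω L ρ γ a)) := by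
  -- the two coordinates on a fibre
  have heq : ∀ b ∈ Ω, L b = L a → (b.1 = a.1 ↔ b.2 = a.2) := by
    intro b hb h
    have h1 := hL a ha b hb h
    constructor
    · intro h2
      rw [h2, sub_self, map_zero, mul_zero] at h1
      exact sub_eq_zero.1 ((Valuation.zero_iff v).1 h1)
    · intro h2
      rw [h2, sub_self, map_zero] at h1
      rcases mul_eq_zero.1 h1.symm with h3 | h3
      · exact absurd h3 hρ
      · exact sub_eq_zero.1 ((Valuation.zero_iff v).1 h3)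
  set S : Finset (F × F) := (Ω.erase a).filter fun b => L b = L a with hS
  have hne : ∀ b ∈ S, a.2 ≠ b.2 := by
    intro b hb h
    obtain ⟨h1, h2⟩ := mem_filter.1 hb
    apply (mem_erase.1 h1).1
    exact Prod.ext ((heq b (mem_of_mem_erase h1) h2).2 h.symm) h.symm
  have h := (hlev (F × F) Γ₀ S (fun b => v (b.2 - a.2)) Φ).2 (by
    intro b hb
    exact hmem a ha b (mem_of_mem_erase (mem_filter.1 hb).1) (hne b hb))
  have e0 : ct Ω L a = 1 + (S.card : ℝ) := by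
    apply ct_eq_filter ha
    intro b _
    constructor
    · intro h1
      by_cases h2 : b = a
      · exact Or.inl h2
      · exact Or.inr ⟨h2, h1⟩
    · rintro (rfl | h1)
      · rfl
      · exact h1.2
  rw [e0, ← h]
  apply sum_congr rfl
  intro γ hγ
  have hγ0 := hΦ γ hγ
  have hγp : 0 < γ := zero_lt_iff.2 hγ0
  have hvp : 0 < ρ := zero_lt_iff.2 hρ
  have key1 : ∀ b ∈ Ω, L b = L a → (v (b.1 - a.1) ≤ γ / ρ ↔ v (b.2 - a.2) ≤ γ) := by
    intro b hb hb'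
    rw [hL a ha b hb hb', le_div_iff₀ hvp, mul_comm]
  have key2 : ∀ b ∈ Ω, L b = L a → (v (b.1 - a.1) < γ / ρ ↔ v (b.2 - a.2) < γ) := by
    intro b hb hb'
    rw [hL a ha b hb hb', lt_div_iff₀ hvp, mul_comm]
  have e1 : cvlL v Ω L ρ γ a = 1 + ((S.filter fun b => v (b.2 - a.2) ≤ γ).card : ℝ) := by
    rw [hS, filter_filter]
    apply ct_eq_filter ha
    intro b hb
    rw [Prod.mk.injEq, Prod.mk.injEq, cos_eq, cos_eq, mem_ble, mem_ble]
    constructor
    · rintro ⟨h1, _, h3⟩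
      by_cases h2 : b = a
      · exact Or.inl h2
      · exact Or.inr ⟨h2, h1, h3⟩
    · rintro (rfl | ⟨_, h1, h3⟩)
      · rw [sub_self, sub_self, map_zero]
        exact ⟨rfl, zero_le', zero_le'⟩
      · exact ⟨h1, (key1 b hb h1).2 h3, h3⟩
  have e2 : nvL v Ω L ρ γ a = 1 + ((S.filter fun b => v (b.2 - a.2) < γ).card : ℝ) := by
    rw [hS, filter_filter]
    unfold nvL
    apply card_insert_filter ha
    intro b hb
    rw [cos_eq, cos_eq, cos_eq, cos_eq, mem_ble, mem_ble, mem_blt, mem_blt]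
    constructor
    · rintro ⟨h1, _, _, h4⟩
      by_cases h2 : b = a
      · exact Or.inl h2
      · refine Or.inr ⟨h2, h1, ?_⟩
        rcases h4 with (h4 | h4) | (h4 | h4)
        · exfalso
          apply h2
          have h5 := sub_eq_zero.1 h4
          exact Prod.ext h5 ((heq b hb h1).1 h5)
        · exact (key2 b hb h1).1 h4
        · exfalso
          apply h2
          have h5 := sub_eq_zero.1 h4
          exact Prod.ext ((heq b hb h1).2 h5) h5
        · exact h4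
    · rintro (rfl | ⟨_, h1, h3⟩)
      · rw [sub_self, sub_self, map_zero]
        exact ⟨rfl, zero_le', zero_le', Or.inl (Or.inl rfl)⟩
      · exact ⟨h1, (key1 b hb h1).2 h3.le, h3.le, Or.inr (Or.inr h3)⟩
  rw [e1, e2]

/-- one node -/
theorem val_cellL {δ : ℝ} (hδ : 0 < δ) (hδ1 : δ ≤ 1) (v : Valuation F Γ₀) (X Y : Finset F)
    (L : F × F → ζ) (ρ γ : Γ₀) :
    ∑ a ∈ X ×ˢ Y, (Real.log (cvlL v (X ×ˢ Y) L ρ γ a) - Real.log (nvL v (X ×ˢ Y) L ρ γ a)) ≤
      δ * (Y.card * hv v X (γ / ρ) + X.card * hv v Y γ) +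
      (2 + Real.exp (1 / δ)) * (wv v Y γ * hv v X (γ / ρ) + wv v X (γ / ρ) * hv v Y γ) :=
  arc_node hδ hδ1 X Y L (ref_ball v X (γ / ρ)) (ref_ball v Y γ)

/-- **the sum over the scalars, with subsets** -/
theorem val_sumL (hlev : Stmt2.S_levels) {δ : ℝ} (hδ : 0 < δ) (hδ1 : δ ≤ 1) (v : Valuation F Γ₀)
    (X Y : Finset F) (J : Finset Γ₀) (hJ : ∀ ρ ∈ J, ρ ≠ 0) (L : Γ₀ → F × F → ζ)
    (Z : Γ₀ → Finset F) (hZ : ∀ i ∈ J, Z i ⊆ X) (hL : ∀ i ∈ J, ValLab v (Z i ×ˢ Y) i (L i)) :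
    ∑ i ∈ J, ∑ a ∈ Z i ×ˢ Y, Real.log (ct (Z i ×ˢ Y) (L i) a) ≤
      80 * δ * ∑ i ∈ J, (Z i).card * Y.card * (Real.log (X.card : ℝ) + Real.log (Y.card : ℝ)) +
      800 * (2 + Real.exp (1 / δ)) * ((X.card * Real.log (X.card : ℝ)) *
        (Y.card * Real.log (Y.card : ℝ))) := by
  set MX : ℝ := X.card * Real.log (X.card : ℝ) with hMX
  set MY : ℝ := Y.card * Real.log (Y.card : ℝ) with hMY
  have hMX0 : 0 ≤ MX := by
    have := Real.log_natCast_nonneg X.card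
    positivity
  have hMY0 : 0 ≤ MY := by
    have := Real.log_natCast_nonneg Y.card
    positivity
  set C : ℝ := 2 + Real.exp (1 / δ) with hC
  have hC0 : 0 ≤ C := by positivity
  set Φ : Finset Γ₀ := ((Y ×ˢ Y).filter fun c => c.1 ≠ c.2).image fun c => v (c.2 - c.1) with hΦ
  have hΦ0 : ∀ γ ∈ Φ, γ ≠ 0 := by
    intro γ hγ
    obtain ⟨c, hc, rfl⟩ := mem_image.1 hγ
    exact (Valuation.ne_zero_iff v).2 (sub_ne_zero.2 (mem_filter.1 hc).2.symm)
  have hmem : ∀ i, ∀ a ∈ Z i ×ˢ Y, ∀ b ∈ Z i ×ˢ Y, a.2 ≠ b.2 → v (b.2 - a.2) ∈ Φ := by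
    intro i a ha b hb hab
    exact mem_image.2 ⟨(a.2, b.2), mem_filter.2 ⟨mem_product.2 ⟨(mem_product.1 ha).2,
      (mem_product.1 hb).2⟩, hab⟩, rfl⟩
  -- one scalar
  have one : ∀ i ∈ J, ∑ a ∈ Z i ×ˢ Y, Real.log (ct (Z i ×ˢ Y) (L i) a) ≤
      ∑ γ ∈ Φ, (δ * (Y.card * hv v (Z i) (γ / i) + (Z i).card * hv v Y γ) +
      C * (wv v Y γ * hv v X (γ / i) + wv v X (γ / i) * hv v Y γ)) := by
    intro i hi
    rw [sum_congr rfl fun a ha => val_fibreL hlev v (hJ i hi) (hL i hi) hΦ0 (hmem i) ha, sum_comm]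
    apply sum_le_sum
    intro γ _
    refine (val_cellL hδ hδ1 v (Z i) Y (L i) i γ).trans ?_
    apply add_le_add le_rfl
    apply mul_le_mul_of_nonneg_left _ hC0
    apply add_le_add
    · exact mul_le_mul_of_nonneg_left (hs_mono (hZ i hi) (ref_ball v X _)) (wv_nonneg _ _ _)
    · exact mul_le_mul_of_nonneg_right (ws_mono (hZ i hi) _ _) (hv_nonneg _ _ _)
  refine (sum_le_sum one).trans ?_
  set SS : ℝ := ∑ i ∈ J, (Z i).card * Y.card * (Real.log (X.card : ℝ) + Real.log (Y.card : ℝ))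
    with hSS
  have hSS0 : 0 ≤ SS := by
    apply sum_nonneg
    intro i _
    have := Real.log_natCast_nonneg X.card
    have := Real.log_natCast_nonneg Y.card
    positivity
  have t1 : ∑ i ∈ J, ∑ γ ∈ Φ, (Y.card * hv v (Z i) (γ / i) + (Z i).card * hv v Y γ) ≤
      SS := by
    rw [hSS]
    apply sum_le_sum
    intro i hi
    rw [sum_add_distrib, ← mul_sum, ← mul_sum]
    have b1 : ∑ γ ∈ Φ, hv v (Z i) (γ / i) ≤ (Z i).card * Real.log (X.card : ℝ) := by
      refine (hv_sum hlev v (Z i) Φ (fun γ => γ / i) ?_).trans ?_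
      · intro x _ y _ h
        exact (div_left_inj' (hJ i hi)).1 h
      · rcases (Z i).eq_empty_or_nonempty with h0 | h0
        · rw [h0, card_empty]
          simp
        · apply mul_le_mul_of_nonneg_left _ (Nat.cast_nonneg _)
          apply Real.log_le_log
          · exact_mod_cast card_pos.2 h0
          · exact_mod_cast card_le_card (hZ i hi)
    have b2 : ∑ γ ∈ Φ, hv v Y γ ≤ MY := hv_sum hlev v Y Φ id (Set.injOn_id _)
    have c1 := mul_le_mul_of_nonneg_left b1 (Nat.cast_nonneg Y.card : (0 : ℝ) ≤ Y.card)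
    have c2 := mul_le_mul_of_nonneg_left b2 (Nat.cast_nonneg (Z i).card : (0 : ℝ) ≤ (Z i).card)
    refine (add_le_add c1 c2).trans (le_of_eq ?_)
    rw [hMY]
    ring
  have inj2 : ∀ γ ∈ Φ, Set.InjOn (fun i => γ / i) (J : Set Γ₀) := by
    intro γ hγ x hx y hy h
    simp only at h
    have h1 := hΦ0 γ hγ
    have hx0 := hJ x hx
    have hy0 := hJ y hy
    rw [div_eq_div_iff hx0 hy0] at h
    exact (mul_left_cancel₀ h1 h).symm
  have t2 : ∑ i ∈ J, ∑ γ ∈ Φ, wv v Y γ * hv v X (γ / i) ≤ MY * MX := by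
    rw [sum_comm]
    calc ∑ γ ∈ Φ, ∑ i ∈ J, wv v Y γ * hv v X (γ / i)
        ≤ ∑ γ ∈ Φ, wv v Y γ * MX := by
          apply sum_le_sum
          intro γ hγ
          rw [← mul_sum]
          exact mul_le_mul_of_nonneg_left (hv_sum hlev v X J _ (inj2 γ hγ)) (wv_nonneg _ _ _)
      _ ≤ MY * MX := by
          rw [← sum_mul]
          apply mul_le_mul_of_nonneg_right _ hMX0
          exact wv_sum hlev v Y Φ id (Set.injOn_id _)
  have t3 : ∑ i ∈ J, ∑ γ ∈ Φ, wv v X (γ / i) * hv v Y γ ≤ MX * MY := by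
    rw [sum_comm]
    calc ∑ γ ∈ Φ, ∑ i ∈ J, wv v X (γ / i) * hv v Y γ
        ≤ ∑ γ ∈ Φ, MX * hv v Y γ := by
          apply sum_le_sum
          intro γ hγ
          rw [← sum_mul]
          exact mul_le_mul_of_nonneg_right (wv_sum hlev v X J _ (inj2 γ hγ)) (hv_nonneg _ _ _)
      _ ≤ MX * MY := by
          rw [← mul_sum]
          apply mul_le_mul_of_nonneg_left _ hMX0
          exact hv_sum hlev v Y Φ id (Set.injOn_id _)
  have e : ∑ i ∈ J, ∑ γ ∈ Φ, (δ * (Y.card * hv v (Z i) (γ / i) + (Z i).card * hv v Y γ) +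
      C * (wv v Y γ * hv v X (γ / i) + wv v X (γ / i) * hv v Y γ)) =
      δ * ∑ i ∈ J, ∑ γ ∈ Φ, (Y.card * hv v (Z i) (γ / i) + (Z i).card * hv v Y γ) +
      C * (∑ i ∈ J, ∑ γ ∈ Φ, wv v Y γ * hv v X (γ / i) +
        ∑ i ∈ J, ∑ γ ∈ Φ, wv v X (γ / i) * hv v Y γ) := by
    simp only [sum_add_distrib, mul_sum, mul_add]
  rw [e]
  have h1 := mul_le_mul_of_nonneg_left t1 hδ.le
  have h2 := mul_le_mul_of_nonneg_left (add_le_add t2 t3) hC0
  refine (add_le_add h1 h2).trans ?_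
  have h3 : δ * SS ≤ 80 * δ * SS := by
    have : 0 ≤ δ * SS := mul_nonneg hδ.le hSS0
    linarith
  have h4 : C * (MY * MX + MX * MY) ≤ 800 * C * (MX * MY) := by
    have h5 : 0 ≤ C * (MX * MY) := by positivity
    have e5 : C * (MY * MX + MX * MY) = 2 * (C * (MX * MY)) := by ring
    have e6 : 800 * C * (MX * MY) = 800 * (C * (MX * MY)) := by ring
    rw [e5, e6]
    linarith
  exact add_le_add h3 h4

end

end Pool.Agent.H85.AK
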