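import Pool.Agent.H85.AK.Slp2
import Pool.Agent.H225.AKLevels

/-!
The weak type inequality: scalars which depend on the point.
-/

set_option autoImplicit false

namespace Pool.Agent.H85.AK

open Finset
open scoped Pointwise

/-- the scalars which are active at a point -/
def actv {F V : Type*} [SMul F V] [DecidableEq V] (A : Finset V) (R : Finset F) (c : V) : Finset F :=
  R.filter fun r => r • c ∈ A

theorem actv_sub {F V : Type*} [SMul F V] [DecidableEq V] (A : Finset V) (R : Finset F) (c : V) :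
    actv A R c ⊆ R := filter_subset _ _

/-- double counting -/
theorem sum_actv {F V ι : Type*} [SMul F V] [DecidableEq V] [DecidableEq ι] (A C : Finset V)
    (R : Finset F) (w : F → ι) :
    ∑ c ∈ C, ((actv A R c).image w).card =
      ∑ i ∈ R.image w, (C.filter fun c => ∃ r ∈ R, w r = i ∧ r • c ∈ A).card := by
  have h1 : ∀ c ∈ C, ((actv A R c).image w).card =
      ∑ i ∈ R.image w, if (∃ r ∈ R, w r = i ∧ r • c ∈ A) then 1 else 0 := by
    intro c _
    rw [← card_filter]
    congr 1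
    ext i
    unfold actv
    simp only [mem_image, mem_filter]
    constructor
    · rintro ⟨r, ⟨h2, h3⟩, h4⟩
      exact ⟨⟨r, h2, h4⟩, r, h2, h4, h3⟩
    · rintro ⟨_, r, h2, h3, h4⟩
      exact ⟨r, ⟨h2, h4⟩, h3⟩
  rw [sum_congr rfl h1, sum_comm]
  apply sum_congr rfl
  intro i _
  rw [card_filter]

/-- a place of weak type with the constant `E` -/
def WT (F : Type) [Field F] {ι : Type} [DecidableEq ι] (w : F → ι) (ε E : ℝ) : Prop :=
  ∀ (V : Type) [AddCommGroup V] [Module F V] [DecidableEq V] (A C B : Finset V) (R : Finset F),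
    2 ≤ C.card → B.Nonempty → (R.card : ℝ) ≤ (C.card : ℝ) ^ (ε / 4) → (∀ r ∈ R, r ≠ 0) →
    ((A + B).card : ℝ) ≤ ((C.card : ℝ) * B.card) ^ (1 - ε) →
    ((∑ c ∈ C, ((actv A R c).image w).card : ℕ) : ℝ) ≤ E * (C.card * Real.log C.card)

/-- the deduction of the weak type inequality from the sum over the scales -/
theorem coreW {ε : ℝ} (hε : 0 < ε) (hε1 : ε ≤ 1) {F : Type*} [Field F] [DecidableEq F]
    (A C B : Finset F) (R : Finset F) {ι : Type*} [DecidableEq ι] (w : F → ι)
    (hC : 2 ≤ C.card) (hB : B.Nonempty) (hRC : (R.card : ℝ) ≤ (C.card : ℝ) ^ (ε / 4))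
    (hAB : (((A ×ˢ B).image fun s => s.1 + s.2).card : ℝ) ≤ ((C.card : ℝ) * B.card) ^ (1 - ε))
    (hsum : ∀ δ : ℝ, 0 < δ → δ ≤ 1 → ∀ (J : Finset ι) (f : ι → F → F) (Z : ι → Finset F),
      J ⊆ R.image w → (∀ i ∈ J, Z i ⊆ C) → (∀ i ∈ J, ∀ c ∈ Z i, f i c ∈ R ∧ w (f i c) = i) →
      ∑ i ∈ J, ∑ a ∈ Z i ×ˢ B,
        Real.log (ct (Z i ×ˢ B) (fun b => (f i b.1, f i b.1 * b.1 + b.2)) a) ≤
      80 * δ * ∑ i ∈ J, (Z i).card * B.card * (Real.log (C.card : ℝ) + Real.log (B.card : ℝ)) +
      800 * (2 + Real.exp (1 / δ)) * ((C.card * Real.log (C.card : ℝ)) *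
        (B.card * Real.log (B.card : ℝ)))) :
    ∑ i ∈ R.image w, ((C.filter fun c => ∃ r ∈ R, w r = i ∧ r * c ∈ A).card : ℝ) ≤
      Real.exp (331 / ε) * (C.card * Real.log C.card) := by
  have hC2 : (2 : ℝ) ≤ C.card := by exact_mod_cast hC
  have hC0 : (0 : ℝ) < C.card := by linarith
  have hB1 : (1 : ℝ) ≤ B.card := by exact_mod_cast card_pos.2 hB
  have hB0 : (0 : ℝ) < B.card := by linarith
  set lc : ℝ := Real.log (C.card : ℝ) with hlc
  set lb : ℝ := Real.log (B.card : ℝ) with hlb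
  have lc1 : 1 / 2 ≤ lc := by
    have h1 : Real.log 2 ≤ lc := Real.log_le_log (by norm_num) hC2
    have h2 := Real.log_two_gt_d9
    linarith
  have lc0 : 0 < lc := by linarith
  have lb0 : 0 ≤ lb := Real.log_nonneg hB1
  set N : ℝ := (C.card : ℝ) * B.card with hN
  have hN0 : 0 < N := by positivity
  have hlN : Real.log N = lc + lb := Real.log_mul hC0.ne' (by linarith)
  set Z : ι → Finset F := fun i => C.filter fun c => ∃ r ∈ R, w r = i ∧ r * c ∈ A with hZ
  have hex : ∀ (i : ι) (c : F), ∃ r : F, c ∈ Z i → r ∈ R ∧ w r = i ∧ r * c ∈ A := by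
    intro i c
    by_cases h : c ∈ Z i
    · obtain ⟨r, h1, h2, h3⟩ := (mem_filter.1 h).2
      exact ⟨r, fun _ => ⟨h1, h2, h3⟩⟩
    · exact ⟨0, fun h' => absurd h' h⟩
  choose f hf using hex
  set J : Finset ι := (R.image w).filter fun i => (C.card : ℝ) ^ (1 - ε / 4) ≤ ((Z i).card : ℝ)
    with hJ
  -- the lower bound for one scale
  have low : ∀ i ∈ J, ε / 2 * ((Z i).card * B.card * (lc + lb)) ≤
      ∑ a ∈ Z i ×ˢ B, Real.log (ct (Z i ×ˢ B) (fun b => (f i b.1, f i b.1 * b.1 + b.2)) a) := by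
    intro i hi
    obtain ⟨hi1, hi2⟩ := mem_filter.1 hi
    have hR1 : (1 : ℝ) ≤ R.card := by
      obtain ⟨r, hr, _⟩ := mem_image.1 hi1
      exact_mod_cast card_pos.2 ⟨r, hr⟩
    have hz0 : (0 : ℝ) < (Z i).card := lt_of_lt_of_le (Real.rpow_pos_of_pos hC0 _) hi2
    have hzne : (Z i).Nonempty := card_pos.1 (by exact_mod_cast hz0)
    have h1 := image_log (Ω := Z i ×ˢ B) (hzne.product hB)
      (z := fun b : F × F => (f i b.1, f i b.1 * b.1 + b.2)) (D := R.card * N ^ (1 - ε)) (by
        have h2 : ((Z i ×ˢ B).image fun b : F × F => (f i b.1, f i b.1 * b.1 + b.2)).card ≤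
            (R ×ˢ ((A ×ˢ B).image fun s => s.1 + s.2)).card := by
          apply card_le_card
          intro u hu
          obtain ⟨s, hs, rfl⟩ := mem_image.1 hu
          obtain ⟨h3, h4⟩ := mem_product.1 hs
          obtain ⟨h5, _, h6⟩ := hf i s.1 h3
          refine mem_product.2 ⟨h5, mem_image.2 ⟨(f i s.1 * s.1, s.2), ?_, rfl⟩⟩
          exact mem_product.2 ⟨h6, h4⟩
        rw [card_product] at h2
        have h3 : (((Z i ×ˢ B).image fun b : F × F => (f i b.1, f i b.1 * b.1 + b.2)).card : ℝ) ≤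
            R.card * (((A ×ˢ B).image fun s => s.1 + s.2).card : ℝ) := by exact_mod_cast h2
        exact h3.trans (mul_le_mul_of_nonneg_left hAB (Nat.cast_nonneg _)))
    refine le_trans ?_ h1
    rw [card_product]
    push_cast
    rw [Real.log_mul hz0.ne' hB0.ne', Real.log_mul (by linarith) (Real.rpow_pos_of_pos hN0 _).ne',
      Real.log_rpow hN0, hlN]
    have h2 : (1 - ε / 4) * lc ≤ Real.log ((Z i).card : ℝ) := by
      rw [hlc, ← Real.log_rpow hC0]
      exact Real.log_le_log (Real.rpow_pos_of_pos hC0 _) hi2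
    have h2' : Real.log (R.card : ℝ) ≤ ε / 4 * lc := by
      rw [hlc, ← Real.log_rpow hC0]
      exact Real.log_le_log (by linarith) hRC
    have h3 : ε / 2 * (lc + lb) ≤ Real.log ((Z i).card : ℝ) + lb -
        (Real.log (R.card : ℝ) + (1 - ε) * (lc + lb)) := by
      have h4 : 0 ≤ ε * lb := by positivity
      nlinarith
    have h5 := mul_le_mul_of_nonneg_left h3 (show 0 ≤ ((Z i).card : ℝ) * B.card by positivity)
    refine le_trans (le_of_eq ?_) h5
    ring
  have h1 := sum_le_sum low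
  rw [← mul_sum] at h1
  set x : ℝ := 1 / ε with hx
  have hx1 : 1 ≤ x := by
    rw [hx, le_div_iff₀ hε]
    linarith
  have hx0 : 0 < x := by linarith
  have hδ : 1 / (1 / (320 * x)) = 320 * x := by
    field_simp
  have h2 := hsum (1 / (320 * x)) (by positivity) (by
    rw [div_le_one (by positivity)]
    linarith) J f Z (filter_subset _ _) (fun i _ => filter_subset _ _) (fun i _ c hc =>
      ⟨(hf i c hc).1, (hf i c hc).2.1⟩)
  rw [hδ] at h2
  have h3 := h1.trans h2
  set E : ℝ := 2 + Real.exp (320 * x) with hE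
  have hE0 : 0 < E := by positivity
  set SZ : ℝ := ∑ i ∈ J, ((Z i).card : ℝ) with hSZ
  have hSS : ∑ i ∈ J, (Z i).card * B.card * (lc + lb) = SZ * (B.card * (lc + lb)) := by
    rw [hSZ, sum_mul]
    apply sum_congr rfl
    intro i _
    ring
  have e1 : 80 * (1 / (320 * x)) = ε / 4 := by
    rw [hx]
    field_simp
    norm_num
  rw [e1, hSS] at h3
  have h4 : ε / 4 * (SZ * (B.card * (lc + lb))) ≤ 800 * E * ((C.card * lc) * (B.card * lb)) := by
    linarith
  have h6 : 800 * E * ((C.card * lc) * (B.card * lb)) ≤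
      800 * E * ((C.card * lc) * (B.card * (lc + lb))) := by
    apply mul_le_mul_of_nonneg_left _ (by positivity)
    apply mul_le_mul_of_nonneg_left _ (by positivity)
    apply mul_le_mul_of_nonneg_left _ hB0.le
    linarith
  have hp : 0 < B.card * (lc + lb) := by positivity
  have h7 : (ε / 4 * SZ) * (B.card * (lc + lb)) ≤ (800 * E * (C.card * lc)) * (B.card * (lc + lb)) := by
    have a1 : (ε / 4 * SZ) * (B.card * (lc + lb)) = ε / 4 * (SZ * (B.card * (lc + lb))) := by ring
    have a2 : (800 * E * (C.card * lc)) * (B.card * (lc + lb)) =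
        800 * E * ((C.card * lc) * (B.card * (lc + lb))) := by ring
    rw [a1, a2]
    linarith
  have h8 := le_of_mul_le_mul_right h7 hp
  have h9 : SZ ≤ 3200 * x * E * (C.card * lc) := by
    have e3 : 4 * x * (ε / 4 * SZ) = SZ := by
      rw [hx]
      field_simp
    have h8' := mul_le_mul_of_nonneg_left h8 (show 0 ≤ 4 * x by positivity)
    rw [e3] at h8'
    refine h8'.trans (le_of_eq ?_)
    ring
  have h10 : 3200 * x * E * (C.card * lc) ≤ Real.exp (330 * x) * (C.card * lc) :=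
    mul_le_mul_of_nonneg_right (exp_bound3 hx1) (by positivity)
  -- the small classes
  have h11 : ∑ i ∈ (R.image w).filter fun i => ¬ (C.card : ℝ) ^ (1 - ε / 4) ≤ ((Z i).card : ℝ),
      ((Z i).card : ℝ) ≤ C.card := by
    calc ∑ i ∈ (R.image w).filter fun i => ¬ (C.card : ℝ) ^ (1 - ε / 4) ≤ ((Z i).card : ℝ),
          ((Z i).card : ℝ)
        ≤ ∑ i ∈ (R.image w).filter fun i => ¬ (C.card : ℝ) ^ (1 - ε / 4) ≤ ((Z i).card : ℝ),
          (C.card : ℝ) ^ (1 - ε / 4) :=
          sum_le_sum fun i hi => (not_le.1 (mem_filter.1 hi).2).le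
      _ ≤ R.card * (C.card : ℝ) ^ (1 - ε / 4) := by
          rw [sum_const, nsmul_eq_mul]
          apply mul_le_mul_of_nonneg_right _ (Real.rpow_nonneg hC0.le _)
          exact_mod_cast (card_filter_le _ _).trans card_image_le
      _ ≤ (C.card : ℝ) ^ (ε / 4) * (C.card : ℝ) ^ (1 - ε / 4) :=
          mul_le_mul_of_nonneg_right hRC (Real.rpow_nonneg hC0.le _)
      _ = C.card := by
          rw [← Real.rpow_add hC0]
          have : ε / 4 + (1 - ε / 4) = 1 := by ring
          rw [this, Real.rpow_one]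
  have h12 : ∑ i ∈ R.image w, ((Z i).card : ℝ) ≤ SZ + C.card := by
    rw [← sum_filter_add_sum_filter_not (R.image w)
      (fun i => (C.card : ℝ) ^ (1 - ε / 4) ≤ ((Z i).card : ℝ))]
    exact add_le_add le_rfl h11
  have e4 : 331 / ε = 330 * x + x := by
    rw [hx]
    ring
  have h13 : Real.exp (330 * x) + 2 ≤ Real.exp (331 / ε) := by
    rw [e4, Real.exp_add]
    have a1 : 2 ≤ Real.exp x := by
      have := Real.add_one_le_exp x
      linarith
    have a2 : 2 ≤ Real.exp (330 * x) := by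
      have := Real.add_one_le_exp (330 * x)
      linarith
    nlinarith
  have h14 : (C.card : ℝ) ≤ 2 * (C.card * lc) := by nlinarith
  calc ∑ i ∈ R.image w, ((Z i).card : ℝ) ≤ SZ + C.card := h12
    _ ≤ (Real.exp (330 * x) + 2) * (C.card * lc) := by
        rw [add_mul]
        linarith
    _ ≤ Real.exp (331 / ε) * (C.card * lc) :=
        mul_le_mul_of_nonneg_right h13 (by positivity)

/-- the passage to vector spaces -/
theorem vecW {F : Type} [Field F] [Infinite F] {ι : Type} [DecidableEq ι] (w : F → ι) {ε E : ℝ}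
    (H : ∀ [DecidableEq F] (A C B R : Finset F), 2 ≤ C.card → B.Nonempty →
      (R.card : ℝ) ≤ (C.card : ℝ) ^ (ε / 4) → (∀ r ∈ R, r ≠ 0) →
      (((A ×ˢ B).image fun s => s.1 + s.2).card : ℝ) ≤ ((C.card : ℝ) * B.card) ^ (1 - ε) →
      ∑ i ∈ R.image w, ((C.filter fun c => ∃ r ∈ R, w r = i ∧ r * c ∈ A).card : ℝ) ≤
        E * (C.card * Real.log C.card)) : WT F w ε E := by
  classical
  intro V _ _ _ A C B R hC hB hRC hR0 hAB
  obtain ⟨f, hfC, hfB⟩ := exists_dual_inj (F := F) C B
  have hCc : (C.image f).card = C.card := card_image_of_injOn hfC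
  have hBc : (B.image f).card = B.card := card_image_of_injOn hfB
  have key := H (A.image f) (C.image f) (B.image f) R (by rw [hCc]; exact hC) (hB.image f)
    (by rw [hCc]; exact hRC) hR0 (by
      rw [hCc, hBc]
      refine le_trans (Nat.cast_le.2 ?_) hAB
      have h1 : ((A.image f ×ˢ B.image f).image fun s => s.1 + s.2) ⊆ (A + B).image f := by
        intro u hu
        obtain ⟨⟨x, y⟩, hxy, rfl⟩ := mem_image.1 hu
        obtain ⟨hx, hy⟩ := mem_product.1 hxy
        obtain ⟨a, ha, rfl⟩ := mem_image.1 hx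
        obtain ⟨b, hb, rfl⟩ := mem_image.1 hy
        exact mem_image.2 ⟨a + b, add_mem_add ha hb, map_add _ _ _⟩
      exact (card_le_card h1).trans card_image_le)
  rw [hCc] at key
  refine le_trans ?_ key
  rw [sum_actv]
  push_cast
  apply sum_le_sum
  intro i _
  apply Nat.cast_le.2
  apply card_le_card_of_injOn f
  · intro c hc
    obtain ⟨h1, r, h2, h3, h4⟩ := mem_filter.1 hc
    refine mem_filter.2 ⟨mem_image_of_mem _ h1, r, h2, h3, ?_⟩
    have h5 : r * f c = f (r • c) := by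
      rw [map_smul]
      rfl
    rw [h5]
    exact mem_image_of_mem _ h4
  · intro c hc c' hc' h
    exact hfC (mem_filter.1 hc).1 (mem_filter.1 hc').1 h

/-- **the weak type inequality, archimedean places** -/
theorem arcW {F : Type} [Field F] {ε : ℝ} (hε : 0 < ε) (hε1 : ε ≤ 1) (σ : F →+* ℂ) :
    WT F (fun r => Int.log 3 ‖σ r‖) ε (Real.exp (331 / ε)) := by
  have hchar : CharZero F := RingHom.charZero σ
  have hinf : Infinite F := Infinite.of_injective (fun n : ℕ => (n : F)) Nat.cast_injective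
  apply vecW
  intro _ A C B R hC hB hRC hR0 hAB
  refine coreW hε hε1 A C B R _ hC hB hRC hAB ?_
  intro δ hδ hδ1 J f Z hJ hZ hf
  refine arc_sumL hδ hδ1 σ C B J (fun i b => (f i b.1, f i b.1 * b.1 + b.2)) Z hZ ?_
  intro i hi a ha b hb hlab
  simp only [Prod.mk.injEq] at hlab
  obtain ⟨h1, h2⟩ := hlab
  obtain ⟨h3, h4⟩ := hf i hi a.1 (mem_product.1 ha).1
  rw [h1] at h2
  have h5 := fibre_norm σ h2
  have h6 := hR0 _ h3
  have hpos : 0 < ‖σ (f i a.1)‖ := by
    rw [norm_pos_iff]
    exact (map_ne_zero σ).2 h6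
  have l1 : (3 : ℝ) ^ i ≤ ‖σ (f i a.1)‖ := by
    have := Int.zpow_log_le_self (b := 3) (by norm_num) hpos
    rw [show Int.log 3 ‖σ (f i a.1)‖ = i from h4] at this
    exact_mod_cast this
  have l2 : ‖σ (f i a.1)‖ < (3 : ℝ) ^ (i + 1) := by
    have := Int.lt_zpow_succ_log_self (b := 3) (by norm_num) ‖σ (f i a.1)‖
    rw [show Int.log 3 ‖σ (f i a.1)‖ = i from h4] at this
    exact_mod_cast this
  rw [h5]
  exact ⟨mul_le_mul_of_nonneg_right l1 (norm_nonneg _),
    mul_le_mul_of_nonneg_right l2.le (norm_nonneg _)⟩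

/-- **the weak type inequality, valuations** -/
theorem valW {F : Type} [Field F] {Γ₀ : Type} [LinearOrderedCommGroupWithZero Γ₀] {ε : ℝ}
    (hε : 0 < ε) (hε1 : ε ≤ 1) (v : Valuation F Γ₀) : WT F v ε (Real.exp (331 / ε)) := by
  classical
  rcases finite_or_infinite F with hfin | hinf
  · intro V _ _ _ A C B R hC hB hRC hR0 hAB
    have hC2 : (2 : ℝ) ≤ C.card := by exact_mod_cast hC
    have lc1 : 1 / 2 ≤ Real.log (C.card : ℝ) := by
      have h1 : Real.log 2 ≤ Real.log (C.card : ℝ) := Real.log_le_log (by norm_num) hC2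
      have h2 := Real.log_two_gt_d9
      linarith
    have h1 : ∑ c ∈ C, ((actv A R c).image v).card ≤ C.card := by
      rw [card_eq_sum_ones]
      apply sum_le_sum
      intro c _
      apply card_le_one.2
      intro a ha b hb
      obtain ⟨r, hr, rfl⟩ := mem_image.1 ha
      obtain ⟨r', hr', rfl⟩ := mem_image.1 hb
      rw [val_one_of_finite v (hR0 r (actv_sub A R c hr)),
        val_one_of_finite v (hR0 r' (actv_sub A R c hr'))]
    have h2 : ((∑ c ∈ C, ((actv A R c).image v).card : ℕ) : ℝ) ≤ C.card := by exact_mod_cast h1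
    have h3 : (2 : ℝ) ≤ Real.exp (331 / ε) := by
      have h4 := Real.add_one_le_exp (331 / ε)
      have h5 : (331 : ℝ) ≤ 331 / ε := by
        rw [le_div_iff₀ hε]
        linarith
      linarith
    have h4 : 2 * (C.card * (1 / 2)) ≤ Real.exp (331 / ε) * (C.card * Real.log (C.card : ℝ)) := by
      apply mul_le_mul h3 _ (by positivity) (by positivity)
      exact mul_le_mul_of_nonneg_left lc1 (Nat.cast_nonneg _)
    linarith
  · apply vecW
    intro _ A C B R hC hB hRC hR0 hAB
    refine coreW hε hε1 A C B R _ hC hB hRC hAB ?_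
    intro δ hδ hδ1 J f Z hJ hZ hf
    refine val_sumL Pool.Agent.H225.AKLevels.s_levels hδ hδ1 v C B J ?_
      (fun i b => (f i b.1, f i b.1 * b.1 + b.2)) Z hZ ?_
    · intro ρ hρ
      obtain ⟨r, hr, rfl⟩ := mem_image.1 (hJ hρ)
      exact (Valuation.ne_zero_iff v).2 (hR0 r hr)
    · intro i hi a ha b hb hlab
      simp only [Prod.mk.injEq] at hlab
      obtain ⟨h1, h2⟩ := hlab
      obtain ⟨h3, h4⟩ := hf i hi a.1 (mem_product.1 ha).1
      rw [h1] at h2
      have h5 := fibre_val v h2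
      rw [h5, h4]

end Pool.Agent.H85.AK
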