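import Mathlib

/-!
Statements for the theorem on almost symmetries of infinite order (all lemmas are independent of
each other; `S_growth` may use `S_place` as a hypothesis).

Main theorem in preparation (problem MP_cc0731_co): for a complex number `r ≠ 0` which is not a root
of unity and every `ε > 0` there is `c > 0` such that `|A ∪ rA| ≤ (1 + c / log|A|) |A|` implies
`|A + B| ≥ (|A| |B|) ^ (1 - ε)` for all finite `B ⊂ ℂ`; and this is sharp for every such `r`.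
-/

set_option autoImplicit false

namespace Pool.Agent.H85.AK.Stmt

open scoped Pointwise
open Finset

/-- **S_place.** A complex number of infinite order has a non-trivial absolute value.

Proof. (a) `r` transcendental over `ℚ`: `F = RatFunc ℚ`, acting on `ℂ` through the ring homomorphism
`f : RatFunc ℚ →+* ℂ` with `f X = r` (lift of `Polynomial.aeval r`, which is injective:
`RatFunc.liftRingHom` or `RatFunc.liftAlgHom`, `transcendental_iff_injective`), `Module.compHom ℂ f`;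
`x = X`, `v = (Polynomial.idealX ℚ).valuation (RatFunc ℚ)`, `v X = exp (-1) ≠ 1`
(`Polynomial.valuation_X_eq_neg_one`).
(b) `r` algebraic: `F = ℚ⟮r⟯` (`IntermediateField.adjoin ℚ {r}`), a number field,
`x = IntermediateField.AdjoinSimple.gen ℚ r`. Suppose `v x = 1` for the valuations of all height one
primes of `𝓞 F` and `‖σ x‖ = 1` for all `σ : F →+* ℂ`. Then `x` is an algebraic integer
(`IsDedekindDomain.HeightOneSpectrum.mem_integers_of_valuation_le_one`) and Kronecker's theorem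
(`NumberField.Embeddings.pow_eq_one_of_norm_eq_one`) gives `x ^ n = 1`, `n > 0`, a contradiction. -/
def S_place : Prop := ∀ r : ℂ, r ≠ 0 → (∀ n : ℕ, 0 < n → r ^ n ≠ 1) →
  ∃ (F : Type) (_ : Field F) (_ : Module F ℂ) (x : F), x ≠ 0 ∧ (∀ z : ℂ, x • z = r * z) ∧
    ((∃ v : Valuation F (WithZero (Multiplicative ℤ)), v x ≠ 1) ∨ ∃ σ : F →+* ℂ, ‖σ x‖ ≠ 1)

/-- the sums `∑_{j < n} a_j r ^ j` with digits `0 ≤ a_j < D` -/
noncomputable def digs (r : ℂ) (D n : ℕ) : Finset ℂ :=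
  (Finset.univ : Finset (Fin n → Fin D)).image fun a => ∑ j : Fin n, ((a j : ℕ) : ℂ) * r ^ (j : ℕ)

/-- **S_growth.** Exponential growth of the number of digit sums.

Proof. Let `F, x` be as in `S_place`. If `Σ a_j r ^ j = Σ b_j r ^ j` with digits `a_j, b_j ∈ {0, 1}`
then `(Σ d_j x ^ j) • (1 : ℂ) = 0`, `d_j = a_j - b_j ∈ {-1, 0, 1}`, so `Σ d_j x ^ j = 0` in the field
`F` (`smul_eq_zero`). (a) If `v x ≠ 1`, take `k = 1`: the terms with `d_j ≠ 0` have different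
valuations `v x ^ j`, so the sum cannot vanish unless all `d_j = 0`: all `2 ^ n` digit sums are
different. (b) If `‖σ x‖ ≠ 1` choose `k > 0` with `‖σ x‖ ^ k ≥ 2` or `‖σ x‖ ^ k ≤ 1 / 2` and use only
the digits at the positions divisible by `k`: `Σ_{i < n} d_i y ^ i = 0` with `y = σ x ^ k`, `|y| ≥ 2`
(largest index `m` with `d_m ≠ 0`: `|y| ^ m ≤ Σ_{i < m} |y| ^ i < |y| ^ m`, a contradiction) or
`|y| ≤ 1 / 2` (smallest index, symmetric: `|y| ^ m ≤ Σ_{m < i < n} |y| ^ i < |y| ^ m`). -/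
def S_growth : Prop := ∀ r : ℂ, r ≠ 0 → (∀ n : ℕ, 0 < n → r ^ n ≠ 1) →
  ∃ k : ℕ, 0 < k ∧ ∀ n : ℕ, 2 ^ n ≤ (digs r 2 (k * n)).card

/-- **S_orbit.** The union of `m` consecutive dilates is almost invariant.

Proof. With `A_k = ⋃_{i < k} r ^ i S` we have `A_{k+1} = A_k ∪ r ^ k S = S ∪ r A_k` and
`A_m ∪ r A_m = A_{m+1}` (`m ≥ 1`). Put
`d_k = |A_{k+1}| - |A_k| = |r ^ k S \ ⋃_{i < k} r ^ i S| = |S \ ⋃_{1 ≤ j ≤ k} r ^ (-j) S|`, which
is non-increasing in `k` (more directly: `r ^ (k+1) S \ A_{k+1} ⊆ r (r ^ k S \ A_k)` because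
`r A_k ⊆ A_{k+1}`). Hence `|A_m| = Σ_{k < m} d_k ≥ m d_m`, i.e.
`m |A_{m+1}| = m |A_m| + m d_m ≤ (m + 1) |A_m|`. -/
def S_orbit : Prop := ∀ (r : ℂ) (S : Finset ℂ) (m : ℕ), r ≠ 0 → 0 < m →
  m * (((range m).biUnion fun i => S.image fun z => r ^ i * z) ∪
    ((range m).biUnion fun i => S.image fun z => r ^ i * z).image fun z => r * z).card ≤
    (m + 1) * ((range m).biUnion fun i => S.image fun z => r ^ i * z).card

/-- **S_sharp.** Sharpness, from exponential growth and `S_orbit`.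

Proof. Let `s(D, n) = |digs r D n|`. Easy facts: `s(D, n) ≤ D ^ n`, `s(D, n) ≥ 1`, `s` is monotone in
`D` and in `n`, and `s(D, n + m) ≤ s(D, n) s(D, m)` (`digs r D (n+m) ⊆ digs r D n + r ^ n digs r D m`).
So `u_k(n) = log s(2 ^ k, n)` is subadditive in `n` (`Subadditive`, `Subadditive.lim`,
`Subadditive.tendsto_lim`, `Subadditive.lim_le_div`); let `Λ_k` be its limit,
`Λ_k ≤ u_k(n) / n`, `Λ_k ≤ k log 2`, `Λ_k ≥ Λ_1 > 0` by the growth hypothesis (for `k ≥ 1`). There is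
`k ≥ 1` with `Λ_{k+1} ≤ (1 + η) Λ_k` (otherwise `k log 2 ≥ Λ_k ≥ (1 + η) ^ (k-1) Λ_1` for all `k`),
where `0 < η ≤ 1` is so small that `(1 + η) (1 + η) (1 + 2 η) ≤ 1 + ε` (e.g. `η = min (ε / 8) (1 / 4)`).
Let `D = 2 ^ k`, `n` large, `m = ⌊η n⌋ + 1 ≤ 2 η n`, `A = ⋃_{i < m} r ^ i digs r D n`. Then
`A ⊆ digs r D (n + m)`, `A + A ⊆ digs r (2 D) (n + m)`, so for `n` large
`log|A + A| ≤ u_{k+1}(n + m) ≤ (1 + η) Λ_{k+1} (n + m) ≤ (1 + η) (1 + η) (1 + 2 η) Λ_k n ≤ (1 + ε) u_k(n)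
≤ (1 + ε) log|A|`, `|A| ≥ s(D, n) ≥ N`, and by `S_orbit`
`|A ∪ rA| ≤ (1 + 1 / m) |A|` with `log|A| ≤ u_k(n + m) ≤ k (n + m) ≤ 3 k n ≤ (3 k / η) m`. -/
def S_sharp : Prop := ∀ r : ℂ, r ≠ 0 →
  (∃ k : ℕ, 0 < k ∧ ∀ n : ℕ, 2 ^ n ≤ (digs r 2 (k * n)).card) →
  ∀ ε : ℝ, 0 < ε → ∃ C : ℝ, ∀ N : ℕ, ∃ A : Finset ℂ, N ≤ A.card ∧
    ((A ∪ A.image fun a => r * a).card : ℝ) ≤ (1 + C / Real.log A.card) * A.card ∧
    ((A + A).card : ℝ) ≤ (A.card : ℝ) ^ (1 + ε)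

/-- **S_root.** Roots of unity.

Proof. `A = digs r M n` with `M = max N 1`. `|A| ≥ M` (vary only `a_0`); `r A = A` (cyclic shift of the
digits, `r ^ n = 1`); every element of `A + A` is `Σ c_j r ^ j`, `0 ≤ c_j ≤ 2 M - 2`, and
`c_j = e_j (M - 1) + a_j` with `e_j ∈ {0, 1}`, `0 ≤ a_j < M`, so `A + A` is contained in the union of
`2 ^ n` translates of `A`. -/
def S_root : Prop := ∀ (r : ℂ) (n : ℕ), 0 < n → r ^ n = 1 → ∀ N : ℕ, ∃ A : Finset ℂ, N ≤ A.card ∧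
  (A.image fun a => r * a) = A ∧ (A + A).card ≤ 2 ^ n * A.card

end Pool.Agent.H85.AK.Stmt
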