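import Pool.Agent.H85.AK.Stmt
import Pool.Agent.H85.AK.Stmt2

/-!
Statements for the sharpness theorem for groups of algebraic numbers (problem MP_cc0731_co).

Upper bound (proved): for a finitely generated group `Γ` of rank `ρ` at most `C K (log|C|) ^ ρ` elements
`r ∈ Γ` satisfy `|rC ∩ A| ≥ |C| / K` if `|A + B| ≤ (|C| |B|) ^ (1 - ε)`. The statements here show that
this is sharp for every finitely generated group of algebraic numbers (`S_group`). All of them are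
independent of each other; the later ones may use the earlier ones as hypotheses.
-/

set_option autoImplicit false

namespace Pool.Agent.H85.AK.Stmt3

open scoped Pointwise
open Finset

/-- the sums `∑_a d_a g ^ a` over `a ∈ {0, …, n-1} ^ k` with digits `0 ≤ d_a < D` -/
noncomputable def dg {k : ℕ} (g : Fin k → ℂ) (D n : ℕ) : Finset ℂ :=
  (Finset.univ : Finset ((Fin k → Fin n) → Fin D)).image fun d =>
    ∑ a : Fin k → Fin n, ((d a : ℕ) : ℂ) * ∏ i, g i ^ (a i : ℕ)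

/-- the union of the dilates `g ^ b S`, `b ∈ {0, …, m-1} ^ k` -/
noncomputable def orb {k : ℕ} (g : Fin k → ℂ) (S : Finset ℂ) (m : ℕ) : Finset ℂ :=
  (Finset.univ : Finset (Fin k → Fin m)).biUnion fun b =>
    S.image fun z => (∏ i, g i ^ (b i : ℕ)) * z

/-- **S_up.** Few digit sums for algebraic numbers.

Proof. Choose an integer `q ≥ 1` such that all `h_i = q g_i` are integral over `ℤ`
(`exists_integral_multiple`, `IsAlgebraic.exists_integral_multiple`). The ring `ℤ[h_1, …, h_k]` is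
generated as a `ℤ`-module by finitely many `s_1, …, s_d` (`fg_adjoin_of_finite`). Fix integers with
`1 = Σ c_j s_j` and `h_i s_j = Σ_l M_ijl s_l`; for a suitable integer `B ≥ 1` one gets by induction:
`h ^ a = Σ_j x_j s_j` with integers `|x_j| ≤ B ^ (|a| + 1)`, `|a| = Σ a_i` (multiplication by `h_i`
multiplies the bound for the coefficients by at most `B`). Hence, as `|a| ≤ k n`,
`q ^ (k n) Σ_a d_a g ^ a = Σ_a d_a q ^ (k n - |a|) h ^ a` has integral coefficients with respect to the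
`s_j` of absolute value at most `X = D n ^ k q ^ (k n) B ^ (k n + 1)`, so there are at most
`(2 X + 1) ^ d` digit sums, and `log(2 X + 1) ≤ log 3 + log D + k log n + k n log (q B) + log B`,
`log n ≤ n`. -/
def S_up : Prop := ∀ (k : ℕ) (g : Fin k → ℂ), (∀ i, IsAlgebraic ℚ (g i)) →
  ∃ C : ℝ, 0 < C ∧ ∀ D n : ℕ, 1 ≤ D → 1 ≤ n →
    Real.log ((dg g D n).card : ℝ) ≤ C * (n + Real.log D)

/-- **S_low.** Many digit sums.

Proof. `Stmt.digs (g j) 2 n ⊆ dg g D n` (take the digit functions which vanish at all `a` with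
`a_i ≠ 0` for some `i ≠ j`). `Stmt.digs r 2 n` is monotone in `n` and has at least `2` elements for
`n ≥ 1` (`0` and `1 = r ^ 0`). With `t = n / k0` (integer part) it has at least `max (2, 2 ^ t)` elements, so
`log ≥ max (1, t) log 2 ≥ (t + 1) / 2 * log 2 ≥ n / (2 k0) * log 2`. -/
def S_low : Prop := ∀ (k : ℕ) (g : Fin k → ℂ) (j : Fin k),
  (∃ k0 : ℕ, 0 < k0 ∧ ∀ n : ℕ, 2 ^ n ≤ (Stmt.digs (g j) 2 (k0 * n)).card) →
  ∃ c : ℝ, 0 < c ∧ ∀ D n : ℕ, 2 ≤ D → 1 ≤ n → c * n ≤ Real.log ((dg g D n).card : ℝ)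

/-- **S_pigeon.** A regular pair of scales.

Proof. Let `δ = η / 4` and choose `T` with `((1 + η) / (1 + 2 δ)) ^ T > 2 C / c` (note `C > 0` as
`c n ≤ C (n + k)`), `K0 = T`. Let `n_1 ≥ max (N, T + 1, 1 / δ, 2)` and `n_{t+1} = n_t + ⌈δ n_t⌉`, so
`n_{t+1} ≤ (1 + 2 δ) n_t` and `⌈δ n_t⌉ ≤ n_t`. If `u (t+1) (n_{t+1}) > (1 + η) u t (n_t)` for all
`t = 1, …, T` then `(1 + η) ^ T c n_1 ≤ (1 + η) ^ T u 1 (n_1) < u (T+1) (n_{T+1}) ≤
C (n_{T+1} + T + 1) ≤ 2 C (1 + 2 δ) ^ T n_1`, a contradiction. So some `t` has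
`u (t+1) (n_t + m) ≤ (1 + η) u t (n_t)` with `m = ⌈δ n_t⌉`. -/
def S_pigeon : Prop := ∀ (u : ℕ → ℕ → ℝ) (c C η : ℝ), 0 < c → 0 < η → η ≤ 1 →
  (∀ k n : ℕ, 1 ≤ k → 1 ≤ n → c * n ≤ u k n ∧ u k n ≤ C * (n + k)) →
  ∃ K0 : ℕ, ∀ N : ℕ, ∃ k n m : ℕ, 1 ≤ k ∧ k ≤ K0 ∧ N ≤ n ∧ 1 ≤ m ∧ m ≤ n ∧ η / 4 * n ≤ m ∧
    u (k + 1) (n + m) ≤ (1 + η) * u k n

/-- **S_orb.** Unions of dilates over a box are almost invariant.

Proof. (1) For `r ≠ 0`, a finite set `S'` and `A = ⋃_{j < m} r ^ j S'` one has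
`m |A ∪ rA| ≤ (m + 1) |A|` (this is `Stmt.S_orbit`, proved in `Pool.Agent.H640.AKOrbit`:
`Pool.Agent.H640.AK.s_orbit`, on main), i.e. `m #{z ∈ A : r z ∉ A} ≤ |A|`. Apply this with `r = g i`
and `S' = ⋃_{b, b_i = 0} g ^ b S`; then `A = orb g S m`. (2) For a product `g ^ a` by induction on
`Σ a_i`: with `h = g ^ a` and `h' = g_i h` the set `{z ∈ A : h' z ∉ A}` is contained in
`{z ∈ A : h z ∉ A} ∪ {z ∈ A : h z ∈ A, g_i (h z) ∉ A}`, and the second set injects by `z ↦ h z` into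
`{w ∈ A : g_i w ∉ A}`. -/
def S_orb : Prop := ∀ (k : ℕ) (g : Fin k → ℂ) (S : Finset ℂ) (m : ℕ), (∀ i, g i ≠ 0) → 0 < m →
  ∀ a : Fin k → ℕ, m * ((orb g S m).filter fun z => (∏ i, g i ^ a i) * z ∉ orb g S m).card ≤
    (∑ i, a i) * (orb g S m).card

/-- **S_box.** Sets with few sums which are almost invariant under a box of scalars. Prove it from
`S_up`, `S_low`, `S_pigeon`, `S_orb` and `Stmt.S_growth` (five hypotheses).

Proof. Apply `S_pigeon` to `u κ n = log |dg g (2 ^ κ) n|`, `η = min ε 1` (`c n ≤ u κ n` for `κ, n ≥ 1` by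
`S_growth` and `S_low`; `u κ n ≤ C (n + κ log 2) ≤ C (n + κ)` by `S_up`). For given `N` we get
`κ ≤ K0`, `n` (as large as we like), `m`. Let `A = orb g (dg g (2 ^ κ) n) m`. Then
`A ⊆ dg g (2 ^ κ) (n + m)`, `A + A ⊆ dg g (2 ^ (κ + 1)) (n + m)` (digits add up to at most
`2 (2 ^ κ - 1) < 2 ^ (κ + 1)`), `|A| ≥ |dg g (2 ^ κ) n|` (the dilate with `b = 0`), so
`|A + A| ≤ exp (u (κ + 1) (n + m)) ≤ exp ((1 + η) u κ n) ≤ |A| ^ (1 + η) ≤ |A| ^ (1 + ε)`,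
`|A| ≥ exp (c n) ≥ N` and `log |A| ≤ u κ (n + m) ≤ C (2 n + K0) ≤ C (2 + K0) n ≤ C (2 + K0) (4 / η) m`.
So if `Σ a_i ≤ c' log |A|`, `c' = η / (8 C (2 + K0))`, then `Σ a_i ≤ m / 2` and `S_orb` gives
`#{z ∈ A : g ^ a z ∉ A} ≤ |A| / 2`. -/
def S_box : Prop := ∀ (k : ℕ) (g : Fin k → ℂ), (∀ i, g i ≠ 0) → (∀ i, IsAlgebraic ℚ (g i)) →
  (∃ j, ∀ n : ℕ, 0 < n → g j ^ n ≠ 1) → ∀ ε : ℝ, 0 < ε → ∃ c : ℝ, 0 < c ∧ ∀ N : ℕ,
  ∃ A : Finset ℂ, N ≤ A.card ∧ ((A + A).card : ℝ) ≤ (A.card : ℝ) ^ (1 + ε) ∧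
    ∀ a : Fin k → ℕ, ((∑ i, a i : ℕ) : ℝ) ≤ c * Real.log A.card →
      A.card ≤ 2 * (A.filter fun z => (∏ i, g i ^ a i) * z ∈ A).card

/-- **S_group.** Sharpness for every finitely generated group of algebraic numbers. Prove it from
`S_box` and `Stmt2.S_split` (two hypotheses; both may be applied directly).

Proof. `Stmt2.S_split` for `Γ` gives a free `ℤ`-module `M` of rank `ρ = finrank ℤ (Additive Γ)` and an
injective homomorphism `g : M → Γ`. Let `b` be a basis of `M` (`Module.finBasis ℤ M`, index type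
`Fin (finrank ℤ M)`), `x_i = (g (b_i) : ℂ)`; these numbers have infinite order, and the products
`x ^ a`, `a ∈ ℕ ^ ρ`, are pairwise different (`g` and `a ↦ Σ a_i b_i` are injective). Take `A` from
`S_box`, `X = c log |A|`, `L = ⌊X / ρ⌋`, `T = L + 1`, `i_0` one of the indices. All `x ^ a` with
`a_i ≤ L` satisfy `Σ a_i ≤ X`. Let `C = ⋃_{j < K} x_{i_0} ^ (-j T) A` and
`R = {x ^ a x_{i_0} ^ (j T) : a_i ≤ L for all i, j < K}`; `|R| = K (L + 1) ^ ρ ≥ K (X / ρ) ^ ρ` because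
the exponents `a_{i_0} + j T` are pairwise different, `|A| ≤ |C| ≤ K |A|` (`j = 0`), and for
`r = x ^ a x_{i_0} ^ (j T)` the elements `x_{i_0} ^ (-j T) w`, `w ∈ A`, `x ^ a w ∈ A`, show that
`#{z ∈ C : r z ∈ A} ≥ |A| / 2 ≥ |C| / (2 K)`. -/
def S_group : Prop := ∀ Γ : Subgroup ℂˣ, Γ.FG → (∀ x ∈ Γ, IsAlgebraic ℚ (x : ℂ)) →
  0 < Module.finrank ℤ (Additive Γ) → ∀ ε : ℝ, 0 < ε → ∃ c : ℝ, 0 < c ∧ ∀ N K : ℕ, 1 ≤ K →
  ∃ (A C : Finset ℂ) (R : Finset ℂˣ), N ≤ A.card ∧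
    ((A + A).card : ℝ) ≤ (A.card : ℝ) ^ (1 + ε) ∧ A.card ≤ C.card ∧ C.card ≤ K * A.card ∧
    (∀ r ∈ R, r ∈ Γ ∧ C.card ≤ 2 * K * (C.filter fun z => (r : ℂ) * z ∈ A).card) ∧
    c * K * Real.log A.card ^ Module.finrank ℤ (Additive Γ) ≤ R.card

end Pool.Agent.H85.AK.Stmt3
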