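import Pool.Agent.H85.AK.Stmt3

/-!
Statements for the sharpness of the bound for exceptional slopes (problem MP_169869_co).

Main theorem in preparation: for every field `F`, every finitely generated subgroup `Γ` of `F*` of rank
`ρ` and every `ε > 0` a finite set `E ⊂ F × F` has at most `(C log|E|) ^ ρ` slopes `r ∈ Γ` with
`|π_r(E)| ≤ |E| ^ (1 - ε)`, `π_r(x, y) = x + r y`. The statements here show that the exponent `ρ` is
sharp for every finitely generated group of algebraic numbers.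
-/

set_option autoImplicit false

namespace Pool.Agent.H85.AK.Stmt4

open scoped Pointwise
open Finset

/-- **S_kbox.** Exceptional slopes in a box. Prove it from `Stmt3.S_up`, `Stmt3.S_low`,
`Stmt3.S_pigeon`, `Stmt.S_growth` (four hypotheses; the file `Pool/Agent/H772/AKBox.lean` on main has a
very similar proof of `Stmt3.S_box`, with useful lemmas on `dg`).

Proof. As in `Stmt3.S_box` apply `S_pigeon` to `u κ n = log |dg g (2 ^ κ) n|`, `η = min (2 ε) 1`. For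
given `N` we get `κ ≤ K0`, `n` (as large as we like), `m`. Let `D = dg g (2 ^ κ) n`, `E = D ×ˢ D`. For
`a` with all `a_i ≤ m` we have `D + g ^ a D ⊆ dg g (2 ^ (κ + 1)) (n + m)`, so
`|π_{g ^ a}(E)| ≤ exp (u (κ + 1) (n + m)) ≤ exp ((1 + η) u κ n) = |D| ^ (1 + η) = |E| ^ ((1 + η) / 2) ≤
|E| ^ (1 / 2 + ε)`. `|E| ≥ |D| ≥ exp (c n) ≥ N` and `log |E| = 2 u κ n ≤ 2 C (n + K0) ≤
2 C (1 + K0) n ≤ 2 C (1 + K0) (4 / η) m`, so `a_i ≤ c' log |E|`, `c' = η / (8 C (1 + K0))`, implies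
`a_i ≤ m`. -/
def S_kbox : Prop := ∀ (k : ℕ) (g : Fin k → ℂ), (∀ i, g i ≠ 0) → (∀ i, IsAlgebraic ℚ (g i)) →
  (∃ j, ∀ n : ℕ, 0 < n → g j ^ n ≠ 1) → ∀ ε : ℝ, 0 < ε → ∃ c : ℝ, 0 < c ∧ ∀ N : ℕ,
  ∃ E : Finset (ℂ × ℂ), N ≤ E.card ∧ ∀ a : Fin k → ℕ,
    (∀ i, (a i : ℝ) ≤ c * Real.log (E.card : ℝ)) →
    ((E.image fun e => e.1 + (∏ i, g i ^ a i) * e.2).card : ℝ) ≤ (E.card : ℝ) ^ (1 / 2 + ε)

/-- **S_kgroup.** Sharpness for every finitely generated group of algebraic numbers. Prove it from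
`S_kbox` and `Stmt2.S_split` (the file `Pool/Agent/H155/AKGroup.lean` on main has a very similar proof
of `Stmt3.S_group`).

Proof. `Stmt2.S_split` for `Γ` gives a free `ℤ`-module `M` of rank `ρ = finrank ℤ (Additive Γ)` and an
injective homomorphism `g : M → Γ`. Let `b` be a basis of `M`, `x_i = (g (b_i) : ℂ)`; these numbers have
infinite order, and the products `x ^ a`, `a ∈ ℕ ^ ρ`, are pairwise different. Take `E` from `S_kbox`,
`L = ⌊c log|E|⌋`, `R = {x ^ a : a_i ≤ L}`, `|R| = (L + 1) ^ ρ ≥ (c log|E|) ^ ρ = c ^ ρ (log|E|) ^ ρ`. -/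
def S_kgroup : Prop := ∀ Γ : Subgroup ℂˣ, Γ.FG → (∀ x ∈ Γ, IsAlgebraic ℚ (x : ℂ)) →
  0 < Module.finrank ℤ (Additive Γ) → ∀ ε : ℝ, 0 < ε → ∃ c : ℝ, 0 < c ∧ ∀ N : ℕ,
  ∃ (E : Finset (ℂ × ℂ)) (R : Finset ℂˣ), N ≤ E.card ∧
    (∀ r ∈ R, r ∈ Γ ∧
      ((E.image fun e => e.1 + (r : ℂ) * e.2).card : ℝ) ≤ (E.card : ℝ) ^ (1 / 2 + ε)) ∧
    c * Real.log (E.card : ℝ) ^ Module.finrank ℤ (Additive Γ) ≤ (R.card : ℝ)

end Pool.Agent.H85.AK.Stmt4
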