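import Pool.Agent.H85.AK.Str1
import Pool.Agent.H30.AKSplit

/-!
Finitely generated groups of rational numbers: popular ratios, with a uniform constant.
-/

set_option autoImplicit false

namespace Pool.Agent.H85.AK

open Finset
open scoped Pointwise

set_option maxHeartbeats 400000

/-- primes which determine the elements of a group, as many as the rank -/
theorem group_primes (Γ : Subgroup ℚˣ) (hΓ : Γ.FG) :
    ∃ T : Finset ℕ, (∀ p ∈ T, p.Prime) ∧ T.card ≤ Module.finrank ℤ (Additive Γ) ∧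
      ∀ x ∈ Γ, (∀ p ∈ T, padicValRat p (x : ℚ) = 0) → (x : ℚ) = 1 ∨ (x : ℚ) = -1 := by
  classical
  haveI : Group.FG Γ := (Group.fg_iff_subgroup_fg Γ).2 hΓ
  obtain ⟨M, _, _, _, g, T₀, hrank, h0, hm, _, hT⟩ := Pool.Agent.H30.AKSplit.s_split Γ
  set G : M →+ Additive ℚˣ :=
    { toFun := fun m => Additive.ofMul ((g m : Γ) : ℚˣ)
      map_zero' := by
        rw [h0]
        rfl
      map_add' := by
        intro m n
        rw [hm]
        rfl } with hG
  set b := Module.Free.chooseBasis ℤ M with hb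
  set S : Finset (Additive ℚˣ) := univ.image fun i => G (b i) with hS
  obtain ⟨T, hTS, hsel⟩ := sel_primes S
  refine ⟨Finset.image (fun p : Nat.Primes => p.1) T, ?_, ?_, ?_⟩
  · intro p hp
    obtain ⟨q, _, rfl⟩ := mem_image.1 hp
    exact q.2
  · refine card_image_le.trans (hTS.trans (card_image_le.trans ?_))
    rw [card_univ, ← Module.finrank_eq_card_chooseBasisIndex, hrank]
  intro x hx hx0
  apply rat_unit (Units.ne_zero _)
  intro p hp
  obtain ⟨c, hc⟩ := hsel ⟨p, hp⟩
  set φ : Additive ℚˣ →+ ℚ := (Int.castAddHom ℚ).comp (vpr ⟨p, hp⟩) -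
    ∑ q ∈ T, (AddMonoidHom.mulLeft (c q)).comp ((Int.castAddHom ℚ).comp (vpr q)) with hφ
  have hφx : ∀ y, φ y = ((vpr ⟨p, hp⟩ y : ℤ) : ℚ) - ∑ q ∈ T, c q * ((vpr q y : ℤ) : ℚ) := by
    intro y
    rw [hφ, AddMonoidHom.sub_apply, AddMonoidHom.finsetSum_apply]
    rfl
  -- the homomorphism vanishes on the free part
  have hfree : ∀ m : M, φ (G m) = 0 := by
    have h1 : (φ.comp G).toIntLinearMap = 0 := by
      apply b.ext
      intro i
      show φ (G (b i)) = 0
      rw [hφx, hc _ (mem_image_of_mem _ (mem_univ i)), sub_self]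
    intro m
    exact congrArg (fun f : M →ₗ[ℤ] ℚ => f m) h1
  -- it vanishes on the group
  have hall : φ (Additive.ofMul x) = 0 := by
    by_contra hne
    have hinj : Function.Injective fun k : ℕ => φ (k • Additive.ofMul x) := by
      intro k l h
      simp only [map_nsmul, nsmul_eq_mul] at h
      exact_mod_cast mul_right_cancel₀ hne h
    apply Set.infinite_range_of_injective hinj
    apply ((T₀.image fun t : Γ => φ (Additive.ofMul (t : ℚˣ))).finite_toSet).subset
    rintro _ ⟨k, rfl⟩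
    obtain ⟨t, ht, m, h1⟩ := hT (⟨x, hx⟩ ^ k)
    rw [mem_coe, mem_image]
    refine ⟨t, ht, ?_⟩
    have h2 : (x : ℚˣ) ^ k = (t : ℚˣ) * ((g m : Γ) : ℚˣ) := by
      have h3 := congrArg (fun u : Γ => (u : ℚˣ)) h1
      simpa using h3
    have h4 : k • Additive.ofMul x = Additive.ofMul (t : ℚˣ) + G m := by
      show Additive.ofMul (x ^ k) = _
      rw [h2]
      rfl
    show _ = φ (k • Additive.ofMul x)
    rw [h4, map_add, hfree, add_zero]
  rw [hφx] at hall
  have h2 : ∑ q ∈ T, c q * ((vpr q (Additive.ofMul x) : ℤ) : ℚ) = 0 := by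
    apply sum_eq_zero
    intro q hq
    have h3 := hx0 q.1 (mem_image_of_mem _ hq)
    have h4 : vpr q (Additive.ofMul x) = padicValRat q.1 (x : ℚ) := rfl
    rw [h4, h3]
    simp
  rw [h2, sub_zero] at hall
  have h4 : vpr ⟨p, hp⟩ (Additive.ofMul x) = 0 := by exact_mod_cast hall
  exact h4

theorem one_le_X {ε : ℝ} (hε : 0 < ε) (hε1 : ε ≤ 1) {n : ℕ} (hn : 2 ≤ n) :
    1 ≤ Real.exp (662 / ε) * Real.log (n : ℝ) := by
  have hlog := half_le_log hn
  have h4E := four_le_exp hε hε1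
  nlinarith

/-- **popular ratios in a finitely generated group of rational numbers** -/
theorem rat_group {ε : ℝ} (hε : 0 < ε) (hε1 : ε ≤ 1) (Γ : Subgroup ℚˣ) (hΓ : Γ.FG)
    {V : Type} [AddCommGroup V] [Module ℚ V]
    [DecidableEq V] (A B C : Finset V) (K : ℝ) (hK : 1 ≤ K)
    (R : Finset ℚˣ) (hC : 2 ≤ C.card) (hB : B.Nonempty)
    (hKC : 8 * K * (Real.exp (662 / ε) * Real.log C.card) ^ Module.finrank ℤ (Additive Γ) ≤
      (C.card : ℝ) ^ (ε / 16))
    (hR : ∀ r ∈ R, r ∈ Γ ∧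
      (C.card : ℝ) ≤ K * ((C.filter fun c => (r : ℚ) • c ∈ A).card : ℝ))
    (hAB : ((A + B).card : ℝ) ≤ ((C.card : ℝ) * B.card) ^ (1 - ε)) :
    (R.card : ℝ) ≤
      4 * K * (Real.exp (662 / ε) * Real.log C.card) ^ Module.finrank ℤ (Additive Γ) := by
  classical
  obtain ⟨T, hTp, hTc, hT⟩ := group_primes Γ hΓ
  have hX1 := one_le_X hε hε1 hC
  have hpow := pow_le_pow_right₀ hX1 hTc
  have hQc : (R.image fun r : ℚˣ => (r : ℚ)).card = R.card :=
    card_image_of_injective _ fun a b h => Units.ext h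
  have h1 := rat_lin2 hε hε1 T hTp A B C K hK (R.image fun r : ℚˣ => (r : ℚ)) hC hB
    (le_trans (mul_le_mul_of_nonneg_left hpow (by linarith)) hKC)
    (by
      intro r hr
      obtain ⟨u, _, rfl⟩ := mem_image.1 hr
      exact Units.ne_zero u)
    (by
      intro r hr r' hr' h
      obtain ⟨u, hu, rfl⟩ := mem_image.1 hr
      obtain ⟨u', hu', rfl⟩ := mem_image.1 hr'
      have e : ((u' / u : ℚˣ) : ℚ) = (u' : ℚ) / u := Units.val_div_eq_div_val _ _
      rw [← e] at h ⊢
      exact hT _ (Γ.div_mem (hR u' hu').1 (hR u hu).1) h)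
    (by
      intro r hr
      obtain ⟨u, hu, rfl⟩ := mem_image.1 hr
      exact (hR u hu).2) hAB
  rw [hQc] at h1
  exact h1.trans (mul_le_mul_of_nonneg_left hpow (by linarith))

end Pool.Agent.H85.AK
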