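import Pool.Agent.H85.AK.Str3
import Pool.Agent.H85.AK.Str4
import Pool.Agent.H85.AK.Gen6

/-!
Exceptional rational slopes: groups of given rank, sets with many multiplicative quadruples.
-/

set_option autoImplicit false

namespace Pool.Agent.H85.AK

open Finset
open scoped Pointwise Classical

set_option maxHeartbeats 400000

/-- slopes determined by their valuations at given primes -/
theorem slope_T {ε : ℝ} (hε : 0 < ε) (hε1 : ε ≤ 1) {V : Type} [AddCommGroup V] [Module ℚ V]
    (E : Finset (V × V)) (hE : 2 ≤ E.card) (T : Finset ℕ) (hT : ∀ p ∈ T, p.Prime)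
    (R : Finset ℚ) (hR0 : ∀ r ∈ R, r ≠ 0)
    (h : ∀ r ∈ R, ((E.image fun e : V × V => e.1 + r • e.2).card : ℝ) ≤ (E.card : ℝ) ^ (1 - ε))
    (hRT : ∀ r ∈ R, ∀ r' ∈ R, (∀ p ∈ T, padicValRat p (r' / r) = 0) → r' / r = 1 ∨ r' / r = -1) :
    (R.card : ℝ) ≤ 2 * (Real.exp (6 / ε) * Real.log (E.card : ℝ)) ^ T.card := by
  have hlog := Real.log_natCast_nonneg E.card
  set Φ : ℚ → Bool × ((p : ℕ) → p ∈ T → ℤ) := fun r => (decide (0 < r), fun p _ => padicValRat p r)
    with hΦ
  have hinj : Set.InjOn Φ (R : Set ℚ) := by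
    intro r hr r' hr' heq
    have hr0 := hR0 r hr
    have hr0' := hR0 r' hr'
    simp only [hΦ, Prod.mk.injEq, decide_eq_decide] at heq
    obtain ⟨h1, h2⟩ := heq
    have h3 : r / r' = 1 ∨ r / r' = -1 := by
      apply hRT r' hr' r hr
      intro p hp
      have : Fact p.Prime := ⟨hT p hp⟩
      rw [padicValRat.div hr0 hr0']
      have := congrFun (congrFun h2 p) hp
      rw [this, sub_self]
    rcases h3 with h3 | h3
    · exact (div_eq_one_iff_eq hr0').1 h3
    · exfalso
      have h4 : r = -r' := by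
        field_simp at h3
        exact h3
      rcases lt_or_gt_of_ne hr0' with h5 | h5
      · have h6 : 0 < r := by linarith
        exact absurd (h1.1 h6) (not_lt.2 h5.le)
      · have h6 : 0 < r := h1.2 h5
        linarith
  have hmaps : R.image Φ ⊆ (univ : Finset Bool) ×ˢ T.pi fun p => R.image (padicValRat p) := by
    intro w hw
    obtain ⟨r, hr, rfl⟩ := mem_image.1 hw
    refine mem_product.2 ⟨mem_univ _, mem_pi.2 fun p hp => mem_image_of_mem _ hr⟩
  have h1 : R.card ≤ 2 * ∏ p ∈ T, (R.image (padicValRat p)).card := by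
    have h2 := card_le_card hmaps
    rw [card_image_of_injOn hinj, card_product, card_pi] at h2
    simpa using h2
  have h2 : (R.card : ℝ) ≤ 2 * ∏ p ∈ T, ((R.image (padicValRat p)).card : ℝ) := by
    exact_mod_cast h1
  refine h2.trans ?_
  rw [← prod_const]
  have h3 : ∏ p ∈ T, ((R.image (padicValRat p)).card : ℝ) ≤
      ∏ _p ∈ T, Real.exp (6 / ε) * Real.log (E.card : ℝ) := by
    apply prod_le_prod
    · intro p _
      positivity
    · intro p hp
      have : Fact p.Prime := ⟨hT p hp⟩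
      refine le_trans (Nat.cast_le.2 ?_) (val_cnt hε hε1 (Rat.padicValuation p) E hE R hR0 h)
      have h4 : R.image (padicValRat p) ⊆
          (R.image (Rat.padicValuation p)).image fun w => -WithZero.log w := by
        intro u hu
        obtain ⟨r, hr, rfl⟩ := mem_image.1 hu
        refine mem_image.2 ⟨Rat.padicValuation p r, mem_image_of_mem _ hr, ?_⟩
        have h5 : Rat.padicValuation p r = WithZero.exp (-padicValRat p r) := by
          simp [Rat.padicValuation, hR0 r hr]
        rw [h5, WithZero.log_exp, neg_neg]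
      exact (card_le_card h4).trans card_image_le
  linarith

/-- the values of a projective map at exceptional slopes are exceptional slopes of another set -/
theorem slopes_mob {V : Type} [AddCommGroup V] [Module ℚ V] {a b c d : ℚ}
    (hdet : a * d - b * c ≠ 0) (E : Finset (V × V)) (ε : ℝ) :
    ∃ E' : Finset (V × V), E'.card = E.card ∧ ∀ γ : ℚ,
      (∃ r : ℚ, a + b * r = γ * (c + d * r) ∧
        ((E.image fun e : V × V => e.1 + r • e.2).card : ℝ) ≤ (E.card : ℝ) ^ (1 - ε)) →
      ((E'.image fun e : V × V => e.1 + γ • e.2).card : ℝ) ≤ (E'.card : ℝ) ^ (1 - ε) := by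
  obtain ⟨E', hE', hmob⟩ := mob_pairs (V := V) hdet E ε
  refine ⟨E', hE', ?_⟩
  rintro γ ⟨r, h1, h2⟩
  have hz : c + d * r ≠ 0 := by
    intro hz
    rw [hz, mul_zero] at h1
    apply hdet
    linear_combination d * h1 - b * hz
  have h3 := hmob r hz h2
  rw [h1, mul_div_cancel_right₀ _ hz] at h3
  exact h3

theorem one_le_Y {ε : ℝ} (hε : 0 < ε) (hε1 : ε ≤ 1) {n : ℕ} (hn : 2 ≤ n) :
    1 ≤ Real.exp (6 / ε) * Real.log (n : ℝ) := by
  have hlog := half_le_log hn
  have h1 : (6 : ℝ) ≤ 6 / ε := by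
    rw [le_div_iff₀ hε]
    linarith
  have h2 := Real.add_one_le_exp (6 / ε)
  nlinarith

/-- **exceptional slopes in a finitely generated group of rational numbers** -/
theorem slope_group {ε : ℝ} (hε : 0 < ε) (hε1 : ε ≤ 1) (Γ : Subgroup ℚˣ) (hΓ : Γ.FG)
    {V : Type} [AddCommGroup V] [Module ℚ V] {a b c d : ℚ} (hdet : a * d - b * c ≠ 0)
    (E : Finset (V × V)) (hE : 2 ≤ E.card) (G : Finset ℚˣ)
    (hG : ∀ γ ∈ G, γ ∈ Γ ∧ ∃ r : ℚ, a + b * r = γ * (c + d * r) ∧
        ((E.image fun e : V × V => e.1 + r • e.2).card : ℝ) ≤ (E.card : ℝ) ^ (1 - ε)) :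
    (G.card : ℝ) ≤
      2 * (Real.exp (6 / ε) * Real.log (E.card : ℝ)) ^ Module.finrank ℤ (Additive Γ) := by
  obtain ⟨T, hTp, hTc, hT⟩ := group_primes Γ hΓ
  obtain ⟨E', hE', hmob⟩ := slopes_mob hdet E ε
  have hX1 := one_le_Y hε hε1 hE
  have hpow := pow_le_pow_right₀ hX1 hTc
  have hQc : (G.image fun r : ℚˣ => (r : ℚ)).card = G.card :=
    card_image_of_injective _ fun a b h => Units.ext h
  have h1 := slope_T hε hε1 E' (by omega) T hTp (G.image fun r : ℚˣ => (r : ℚ))
    (by
      intro r hr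
      obtain ⟨u, _, rfl⟩ := mem_image.1 hr
      exact Units.ne_zero u)
    (by
      intro r hr
      obtain ⟨u, hu, rfl⟩ := mem_image.1 hr
      exact hmob _ (hG u hu).2)
    (by
      intro r hr r' hr' h
      obtain ⟨u, hu, rfl⟩ := mem_image.1 hr
      obtain ⟨u', hu', rfl⟩ := mem_image.1 hr'
      have e : ((u' / u : ℚˣ) : ℚ) = (u' : ℚ) / u := Units.val_div_eq_div_val _ _
      rw [← e] at h ⊢
      exact hT _ (Γ.div_mem (hG u' hu').1 (hG u hu).1) h)
  rw [hQc, hE'] at h1
  exact h1.trans (mul_le_mul_of_nonneg_left hpow (by norm_num))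

/-- the numerical part -/
theorem str_num2 {x l t : ℝ} (hx : 5.6 ≤ x) (hl : 0 ≤ l) (ht : t ≤ 9600 * l + 14650) :
    5703 + 3701 * l + x * t ≤ x * (16000 * (1 + l)) := by
  have h1 : x * t ≤ x * (9600 * l + 14650) := mul_le_mul_of_nonneg_left ht (by linarith)
  have h2 : 0 ≤ (x - 5.6) * l := mul_nonneg (by linarith) hl
  nlinarith

/-- **exceptional slopes with many multiplicative quadruples** -/
theorem slope_struct {ε : ℝ} (hε : 0 < ε) (hε1 : ε ≤ 1)
    {V : Type} [AddCommGroup V] [Module ℚ V] {a b c d : ℚ} (hdet : a * d - b * c ≠ 0)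
    (E : Finset (V × V)) (hE : 2 ≤ E.card) (L : ℝ) (hL : 1 ≤ L) (G : Finset ℚˣ)
    (hEn : (G.card : ℝ) ^ 3 ≤ L * (G.mulEnergy G : ℕ))
    (hG : ∀ γ ∈ G, ∃ r : ℚ, a + b * r = γ * (c + d * r) ∧
        ((E.image fun e : V × V => e.1 + r • e.2).card : ℝ) ≤ (E.card : ℝ) ^ (1 - ε)) :
    (G.card : ℝ) ≤
      (Real.exp (6 / ε) * Real.log (E.card : ℝ)) ^ (16000 * (1 + Real.log L)) := by
  have hE2 : (2 : ℝ) ≤ E.card := by exact_mod_cast hE
  have hlog : Real.log 2 ≤ Real.log (E.card : ℝ) := Real.log_le_log (by norm_num) hE2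
  have hlog2 := Real.log_two_gt_d9
  have hlogp : 0 < Real.log (E.card : ℝ) := by linarith
  set X : ℝ := Real.exp (6 / ε) * Real.log (E.card : ℝ) with hX
  have hX0 : 0 < X := by positivity
  set x : ℝ := Real.log X with hx
  have hx661 : 5.6 ≤ x := by
    rw [hx, hX, Real.log_mul (Real.exp_pos _).ne' hlogp.ne', Real.log_exp]
    have h1 : (6 : ℝ) ≤ 6 / ε := by
      rw [le_div_iff₀ hε]
      linarith
    have h2 : Real.log (Real.exp (-0.4)) ≤ Real.log (Real.log (E.card : ℝ)) := by
      apply Real.log_le_log (Real.exp_pos _)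
      refine le_trans ?_ hlog
      have h3 : Real.exp (-0.4) ≤ 0.69 := by
        rw [Real.exp_neg, inv_le_comm₀ (Real.exp_pos _) (by norm_num)]
        have h4 := Real.quadratic_le_exp_of_nonneg (x := 0.4) (by norm_num)
        norm_num at h4 ⊢
        linarith
      linarith
    rw [Real.log_exp] at h2
    linarith
  have hl : 0 ≤ Real.log L := Real.log_nonneg hL
  set l : ℝ := Real.log L with hl'
  have hpow : X ^ (16000 * (1 + l)) = Real.exp (x * (16000 * (1 + l))) := by
    rw [Real.rpow_def_of_pos hX0]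
  rcases G.eq_empty_or_nonempty with hGe | hGne
  · rw [hGe, card_empty, Nat.cast_zero]
    positivity
  obtain ⟨E', hE', hmob⟩ := slopes_mob hdet E ε
  set R₁ : Finset (Additive ℚˣ) := G.map Additive.ofMul.toEmbedding with hR₁
  have hR₁c : R₁.card = G.card := card_map _
  obtain ⟨T, hTp, hTc, R', hR'R, hR'c, hR'⟩ := few_cosets_energy hL (R := R₁)
    (by rw [hR₁]; exact hGne.map) (by rw [hR₁c, hR₁, energy_map]; exact hEn)
  set Q : Finset ℚ := R'.image qv with hQ
  have hQc : Q.card = R'.card := card_image_of_injective _ qv_inj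
  have hXT : X ^ T.card = Real.exp (x * T.card) := by
    rw [← Real.rpow_natCast, Real.rpow_def_of_pos hX0]
  have hnum := str_num2 hx661 hl hTc
  have hmain := slope_T hε hε1 E' (by omega) T hTp Q
    (by
      intro r hr
      obtain ⟨a, _, rfl⟩ := mem_image.1 hr
      exact qv_ne a)
    (by
      intro r hr
      obtain ⟨a, ha, rfl⟩ := mem_image.1 hr
      obtain ⟨u, hu, rfl⟩ := mem_map.1 (hR'R ha)
      exact hmob _ (hG u hu))
    (by
      intro r hr r' hr' h
      obtain ⟨a, ha, rfl⟩ := mem_image.1 hr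
      obtain ⟨a', ha', rfl⟩ := mem_image.1 hr'
      rw [← qv_sub] at h ⊢
      exact hR' a ha a' ha' h)
  rw [hQc, hE'] at hmain
  rw [hR₁c] at hR'c
  have h3 : Real.log L = l := rfl
  have hcos := log_cosets hL
  rw [h3] at hcos
  have h2e : (2 : ℝ) ≤ Real.exp 3 := by
    have := Real.add_one_le_exp (3 : ℝ)
    linarith
  calc (G.card : ℝ) ≤ 8 * L * (2 ^ 44 * L ^ 20) ^ 185 * R'.card := hR'c
    _ ≤ Real.exp (5700 + 3701 * l) * R'.card :=
        mul_le_mul_of_nonneg_right hcos (Nat.cast_nonneg _)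
    _ ≤ Real.exp (5700 + 3701 * l) * (2 * X ^ T.card) :=
        mul_le_mul_of_nonneg_left hmain (Real.exp_pos _).le
    _ ≤ Real.exp (5700 + 3701 * l) * (Real.exp 3 * Real.exp (x * T.card)) := by
        rw [hXT]
        apply mul_le_mul_of_nonneg_left _ (Real.exp_pos _).le
        exact mul_le_mul_of_nonneg_right h2e (Real.exp_pos _).le
    _ = Real.exp (5703 + 3701 * l + x * T.card) := by
        rw [← Real.exp_add, ← Real.exp_add]
        congr 1
        ring
    _ ≤ X ^ (16000 * (1 + l)) := by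
        rw [hpow, Real.exp_le_exp]
        exact hnum

end Pool.Agent.H85.AK
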