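import Pool.Agent.H85.AK.Low4

/-!
Structured sets of popular ratios and small sumsets: an example.
-/

set_option autoImplicit false

namespace Pool.Agent.H85.AK

open Finset
open scoped Pointwise

set_option maxHeartbeats 400000

/-- the number of elements leaving the set -/
def lv (A : Finset ℤ) (r : ℕ) : ℕ := (A.filter fun a => (r : ℤ) * a ∉ A).card

theorem lv_one (A : Finset ℤ) : lv A 1 = 0 := by
  unfold lv
  rw [card_eq_zero, filter_eq_empty_iff]
  intro a ha
  simpa using ha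

theorem lv_mul (A : Finset ℤ) {r s : ℕ} (hs : s ≠ 0) : lv A (r * s) ≤ lv A s + lv A r := by
  unfold lv
  have h : (A.filter fun a => ((r * s : ℕ) : ℤ) * a ∉ A) ⊆
      (A.filter fun a => (s : ℤ) * a ∉ A) ∪
        (A.filter fun a => (s : ℤ) * a ∈ A ∧ (r : ℤ) * ((s : ℤ) * a) ∉ A) := by
    intro a ha
    obtain ⟨h1, h2⟩ := mem_filter.1 ha
    rw [mem_union, mem_filter, mem_filter]
    by_cases h3 : (s : ℤ) * a ∈ A
    · right
      refine ⟨h1, h3, ?_⟩
      have e : ((r * s : ℕ) : ℤ) * a = (r : ℤ) * ((s : ℤ) * a) := by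
        push_cast
        ring
      rw [e] at h2
      exact h2
    · exact Or.inl ⟨h1, h3⟩
  refine (card_le_card h).trans ((card_union_le _ _).trans (Nat.add_le_add_left ?_ _))
  apply card_le_card_of_injOn (fun a => (s : ℤ) * a)
  · intro a ha
    obtain ⟨_, h2, h3⟩ := mem_filter.1 ha
    exact mem_filter.2 ⟨h2, h3⟩
  · intro a _ b _ h
    exact mul_left_cancel₀ (by exact_mod_cast hs) h

theorem lv_pow (A : Finset ℤ) {p : ℕ} (hp : p ≠ 0) (k : ℕ) : lv A (p ^ k) ≤ k * lv A p := by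
  induction k with
  | zero => simp [lv_one]
  | succ k ih =>
    rw [pow_succ]
    refine (lv_mul A hp).trans ?_
    rw [Nat.succ_mul]
    omega

theorem lv_prod (A : Finset ℤ) (P : Finset ℕ) (hP : ∀ p ∈ P, p ≠ 0) (k : ℕ → ℕ) :
    lv A (∏ p ∈ P, p ^ k p) ≤ ∑ p ∈ P, k p * lv A p := by
  induction P using Finset.induction_on with
  | empty => simp [lv_one]
  | insert p P hp ih =>
    rw [prod_insert hp, sum_insert hp]
    have h0 : ∏ q ∈ P, q ^ k q ≠ 0 := prod_ne_zero_iff.2 fun q hq =>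
      pow_ne_zero _ (hP q (mem_insert_of_mem hq))
    refine (lv_mul A h0).trans ?_
    have h1 := ih fun q hq => hP q (mem_insert_of_mem hq)
    have h2 := lv_pow A (hP p (mem_insert_self _ _)) (k p)
    omega

/-- the box of ratios -/
noncomputable def bx (P : Finset ℕ) (m : ℕ) : Finset ℕ :=
  (Fintype.piFinset fun _ : P => range m).image fun k => ∏ p : P, (p : ℕ) ^ k p

theorem bx_card {P : Finset ℕ} (hP : ∀ p ∈ P, p.Prime) (m : ℕ) : (bx P m).card = m ^ P.card := by
  unfold bx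
  rw [card_image_of_injective]
  · rw [Fintype.card_piFinset]
    simp
  · intro k l h
    funext p
    have hp := hP p p.2
    have h1 : ∀ f : P → ℕ, (∏ q : P, (q : ℕ) ^ f q).factorization (p : ℕ) = f p := by
      intro f
      rw [Nat.factorization_prod (fun (q : P) _ => pow_ne_zero _ (hP q.1 q.2).ne_zero)]
      rw [Finsupp.finset_sum_apply, sum_eq_single p]
      · rw [hp.factorization_pow, Finsupp.single_eq_same]
      · intro q _ hq
        rw [(hP q.1 q.2).factorization_pow, Finsupp.single_apply, if_neg]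
        intro h2
        exact hq (Subtype.ext h2)
      · intro h2
        exact absurd (mem_univ _) h2
    have h2 : (∏ q : P, (q : ℕ) ^ k q) = ∏ q : P, (q : ℕ) ^ l q := h
    rw [← h1 k, ← h1 l, h2]

theorem bx_mul (P : Finset ℕ) {m x y : ℕ} (hx : x ∈ bx P m) (hy : y ∈ bx P m) :
    x * y ∈ bx P (2 * m) := by
  unfold bx at *
  obtain ⟨k, hk, rfl⟩ := mem_image.1 hx
  obtain ⟨l, hl, rfl⟩ := mem_image.1 hy
  refine mem_image.2 ⟨fun p => k p + l p, ?_, ?_⟩
  · rw [Fintype.mem_piFinset] at *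
    intro p
    have h1 := mem_range.1 (hk p)
    have h2 := mem_range.1 (hl p)
    rw [mem_range]
    omega
  · rw [← prod_mul_distrib]
    apply prod_congr rfl
    intro p _
    rw [pow_add]

theorem bx_ne {P : Finset ℕ} (hP : ∀ p ∈ P, p.Prime) {m x : ℕ} (hx : x ∈ bx P m) : x ≠ 0 := by
  unfold bx at hx
  obtain ⟨k, _, rfl⟩ := mem_image.1 hx
  exact prod_ne_zero_iff.2 fun q _ => pow_ne_zero _ (hP q q.2).ne_zero

theorem bx_lv (A : Finset ℤ) {P : Finset ℕ} (hP : ∀ p ∈ P, p.Prime) {m x : ℕ}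
    (hx : x ∈ bx P (m + 1)) : lv A x ≤ m * ∑ p ∈ P, lv A p := by
  unfold bx at hx
  obtain ⟨k, hk, rfl⟩ := mem_image.1 hx
  rw [Fintype.mem_piFinset] at hk
  have e : (∏ p : P, (p : ℕ) ^ k p) =
      ∏ p ∈ P, p ^ (if h : p ∈ P then k ⟨p, h⟩ else 0) := by
    rw [← prod_coe_sort P]
    apply prod_congr rfl
    intro p _
    rw [dif_pos p.2]
  rw [e]
  refine (lv_prod A P (fun p hp => (hP p hp).ne_zero) _).trans ?_
  rw [mul_sum]
  apply sum_le_sum
  intro p hp
  apply Nat.mul_le_mul_right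
  rw [dif_pos hp]
  have := mem_range.1 (hk ⟨p, hp⟩)
  omega

/-- **a structured set of popular ratios, and few sums** -/
theorem low_struct {ε : ℝ} (hε : 0 < ε) (hε1 : ε ≤ 1) {ρ : ℕ} (hρ : 1 ≤ ρ) :
    ∃ c : ℝ, 0 < c ∧ ∀ N : ℕ, ∃ (A : Finset ℤ) (R : Finset ℤ), N ≤ A.card ∧
      ((A + A).card : ℝ) ≤ (A.card : ℝ) ^ (1 + ε) ∧
      (∀ r ∈ R, r ≠ 0 ∧ A.card ≤ 2 * (A.filter fun a => r * a ∈ A).card) ∧
      (R * R).card ≤ 2 ^ ρ * R.card ∧ (c * Real.log (A.card : ℝ)) ^ ρ ≤ (R.card : ℝ) := by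
  obtain ⟨P, hPp, hPc⟩ := Nat.infinite_setOfPred_prime.exists_subset_card_eq ρ
  have hP : ∀ p ∈ P, p.Prime := fun p hp => hPp hp
  have hPne : P.Nonempty := card_pos.1 (by omega)
  set κ : ℝ := ε / (4 * ∑ q ∈ P, Real.log q) with hκ
  have hsum : 0 < ∑ q ∈ P, Real.log (q : ℝ) := by
    apply sum_pos _ hPne
    intro q hq
    apply Real.log_pos
    exact_mod_cast (hP q hq).one_lt
  have hκ0 : 0 < κ := by positivity
  have hρ0 : (0 : ℝ) < ρ := by exact_mod_cast hρ
  refine ⟨κ / (2 * ρ), by positivity, ?_⟩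
  intro N
  obtain ⟨A, hN, hAA, hA⟩ := low4 hε hε1 P hP hPne (max N 2)
  have hA2 : (2 : ℝ) ≤ A.card := by exact_mod_cast (le_max_right _ _).trans hN
  have hlog : 0 < Real.log (A.card : ℝ) := Real.log_pos (by linarith)
  set m : ℕ := ⌊κ / (2 * ρ) * Real.log (A.card : ℝ)⌋₊ with hm
  have hm1 : (m : ℝ) ≤ κ / (2 * ρ) * Real.log (A.card : ℝ) := Nat.floor_le (by positivity)
  have hm2 : κ / (2 * ρ) * Real.log (A.card : ℝ) < m + 1 := Nat.lt_floor_add_one _
  refine ⟨A, (bx P (m + 1)).image fun n : ℕ => (n : ℤ), (le_max_left _ _).trans hN, hAA, ?_, ?_, ?_⟩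
  · intro r hr
    obtain ⟨x, hx, rfl⟩ := mem_image.1 hr
    refine ⟨by exact_mod_cast bx_ne hP hx, ?_⟩
    have h1 := bx_lv A hP hx
    have h2 : 2 * (m * ∑ p ∈ P, lv A p) ≤ A.card := by
      have h3 : ∀ p ∈ P, (lv A p : ℝ) ≤ A.card / (κ * Real.log (A.card : ℝ)) := by
        intro p hp
        rw [le_div_iff₀ (by positivity)]
        have h4 := hA p hp
        unfold lv
        linarith
      have h5 : ((∑ p ∈ P, lv A p : ℕ) : ℝ) ≤ ρ * (A.card / (κ * Real.log (A.card : ℝ))) := by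
        push_cast
        refine (sum_le_sum h3).trans (le_of_eq ?_)
        rw [sum_const, hPc, nsmul_eq_mul]
      have h6 : (m : ℝ) * ((∑ p ∈ P, lv A p : ℕ) : ℝ) ≤
          (κ / (2 * ρ) * Real.log (A.card : ℝ)) * (ρ * (A.card / (κ * Real.log (A.card : ℝ)))) :=
        mul_le_mul hm1 h5 (Nat.cast_nonneg _) (by positivity)
      have e : (κ / (2 * ρ) * Real.log (A.card : ℝ)) *
          (ρ * (A.card / (κ * Real.log (A.card : ℝ)))) = (A.card : ℝ) / 2 := by
        field_simp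
      rw [e] at h6
      have h7 : (2 : ℝ) * (m * ((∑ p ∈ P, lv A p : ℕ) : ℝ)) ≤ A.card := by linarith
      exact_mod_cast h7
    have h3 := card_filter_add_card_filter_not (s := A) (fun a : ℤ => (x : ℤ) * a ∈ A)
    unfold lv at h1 h2
    omega
  · have h1 : ((bx P (m + 1)).image fun n : ℕ => (n : ℤ)) *
        ((bx P (m + 1)).image fun n : ℕ => (n : ℤ)) ⊆
        (bx P (2 * (m + 1))).image fun n : ℕ => (n : ℤ) := by
      intro z hz
      obtain ⟨a, ha, b, hb, rfl⟩ := mem_mul.1 hz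
      obtain ⟨x, hx, rfl⟩ := mem_image.1 ha
      obtain ⟨y, hy, rfl⟩ := mem_image.1 hb
      refine mem_image.2 ⟨x * y, bx_mul P hx hy, ?_⟩
      push_cast
      rfl
    refine (card_le_card h1).trans ?_
    rw [card_image_of_injective _ Nat.cast_injective, card_image_of_injective _ Nat.cast_injective,
      bx_card hP, bx_card hP, hPc, mul_pow]
  · rw [card_image_of_injective _ Nat.cast_injective, bx_card hP, hPc]
    push_cast
    apply pow_le_pow_left₀ (by positivity)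
    linarith

end Pool.Agent.H85.AK
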