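import Pool.Agent.H85.AK.Str6

/-!
Structured sets of exceptional slopes: an example.
-/

set_option autoImplicit false

namespace Pool.Agent.H85.AK

open Finset
open scoped Pointwise

set_option maxHeartbeats 400000

theorem bx_le {P : Finset ℕ} (hP : ∀ p ∈ P, p.Prime) {m x : ℕ} (hx : x ∈ bx P (m + 1)) :
    x ≤ (∏ p ∈ P, p) ^ m := by
  unfold bx at hx
  obtain ⟨k, hk, rfl⟩ := mem_image.1 hx
  rw [Fintype.mem_piFinset] at hk
  rw [← prod_pow, ← prod_coe_sort P]
  apply prod_le_prod'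
  intro p _
  apply Nat.pow_le_pow_right (hP p p.2).pos
  have := mem_range.1 (hk p)
  omega

/-- **a structured set of exceptional slopes** -/
theorem slope_low {ε : ℝ} (hε : 0 < ε) (hε1 : ε ≤ 1) {ρ : ℕ} (hρ : 1 ≤ ρ) :
    ∃ c : ℝ, 0 < c ∧ ∀ N : ℕ, ∃ (E : Finset (ℤ × ℤ)) (R : Finset ℤ), N ≤ E.card ∧
      (∀ r ∈ R, r ≠ 0 ∧ ((E.image fun e => (e.1 : ℚ) + (r : ℚ) * (e.2 : ℚ)).card : ℝ) ≤
        (E.card : ℝ) ^ (1 / 2 + ε)) ∧
      (R * R).card ≤ 2 ^ ρ * R.card ∧ (c * Real.log (E.card : ℝ)) ^ ρ ≤ (R.card : ℝ) := by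
  obtain ⟨P, hPp, hPc⟩ := Nat.infinite_setOfPred_prime.exists_subset_card_eq ρ
  have hP : ∀ p ∈ P, p.Prime := fun p hp => hPp hp
  have hPne : P.Nonempty := card_pos.1 (by omega)
  set Q : ℕ := ∏ p ∈ P, p with hQ
  have hQ2 : 2 ≤ Q := by
    obtain ⟨p, hp⟩ := hPne
    have h1 : p ∣ Q := dvd_prod_of_mem _ hp
    have h2 : 0 < Q := prod_pos fun q hq => (hP q hq).pos
    exact (hP p hp).two_le.trans (Nat.le_of_dvd h2 h1)
  set l : ℝ := Real.log Q with hl
  have hlog2 := Real.log_two_gt_d9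
  have hl2 : Real.log 2 ≤ l := Real.log_le_log (by norm_num) (by exact_mod_cast hQ2)
  have hl0 : 0 < l := by linarith
  refine ⟨ε / (8 * l), by positivity, ?_⟩
  intro N
  set H : ℕ := N + 1 with hH
  set D : ℕ := Q ^ H with hD
  have hDN : N + 2 ≤ D := by
    have h1 : H < 2 ^ H := Nat.lt_two_pow_self
    have h2 : 2 ^ H ≤ D := Nat.pow_le_pow_left hQ2 H
    omega
  have hDr : (1 : ℝ) ≤ D := by exact_mod_cast (show 1 ≤ D by omega)
  set Xr : ℝ := (2 * D : ℝ) ^ (1 / ε) with hXr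
  set X : ℕ := ⌈Xr⌉₊ with hX
  have h1ε : 1 ≤ 1 / ε := by
    rw [le_div_iff₀ hε]
    linarith
  have hXr1 : (2 * D : ℝ) ≤ Xr := by
    calc (2 * D : ℝ) = (2 * D : ℝ) ^ (1 : ℝ) := (Real.rpow_one _).symm
      _ ≤ (2 * D : ℝ) ^ (1 / ε) := Real.rpow_le_rpow_of_exponent_le (by linarith) h1ε
  have hX1 : Xr ≤ X := Nat.le_ceil _
  have hX2 : (X : ℝ) ≤ 2 * Xr := by
    have := Nat.ceil_lt_add_one (show 0 ≤ Xr by positivity)
    linarith
  have hX0 : (0 : ℝ) < X := by linarith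
  have hX1' : (1 : ℝ) ≤ X := by linarith
  have hXpow : (2 * D : ℝ) ≤ (X : ℝ) ^ ε := by
    calc (2 * D : ℝ) = Xr ^ ε := by
          rw [hXr, ← Real.rpow_mul (by linarith)]
          have : 1 / ε * ε = 1 := by field_simp
          rw [this, Real.rpow_one]
      _ ≤ (X : ℝ) ^ ε := Real.rpow_le_rpow (by positivity) hX1 hε.le
  set E : Finset (ℤ × ℤ) := Icc 1 (X : ℤ) ×ˢ Icc 1 (X : ℤ) with hE
  have hEc : E.card = X * X := by
    rw [hE, card_product, Int.card_Icc]
    simp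
  have hEr : (E.card : ℝ) = (X : ℝ) ^ (2 : ℝ) := by
    rw [hEc]
    push_cast
    rw [Real.rpow_two]
    ring
  refine ⟨E, (bx P (H + 1)).image fun n : ℕ => (n : ℤ), ?_, ?_, ?_, ?_⟩
  · have h1 : ((N + 2 : ℕ) : ℝ) ≤ X := by
      have : ((N + 2 : ℕ) : ℝ) ≤ D := by exact_mod_cast hDN
      linarith
    have h2 : N + 2 ≤ X := by exact_mod_cast h1
    rw [hEc]
    nlinarith
  · intro r hr
    obtain ⟨x, hx, rfl⟩ := mem_image.1 hr
    refine ⟨by exact_mod_cast bx_ne hP hx, ?_⟩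
    have hxD : x ≤ D := bx_le hP hx
    have h1 : (E.image fun e => (e.1 : ℚ) + (((x : ℤ) : ℤ) : ℚ) * (e.2 : ℚ)) ⊆
        (Icc (1 : ℤ) (((1 + D) * X : ℕ) : ℤ)).image fun z : ℤ => (z : ℚ) := by
      intro w hw
      obtain ⟨e, he, rfl⟩ := mem_image.1 hw
      obtain ⟨h2, h3⟩ := mem_product.1 he
      obtain ⟨h4, h5⟩ := mem_Icc.1 h2
      obtain ⟨h6, h7⟩ := mem_Icc.1 h3
      refine mem_image.2 ⟨e.1 + (x : ℤ) * e.2, mem_Icc.2 ⟨?_, ?_⟩, by push_cast; ring⟩
      · have : 0 ≤ (x : ℤ) * e.2 := mul_nonneg (by positivity) (by linarith)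
        linarith
      · have h8 : (x : ℤ) * e.2 ≤ (D : ℤ) * X :=
          mul_le_mul (by exact_mod_cast hxD) h7 (by linarith) (by positivity)
        push_cast
        linarith
    have h2 := (card_le_card h1).trans card_image_le
    rw [Int.card_Icc] at h2
    have h3 : (E.image fun e => (e.1 : ℚ) + (((x : ℤ) : ℤ) : ℚ) * (e.2 : ℚ)).card ≤ (1 + D) * X := by
      omega
    have h4 : ((E.image fun e => (e.1 : ℚ) + (((x : ℤ) : ℤ) : ℚ) * (e.2 : ℚ)).card : ℝ) ≤
        (1 + D) * X := by exact_mod_cast h3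
    refine h4.trans ?_
    rw [hEr, ← Real.rpow_mul hX0.le]
    have e1 : (2 : ℝ) * (1 / 2 + ε) = ε + (1 + ε) := by ring
    rw [e1, Real.rpow_add hX0]
    apply mul_le_mul
    · linarith
    · calc (X : ℝ) = (X : ℝ) ^ (1 : ℝ) := (Real.rpow_one _).symm
        _ ≤ (X : ℝ) ^ (1 + ε) := Real.rpow_le_rpow_of_exponent_le hX1' (by linarith)
    · exact hX0.le
    · positivity
  · have h1 : ((bx P (H + 1)).image fun n : ℕ => (n : ℤ)) *
        ((bx P (H + 1)).image fun n : ℕ => (n : ℤ)) ⊆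
        (bx P (2 * (H + 1))).image fun n : ℕ => (n : ℤ) := by
      intro z hz
      obtain ⟨a, ha, b, hb, rfl⟩ := mem_mul.1 hz
      obtain ⟨x, hx, rfl⟩ := mem_image.1 ha
      obtain ⟨y, hy, rfl⟩ := mem_image.1 hb
      refine mem_image.2 ⟨x * y, bx_mul P hx hy, ?_⟩
      push_cast
      rfl
    refine (card_le_card h1).trans ?_
    rw [card_image_of_injective _ Nat.cast_injective, card_image_of_injective _ Nat.cast_injective,
      bx_card hP, bx_card hP, hPc, mul_pow]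
  · rw [card_image_of_injective _ Nat.cast_injective, bx_card hP, hPc]
    push_cast
    apply pow_le_pow_left₀ (by
      have := Real.log_natCast_nonneg E.card
      positivity)
    -- logarithms
    have hlD : Real.log (D : ℝ) = H * l := by
      rw [hD]
      push_cast
      rw [Real.log_pow]
    have hH1 : (1 : ℝ) ≤ H := by
      rw [hH]
      push_cast
      have : (0 : ℝ) ≤ N := Nat.cast_nonneg N
      linarith
    have hHl : l ≤ H * l := le_mul_of_one_le_left hl0.le hH1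
    have hXr0 : 0 < Xr := by linarith
    have hlX : Real.log (X : ℝ) ≤ 4 / ε * (H * l) := by
      have h5 := Real.log_le_log hX0 hX2
      rw [Real.log_mul (by norm_num) hXr0.ne', hXr,
        Real.log_rpow (by linarith), Real.log_mul (by norm_num) (by linarith), hlD] at h5
      have h6 : Real.log 2 + H * l ≤ 2 * (H * l) := by linarith
      have h7 : 1 / ε * (Real.log 2 + H * l) ≤ 1 / ε * (2 * (H * l)) :=
        mul_le_mul_of_nonneg_left h6 (by positivity)
      have h8 : H * l ≤ 1 / ε * (H * l) := le_mul_of_one_le_left (by positivity) h1ε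
      have h9 : 4 / ε * (H * l) = 4 * (1 / ε * (H * l)) := by ring
      linarith
    have hlE : Real.log (E.card : ℝ) = 2 * Real.log (X : ℝ) := by
      rw [hEr, Real.log_rpow hX0]
    rw [hlE]
    calc ε / (8 * l) * (2 * Real.log (X : ℝ)) ≤ ε / (8 * l) * (2 * (4 / ε * (H * l))) :=
          mul_le_mul_of_nonneg_left (by linarith) (by positivity)
      _ = H := by field_simp; norm_num
      _ ≤ H + 1 := by linarith

end Pool.Agent.H85.AK
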