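import Pool.Agent.H85.AK.Grid

/-!
Summing over the nodes of the grid.
-/

set_option autoImplicit false

namespace Pool.Agent.H85.AK

open Finset
open scoped Classical

variable {α β γ ζ κ : Type*}

theorem cl_swap (A : Finset α) (P : α → β) (Q : α → γ) (a : α) :
    cl A (lab Q P) a = cl A (lab P Q) a := by
  ext b
  simp only [mem_cl, lab, Prod.mk.injEq]
  tauto

theorem nn_swap (A : Finset α) (P : α → β) (Q : α → γ) (a : α) : nn A Q P a = nn A P Q a := by
  unfold nn
  apply ct_congr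
  intro b _
  simp only [lab, Prod.mk.injEq]
  tauto

theorem S_swap (A : Finset α) (P : α → β) (Q : α → γ) (Φ : Finset α → ℝ) :
    S A (lab Q P) Φ = S A (lab P Q) Φ := by
  unfold S
  apply sum_congr rfl
  intro a _
  have := nn_swap A P Q a
  unfold nn at this
  rw [cl_swap, this]

/-- **the inequality of one node** -/
theorem node_ineq {δ : ℝ} (hδ : 0 < δ) (hδ1 : δ ≤ 1) {A : Finset α}
    {P P' : α → β} {Q Q' : α → γ} {Z : α → ζ} (hP : Ref A P' P) (hQ : Ref A Q' Q)
    (hZ : ∀ a ∈ A, ∀ b ∈ A, P' a = P' b → Q' a = Q' b → Z a = Z b)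
    (hU : ∀ a ∈ A, ∀ b ∈ A, Z a = Z b → Q' a = Q' b → P' a = P' b)
    (hV : ∀ a ∈ A, ∀ b ∈ A, Z a = Z b → P' a = P' b → Q' a = Q' b) :
    ∑ a ∈ A, (Real.log (ct A (fun b => (Z b, lab P Q b)) a) - Real.log (nn A P' Q' a)) ≤
      δ * (S A (lab P Q) (fun Ω => hh Ω P') + S A (lab P Q) (fun Ω => hh Ω Q')) +
      (40 + Real.exp (1 / δ)) * (S A (lab P Q) (fun Ω => ep Ω Q' * hh Ω P') +
        S A (lab P Q) (fun Ω => ep Ω P' * hh Ω Q')) +
      (1 + 2 * Real.log (A.card : ℝ)) * S A (lab P Q) (fun Ω => mi Ω P' Q') := by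
  rw [← S_loss hP hQ Z, ← S_add, ← S_add, ← S_smul, ← S_smul, ← S_smul, ← S_add, ← S_add]
  apply S_mono
  intro a ha
  have hsub : cl A (lab P Q) a ⊆ A := cl_sub _ _ _
  have hne := cl_nonempty (lab P Q) ha
  have h := local_ineq hδ hδ1 hne (U := P') (V := Q') (Z := Z)
    (fun a ha b hb => hZ a (hsub ha) b (hsub hb))
    (fun a ha b hb => hU a (hsub ha) b (hsub hb))
    (fun a ha b hb => hV a (hsub ha) b (hsub hb))
  refine h.trans ?_
  apply add_le_add le_rfl
  apply mul_le_mul_of_nonneg_right _ (mi_nonneg _ _ _)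
  have h1 : Real.log ((cl A (lab P Q) a).card : ℝ) ≤ Real.log (A.card : ℝ) := by
    apply Real.log_le_log
    · exact_mod_cast card_pos.2 hne
    · exact_mod_cast card_le_card hsub
  linarith

/-- refining a chain of labels -/
theorem chain {ζ' : Type*} (A : Finset α) (T : ℕ) (F : ℕ → α → κ) (Z : ℕ → α → ζ) (z : α → ζ')
    (hFZ : ∀ t, ∀ a ∈ A, ∀ b ∈ A, F t a = F t b → Z t a = Z t b)
    (hZZ : ∀ t, ∀ a ∈ A, ∀ b ∈ A, Z (t + 1) a = Z (t + 1) b → Z t a = Z t b)
    (h0 : ∀ a ∈ A, ∀ b ∈ A, F 0 a = F 0 b)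
    (hT : ∀ a ∈ A, ∀ b ∈ A, F T a = F T b → a = b)
    (hz : ∀ a ∈ A, ∀ b ∈ A, z a = z b → Z T a = Z T b) :
    ∑ a ∈ A, Real.log (ct A z a) ≤ ∑ t ∈ range T, ∑ a ∈ A,
      (Real.log (ct A (fun b => (Z (t + 1) b, F t b)) a) - Real.log (ct A (F (t + 1)) a)) := by
  -- one step
  have step : ∀ t, ∑ a ∈ A, Real.log (ct A (Z (t + 1)) a) + ∑ a ∈ A, Real.log (ct A (F t) a) ≤
      ∑ a ∈ A, Real.log (ct A (fun b => (Z (t + 1) b, F t b)) a) +
        ∑ a ∈ A, Real.log (ct A (Z t) a) := by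
    intro t
    have h := submod A (Z (t + 1)) (F t) (Z t)
    rw [sum_add_distrib, sum_add_distrib] at h
    have e1 : ∀ a ∈ A, Real.log (ct A (fun a => (Z (t + 1) a, Z t a)) a) =
        Real.log (ct A (Z (t + 1)) a) := by
      intro a ha
      congr 1
      apply ct_congr
      intro b hb
      simp only [Prod.mk.injEq]
      exact ⟨fun h => h.1, fun h => ⟨h, hZZ t b hb a ha h⟩⟩
    have e2 : ∀ a ∈ A, Real.log (ct A (fun a => (F t a, Z t a)) a) =
        Real.log (ct A (F t) a) := by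
      intro a ha
      congr 1
      apply ct_congr
      intro b hb
      simp only [Prod.mk.injEq]
      exact ⟨fun h => h.1, fun h => ⟨h, hFZ t b hb a ha h⟩⟩
    have e3 : ∀ a ∈ A, Real.log (ct A (fun a => (Z (t + 1) a, F t a, Z t a)) a) =
        Real.log (ct A (fun b => (Z (t + 1) b, F t b)) a) := by
      intro a ha
      congr 1
      apply ct_congr
      intro b hb
      simp only [Prod.mk.injEq]
      exact ⟨fun h => ⟨h.1, h.2.1⟩, fun h => ⟨h.1, h.2, hFZ t b hb a ha h.2⟩⟩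
    rw [sum_congr rfl e1, sum_congr rfl e2, sum_congr rfl e3] at h
    exact h
  have tel : ∀ T, ∑ a ∈ A, Real.log (ct A (Z T) a) + ∑ a ∈ A, Real.log (ct A (F 0) a) ≤
      ∑ t ∈ range T, ∑ a ∈ A, (Real.log (ct A (fun b => (Z (t + 1) b, F t b)) a) -
        Real.log (ct A (F (t + 1)) a)) + ∑ a ∈ A, Real.log (ct A (Z 0) a) +
        ∑ a ∈ A, Real.log (ct A (F T) a) := by
    intro T
    induction T with
    | zero => simp
    | succ T ih =>
      rw [sum_range_succ, sum_sub_distrib]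
      have := step T
      linarith
  have h1 := tel T
  have e0 : ∑ a ∈ A, Real.log (ct A (F T) a) = 0 := by
    apply sum_eq_zero
    intro a ha
    have : ct A (F T) a = 1 := by
      unfold ct cv
      have : (A.filter fun b => F T b = F T a) = {a} := by
        ext b
        simp only [mem_filter, mem_singleton]
        constructor
        · rintro ⟨h2, h3⟩
          exact hT b h2 a ha h3
        · rintro rfl
          exact ⟨ha, rfl⟩
      rw [this]
      simp
    rw [this, Real.log_one]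
  have e1 : ∑ a ∈ A, Real.log (ct A (Z 0) a) ≤ ∑ a ∈ A, Real.log (ct A (F 0) a) := by
    apply sum_le_sum
    intro a ha
    have : ct A (F 0) a = A.card := by
      unfold ct cv
      rw [filter_true_of_mem fun b hb => h0 b hb a ha]
    rw [this]
    exact log_ct_le _ ha
  have e2 : ∑ a ∈ A, Real.log (ct A z a) ≤ ∑ a ∈ A, Real.log (ct A (Z T) a) := by
    apply sum_le_sum
    intro a ha
    apply Real.log_le_log (ct_pos _ ha)
    apply ct_mono
    intro b hb h
    exact hz b hb a ha h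
  linarith

/-- telescoping over a rectangle -/
theorem tel2 (E : ℕ → ℕ → ℝ) (R R' : ℕ) :
    ∑ s ∈ range R, ∑ t ∈ range R', (E (s + 1) (t + 1) + E s t - E (s + 1) t - E s (t + 1)) =
      E R R' + E 0 0 - E R 0 - E 0 R' := by
  have h1 : ∀ s, ∑ t ∈ range R', (E (s + 1) (t + 1) + E s t - E (s + 1) t - E s (t + 1)) =
      (E (s + 1) R' - E s R') - (E (s + 1) 0 - E s 0) := by
    intro s
    have h2 : ∀ t, E (s + 1) (t + 1) + E s t - E (s + 1) t - E s (t + 1) =
        (E (s + 1) (t + 1) - E s (t + 1)) - (E (s + 1) t - E s t) := fun t => by ring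
    rw [sum_congr rfl fun t _ => h2 t, sum_range_sub fun t => E (s + 1) t - E s t]
  rw [sum_congr rfl fun s _ => h1 s, sum_sub_distrib, sum_range_sub fun s => E s R',
    sum_range_sub fun s => E s 0]
  ring

section grid

variable (A : Finset α) (P : ℕ → α → β) (Q : ℕ → α → γ)

/-- sum of the logarithms of the cell sizes -/
noncomputable def E (s t : ℕ) : ℝ := ∑ a ∈ A, Real.log (nn A (P s) (Q t) a)

variable {A P Q}

theorem E_nonneg (s t : ℕ) : 0 ≤ E A P Q s t := sum_nonneg fun _ ha => log_nn_nonneg _ _ ha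

theorem E_le (s t : ℕ) : E A P Q s t ≤ A.card * Real.log (A.card : ℝ) := by
  unfold E
  rw [← nsmul_eq_mul, ← sum_const]
  exact sum_le_sum fun _ ha => log_nn_le _ _ ha

theorem E_left (hP : ∀ s, Ref A (P (s + 1)) (P s)) (s t : ℕ) :
    E A P Q (s + 1) t ≤ E A P Q s t :=
  sum_le_sum fun _ ha => log_nn_mono_left (hP s) ha

theorem E_right (hQ : ∀ t, Ref A (Q (t + 1)) (Q t)) (s t : ℕ) :
    E A P Q s (t + 1) ≤ E A P Q s t :=
  sum_le_sum fun _ ha => log_nn_mono_right (hQ t) ha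

/-- mutual informations over a rectangle -/
theorem sum_I (hQ : ∀ t, Ref A (Q (t + 1)) (Q t)) (R : ℕ) :
    ∑ s ∈ range R, ∑ t ∈ range R, (E A P Q (s + 1) (t + 1) + E A P Q s t -
      E A P Q (s + 1) t - E A P Q s (t + 1)) ≤ A.card * Real.log (A.card : ℝ) := by
  rw [tel2 (E A P Q) R R]
  have h1 : E A P Q R R ≤ E A P Q R 0 := by
    have : ∀ t, E A P Q R t ≤ E A P Q R 0 := by
      intro t
      induction t with
      | zero => exact le_rfl
      | succ t ih => exact (E_right hQ R t).trans ih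
    exact this R
  have h2 := E_le (A := A) (P := P) (Q := Q) 0 0
  have h3 := E_nonneg (A := A) (P := P) (Q := Q) 0 R
  linarith

theorem sum_X (hP : ∀ s, Ref A (P (s + 1)) (P s)) (hQ : ∀ t, Ref A (Q (t + 1)) (Q t)) (R : ℕ) :
    ∑ s ∈ range R, ∑ t ∈ range R,
      S A (lab (P s) (Q t)) (fun Ω => ep Ω (P (s + 1)) * hh Ω (Q (t + 1))) ≤
      A.card * Real.log (A.card : ℝ) * Real.log (A.card : ℝ) := by
  rw [sum_comm]
  have h1 : ∀ t, ∑ s ∈ range R,
      S A (lab (P s) (Q t)) (fun Ω => ep Ω (P (s + 1)) * hh Ω (Q (t + 1))) ≤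
      Real.log (A.card : ℝ) * (E A P Q 0 t - E A P Q 0 (t + 1)) := by
    intro t
    have h2 : ∀ R, ∑ s ∈ range R,
        S A (lab (P s) (Q t)) (fun Ω => ep Ω (P (s + 1)) * hh Ω (Q (t + 1))) +
          G A (P R) (Q t) (Q (t + 1)) ≤ G A (P 0) (Q t) (Q (t + 1)) := by
      intro R
      induction R with
      | zero => simp
      | succ R ih =>
        rw [sum_range_succ]
        have := G_step (hP R) (hQ t)
        linarith
    have h3 := h2 R
    have h4 : 0 ≤ G A (P R) (Q t) (Q (t + 1)) := G_nonneg (hQ t)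
    have h5 : G A (P 0) (Q t) (Q (t + 1)) ≤
        Real.log (A.card : ℝ) * (E A P Q 0 t - E A P Q 0 (t + 1)) := by
      unfold G E
      rw [← sum_sub_distrib, mul_sum]
      apply sum_le_sum
      intro a ha
      exact mul_le_mul_of_nonneg_right (log_nn_le _ _ ha)
        (sub_nonneg.2 (log_nn_mono_right (hQ t) ha))
    linarith
  refine (sum_le_sum fun t _ => h1 t).trans ?_
  rw [← mul_sum, sum_range_sub']
  have h2 := E_le (A := A) (P := P) (Q := Q) 0 0
  have h3 := E_nonneg (A := A) (P := P) (Q := Q) 0 R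
  have h4 : 0 ≤ Real.log (A.card : ℝ) := Real.log_natCast_nonneg _
  calc Real.log (A.card : ℝ) * (E A P Q 0 0 - E A P Q 0 R)
      ≤ Real.log (A.card : ℝ) * (A.card * Real.log (A.card : ℝ)) :=
        mul_le_mul_of_nonneg_left (by linarith) h4
    _ = _ := by ring

theorem sum_Y (hP : ∀ s, Ref A (P (s + 1)) (P s)) (hQ : ∀ t, Ref A (Q (t + 1)) (Q t)) (R : ℕ) :
    ∑ s ∈ range R, ∑ t ∈ range R,
      S A (lab (P s) (Q t)) (fun Ω => ep Ω (Q (t + 1)) * hh Ω (P (s + 1))) ≤
      A.card * Real.log (A.card : ℝ) * Real.log (A.card : ℝ) := by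
  have h := sum_X hQ hP R
  rw [sum_comm]
  refine le_trans (le_of_eq ?_) h
  apply sum_congr rfl
  intro t _
  apply sum_congr rfl
  intro s _
  exact (S_swap A (P s) (Q t) _).symm

end grid

end Pool.Agent.H85.AK
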