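import Pool.Agent.H85.AK.Filt

/-!
The number of exceptional valuations.
-/

set_option autoImplicit false

namespace Pool.Agent.H85.AK

open Finset
open scoped Classical

/-- Jensen: a small image has large classes -/
theorem sum_log_of_card {α ζ : Type*} [DecidableEq ζ] {A : Finset α} (hA : A.Nonempty) {z : α → ζ}
    {ε : ℝ} (h : ((A.image z).card : ℝ) ≤ (A.card : ℝ) ^ (1 - ε)) :
    ε * (A.card * Real.log (A.card : ℝ)) ≤ ∑ a ∈ A, Real.log (ct A z a) := by
  have hn : (0 : ℝ) < A.card := by exact_mod_cast card_pos.2 hA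
  have hm : 0 < (A.image z).card := card_pos.2 (hA.image z)
  have h0 : hh A z ≤ A.card * Real.log ((A.image z).card : ℕ) := by
    apply hh_le_card hm
    apply le_of_eq
    congr 1
    ext w
    simp only [mem_image]
  have h1 : hh A z = A.card * Real.log (A.card : ℝ) - ∑ a ∈ A, Real.log (ct A z a) := by
    unfold hh
    rw [sum_sub_distrib, sum_const, nsmul_eq_mul]
  have h2 : Real.log ((A.image z).card : ℝ) ≤ (1 - ε) * Real.log (A.card : ℝ) := by
    rw [← Real.log_rpow hn]
    exact Real.log_le_log (by exact_mod_cast hm) h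
  have h3 := mul_le_mul_of_nonneg_left h2 hn.le
  rw [h1] at h0
  nlinarith

theorem const_bound {ε : ℝ} (hε : 0 < ε) (hε1 : ε ≤ 1) {S k : ℝ} (hS : Real.log 2 ≤ S)
    (h : k * (ε / 2) ≤ ε / 2 + 1 + 2 * S + 2 * (40 + Real.exp (1 / (ε / 2))) * S) :
    k ≤ Real.exp (6 / ε) * S := by
  have hl := Real.log_two_gt_d9
  have hS0 : 0 < S := by linarith
  set t : ℝ := 1 / ε with ht
  have ht1 : 1 ≤ t := by
    rw [ht, le_div_iff₀ hε]
    linarith
  have e1 : 1 / (ε / 2) = 2 * t := by
    rw [ht]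
    field_simp
  have e2 : 6 / ε = 6 * t := by
    rw [ht]
    ring
  rw [e1] at h
  rw [e2]
  -- exponentials
  have x1 : 2 * t ≤ Real.exp t := by
    have := Real.quadratic_le_exp_of_nonneg (show 0 ≤ t by linarith)
    nlinarith
  have y1 : (2.7 : ℝ) ≤ Real.exp t := by
    have h1 := Real.exp_one_gt_d9
    have h2 := Real.exp_le_exp.2 ht1
    linarith
  set y : ℝ := Real.exp t with hy
  have e3 : Real.exp (2 * t) = y ^ 2 := by
    rw [hy, ← Real.exp_nat_mul]
    norm_num
  have e4 : Real.exp (6 * t) = y ^ 6 := by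
    rw [hy, ← Real.exp_nat_mul]
    norm_num
  rw [e3] at h
  rw [e4]
  -- first bound the right side by a multiple of S
  have r1 : ε / 2 + 1 + 2 * S + 2 * (40 + y ^ 2) * S ≤ (85 + 2 * y ^ 2) * S := by
    nlinarith
  have r2 : 85 + 2 * y ^ 2 ≤ y ^ 5 := by
    have hy3 : (19 : ℝ) ≤ y ^ 3 := by
      have : (2.7 : ℝ) ^ 3 ≤ y ^ 3 := pow_le_pow_left₀ (by norm_num) y1 3
      norm_num at this
      linarith
    have hy2 : (7.29 : ℝ) ≤ y ^ 2 := by
      have : (2.7 : ℝ) ^ 2 ≤ y ^ 2 := pow_le_pow_left₀ (by norm_num) y1 2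
      norm_num at this
      linarith
    nlinarith
  have h2 : k * (ε / 2) ≤ y ^ 5 * S :=
    h.trans (r1.trans (mul_le_mul_of_nonneg_right r2 hS0.le))
  have h3 : k = (k * (ε / 2)) * (2 * t) := by
    rw [ht]
    field_simp
  rw [h3]
  have h4 : 0 ≤ y ^ 5 * S := by positivity
  calc k * (ε / 2) * (2 * t) ≤ y ^ 5 * S * (2 * t) :=
        mul_le_mul_of_nonneg_right h2 (by linarith)
    _ ≤ y ^ 5 * S * y := mul_le_mul_of_nonneg_left x1 h4
    _ = y ^ 6 * S := by ring

/-- **exceptional shifts** -/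
theorem filt_count {ε : ℝ} (hε : 0 < ε) (hε1 : ε ≤ 1) {K : Type*} [AddCommGroup K]
    [DecidableEq K]
    {L : ℤ → AddSubgroup K} (hL : Antitone L) (htop : ∀ x, ∃ l, x ∈ L l)
    (hbot : ∀ x, x ≠ 0 → ∃ l, x ∉ L l) (A : Finset (K × K)) (hA : 2 ≤ A.card) (J : Finset ℤ)
    (ρ : ℤ → K →+ K) (hρ : ∀ i ∈ J, ∀ y l, ρ i y ∈ L (l + i) ↔ y ∈ L l)
    (h : ∀ i ∈ J, ((A.image fun a => a.1 + ρ i a.2).card : ℝ) ≤ (A.card : ℝ) ^ (1 - ε)) :
    (J.card : ℝ) ≤ Real.exp (6 / ε) * Real.log (A.card : ℝ) := by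
  have hAne : A.Nonempty := card_pos.1 (by omega)
  have hn : (2 : ℝ) ≤ A.card := by exact_mod_cast hA
  have hS : Real.log 2 ≤ Real.log (A.card : ℝ) := Real.log_le_log (by norm_num) hn
  have hS0 : 0 < Real.log (A.card : ℝ) := by
    have := Real.log_two_gt_d9
    linarith
  have h1 := filt (δ := ε / 2) (by linarith) (by linarith) hL htop hbot A J ρ hρ
  have h2 : (J.card : ℝ) * (ε * (A.card * Real.log (A.card : ℝ))) ≤
      ∑ i ∈ J, ∑ a ∈ A, Real.log (ct A (fun a : K × K => a.1 + ρ i a.2) a) := by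
    rw [← nsmul_eq_mul, ← sum_const]
    exact sum_le_sum fun i hi => sum_log_of_card hAne (h i hi)
  apply const_bound hε hε1 hS
  set n : ℝ := (A.card : ℝ) with hnd
  set s : ℝ := Real.log n with hs
  have hns : 0 < n * s := by positivity
  have h3 : (J.card : ℝ) * (ε / 2) * (n * s) ≤
      (ε / 2 + 1 + 2 * s + 2 * (40 + Real.exp (1 / (ε / 2))) * s) * (n * s) := by
    linarith
  exact le_of_mul_le_mul_right h3 hns

/-- the filtration of a discrete valuation -/
noncomputable def vfil {K : Type*} [Field K] (v : Valuation K (WithZero (Multiplicative ℤ)))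
    (l : ℤ) : AddSubgroup K where
  carrier := {x | v x ≤ WithZero.exp (-l)}
  zero_mem' := by simp
  add_mem' := by
    intro a b ha hb
    exact (v.map_add a b).trans (max_le ha hb)
  neg_mem' := by
    intro a ha
    show v (-a) ≤ _
    rw [Valuation.map_neg]
    exact ha

/-- **the number of exceptional valuations, over a field with a discrete valuation** -/
theorem val_count {ε : ℝ} (hε : 0 < ε) (hε1 : ε ≤ 1) {K : Type*} [Field K] [DecidableEq K]
    (v : Valuation K (WithZero (Multiplicative ℤ))) (A : Finset (K × K)) (hA : 2 ≤ A.card)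
    (R : Finset K) (hR0 : ∀ r ∈ R, r ≠ 0)
    (h : ∀ r ∈ R, ((A.image fun a => a.1 + r * a.2).card : ℝ) ≤ (A.card : ℝ) ^ (1 - ε)) :
    ((R.image v).card : ℝ) ≤ Real.exp (6 / ε) * Real.log (A.card : ℝ) := by
  set J : Finset ℤ := R.image fun r => -WithZero.log (v r) with hJ
  have hc : (R.image v).card ≤ J.card := by
    have h1 : R.image v ⊆ J.image fun i => WithZero.exp (-i) := by
      intro w hw
      obtain ⟨r, hr, rfl⟩ := mem_image.1 hw
      refine mem_image.2 ⟨_, mem_image_of_mem _ hr, ?_⟩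
      rw [neg_neg, WithZero.exp_log ((Valuation.ne_zero_iff v).2 (hR0 r hr))]
    exact (card_le_card h1).trans card_image_le
  have hex : ∀ i : ℤ, ∃ r : K, i ∈ J → r ∈ R ∧ v r = WithZero.exp (-i) := by
    intro i
    by_cases hi : i ∈ J
    · obtain ⟨r, hr, hri⟩ := mem_image.1 hi
      refine ⟨r, fun _ => ⟨hr, ?_⟩⟩
      rw [← hri, neg_neg, WithZero.exp_log ((Valuation.ne_zero_iff v).2 (hR0 r hr))]
    · exact ⟨0, fun h => absurd h hi⟩
  choose r hr using hex
  have key := filt_count hε hε1 (L := vfil v) (K := K) ?_ ?_ ?_ A hA J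
    (fun i => AddMonoidHom.mulLeft (r i)) ?_ ?_
  · exact (Nat.cast_le.2 hc).trans key
  · intro l l' hll x hx
    show v x ≤ WithZero.exp (-l)
    refine (show v x ≤ WithZero.exp (-l') from hx).trans ?_
    rw [WithZero.exp_le_exp]
    omega
  · intro x
    by_cases hx : x = 0
    · exact ⟨0, by rw [hx]; exact AddSubgroup.zero_mem _⟩
    · refine ⟨-WithZero.log (v x), ?_⟩
      show v x ≤ WithZero.exp (- -WithZero.log (v x))
      rw [neg_neg, WithZero.exp_log ((Valuation.ne_zero_iff v).2 hx)]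
  · intro x hx
    refine ⟨-WithZero.log (v x) + 1, fun h => ?_⟩
    have h1 : v x ≤ WithZero.exp (-(-WithZero.log (v x) + 1)) := h
    have h2 := (WithZero.log_le_iff_le_exp ((Valuation.ne_zero_iff v).2 hx)).2 h1
    omega
  · intro i hi y l
    obtain ⟨_, hv⟩ := hr i hi
    show v (r i * y) ≤ WithZero.exp (-(l + i)) ↔ v y ≤ WithZero.exp (-l)
    rw [map_mul, hv]
    have e : WithZero.exp (-(l + i)) = WithZero.exp (-i) * WithZero.exp (-l) := by
      rw [← WithZero.exp_add]
      congr 1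
      ring
    rw [e]
    exact mul_le_mul_iff_right₀ (by simp)
  · intro i hi
    exact h (r i) (hr i hi).1

end Pool.Agent.H85.AK
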