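import Pool.Agent.H85.AK.Arc5
import Pool.Agent.H85.AK.Stmt2

/-!
Arbitrary valuations.
-/

set_option autoImplicit false

namespace Pool.Agent.H85.AK

open Finset
open scoped Classical

theorem card_insert_filter {α : Type*} [DecidableEq α] {Ω : Finset α} {p : α → Prop}
    [DecidablePred p] {a : α} (ha : a ∈ Ω)
    {q : α → Prop} [DecidablePred q] (h : ∀ b ∈ Ω, p b ↔ b = a ∨ (b ≠ a ∧ q b)) :
    ((Ω.filter p).card : ℝ) = 1 + (((Ω.erase a).filter q).card : ℝ) := by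
  have e : Ω.filter p = insert a ((Ω.erase a).filter q) := by
    ext b
    rw [mem_filter, mem_insert, mem_filter, mem_erase]
    constructor
    · rintro ⟨h1, h2⟩
      rcases (h b h1).1 h2 with h3 | h3
      · exact Or.inl h3
      · exact Or.inr ⟨⟨h3.1, h1⟩, h3.2⟩
    · rintro (rfl | ⟨⟨h1, h2⟩, h3⟩)
      · exact ⟨ha, (h b ha).2 (Or.inl rfl)⟩
      · exact ⟨h2, (h b h2).2 (Or.inr ⟨h1, h3⟩)⟩
  rw [e, card_insert_of_notMem (by
    rw [mem_filter, mem_erase]
    rintro ⟨⟨h1, _⟩, _⟩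
    exact h1 rfl)]
  push_cast
  ring

theorem ct_eq_filter {α β : Type*} [DecidableEq α] {Ω : Finset α} {f : α → β} {a : α}
    {q : α → Prop} [DecidablePred q] (ha : a ∈ Ω)
    (h : ∀ b ∈ Ω, f b = f a ↔ b = a ∨ (b ≠ a ∧ q b)) :
    ct Ω f a = 1 + (((Ω.erase a).filter q).card : ℝ) := by
  unfold ct cv
  exact card_insert_filter ha h

section

variable {F : Type} [Field F] {Γ₀ : Type} [LinearOrderedCommGroupWithZero Γ₀]

/-- the closed balls -/
def ble (v : Valuation F Γ₀) (γ : Γ₀) : AddSubgroup F where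
  carrier := {x | v x ≤ γ}
  zero_mem' := by simp
  add_mem' := fun {x y} hx hy => (v.map_add x y).trans (max_le hx hy)
  neg_mem' := fun {x} hx => by
    show v (-x) ≤ γ
    rw [Valuation.map_neg]
    exact hx

/-- the open balls -/
def blt (v : Valuation F Γ₀) (γ : Γ₀) : AddSubgroup F where
  carrier := {x | x = 0 ∨ v x < γ}
  zero_mem' := Or.inl rfl
  add_mem' := by
    rintro x y (rfl | hx) (rfl | hy)
    · left
      exact add_zero 0
    · right
      rw [zero_add]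
      exact hy
    · right
      rw [add_zero]
      exact hx
    · right
      exact (v.map_add x y).trans_lt (max_lt hx hy)
  neg_mem' := by
    rintro x (rfl | hx)
    · left
      exact neg_zero
    · right
      rw [Valuation.map_neg]
      exact hx

theorem mem_ble {v : Valuation F Γ₀} {γ : Γ₀} {x : F} : x ∈ ble v γ ↔ v x ≤ γ := Iff.rfl

theorem mem_blt {v : Valuation F Γ₀} {γ : Γ₀} {x : F} : x ∈ blt v γ ↔ x = 0 ∨ v x < γ := Iff.rfl

theorem blt_le (v : Valuation F Γ₀) (γ : Γ₀) : blt v γ ≤ ble v γ := by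
  rintro x (rfl | hx)
  · exact (ble v γ).zero_mem
  · exact hx.le

/-- the entropy of a level -/
noncomputable def hv (v : Valuation F Γ₀) (X : Finset F) (γ : Γ₀) : ℝ :=
  hs X (cos (ble v γ)) (cos (blt v γ))

/-- the mass of a level -/
noncomputable def wv (v : Valuation F Γ₀) (X : Finset F) (γ : Γ₀) : ℝ :=
  ws X (cos (ble v γ)) (cos (blt v γ))

theorem ref_ball (v : Valuation F Γ₀) (X : Finset F) (γ : Γ₀) :
    Ref X (cos (blt v γ)) (cos (ble v γ)) := by
  intro x _ y _ h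
  exact cos_eq.2 (blt_le v γ (cos_eq.1 h))

theorem hv_nonneg (v : Valuation F Γ₀) (X : Finset F) (γ : Γ₀) : 0 ≤ hv v X γ :=
  hs_nonneg (ref_ball v X γ)

theorem wv_nonneg (v : Valuation F Γ₀) (X : Finset F) (γ : Γ₀) : 0 ≤ wv v X γ := ws_nonneg _ _ _

theorem wv_le (v : Valuation F Γ₀) (X : Finset F) (γ : Γ₀) : wv v X γ ≤ hv v X γ :=
  ws_le_hs (ref_ball v X γ)

theorem hv_sum (hlev : Stmt2.S_levels) (v : Valuation F Γ₀) (X : Finset F) {ι : Type*}
    (I : Finset ι) (e : ι → Γ₀) (he : Set.InjOn e (I : Set ι)) :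
    ∑ j ∈ I, hv v X (e j) ≤ X.card * Real.log (X.card : ℝ) := by
  rw [← sum_image (s := I) (g := e) (f := hv v X) he]
  unfold hv hs
  rw [sum_comm, ← nsmul_eq_mul, ← sum_const]
  apply sum_le_sum
  intro x hx
  have h := (hlev F Γ₀ (X.erase x) (fun y => v (y - x)) (I.image e)).1
  have hc : (1 : ℝ) + ((X.erase x).card : ℝ) = X.card := by
    rw [card_erase_of_mem hx]
    have : 0 < X.card := card_pos.2 ⟨x, hx⟩
    rw [Nat.cast_sub (by omega)]
    push_cast
    ring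
  rw [hc] at h
  refine le_trans (le_of_eq ?_) h
  apply sum_congr rfl
  intro γ _
  have e1 : ct X (cos (ble v γ)) x = 1 + (((X.erase x).filter fun y => v (y - x) ≤ γ).card : ℝ) := by
    apply ct_eq_filter hx
    intro b _
    rw [cos_eq, mem_ble]
    constructor
    · intro h1
      by_cases h2 : b = x
      · exact Or.inl h2
      · exact Or.inr ⟨h2, h1⟩
    · rintro (rfl | h1)
      · rw [sub_self, map_zero]
        exact zero_le'
      · exact h1.2
  have e2 : ct X (cos (blt v γ)) x = 1 + (((X.erase x).filter fun y => v (y - x) < γ).card : ℝ) := by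
    apply ct_eq_filter hx
    intro b _
    rw [cos_eq, mem_blt, sub_eq_zero]
    constructor
    · rintro (h1 | h1)
      · exact Or.inl h1
      · by_cases h2 : b = x
        · exact Or.inl h2
        · exact Or.inr ⟨h2, h1⟩
    · rintro (h1 | h1)
      · exact Or.inl h1
      · exact Or.inr h1.2
  rw [e1, e2]

theorem wv_sum (hlev : Stmt2.S_levels) (v : Valuation F Γ₀) (X : Finset F) {ι : Type*}
    (I : Finset ι) (e : ι → Γ₀) (he : Set.InjOn e (I : Set ι)) :
    ∑ j ∈ I, wv v X (e j) ≤ X.card * Real.log (X.card : ℝ) :=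
  (sum_le_sum fun j _ => wv_le v X (e j)).trans (hv_sum hlev v X I e he)

/-- the two differences on a fibre -/
theorem fibre_val (v : Valuation F Γ₀) {r : F} {a b : F × F} (h : r * b.1 + b.2 = r * a.1 + a.2) :
    v (b.2 - a.2) = v r * v (b.1 - a.1) := by
  have e : b.2 - a.2 = -(r * (b.1 - a.1)) := by linear_combination h
  rw [e, Valuation.map_neg, map_mul]

/-- the neighbours at a level -/
noncomputable def nv (v : Valuation F Γ₀) (Ω : Finset (F × F)) (r : F) (γ : Γ₀) (a : F × F) : ℝ :=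
  ((Ω.filter fun b => r * b.1 + b.2 = r * a.1 + a.2 ∧
    cos (ble v (γ / v r)) b.1 = cos (ble v (γ / v r)) a.1 ∧ cos (ble v γ) b.2 = cos (ble v γ) a.2 ∧
    (cos (blt v (γ / v r)) b.1 = cos (blt v (γ / v r)) a.1 ∨
      cos (blt v γ) b.2 = cos (blt v γ) a.2)).card : ℝ)

/-- the points of a fibre at a level -/
noncomputable def cvl (v : Valuation F Γ₀) (Ω : Finset (F × F)) (r : F) (γ : Γ₀) (a : F × F) : ℝ :=
  ct Ω (fun b => (r * b.1 + b.2, (cos (ble v (γ / v r)) b.1, cos (ble v γ) b.2))) a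

/-- **the fibre as a sum over the levels** -/
theorem val_fibre (hlev : Stmt2.S_levels) (v : Valuation F Γ₀) {Ω : Finset (F × F)} {r : F}
    (hr : r ≠ 0) {Φ : Finset Γ₀} (hΦ : ∀ γ ∈ Φ, γ ≠ 0)
    (hmem : ∀ a ∈ Ω, ∀ b ∈ Ω, a.2 ≠ b.2 → v (b.2 - a.2) ∈ Φ) {a : F × F} (ha : a ∈ Ω) :
    Real.log (ct Ω (fun b => r * b.1 + b.2) a) =
      ∑ γ ∈ Φ, (Real.log (cvl v Ω r γ a) - Real.log (nv v Ω r γ a)) := by
  have hvr : v r ≠ 0 := (Valuation.ne_zero_iff v).2 hr
  set S : Finset (F × F) := (Ω.erase a).filter fun b => r * b.1 + b.2 = r * a.1 + a.2 with hS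
  have hne : ∀ b ∈ S, a.2 ≠ b.2 := by
    intro b hb h
    obtain ⟨h1, h2⟩ := mem_filter.1 hb
    apply (mem_erase.1 h1).1
    rw [← h] at h2
    exact Prod.ext (mul_left_cancel₀ hr (add_right_cancel h2)) h.symm
  have h := (hlev (F × F) Γ₀ S (fun b => v (b.2 - a.2)) Φ).2 (by
    intro b hb
    exact hmem a ha b (mem_of_mem_erase (mem_filter.1 hb).1) (hne b hb))
  have e0 : ct Ω (fun b => r * b.1 + b.2) a = 1 + (S.card : ℝ) := by
    apply ct_eq_filter ha
    intro b _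
    constructor
    · intro h1
      by_cases h2 : b = a
      · exact Or.inl h2
      · exact Or.inr ⟨h2, h1⟩
    · rintro (rfl | h1)
      · rfl
      · exact h1.2
  rw [e0, ← h]
  apply sum_congr rfl
  intro γ hγ
  have hγ0 := hΦ γ hγ
  have hγp : 0 < γ := zero_lt_iff.2 hγ0
  have hvp : 0 < v r := zero_lt_iff.2 hvr
  have key1 : ∀ b : F × F, r * b.1 + b.2 = r * a.1 + a.2 →
      (v (b.1 - a.1) ≤ γ / v r ↔ v (b.2 - a.2) ≤ γ) := by
    intro b hb
    rw [fibre_val v hb, le_div_iff₀ hvp, mul_comm]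
  have key2 : ∀ b : F × F, r * b.1 + b.2 = r * a.1 + a.2 →
      (v (b.1 - a.1) < γ / v r ↔ v (b.2 - a.2) < γ) := by
    intro b hb
    rw [fibre_val v hb, lt_div_iff₀ hvp, mul_comm]
  have e1 : cvl v Ω r γ a = 1 + ((S.filter fun b => v (b.2 - a.2) ≤ γ).card : ℝ) := by
    rw [hS, filter_filter]
    apply ct_eq_filter ha
    intro b _
    rw [Prod.mk.injEq, Prod.mk.injEq, cos_eq, cos_eq, mem_ble, mem_ble]
    constructor
    · rintro ⟨h1, _, h3⟩
      by_cases h2 : b = a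
      · exact Or.inl h2
      · exact Or.inr ⟨h2, h1, h3⟩
    · rintro (rfl | ⟨_, h1, h3⟩)
      · rw [sub_self, sub_self, map_zero]
        exact ⟨rfl, zero_le', zero_le'⟩
      · exact ⟨h1, (key1 b h1).2 h3, h3⟩
  have e2 : nv v Ω r γ a = 1 + ((S.filter fun b => v (b.2 - a.2) < γ).card : ℝ) := by
    rw [hS, filter_filter]
    unfold nv
    apply card_insert_filter ha
    intro b _
    rw [cos_eq, cos_eq, cos_eq, cos_eq, mem_ble, mem_ble, mem_blt, mem_blt]
    constructor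
    · rintro ⟨h1, _, _, h4⟩
      by_cases h2 : b = a
      · exact Or.inl h2
      · refine Or.inr ⟨h2, h1, ?_⟩
        rcases h4 with (h4 | h4) | (h4 | h4)
        · exfalso
          apply h2
          have h5 := sub_eq_zero.1 h4
          rw [h5] at h1
          exact Prod.ext h5 (add_left_cancel h1)
        · exact (key2 b h1).1 h4
        · exfalso
          apply h2
          have h5 := sub_eq_zero.1 h4
          rw [h5] at h1
          exact Prod.ext (mul_left_cancel₀ hr (add_right_cancel h1)) h5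
        · exact h4
    · rintro (rfl | ⟨_, h1, h3⟩)
      · rw [sub_self, sub_self, map_zero]
        exact ⟨rfl, zero_le', zero_le', Or.inl (Or.inl rfl)⟩
      · exact ⟨h1, (key1 b h1).2 h3.le, h3.le, Or.inr (Or.inr h3)⟩
  rw [e1, e2]

/-- one node -/
theorem val_cell {δ : ℝ} (hδ : 0 < δ) (hδ1 : δ ≤ 1) (v : Valuation F Γ₀) (X Y : Finset F) (r : F)
    (γ : Γ₀) :
    ∑ a ∈ X ×ˢ Y, (Real.log (cvl v (X ×ˢ Y) r γ a) - Real.log (nv v (X ×ˢ Y) r γ a)) ≤
      δ * (Y.card * hv v X (γ / v r) + X.card * hv v Y γ) +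
      (2 + Real.exp (1 / δ)) * (wv v Y γ * hv v X (γ / v r) + wv v X (γ / v r) * hv v Y γ) :=
  arc_node hδ hδ1 X Y (fun b : F × F => r * b.1 + b.2) (ref_ball v X (γ / v r)) (ref_ball v Y γ)

/-- **the sum over the scalars** -/
theorem val_sum (hlev : Stmt2.S_levels) {δ : ℝ} (hδ : 0 < δ) (hδ1 : δ ≤ 1) (v : Valuation F Γ₀)
    (X Y : Finset F) {ι : Type*} (J : Finset ι) (r : ι → F) (hr : ∀ i ∈ J, r i ≠ 0)
    (hinj : Set.InjOn (fun i => v (r i)) (J : Set ι)) :
    ∑ i ∈ J, ∑ a ∈ X ×ˢ Y, Real.log (ct (X ×ˢ Y) (fun b => r i * b.1 + b.2) a) ≤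
      J.card * (δ * (Y.card * (X.card * Real.log (X.card : ℝ)) +
        X.card * (Y.card * Real.log (Y.card : ℝ)))) +
      (2 + Real.exp (1 / δ)) * ((Y.card * Real.log (Y.card : ℝ)) *
        (X.card * Real.log (X.card : ℝ)) + (X.card * Real.log (X.card : ℝ)) *
        (Y.card * Real.log (Y.card : ℝ))) := by
  set MX : ℝ := X.card * Real.log (X.card : ℝ) with hMX
  set MY : ℝ := Y.card * Real.log (Y.card : ℝ) with hMY
  have hMX0 : 0 ≤ MX := by
    have := Real.log_natCast_nonneg X.card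
    positivity
  have hMY0 : 0 ≤ MY := by
    have := Real.log_natCast_nonneg Y.card
    positivity
  set C : ℝ := 2 + Real.exp (1 / δ) with hC
  have hC0 : 0 ≤ C := by positivity
  set Φ : Finset Γ₀ := ((Y ×ˢ Y).filter fun c => c.1 ≠ c.2).image fun c => v (c.2 - c.1) with hΦ
  have hΦ0 : ∀ γ ∈ Φ, γ ≠ 0 := by
    intro γ hγ
    obtain ⟨c, hc, rfl⟩ := mem_image.1 hγ
    exact (Valuation.ne_zero_iff v).2 (sub_ne_zero.2 (mem_filter.1 hc).2.symm)
  have hmem : ∀ a ∈ X ×ˢ Y, ∀ b ∈ X ×ˢ Y, a.2 ≠ b.2 → v (b.2 - a.2) ∈ Φ := by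
    intro a ha b hb hab
    exact mem_image.2 ⟨(a.2, b.2), mem_filter.2 ⟨mem_product.2 ⟨(mem_product.1 ha).2,
      (mem_product.1 hb).2⟩, hab⟩, rfl⟩
  have hv0 : ∀ i ∈ J, v (r i) ≠ 0 := fun i hi => (Valuation.ne_zero_iff v).2 (hr i hi)
  -- one scalar
  have one : ∀ i ∈ J, ∑ a ∈ X ×ˢ Y, Real.log (ct (X ×ˢ Y) (fun b => r i * b.1 + b.2) a) ≤
      ∑ γ ∈ Φ, (δ * (Y.card * hv v X (γ / v (r i)) + X.card * hv v Y γ) +
      C * (wv v Y γ * hv v X (γ / v (r i)) + wv v X (γ / v (r i)) * hv v Y γ)) := by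
    intro i hi
    rw [sum_congr rfl fun a ha => val_fibre hlev v (hr i hi) hΦ0 hmem ha, sum_comm]
    exact sum_le_sum fun γ _ => val_cell hδ hδ1 v X Y (r i) γ
  refine (sum_le_sum one).trans ?_
  have t1 : ∑ i ∈ J, ∑ γ ∈ Φ, (Y.card * hv v X (γ / v (r i)) + X.card * hv v Y γ) ≤
      J.card * (Y.card * MX + X.card * MY) := by
    rw [← nsmul_eq_mul, ← sum_const]
    apply sum_le_sum
    intro i hi
    rw [sum_add_distrib, ← mul_sum, ← mul_sum]
    apply add_le_add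
    · apply mul_le_mul_of_nonneg_left _ (Nat.cast_nonneg _)
      apply hv_sum hlev v X Φ (fun γ => γ / v (r i))
      intro x _ y _ h
      exact (div_left_inj' (hv0 i hi)).1 h
    · apply mul_le_mul_of_nonneg_left _ (Nat.cast_nonneg _)
      exact hv_sum hlev v Y Φ id (Set.injOn_id _)
  have inj2 : ∀ γ ∈ Φ, Set.InjOn (fun i => γ / v (r i)) (J : Set ι) := by
    intro γ hγ x hx y hy h
    apply hinj hx hy
    simp only at h ⊢
    have h1 := hΦ0 γ hγ
    have hx0 := hv0 x hx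
    have hy0 := hv0 y hy
    rw [div_eq_div_iff hx0 hy0] at h
    exact (mul_left_cancel₀ h1 h).symm
  have t2 : ∑ i ∈ J, ∑ γ ∈ Φ, wv v Y γ * hv v X (γ / v (r i)) ≤ MY * MX := by
    rw [sum_comm]
    calc ∑ γ ∈ Φ, ∑ i ∈ J, wv v Y γ * hv v X (γ / v (r i))
        ≤ ∑ γ ∈ Φ, wv v Y γ * MX := by
          apply sum_le_sum
          intro γ hγ
          rw [← mul_sum]
          exact mul_le_mul_of_nonneg_left (hv_sum hlev v X J _ (inj2 γ hγ)) (wv_nonneg _ _ _)
      _ ≤ MY * MX := by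
          rw [← sum_mul]
          apply mul_le_mul_of_nonneg_right _ hMX0
          exact wv_sum hlev v Y Φ id (Set.injOn_id _)
  have t3 : ∑ i ∈ J, ∑ γ ∈ Φ, wv v X (γ / v (r i)) * hv v Y γ ≤ MX * MY := by
    rw [sum_comm]
    calc ∑ γ ∈ Φ, ∑ i ∈ J, wv v X (γ / v (r i)) * hv v Y γ
        ≤ ∑ γ ∈ Φ, MX * hv v Y γ := by
          apply sum_le_sum
          intro γ hγ
          rw [← sum_mul]
          exact mul_le_mul_of_nonneg_right (wv_sum hlev v X J _ (inj2 γ hγ)) (hv_nonneg _ _ _)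
      _ ≤ MX * MY := by
          rw [← mul_sum]
          apply mul_le_mul_of_nonneg_left _ hMX0
          exact hv_sum hlev v Y Φ id (Set.injOn_id _)
  have e : ∑ i ∈ J, ∑ γ ∈ Φ, (δ * (Y.card * hv v X (γ / v (r i)) + X.card * hv v Y γ) +
      C * (wv v Y γ * hv v X (γ / v (r i)) + wv v X (γ / v (r i)) * hv v Y γ)) =
      δ * ∑ i ∈ J, ∑ γ ∈ Φ, (Y.card * hv v X (γ / v (r i)) + X.card * hv v Y γ) +
      C * (∑ i ∈ J, ∑ γ ∈ Φ, wv v Y γ * hv v X (γ / v (r i)) +
        ∑ i ∈ J, ∑ γ ∈ Φ, wv v X (γ / v (r i)) * hv v Y γ) := by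
    simp only [sum_add_distrib, mul_sum, mul_add]
  rw [e]
  have h1 := mul_le_mul_of_nonneg_left t1 hδ.le
  have h2 := mul_le_mul_of_nonneg_left (add_le_add t2 t3) hC0
  refine (add_le_add h1 h2).trans (le_of_eq ?_)
  ring

end

end Pool.Agent.H85.AK
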