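import Pool.Agent.H85.AK.Val1

/-!
Sums along dense sets of pairs, arbitrary valuations.
-/

set_option autoImplicit false

namespace Pool.Agent.H85.AK

open Finset
open scoped Pointwise

section

variable {F : Type} [Field F] {Γ₀ : Type} [LinearOrderedCommGroupWithZero Γ₀]

/-- **sums along a set of pairs**, an arbitrary valuation of a field -/
theorem valG0 (hlev : Stmt2.S_levels) {ε : ℝ} (hε : 0 < ε) (hε1 : ε ≤ 1) [DecidableEq F]
    (v : Valuation F Γ₀) (C B : Finset F) (G : Finset (F × F)) (K : ℝ) (hK : 1 ≤ K)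
    (hKC : K ≤ (C.card : ℝ) ^ (ε / 2)) (hC : 2 ≤ C.card) (hB : B.Nonempty) (R : Finset F)
    (hR0 : ∀ r ∈ R, r ≠ 0) (hinj : Set.InjOn v (R : Set F))
    (hR : ∀ r ∈ R, (C.card : ℝ) * B.card ≤
      K * (((C ×ˢ B).filter fun s => (r * s.1, s.2) ∈ G).card : ℝ))
    (hJ : Real.exp (330 * (K / ε)) * Real.log (C.card : ℝ) < (R.card : ℝ)) :
    ((C.card : ℝ) * B.card) ^ (1 - ε) < ((G.image fun s => s.1 + s.2).card : ℝ) := by
  refine coreG hε hε1 C B G K hK hKC hC hB R id (fun δ h1 h2 => ?_) hR hJ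
  refine (val_sum hlev h1 h2 v C B R id hR0 hinj).trans ?_
  have hc := Real.log_natCast_nonneg C.card
  have hb := Real.log_natCast_nonneg B.card
  set c : ℝ := Real.log (C.card : ℝ)
  set b : ℝ := Real.log (B.card : ℝ)
  have e : 16 * ((R.card : ℝ) * (δ * (B.card * (5 * (C.card * c)) + C.card * (5 * (B.card * b)))) +
      (2 + Real.exp (1 / δ)) * (5 * (B.card * b) * (5 * (C.card * c)) +
        5 * (C.card * c) * (5 * (B.card * b)))) =
      80 * ((R.card : ℝ) * (δ * (B.card * (C.card * c) + C.card * (B.card * b)))) +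
      400 * ((2 + Real.exp (1 / δ)) * ((B.card * b) * (C.card * c) + (C.card * c) * (B.card * b))) := by
    ring
  rw [e]
  have t1 : 0 ≤ (R.card : ℝ) * (δ * (B.card * (C.card * c) + C.card * (B.card * b))) := by
    positivity
  have t2 : 0 ≤ (2 + Real.exp (1 / δ)) * ((B.card * b) * (C.card * c) +
      (C.card * c) * (B.card * b)) := by
    positivity
  linarith

theorem val_one_of_finite [Finite F] (v : Valuation F Γ₀) {r : F} (hr : r ≠ 0) : v r = 1 := by
  have h2 : IsOfFinOrder (Units.mk0 r hr) := isOfFinOrder_of_finite _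
  obtain ⟨n, hn, hpow⟩ := isOfFinOrder_iff_pow_eq_one.1 h2
  have h3 : r ^ n = 1 := by
    have := congrArg Units.val hpow
    simpa using this
  have h4 : (v r) ^ n = 1 := by
    rw [← map_pow, h3, map_one]
  exact (pow_eq_one_iff_of_nonneg zero_le' (by omega)).1 h4

/-- **sums along a set of pairs**, an arbitrary valuation, in vector spaces -/
theorem valG (hlev : Stmt2.S_levels) {ε : ℝ} (hε : 0 < ε) (hε1 : ε ≤ 1) {V : Type}
    [AddCommGroup V] [Module F V] [DecidableEq V]
    (v : Valuation F Γ₀) (C B : Finset V) (G : Finset (V × V)) (K : ℝ) (hK : 1 ≤ K)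
    (hKC : K ≤ (C.card : ℝ) ^ (ε / 2)) (hC : 2 ≤ C.card) (hB : B.Nonempty) (R : Finset F)
    (hR0 : ∀ r ∈ R, r ≠ 0) (hinj : Set.InjOn v (R : Set F))
    (hR : ∀ r ∈ R, (C.card : ℝ) * B.card ≤
      K * (((C ×ˢ B).filter fun s => (r • s.1, s.2) ∈ G).card : ℝ))
    (hJ : Real.exp (330 * (K / ε)) * Real.log (C.card : ℝ) < (R.card : ℝ)) :
    ((C.card : ℝ) * B.card) ^ (1 - ε) < ((G.image fun s => s.1 + s.2).card : ℝ) := by
  classical
  have hinf : Infinite F := by
    by_contra hfin
    rw [not_infinite_iff_finite] at hfin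
    have h1 : R.card ≤ 1 := by
      rw [card_le_one]
      intro a ha b hb
      apply hinj ha hb
      rw [val_one_of_finite v (hR0 a ha), val_one_of_finite v (hR0 b hb)]
    have h2 : (2 : ℝ) ≤ C.card := by exact_mod_cast hC
    have h3 : Real.log 2 ≤ Real.log (C.card : ℝ) := Real.log_le_log (by norm_num) h2
    have h4 := Real.log_two_gt_d9
    have h5 : 2 ≤ Real.exp (330 * (K / ε)) := by
      have h6 := Real.add_one_le_exp (330 * (K / ε))
      have h7 : 1 ≤ K / ε := by
        rw [le_div_iff₀ hε]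
        linarith
      linarith
    have h6 : (R.card : ℝ) ≤ 1 := by exact_mod_cast h1
    have h7 : 2 * (1 / 2) ≤ Real.exp (330 * (K / ε)) * Real.log (C.card : ℝ) :=
      mul_le_mul h5 (by linarith) (by norm_num) (by positivity)
    linarith
  obtain ⟨f, hfC, hfB⟩ := exists_dual_inj (F := F) C B
  have hCc : (C.image f).card = C.card := card_image_of_injOn hfC
  have hBc : (B.image f).card = B.card := card_image_of_injOn hfB
  have key := valG0 hlev hε hε1 v (C.image f) (B.image f) (G.image fun s => (f s.1, f s.2)) K hK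
    (by rw [hCc]; exact hKC) (by rw [hCc]; exact hC) (hB.image f) R hR0 hinj (by
      intro i hi
      rw [hCc, hBc]
      refine (hR i hi).trans (mul_le_mul_of_nonneg_left (Nat.cast_le.2 ?_) (by linarith))
      apply card_le_card_of_injOn (fun s => (f s.1, f s.2))
      · intro s hs
        obtain ⟨h1, h2⟩ := mem_filter.1 hs
        obtain ⟨h3, h4⟩ := mem_product.1 h1
        refine mem_filter.2 ⟨mem_product.2 ⟨mem_image_of_mem _ h3, mem_image_of_mem _ h4⟩, ?_⟩
        refine mem_image.2 ⟨_, h2, ?_⟩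
        show (f (i • s.1), f s.2) = (i * f s.1, f s.2)
        rw [map_smul]
        rfl
      · intro s hs s' hs' h
        obtain ⟨h1, _⟩ := mem_filter.1 hs
        obtain ⟨h3, h4⟩ := mem_product.1 h1
        obtain ⟨h1', _⟩ := mem_filter.1 hs'
        obtain ⟨h3', h4'⟩ := mem_product.1 h1'
        obtain ⟨h5, h6⟩ := Prod.ext_iff.1 h
        exact Prod.ext (hfC h3 h3' h5) (hfB h4 h4' h6))
    (by rw [hCc]; exact hJ)
  rw [hCc, hBc] at key
  refine lt_of_lt_of_le key (Nat.cast_le.2 ?_)
  have h1 : ((G.image fun s => (f s.1, f s.2)).image fun s => s.1 + s.2) ⊆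
      (G.image fun s => s.1 + s.2).image f := by
    intro w hw
    obtain ⟨s, hs, rfl⟩ := mem_image.1 hw
    obtain ⟨s', hs', rfl⟩ := mem_image.1 hs
    exact mem_image.2 ⟨s'.1 + s'.2, mem_image_of_mem _ hs', map_add _ _ _⟩
  exact (card_le_card h1).trans card_image_le

end

end Pool.Agent.H85.AK
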