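import Pool.Agent.H85.AK.Loc5
import Pool.Agent.H85.AK.Core

/-!
The weak type form.
-/

set_option autoImplicit false

namespace Pool.Agent.H85.AK

open Finset
open scoped Classical

variable {α β γ ζ κ : Type*}

theorem cl_congr {A : Finset α} {F : α → κ} {a b : α} (h : F a = F b) : cl A F a = cl A F b := by
  unfold cl
  rw [h]

theorem ct_inj {A : Finset α} {F : α → κ} {a : α} (ha : a ∈ A)
    (h : ∀ b ∈ A, F b = F a → b = a) : ct A F a = 1 := by
  unfold ct cv
  have : (A.filter fun b => F b = F a) = {a} := by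
    ext b
    simp only [mem_filter, mem_singleton]
    constructor
    · rintro ⟨h3, h4⟩
      exact h b h3 h4
    · rintro rfl
      exact ⟨ha, rfl⟩
  rw [this]
  simp

theorem ct_all {A : Finset α} {F : α → κ} {a : α} (h : ∀ b ∈ A, F b = F a) :
    ct A F a = A.card := by
  unfold ct cv
  rw [filter_true_of_mem h]

/-- a supermartingale on a finite set -/
theorem smart {A : Finset α} {F : ℕ → α → κ} (hF : ∀ t, Ref A (F (t + 1)) (F t))
    {Y : ℕ → α → ℝ}
    (hYc : ∀ t, ∀ a ∈ A, ∀ b ∈ A, F (t + 1) a = F (t + 1) b → Y t a = Y t b)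
    (hY : ∀ t, ∀ a ∈ A, ∑ b ∈ cl A (F t) a, Real.exp (Y t b) ≤ ((cl A (F t) a).card : ℝ))
    (T : ℕ) : ∑ a ∈ A, Real.exp (∑ t ∈ range T, Y t a) ≤ A.card := by
  have hconst : ∀ T, ∀ a ∈ A, ∀ b ∈ A, F T a = F T b →
      ∑ t ∈ range T, Y t a = ∑ t ∈ range T, Y t b := by
    intro T
    induction T with
    | zero => intro a _ b _ _; simp
    | succ T ih =>
      intro a ha b hb h
      rw [sum_range_succ, sum_range_succ, ih a ha b hb (hF T a ha b hb h), hYc T a ha b hb h]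
  induction T with
  | zero => simp
  | succ T ih =>
    refine le_trans ?_ ih
    have e1 : ∑ a ∈ A, Real.exp (∑ t ∈ range (T + 1), Y t a) =
        S A (F T) (fun Ω => ∑ b ∈ Ω, Real.exp (∑ t ∈ range (T + 1), Y t b)) :=
      (S_eq fun a _ => rfl).symm
    have e2 : ∑ a ∈ A, Real.exp (∑ t ∈ range T, Y t a) =
        S A (F T) (fun Ω => ∑ b ∈ Ω, Real.exp (∑ t ∈ range T, Y t b)) :=
      (S_eq fun a _ => rfl).symm
    rw [e1, e2]
    apply S_mono
    intro a ha
    have h1 : ∀ b ∈ cl A (F T) a, Real.exp (∑ t ∈ range T, Y t b) =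
        Real.exp (∑ t ∈ range T, Y t a) := by
      intro b hb
      rw [hconst T b (mem_cl.1 hb).1 a ha (mem_cl.1 hb).2]
    have h2 : ∑ b ∈ cl A (F T) a, Real.exp (∑ t ∈ range (T + 1), Y t b) =
        Real.exp (∑ t ∈ range T, Y t a) * ∑ b ∈ cl A (F T) a, Real.exp (Y T b) := by
      rw [mul_sum]
      apply sum_congr rfl
      intro b hb
      rw [sum_range_succ, Real.exp_add, h1 b hb]
    rw [h2, sum_congr rfl h1, sum_const, nsmul_eq_mul, mul_comm]
    exact mul_le_mul_of_nonneg_right (hY T a ha) (Real.exp_pos _).le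

/-- the exceptional set of a supermartingale -/
theorem smart_tail {A : Finset α} {f : α → ℝ} (h : ∑ a ∈ A, Real.exp (f a) ≤ A.card) (θ : ℝ) :
    ((A.filter fun a => θ ≤ f a).card : ℝ) ≤ A.card * Real.exp (-θ) := by
  have h1 : ∑ a ∈ A.filter (fun a => θ ≤ f a), Real.exp θ ≤ ∑ a ∈ A, Real.exp (f a) := by
    refine le_trans (sum_le_sum fun a ha => ?_) (sum_le_sum_of_subset_of_nonneg
      (filter_subset (fun a => θ ≤ f a) A) fun a _ _ => (Real.exp_pos (f a)).le)
    exact Real.exp_le_exp.2 (mem_filter.1 ha).2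
  rw [sum_const, nsmul_eq_mul] at h1
  have h2 := h1.trans h
  rw [Real.exp_neg]
  rw [← div_eq_mul_inv, le_div_iff₀ (Real.exp_pos θ)]
  exact h2

/-- Markov -/
theorem markov {A : Finset α} {f : α → ℝ} (h0 : ∀ a ∈ A, 0 ≤ f a) {θ : ℝ} (hθ : 0 < θ) :
    ((A.filter fun a => θ ≤ f a).card : ℝ) ≤ (∑ a ∈ A, f a) / θ := by
  rw [le_div_iff₀ hθ, ← nsmul_eq_mul, ← sum_const]
  refine le_trans (sum_le_sum fun a ha => (mem_filter.1 ha).2) (sum_le_sum_of_subset_of_nonneg
      (filter_subset (fun a => θ ≤ f a) A) fun a ha _ => h0 a ha)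

/-- the increments of the chain of images -/
noncomputable def XX (A : Finset α) (F : ℕ → α → κ) (Z : ℕ → α → ζ) (t : ℕ) (a : α) : ℝ :=
  Real.log (ct A (Z (t + 1)) a) + Real.log (ct A (F t) a) -
    Real.log (ct A (fun b => (Z (t + 1) b, F t b)) a) - Real.log (ct A (Z t) a)

theorem XX_sum {A : Finset α} {F : ℕ → α → κ} {Z : ℕ → α → ζ}
    (hFZ : ∀ t, ∀ a ∈ A, ∀ b ∈ A, F t a = F t b → Z t a = Z t b)
    (hZZ : ∀ t, ∀ a ∈ A, ∀ b ∈ A, Z (t + 1) a = Z (t + 1) b → Z t a = Z t b) (t : ℕ) {a : α}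
    (ha : a ∈ A) :
    ∑ b ∈ cl A (F t) a, Real.exp (XX A F Z t b) ≤ ((cl A (F t) a).card : ℝ) := by
  set Ω := cl A (F t) a with hΩ
  have hsub : Ω ⊆ A := cl_sub _ _ _
  have hNpos : (0 : ℝ) < Ω.card := by exact_mod_cast card_pos.2 (cl_nonempty (F t) ha)
  have hCpos : 0 < ct A (Z t) a := ct_pos _ ha
  have e1 : ∀ b ∈ Ω, Real.exp (XX A F Z t b) =
      (Ω.card : ℝ) / ct A (Z t) a * (cv A (Z (t + 1)) (Z (t + 1) b) / ct Ω (Z (t + 1)) b) := by
    intro b hb
    have hbA := hsub hb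
    have h1 : ct A (F t) b = Ω.card := (card_cl hb).symm
    have h2 : ct A (fun b => (Z (t + 1) b, F t b)) b = ct Ω (Z (t + 1)) b := (ct_cl hb).symm
    have h3 : ct A (Z t) b = ct A (Z t) a := by
      unfold ct
      rw [hFZ t b hbA a ha (mem_cl.1 hb).2]
    have p1 := ct_pos (Z (t + 1)) hbA
    have p2 := ct_pos (Z (t + 1)) hb
    unfold XX
    rw [h1, h2, h3, Real.exp_sub, Real.exp_sub, Real.exp_add, Real.exp_log p1,
      Real.exp_log hNpos, Real.exp_log p2, Real.exp_log hCpos]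
    unfold ct
    ring
  rw [sum_congr rfl e1, ← mul_sum, sum_div_ct Ω (Z (t + 1)) (fun z => cv A (Z (t + 1)) z)]
  have h4 : ∑ z ∈ Ω.image (Z (t + 1)), cv A (Z (t + 1)) z ≤ ct A (Z t) a := by
    have h5 : ∑ z ∈ Ω.image (Z (t + 1)), cv A (Z (t + 1)) z =
        ((A.filter fun b => Z (t + 1) b ∈ Ω.image (Z (t + 1))).card : ℝ) := by
      rw [← Finset.sum_card_fiberwise_eq_card_filter]
      push_cast
      rfl
    rw [h5]
    unfold ct cv
    apply Nat.cast_le.2
    apply card_le_card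
    intro b hb
    obtain ⟨h6, h7⟩ := mem_filter.1 hb
    obtain ⟨c, hc, hcb⟩ := mem_image.1 h7
    refine mem_filter.2 ⟨h6, ?_⟩
    rw [← hZZ t c (hsub hc) b h6 hcb]
    exact hFZ t c (hsub hc) a ha (mem_cl.1 hc).2
  calc (Ω.card : ℝ) / ct A (Z t) a * ∑ z ∈ Ω.image (Z (t + 1)), cv A (Z (t + 1)) z
      ≤ (Ω.card : ℝ) / ct A (Z t) a * ct A (Z t) a :=
        mul_le_mul_of_nonneg_left h4 (by positivity)
    _ = Ω.card := by field_simp

theorem XX_const {A : Finset α} {F : ℕ → α → κ} {Z : ℕ → α → ζ}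
    (hF : ∀ t, Ref A (F (t + 1)) (F t))
    (hFZ : ∀ t, ∀ a ∈ A, ∀ b ∈ A, F t a = F t b → Z t a = Z t b) (t : ℕ) {a b : α}
    (ha : a ∈ A) (hb : b ∈ A) (h : F (t + 1) a = F (t + 1) b) :
    XX A F Z t a = XX A F Z t b := by
  have h1 := hFZ (t + 1) a ha b hb h
  have h2 := hF t a ha b hb h
  have h3 := hFZ t a ha b hb h2
  unfold XX ct
  simp only [h1, h2, h3]

/-- **the pointwise bound along one path** -/
theorem path_bound {δ : ℝ} (hδ : 0 < δ) (hδ1 : δ ≤ 1) {A : Finset α}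
    {P : ℕ → α → β} {Q : ℕ → α → γ} {Z : ℕ → α → κ} {z : α → ζ} (T : ℕ)
    (hP : ∀ s, Ref A (P (s + 1)) (P s)) (hQ : ∀ t, Ref A (Q (t + 1)) (Q t))
    (hZ : ∀ t, ∀ a ∈ A, ∀ b ∈ A, P t a = P t b → Q t a = Q t b → Z t a = Z t b)
    (hU : ∀ t, ∀ a ∈ A, ∀ b ∈ A, Z t a = Z t b → Q t a = Q t b → P t a = P t b)
    (hV : ∀ t, ∀ a ∈ A, ∀ b ∈ A, Z t a = Z t b → P t a = P t b → Q t a = Q t b)
    (hZZ : ∀ t, ∀ a ∈ A, ∀ b ∈ A, Z (t + 1) a = Z (t + 1) b → Z t a = Z t b)
    (h0 : ∀ a ∈ A, ∀ b ∈ A, P 0 a = P 0 b ∧ Q 0 a = Q 0 b)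
    (hT : ∀ a ∈ A, ∀ b ∈ A, P T a = P T b → Q T a = Q T b → a = b)
    (hz : ∀ a ∈ A, ∀ b ∈ A, z a = z b → Z T a = Z T b) (θ₁ θ₂ : ℝ) (hθ₂ : 0 < θ₂) :
    ((A.filter fun a => 2 * θ₁ + θ₂ + δ * Real.log (A.card : ℝ) ≤ Real.log (ct A z a)).card : ℝ) ≤
      2 * (A.card * Real.exp (-θ₁)) + (∑ t ∈ range T, ((40 + Real.exp (1 / δ)) *
        (S A (lab (P t) (Q t)) (fun Ω => ep Ω (Q (t + 1)) * hh Ω (P (t + 1))) +
          S A (lab (P t) (Q t)) (fun Ω => ep Ω (P (t + 1)) * hh Ω (Q (t + 1)))) +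
        (1 + 2 * Real.log (A.card : ℝ)) *
          S A (lab (P t) (Q t)) (fun Ω => mi Ω (P (t + 1)) (Q (t + 1))))) / θ₂ := by
  set F : ℕ → α → β × γ := fun t => lab (P t) (Q t) with hF
  have hFr : ∀ t, Ref A (F (t + 1)) (F t) := by
    intro t a ha b hb h
    simp only [hF, lab, Prod.mk.injEq] at h ⊢
    exact ⟨hP t a ha b hb h.1, hQ t a ha b hb h.2⟩
  have hFZ : ∀ t, ∀ a ∈ A, ∀ b ∈ A, F t a = F t b → Z t a = Z t b := by
    intro t a ha b hb h
    simp only [hF, lab, Prod.mk.injEq] at h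
    exact hZ t a ha b hb h.1 h.2
  -- local data
  have hex : ∀ (t : ℕ) (Ω : Finset α), ∃ ex W y : α → ℝ, (Ω.Nonempty ∧ Ω ⊆ A) →
      Pt δ Ω (P (t + 1)) (Q (t + 1)) (Z (t + 1)) ex W y := by
    intro t Ω
    by_cases h : Ω.Nonempty ∧ Ω ⊆ A
    · obtain ⟨ex, W, y, hp⟩ := local_pt hδ hδ1 h.1
        (fun a ha b hb => hZ (t + 1) a (h.2 ha) b (h.2 hb))
        (fun a ha b hb => hU (t + 1) a (h.2 ha) b (h.2 hb))
        (fun a ha b hb => hV (t + 1) a (h.2 ha) b (h.2 hb))
      exact ⟨ex, W, y, fun _ => hp⟩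
    · exact ⟨0, 0, 0, fun h' => absurd h' h⟩
  choose ex W y hpt using hex
  have hcell : ∀ t, ∀ a ∈ A, Pt δ (cl A (F t) a) (P (t + 1)) (Q (t + 1)) (Z (t + 1))
      (ex t (cl A (F t) a)) (W t (cl A (F t) a)) (y t (cl A (F t) a)) :=
    fun t a ha => hpt t _ ⟨cl_nonempty _ ha, cl_sub _ _ _⟩
  have hself : ∀ t, ∀ a ∈ A, a ∈ cl A (F t) a := fun t a ha => mem_cl.2 ⟨ha, rfl⟩
  set EX : ℕ → α → ℝ := fun t a => ex t (cl A (F t) a) a with hEX
  set WW : ℕ → α → ℝ := fun t a => W t (cl A (F t) a) a with hWW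
  set YY : ℕ → α → ℝ := fun t a => y t (cl A (F t) a) a with hYY
  have hN : ∀ t, ∀ a ∈ A, ct (cl A (F t) a) (fun a => (P (t + 1) a, Q (t + 1) a)) a =
      ct A (F (t + 1)) a := fun t a ha => ct_cell_both (hP t) (hQ t) (hself t a ha)
  -- the loss at one node
  have hloss : ∀ t, ∀ a ∈ A, Real.log (ct A (fun b => (Z (t + 1) b, F t b)) a) -
      Real.log (ct A (F (t + 1)) a) ≤ EX t a + WW t a + Real.log 2 * YY t a := by
    intro t a ha
    have h1 := (hcell t a ha).bd a (hself t a ha)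
    rw [hN t a ha, ct_cl (hself t a ha)] at h1
    exact h1
  have hEX0 : ∀ t, ∀ a ∈ A, 0 ≤ EX t a := fun t a ha => (hcell t a ha).ex0 a (hself t a ha)
  have hYb : ∀ t, ∀ a ∈ A, YY t a * (1 / δ) ≤ Real.log (ct A (F t) a) -
      Real.log (ct A (F (t + 1)) a) := by
    intro t a ha
    have h1 := (hcell t a ha).yb a (hself t a ha)
    rw [hN t a ha, card_cl (hself t a ha)] at h1
    exact h1
  -- the supermartingale of the cheap steps
  have hWs : ∑ a ∈ A, Real.exp (∑ t ∈ range T, WW t a) ≤ A.card := by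
    apply smart hFr
    · intro t a ha b hb h
      have h2 := hFr t a ha b hb h
      have h3 : cl A (F t) a = cl A (F t) b := cl_congr h2
      show W t (cl A (F t) a) a = W t (cl A (F t) b) b
      rw [← h3]
      have hb' : b ∈ cl A (F t) a := mem_cl.2 ⟨hb, h2.symm⟩
      simp only [hF, lab, Prod.mk.injEq] at h
      exact (hcell t a ha).Wc a (hself t a ha) b hb' h.1 h.2
    · intro t a ha
      refine le_trans (le_of_eq ?_) (hcell t a ha).Ws
      apply sum_congr rfl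
      intro b hb
      show Real.exp (W t (cl A (F t) b) b) = _
      rw [cl_congr (mem_cl.1 hb).2]
  have hXs : ∑ a ∈ A, Real.exp (∑ t ∈ range T, XX A F Z t a) ≤ A.card := by
    apply smart hFr
    · intro t a ha b hb h
      exact XX_const hFr hFZ t ha hb h
    · intro t a ha
      exact XX_sum hFZ hZZ t ha
  -- the expensive part
  have hEXs : ∑ a ∈ A, ∑ t ∈ range T, EX t a ≤ ∑ t ∈ range T, ((40 + Real.exp (1 / δ)) *
        (S A (lab (P t) (Q t)) (fun Ω => ep Ω (Q (t + 1)) * hh Ω (P (t + 1))) +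
          S A (lab (P t) (Q t)) (fun Ω => ep Ω (P (t + 1)) * hh Ω (Q (t + 1)))) +
        (1 + 2 * Real.log (A.card : ℝ)) *
          S A (lab (P t) (Q t)) (fun Ω => mi Ω (P (t + 1)) (Q (t + 1)))) := by
    rw [sum_comm]
    apply sum_le_sum
    intro t _
    rw [← S_add, ← S_smul, ← S_smul, ← S_add]
    have e1 : ∑ a ∈ A, EX t a = S A (F t) (fun Ω => ∑ b ∈ Ω, ex t Ω b) := by
      symm
      apply S_eq
      intro a ha
      apply sum_congr rfl
      intro b hb
      show _ = ex t (cl A (F t) b) b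
      rw [cl_congr (mem_cl.1 hb).2]
    rw [e1]
    apply S_mono
    intro a ha
    refine (hcell t a ha).exs.trans ?_
    apply add_le_add le_rfl
    apply mul_le_mul_of_nonneg_right _ (mi_nonneg _ _ _)
    have h1 : Real.log ((cl A (F t) a).card : ℝ) ≤ Real.log (A.card : ℝ) := by
      apply Real.log_le_log
      · exact_mod_cast card_pos.2 (cl_nonempty _ ha)
      · exact_mod_cast card_le_card (cl_sub _ _ _)
    linarith
  -- the pointwise bound
  have hpoint : ∀ a ∈ A, Real.log (ct A z a) ≤ ∑ t ∈ range T, XX A F Z t a +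
      ∑ t ∈ range T, WW t a + δ * Real.log (A.card : ℝ) + ∑ t ∈ range T, EX t a := by
    intro a ha
    have tel : ∀ T, Real.log (ct A (Z T) a) + Real.log (ct A (F 0) a) ≤
        ∑ t ∈ range T, XX A F Z t a + ∑ t ∈ range T, (EX t a + WW t a + Real.log 2 * YY t a) +
        Real.log (ct A (Z 0) a) + Real.log (ct A (F T) a) := by
      intro T
      induction T with
      | zero => simp
      | succ T ih =>
        rw [sum_range_succ, sum_range_succ]
        have h1 := hloss T a ha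
        have h2 : XX A F Z T a = Real.log (ct A (Z (T + 1)) a) + Real.log (ct A (F T) a) -
          Real.log (ct A (fun b => (Z (T + 1) b, F T b)) a) - Real.log (ct A (Z T) a) := rfl
        linarith
    have h1 := tel T
    have h2 : Real.log (ct A (F T) a) = 0 := by
      have : ct A (F T) a = 1 := by
        apply ct_inj ha
        intro b hb h4
        simp only [hF, lab, Prod.mk.injEq] at h4
        exact hT b hb a ha h4.1 h4.2
      rw [this, Real.log_one]
    have h3 : ct A (F 0) a = A.card := by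
      apply ct_all
      intro b hb
      show lab (P 0) (Q 0) b = lab (P 0) (Q 0) a
      simp only [lab, Prod.mk.injEq]
      exact h0 b hb a ha
    have h4 : Real.log (ct A (Z 0) a) ≤ Real.log (A.card : ℝ) := log_ct_le _ ha
    have h5 : Real.log (ct A z a) ≤ Real.log (ct A (Z T) a) := by
      apply Real.log_le_log (ct_pos _ ha)
      apply ct_mono
      intro b hb h
      exact hz b hb a ha h
    have h6 : ∑ t ∈ range T, Real.log 2 * YY t a ≤ δ * Real.log (A.card : ℝ) := by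
      have h7 : ∑ t ∈ range T, YY t a * (1 / δ) ≤ Real.log (A.card : ℝ) := by
        refine (sum_le_sum fun t _ => hYb t a ha).trans ?_
        rw [sum_range_sub' (fun t => Real.log (ct A (F t) a)), h2, h3]
        linarith
      rw [← sum_mul] at h7
      have h8 : ∑ t ∈ range T, YY t a ≤ δ * Real.log (A.card : ℝ) := by
        have h9 := mul_le_mul_of_nonneg_left h7 hδ.le
        have h10 : δ * ((∑ t ∈ range T, YY t a) * (1 / δ)) = ∑ t ∈ range T, YY t a := by
          field_simp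
        linarith
      rw [← mul_sum]
      have hl : Real.log 2 ≤ 1 := by
        have := Real.log_two_lt_d9
        linarith
      have hl0 : 0 ≤ Real.log 2 := Real.log_nonneg (by norm_num)
      have h11 : 0 ≤ δ * Real.log (A.card : ℝ) := mul_nonneg hδ.le (Real.log_natCast_nonneg _)
      calc Real.log 2 * ∑ t ∈ range T, YY t a ≤ Real.log 2 * (δ * Real.log (A.card : ℝ)) :=
            mul_le_mul_of_nonneg_left h8 hl0
        _ ≤ 1 * (δ * Real.log (A.card : ℝ)) := mul_le_mul_of_nonneg_right hl h11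
        _ = _ := one_mul _
    rw [sum_add_distrib, sum_add_distrib] at h1
    rw [h3] at h1
    linarith
  -- the three exceptional sets
  have hsub : (A.filter fun a => 2 * θ₁ + θ₂ + δ * Real.log (A.card : ℝ) ≤
      Real.log (ct A z a)) ⊆ ((A.filter fun a => θ₁ ≤ ∑ t ∈ range T, XX A F Z t a) ∪
      (A.filter fun a => θ₁ ≤ ∑ t ∈ range T, WW t a)) ∪
      (A.filter fun a => θ₂ ≤ ∑ t ∈ range T, EX t a) := by
    intro a ha
    obtain ⟨h1, h2⟩ := mem_filter.1 ha
    have h3 := hpoint a h1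
    rw [mem_union, mem_union, mem_filter, mem_filter, mem_filter]
    by_contra hc
    push Not at hc
    obtain ⟨⟨c1, c2⟩, c3⟩ := hc
    have c1' := c1 h1
    have c2' := c2 h1
    have c3' := c3 h1
    linarith
  have h1 := (card_le_card hsub).trans ((card_union_le _ _).trans
    (Nat.add_le_add_right (card_union_le _ _) _))
  have h2 : ((A.filter fun a => 2 * θ₁ + θ₂ + δ * Real.log (A.card : ℝ) ≤
      Real.log (ct A z a)).card : ℝ) ≤
      ((A.filter fun a => θ₁ ≤ ∑ t ∈ range T, XX A F Z t a).card : ℝ) +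
      ((A.filter fun a => θ₁ ≤ ∑ t ∈ range T, WW t a).card : ℝ) +
      ((A.filter fun a => θ₂ ≤ ∑ t ∈ range T, EX t a).card : ℝ) := by
    exact_mod_cast h1
  have h3 := smart_tail hXs θ₁
  have h4 := smart_tail hWs θ₁
  have h5 := markov (A := A) (f := fun a => ∑ t ∈ range T, EX t a)
    (fun a ha => sum_nonneg fun t _ => hEX0 t a ha) hθ₂
  have h6 := div_le_div_of_nonneg_right hEXs hθ₂.le
  linarith

end Pool.Agent.H85.AK
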