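import Pool.Agent.H85.AK.Weak
import Pool.Agent.H85.AK.Val

/-!
The weak type form for many slopes, and dense subsets.
-/

set_option autoImplicit false

namespace Pool.Agent.H85.AK

open Finset
open scoped Classical

variable {α β γ ζ κ : Type*}

/-- **weak type form, abstract** -/
theorem weak_core {δ : ℝ} (hδ : 0 < δ) (hδ1 : δ ≤ 1) {A : Finset α} {P : ℕ → α → β}
    {Q : ℕ → α → γ}
    (hP : ∀ s, Ref A (P (s + 1)) (P s)) (hQ : ∀ t, Ref A (Q (t + 1)) (Q t))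
    (J : Finset ℤ) (T : ℕ) (z : ℤ → α → ζ) (Z : ℤ → ℕ → α → κ)
    (hZ : ∀ i ∈ J, ∀ t, ∀ a ∈ A, ∀ b ∈ A, P (i.toNat + t) a = P (i.toNat + t) b →
      Q ((-i).toNat + t) a = Q ((-i).toNat + t) b → Z i t a = Z i t b)
    (hU : ∀ i ∈ J, ∀ t, ∀ a ∈ A, ∀ b ∈ A, Z i t a = Z i t b →
      Q ((-i).toNat + t) a = Q ((-i).toNat + t) b → P (i.toNat + t) a = P (i.toNat + t) b)
    (hV : ∀ i ∈ J, ∀ t, ∀ a ∈ A, ∀ b ∈ A, Z i t a = Z i t b →
      P (i.toNat + t) a = P (i.toNat + t) b → Q ((-i).toNat + t) a = Q ((-i).toNat + t) b)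
    (hZZ : ∀ i ∈ J, ∀ t, ∀ a ∈ A, ∀ b ∈ A, Z i (t + 1) a = Z i (t + 1) b → Z i t a = Z i t b)
    (h0 : ∀ i ∈ J, ∀ a ∈ A, ∀ b ∈ A, P i.toNat a = P i.toNat b ∧
      Q (-i).toNat a = Q (-i).toNat b)
    (hT : ∀ i ∈ J, ∀ a ∈ A, ∀ b ∈ A, P (i.toNat + T) a = P (i.toNat + T) b →
      Q ((-i).toNat + T) a = Q ((-i).toNat + T) b → a = b)
    (hz : ∀ i ∈ J, ∀ a ∈ A, ∀ b ∈ A, z i a = z i b → Z i T a = Z i T b)
    (θ₁ θ₂ : ℝ) (hθ₂ : 0 < θ₂) :
    ∑ i ∈ J, ((A.filter fun a => 2 * θ₁ + θ₂ + δ * Real.log (A.card : ℝ) ≤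
      Real.log (ct A (z i) a)).card : ℝ) ≤
      J.card * (2 * (A.card * Real.exp (-θ₁))) +
      A.card * Real.log (A.card : ℝ) * (1 + 2 * Real.log (A.card : ℝ) +
        2 * (40 + Real.exp (1 / δ)) * Real.log (A.card : ℝ)) / θ₂ := by
  set Sn : ℝ := Real.log (A.card : ℝ) with hSn
  have hSn0 : 0 ≤ Sn := Real.log_natCast_nonneg _
  set n : ℝ := (A.card : ℝ) with hn
  have hn0 : 0 ≤ n := Nat.cast_nonneg _
  set I : ℕ → ℕ → ℝ := fun s t => E A P Q (s + 1) (t + 1) + E A P Q s t -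
      E A P Q (s + 1) t - E A P Q s (t + 1) with hI
  set X : ℕ → ℕ → ℝ := fun s t =>
    S A (lab (P s) (Q t)) (fun Ω => ep Ω (P (s + 1)) * hh Ω (Q (t + 1))) with hX
  set Y : ℕ → ℕ → ℝ := fun s t =>
    S A (lab (P s) (Q t)) (fun Ω => ep Ω (Q (t + 1)) * hh Ω (P (s + 1))) with hY
  have eI : ∀ s t, S A (lab (P s) (Q t)) (fun Ω => mi Ω (P (s + 1)) (Q (t + 1))) = I s t := by
    intro s t
    rw [S_mi (hP s) (hQ t)]
    simp only [hI, E, sum_sub_distrib, sum_add_distrib]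
  have I0 : ∀ s t, 0 ≤ I s t := by
    intro s t
    rw [← eI]
    exact S_nonneg fun a _ => mi_nonneg _ _ _
  have X0 : ∀ s t, 0 ≤ X s t := fun s t => S_nonneg fun a ha =>
    mul_nonneg (ep_nonneg (cl_nonempty _ ha) _) (hh_nonneg _ _)
  have Y0 : ∀ s t, 0 ≤ Y s t := fun s t => S_nonneg fun a ha =>
    mul_nonneg (ep_nonneg (cl_nonempty _ ha) _) (hh_nonneg _ _)
  set C : ℝ := 40 + Real.exp (1 / δ) with hC
  have hC0 : 0 ≤ C := by positivity
  -- one slope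
  have slope : ∀ i ∈ J, ((A.filter fun a => 2 * θ₁ + θ₂ + δ * Sn ≤
      Real.log (ct A (z i) a)).card : ℝ) ≤ 2 * (n * Real.exp (-θ₁)) +
      (∑ t ∈ range T, (C * (Y (i.toNat + t) ((-i).toNat + t) +
        X (i.toNat + t) ((-i).toNat + t)) +
        (1 + 2 * Sn) * I (i.toNat + t) ((-i).toNat + t))) / θ₂ := by
    intro i hi
    have h1 := path_bound hδ hδ1 (A := A) (P := fun t => P (i.toNat + t))
      (Q := fun t => Q ((-i).toNat + t)) (Z := Z i) (z := z i) T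
      (fun s => hP (i.toNat + s)) (fun s => hQ ((-i).toNat + s)) (hZ i hi) (hU i hi) (hV i hi)
      (hZZ i hi) (h0 i hi) (hT i hi) (hz i hi) θ₁ θ₂ hθ₂
    have e1 : ∀ t, S A (lab (P (i.toNat + t)) (Q ((-i).toNat + t)))
        (fun Ω => mi Ω (P (i.toNat + (t + 1))) (Q ((-i).toNat + (t + 1)))) =
        I (i.toNat + t) ((-i).toNat + t) := fun t => eI _ _
    simp only [e1] at h1
    exact h1
  -- all slopes
  refine (sum_le_sum slope).trans ?_
  rw [sum_add_distrib, sum_const, nsmul_eq_mul]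
  apply add_le_add le_rfl
  rw [← sum_div]
  apply div_le_div_of_nonneg_right _ hθ₂.le
  obtain ⟨R, hR⟩ := sum_paths (fun s t => C * (Y s t + X s t) + (1 + 2 * Sn) * I s t)
    (fun s t => by
      have := I0 s t
      have := X0 s t
      have := Y0 s t
      positivity) J T
  refine hR.trans ?_
  have h1 : ∑ s ∈ range R, ∑ t ∈ range R, (C * (Y s t + X s t) + (1 + 2 * Sn) * I s t) =
      C * (∑ s ∈ range R, ∑ t ∈ range R, Y s t + ∑ s ∈ range R, ∑ t ∈ range R, X s t) +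
      (1 + 2 * Sn) * ∑ s ∈ range R, ∑ t ∈ range R, I s t := by
    simp only [sum_add_distrib, mul_sum, mul_add]
  have h2 := sum_I (P := P) hQ R
  have h3 := sum_X hP hQ R
  have h4 := sum_Y hP hQ R
  rw [h1]
  have h5 : (1 + 2 * Sn) * ∑ s ∈ range R, ∑ t ∈ range R, I s t ≤
      (1 + 2 * Sn) * (n * Sn) := mul_le_mul_of_nonneg_left h2 (by positivity)
  have h6 : C * (∑ s ∈ range R, ∑ t ∈ range R, Y s t + ∑ s ∈ range R, ∑ t ∈ range R, X s t) ≤
      C * (n * Sn * Sn + n * Sn * Sn) := mul_le_mul_of_nonneg_left (add_le_add h4 h3) hC0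
  have h8 : n * Sn * (1 + 2 * Sn + 2 * C * Sn) =
    C * (n * Sn * Sn + n * Sn * Sn) + (1 + 2 * Sn) * (n * Sn) := by ring
  rw [h8]
  linarith

/-- **weak type form for groups with a filtration** -/
theorem filt_weak {δ : ℝ} (hδ : 0 < δ) (hδ1 : δ ≤ 1) {K : Type*} [AddCommGroup K]
    {L : ℤ → AddSubgroup K} (hL : Antitone L) (htop : ∀ x, ∃ l, x ∈ L l)
    (hbot : ∀ x, x ≠ 0 → ∃ l, x ∉ L l) (A : Finset (K × K)) (J : Finset ℤ) (ρ : ℤ → K →+ K)
    (hρ : ∀ i ∈ J, ∀ y l, ρ i y ∈ L (l + i) ↔ y ∈ L l) (θ₁ θ₂ : ℝ) (hθ₂ : 0 < θ₂) :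
    ∑ i ∈ J, ((A.filter fun a => 2 * θ₁ + θ₂ + δ * Real.log (A.card : ℝ) ≤
      Real.log (ct A (fun a : K × K => a.1 + ρ i a.2) a)).card : ℝ) ≤
      J.card * (2 * (A.card * Real.exp (-θ₁))) +
      A.card * Real.log (A.card : ℝ) * (1 + 2 * Real.log (A.card : ℝ) +
        2 * (40 + Real.exp (1 / δ)) * Real.log (A.card : ℝ)) / θ₂ := by
  -- differences
  set X : Finset K := (A ×ˢ A).image (fun c => c.1.1 - c.2.1) ∪
    (A ×ˢ A).image (fun c => c.1.2 - c.2.2) with hX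
  have hX1 : ∀ a ∈ A, ∀ b ∈ A, a.1 - b.1 ∈ X := fun a ha b hb =>
    mem_union_left _ (mem_image.2 ⟨(a, b), mem_product.2 ⟨ha, hb⟩, rfl⟩)
  have hX2 : ∀ a ∈ A, ∀ b ∈ A, a.2 - b.2 ∈ X := fun a ha b hb =>
    mem_union_right _ (mem_image.2 ⟨(a, b), mem_product.2 ⟨ha, hb⟩, rfl⟩)
  obtain ⟨l0, hl0⟩ := filt_low hL htop X
  obtain ⟨l1, hl1⟩ := filt_high hL hbot X
  set B : ℤ := ∑ i ∈ J, |i| with hB
  have hBi : ∀ i ∈ J, |i| ≤ B := fun i hi =>
    single_le_sum (f := fun i : ℤ => |i|) (fun _ _ => abs_nonneg _) hi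
  set c : ℤ := l0 - B with hc
  set T : ℕ := (l1 - c).toNat with hT
  have hTc : l1 ≤ c + T := by
    have := Int.self_le_toNat (l1 - c)
    omega
  set P : ℕ → K × K → Set K := fun s a => cos (L (c + s)) a.1 with hP
  set Q : ℕ → K × K → Set K := fun s a => cos (L (c + s)) a.2 with hQ
  set Z : ℤ → ℕ → K × K → Set K := fun i t a =>
    cos (L (c + (i.toNat + t : ℕ))) (a.1 + ρ i a.2) with hZ
  have hPQ : ∀ s : ℕ, L (c + (s + 1 : ℕ)) ≤ L (c + s) := fun s => hL (by push_cast; omega)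
  -- the multiplication shifts the filtration
  have hρ' : ∀ i ∈ J, ∀ t : ℕ, ∀ y, ρ i y ∈ L (c + (i.toNat + t : ℕ)) ↔
      y ∈ L (c + ((-i).toNat + t : ℕ)) := by
    intro i hi t y
    have h := hρ i hi y (c + ((-i).toNat + t : ℕ))
    have e : c + (((-i).toNat + t : ℕ) : ℤ) + i = c + (i.toNat + t : ℕ) := by
      push_cast
      omega
    rwa [e] at h
  have hz : ∀ i (a b : K × K), (a.1 + ρ i a.2) - (b.1 + ρ i b.2) =
      (a.1 - b.1) + ρ i (a.2 - b.2) := by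
    intro i a b
    rw [map_sub]
    abel
  apply weak_core hδ hδ1 (P := P) (Q := Q) (Z := Z) (T := T) (hθ₂ := hθ₂)
  · intro s a _ b _ h
    exact cos_eq.2 (hPQ s (cos_eq.1 h))
  · intro s a _ b _ h
    exact cos_eq.2 (hPQ s (cos_eq.1 h))
  · intro i hi t a _ b _ h1 h2
    apply cos_eq.2
    rw [hz]
    exact AddSubgroup.add_mem _ (cos_eq.1 h1) ((hρ' i hi t _).2 (cos_eq.1 h2))
  · intro i hi t a _ b _ h1 h2
    apply cos_eq.2
    have h3 := cos_eq.1 h1
    rw [hz] at h3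
    have h4 := (hρ' i hi t _).2 (cos_eq.1 h2)
    have e : a.1 - b.1 = ((a.1 - b.1) + ρ i (a.2 - b.2)) - ρ i (a.2 - b.2) := by abel
    rw [e]
    exact AddSubgroup.sub_mem _ h3 h4
  · intro i hi t a _ b _ h1 h2
    apply cos_eq.2
    have h3 := cos_eq.1 h1
    rw [hz] at h3
    apply (hρ' i hi t _).1
    have e : ρ i (a.2 - b.2) = ((a.1 - b.1) + ρ i (a.2 - b.2)) - (a.1 - b.1) := by abel
    rw [e]
    exact AddSubgroup.sub_mem _ h3 (cos_eq.1 h2)
  · intro i hi t a _ b _ h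
    exact cos_eq.2 (hPQ _ (cos_eq.1 h))
  · intro i hi a ha b hb
    have h1 := hBi i hi
    have h2 : c + (i.toNat : ℤ) ≤ l0 := by
      have := le_abs_self i
      have := abs_nonneg i
      omega
    have h3 : c + ((-i).toNat : ℤ) ≤ l0 := by
      have := neg_le_abs i
      have := abs_nonneg i
      omega
    exact ⟨cos_eq.2 (hL h2 (hl0 _ (hX1 a ha b hb))), cos_eq.2 (hL h3 (hl0 _ (hX2 a ha b hb)))⟩
  · intro i hi a ha b hb h1 h2
    have h3 : l1 ≤ c + ((i.toNat + T : ℕ) : ℤ) := by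
      push_cast
      omega
    have h4 : l1 ≤ c + (((-i).toNat + T : ℕ) : ℤ) := by
      push_cast
      omega
    have h5 := hl1 _ (hX1 a ha b hb) (hL h3 (cos_eq.1 h1))
    have h6 := hl1 _ (hX2 a ha b hb) (hL h4 (cos_eq.1 h2))
    exact Prod.ext (sub_eq_zero.1 h5) (sub_eq_zero.1 h6)
  · intro i hi a _ b _ h
    have h' : a.1 + ρ i a.2 = b.1 + ρ i b.2 := h
    show cos _ (a.1 + ρ i a.2) = cos _ (b.1 + ρ i b.2)
    rw [h']

/-- a dense subset with a small image gives many points on large fibres -/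
theorem many_large {α ζ : Type*} {A A' : Finset α} (hA : A.Nonempty) (hsub : A' ⊆ A)
    {z : α → ζ} {K ε : ℝ} (hK : 1 ≤ K) (hd : (A.card : ℝ) ≤ K * A'.card)
    (h : ((A'.image z).card : ℝ) ≤ (A.card : ℝ) ^ (1 - ε)) {θ : ℝ}
    (hθ : θ ≤ ε * Real.log (A.card : ℝ) - Real.log (2 * K)) :
    (A.card : ℝ) / (2 * K) ≤ ((A.filter fun a => θ ≤ Real.log (ct A z a)).card : ℝ) := by
  have hn : (0 : ℝ) < A.card := by exact_mod_cast card_pos.2 hA
  have hK0 : 0 < K := by linarith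
  set τ : ℝ := (A.card : ℝ) ^ ε / (2 * K) with hτ
  have hτ0 : 0 < τ := by positivity
  have hlogτ : Real.log τ = ε * Real.log (A.card : ℝ) - Real.log (2 * K) := by
    rw [hτ, Real.log_div (by positivity) (by positivity), Real.log_rpow hn]
  -- the points of A' on small fibres
  have hsmall : ((A'.filter fun a => ct A z a < τ).card : ℝ) ≤
      (A'.image z).card * τ := by
    set G := A'.filter fun a => ct A z a < τ with hG
    rw [← sum_cv G z]
    have h1 : ∑ c ∈ G.image z, cv G z c ≤ ∑ c ∈ G.image z, τ := by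
      apply sum_le_sum
      intro c hc
      obtain ⟨a, ha, rfl⟩ := mem_image.1 hc
      have h2 : cv G z (z a) ≤ ct A z a := by
        unfold ct cv
        apply Nat.cast_le.2
        apply card_le_card
        intro b hb
        obtain ⟨h3, h4⟩ := mem_filter.1 hb
        exact mem_filter.2 ⟨hsub (mem_filter.1 h3).1, h4⟩
      exact h2.trans (mem_filter.1 ha).2.le
    have h2 : ((G.image z).card : ℝ) ≤ (A'.image z).card := by
      have h3 : G.image z ⊆ A'.image z := image_subset_image (filter_subset _ _)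
      exact Nat.cast_le.2 (card_le_card h3)
    rw [sum_const, nsmul_eq_mul] at h1
    exact h1.trans (mul_le_mul_of_nonneg_right h2 hτ0.le)
  have h1 : ((A'.image z).card : ℝ) * τ ≤ (A.card : ℝ) / (2 * K) := by
    calc ((A'.image z).card : ℝ) * τ ≤ (A.card : ℝ) ^ (1 - ε) * τ :=
          mul_le_mul_of_nonneg_right h hτ0.le
      _ = (A.card : ℝ) / (2 * K) := by
          rw [hτ, ← mul_div_assoc, ← Real.rpow_add hn]
          congr 1
          have : 1 - ε + ε = 1 := by ring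
          rw [this, Real.rpow_one]
  have h2 : (A.card : ℝ) / K ≤ A'.card := by
    rw [div_le_iff₀ hK0]
    linarith
  have h3 : ((A'.filter fun a => ct A z a < τ).card : ℝ) +
      ((A'.filter fun a => ¬ ct A z a < τ).card : ℝ) = A'.card := by
    exact_mod_cast Finset.card_filter_add_card_filter_not (s := A') (fun a => ct A z a < τ)
  have h4 : ((A'.filter fun a => ¬ ct A z a < τ).card : ℝ) ≤
      ((A.filter fun a => θ ≤ Real.log (ct A z a)).card : ℝ) := by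
    apply Nat.cast_le.2
    apply card_le_card
    intro a ha
    obtain ⟨h5, h6⟩ := mem_filter.1 ha
    refine mem_filter.2 ⟨hsub h5, ?_⟩
    rw [← hlogτ] at hθ
    exact hθ.trans (Real.log_le_log hτ0 (not_lt.1 h6))
  have h5 : (A.card : ℝ) / K = (A.card : ℝ) / (2 * K) + (A.card : ℝ) / (2 * K) := by
    field_simp
    ring
  linarith

end Pool.Agent.H85.AK
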